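import Pool.Agent.Lib_MP_af4de1_v.Conn

/-!
# The integral representation with tilted tails [SV-REP]

Let `f(H) = cexp(Ph ζ H/t)`.  FIRST `Re t > 0`: `∫_ℝ cexp(Ph ζ (sI)/t) ds = E t (ζ/t e^{-t/2}) √(2πt)` : expand
`cexp((ζ/t) e^{sI}) = ∑ (ζ/t)^n e^{nsI}/n!`, `∫ exp(-s²/(2t) + nsI) ds = √(2πt) e^{-tn²/2}`.
Then move the two half lines (`SokalU.contour`).
SECOND `Re t = 0`, `Im t < 0`: apply the first case to `t + ε` and let `ε → 0+`: the left side is continuous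
(`SokalU.continuousOn_E`), the tails converge by dominated convergence.
`rep_DE`: the same with the factor `ζ e^H` (`DE t y = ∑ n q^{n(n-1)/2} y^n/n!`, `t x e^H = ζ e^H`).
Both are treated at the same time, with the factor `(ζ e^H)^j`.
-/

namespace SokalV

open Complex MeasureTheory Filter Topology

/-- the integrand with the weight `(ζ e^H)^j` -/
private noncomputable def gi (j : ℕ) (ζ t H : ℂ) : ℂ := (ζ * cexp H) ^ j * cexp (Ph ζ H / t)

private theorem gi_diff (j : ℕ) (ζ t : ℂ) : Differentiable ℂ (gi j ζ t) := by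
  unfold gi Ph
  fun_prop

private theorem gi_cont (j : ℕ) (ζ t : ℂ) : Continuous (gi j ζ t) := (gi_diff j ζ t).continuous

private theorem exp_mul3 (a b c : ℝ) : a * Real.exp b * Real.exp c = a * Real.exp (b + c) := by
  rw [mul_assoc, ← Real.exp_add]

private theorem gi_norm (j : ℕ) (ζ t : ℂ) {x : ℝ} (hx : |x| ≤ 1) (y : ℝ) :
    ‖gi j ζ t (x + y * I)‖ ≤ (3 * ‖ζ‖) ^ j *
      Real.exp ((t⁻¹).re * (x ^ 2 - y ^ 2) / 2 - (t⁻¹).im * x * y + 3 * ‖ζ‖ * ‖t⁻¹‖) := by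
  have he : Real.exp x ≤ 3 := by
    have h1 : Real.exp x ≤ Real.exp 1 := Real.exp_le_exp.2 (abs_le.1 hx).2
    linarith [Real.exp_one_lt_d9]
  have hn : ‖cexp (x + y * I)‖ = Real.exp x := by
    rw [Complex.norm_exp]; simp
  have hz : 0 ≤ ‖ζ‖ := norm_nonneg ζ
  have hT : 0 ≤ ‖t⁻¹‖ := norm_nonneg _
  unfold gi
  rw [norm_mul, norm_pow, norm_mul, hn]
  refine mul_le_mul (pow_le_pow_left₀ (by positivity) (by nlinarith) j) ?_ (norm_nonneg _)
    (by positivity)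
  rw [Complex.norm_exp, Real.exp_le_exp]
  have e : Ph ζ (x + y * I) / t =
      ((x : ℂ) + y * I) ^ 2 / 2 * t⁻¹ + ζ * cexp (x + y * I) * t⁻¹ := by
    unfold Ph; rw [div_eq_mul_inv]; ring
  rw [e, add_re]
  have e1 : (((x : ℂ) + y * I) ^ 2 / 2 * t⁻¹).re =
      (t⁻¹).re * (x ^ 2 - y ^ 2) / 2 - (t⁻¹).im * x * y := by
    have h0 : ((x : ℂ) + y * I) ^ 2 / 2 =
        (((x ^ 2 - y ^ 2) / 2 : ℝ) : ℂ) + ((x * y : ℝ) : ℂ) * I := by
      have h3 : ((x : ℂ) + y * I) ^ 2 = x ^ 2 + 2 * x * y * I + y ^ 2 * I ^ 2 := by ring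
      rw [h3, I_sq]
      push_cast
      ring
    rw [h0, add_mul, add_re, re_ofReal_mul, mul_assoc, re_ofReal_mul, mul_comm I, mul_I_re]
    ring
  have e2 : (ζ * cexp (x + y * I) * t⁻¹).re ≤ 3 * ‖ζ‖ * ‖t⁻¹‖ := by
    refine (Complex.re_le_norm _).trans ?_
    rw [norm_mul, norm_mul, hn]
    have : ‖ζ‖ * Real.exp x ≤ 3 * ‖ζ‖ := by nlinarith
    exact mul_le_mul_of_nonneg_right this hT
  linarith

/-- The Gaussian representation with the weight. -/
private theorem gen {t : ℂ} (ht : 0 < t.re) (ζ : ℂ) (j : ℕ) :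
    SokalU.gcst t⁻¹ * (t ^ j * SokalU.Ef j t (ζ / t * cexp (-t / 2))) =
      ∫ y : ℝ, gi j ζ t (y * I) := by
  have ht0 : t ≠ 0 := by
    intro h; rw [h] at ht; simp at ht
  set T : ℂ := t⁻¹ with hT
  have hTre : 0 < T.re := SokalU.gauss_inv_re ht
  set κ : ℂ := ζ / t with hκ
  set z : ℂ := κ * cexp (-t / 2) with hz
  -- the terms
  set G : ℕ → ℝ → ℂ := fun n y => ζ ^ j * κ ^ n / (n.factorial : ℂ) *
    cexp (-(T / 2) * y ^ 2 + (I * (((n + j : ℕ) : ℂ) - 0)) * y + -0) with hG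
  have hb : (-(T / 2)).re < 0 := SokalU.gauss_re_pos hTre
  have hint : ∀ n, Integrable (G n) := by
    intro n
    exact (integrable_cexp_quadratic' hb _ _).const_mul _
  have hnorm : ∀ n y, ‖G n y‖ = ‖ζ‖ ^ j * ‖κ‖ ^ n / (n.factorial : ℝ) *
      ‖cexp (-(T / 2) * y ^ 2 + 0 * y + 0)‖ := by
    intro n y
    rw [hG]
    simp only
    rw [norm_mul, norm_div, norm_mul, norm_pow, norm_pow, Complex.norm_natCast]
    congr 1
    rw [Complex.norm_exp, Complex.norm_exp]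
    congr 1
    have : (-(T / 2) * (y : ℂ) ^ 2 + I * ((n + j : ℕ) - 0) * y + -0 : ℂ) =
      (-(T / 2) * (y : ℂ) ^ 2 + 0 * y + 0 : ℂ) + (((n + j : ℕ) : ℝ) * y : ℝ) * I := by
      push_cast; ring
    rw [this, Complex.add_re, Complex.re_ofReal_mul, Complex.I_re]
    simp
  have hsum : Summable fun n => ∫ y, ‖G n y‖ := by
    simp only [hnorm]
    have h1 : (fun n : ℕ => ∫ y : ℝ, ‖ζ‖ ^ j * ‖κ‖ ^ n / (n.factorial : ℝ) *
        ‖cexp (-(T / 2) * y ^ 2 + 0 * y + 0)‖) =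
        fun n : ℕ => (‖κ‖ ^ n / (n.factorial : ℝ)) * (‖ζ‖ ^ j *
          ∫ y : ℝ, ‖cexp (-(T / 2) * y ^ 2 + 0 * y + 0)‖) := by
      funext n
      rw [integral_const_mul]
      ring
    rw [h1]
    exact (Real.summable_pow_div_factorial _).mul_right _
  have hs := hasSum_integral_of_summable_integral_norm hint hsum
  -- the integrand
  have hI : ∀ y : ℝ, (∑' n, G n y) = gi j ζ t (y * I) := by
    intro y
    have h1 : HasSum (fun n : ℕ => (κ * cexp (y * I)) ^ n / (n.factorial : ℂ))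
        (cexp (κ * cexp (y * I))) := by
      rw [Complex.exp_eq_exp_ℂ]
      exact NormedSpace.expSeries_div_hasSum_exp (κ * NormedSpace.exp (y * I))
    have h2 := h1.mul_left ((ζ * cexp (y * I)) ^ j * cexp (-(T / 2) * y ^ 2))
    have h3 : (fun n : ℕ => (ζ * cexp (y * I)) ^ j * cexp (-(T / 2) * y ^ 2) *
        ((κ * cexp (y * I)) ^ n / (n.factorial : ℂ))) = fun n => G n y := by
      funext n
      rw [hG]
      simp only
      have h4 : cexp (-(T / 2) * (y : ℂ) ^ 2 + I * ((n + j : ℕ) - 0) * y + -0) =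
          cexp (-(T / 2) * y ^ 2) * cexp (y * I) ^ (n + j) := by
        rw [← Complex.exp_nat_mul, ← Complex.exp_add]
        congr 1
        push_cast
        ring
      rw [h4, pow_add, mul_pow, mul_pow]
      ring
    rw [h3] at h2
    rw [h2.tsum_eq, gi, mul_assoc, ← Complex.exp_add]
    congr 2
    unfold Ph
    rw [mul_pow, I_sq, hκ, hT, div_eq_mul_inv, div_eq_mul_inv]
    ring
  rw [integral_congr_ae (Filter.Eventually.of_forall hI)] at hs
  -- the sum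
  have hE := (SokalU.Ef_hasSum ht.le j z).mul_left (SokalU.gcst T * t ^ j)
  have hEq : (fun n : ℕ => SokalU.gcst T * t ^ j *
      (cexp (-(t * (((n + j : ℕ) : ℂ) * ((n + j : ℕ) - 1) / 2))) * z ^ (n + j) /
      (n.factorial : ℂ))) = fun n => ∫ y : ℝ, G n y := by
    funext n
    rw [hG]
    simp only
    rw [integral_const_mul, SokalU.gauss_term hTre]
    have h5 : z ^ (n + j) = κ ^ (n + j) * cexp (((n + j : ℕ) : ℂ) * (-t / 2)) := by
      rw [Complex.exp_nat_mul, ← mul_pow]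
    have h6 : cexp (-(t * (((n + j : ℕ) : ℂ) * ((n + j : ℕ) - 1) / 2))) *
          cexp (((n + j : ℕ) : ℂ) * (-t / 2)) =
        cexp (-0 - (((n + j : ℕ) : ℂ) - 0) ^ 2 / (2 * T)) := by
      rw [← Complex.exp_add]
      congr 1
      rw [hT]
      field_simp
      ring
    have h7 : t ^ j * κ ^ (n + j) = ζ ^ j * κ ^ n := by
      rw [pow_add, mul_left_comm, ← mul_pow, hκ, mul_div_cancel₀ _ ht0, mul_comm]
    rw [h5, ← h6]
    calc _ = (t ^ j * κ ^ (n + j)) * (SokalU.gcst T *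
          (cexp (-(t * (((n + j : ℕ) : ℂ) * ((n + j : ℕ) - 1) / 2))) *
          cexp (((n + j : ℕ) : ℂ) * (-t / 2)))) / (n.factorial : ℂ) := by ring
      _ = _ := by rw [h7]; ring
  rw [hEq] at hE
  rw [← mul_assoc]
  exact hE.unique hs

/-- The formula with `R = 1` and the middle part as an integral. -/
private theorem rep_one_pos {t : ℂ} (ht : 0 < t.re) (ζ : ℂ) (j : ℕ) :
    SokalU.gcst t⁻¹ * (t ^ j * SokalU.Ef j t (ζ / t * cexp (-t / 2))) =
      (∫ s in Set.Ioi (1 : ℝ), gi j ζ t (1 + s * I)) +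
      (∫ s in Set.Ioi (1 : ℝ), gi j ζ t (-1 + s * -I)) +
      (1 - I) * ∫ s in (-1 : ℝ)..1, gi j ζ t (s + s * I) := by
  have hA : 0 < (t⁻¹).re := SokalU.gauss_inv_re ht
  set A : ℝ := (t⁻¹).re with hAdef
  set B : ℝ := (t⁻¹).im with hBdef
  set K : ℝ := (3 * ‖ζ‖) ^ j * Real.exp (A / 2 + B ^ 2 / A + 3 * ‖ζ‖ * ‖t⁻¹‖) with hK
  have hG : Integrable fun y : ℝ => K * Real.exp (-(A / 4) * y ^ 2) :=
    (integrable_exp_neg_mul_sq (by positivity)).const_mul _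
  have hG0 : Tendsto (fun y : ℝ => K * Real.exp (-(A / 4) * y ^ 2)) (cocompact ℝ) (𝓝 0) := by
    have h1 := (tendsto_rpow_abs_mul_exp_neg_mul_sq_cocompact (a := A / 4) (by positivity) 0).const_mul K
    simpa using h1
  have hb : ∀ x y : ℝ, |x| ≤ 1 * 1 → ‖gi j ζ t (x + y * I)‖ ≤
      K * Real.exp (-(A / 4) * y ^ 2) := by
    intro x y hx
    rw [one_mul] at hx
    refine (gi_norm j ζ t hx y).trans ?_
    rw [hK, exp_mul3]
    refine mul_le_mul_of_nonneg_left (Real.exp_le_exp.2 ?_) (by positivity)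
    rw [← hAdef, ← hBdef]
    have hx2 : x ^ 2 ≤ 1 := by
      rw [← sq_abs]; nlinarith [abs_nonneg x]
    have h1 : -(B * x * y) ≤ B ^ 2 / A + A / 4 * y ^ 2 := by
      have h2 : 0 ≤ (B * x / √A + √A / 2 * y) ^ 2 := sq_nonneg _
      have hs : √A ≠ 0 := (Real.sqrt_pos.2 hA).ne'
      have hss : √A ^ 2 = A := Real.sq_sqrt hA.le
      have h3 : (B * x / √A + √A / 2 * y) ^ 2 = B ^ 2 * x ^ 2 / A + B * x * y + A / 4 * y ^ 2 := by
        have : (B * x / √A + √A / 2 * y) ^ 2 =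
          (B * x) ^ 2 / √A ^ 2 + B * x * y * (√A / √A) + √A ^ 2 / 4 * y ^ 2 := by ring
        rw [this, hss, div_self hs]; ring
      have h4 : B ^ 2 * x ^ 2 / A ≤ B ^ 2 / A := by
        apply div_le_div_of_nonneg_right _ hA.le
        nlinarith [sq_nonneg B]
      linarith
    nlinarith
  have h := SokalU.contour (gi_diff j ζ t) (c := 1) (s1 := 1) zero_le_one zero_lt_one hG hG0 hb
  rw [gen ht, h]
  congr 1
  · congr 1
    · simp
    · rw [← integral_Iic_eq_integral_Iio, ← integral_comp_neg_Ioi]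
      simp
  · congr 1
    · simp
    · congr 1
      funext s
      congr 1
      push_cast
      ring

private theorem gi_tail (j : ℕ) (ζ t : ℂ) (hA : 0 ≤ (t⁻¹).re) {s : ℝ} (hs : 1 ≤ s) :
    ‖gi j ζ t (1 + s * I)‖ ≤ (3 * ‖ζ‖) ^ j * Real.exp ((t⁻¹).re / 2 + 3 * ‖ζ‖ * ‖t⁻¹‖ -
      ((t⁻¹).re / 2 + (t⁻¹).im) * s) ∧
    ‖gi j ζ t (-1 + s * -I)‖ ≤ (3 * ‖ζ‖) ^ j * Real.exp ((t⁻¹).re / 2 + 3 * ‖ζ‖ * ‖t⁻¹‖ -
      ((t⁻¹).re / 2 + (t⁻¹).im) * s) := by
  have h1 := gi_norm j ζ t (x := 1) (by simp) s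
  have h2 := gi_norm j ζ t (x := -1) (by simp) (-s)
  have e1 : (((1 : ℝ) : ℂ) + s * I) = 1 + s * I := by simp
  have e2 : (((-1 : ℝ) : ℂ) + ((-s : ℝ) : ℂ) * I) = -1 + s * -I := by push_cast; ring
  rw [e1] at h1
  rw [e2] at h2
  have h3 : (t⁻¹).re * s ≤ (t⁻¹).re * s ^ 2 :=
    mul_le_mul_of_nonneg_left (by nlinarith) hA
  refine ⟨h1.trans (mul_le_mul_of_nonneg_left (Real.exp_le_exp.2 ?_) (by positivity)),
    h2.trans (mul_le_mul_of_nonneg_left (Real.exp_le_exp.2 ?_) (by positivity))⟩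
  · nlinarith
  · nlinarith

private theorem gi_line_cont (j : ℕ) (ζ t a b : ℂ) :
    Continuous fun s : ℝ => gi j ζ t (a + s * b) :=
  (gi_cont j ζ t).comp (by fun_prop)

private theorem gi_int (j : ℕ) (ζ : ℂ) {t : ℂ} (ht : t ≠ 0) (hre : 0 ≤ t.re) (him : t.im ≤ 0) :
    IntegrableOn (fun s : ℝ => gi j ζ t (1 + s * I)) (Set.Ioi 1) ∧
    IntegrableOn (fun s : ℝ => gi j ζ t (-1 + s * -I)) (Set.Ioi 1) := by
  have hN : 0 < normSq t := normSq_pos.2 ht
  have hA : 0 ≤ (t⁻¹).re := by rw [inv_re]; exact div_nonneg hre hN.le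
  have hB : 0 ≤ (t⁻¹).im := by rw [inv_im]; exact div_nonneg (by linarith) hN.le
  have hAB : 0 < (t⁻¹).re / 2 + (t⁻¹).im := by
    rcases hA.lt_or_eq with h | h
    · linarith
    rcases hB.lt_or_eq with h' | h'
    · linarith
    exfalso
    apply inv_ne_zero ht
    apply Complex.ext
    · rw [← h]; simp
    · rw [← h']; simp
  set δ : ℝ := (t⁻¹).re / 2 + (t⁻¹).im with hδ
  set K : ℝ := (3 * ‖ζ‖) ^ j * Real.exp ((t⁻¹).re / 2 + 3 * ‖ζ‖ * ‖t⁻¹‖) with hK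
  have hbd : IntegrableOn (fun s : ℝ => K * Real.exp (-δ * s)) (Set.Ioi 1) :=
    (exp_neg_integrableOn_Ioi 1 hAB).const_mul K
  have e : ∀ s : ℝ, (3 * ‖ζ‖) ^ j * Real.exp ((t⁻¹).re / 2 + 3 * ‖ζ‖ * ‖t⁻¹‖ - δ * s) =
      K * Real.exp (-δ * s) := by
    intro s
    rw [hK, exp_mul3]
    congr 2
    ring
  constructor
  · refine hbd.mono' (gi_line_cont j ζ t 1 I).aestronglyMeasurable ?_
    filter_upwards [ae_restrict_mem measurableSet_Ioi] with s hs
    rw [← e]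
    exact (gi_tail j ζ t hA (le_of_lt hs)).1
  · refine hbd.mono' (gi_line_cont j ζ t (-1) (-I)).aestronglyMeasurable ?_
    filter_upwards [ae_restrict_mem measurableSet_Ioi] with s hs
    rw [← e]
    exact (gi_tail j ζ t hA (le_of_lt hs)).2

/-- The formula with `R = 1` in general. -/
private theorem rep_one {t : ℂ} (ht : t ≠ 0) (hre : 0 ≤ t.re) (him : t.im ≤ 0) (ζ : ℂ) (j : ℕ) :
    SokalU.gcst t⁻¹ * (t ^ j * SokalU.Ef j t (ζ / t * cexp (-t / 2))) =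
      (∫ s in Set.Ioi (1 : ℝ), gi j ζ t (1 + s * I)) +
      (∫ s in Set.Ioi (1 : ℝ), gi j ζ t (-1 + s * -I)) +
      (1 - I) * ∫ s in (-1 : ℝ)..1, gi j ζ t (s + s * I) := by
  rcases hre.lt_or_eq with h | h
  · exact rep_one_pos h ζ j
  have him' : t.im < 0 := by
    rcases him.lt_or_eq with h' | h'
    · exact h'
    · exact absurd (Complex.ext h.symm h') ht
  -- t + ε
  have hne : ∀ ε : ℝ, t + ε ≠ 0 := by
    intro ε h0
    have := congrArg Complex.im h0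
    simp at this
    linarith
  have htε : Tendsto (fun ε : ℝ => t + ε) (𝓝[>] 0) (𝓝 t) := by
    have h1 : ContinuousAt (fun ε : ℝ => t + ε) 0 := by fun_prop
    have h2 := h1.tendsto.mono_left (nhdsWithin_le_nhds (s := Set.Ioi 0))
    simpa using h2
  have hinv : Tendsto (fun ε : ℝ => (t + ε)⁻¹) (𝓝[>] 0) (𝓝 t⁻¹) := htε.inv₀ ht
  have hgi : ∀ H : ℂ, Tendsto (fun ε : ℝ => gi j ζ (t + ε) H) (𝓝[>] 0) (𝓝 (gi j ζ t H)) := by
    intro H
    unfold gi
    refine Tendsto.const_mul _ ?_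
    refine (Complex.continuous_exp.tendsto _).comp ?_
    simp only [div_eq_mul_inv]
    exact hinv.const_mul _
  -- bounds of 1/(t+ε)
  set b : ℝ := -t.im with hb
  have hb0 : 0 < b := by rw [hb]; linarith
  have hnsq : ∀ ε : ℝ, normSq (t + ε) = ε ^ 2 + b ^ 2 := by
    intro ε
    rw [normSq_apply, add_re, add_im, ofReal_re, ofReal_im, ← h, hb]
    ring
  have hA : ∀ ε : ℝ, ((t + ε)⁻¹).re = ε / (ε ^ 2 + b ^ 2) := by
    intro ε
    rw [inv_re, hnsq, add_re, ofReal_re, ← h, zero_add]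
  have hB : ∀ ε : ℝ, ((t + ε)⁻¹).im = b / (ε ^ 2 + b ^ 2) := by
    intro ε
    rw [inv_im, hnsq, add_im, ofReal_im, add_zero]
  have hT : ∀ ε : ℝ, ‖(t + ε)⁻¹‖ ≤ 1 / b := by
    intro ε
    rw [norm_inv, one_div]
    apply inv_anti₀ hb0
    have := Complex.abs_im_le_norm (t + ε)
    rw [add_im, ofReal_im, add_zero] at this
    refine le_trans ?_ this
    rw [hb]
    exact neg_le_abs _
  set δ : ℝ := b / (1 + b ^ 2) with hδ
  have hδ0 : 0 < δ := by positivity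
  set K : ℝ := (3 * ‖ζ‖) ^ j * Real.exp (1 / b ^ 2 + 3 * ‖ζ‖ * (1 / b)) with hK
  have hbd : IntegrableOn (fun s : ℝ => K * Real.exp (-δ * s)) (Set.Ioi 1) :=
    (exp_neg_integrableOn_Ioi 1 hδ0).const_mul K
  have hev : ∀ᶠ ε : ℝ in 𝓝[>] 0, 0 < ε ∧ ε < 1 := by
    have := Ioo_mem_nhdsGT (show (0 : ℝ) < 1 by norm_num)
    filter_upwards [this] with ε hε
    exact hε
  have hcmp : ∀ ε : ℝ, 0 < ε → ε < 1 → ∀ s : ℝ, 1 ≤ s →
      (3 * ‖ζ‖) ^ j * Real.exp (((t + ε)⁻¹).re / 2 + 3 * ‖ζ‖ * ‖(t + ε)⁻¹‖ -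
      (((t + ε)⁻¹).re / 2 + ((t + ε)⁻¹).im) * s) ≤ K * Real.exp (-δ * s) := by
    intro ε h0 h1 s hs
    rw [hK, exp_mul3]
    refine mul_le_mul_of_nonneg_left (Real.exp_le_exp.2 ?_) (by positivity)
    have a1 : 0 ≤ ((t + ε)⁻¹).re := by rw [hA]; positivity
    have a2 : ((t + ε)⁻¹).re ≤ 1 / b ^ 2 := by
      rw [hA]
      apply div_le_div₀ zero_le_one h1.le (by positivity)
      nlinarith
    have a3 : δ ≤ ((t + ε)⁻¹).im := by
      rw [hB, hδ]
      apply div_le_div_of_nonneg_left hb0.le (by positivity)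
      nlinarith
    have a4 : 3 * ‖ζ‖ * ‖(t + ε)⁻¹‖ ≤ 3 * ‖ζ‖ * (1 / b) :=
      mul_le_mul_of_nonneg_left (hT ε) (by positivity)
    have a5 : δ * s ≤ ((t + ε)⁻¹).im * s := mul_le_mul_of_nonneg_right a3 (by linarith)
    have a6 : 0 ≤ ((t + ε)⁻¹).re * s := mul_nonneg a1 (by linarith)
    nlinarith
  have l1 : Tendsto (fun ε : ℝ => ∫ s in Set.Ioi (1 : ℝ), gi j ζ (t + ε) (1 + s * I)) (𝓝[>] 0)
      (𝓝 (∫ s in Set.Ioi (1 : ℝ), gi j ζ t (1 + s * I))) := by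
    refine tendsto_integral_filter_of_dominated_convergence _ ?_ ?_ hbd ?_
    · exact Eventually.of_forall fun ε => (gi_line_cont j ζ (t + ε) 1 I).aestronglyMeasurable
    · filter_upwards [hev] with ε hε
      filter_upwards [ae_restrict_mem measurableSet_Ioi] with s hs
      have a1 : 0 ≤ ((t + ε)⁻¹).re := by rw [hA]; have := hε.1; positivity
      exact (gi_tail j ζ (t + ε) a1 (le_of_lt hs)).1.trans (hcmp ε hε.1 hε.2 s (le_of_lt hs))
    · exact Eventually.of_forall fun s => hgi _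
  have l2 : Tendsto (fun ε : ℝ => ∫ s in Set.Ioi (1 : ℝ), gi j ζ (t + ε) (-1 + s * -I)) (𝓝[>] 0)
      (𝓝 (∫ s in Set.Ioi (1 : ℝ), gi j ζ t (-1 + s * -I))) := by
    refine tendsto_integral_filter_of_dominated_convergence _ ?_ ?_ hbd ?_
    · exact Eventually.of_forall fun ε => (gi_line_cont j ζ (t + ε) (-1) (-I)).aestronglyMeasurable
    · filter_upwards [hev] with ε hε
      filter_upwards [ae_restrict_mem measurableSet_Ioi] with s hs
      have a1 : 0 ≤ ((t + ε)⁻¹).re := by rw [hA]; have := hε.1; positivity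
      exact (gi_tail j ζ (t + ε) a1 (le_of_lt hs)).2.trans (hcmp ε hε.1 hε.2 s (le_of_lt hs))
    · exact Eventually.of_forall fun s => hgi _
  have l3 : Tendsto (fun ε : ℝ => ∫ s in (-1 : ℝ)..1, gi j ζ (t + ε) (s + s * I)) (𝓝[>] 0)
      (𝓝 (∫ s in (-1 : ℝ)..1, gi j ζ t (s + s * I))) := by
    refine intervalIntegral.tendsto_integral_filter_of_dominated_convergence
      (fun _ => (3 * ‖ζ‖) ^ j * Real.exp (3 * ‖ζ‖ * (1 / b))) ?_ ?_ ?_ ?_
    · refine Eventually.of_forall fun ε => ?_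
      exact ((gi_cont j ζ (t + ε)).comp (by fun_prop :
        Continuous fun s : ℝ => (s : ℂ) + s * I)).aestronglyMeasurable
    · filter_upwards [hev] with ε hε
      refine Eventually.of_forall fun s hs => ?_
      rw [Set.uIoc_of_le (by norm_num)] at hs
      have hs1 : |s| ≤ 1 := abs_le.2 ⟨hs.1.le, hs.2⟩
      refine (gi_norm j ζ (t + ε) hs1 s).trans ?_
      refine mul_le_mul_of_nonneg_left (Real.exp_le_exp.2 ?_) (by positivity)
      have a3 : 0 ≤ ((t + ε)⁻¹).im := by rw [hB]; positivity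
      have a4 : 3 * ‖ζ‖ * ‖(t + ε)⁻¹‖ ≤ 3 * ‖ζ‖ * (1 / b) :=
        mul_le_mul_of_nonneg_left (hT ε) (by positivity)
      have a5 : 0 ≤ ((t + ε)⁻¹).im * (s * s) := mul_nonneg a3 (mul_self_nonneg s)
      nlinarith
    · exact intervalIntegrable_const
    · exact Eventually.of_forall fun s _ => hgi _
  have l4 : Tendsto (fun ε : ℝ => SokalU.gcst (t + ε)⁻¹) (𝓝[>] 0) (𝓝 (SokalU.gcst t⁻¹)) := by
    simp only [SokalU.gcst_inv]
    refine Tendsto.cpow (htε.const_mul _) tendsto_const_nhds ?_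
    right
    have : ((2 * Real.pi * t : ℂ)).im = 2 * Real.pi * t.im := by
      rw [show (2 * Real.pi * t : ℂ) = ((2 * Real.pi : ℝ) : ℂ) * t by push_cast; ring,
        im_ofReal_mul]
    rw [this]
    have hpi := Real.pi_pos
    nlinarith
  have lz : Tendsto (fun ε : ℝ => ζ / (t + ε) * cexp (-(t + ε) / 2)) (𝓝[>] 0)
      (𝓝 (ζ / t * cexp (-t / 2))) := by
    refine Tendsto.mul (tendsto_const_nhds.div htε ht) ?_
    exact (Complex.continuous_exp.tendsto _).comp ((htε.neg).div_const 2)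
  have l5 : Tendsto (fun ε : ℝ => SokalU.Ef j (t + ε) (ζ / (t + ε) * cexp (-(t + ε) / 2)))
      (𝓝[>] 0) (𝓝 (SokalU.Ef j t (ζ / t * cexp (-t / 2)))) := by
    unfold SokalU.Ef
    refine Tendsto.mul (Tendsto.mul (lz.pow j) ?_) ?_
    · exact (Complex.continuous_exp.tendsto _).comp ((htε.mul_const _).neg)
    · have h1 : Tendsto (fun ε : ℝ => ((t + ε : ℂ),
          cexp (-((t + ε) * j)) * (ζ / (t + ε) * cexp (-(t + ε) / 2)))) (𝓝[>] 0)
          (𝓝 (t, cexp (-(t * j)) * (ζ / t * cexp (-t / 2)))) := by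
        refine htε.prodMk_nhds (Tendsto.mul ?_ lz)
        exact (Complex.continuous_exp.tendsto _).comp ((htε.mul_const _).neg)
      have h2 : Tendsto (fun p : ℂ × ℂ => SokalU.E p.1 p.2) (𝓝[{p : ℂ × ℂ | 0 ≤ p.1.re}]
          (t, cexp (-(t * j)) * (ζ / t * cexp (-t / 2))))
          (𝓝 (SokalU.E t (cexp (-(t * j)) * (ζ / t * cexp (-t / 2))))) :=
        SokalU.continuousOn_E (t, cexp (-(t * j)) * (ζ / t * cexp (-t / 2))) hre
      have h3 : Tendsto (fun ε : ℝ => ((t + ε : ℂ),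
          cexp (-((t + ε) * j)) * (ζ / (t + ε) * cexp (-(t + ε) / 2)))) (𝓝[>] 0)
          (𝓝[{p : ℂ × ℂ | 0 ≤ p.1.re}] (t, cexp (-(t * j)) * (ζ / t * cexp (-t / 2)))) := by
        refine tendsto_nhdsWithin_iff.2 ⟨h1, ?_⟩
        filter_upwards [hev] with ε hε
        show 0 ≤ ((t + ε : ℂ)).re
        rw [add_re, ofReal_re, ← h, zero_add]
        exact hε.1.le
      have h4 : Tendsto (fun ε : ℝ => SokalU.E (t + ε)
          (cexp (-((t + ε) * j)) * (ζ / (t + ε) * cexp (-(t + ε) / 2)))) (𝓝[>] 0)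
          (𝓝 (SokalU.E t (cexp (-(t * j)) * (ζ / t * cexp (-t / 2))))) := by
        have h5 := Tendsto.comp h2 h3
        rw [Function.comp_def] at h5
        exact h5
      exact h4
  have L : Tendsto (fun ε : ℝ => SokalU.gcst (t + ε)⁻¹ * ((t + ε) ^ j *
      SokalU.Ef j (t + ε) (ζ / (t + ε) * cexp (-(t + ε) / 2)))) (𝓝[>] 0)
      (𝓝 (SokalU.gcst t⁻¹ * (t ^ j * SokalU.Ef j t (ζ / t * cexp (-t / 2))))) :=
    l4.mul ((htε.pow j).mul l5)
  have R : Tendsto (fun ε : ℝ => (∫ s in Set.Ioi (1 : ℝ), gi j ζ (t + ε) (1 + s * I)) +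
      (∫ s in Set.Ioi (1 : ℝ), gi j ζ (t + ε) (-1 + s * -I)) +
      (1 - I) * ∫ s in (-1 : ℝ)..1, gi j ζ (t + ε) (s + s * I)) (𝓝[>] 0)
      (𝓝 ((∫ s in Set.Ioi (1 : ℝ), gi j ζ t (1 + s * I)) +
      (∫ s in Set.Ioi (1 : ℝ), gi j ζ t (-1 + s * -I)) +
      (1 - I) * ∫ s in (-1 : ℝ)..1, gi j ζ t (s + s * I))) :=
    (l1.add l2).add (l3.const_mul (1 - I))
  have E : ∀ᶠ ε : ℝ in 𝓝[>] 0, SokalU.gcst (t + ε)⁻¹ * ((t + ε) ^ j *
      SokalU.Ef j (t + ε) (ζ / (t + ε) * cexp (-(t + ε) / 2))) =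
      (∫ s in Set.Ioi (1 : ℝ), gi j ζ (t + ε) (1 + s * I)) +
      (∫ s in Set.Ioi (1 : ℝ), gi j ζ (t + ε) (-1 + s * -I)) +
      (1 - I) * ∫ s in (-1 : ℝ)..1, gi j ζ (t + ε) (s + s * I) := by
    filter_upwards [hev] with ε hε
    refine rep_one_pos ?_ ζ j
    rw [add_re, ofReal_re, ← h, zero_add]
    exact hε.1
  exact tendsto_nhds_unique (L.congr' E) R

private theorem path {g P : ℂ → ℂ} (hg : Continuous g) (hP : ∀ z, HasDerivAt P (g z) z)
    (a b : ℂ) (u v : ℝ) :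
    (∫ s in u..v, g (a + s * b)) * b = P (a + v * b) - P (a + u * b) := by
  have hd : ∀ s ∈ Set.uIcc u v,
      HasDerivAt (fun s : ℝ => P (a + s * b)) (g (a + s * b) * b) s := by
    intro s _
    have h1 : HasDerivAt (fun z : ℂ => a + z * b) b (s : ℂ) := by
      simpa using ((hasDerivAt_id (s : ℂ)).mul_const b).const_add a
    exact ((hP (a + s * b)).comp (s : ℂ) h1).comp_ofReal
  have hc : Continuous fun s : ℝ => g (a + s * b) * b := by fun_prop
  rw [← intervalIntegral.integral_mul_const]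
  exact intervalIntegral.integral_eq_sub_of_hasDerivAt hd (hc.intervalIntegrable _ _)

private theorem shift {g P : ℂ → ℂ} (hg : Continuous g) (hP : ∀ z, HasDerivAt P (g z) z)
    (a b : ℂ) (R : ℝ) (hi : IntegrableOn (fun s : ℝ => g (a + s * b)) (Set.Ioi 1)) :
    (∫ s in Set.Ioi (1 : ℝ), g (a + s * b)) * b =
      (∫ s in Set.Ioi R, g (a + s * b)) * b - (P (a + b) - P (a + R * b)) := by
  have hc : Continuous fun s : ℝ => g (a + s * b) := by fun_prop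
  have hiR : IntegrableOn (fun s : ℝ => g (a + s * b)) (Set.Ioi R) := by
    have h1 : IntegrableOn (fun s : ℝ => g (a + s * b)) (Set.Icc R 1 ∪ Set.Ioi 1) :=
      (hc.integrableOn_Icc).union hi
    refine h1.mono_set fun s hs => ?_
    rcases le_or_gt s 1 with h | h
    · exact Or.inl ⟨le_of_lt hs, h⟩
    · exact Or.inr h
  have h1 := intervalIntegral.integral_interval_add_Ioi hiR hi
  have h2 := path hg hP a b R 1
  rw [ofReal_one, one_mul] at h2
  rw [← h1, add_mul, h2]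
  ring

private theorem rep_gen {t ζ : ℂ} (ht : t ≠ 0) (hre : 0 ≤ t.re) (him : t.im ≤ 0) (R : ℝ) (j : ℕ)
    {P : ℂ → ℂ} (hP : ∀ H, HasDerivAt P (gi j ζ t H) H) :
    t ^ j * SokalU.Ef j t (ζ / t * cexp (-t / 2)) * (2 * Real.pi * t) ^ (1 / 2 : ℂ) * I =
      (P (1 + R * I) - P (-1 - R * I)) +
      (∫ s in Set.Ioi R, gi j ζ t (1 + s * I)) * I +
      (∫ s in Set.Iio (-R), gi j ζ t (-1 + s * I)) * I := by
  have h1 := rep_one ht hre him ζ j
  rw [SokalU.gcst_inv] at h1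
  obtain ⟨i1, i2⟩ := gi_int j ζ ht hre him
  have s1 := shift (gi_cont j ζ t) hP 1 I R i1
  have s2 := shift (gi_cont j ζ t) hP (-1) (-I) R i2
  have m := path (gi_cont j ζ t) hP 0 (1 + I) (-1) 1
  have e1 : (fun s : ℝ => gi j ζ t (0 + s * (1 + I))) = fun s : ℝ => gi j ζ t (s + s * I) := by
    funext s; congr 1; ring
  have e2 : (0 : ℂ) + ((1 : ℝ) : ℂ) * (1 + I) = 1 + I := by push_cast; ring
  have e3 : (0 : ℂ) + ((-1 : ℝ) : ℂ) * (1 + I) = -1 - I := by push_cast; ring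
  have e4 : (-1 : ℂ) + -I = -1 - I := by ring
  have e5 : (-1 : ℂ) + R * -I = -1 - R * I := by ring
  rw [e1, e2, e3] at m
  rw [e4, e5] at s2
  have e6 : (∫ s in Set.Iio (-R), gi j ζ t (-1 + s * I)) =
      ∫ s in Set.Ioi R, gi j ζ t (-1 + s * -I) := by
    rw [← integral_Iic_eq_integral_Iio, ← integral_comp_neg_Ioi]
    simp
  rw [e6]
  have e7 : (1 - I) * I = 1 + I := by
    have := I_mul_I
    linear_combination -this
  linear_combination I * h1 + s1 - s2 + m +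
    (∫ s in (-1 : ℝ)..1, gi j ζ t (s + s * I)) * e7

theorem rep_E {t ζ : ℂ} (ht : t ≠ 0) (hre : 0 ≤ t.re) (him : t.im ≤ 0) (R : ℝ) {P : ℂ → ℂ}
    (hP : ∀ H, HasDerivAt P (cexp (Ph ζ H / t)) H) :
    SokalU.E t (ζ / t * cexp (-t / 2)) * (2 * Real.pi * t) ^ (1 / 2 : ℂ) * I =
      (P (1 + R * I) - P (-1 - R * I)) +
      (∫ s in Set.Ioi R, cexp (Ph ζ (1 + s * I) / t)) * I +
      (∫ s in Set.Iio (-R), cexp (Ph ζ (-1 + s * I) / t)) * I := by
  have hg : gi 0 ζ t = fun H => cexp (Ph ζ H / t) := by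
    funext H; unfold gi; simp
  have h := rep_gen (ζ := ζ) ht hre him R 0 (P := P) (by rw [hg]; exact hP)
  rw [hg, SokalU.Ef_zero, pow_zero, one_mul] at h
  exact h

theorem rep_DE {t ζ : ℂ} (ht : t ≠ 0) (hre : 0 ≤ t.re) (him : t.im ≤ 0) (R : ℝ) {Q : ℂ → ℂ}
    (hQ : ∀ H, HasDerivAt Q (ζ * cexp H * cexp (Ph ζ H / t)) H) :
    t * SokalU.DE t (ζ / t * cexp (-t / 2)) * (2 * Real.pi * t) ^ (1 / 2 : ℂ) * I =
      (Q (1 + R * I) - Q (-1 - R * I)) +
      (∫ s in Set.Ioi R, ζ * cexp (1 + s * I) * cexp (Ph ζ (1 + s * I) / t)) * I +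
      (∫ s in Set.Iio (-R), ζ * cexp (-1 + s * I) * cexp (Ph ζ (-1 + s * I) / t)) * I := by
  have hg : gi 1 ζ t = fun H => ζ * cexp H * cexp (Ph ζ H / t) := by
    funext H; unfold gi; simp
  have h := rep_gen (ζ := ζ) ht hre him R 1 (P := Q) (by rw [hg]; exact hQ)
  rw [hg, SokalU.Ef_one, pow_one] at h
  exact h

end SokalV
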