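import Pool.Agent.Lib_MP_af4de1.Large

/-!
# The zero free region `‖z‖ ‖1-q‖ < 1/e` [SV-TREE]

Let `‖q‖ ≤ 1`, `ρ > 0`, `d = ‖1-q‖`, `dρ < 1/e` (`ρ = ‖z‖`).  STEP 1.  Let `r ≤ ρ` be such that `F = F q` has no zero in `closedBall 0 r`,
`A(r) = max_{‖w‖ ≤ r} ‖F(qw)/F(w)‖`.  For `‖w‖ ≤ r` the segment from `w` to `qw` lies in the ball (convexity), and
`d/ds F(w+s(qw-w)) = (qw-w) F(q(w+s(qw-w)))` (`SokalF.hasDerivAt_F`), so `F(qw) = F(w) exp(y)` with
`y = ∫_0^1 (qw-w) F(q·)/F(·) ds`, `‖y‖ ≤ d r A(r)` (derive it from `ψ(s) = F(γ(s)) exp(-∫_0^s …)` constant).  So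
`A(r) ≤ exp(d r A(r))`, i.e. `Y(r) := d r A(r)` satisfies `Y(r) exp(-Y(r)) ≤ d r ≤ dρ < 1/e`, in particular `Y(r) ≠ 1`.  `A` is
continuous and nondecreasing on the `r` with the no-zero property (maximum of a continuous function over growing balls;
or use `s ↦ max over ‖w‖ ≤ 1 of ‖F(q s w)/F(s w)‖`), `Y(0) = 0`: `Y < 1` on all of `[0, r]`, so `A ≤ e`.
STEP 2.  no zero in `closedBall 0 ρ`: otherwise let `r2 ≤ ρ` be the smallest modulus of a zero `w2` (`F 0 = 1`); in `ball 0 r2` `‖F'/F‖ ≤ e`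
(step 1 for all `r < r2`), so `‖F(s w2)‖ ≥ exp(-e r2)` for `0 ≤ s < 1`: contradiction to `F(w2) = 0`.
STEP 3.  `y` from step 1 at `w = z`, `r = ρ`: `‖y‖ ≤ Y(ρ) < 1` and `‖y‖exp(-‖y‖) ≤ Y exp(-Y) ≤ dρ` (`y ↦ y e^{-y}` increases on `[0,1]`).
-/

namespace SokalV

open Complex

/-- The quotient `F(qw)/F(w)` as an exponential, if `F` has no zero in the ball of `w`. -/
private theorem Tree_exp {q : ℂ} (hq : ‖q‖ ≤ 1) {w : ℂ} {A : ℝ}
    (hne : ∀ v : ℂ, ‖v‖ ≤ ‖w‖ → SokalF.F q v ≠ 0)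
    (hA : ∀ v : ℂ, ‖v‖ ≤ ‖w‖ → ‖SokalF.F q (q * v)‖ ≤ A * ‖SokalF.F q v‖) :
    ∃ y : ℂ, ‖y‖ ≤ ‖1 - q‖ * ‖w‖ * A ∧ SokalF.F q (q * w) = cexp y * SokalF.F q w := by
  set γ : ℝ → ℂ := fun s => w + s * (q * w - w) with hγ
  have hγd : ∀ s : ℝ, HasDerivAt γ (q * w - w) s := fun s => by
    have h1 : HasDerivAt (fun s : ℝ => (s : ℂ)) 1 s := Complex.ofRealCLM.hasDerivAt
    exact ((h1.mul_const (q * w - w)).const_add w).congr_deriv (one_mul _)
  have hγn : ∀ s ∈ Set.Icc (0 : ℝ) 1, ‖γ s‖ ≤ ‖w‖ := by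
    rintro s ⟨h0, h1⟩
    have e : γ s = ((1 - s : ℝ) : ℂ) * w + (s : ℂ) * (q * w) := by
      simp only [hγ]
      push_cast
      ring
    rw [e]
    refine (norm_add_le _ _).trans ?_
    rw [norm_mul, norm_mul, norm_mul, Complex.norm_real, Complex.norm_real,
      Real.norm_of_nonneg (by linarith), Real.norm_of_nonneg h0]
    have h2 : ‖q‖ * ‖w‖ ≤ ‖w‖ := mul_le_of_le_one_left (norm_nonneg _) hq
    nlinarith only [h0, h2]
  set f : ℝ → ℂ := fun s => SokalF.F q (γ s) with hf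
  have hcontF : Continuous (SokalF.F q) :=
    continuous_iff_continuousAt.2 fun z => (SokalF.hasDerivAt_F hq z).continuousAt
  have hγc : Continuous γ := continuous_iff_continuousAt.2 fun s => (hγd s).continuousAt
  have hfc : Continuous f := hcontF.comp hγc
  have hfd : ∀ s : ℝ, HasDerivAt f ((q * w - w) * SokalF.F q (q * γ s)) s := fun s => by
    have h1 := (SokalF.hasDerivAt_F hq (γ s)).comp s (hγd s)
    rw [mul_comm]
    exact h1
  set ψ : ℝ → ℂ := fun s => (q * w - w) * SokalF.F q (q * γ s) / f s with hψ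
  have hnum : Continuous fun s : ℝ => (q * w - w) * SokalF.F q (q * γ s) :=
    continuous_const.mul (hcontF.comp (continuous_const.mul hγc))
  have hψm : Measurable ψ := hnum.measurable.div hfc.measurable
  have hfne : ∀ s ∈ Set.Icc (0 : ℝ) 1, f s ≠ 0 := fun s hs => hne _ (hγn s hs)
  have hψc : ∀ s ∈ Set.Icc (0 : ℝ) 1, ContinuousAt ψ s := fun s hs =>
    hnum.continuousAt.div hfc.continuousAt (hfne s hs)
  have hψi : ∀ s ∈ Set.Icc (0 : ℝ) 1, IntervalIntegrable ψ MeasureTheory.volume 0 s := by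
    intro s hs
    refine ContinuousOn.intervalIntegrable fun x hx => (hψc x ?_).continuousWithinAt
    rw [Set.uIcc_of_le hs.1] at hx
    exact ⟨hx.1, hx.2.trans hs.2⟩
  have hI : ∀ s ∈ Set.Icc (0 : ℝ) 1, HasDerivAt (fun x => ∫ u in (0 : ℝ)..x, ψ u) (ψ s) s :=
    fun s hs => intervalIntegral.integral_hasDerivAt_right (hψi s hs)
      hψm.stronglyMeasurable.stronglyMeasurableAtFilter (hψc s hs)
  set h : ℝ → ℂ := fun s => f s * cexp (-∫ u in (0 : ℝ)..s, ψ u) with hh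
  have hhd : ∀ s ∈ Set.Icc (0 : ℝ) 1, HasDerivAt h 0 s := by
    intro s hs
    have h1 : HasDerivAt h ((q * w - w) * SokalF.F q (q * γ s) *
        cexp (-∫ u in (0 : ℝ)..s, ψ u) +
        f s * (cexp (-∫ u in (0 : ℝ)..s, ψ u) * -ψ s)) s := (hfd s).mul ((hI s hs).neg.cexp)
    refine h1.congr_deriv ?_
    have h2 : f s * ψ s = (q * w - w) * SokalF.F q (q * γ s) := by
      simp only [hψ]
      rw [mul_div_cancel₀ _ (hfne s hs)]
    have : f s * (cexp (-∫ u in (0 : ℝ)..s, ψ u) * -ψ s) =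
        -(f s * ψ s) * cexp (-∫ u in (0 : ℝ)..s, ψ u) := by ring
    rw [this, h2]
    ring
  have h10 : h 1 = h 0 := by
    have h3 := (convex_Icc (0 : ℝ) 1).norm_image_sub_le_of_norm_hasDerivWithin_le (C := 0)
      (f := h) (f' := fun _ => 0) (fun s hs => (hhd s hs).hasDerivWithinAt)
      (fun s _ => by simp) (Set.left_mem_Icc.2 zero_le_one) (Set.right_mem_Icc.2 zero_le_one)
    rw [zero_mul, norm_le_zero_iff, sub_eq_zero] at h3
    exact h3
  have hA0 : 0 ≤ A := by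
    have h1 := hA w le_rfl
    have h2 : 0 < ‖SokalF.F q w‖ := norm_pos_iff.2 (hne w le_rfl)
    by_contra hcon
    push Not at hcon
    have : A * ‖SokalF.F q w‖ < 0 := mul_neg_of_neg_of_pos hcon h2
    linarith [norm_nonneg (SokalF.F q (q * w))]
  refine ⟨∫ u in (0 : ℝ)..1, ψ u, ?_, ?_⟩
  · have h1 : ∀ u ∈ Set.uIoc (0 : ℝ) 1, ‖ψ u‖ ≤ ‖1 - q‖ * ‖w‖ * A := by
      intro u hu
      rw [Set.uIoc_of_le zero_le_one] at hu
      have hu' : u ∈ Set.Icc (0 : ℝ) 1 := ⟨hu.1.le, hu.2⟩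
      simp only [hψ]
      rw [norm_div, norm_mul, div_le_iff₀ (norm_pos_iff.2 (hfne u hu'))]
      have h2 : ‖q * w - w‖ = ‖1 - q‖ * ‖w‖ := by
        rw [← norm_mul, ← norm_neg]
        congr 1
        ring
      rw [h2]
      have h3 := hA _ (hγn u hu')
      calc ‖1 - q‖ * ‖w‖ * ‖SokalF.F q (q * γ u)‖
          ≤ ‖1 - q‖ * ‖w‖ * (A * ‖SokalF.F q (γ u)‖) := by gcongr
        _ = _ := by rw [mul_assoc (‖1 - q‖ * ‖w‖)]
    have h2 := intervalIntegral.norm_integral_le_of_norm_le_const h1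
    simpa using h2
  · have e1 : h 1 = SokalF.F q (q * w) * cexp (-∫ u in (0 : ℝ)..1, ψ u) := by
      simp only [hh, hf, hγ]
      congr 2
      push_cast
      ring
    have e0 : h 0 = SokalF.F q w := by
      simp only [hh, hf, hγ]
      simp
    rw [e1, e0] at h10
    calc SokalF.F q (q * w) = SokalF.F q (q * w) *
          (cexp (∫ u in (0 : ℝ)..1, ψ u) * cexp (-∫ u in (0 : ℝ)..1, ψ u)) := by
          rw [← Complex.exp_add, add_neg_cancel, Complex.exp_zero, mul_one]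
      _ = cexp (∫ u in (0 : ℝ)..1, ψ u) *
          (SokalF.F q (q * w) * cexp (-∫ u in (0 : ℝ)..1, ψ u)) := by ring
      _ = cexp (∫ u in (0 : ℝ)..1, ψ u) * SokalF.F q w := by rw [h10]

/-- The inequality on a ball excludes zeros there. -/
private theorem Tree_ne {q : ℂ} (hq : ‖q‖ ≤ 1) {r A : ℝ}
    (hA : ∀ v : ℂ, ‖v‖ ≤ r → ‖SokalF.F q (q * v)‖ ≤ A * ‖SokalF.F q v‖) {w : ℂ}
    (hw : ‖w‖ ≤ r) : SokalF.F q w ≠ 0 := by
  intro h0
  set f : ℝ → ℂ := fun s => SokalF.F q (((1 - s : ℝ) : ℂ) * w) with hf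
  have hd : ∀ s : ℝ, HasDerivAt f (-w * SokalF.F q (q * (((1 - s : ℝ) : ℂ) * w))) s := fun s => by
    have h1 : HasDerivAt (fun s : ℝ => ((1 - s : ℝ) : ℂ)) (-1) s := by
      have := ((hasDerivAt_id s).const_sub (1 : ℝ)).ofReal_comp
      simpa using this
    have h2 := (SokalF.hasDerivAt_F hq (((1 - s : ℝ) : ℂ) * w)).comp s (h1.mul_const w)
    refine h2.congr_deriv ?_
    ring
  have hb : ∀ s ∈ Set.Ico (0 : ℝ) 1,
      ‖-w * SokalF.F q (q * (((1 - s : ℝ) : ℂ) * w))‖ ≤ ‖w‖ * |A| * ‖f s‖ + 0 := by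
    rintro s ⟨hs0, hs1⟩
    rw [norm_mul, norm_neg, add_zero, mul_assoc]
    refine mul_le_mul_of_nonneg_left ?_ (norm_nonneg _)
    have h1 : ‖((1 - s : ℝ) : ℂ) * w‖ ≤ r := by
      rw [norm_mul, Complex.norm_real, Real.norm_of_nonneg (by linarith)]
      nlinarith only [hw, hs0, norm_nonneg w]
    refine (hA _ h1).trans ?_
    exact mul_le_mul_of_nonneg_right (le_abs_self A) (norm_nonneg _)
  have hc : ContinuousOn f (Set.Icc 0 1) := fun s _ => (hd s).continuousAt.continuousWithinAt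
  have hg := norm_le_gronwallBound_of_norm_deriv_right_le (δ := 0) (K := ‖w‖ * |A|) (ε := 0) hc
    (fun s _ => (hd s).hasDerivWithinAt) (by
      simp only [hf]
      rw [sub_zero, Complex.ofReal_one, one_mul, h0, norm_zero]) hb 1
      (Set.right_mem_Icc.2 zero_le_one)
  have h1 : f 1 = 1 := by
    simp only [hf]
    rw [sub_self, Complex.ofReal_zero, zero_mul, SokalF.F_zero]
  rw [h1, norm_one] at hg
  have h2 : gronwallBound 0 (‖w‖ * |A|) 0 (1 - 0) = 0 := by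
    rw [gronwallBound_ε0]
    ring
  rw [h2] at hg
  linarith

/-- Step 1. -/
private theorem Tree_ball {q : ℂ} (hq : ‖q‖ ≤ 1) {ρ : ℝ} (hρ : 0 ≤ ρ)
    (h : ρ * ‖1 - q‖ < Real.exp (-1)) :
    ∀ v : ℂ, ‖v‖ ≤ ρ → ‖SokalF.F q (q * v)‖ ≤ Real.exp 1 * ‖SokalF.F q v‖ := by
  set s : Set ℝ := {r | ∀ v : ℂ, ‖v‖ ≤ r → ‖SokalF.F q (q * v)‖ ≤
    Real.exp 1 * ‖SokalF.F q v‖} with hs
  have hcontF : Continuous (SokalF.F q) :=
    continuous_iff_continuousAt.2 fun z => (SokalF.hasDerivAt_F hq z).continuousAt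
  have hc1 : Continuous fun v : ℂ => ‖SokalF.F q (q * v)‖ :=
    (hcontF.comp (continuous_const.mul continuous_id)).norm
  have hc2 : Continuous fun v : ℂ => Real.exp 1 * ‖SokalF.F q v‖ :=
    continuous_const.mul hcontF.norm
  -- closedness
  have hclosed : IsClosed (s ∩ Set.Icc 0 ρ) := by
    refine IsClosed.inter ?_ isClosed_Icc
    rw [← isOpen_compl_iff, Metric.isOpen_iff]
    intro r hr
    simp only [hs, Set.mem_compl_iff, Set.mem_ofPred_eq] at hr
    push Not at hr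
    obtain ⟨v, hv, hlt⟩ := hr
    -- the strict inequality holds near `v`, so at a point of smaller modulus
    have hop : IsOpen {v : ℂ | Real.exp 1 * ‖SokalF.F q v‖ < ‖SokalF.F q (q * v)‖} :=
      isOpen_lt hc2 hc1
    have hv0 : v ≠ 0 := by
      rintro rfl
      rw [mul_zero, SokalF.F_zero, norm_one, mul_one] at hlt
      have := Real.add_one_le_exp (1 : ℝ)
      linarith
    have hvn : 0 < ‖v‖ := norm_pos_iff.2 hv0
    obtain ⟨ε, hε, hball⟩ := Metric.isOpen_iff.1 hop v hlt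
    set c : ℝ := min (1 / 2) (ε / (2 * ‖v‖)) with hc
    have hc0 : 0 < c := by positivity
    have hc12 : c ≤ 1 / 2 := min_le_left _ _
    have hcε : c * ‖v‖ < ε := by
      have h1 : c ≤ ε / (2 * ‖v‖) := min_le_right _ _
      calc c * ‖v‖ ≤ ε / (2 * ‖v‖) * ‖v‖ := by gcongr
        _ = ε / 2 := by field_simp
        _ < ε := by linarith
    have hv' : ((1 - c : ℝ) : ℂ) * v ∈ Metric.ball v ε := by
      rw [Metric.mem_ball, dist_eq_norm]
      have : ((1 - c : ℝ) : ℂ) * v - v = -((c : ℂ) * v) := by push_cast; ring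
      rw [this, norm_neg, norm_mul, Complex.norm_real, Real.norm_of_nonneg hc0.le]
      exact hcε
    refine ⟨c * ‖v‖, by positivity, ?_⟩
    intro r' hr'
    rw [Metric.mem_ball, Real.dist_eq, abs_lt] at hr'
    simp only [hs, Set.mem_compl_iff, Set.mem_ofPred_eq]
    push Not
    refine ⟨((1 - c : ℝ) : ℂ) * v, ?_, hball hv'⟩
    rw [norm_mul, Complex.norm_real, Real.norm_of_nonneg (by linarith)]
    linarith [hr'.1]
  have h0 : (0 : ℝ) ∈ s := by
    intro v hv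
    have : v = 0 := norm_le_zero_iff.1 hv
    rw [this, mul_zero, SokalF.F_zero, norm_one, mul_one]
    have := Real.add_one_le_exp (1 : ℝ)
    linarith
  have hgt : ∀ r ∈ s ∩ Set.Ico 0 ρ, ∀ y ∈ Set.Ioi r, (s ∩ Set.Ioc r y).Nonempty := by
    rintro r ⟨hrs, hr0, hrρ⟩ y hy
    -- strict inequality on the closed ball
    have hstrict : ∀ v ∈ Metric.closedBall (0 : ℂ) r,
        ‖SokalF.F q (q * v)‖ < Real.exp 1 * ‖SokalF.F q v‖ := by
      intro v hv
      rw [mem_closedBall_zero_iff] at hv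
      have hne : ∀ u : ℂ, ‖u‖ ≤ ‖v‖ → SokalF.F q u ≠ 0 := fun u hu =>
        Tree_ne hq hrs (hu.trans hv)
      obtain ⟨y, hy1, hy2⟩ := Tree_exp hq hne fun u hu => hrs u (hu.trans hv)
      rw [hy2, norm_mul, Complex.norm_exp]
      have h1 : y.re < 1 := by
        have h2 : ‖1 - q‖ * ‖v‖ * Real.exp 1 ≤ ρ * ‖1 - q‖ * Real.exp 1 := by
          have : ‖1 - q‖ * ‖v‖ ≤ ρ * ‖1 - q‖ := by
            rw [mul_comm]
            exact mul_le_mul_of_nonneg_right (hv.trans hrρ.le) (norm_nonneg _)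
          gcongr
        have h3 : ρ * ‖1 - q‖ * Real.exp 1 < Real.exp (-1) * Real.exp 1 := by gcongr
        rw [← Real.exp_add, neg_add_cancel, Real.exp_zero] at h3
        have h4 := Complex.re_le_norm y
        linarith
      exact mul_lt_mul_of_pos_right (Real.exp_lt_exp.2 h1)
        (norm_pos_iff.2 (hne v le_rfl))
    have hop : IsOpen {v : ℂ | ‖SokalF.F q (q * v)‖ < Real.exp 1 * ‖SokalF.F q v‖} :=
      isOpen_lt hc1 hc2
    obtain ⟨δ, hδ, hsub⟩ := (isCompact_closedBall (0 : ℂ) r).exists_thickening_subset_open hop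
      hstrict
    refine ⟨min y (r + δ / 2), ?_, lt_min hy (by linarith), min_le_left _ _⟩
    intro v hv
    have hv2 : ‖v‖ ≤ r + δ / 2 := hv.trans (min_le_right _ _)
    have : v ∈ Metric.thickening δ (Metric.closedBall (0 : ℂ) r) := by
      rw [Metric.mem_thickening_iff]
      rcases le_or_gt ‖v‖ r with h1 | h1
      · exact ⟨v, mem_closedBall_zero_iff.2 h1, by rw [dist_self]; exact hδ⟩
      · have hv0 : 0 < ‖v‖ := hr0.trans_lt h1
        refine ⟨((r / ‖v‖ : ℝ) : ℂ) * v, ?_, ?_⟩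
        · rw [mem_closedBall_zero_iff, norm_mul, Complex.norm_real,
            Real.norm_of_nonneg (by positivity), div_mul_cancel₀ _ hv0.ne']
        · rw [dist_eq_norm]
          have e : v - ((r / ‖v‖ : ℝ) : ℂ) * v = ((1 - r / ‖v‖ : ℝ) : ℂ) * v := by
            push_cast; ring
          have h2 : 0 ≤ 1 - r / ‖v‖ := by
            rw [sub_nonneg, div_le_one hv0]
            exact h1.le
          rw [e, norm_mul, Complex.norm_real, Real.norm_of_nonneg h2, sub_mul, one_mul,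
            div_mul_cancel₀ _ hv0.ne']
          linarith
    exact (hsub this).le
  have := hclosed.Icc_subset_of_forall_exists_gt h0 hgt
  exact this (Set.right_mem_Icc.2 hρ)

theorem tree {q z : ℂ} (hq : ‖q‖ ≤ 1) (h : ‖z‖ * ‖1 - q‖ < Real.exp (-1)) :
    SokalF.F q z ≠ 0 ∧ ∃ y : ℂ, ‖y‖ < 1 ∧ ‖y‖ * Real.exp (-‖y‖) ≤ ‖z‖ * ‖1 - q‖ ∧
      SokalF.F q (q * z) = cexp y * SokalF.F q z := by
  have hball := Tree_ball hq (norm_nonneg z) h
  have hne : ∀ v : ℂ, ‖v‖ ≤ ‖z‖ → SokalF.F q v ≠ 0 := fun v hv => Tree_ne hq hball hv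
  refine ⟨hne z le_rfl, ?_⟩
  have hcontF : Continuous (SokalF.F q) :=
    continuous_iff_continuousAt.2 fun z => (SokalF.hasDerivAt_F hq z).continuousAt
  -- the maximum of the quotient
  obtain ⟨v0, hv0, hmax⟩ := (isCompact_closedBall (0 : ℂ) ‖z‖).exists_isMaxOn
    ⟨0, Metric.mem_closedBall_self (norm_nonneg _)⟩
    (f := fun v => ‖SokalF.F q (q * v)‖ / ‖SokalF.F q v‖)
    (by
      refine ContinuousOn.div (hcontF.comp (continuous_const.mul continuous_id)).norm.continuousOn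
        hcontF.norm.continuousOn fun v hv => ?_
      exact (norm_pos_iff.2 (hne v (mem_closedBall_zero_iff.1 hv))).ne')
  rw [mem_closedBall_zero_iff] at hv0
  set A : ℝ := ‖SokalF.F q (q * v0)‖ / ‖SokalF.F q v0‖ with hA
  have hv0p : 0 < ‖SokalF.F q v0‖ := norm_pos_iff.2 (hne v0 hv0)
  have hAb : ∀ v : ℂ, ‖v‖ ≤ ‖z‖ → ‖SokalF.F q (q * v)‖ ≤ A * ‖SokalF.F q v‖ := by
    intro v hv
    have h1 : ‖SokalF.F q (q * v)‖ / ‖SokalF.F q v‖ ≤ A :=
      hmax (mem_closedBall_zero_iff.2 hv)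
    rwa [div_le_iff₀ (norm_pos_iff.2 (hne v hv))] at h1
  have hAe : A ≤ Real.exp 1 := by
    rw [hA, div_le_iff₀ hv0p]
    exact hball v0 hv0
  have hA0 : 0 ≤ A := by positivity
  set d : ℝ := ‖1 - q‖ with hd
  have hd0 : 0 ≤ d := norm_nonneg _
  set Y : ℝ := d * ‖z‖ * A with hY
  have hY0 : 0 ≤ Y := by positivity
  have hY1 : Y < 1 := by
    have h1 : d * ‖z‖ * A ≤ ‖z‖ * d * Real.exp 1 := by
      rw [mul_comm d]
      gcongr
    have h2 : ‖z‖ * d * Real.exp 1 < Real.exp (-1) * Real.exp 1 := by gcongr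
    rw [← Real.exp_add, neg_add_cancel, Real.exp_zero] at h2
    linarith
  have hAY : A ≤ Real.exp Y := by
    obtain ⟨y, hy1, hy2⟩ := Tree_exp hq (fun u hu => hne u (hu.trans hv0))
      fun u hu => hAb u (hu.trans hv0)
    rw [hA, hy2, norm_mul, mul_div_assoc, div_self hv0p.ne', mul_one, Complex.norm_exp,
      Real.exp_le_exp]
    refine (Complex.re_le_norm y).trans (hy1.trans ?_)
    rw [hY]
    gcongr
  have hYe : Y * Real.exp (-Y) ≤ ‖z‖ * d := by
    have h1 : A * Real.exp (-Y) ≤ 1 := by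
      calc A * Real.exp (-Y) ≤ Real.exp Y * Real.exp (-Y) := by gcongr
        _ = 1 := by rw [← Real.exp_add, add_neg_cancel, Real.exp_zero]
    calc Y * Real.exp (-Y) = d * ‖z‖ * (A * Real.exp (-Y)) := by rw [hY]; ring
      _ ≤ d * ‖z‖ * 1 := by gcongr
      _ = ‖z‖ * d := by ring
  obtain ⟨y, hy1, hy2⟩ := Tree_exp hq hne hAb
  refine ⟨y, hy1.trans_lt hY1, ?_, hy2⟩
  refine le_trans ?_ hYe
  -- `t e^{-t}` increases on `[0,1]`
  have hyY : ‖y‖ ≤ Y := hy1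
  have h1 : ‖y‖ * Real.exp (Y - ‖y‖) ≤ Y := by
    rcases eq_or_lt_of_le hyY with h2 | h2
    · rw [h2, sub_self, Real.exp_zero, mul_one]
    · -- `e^{-u} ≥ 1 - u`
      have h3 : Real.exp (Y - ‖y‖) * (1 - (Y - ‖y‖)) ≤ 1 := by
        have h4 := Real.one_sub_le_exp_neg (Y - ‖y‖)
        calc Real.exp (Y - ‖y‖) * (1 - (Y - ‖y‖)) ≤
            Real.exp (Y - ‖y‖) * Real.exp (-(Y - ‖y‖)) := by gcongr
          _ = 1 := by rw [← Real.exp_add, add_neg_cancel, Real.exp_zero]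
      have h5 : 0 ≤ ‖y‖ := norm_nonneg y
      have h6 : 0 < Real.exp (Y - ‖y‖) := Real.exp_pos _
      have h7 : ‖y‖ ≤ Y * (1 - (Y - ‖y‖)) := by nlinarith only [hY1, hyY]
      have h8 : 0 < 1 - (Y - ‖y‖) := by linarith
      calc ‖y‖ * Real.exp (Y - ‖y‖) ≤ Y * (1 - (Y - ‖y‖)) * Real.exp (Y - ‖y‖) := by gcongr
        _ = Y * (Real.exp (Y - ‖y‖) * (1 - (Y - ‖y‖))) := by ring
        _ ≤ Y * 1 := by gcongr
        _ = Y := mul_one Y
  calc ‖y‖ * Real.exp (-‖y‖) = ‖y‖ * Real.exp (Y - ‖y‖) * Real.exp (-Y) := by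
        rw [mul_assoc, ← Real.exp_add]
        congr 2
        ring
    _ ≤ Y * Real.exp (-Y) := by gcongr

end SokalV
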