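import Pool.Agent.Lib_MP_af4de1_v.N1G2

/-!
# The case `N = 1`, `u = i`: the upper half of the contour
-/

namespace SokalN

open SokalV Complex Filter Topology Set

namespace Par0

variable (p : Par0)

private theorem N1G3_eX {T : ℝ} (hT : 0 < T) (hc : 0 < Real.cos (T + p.φ)) :
    Real.exp (p.X T) * (p.r * Real.cos (T + p.φ)) = T := by
  have h1 := mul_pos p.hr hc
  rw [X, Real.exp_sub, Real.exp_log hT, Real.exp_log h1]
  exact div_mul_cancel₀ _ h1.ne'

private theorem N1G3_g_X {T : ℝ} (hT : 0 < T) (hc : 0 < Real.cos (T + p.φ)) :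
    p.g (p.X T) T = p.f T := by
  have h1 := p.N1G3_eX hT hc
  unfold g f
  linear_combination h1

private theorem N1G3_clip {K T : ℝ} (hT : 0 < T)
    (h : p.r * Real.cos (T + p.φ) ≤ T * Real.exp (-K)) : p.Z K T = K := by
  rw [Z, max_eq_right h, Real.log_mul hT.ne' (Real.exp_pos _).ne', Real.log_exp]
  ring

private theorem N1G3_Z_le {K T : ℝ} (hT : 0 < T) : p.Z K T ≤ K := by
  have h0 : 0 < T * Real.exp (-K) := mul_pos hT (Real.exp_pos _)
  have h1 := Real.log_le_log h0 (le_max_right (p.r * Real.cos (T + p.φ)) (T * Real.exp (-K)))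
  rw [Real.log_mul hT.ne' (Real.exp_pos _).ne', Real.log_exp] at h1
  unfold Z
  linarith

private theorem N1G3_Z_cont {K T1 T2 : ℝ} (hT : 0 < T1) : ContinuousOn (p.Z K) (Icc T1 T2) := by
  have h1 : ∀ T ∈ Icc T1 T2, 0 < T := fun T h => hT.trans_le h.1
  have h2 : ContinuousOn Real.log (Icc T1 T2) :=
    Real.continuousOn_log.mono fun T h => (h1 T h).ne'
  refine h2.sub (ContinuousOn.log (by fun_prop) fun T h => ?_)
  have h3 : 0 < T * Real.exp (-K) := mul_pos (h1 T h) (Real.exp_pos _)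
  exact (h3.trans_le (le_max_right _ _)).ne'

private theorem N1G3_g_clip {K T : ℝ} (hT : 0 < T)
    (h : p.r * Real.cos (T + p.φ) ≤ T * Real.exp (-K)) : p.g (p.Z K T) T ≤ -(T * (K - 1)) := by
  rw [p.N1G3_clip hT h]
  have h1 := mul_le_mul_of_nonneg_left h (Real.exp_pos K).le
  have h2 : Real.exp K * (T * Real.exp (-K)) = T := by
    rw [mul_comm T, ← mul_assoc, ← Real.exp_add, add_neg_cancel, Real.exp_zero, one_mul]
  rw [h2] at h1
  unfold g
  linarith

private theorem N1G3_cos {T : ℝ} (h1 : p.TR < T) (h2 : T < p.TRR) : 0 < Real.cos (T + p.φ) := by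
  unfold TR at h1
  unfold TRR at h2
  have h3 : Real.cos (T + p.φ) = Real.cos (T + p.φ - 2 * Real.pi) := (Real.cos_sub_two_pi _).symm
  rw [h3]
  exact Real.cos_pos_of_mem_Ioo ⟨by linarith, by linarith⟩

private theorem N1G3_cos_neg {T : ℝ} (h1 : 0 < T) (h2 : T ≤ p.TR) :
    Real.cos (T + p.φ) ≤ 0 := by
  unfold TR at h2
  have h3 := p.h1
  exact Real.cos_nonpos_of_pi_div_two_le_of_le (by linarith) (by linarith)

/-- horizontal convexity -/
private theorem N1G3_horiz {T Y1 Y2 c : ℝ} (hc : 0 ≤ Real.cos (T + p.φ)) (h1 : p.g Y1 T < c)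
    (h2 : p.g Y2 T < c) : SC p.G c (pt Y1 T) (pt Y2 T) := by
  wlog h12 : Y1 ≤ Y2 generalizing Y1 Y2
  · exact (this h2 h1 (le_of_not_ge h12)).symm
  refine p.SC_horiz h12 fun Y hY => ?_
  have hconv : ConvexOn ℝ Set.univ fun Y : ℝ => p.g Y T := by
    have h3 : ConvexOn ℝ Set.univ fun Y : ℝ => (p.r * Real.cos (T + p.φ)) • Real.exp Y :=
      convexOn_exp.smul (mul_nonneg p.hr.le hc)
    have h4 : ConvexOn ℝ Set.univ fun Y : ℝ => -(Y * T) := by
      refine ⟨convex_univ, fun x _ y _ a b _ _ _ => ?_⟩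
      simp only [smul_eq_mul]
      exact le_of_eq (by ring)
    have h5 := h4.add h3
    have e : (fun Y : ℝ => p.g Y T) =
        (fun Y : ℝ => -(Y * T)) + fun Y : ℝ => (p.r * Real.cos (T + p.φ)) • Real.exp Y := by
      funext Y
      simp only [g, Pi.add_apply, smul_eq_mul]
      ring
    rw [e]
    exact h5
  have h3 := hconv.le_max_of_mem_Icc (mem_univ Y1) (mem_univ Y2) hY
  exact h3.trans_lt (max_lt h1 h2)

/-- The upper half of the contour. -/
theorem upper (NT : ∀ T : ℝ, 0 < T → Real.exp 1 * p.r * Real.cos (T + p.φ) ≤ T) :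
    ∃ (X1 T1 : ℝ), p.TR < T1 ∧ ∀ Tb, 0 < Tb → Tb < p.TR →
      ∃ c' < p.g X1 T1, ∃ Y0 : ℝ, ∀ Yb : ℝ, Y0 ≤ Yb → ∃ R0 : ℝ, ∀ R : ℝ, R0 ≤ R →
        Chain I (Ph p.ζ) (p.g X1 T1) c' (pt Yb Tb) [pt X1 T1] (1 + R * I) := by
  obtain ⟨T1, ⟨hT1, hT2⟩, hz⟩ := p.exists_zero
  have hr := p.hr
  have hTR : 0 < p.TR := by
    have := p.h2
    unfold TR
    linarith
  have hT0 : 0 < T1 := hTR.trans hT1
  have hcos1 := p.N1G3_cos hT1 hT2
  refine ⟨p.X T1, T1, hT1, fun Tb hb1 hb2 => ?_⟩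
  have hg1 : p.g (p.X T1) T1 = p.f T1 := p.N1G3_g_X hT0 hcos1
  rw [hg1]
  set c := p.f T1 with hc
  -- monotonicity of `f`
  have hmono : StrictMonoOn p.f (Ioc p.TR T1) := by
    refine strictMonoOn_of_deriv_pos (convex_Ioc _ _) (fun T hT => ?_) fun T hT => ?_
    · exact (p.hasDerivAt_f hT.1 (hT.2.trans_lt hT2)).continuousAt.continuousWithinAt
    · rw [interior_Ioc] at hT
      rw [(p.hasDerivAt_f hT.1 (hT.2.trans hT2)).deriv, ← hz]
      exact p.f1_strictAnti ⟨hT.1, hT.2.trans hT2⟩ ⟨hT1, hT2⟩ hT.2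
  have hanti : StrictAntiOn p.f (Ico T1 p.TRR) := by
    refine strictAntiOn_of_deriv_neg (convex_Ico _ _) (fun T hT => ?_) fun T hT => ?_
    · exact (p.hasDerivAt_f (hT1.trans_le hT.1) hT.2).continuousAt.continuousWithinAt
    · rw [interior_Ico] at hT
      rw [(p.hasDerivAt_f (hT1.trans hT.1) hT.2).deriv, ← hz]
      exact p.f1_strictAnti ⟨hT1, hT2⟩ ⟨hT1.trans hT.1, hT.2⟩ hT.1
  have hflt : ∀ T, p.TR < T → T < p.TRR → T ≠ T1 → p.f T < c := by
    intro T h1 h2 h3
    rcases lt_or_gt_of_ne h3 with h | h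
    · exact hmono ⟨h1, h.le⟩ ⟨hT1, le_rfl⟩ h
    · exact hanti ⟨le_rfl, hT2⟩ ⟨h.le, h2⟩ h
  have hfle : ∀ T ∈ Ioo p.TR p.TRR, p.f T ≤ c := by
    intro T hT
    rcases eq_or_ne T T1 with h | h
    · rw [h]
    · exact (hflt T hT.1 hT.2 h).le
  -- the clip level
  set M := |c| + 2 with hM
  have hM0 : 0 < M := by positivity
  have hMc : -M < c - 1 := by
    have := neg_abs_le c
    rw [hM]
    linarith
  set K := 1 + M / Tb with hK
  have hK1 : 1 ≤ K := by
    have : 0 < M / Tb := div_pos hM0 hb1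
    rw [hK]
    linarith
  have hKT : Tb * (K - 1) = M := by
    rw [hK]
    field_simp
    ring
  have hclipM : ∀ T, Tb ≤ T → p.r * Real.cos (T + p.φ) ≤ T * Real.exp (-K) →
      p.g (p.Z K T) T ≤ -M := by
    intro T h1 h2
    refine (p.N1G3_g_clip (hb1.trans_le h1) h2).trans ?_
    have : Tb * (K - 1) ≤ T * (K - 1) := mul_le_mul_of_nonneg_right h1 (by linarith)
    linarith
  have hcosp : ∀ T, Tb ≤ T → T * Real.exp (-K) < p.r * Real.cos (T + p.φ) →
      0 < Real.cos (T + p.φ) := by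
    intro T h1 h2
    have h3 : 0 < T * Real.exp (-K) := mul_pos (hb1.trans_le h1) (Real.exp_pos _)
    exact pos_of_mul_pos_right (h3.trans h2) hr.le
  have hZX : ∀ T, T * Real.exp (-K) ≤ p.r * Real.cos (T + p.φ) → p.Z K T = p.X T := by
    intro T h
    rw [Z, max_eq_left h, X]
  have hB : ∀ T, Tb ≤ T → T ≠ T1 → p.g (p.Z K T) T < c := by
    intro T h1 h2
    have hTp : 0 < T := hb1.trans_le h1
    rcases le_or_gt (p.r * Real.cos (T + p.φ)) (T * Real.exp (-K)) with h3 | h3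
    · have := hclipM T h1 h3
      linarith
    · have h4 := hcosp T h1 h3
      rw [hZX T h3.le, p.N1G3_g_X hTp h4]
      have h5 : p.TR < T := by
        by_contra hcon
        push Not at hcon
        have := p.N1G3_cos_neg hTp hcon
        linarith
      rcases lt_or_ge T p.TRR with h6 | h6
      · exact hflt T h5 h6 h2
      · exact p.far_lt NT hfle h6 h4
  -- the saddle
  have hXT : -p.X T1 - T1 * Real.tan (T1 + p.φ) = 0 := hz
  have heX := p.N1G3_eX hT0 hcos1
  have hs1 : -T1 + p.r * Real.exp (p.X T1) * Real.cos (T1 + p.φ) = 0 := by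
    linear_combination heX
  have hs2 : -p.X T1 - p.r * Real.exp (p.X T1) * Real.sin (T1 + p.φ) = 0 := by
    have h1 : p.r * Real.exp (p.X T1) * Real.sin (T1 + p.φ) = T1 * Real.tan (T1 + p.φ) := by
      rw [Real.tan_eq_sin_div_cos, ← mul_div_assoc, eq_div_iff hcos1.ne']
      linear_combination Real.sin (T1 + p.φ) * heX
    rw [h1]
    exact hXT
  set V := (1 - p.X T1) / T1 with hV
  have hs3 : T1 * V ^ 2 + 2 * (p.X T1 - 1) * V * 1 - T1 * 1 ^ 2 < 0 := by
    have h1 : T1 * V = 1 - p.X T1 := by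
      rw [hV]
      field_simp
    have h2 : T1 * V ^ 2 + 2 * (p.X T1 - 1) * V * 1 - T1 * 1 ^ 2 = -(T1 * V ^ 2) - T1 := by
      linear_combination (2 * V) * h1
    rw [h2]
    have := mul_nonneg hT0.le (sq_nonneg V)
    linarith
  obtain ⟨δ0, hδ0, hsad⟩ := p.sad hs1 hs2 hs3
  rw [hg1] at hsad
  set δ := min δ0 (min ((T1 - p.TR) / 2) ((p.TRR - T1) / 2)) with hδ
  have hδp : 0 < δ := lt_min hδ0 (lt_min (by linarith) (by linarith))
  have hδ1 : δ ≤ δ0 := min_le_left _ _
  have hδ2 : δ ≤ (T1 - p.TR) / 2 := (min_le_right _ _).trans (min_le_left _ _)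
  have hδ3 : δ ≤ (p.TRR - T1) / 2 := (min_le_right _ _).trans (min_le_right _ _)
  have hS := hsad δ hδp hδ1
  have eadd : pt (p.X T1) T1 + (δ : ℂ) * pt V 1 = pt (p.X T1 + δ * V) (T1 + δ) := by
    apply Complex.ext <;> simp [pt]
  have esub : pt (p.X T1) T1 - (δ : ℂ) * pt V 1 = pt (p.X T1 - δ * V) (T1 - δ) := by
    apply Complex.ext <;> simp [pt]
  have hSp : p.g (p.X T1 + δ * V) (T1 + δ) < c := by
    have h1 := hS.seg 1 (by norm_num) one_ne_zero
    rw [Complex.ofReal_one, one_mul, eadd] at h1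
    exact (p.G_pt _ _).symm.trans_lt h1
  have hSm : p.g (p.X T1 - δ * V) (T1 - δ) < c := by
    have h1 := hS.seg (-1) (by norm_num) (by norm_num)
    rw [Complex.ofReal_neg, Complex.ofReal_one, neg_one_mul, ← sub_eq_add_neg, esub] at h1
    exact (p.G_pt _ _).symm.trans_lt h1
  -- far away
  set Ti := max (T1 + δ) (max 1 (p.r * Real.exp (M + 1))) with hTi
  have hTi1 : T1 + δ ≤ Ti := le_max_left _ _
  have hTi2 : 1 ≤ Ti := (le_max_left _ _).trans (le_max_right _ _)
  have hTi3 : p.r * Real.exp (M + 1) ≤ Ti := (le_max_right _ _).trans (le_max_right _ _)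
  have hfar : ∀ T, Ti ≤ T → p.g (p.Z K T) T < c - 1 := by
    intro T h1
    have hTp : 0 < T := by linarith
    have hTb : Tb ≤ T := by linarith
    rcases le_or_gt (p.r * Real.cos (T + p.φ)) (T * Real.exp (-K)) with h3 | h3
    · exact (hclipM T hTb h3).trans_lt hMc
    · have h4 := hcosp T hTb h3
      rw [hZX T h3.le, p.N1G3_g_X hTp h4]
      refine lt_of_le_of_lt ?_ hMc
      have h5 : Real.log (p.r * Real.exp (M + 1)) ≤ Real.log T :=
        Real.log_le_log (by positivity) (hTi3.trans h1)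
      rw [Real.log_mul hr.ne' (Real.exp_pos _).ne', Real.log_exp] at h5
      have h6 : Real.log (p.r * Real.cos (T + p.φ)) ≤ Real.log p.r :=
        Real.log_le_log (mul_pos hr h4) (by
          have h8 := mul_le_mul_of_nonneg_left (Real.cos_le_one (T + p.φ)) hr.le
          linarith)
      have h7 : 1 + M ≤ p.X T := by
        unfold X
        linarith
      have h8 := mul_le_mul_of_nonneg_left h7 hTp.le
      have h9 : M * 1 ≤ M * T := mul_le_mul_of_nonneg_left (by linarith) hM0.le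
      unfold f
      linarith
  -- the pieces
  have c1 : SC p.G c (pt (p.Z K Tb) Tb) (pt (p.Z K (T1 - δ)) (T1 - δ)) := by
    refine p.SC_graph (f := p.Z K) (by linarith) (p.N1G3_Z_cont hb1) fun T hT => ?_
    exact hB T hT.1 (by have := hT.2; intro h; linarith)
  have c2 : SC p.G c (pt (p.Z K (T1 - δ)) (T1 - δ)) (pt (p.X T1 - δ * V) (T1 - δ)) := by
    refine p.N1G3_horiz (p.N1G3_cos (by linarith) (by linarith)).le (hB _ (by linarith) ?_) hSm
    intro h
    linarith
  have c3 : SC p.G c (pt (p.X T1 + δ * V) (T1 + δ)) (pt (p.Z K (T1 + δ)) (T1 + δ)) := by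
    refine p.N1G3_horiz (p.N1G3_cos (by linarith) (by linarith)).le hSp (hB _ (by linarith) ?_)
    intro h
    linarith
  have c4 : SC p.G c (pt (p.Z K (T1 + δ)) (T1 + δ)) (pt (p.Z K Ti) Ti) := by
    refine p.SC_graph (f := p.Z K) hTi1 (p.N1G3_Z_cont (by linarith)) fun T hT => ?_
    exact hB T (by linarith [hT.1]) (by have := hT.1; intro h; linarith)
  obtain ⟨c12, hc12, hC12⟩ := c1.trans c2
  obtain ⟨c34, hc34, hC34⟩ := c3.trans c4
  refine ⟨max (c - 1) (max c12 c34), max_lt (by linarith) (max_lt hc12 hc34), K,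
    fun Yb hYb => ⟨max Ti (p.r * Real.exp K + M + 1), fun R hR => ?_⟩⟩
  have hR1 : Ti ≤ R := (le_max_left _ _).trans hR
  have hR2 : p.r * Real.exp K + M + 1 ≤ R := (le_max_right _ _).trans hR
  have hcb : Real.cos (Tb + p.φ) ≤ 0 := p.N1G3_cos_neg hb1 hb2.le
  have hZb : p.Z K Tb = K := by
    refine p.N1G3_clip hb1 ?_
    have h1 : 0 < Tb * Real.exp (-K) := mul_pos hb1 (Real.exp_pos _)
    have h2 : p.r * Real.cos (Tb + p.φ) ≤ 0 := mul_nonpos_of_nonneg_of_nonpos hr.le hcb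
    linarith
  have c0 : SC p.G (c - 1) (pt K Tb) (pt Yb Tb) := by
    refine p.SC_horiz hYb fun Y hY => lt_of_le_of_lt ?_ hMc
    have h1 : p.r * Real.exp Y * Real.cos (Tb + p.φ) ≤ 0 :=
      mul_nonpos_of_nonneg_of_nonpos (mul_pos hr (Real.exp_pos _)).le hcb
    have h2 : K * Tb ≤ Y * Tb := mul_le_mul_of_nonneg_right hY.1 hb1.le
    unfold g
    linarith
  have c5 : SC p.G (c - 1) (pt (p.Z K Ti) Ti) (pt (p.Z K R) R) := by
    refine p.SC_graph (f := p.Z K) hR1 (p.N1G3_Z_cont (by linarith)) fun T hT => ?_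
    exact hfar T hT.1
  have hRp : 0 < R := by linarith
  have c6 : SC p.G (c - 1) (pt 1 R) (pt (p.Z K R) R) := by
    have hZ1 : 1 ≤ p.Z K R := by
      have h1 : max (p.r * Real.cos (R + p.φ)) (R * Real.exp (-K)) ≤ R * Real.exp (-1) := by
        refine max_le ?_ ?_
        · have h2 : p.r * Real.cos (R + p.φ) ≤ p.r := by
            have h8 := mul_le_mul_of_nonneg_left (Real.cos_le_one (R + p.φ)) hr.le
            linarith
          have h3 : p.r * Real.exp 1 ≤ R := by
            have h4 : Real.exp 1 ≤ Real.exp (M + 1) := Real.exp_le_exp.2 (by linarith)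
            have := mul_le_mul_of_nonneg_left h4 hr.le
            linarith
          have h5 : p.r = p.r * Real.exp 1 * Real.exp (-1) := by
            rw [mul_assoc, ← Real.exp_add, add_neg_cancel, Real.exp_zero, mul_one]
          have h6 := mul_le_mul_of_nonneg_right h3 (Real.exp_pos (-1)).le
          linarith
        · exact mul_le_mul_of_nonneg_left (Real.exp_le_exp.2 (by linarith)) hRp.le
      have h2 : 0 < max (p.r * Real.cos (R + p.φ)) (R * Real.exp (-K)) :=
        (mul_pos hRp (Real.exp_pos _)).trans_le (le_max_right _ _)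
      have h3 := Real.log_le_log h2 h1
      rw [Real.log_mul hRp.ne' (Real.exp_pos _).ne', Real.log_exp] at h3
      unfold Z
      linarith
    refine p.SC_horiz hZ1 fun Y hY => lt_of_le_of_lt ?_ hMc
    have hYK : Y ≤ K := hY.2.trans (p.N1G3_Z_le hRp)
    have h1 : Real.exp Y * Real.cos (R + p.φ) ≤ Real.exp K := by
      have h2 := Real.cos_le_one (R + p.φ)
      have h3 := Real.exp_pos Y
      have h4 : Real.exp Y ≤ Real.exp K := Real.exp_le_exp.2 hYK
      have h5 := mul_le_mul_of_nonneg_left h2 h3.le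
      linarith
    have h2 := mul_le_mul_of_nonneg_left h1 hr.le
    have h3 : 1 * R ≤ Y * R := mul_le_mul_of_nonneg_right hY.1 hRp.le
    unfold g
    linarith
  have e1 : (1 + R * I : ℂ) = pt 1 R := by
    apply Complex.ext <;> simp [pt]
  obtain ⟨k0, hk0, hK0⟩ := c0.symm
  obtain ⟨k5, hk5, hK5⟩ := c5.trans c6.symm
  rw [hZb] at hC12
  have m0 : k0 ≤ max (c - 1) (max c12 c34) := hk0.le.trans (le_max_left _ _)
  have m5 : k5 ≤ max (c - 1) (max c12 c34) := hk5.le.trans (le_max_left _ _)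
  have m12 : c12 ≤ max (c - 1) (max c12 c34) := (le_max_left _ _).trans (le_max_right _ _)
  have m34 : c34 ≤ max (c - 1) (max c12 c34) := (le_max_right _ _).trans (le_max_right _ _)
  rw [e1]
  refine Chain.cons (v := (δ : ℂ) * pt V 1) ?_ hS (Chain.nil ?_)
  · rw [esub]
    exact (hK0.mono m0).trans (hC12.mono m12)
  · rw [eadd]
    exact (hC34.mono m34).trans (hK5.mono m5)

end Par0

end SokalN
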