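import Pool.Agent.Lib_MP_af4de1_v.N1G1
import Pool.Agent.Lib_MP_af4de1_v.N1G3

/-!
# The case `N = 1`, `u = i`
-/

namespace SokalN

open SokalV Complex Filter Topology Set

private theorem N1G_Gp (ζ : ℂ) (X T : ℝ) :
    Gp I ζ X T = -(X * T) + Real.exp X * max ((I * ζ * cexp (T * I)).re) 0 := by
  rw [Gp, Complex.I_re, Complex.I_im]
  ring

/-- The top height on the line `T` is positive when `T < e C`, `C` at most the coefficient of `e^X`. -/
private theorem N1G_top {ζ : ℂ} {T C : ℝ} (hT : 0 < T) (hC : T < Real.exp 1 * C)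
    (h : C ≤ (I * ζ * cexp (T * I)).re) : TopPos I ζ := by
  have he := Real.exp_pos 1
  have hC0 : 0 < C := by
    by_contra hcon
    have : Real.exp 1 * C ≤ 0 := mul_nonpos_of_nonneg_of_nonpos he.le (not_lt.mp hcon)
    linarith
  have hTC : 0 < T / C := div_pos hT hC0
  have h1 : Real.log (T / C) < 1 := by
    rw [Real.log_lt_iff_lt_exp hTC, div_lt_iff₀ hC0]
    exact hC
  refine ⟨T, T * (1 - Real.log (T / C)), mul_pos hT (by linarith), fun X => ?_⟩
  rw [N1G_Gp]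
  have h2 : Real.exp X * C ≤ Real.exp X * max ((I * ζ * cexp (T * I)).re) 0 :=
    mul_le_mul_of_nonneg_left (h.trans (le_max_left _ _)) (Real.exp_pos X).le
  have h3 : T * (X - Real.log (T / C) + 1) ≤ Real.exp X * C := by
    have h4 := Real.add_one_le_exp (X - Real.log (T / C))
    rw [Real.exp_sub, Real.exp_log hTC] at h4
    calc T * (X - Real.log (T / C) + 1) ≤ T * (Real.exp X / (T / C)) :=
          mul_le_mul_of_nonneg_left h4 hT.le
      _ = Real.exp X * C := by field_simp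
  linarith

private theorem N1G_re {ζ : ℂ} {r φ : ℝ} (h : I * ζ = r * cexp (φ * I)) (T : ℝ) :
    (I * ζ * cexp (T * I)).re = r * Real.cos (T + φ) := by
  have h1 : I * ζ * cexp (T * I) = ((r : ℝ) : ℂ) * cexp (((T + φ : ℝ) : ℂ) * I) := by
    rw [h, mul_assoc, ← Complex.exp_add]
    congr 2
    push_cast
    ring
  rw [h1, Complex.re_ofReal_mul, Complex.exp_ofReal_mul_I_re]

/-- The real part of `i ζ` is not positive. -/
private theorem N1G_re_nonpos {ζ : ℂ} (hT : ¬ TopPos I ζ) : (I * ζ).re ≤ 0 := by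
  by_contra hcon
  rw [not_le] at hcon
  apply hT
  have hcont : Continuous fun T : ℝ => Real.exp 1 * (I * ζ * cexp (T * I)).re - T := by fun_prop
  have h0 : 0 < Real.exp 1 * (I * ζ * cexp (((0 : ℝ) : ℂ) * I)).re - (0 : ℝ) := by
    have : (I * ζ * cexp (((0 : ℝ) : ℂ) * I)).re = (I * ζ).re := by simp
    rw [this, sub_zero]
    exact mul_pos (Real.exp_pos 1) hcon
  have h1 : ∀ᶠ T : ℝ in 𝓝 (0 : ℝ), 0 < Real.exp 1 * (I * ζ * cexp (T * I)).re - T :=
    hcont.continuousAt.eventually (lt_mem_nhds h0)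
  obtain ⟨T, h2, h3⟩ := ((h1.filter_mono (nhdsWithin_le_nhds (s := Ioi (0 : ℝ)))).and self_mem_nhdsWithin).exists
  exact N1G_top (C := (I * ζ * cexp (T * I)).re) h3 (by linarith) le_rfl

/-- The argument. -/
private theorem N1G_arg {z : ℂ} (hz : z.re ≤ 0) :
    ∃ φ : ℝ, Real.pi / 2 ≤ φ ∧ φ ≤ 3 * Real.pi / 2 ∧ z = ((‖z‖ : ℝ) : ℂ) * cexp (φ * I) := by
  have hpi := Real.pi_pos
  have h1 := Complex.norm_mul_exp_arg_mul_I z
  by_cases hz0 : z = 0
  · exact ⟨Real.pi / 2, le_rfl, by linarith, by rw [hz0]; simp⟩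
  have hn : 0 < ‖z‖ := norm_pos_iff.mpr hz0
  have h2 : z.re = ‖z‖ * Real.cos z.arg := (Complex.norm_mul_cos_arg z).symm
  have h3 : Real.cos z.arg ≤ 0 := by
    by_contra hcon
    have := mul_pos hn (not_le.mp hcon)
    linarith
  by_cases h4 : Real.pi / 2 ≤ z.arg
  · exact ⟨z.arg, h4, by linarith [Complex.arg_le_pi z], h1.symm⟩
  · have h5 : z.arg ≤ -(Real.pi / 2) := by
      by_contra hcon
      have := Real.cos_pos_of_mem_Ioo ⟨not_le.mp hcon, not_le.mp h4⟩
      linarith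
    refine ⟨z.arg + 2 * Real.pi, by linarith [Complex.neg_pi_lt_arg z], by linarith, ?_⟩
    have h6 : cexp (((z.arg + 2 * Real.pi : ℝ) : ℂ) * I) = cexp (z.arg * I) := by
      have : (((z.arg + 2 * Real.pi : ℝ) : ℂ) * I) = z.arg * I + 2 * Real.pi * I := by push_cast; ring
      rw [this, Complex.exp_add, Complex.exp_two_pi_mul_I, mul_one]
    rw [h6]
    exact h1.symm

/-- The case `u = i`. -/
theorem static_re_zero {ζ : ℂ} (hζ : Real.exp (-1) ≤ ‖ζ‖) (htip : ζ ≠ -Real.exp (-1))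
    (hT : ¬ TopPos I ζ) :
    ∃ (c : ℝ) (L : List ℂ), Good I ζ c L ∧
      ((∃ S, L = [S]) ∨ ∃ S1 S2, S1 ≠ S2 ∧ L = [S1, S2]) := by
  have hpi := Real.pi_pos
  have he := Real.exp_pos 1
  have hr : 0 < ‖ζ‖ := (Real.exp_pos (-1)).trans_le hζ
  obtain ⟨φ, hφ1, hφ2, hz⟩ := N1G_arg (N1G_re_nonpos hT)
  have hn : ‖I * ζ‖ = ‖ζ‖ := by rw [norm_mul, Complex.norm_I, one_mul]
  rw [hn] at hz
  have hre := N1G_re hz
  have hζe : ζ = -I * (((‖ζ‖ : ℝ) : ℂ) * cexp (φ * I)) := by
    rw [← hz, ← mul_assoc, neg_mul, Complex.I_mul_I, neg_neg, one_mul]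
  have NT : ∀ T : ℝ, 0 < T → Real.exp 1 * ‖ζ‖ * Real.cos (T + φ) ≤ T := by
    intro T h1
    by_contra hcon
    rw [not_le, mul_assoc] at hcon
    exact hT (N1G_top h1 hcon (hre T).ge)
  have hφ3 : φ < 3 * Real.pi / 2 := by
    refine lt_of_le_of_ne hφ2 fun h3 => ?_
    have hζr : ζ = -((‖ζ‖ : ℝ) : ℂ) := by
      have h4 : cexp (φ * I) = -I := by
        rw [h3]
        have : ((3 * Real.pi / 2 : ℝ) : ℂ) * I = Real.pi * I + ((Real.pi / 2 : ℝ) : ℂ) * I := by
          push_cast; ring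
        rw [this, Complex.exp_add, Complex.exp_pi_mul_I, Complex.exp_ofReal_mul_I]
        apply Complex.ext <;> simp
      rw [h4] at hζe
      have h5 : -I * (((‖ζ‖ : ℝ) : ℂ) * -I) = -((‖ζ‖ : ℝ) : ℂ) := by
        linear_combination ((‖ζ‖ : ℝ) : ℂ) * Complex.I_mul_I
      rw [h5] at hζe
      exact hζe
    have h6 : Real.exp (-1) < ‖ζ‖ := by
      refine lt_of_le_of_ne hζ fun h7 => htip ?_
      rw [hζr, ← h7]
    set K := Real.exp 1 * ‖ζ‖ with hK
    have hK1 : 1 < K := by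
      have : Real.exp 1 * Real.exp (-1) = 1 := by rw [← Real.exp_add]; norm_num
      calc 1 = Real.exp 1 * Real.exp (-1) := this.symm
        _ < Real.exp 1 * ‖ζ‖ := mul_lt_mul_of_pos_left h6 he
    have hK0 : 0 < K := by linarith
    have hT0 : 0 < 1 - 1 / K := by
      rw [sub_pos, div_lt_one hK0]
      exact hK1
    have hT1 : 1 - 1 / K ≤ 1 := by
      have : 0 < 1 / K := by positivity
      linarith
    obtain ⟨T, hTd⟩ : ∃ T, T = 1 - 1 / K := ⟨_, rfl⟩
    rw [← hTd] at hT0 hT1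
    have h7 := NT T hT0
    have h8 : Real.cos (T + φ) = Real.sin T := by
      rw [h3, show T + 3 * Real.pi / 2 = (T - Real.pi / 2) + 2 * Real.pi by ring, Real.cos_add_two_pi,
        Real.cos_sub_pi_div_two]
    rw [h8] at h7
    have h9 : T - T ^ 3 / 4 < Real.sin T := by
      have h9' := Real.sin_gt_sub_cube hT0
      have : 0 < T ^ 3 := by positivity
      linarith
    have h10 : K * T = K - 1 := by
      rw [hTd]
      field_simp
    have h11 : K * (T - T ^ 3 / 4) < T := (mul_lt_mul_of_pos_left h9 hK0).trans_le h7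
    have h12 : T ^ 2 ≤ 1 := by nlinarith
    have h13 : K * (T - T ^ 3 / 4) = (K - 1) * (1 - T ^ 2 / 4) := by
      rw [← h10]
      ring
    have h14 : T ≤ K - 1 := by
      rw [← h10]
      nlinarith
    have h15 : T ^ 2 ≤ T := by nlinarith
    -- `K - 1 = K T`, `(K - 1)(1 - T ^ 2 / 4) < T`
    have h16 : K * (1 - T ^ 2 / 4) < 1 := by
      have : T * (K * (1 - T ^ 2 / 4)) < T * 1 := by
        calc T * (K * (1 - T ^ 2 / 4)) = K * (T - T ^ 3 / 4) := by ring
          _ < T := h11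
          _ = T * 1 := (mul_one T).symm
      exact lt_of_mul_lt_mul_left this hT0.le
    nlinarith
  set p : Par0 := ⟨‖ζ‖, φ, hr, hφ1, hφ3⟩ with hp
  have hpζ : p.ζ = ζ := hζe.symm
  have hTR : 0 < p.TR := by
    show 0 < 3 * Real.pi / 2 - φ
    linarith
  have hTL : p.TL ≤ 0 := by
    show Real.pi / 2 - φ ≤ 0
    linarith
  obtain ⟨X2, T2, hT2, hup⟩ := p.upper NT
  have hb1 : 0 < p.TR / 2 := by linarith
  have hb2 : p.TR / 2 < p.TR := by linarith
  have hup' := hup (p.TR / 2) hb1 hb2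
  rcases hTL.lt_or_eq with h | h
  · obtain ⟨X1, T1, hT1, hlow⟩ := p.lower_neg h
    have hne : Par0.pt X1 T1 ≠ Par0.pt X2 T2 := by
      intro hcon
      have : T1 = T2 := congrArg Complex.im hcon
      linarith
    have := good_of_two (u := I) (ζ := p.ζ) hne (fun Yb => Par0.pt Yb (p.TR / 2)) (hlow (p.TR / 2) hb1 hb2) hup'
    rwa [hpζ] at this
  · obtain ⟨X1, hlow⟩ := p.lower_zero h
    have hne : Par0.pt X1 0 ≠ Par0.pt X2 T2 := by
      intro hcon
      have : (0 : ℝ) = T2 := congrArg Complex.im hcon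
      linarith
    have := good_of_two (u := I) (ζ := p.ζ) hne (fun Yb => Par0.pt Yb (p.TR / 2)) (hlow (p.TR / 2) hb1 hb2) hup'
    rwa [hpζ] at this

end SokalN
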