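import Pool.Agent.Lib_MP_af4de1_v.N1F
import Pool.Agent.Lib_MP_af4de1_v.N1G

/-!
# The static statement for `N = 1`
-/

namespace SokalV

open Complex SokalN

theorem static_N1 {u ζ : ℂ} (hu : ‖u‖ = 1) (ha : 0 ≤ u.re) (hb : 0 ≤ u.im)
    (hζ : Real.exp (-1) ≤ ‖ζ‖) (htip : ζ ≠ -Real.exp (-1)) (hT : ¬ TopPos u ζ) :
    ∃ (c : ℝ) (L : List ℂ), Good u ζ c L ∧
      ((∃ S, L = [S]) ∨ ∃ S1 S2, S1 ≠ S2 ∧ L = [S1, S2]) := by
  have hζ0 : ζ ≠ 0 := by
    rintro rfl
    have := Real.exp_pos (-1)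
    simp at hζ
    linarith
  rcases ha.lt_or_eq with ha | ha
  · exact static_re_pos hu ha hζ0 htip hT
  · have h1 : u = I := by
      have h2 : u.re ^ 2 + u.im ^ 2 = 1 := by
        have h3 := Complex.sq_norm u
        rw [hu, Complex.normSq_apply] at h3
        nlinarith
      rw [← ha] at h2
      have h4 : u.im = 1 := by nlinarith
      apply Complex.ext
      · simp [← ha]
      · simp [h4]
    rw [h1] at hT ⊢
    exact static_re_zero hζ htip hT

end SokalV
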