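import Pool.Agent.Lib_MP_af4de1_v.TopA

/-!
# When is the top height positive? [SV-POS]

`a = u.re`, `b = u.im`, `a²+b²=1`, `a, b ≥ 0`.
`topPos_of_re`: `r' := Re(uζe^{TI})`, at `T = 0` it is `Re(uζ) > 0`.  If `b = 0` (`a = 1`): `T = 0`: `X²/2 + r'e^X ≥ min(1/2, r'/e) > 0`
(`|X| ≥ 1` or `|X| ≤ 1`).  If `b > 0`: for small `T > 0`, `Re(uζe^{TI}) ≥ r'/2 =: ρ`, and `-bXT + ρe^X ≥ bT - bT log(bT/ρ) ≥ bT`
as soon as `bT ≤ ρ` (minimum over `X`), so `Gp ≥ bT - aT²/2 > 0`.
`topPos_two`: if `Re(uζ) ≠ 0` use `topPos_of_re` for `ζ` or `-ζ`.  If `Re(uζ) = 0`, one of `±uζ` is `-ir`, `r = ‖ζ‖`: say `uζ = -ir`,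
`Re(uζe^{TI}) = r sin T`.  For small `T > 0`, `r sin T ≥ r T(1-T²/6)`.  CASE `a > 0`: `Gp = aX²/2 - bXT + r e^X sin T - aT²/2`.
`X ≤ -1/2`: `≥ a/8 - aT²/2`.  `|X| ≤ x0 := min(1/2, r/(4b+1))`: `≥ r e^{-1/2}sin T - b x0 T - aT²/2 > 0` — choose `x0` so small that
`b x0 ≤ r/4`.  `X ≥ x0`: `aX²/2 - bXT ≥ X(aX/2 - bT) ≥ x0(ax0/2 - bT) > aT²/2` for small `T`; `-1/2 ≤ X ≤ -x0`: `≥ r e^{-1/2} sin T - aT²/2`.
CASE `a = 0`, `r > 1/e`: `b = 1`, `Gp = T(r'' e^X - X)` with `r'' = r sin T/T → r`, `r''e^X - X ≥ 1 + log r'' > 0` for small `T`.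
`exists_re_pos`: for `N ≥ 3`, `w ≠ 0` one of `w e^{2πim/N}`, `m < N`, has positive real part: their arguments are spaced by `2π/N ≤ 2π/3 < π`.
(E.g. the sum over `m` of `Re` is `0`, so otherwise all real parts vanish, impossible for `N ≥ 3`.)
-/

namespace SokalV

open Complex Filter Topology

private lemma Pos_sq {u : ℂ} (hu : ‖u‖ = 1) : u.re ^ 2 + u.im ^ 2 = 1 := by
  have h := Complex.sq_norm u
  rw [hu, Complex.normSq_apply] at h
  nlinarith

private lemma Pos_Gp_ge {u ζ : ℂ} {X T ρ : ℝ} (h : ρ ≤ (u * ζ * cexp (T * I)).re) :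
    u.re * (X ^ 2 - T ^ 2) / 2 - u.im * X * T + Real.exp X * ρ ≤ Gp u ζ X T := by
  have h1 : ρ ≤ max ((u * ζ * cexp (T * I)).re) 0 := le_max_of_le_left h
  have h2 := mul_le_mul_of_nonneg_left h1 (Real.exp_pos X).le
  unfold Gp
  linarith

theorem topPos_of_re {u ζ : ℂ} (hu : ‖u‖ = 1) (hre : 0 ≤ u.re) (him : 0 ≤ u.im)
    (h : 0 < (u * ζ).re) : TopPos u ζ := by
  have hsq := Pos_sq hu
  set r : ℝ := (u * ζ).re with hr
  have hee : 0 < Real.exp (-1) := Real.exp_pos _
  rcases him.eq_or_lt with hb | hb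
  · -- `b = 0`
    have ha : u.re = 1 := by nlinarith
    refine ⟨0, min (1 / 2) (Real.exp (-1) * r), lt_min (by norm_num) (by positivity), ?_⟩
    intro X
    have h1 : r ≤ (u * ζ * cexp (((0 : ℝ) : ℂ) * I)).re := by simp [hr]
    refine le_trans ?_ (Pos_Gp_ge (X := X) h1)
    rw [ha, ← hb]
    by_cases hX : 1 ≤ |X|
    · refine (min_le_left _ _).trans ?_
      have h2 : 1 ≤ X ^ 2 := by
        rw [← sq_abs]; nlinarith
      have h3 : 0 ≤ Real.exp X * r := by positivity
      nlinarith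
    · refine (min_le_right _ _).trans ?_
      push Not at hX
      have h2 : Real.exp (-1) ≤ Real.exp X := Real.exp_le_exp.2 (by linarith [(abs_lt.1 hX).1])
      have h3 := mul_le_mul_of_nonneg_right h2 h.le
      nlinarith [sq_nonneg X]
  · -- `b > 0`
    have hcont : Tendsto (fun T : ℝ => (u * ζ * cexp ((T : ℂ) * I)).re) (𝓝 0) (𝓝 r) := by
      have : Continuous (fun T : ℝ => (u * ζ * cexp ((T : ℂ) * I)).re) := by fun_prop
      have h1 := this.tendsto 0
      simpa [hr] using h1
    have he1 : ∀ᶠ T : ℝ in 𝓝 0, r / 2 ≤ (u * ζ * cexp ((T : ℂ) * I)).re :=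
      (hcont.eventually (lt_mem_nhds (by linarith : r / 2 < r))).mono fun T hT => hT.le
    obtain ⟨δ, hδ, hδ'⟩ := Metric.eventually_nhds_iff.1 he1
    set ρ : ℝ := r / 2 with hρ
    have hρ0 : 0 < ρ := by positivity
    -- choose `T`
    set T : ℝ := min (min (δ / 2) 1) (min u.im (Real.exp (-1) * ρ)) with hTdef
    have hT0 : 0 < T := lt_min (lt_min (by linarith) one_pos) (lt_min hb (by positivity))
    have hT1 : T ≤ δ / 2 := (min_le_left _ _).trans (min_le_left _ _)
    have hT2 : T ≤ 1 := (min_le_left _ _).trans (min_le_right _ _)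
    have hT3 : T ≤ u.im := (min_le_right _ _).trans (min_le_left _ _)
    have hT4 : T ≤ Real.exp (-1) * ρ := (min_le_right _ _).trans (min_le_right _ _)
    have hee1 : Real.exp (-1) ≤ 1 := Real.exp_le_one_iff.2 (by norm_num)
    have hTρ : T ≤ ρ := hT4.trans (by nlinarith)
    have ha1 : u.re ≤ 1 := by nlinarith
    have hb1 : u.im ≤ 1 := by nlinarith
    have hge : ρ ≤ (u * ζ * cexp ((T : ℂ) * I)).re := by
      apply hδ'
      rw [Real.dist_eq, sub_zero, abs_of_pos hT0]
      linarith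
    refine ⟨T, T ^ 2 / 2, by positivity, ?_⟩
    intro X
    refine le_trans ?_ (Pos_Gp_ge (X := X) hge)
    have hX2 : 0 ≤ u.re * X ^ 2 := mul_nonneg hre (sq_nonneg X)
    have haT : u.re * T ^ 2 ≤ T ^ 2 := by nlinarith [sq_nonneg T]
    have hT22 : T ^ 2 ≤ T := by nlinarith
    have hbT : T ^ 2 ≤ u.im * T := by nlinarith
    -- enough: `T^2 ≤ -bXT + ρ e^X`
    have key : T ^ 2 ≤ -(u.im * X * T) + Real.exp X * ρ := by
      rcases le_or_gt X (-1) with hX | hX
      · have h2 : 0 ≤ Real.exp X * ρ := by positivity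
        have h3 : u.im * T ≤ -(u.im * X * T) := by
          have : 0 ≤ u.im * T * (-X - 1) := mul_nonneg (by positivity) (by linarith)
          nlinarith
        linarith
      · rcases le_or_gt X 0 with hX0 | hX0
        · have h2 : Real.exp (-1) * ρ ≤ Real.exp X * ρ :=
            mul_le_mul_of_nonneg_right (Real.exp_le_exp.2 hX.le) hρ0.le
          have h3 : 0 ≤ -(u.im * X * T) := by
            have : 0 ≤ u.im * T * (-X) := mul_nonneg (by positivity) (by linarith)
            nlinarith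
          linarith
        · have h2 : X + 1 ≤ Real.exp X := Real.add_one_le_exp X
          have h3 : (X + 1) * ρ ≤ Real.exp X * ρ := mul_le_mul_of_nonneg_right h2 hρ0.le
          have h4 : u.im * X * T ≤ X * ρ := by
            have : u.im * T ≤ ρ := by nlinarith
            nlinarith
          nlinarith
    nlinarith

private lemma Pos_two_aux {u ζ : ℂ} (hu : ‖u‖ = 1) (hre : 0 ≤ u.re) (him : 0 ≤ u.im) {r : ℝ} (hr : 0 < r)
    (hz : u * ζ = -(r * I)) (h : 0 < u.re ∨ Real.exp (-1) < r) : TopPos u ζ := by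
  have hsq := Pos_sq hu
  have hval : ∀ T : ℝ, (u * ζ * cexp ((T : ℂ) * I)).re = r * Real.sin T := by
    intro T
    rw [hz, Complex.exp_mul_I, ← Complex.ofReal_cos, ← Complex.ofReal_sin]
    generalize Real.cos T = c
    generalize Real.sin T = s
    simp
  have hee : 0 < Real.exp (-1) := Real.exp_pos _
  rcases hre.eq_or_lt with ha | ha
  · -- `a = 0`
    have hr1 : Real.exp (-1) < r := by
      rcases h with h | h
      · exact absurd h (by rw [← ha]; exact lt_irrefl 0)
      · exact h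
    have hb : u.im = 1 := by nlinarith
    set T : ℝ := min 1 ((r - Real.exp (-1)) / r) with hTdef
    have hT0 : 0 < T := lt_min one_pos (div_pos (by linarith) hr)
    have hT1 : T ≤ 1 := min_le_left _ _
    have hT2 : r * T ≤ r - Real.exp (-1) := by
      have h1 : T ≤ (r - Real.exp (-1)) / r := min_le_right _ _
      rw [le_div_iff₀ hr] at h1
      linarith
    have hs0 := Real.sin_gt_sub_cube hT0
    have hs : T - T ^ 3 / 4 < Real.sin T := by
      have : 0 < T ^ 3 := by positivity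
      linarith
    -- `κ = r sin T / T > 1/e`
    have hκ : Real.exp (-1) < r * Real.sin T / T := by
      rw [lt_div_iff₀ hT0]
      have h1 : r * (T - T ^ 3 / 4) < r * Real.sin T := mul_lt_mul_of_pos_left hs hr
      have h2 : r * T * T ^ 2 ≤ (r - Real.exp (-1)) * T := by
        have h3 : T ^ 2 ≤ T := by nlinarith
        have h4 : r * T * T ^ 2 ≤ r * T * T := mul_le_mul_of_nonneg_left h3 (by positivity)
        nlinarith
      nlinarith [mul_pos (sub_pos.2 hr1) hT0]
    set κ : ℝ := r * Real.sin T / T with hκd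
    have hκ0 : 0 < κ := hee.trans hκ
    have hlog : -1 < Real.log κ := by
      rw [Real.lt_log_iff_exp_lt hκ0]; exact hκ
    refine ⟨T, T * (1 + Real.log κ), mul_pos hT0 (by linarith), ?_⟩
    intro X
    refine le_trans ?_ (Pos_Gp_ge (X := X) (hval T).ge)
    rw [← ha, hb]
    have h1 : r * Real.sin T = κ * T := by rw [hκd]; field_simp
    rw [h1]
    have h2 : Real.log κ + X + 1 ≤ κ * Real.exp X := by
      calc Real.log κ + X + 1 ≤ Real.exp (Real.log κ + X) := Real.add_one_le_exp _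
        _ = κ * Real.exp X := by rw [Real.exp_add, Real.exp_log hκ0]
    have h3 : T * (Real.log κ + X + 1) ≤ T * (κ * Real.exp X) := mul_le_mul_of_nonneg_left h2 hT0.le
    nlinarith
  · -- `a > 0`
    have ha1 : u.re ≤ 1 := by nlinarith
    set T : ℝ := min (1 / 4) (min (r / 4) (u.re * r / 2)) with hTdef
    have hT0 : 0 < T := lt_min (by norm_num) (lt_min (by positivity) (by positivity))
    have hT1 : T ≤ 1 / 4 := min_le_left _ _
    have hT2 : T ≤ r / 4 := (min_le_right _ _).trans (min_le_left _ _)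
    have hT3 : T ≤ u.re * r / 2 := (min_le_right _ _).trans (min_le_right _ _)
    have hs0 := Real.sin_gt_sub_cube hT0
    have hs : T - T ^ 3 / 4 < Real.sin T := by
      have : 0 < T ^ 3 := by positivity
      linarith
    have hge : r * T / 2 ≤ (u * ζ * cexp ((T : ℂ) * I)).re := by
      rw [hval]
      have h1 : T / 2 ≤ Real.sin T := by
        have h3 : T ^ 3 ≤ T := by nlinarith [sq_nonneg T, mul_pos hT0 hT0]
        nlinarith
      nlinarith
    refine ⟨T, min (u.re * (3 / 32)) (T * r / 8), lt_min (by positivity) (by positivity), ?_⟩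
    intro X
    refine le_trans ?_ (Pos_Gp_ge (X := X) hge)
    have hT22 : T ^ 2 ≤ 1 / 16 := by nlinarith
    have hXT : 0 ≤ Real.exp X * (r * T / 2) := by positivity
    rcases le_or_gt X (-1 / 2) with hX | hX
    · refine (min_le_left _ _).trans ?_
      have h2 : 1 / 4 ≤ X ^ 2 := by nlinarith
      have h3 : 0 ≤ -(u.im * X * T) := by
        have : 0 ≤ u.im * T * (-X) := mul_nonneg (by positivity) (by linarith)
        nlinarith
      have h4 : u.re * (1 / 4 - 1 / 16) ≤ u.re * (X ^ 2 - T ^ 2) := mul_le_mul_of_nonneg_left (by linarith) hre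
      linarith
    · rcases le_or_gt X 0 with hX0 | hX0
      · refine (min_le_right _ _).trans ?_
        have h2 : (1 : ℝ) / 2 ≤ Real.exp X := by
          have := Real.add_one_le_exp X
          linarith
        have h3 : 0 ≤ -(u.im * X * T) := by
          have : 0 ≤ u.im * T * (-X) := mul_nonneg (by positivity) (by linarith)
          nlinarith
        have h4 : (1 / 2) * (r * T / 2) ≤ Real.exp X * (r * T / 2) := mul_le_mul_of_nonneg_right h2 (by positivity)
        have h5 : 0 ≤ u.re * X ^ 2 := by positivity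
        have h6 : u.re * T ^ 2 ≤ T * (r / 4) := by
          have h7 : u.re * T ^ 2 ≤ T ^ 2 := by nlinarith [sq_nonneg T]
          nlinarith
        nlinarith
      · refine (min_le_right _ _).trans ?_
        have h2 : (1 : ℝ) ≤ Real.exp X := Real.one_le_exp hX0.le
        have h4 : 1 * (r * T / 2) ≤ Real.exp X * (r * T / 2) := mul_le_mul_of_nonneg_right h2 (by positivity)
        -- `a X²/2 - b X T ≥ - b² T²/(2a)`
        have h5 : -(u.im ^ 2 * T ^ 2) ≤ u.re * (u.re * X ^ 2 - 2 * u.im * X * T) := by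
          nlinarith [sq_nonneg (u.re * X - u.im * T)]
        have h6 : -(T ^ 2) ≤ u.re * (u.re * (X ^ 2 - T ^ 2) - 2 * u.im * X * T) := by
          have h7 : (u.re ^ 2 + u.im ^ 2) * T ^ 2 = T ^ 2 := by rw [hsq, one_mul]
          nlinarith
        have h8 : T ^ 2 ≤ u.re * (T * r / 2) := by nlinarith
        have h9 : 0 ≤ u.re * ((u.re * (X ^ 2 - T ^ 2) - 2 * u.im * X * T) + T * r / 2) := by nlinarith
        have h10 : 0 ≤ (u.re * (X ^ 2 - T ^ 2) - 2 * u.im * X * T) + T * r / 2 :=
          nonneg_of_mul_nonneg_right h9 ha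
        nlinarith [mul_pos hT0 hr]

theorem topPos_two {u ζ : ℂ} (hu : ‖u‖ = 1) (hre : 0 ≤ u.re) (him : 0 ≤ u.im) (hζ : ζ ≠ 0)
    (h : 0 < u.re ∨ Real.exp (-1) < ‖ζ‖ ∨ (u * ζ).re ≠ 0) : TopPos u ζ ∨ TopPos u (-ζ) := by
  rcases lt_trichotomy ((u * ζ).re) 0 with h0 | h0 | h0
  · right
    apply topPos_of_re hu hre him
    rw [mul_neg, Complex.neg_re]
    linarith
  · have hn : ‖u * ζ‖ = ‖ζ‖ := by rw [norm_mul, hu, one_mul]
    have hzeq : u * ζ = (u * ζ).im * I := by
      apply Complex.ext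
      · simp [h0]
      · simp
    have hu0 : u ≠ 0 := by
      rintro rfl
      simp at hu
    have him0 : (u * ζ).im ≠ 0 := by
      intro h1
      have : u * ζ = 0 := Complex.ext h0 h1
      exact (mul_ne_zero hu0 hζ) this
    have habs : |(u * ζ).im| = ‖ζ‖ := by
      rw [← hn]
      conv_rhs => rw [hzeq]
      rw [norm_mul, Complex.norm_I, mul_one, Complex.norm_real, Real.norm_eq_abs]
    have h' : 0 < u.re ∨ Real.exp (-1) < |(u * ζ).im| := by
      rcases h with h | h | h
      · exact Or.inl h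
      · right; rw [habs]; exact h
      · exact absurd h0 h
    rcases lt_or_gt_of_ne him0 with h1 | h1
    · left
      rw [abs_of_neg h1] at h'
      refine Pos_two_aux hu hre him (r := -(u * ζ).im) (by linarith) ?_ h'
      conv_lhs => rw [hzeq]
      push_cast
      ring
    · right
      rw [abs_of_pos h1] at h'
      refine Pos_two_aux hu hre him (r := (u * ζ).im) h1 ?_ h'
      rw [mul_neg]
      conv_lhs => rw [hzeq]
  · left
    exact topPos_of_re hu hre him h0

theorem exists_re_pos {N : ℕ} (hN : 3 ≤ N) {w : ℂ} (hw : w ≠ 0) :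
    ∃ m < N, 0 < (w * cexp (2 * Real.pi * I * m / N)).re := by
  by_contra hcon
  push Not at hcon
  have hN0 : N ≠ 0 := by omega
  have hNr : (3 : ℝ) ≤ N := by exact_mod_cast hN
  have hprim := Complex.isPrimitiveRoot_exp N hN0
  have hpow : ∀ m : ℕ, cexp (2 * Real.pi * I * m / N) = (cexp (2 * Real.pi * I / N)) ^ m := by
    intro m
    rw [← Complex.exp_nat_mul]
    congr 1
    ring
  have hsum : ∑ m ∈ Finset.range N, (w * cexp (2 * Real.pi * I * m / N)).re = 0 := by
    have h1 : ∑ m ∈ Finset.range N, w * cexp (2 * Real.pi * I * m / N) = 0 := by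
      rw [← Finset.mul_sum]
      simp only [hpow]
      rw [hprim.geom_sum_eq_zero (by omega), mul_zero]
    rw [← Complex.re_sum, h1, Complex.zero_re]
  have hall := (Finset.sum_eq_zero_iff_of_nonpos (fun m hm => hcon m (Finset.mem_range.1 hm))).1 hsum
  have h0 := hall 0 (Finset.mem_range.2 (by omega))
  have h1 := hall 1 (Finset.mem_range.2 (by omega))
  have e0 : w.re = 0 := by simpa using h0
  have e1 : cexp (2 * Real.pi * I * ((1 : ℕ) : ℂ) / N) = cexp (((2 * Real.pi / N : ℝ) : ℂ) * I) := by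
    congr 1
    push_cast
    ring
  rw [e1, Complex.exp_mul_I, ← Complex.ofReal_cos, ← Complex.ofReal_sin] at h1
  have h2 : -(w.im * Real.sin (2 * Real.pi / N)) = 0 := by
    have : (w * ((Real.cos (2 * Real.pi / N) : ℂ) + (Real.sin (2 * Real.pi / N) : ℂ) * I)).re =
        w.re * Real.cos (2 * Real.pi / N) - w.im * Real.sin (2 * Real.pi / N) := by
      generalize Real.cos (2 * Real.pi / N) = c
      generalize Real.sin (2 * Real.pi / N) = s
      simp
    rw [this, e0] at h1
    linarith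
  have hsin : 0 < Real.sin (2 * Real.pi / N) := by
    apply Real.sin_pos_of_pos_of_lt_pi
    · have := Real.pi_pos; positivity
    · rw [div_lt_iff₀ (by linarith)]
      nlinarith [Real.pi_pos]
  have h3 : w.im = 0 := by
    rcases mul_eq_zero.1 (neg_eq_zero.1 h2) with h | h
    · exact h
    · exact absurd h hsin.ne'
  exact hw (Complex.ext e0 h3)

theorem topPos_three {N : ℕ} (hN : 3 ≤ N) {u ζ : ℂ} (hu : ‖u‖ = 1) (hre : 0 ≤ u.re)
    (him : 0 ≤ u.im) (hζ : ζ ≠ 0) : ∃ m < N, TopPos u (lift N ζ m) := by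
  obtain ⟨m, hm, h⟩ := exists_re_pos hN (w := u * ζ)
    (mul_ne_zero (norm_ne_zero_iff.1 (by rw [hu]; exact one_ne_zero)) hζ)
  exact ⟨m, hm, topPos_of_re hu hre him (by rw [lift, ← mul_assoc]; exact h)⟩

end SokalV
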