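import Pool.Agent.Lib_MP_af4de1_v.TopB

/-!
# Crossing the top point vertically [SV-TOPD]

`S = X + TI`, `ρ = Re(uζe^{TI}) > 0`, `S + ζe^S = 0`.  `s ↦ Gh u ζ (S + sI)` has derivative `0` at `s = 0` and second derivative
`-Re(u(1+ζe^{S+sI})) = -(u.re + e^X Re(uζe^{(T+s)I})) < 0` for small `|s|`: strictly below `c` for `0 < |s| ≤ δ0`.  So for
`0 < δ ≤ δ0`, `Sad u (Ph ζ) c S (δ I)` (`deriv_Ph`, `deriv_deriv_Ph`: `u(1+ζe^S)(δI)²` has real part `-δ²(u.re + e^Xρ) < 0`).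
`Re(uζe^{(T±δ)I}) > 0` for small `δ`, so `Gp X (T±δ) = Gh(S ± δI) < c`.
-/

namespace SokalV

open Complex Filter Topology

/-- the exponential on a vertical line -/
private theorem topd_exp (τ : ℝ) : cexp (τ * I) = (⟨Real.cos τ, Real.sin τ⟩ : ℂ) := by
  apply Complex.ext
  · exact Complex.exp_ofReal_mul_I_re τ
  · exact Complex.exp_ofReal_mul_I_im τ

private theorem topd_re (w : ℂ) (τ : ℝ) :
    (w * cexp (τ * I)).re = w.re * Real.cos τ - w.im * Real.sin τ := by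
  rw [topd_exp, Complex.mul_re]

private theorem topd_im (w : ℂ) (τ : ℝ) :
    (w * cexp (τ * I)).im = w.re * Real.sin τ + w.im * Real.cos τ := by
  rw [topd_exp, Complex.mul_im]

private theorem topd_Gh (u ζ : ℂ) (X τ : ℝ) : Gh u ζ (X + τ * I) =
    u.re * (X ^ 2 - τ ^ 2) / 2 - u.im * X * τ + Real.exp X * (u * ζ * cexp (τ * I)).re := by
  have h1 : u * Ph ζ (X + τ * I) = u * ((X + τ * I) ^ 2 / 2) +
      (Real.exp X : ℂ) * (u * ζ * cexp (τ * I)) := by
    rw [Ph, Complex.exp_add, Complex.ofReal_exp]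
    ring
  have h2 : ((X : ℂ) + τ * I) ^ 2 / 2 = (⟨(X ^ 2 - τ ^ 2) / 2, X * τ⟩ : ℂ) := by
    have hI : (I : ℂ) ^ 2 = -1 := Complex.I_sq
    have this : ((X : ℂ) + τ * I) ^ 2 / 2 =
        (((X ^ 2 - τ ^ 2) / 2 : ℝ) : ℂ) + ((X * τ : ℝ) : ℂ) * I := by
      push_cast
      linear_combination ((τ : ℂ) ^ 2 / 2) * hI
    rw [this]
    apply Complex.ext
    · rw [Complex.add_re, Complex.ofReal_re, Complex.re_ofReal_mul, Complex.I_re, mul_zero,
        add_zero]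
    · rw [Complex.add_im, Complex.ofReal_im, Complex.im_ofReal_mul, Complex.I_im, mul_one,
        zero_add]
  rw [Gh, h1, h2, Complex.add_re, Complex.mul_re u, Complex.re_ofReal_mul]
  ring

/-- the imaginary part of the critical equation -/
private theorem topd_crit {u ζ : ℂ} {X T : ℝ}
    (hS : (X + T * I : ℂ) + ζ * cexp (X + T * I) = 0) :
    u.re * T + u.im * X + Real.exp X * (u * ζ * cexp (T * I)).im = 0 := by
  have h1 : u * ((X + T * I : ℂ) + ζ * cexp (X + T * I)) = u * (X + T * I) +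
      (Real.exp X : ℂ) * (u * ζ * cexp (T * I)) := by
    rw [Complex.exp_add, Complex.ofReal_exp]
    ring
  rw [hS, mul_zero] at h1
  generalize u * ζ * cexp (T * I) = w at h1 ⊢
  have h2 := congrArg Complex.im h1
  rw [Complex.add_im, Complex.mul_im u, Complex.im_ofReal_mul] at h2
  simp only [Complex.zero_im, Complex.add_im, Complex.ofReal_im, Complex.mul_im, Complex.ofReal_re,
    Complex.I_im, Complex.I_re, Complex.add_re, Complex.mul_re, mul_one, mul_zero, zero_add,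
    add_zero, sub_zero] at h2
  linarith

/-- the height on the vertical line through the top point -/
private theorem topd_diff {u ζ : ℂ} {X T : ℝ}
    (hS : (X + T * I : ℂ) + ζ * cexp (X + T * I) = 0) (s : ℝ) :
    Gh u ζ (X + (T + s : ℝ) * I) = Gh u ζ (X + T * I) - u.re * s ^ 2 / 2 +
      Real.exp X * ((u * ζ * cexp (T * I)).re * (Real.cos s - 1) -
        (u * ζ * cexp (T * I)).im * (Real.sin s - s)) := by
  have hc := topd_crit (u := u) hS
  rw [topd_Gh, topd_Gh]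
  rw [topd_re, topd_re, topd_im] at *
  rw [Real.cos_add, Real.sin_add]
  linear_combination (-s) * hc

private theorem topd_rho (w : ℂ) (T s : ℝ) : (w * cexp ((T + s : ℝ) * I)).re =
    (w * cexp (T * I)).re * Real.cos s - (w * cexp (T * I)).im * Real.sin s := by
  rw [topd_re, topd_re, topd_im, Real.cos_add, Real.sin_add]
  ring

/-- elementary inequality -/
private theorem topd_ineq {ρ σ s : ℝ} (hρ : 0 < ρ) (h1 : |s| ≤ 1) (h2 : |σ| * |s| < ρ / 2)
    (hs : s ≠ 0) : ρ * (Real.cos s - 1) - σ * (Real.sin s - s) < 0 := by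
  have hc := abs_le.1 (Real.cos_bound h1)
  have hsn := abs_le.1 (Real.sin_bound h1)
  have hs0 : 0 < |s| := abs_pos.2 hs
  have e2 : s ^ 2 = |s| ^ 2 := (sq_abs s).symm
  have h4 : |s| ^ 4 ≤ |s| ^ 2 := by nlinarith [sq_nonneg (|s|), pow_le_one₀ hs0.le h1 (n := 2)]
  have h43 : |s| ^ 4 ≤ |s| ^ 3 := by
    have : |s| ^ 4 = |s| ^ 3 * |s| := by ring
    rw [this]
    nlinarith [pow_pos hs0 3]
  have hcos : Real.cos s - 1 ≤ -(43 / 96) * |s| ^ 2 := by
    have := hc.2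
    rw [e2] at this
    nlinarith
  have hsin : |Real.sin s - s| ≤ |s| ^ 3 / 4 := by
    have e3 : |s ^ 3| = |s| ^ 3 := abs_pow s 3
    have hb := abs_le.1 (le_of_eq e3)
    have hb1 : -|s| ^ 3 ≤ s ^ 3 := by rw [← e3]; exact neg_abs_le _
    have hb2 : s ^ 3 ≤ |s| ^ 3 := by rw [← e3]; exact le_abs_self _
    rw [abs_le]
    constructor <;> nlinarith [hsn.1, hsn.2]
  have h5 : -(σ * (Real.sin s - s)) ≤ |σ| * (|s| ^ 3 / 4) := by
    calc -(σ * (Real.sin s - s)) ≤ |σ * (Real.sin s - s)| := neg_le_abs _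
      _ = |σ| * |Real.sin s - s| := abs_mul _ _
      _ ≤ _ := mul_le_mul_of_nonneg_left hsin (abs_nonneg _)
  have h6 : |σ| * (|s| ^ 3 / 4) ≤ ρ / 2 * (|s| ^ 2 / 4) := by
    have : |σ| * (|s| ^ 3 / 4) = (|σ| * |s|) * (|s| ^ 2 / 4) := by ring
    rw [this]
    exact mul_le_mul_of_nonneg_right h2.le (by positivity)
  have h7 : ρ * (Real.cos s - 1) ≤ ρ * (-(43 / 96) * |s| ^ 2) :=
    mul_le_mul_of_nonneg_left hcos hρ.le
  have h8 : 0 < ρ * |s| ^ 2 := by positivity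
  nlinarith

theorem top_sad {u ζ : ℂ} (hre : 0 ≤ u.re) {c X T : ℝ} (hG : Gh u ζ (X + T * I) = c)
    (hρ : 0 < (u * ζ * cexp (T * I)).re) (hS : (X + T * I : ℂ) + ζ * cexp (X + T * I) = 0) :
    ∃ δ0 : ℝ, 0 < δ0 ∧ ∀ δ : ℝ, 0 < δ → δ ≤ δ0 → Sad u (Ph ζ) c (X + T * I) (δ * I) ∧
      Gp u ζ X (T - δ) < c ∧ Gp u ζ X (T + δ) < c := by
  set ρ := (u * ζ * cexp (T * I)).re with hρd
  set σ := (u * ζ * cexp (T * I)).im with hσd
  have hσ0 : 0 ≤ |σ| := abs_nonneg _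
  have hden : 0 < 2 * (|σ| + 1) := by positivity
  -- everything below the level
  have key : ∀ s : ℝ, |s| ≤ 1 → |s| ≤ ρ / (2 * (|σ| + 1)) → |σ| * |s| < ρ / 2 := by
    intro s _ h
    have h1 : |s| * (2 * (|σ| + 1)) ≤ ρ := (le_div_iff₀ hden).1 h
    rcases eq_or_lt_of_le (abs_nonneg s) with h0 | h0
    · rw [← h0, mul_zero]; positivity
    · nlinarith
  have low : ∀ s : ℝ, |s| ≤ 1 → |s| ≤ ρ / (2 * (|σ| + 1)) → s ≠ 0 →
      Gh u ζ (X + (T + s : ℝ) * I) < c := by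
    intro s h1 h2 hs
    rw [topd_diff hS s, hG]
    have h3 := topd_ineq hρ h1 (key s h1 h2) hs
    have h4 : Real.exp X * (ρ * (Real.cos s - 1) - σ * (Real.sin s - s)) < 0 :=
      mul_neg_of_pos_of_neg (Real.exp_pos X) h3
    have h5 : 0 ≤ u.re * s ^ 2 / 2 := by positivity
    linarith
  have pos : ∀ s : ℝ, |s| ≤ 1 → |s| ≤ ρ / (2 * (|σ| + 1)) →
      0 < (u * ζ * cexp ((T + s : ℝ) * I)).re := by
    intro s h1 h2
    rw [topd_rho]
    have hk := key s h1 h2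
    have hc : 1 / 2 ≤ Real.cos s := by
      have := Real.one_sub_sq_div_two_le_cos (x := s)
      have h3 : s ^ 2 ≤ 1 := (sq_le_one_iff_abs_le_one s).2 h1
      linarith
    have hs : |Real.sin s| ≤ |s| := Real.abs_sin_le_abs
    have h4 : σ * Real.sin s ≤ |σ| * |s| :=
      calc σ * Real.sin s ≤ |σ * Real.sin s| := le_abs_self _
        _ = |σ| * |Real.sin s| := abs_mul _ _
        _ ≤ _ := mul_le_mul_of_nonneg_left hs hσ0
    have h5 : ρ * (1 / 2) ≤ ρ * Real.cos s := mul_le_mul_of_nonneg_left hc hρ.le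
    linarith
  have gp : ∀ s : ℝ, |s| ≤ 1 → |s| ≤ ρ / (2 * (|σ| + 1)) → s ≠ 0 → Gp u ζ X (T + s) < c := by
    intro s h1 h2 hs
    have h3 := low s h1 h2 hs
    rw [topd_Gh] at h3
    rw [Gp, max_eq_left (pos s h1 h2).le]
    exact h3
  refine ⟨min 1 (ρ / (2 * (|σ| + 1))), lt_min one_pos (by positivity), ?_⟩
  intro δ hδ hδ0
  have hd1 : δ ≤ 1 := hδ0.trans (min_le_left _ _)
  have hd2 : δ ≤ ρ / (2 * (|σ| + 1)) := hδ0.trans (min_le_right _ _)
  have hc : deriv (Ph ζ) (X + T * I) = 0 := by rw [deriv_Ph, hS]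
  refine ⟨⟨hc, hG, ?_, ?_⟩, ?_, ?_⟩
  · have h1 : u * deriv (deriv (Ph ζ)) (X + T * I) * (δ * I) ^ 2 =
        ((-δ ^ 2 : ℝ) : ℂ) * (u + (Real.exp X : ℂ) * (u * ζ * cexp (T * I))) := by
      rw [deriv_deriv_Ph, Complex.exp_add, Complex.ofReal_exp, mul_pow, Complex.I_sq]
      push_cast
      ring
    rw [h1, Complex.re_ofReal_mul, Complex.add_re, Complex.re_ofReal_mul, ← hρd]
    have h2 : 0 < u.re + Real.exp X * ρ := by positivity
    have h3 : 0 < δ ^ 2 := by positivity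
    nlinarith
  · intro s hs hs0
    have h1 : (X + T * I : ℂ) + s * (δ * I) = X + ((T + s * δ : ℝ) : ℂ) * I := by
      push_cast; ring
    rw [h1]
    have h2 : |s * δ| ≤ δ := by
      rw [abs_mul, abs_of_pos hδ]
      nlinarith
    exact low (s * δ) (h2.trans hd1) (h2.trans hd2) (mul_ne_zero hs0 hδ.ne')
  · have h := gp (-δ) (by rw [abs_neg, abs_of_pos hδ]; exact hd1)
      (by rw [abs_neg, abs_of_pos hδ]; exact hd2) (neg_ne_zero.2 hδ.ne')
    rwa [← sub_eq_add_neg] at h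
  · exact gp δ (by rw [abs_of_pos hδ]; exact hd1) (by rw [abs_of_pos hδ]; exact hd2) hδ.ne'

end SokalV
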