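import Pool.Agent.Lib_MP_af4de1_v.TopC
import Pool.Agent.Lib_MP_af4de1_v.TopD

/-!
# The static lemma for a positive top height [SV-STATG]

`c` from `top_exists`.  The set `𝒯 = {(m,T) : m < N, Reach c m T}` has one or two elements (`top_two`).  For each of them
`top_point` gives `X` and the saddle point `S = X + TI`, `top_sad` gives `δ0`.  Choose `δ` smaller than these `δ0`, and smaller than
half the distance of the two `T`'s if they belong to the same lift.  Choose `c' < c`, `c' > 0`, by `top_near` (with this `δ`), larger than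
the finitely many values `Gp X (T ± δ) < c`.  For a lift `m` and `T` at distance `≥ δ` from all its top lines there is `X` with
`Gp u ζ_m X T < c'` (not `Reach c'`).  `R0` large: `Gp 1 R, Gp (-1) (-R) < c'` for `R ≥ R0` (`Gp_tail`) and `R0 > |T| + δ`.
Chain for the lift `m` from `-1-RI` to `1+RI`: `fibre` on `[-R, T1-δ]` (end points `X = -1` and `X1`), pass `S1` with `v = δI`
(`S1 - v = X1 + (T1-δ)I`), `fibre` on `[T1+δ, T2-δ]`, pass `S2`, `fibre` on `[T2+δ, R]` (or fewer).  `Chain` is about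
`fun H => (u * Ph ζ H).re`, which is `Gh u ζ` by definition.
-/

namespace SokalV

open Complex Filter Topology

/-- The chain through a sorted list of top lines. -/
private lemma chain_list {u ζ : ℂ} (hu : 0 ≤ u.re) {c c' δ Tb Xb : ℝ} (hδ : 0 < δ) (X : ℝ → ℝ)
    (hb : Gp u ζ Xb Tb < c') : ∀ (Ts : List ℝ) (Ta Xa : ℝ), Gp u ζ Xa Ta < c' →
    Ts.Pairwise (fun s t => s + δ ≤ t - δ) → (∀ T ∈ Ts, Ta ≤ T - δ ∧ T + δ ≤ Tb) → Ta ≤ Tb →
    (∀ T ∈ Ts, Sad u (Ph ζ) c (X T + T * I) (δ * I) ∧ Gp u ζ (X T) (T - δ) < c' ∧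
      Gp u ζ (X T) (T + δ) < c') →
    (∀ T' ∈ Set.Icc Ta Tb, (∀ T ∈ Ts, δ ≤ |T' - T|) → ∃ X' : ℝ, Gp u ζ X' T' < c') →
    Chain u (Ph ζ) c c' (Xa + Ta * I) (Ts.map fun T => (X T + T * I : ℂ)) (Xb + Tb * I) := by
  intro Ts
  induction Ts with
  | nil =>
    intro Ta Xa ha _ _ hab _ hfar
    refine Chain.nil ?_
    exact fibre hu hab (fun T hT => hfar T hT (by simp)) ha hb
  | cons T Ts ih =>
    intro Ta Xa ha hp hT hab hS hfar
    rw [List.pairwise_cons] at hp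
    have h1 := hT T (List.mem_cons_self ..)
    have h2 := hS T (List.mem_cons_self ..)
    rw [List.map_cons]
    refine Chain.cons (v := δ * I) ?_ h2.1 ?_
    · have h3 : Conn (Gh u ζ) c' (Xa + Ta * I) (X T + ((T - δ : ℝ) : ℂ) * I) := by
        refine fibre hu h1.1 (fun T' hT' => hfar T' ⟨hT'.1, by linarith [hT'.2, h1.2]⟩ ?_) ha h2.2.1
        intro T2 hT2
        rcases List.mem_cons.1 hT2 with h4 | h4
        · rw [h4, abs_sub_comm]
          exact le_trans (by linarith [hT'.2]) (le_abs_self _)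
        · have h5 := hp.1 T2 h4
          rw [abs_sub_comm]
          exact le_trans (by linarith [hT'.2]) (le_abs_self _)
      have h6 : ((X T : ℂ) + ((T - δ : ℝ) : ℂ) * I) = (X T + T * I) - δ * I := by
        push_cast
        ring
      rw [h6] at h3
      exact h3
    · have h3 := ih (T + δ) (X T) h2.2.2 hp.2
        (fun T2 hT2 => ⟨hp.1 T2 hT2, (hT T2 (List.mem_cons_of_mem _ hT2)).2⟩) h1.2
        (fun T2 hT2 => hS T2 (List.mem_cons_of_mem _ hT2)) (by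
          intro T' hT' hd
          refine hfar T' ⟨by linarith [hT'.1, h1.1], hT'.2⟩ ?_
          intro T2 hT2
          rcases List.mem_cons.1 hT2 with h4 | h4
          · rw [h4]
            exact le_trans (by linarith [hT'.1]) (le_abs_self _)
          · exact hd T2 h4)
      have h6 : ((X T : ℂ) + ((T + δ : ℝ) : ℂ) * I) = (X T + T * I) + δ * I := by
        push_cast
        ring
      rw [h6] at h3
      exact h3

/-- The top lines form a finite set with one or two elements. -/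
private lemma top_finset {N : ℕ} (hN : 0 < N) {u ζ : ℂ} (hu : ‖u‖ = 1) (hre : 0 ≤ u.re)
    (him : 0 ≤ u.im) (hζ : ζ ≠ 0) {c : ℝ} (hc : 0 < c) (hmax : IsMax N u ζ c)
    (hex : ∃ m < N, ∃ T : ℝ, Reach N u ζ c m T) :
    ∃ P : Finset (ℕ × ℝ), (∀ p, p ∈ P ↔ p.1 < N ∧ Reach N u ζ c p.1 p.2) ∧ 1 ≤ P.card ∧
      P.card ≤ 2 := by
  classical
  obtain ⟨m1, hm1, T1, h1⟩ := hex
  by_cases h : ∃ m2 < N, ∃ T2 : ℝ, Reach N u ζ c m2 T2 ∧ (m1, T1) ≠ (m2, T2)
  · obtain ⟨m2, hm2, T2, h2, h12⟩ := h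
    refine ⟨{(m1, T1), (m2, T2)}, ?_, ?_, ?_⟩
    · rintro ⟨m3, T3⟩
      rw [Finset.mem_insert, Finset.mem_singleton]
      constructor
      · rintro (h3 | h3)
        · rw [h3]
          exact ⟨hm1, h1⟩
        · rw [h3]
          exact ⟨hm2, h2⟩
      · rintro ⟨hm3, h3⟩
        by_contra hcon
        rw [not_or] at hcon
        exact top_two hN hu hre him hζ hc hmax hm1 hm2 hm3 h1 h2 h3 h12 (Ne.symm hcon.1)
          (Ne.symm hcon.2)
    · rw [Finset.card_pair h12]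
      norm_num
    · rw [Finset.card_pair h12]
  · refine ⟨{(m1, T1)}, ?_, by simp, by simp⟩
    rintro ⟨m3, T3⟩
    rw [Finset.mem_singleton]
    constructor
    · intro h3
      rw [h3]
      exact ⟨hm1, h1⟩
    · rintro ⟨hm3, h3⟩
      by_contra hcon
      exact h ⟨m3, hm3, T3, h3, Ne.symm hcon⟩

/-- The saddle points and the choice of `δ`. -/
private lemma exists_delta {N : ℕ} {u ζ : ℂ} (hu : ‖u‖ = 1) (hre : 0 ≤ u.re) (him : 0 ≤ u.im)
    {c : ℝ} (hc : 0 < c) (hmax : IsMax N u ζ c) {P : Finset (ℕ × ℝ)}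
    (hP : ∀ p, p ∈ P ↔ p.1 < N ∧ Reach N u ζ c p.1 p.2) :
    ∃ (X : ℕ × ℝ → ℝ) (δ : ℝ), 0 < δ ∧
      (∀ p ∈ P, Sad u (Ph (lift N ζ p.1)) c (X p + p.2 * I) (δ * I) ∧
      Gp u (lift N ζ p.1) (X p) (p.2 - δ) < c ∧ Gp u (lift N ζ p.1) (X p) (p.2 + δ) < c) ∧
      ∀ p ∈ P, ∀ q ∈ P, p.2 < q.2 → p.2 + δ ≤ q.2 - δ := by
  have hpt : ∀ p : ℕ × ℝ, ∃ X : ℝ, p ∈ P → ∃ δ0 : ℝ, 0 < δ0 ∧ ∀ δ : ℝ, 0 < δ → δ ≤ δ0 →
      Sad u (Ph (lift N ζ p.1)) c (X + p.2 * I) (δ * I) ∧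
      Gp u (lift N ζ p.1) X (p.2 - δ) < c ∧ Gp u (lift N ζ p.1) X (p.2 + δ) < c := by
    intro p
    by_cases hp : p ∈ P
    · obtain ⟨hp1, hp2⟩ := (hP p).1 hp
      obtain ⟨X, hX1, hX2, hX3, hX4⟩ := top_point hu hre him hc hp2
        (fun T' c1 hc1 => hmax p.1 hp1 T' c1 hc1)
      exact ⟨X, fun _ => top_sad hre hX2 hX3 hX4⟩
    · exact ⟨0, fun h => absurd h hp⟩
  choose X hX using hpt
  have h1 : ∀ᶠ δ : ℝ in 𝓝[>] (0 : ℝ), ∀ p ∈ P,
      Sad u (Ph (lift N ζ p.1)) c (X p + p.2 * I) ((δ : ℂ) * I) ∧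
      Gp u (lift N ζ p.1) (X p) (p.2 - δ) < c ∧ Gp u (lift N ζ p.1) (X p) (p.2 + δ) < c := by
    rw [Filter.eventually_all_finset]
    intro p hp
    obtain ⟨δ0, hδ0, h2⟩ := hX p hp
    filter_upwards [Ioc_mem_nhdsGT hδ0] with δ hδ
    exact h2 δ hδ.1 hδ.2
  have h2 : ∀ᶠ δ : ℝ in 𝓝[>] (0 : ℝ), ∀ p ∈ P, ∀ q ∈ P, p.2 < q.2 → p.2 + δ ≤ q.2 - δ := by
    rw [Filter.eventually_all_finset]
    intro p hp
    rw [Filter.eventually_all_finset]
    intro q hq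
    by_cases hpq : p.2 < q.2
    · filter_upwards [Ioc_mem_nhdsGT (show (0 : ℝ) < (q.2 - p.2) / 2 by linarith)] with δ hδ _
      linarith [hδ.2]
    · exact Filter.Eventually.of_forall fun δ h => absurd h hpq
  have h3 : ∀ᶠ δ : ℝ in 𝓝[>] (0 : ℝ), 0 < δ := self_mem_nhdsWithin
  obtain ⟨δ, hδ1, hδ2, hδ3⟩ := (h1.and (h2.and h3)).exists
  exact ⟨X, δ, hδ3, hδ1, hδ2⟩

/-- The choice of `c'`. -/
private lemma exists_c' {N : ℕ} {u ζ : ℂ} {c c1 δ : ℝ} (hc1 : c1 < c) {P : Finset (ℕ × ℝ)}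
    {X : ℕ × ℝ → ℝ} (h : ∀ p ∈ P, Gp u (lift N ζ p.1) (X p) (p.2 - δ) < c ∧
      Gp u (lift N ζ p.1) (X p) (p.2 + δ) < c) :
    ∃ c' : ℝ, c' < c ∧ c1 < c' ∧ ∀ p ∈ P,
      Gp u (lift N ζ p.1) (X p) (p.2 - δ) < c' ∧ Gp u (lift N ζ p.1) (X p) (p.2 + δ) < c' := by
  have h1 : ∀ᶠ c' : ℝ in 𝓝[<] c, ∀ p ∈ P,
      Gp u (lift N ζ p.1) (X p) (p.2 - δ) < c' ∧ Gp u (lift N ζ p.1) (X p) (p.2 + δ) < c' := by
    rw [Filter.eventually_all_finset]
    intro p hp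
    obtain ⟨h2, h3⟩ := h p hp
    filter_upwards [Ioo_mem_nhdsLT h2, Ioo_mem_nhdsLT h3] with c' h4 h5
    exact ⟨h4.1, h5.1⟩
  have h2 : ∀ᶠ c' : ℝ in 𝓝[<] c, c' ∈ Set.Ioo c1 c := Ioo_mem_nhdsLT hc1
  obtain ⟨c', h3, h4⟩ := (h1.and h2).exists
  exact ⟨c', h4.2, h4.1, h3⟩

/-- The contour for one lift. -/
private lemma good_lift {N m : ℕ} {u ζ : ℂ} (hu : ‖u‖ = 1) (hre : 0 ≤ u.re) (him : 0 ≤ u.im)
    {c c' δ : ℝ} (hc' : 0 < c') (hc'c : c' < c) (hδ : 0 < δ) (F : Finset ℝ) (X : ℝ → ℝ)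
    (hS : ∀ T ∈ F, Sad u (Ph (lift N ζ m)) c (X T + T * I) (δ * I) ∧
      Gp u (lift N ζ m) (X T) (T - δ) < c' ∧ Gp u (lift N ζ m) (X T) (T + δ) < c')
    (hsep : ∀ s ∈ F, ∀ t ∈ F, s < t → s + δ ≤ t - δ)
    (hfar : ∀ T' : ℝ, (∀ T ∈ F, δ ≤ |T' - T|) → ∃ X' : ℝ, Gp u (lift N ζ m) X' T' < c') :
    Good u (lift N ζ m) c ((F.sort).map fun T => (X T + T * I : ℂ)) := by
  refine ⟨c', hc'c, 2 + 6 * ‖ζ‖ + ∑ T ∈ F, |T| + δ, ?_⟩
  intro R hR
  have hζ0 : 0 ≤ ‖ζ‖ := norm_nonneg _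
  have hsum0 : 0 ≤ ∑ T ∈ F, |T| := Finset.sum_nonneg fun _ _ => abs_nonneg _
  have hR1 : 1 ≤ R := by linarith
  have htail := Gp_tail (ζ := lift N ζ m) hu hre him hR1
  rw [norm_lift] at htail
  have ha : Gp u (lift N ζ m) (-1) (-R) < c' := by linarith [htail.2]
  have hb : Gp u (lift N ζ m) 1 R < c' := by linarith [htail.1]
  have hTle : ∀ T ∈ F.sort, |T| + δ ≤ R := by
    intro T hT
    have h2 : |T| ≤ ∑ T ∈ F, |T| :=
      Finset.single_le_sum (f := fun T : ℝ => |T|) (fun _ _ => abs_nonneg _)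
        ((Finset.mem_sort _).1 hT)
    linarith
  have hpw : (F.sort).Pairwise (fun s t => s + δ ≤ t - δ) := by
    refine (Finset.sortedLT_sort F).pairwise.imp_of_mem ?_
    intro s t hs ht hst
    exact hsep _ ((Finset.mem_sort _).1 hs) _ ((Finset.mem_sort _).1 ht) hst
  have hT2 : ∀ T ∈ F.sort, -R ≤ T - δ ∧ T + δ ≤ R := by
    intro T hT
    have h1 := hTle T hT
    have h2 := abs_le.1 (le_refl |T|)
    exact ⟨by linarith [h2.1], by linarith [h2.2]⟩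
  have key := chain_list (u := u) (ζ := lift N ζ m) (c := c) hre hδ X hb
    (F.sort) (-R) (-1) ha hpw hT2 (by linarith)
    (fun T hT => hS T ((Finset.mem_sort _).1 hT))
    (fun T' _ hd => hfar T' (fun T hT => hd T ((Finset.mem_sort _).2 hT)))
  have e1 : (((-1 : ℝ) : ℂ) + ((-R : ℝ) : ℂ) * I) = -1 - R * I := by
    push_cast
    ring
  have e2 : (((1 : ℝ) : ℂ) + (R : ℂ) * I) = 1 + R * I := by
    push_cast
    ring
  rw [e1, e2] at key
  exact key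

/-- The fibres of a finite set of pairs. -/
private lemma fibres {N : ℕ} {P : Finset (ℕ × ℝ)} (hP : ∀ p ∈ P, p.1 < N) :
    ∃ F : ℕ → Finset ℝ, (∀ m T, T ∈ F m ↔ (m, T) ∈ P) ∧
      ∑ m ∈ Finset.range N, (F m).card = P.card := by
  classical
  refine ⟨fun m => (P.filter (fun p => p.1 = m)).image Prod.snd, ?_, ?_⟩
  · intro m T
    simp only [Finset.mem_image, Finset.mem_filter]
    constructor
    · rintro ⟨⟨m', T'⟩, ⟨h1, h2⟩, h3⟩
      simp only at h2 h3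
      rw [← h2, ← h3]
      exact h1
    · intro h1
      exact ⟨(m, T), ⟨h1, rfl⟩, rfl⟩
  · rw [Finset.card_eq_sum_card_fiberwise (f := Prod.fst) (t := Finset.range N)]
    · refine Finset.sum_congr rfl fun m _ => ?_
      refine Finset.card_image_of_injOn ?_
      intro p hp q hq hpq
      have h1 := (Finset.mem_filter.1 (Finset.mem_coe.1 hp)).2
      have h2 := (Finset.mem_filter.1 (Finset.mem_coe.1 hq)).2
      exact Prod.ext (h1.trans h2.symm) hpq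
    · intro p hp
      exact Finset.mem_coe.2 (Finset.mem_range.2 (hP p (Finset.mem_coe.1 hp)))

theorem static_G {N : ℕ} (hN : 0 < N) {u ζ : ℂ} (hu : ‖u‖ = 1) (hre : 0 ≤ u.re) (him : 0 ≤ u.im)
    (hζ : ζ ≠ 0) (h : ∃ m < N, TopPos u (lift N ζ m)) :
    ∃ (c : ℝ) (L : ℕ → List ℂ), (∀ m < N, Good u (lift N ζ m) c (L m)) ∧
      (∀ m < N, (L m).Nodup) ∧ 1 ≤ ∑ m ∈ Finset.range N, (L m).length ∧
      ∑ m ∈ Finset.range N, (L m).length ≤ 2 := by
  obtain ⟨c, hc, hmax, hex⟩ := top_exists hu hre him h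
  obtain ⟨P, hP, hP1, hP2⟩ := top_finset hN hu hre him hζ hc hmax hex
  obtain ⟨X, δ, hδ, hδ1, hδ2⟩ := exists_delta hu hre him hc hmax hP
  obtain ⟨c1, hc1, hc1c, hnear⟩ := top_near (N := N) (ζ := ζ) hu hre him hc hδ
  obtain ⟨c', hc'c, hc1c', hP'⟩ := exists_c' hc1c (fun p hp => (hδ1 p hp).2)
  obtain ⟨F, hF, hFc⟩ := fibres (N := N) (P := P) (fun p hp => ((hP p).1 hp).1)
  have hlen : ∑ m ∈ Finset.range N,
      (((F m).sort).map fun T => (X (m, T) + T * I : ℂ)).length = P.card := by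
    rw [← hFc]
    refine Finset.sum_congr rfl fun m _ => ?_
    rw [List.length_map, Finset.length_sort]
  refine ⟨c, fun m => ((F m).sort).map fun T => (X (m, T) + T * I : ℂ), ?_, ?_,
    by rw [hlen]; exact hP1, by rw [hlen]; exact hP2⟩
  · intro m hm
    refine good_lift hu hre him (hc1.trans hc1c') hc'c hδ (F m) (fun T => X (m, T)) ?_ ?_ ?_
    · intro T hT
      have h1 : (m, T) ∈ P := (hF m T).1 hT
      exact ⟨(hδ1 (m, T) h1).1, hP' (m, T) h1⟩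
    · intro s hs t ht hst
      exact hδ2 (m, s) ((hF m s).1 hs) (m, t) ((hF m t).1 ht) hst
    · intro T' hd
      by_contra hcon
      push Not at hcon
      have h1 : Reach N u ζ c1 m T' := fun X' => le_trans hc1c'.le (hcon X')
      obtain ⟨T2, h2, h3⟩ := hnear m hm T' h1
      have h4 : T2 ∈ F m := (hF m T2).2 ((hP (m, T2)).2 ⟨hm, h2⟩)
      exact absurd (hd T2 h4) (not_le.2 h3)
  · intro m _
    refine (Finset.sort_nodup _ _).map ?_
    intro T T' hTT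
    have := congrArg im hTT
    simpa using this

end SokalV
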