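import Pool.Agent.Lib_MP_af4de1_v.TipDefs

/-!
# `u = I`: the contour to the tip and the contour at the other lift [SV-TIPI]

`tipConn_I`: `g(X,T) = Gh I (-e⁻¹) (X+TI) = -XT + e^{X-1} sin T` (`Gh_eq`, `Fibre.lean`).  `(I : ℂ).arg = π/2`, `ep I = cexp(πI/2) = I`, `em I = cexp(-(5π/6)I) = -√3/2 - I/2`.
UPPER: on `X = 1`: `g = -T + sin T`, nonincreasing in `T`; the vertical segment from `1+ρI` to `1+RI` has `g ≤ -ρ + sin ρ < 0`.
LOWER: start `X0 = 1-a`, `T = -b`, `a = ρ√3/2`, `b = ρ/2`.  For `T < 0`, `g = X|T| - e^{X-1} sin|T|`, for `|T| < π` increasing in `X ≤ 1`: move horizontally from `X0` to `-1`, then on `X = -1`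
`g = -|T| - e^{-2} sin|T|` is decreasing in `|T|`: vertically down to `-1-RI`.  So all values are `≤ g(X0,-b) = (1-a)b - e^{-a}sin b < 0` for small `ρ`
(`e^{-a} ≥ 1-a+a²/2-a³/6`, `sin b ≥ b-b³/6`, `a = √3 b`: `≤ b(b²/6 - a²/2 + a³/6 + …) < 0`), take half of the larger of the two levels as `c'`
(`c' < 0 = -u.re/2`).

`static_diag`: `g(X,T) = Gh I (e⁻¹) (X+TI) = -XT - e^{X-1} sin T`.  Real `S` with `S + e^{S-1} = 0`, `-1 < S < 0` (intermediate values).  `c = 0`.  `Sad I (Ph e⁻¹) 0 S v`, `v = δe^{πI/4}`,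
`δ` small: `deriv_Ph`, `deriv_deriv_Ph` (`TopB.lean`): `I(1+e^{S-1})v² = -(1-S)δ²`; height `g(S,0) = 0`; with `x = s δ/√2`, `W = -S`: `g(S+x,x) = W(x - e^x sin x) - x²`, and
`x - e^x sin x ≤ x²/2` for `|x| ≤ 1/2` (for `x ≥ 0` it is `≤ 0`, for `x = -y`: `e^{-y} sin y ≤ y`): `< 0` for `x ≠ 0`.
UPPER: from `S+v` (`X = S+d`, `T = d = δ/√2`) horizontally to the right to `X = 1` (`g` decreases in `X` for `0 < T < π`), then on `X = 1` `g = -T - sin T` nonincreasing: up to `1+RI`.
LOWER: for `T = -|T|`, `g = X|T| + e^{X-1}sin|T|`, increasing in `X` for `|T| < π`: from `S-v` horizontally to the left to `X = -1` (`S - d > -1`), then on `X = -1` `g = -|T| + e^{-2}sin|T|`, decreasing in `|T|`.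
All values `≤ max(g(S+v), g(S-v)) < 0`: `c'` = half of it.
-/

namespace SokalV

open Complex Filter Topology

private theorem ti_exp (X T : ℝ) (w : ℝ) :
    Gh I ((w : ℂ) * cexp (-1)) (X + T * I) = -(X * T) - w * (Real.exp (X - 1) * Real.sin T) := by
  rw [Gh_eq]
  have h1 : (I * ((w : ℂ) * cexp (-1)) * cexp (T * I)).re = -(w * (Real.exp (-1) * Real.sin T)) := by
    have h2 : cexp (-1) = ((Real.exp (-1) : ℝ) : ℂ) := by push_cast; rfl
    have h3 : I * ((w : ℂ) * cexp (-1)) * cexp (T * I) =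
        ((w * Real.exp (-1) : ℝ) : ℂ) * (I * cexp (T * I)) := by
      rw [h2]; push_cast; ring
    rw [h3, re_ofReal_mul, I_mul_re, exp_ofReal_mul_I_im]
    ring
  rw [h1, Real.exp_sub, Real.exp_neg, I_re, I_im]
  have := Real.exp_pos 1
  field_simp
  ring

private theorem g_minus (X T : ℝ) : Gh I (-cexp (-1)) (X + T * I) =
    -(X * T) + Real.exp (X - 1) * Real.sin T := by
  have h := ti_exp X T (-1)
  have e : ((-1 : ℝ) : ℂ) * cexp (-1) = -cexp (-1) := by push_cast; ring
  rw [e] at h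
  rw [h]; ring

private theorem g_plus (X T : ℝ) : Gh I (cexp (-1)) (X + T * I) =
    -(X * T) - Real.exp (X - 1) * Real.sin T := by
  have h := ti_exp X T 1
  have e : ((1 : ℝ) : ℂ) * cexp (-1) = cexp (-1) := by push_cast; ring
  rw [e] at h
  rw [h]; ring

private theorem conn_h {g : ℂ → ℝ} {c X X' T : ℝ} (hX : X ≤ X')
    (h : ∀ x : ℝ, X ≤ x → x ≤ X' → g (x + T * I) < c) :
    Conn g c (X + T * I) (X' + T * I) := by
  apply Conn.segment
  intro s h0 h1
  have e : (X + T * I : ℂ) + s * ((X' + T * I) - (X + T * I)) =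
      ((X + s * (X' - X) : ℝ) : ℂ) + T * I := by
    push_cast; ring
  rw [e]
  apply h
  · nlinarith only [hX, h0]
  · nlinarith only [hX, h1]

private theorem conn_v {g : ℂ → ℝ} {c X T T' : ℝ} (hT : T ≤ T')
    (h : ∀ y : ℝ, T ≤ y → y ≤ T' → g (X + y * I) < c) :
    Conn g c (X + T * I) (X + T' * I) := by
  apply Conn.segment
  intro s h0 h1
  have e : (X + T * I : ℂ) + s * ((X + T' * I) - (X + T * I)) =
      (X : ℂ) + ((T + s * (T' - T) : ℝ) : ℂ) * I := by
    push_cast; ring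
  rw [e]
  apply h
  · nlinarith only [hT, h0]
  · nlinarith only [hT, h1]

private theorem sin_diff {x y : ℝ} (h : x ≤ y) : |Real.sin y - Real.sin x| ≤ y - x := by
  have := Real.abs_sin_sub_sin_le y x
  rwa [abs_of_nonneg (by linarith : 0 ≤ y - x)] at this

private theorem ep_I : ep I = I := by
  unfold ep
  rw [arg_I]
  have : ((2 * Real.pi / 3 - ((Real.pi / 2 : ℝ) : ℂ) / 3) * I : ℂ) = (Real.pi / 2 : ℂ) * I := by
    push_cast; ring
  rw [this, exp_pi_div_two_mul_I]

private theorem em_I : em I = ((-(Real.sqrt 3 / 2) : ℝ) : ℂ) + ((-(1 / 2) : ℝ) : ℂ) * I := by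
  unfold em
  rw [arg_I]
  have : ((-(2 * Real.pi / 3) - ((Real.pi / 2 : ℝ) : ℂ) / 3) * I : ℂ) =
      ((-(Real.pi - Real.pi / 6) : ℝ) : ℂ) * I := by
    push_cast; ring
  rw [this, exp_mul_I, ← ofReal_cos, ← ofReal_sin, Real.cos_neg, Real.sin_neg, Real.cos_pi_sub,
    Real.sin_pi_sub, Real.cos_pi_div_six, Real.sin_pi_div_six]

/-- The value at the start of the lower path is negative. -/
private theorem low_neg {a b : ℝ} (hb : 0 < b) (hb1 : b ≤ 1 / 4) (hab : a ^ 2 = 3 * b ^ 2)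
    (ha : 0 < a) : (1 - a) * b - Real.exp (-a) * Real.sin b < 0 := by
  have ha1 : a ≤ 0.44 := by nlinarith
  have h1 := Real.sin_gt_sub_cube hb
  have h2 := Real.exp_bound (x := -a) (by rw [abs_neg, abs_of_pos ha]; linarith) (n := 3)
    (by norm_num)
  simp only [Finset.sum_range_succ, Finset.sum_range_zero, Nat.factorial, abs_neg,
    abs_of_pos ha] at h2
  norm_num at h2
  have h3 := (abs_le.1 h2).1
  have h4 : 1 - a + a ^ 2 / 2 - 2 / 9 * a ^ 3 ≤ Real.exp (-a) := by linarith only [h3]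
  have h5 : 0 < b - b ^ 3 / 6 := by nlinarith only [hb, hb1, hab]
  have h6 : a ^ 3 = 3 * b ^ 2 * a := by rw [pow_succ, hab]
  have h7 : (1 - a + a ^ 2 / 2 - 2 / 9 * a ^ 3) * (b - b ^ 3 / 6) ≤
      Real.exp (-a) * Real.sin b := by
    calc _ ≤ Real.exp (-a) * (b - b ^ 3 / 6) := mul_le_mul_of_nonneg_right h4 h5.le
      _ ≤ _ := mul_le_mul_of_nonneg_left h1.le (Real.exp_pos _).le
  refine lt_of_le_of_lt (sub_le_sub_left h7 _) ?_
  rw [h6, hab]
  have h8 : (1 - a) * b - (1 - a + 3 * b ^ 2 / 2 - 2 / 9 * (3 * b ^ 2 * a)) * (b - b ^ 3 / 6) =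
      -(b ^ 3 * (3 / 2 - 2 / 3 * a - 1 / 6 * (1 - a) - b ^ 2 / 4 + b ^ 2 * a / 9)) := by ring
  rw [h8]
  have h9 : 0 < b ^ 3 := pow_pos hb 3
  have h10 : 0 < 3 / 2 - 2 / 3 * a - 1 / 6 * (1 - a) - b ^ 2 / 4 + b ^ 2 * a / 9 := by
    nlinarith only [hb, hb1, hab, ha]
  have := mul_pos h9 h10
  linarith

theorem tipConn_I : TipConn I := by
  refine ⟨1 / 2, by norm_num, fun ρ hρ hρ1 => ?_⟩
  have hs3 : √(3 : ℝ) ^ 2 = 3 := Real.sq_sqrt (by norm_num)
  have hs0 : 0 < √(3 : ℝ) := Real.sqrt_pos.2 (by norm_num)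
  have hs2 : √(3 : ℝ) ≤ 1.74 := by nlinarith only [hs3]
  set a : ℝ := ρ * (√3 / 2) with ha
  set b : ℝ := ρ * (1 / 2) with hb
  have ha0 : 0 < a := by positivity
  have hb0 : 0 < b := by positivity
  have hb1 : b ≤ 1 / 4 := by rw [hb]; linarith
  have ha1 : a ≤ 1 / 2 := by rw [ha]; nlinarith only [hρ, hρ1, hs2]
  have hab : a ^ 2 = 3 * b ^ 2 := by rw [ha, hb]; ring_nf; rw [hs3]; ring
  have m1 : -ρ + Real.sin ρ < 0 := by linarith [Real.sin_lt hρ]
  have m2 := low_neg hb0 hb1 hab ha0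
  have hsb : 0 < Real.sin b := Real.sin_pos_of_pos_of_lt_pi hb0
    (by linarith [Real.pi_gt_three])
  have hsb' : Real.sin b < b := Real.sin_lt hb0
  have hEp : (1 : ℂ) + ρ * ep I = ((1 : ℝ) : ℂ) + (ρ : ℂ) * I := by rw [ep_I]; push_cast; ring
  have hEm : (1 : ℂ) + ρ * em I = ((1 - a : ℝ) : ℂ) + ((-b : ℝ) : ℂ) * I := by
    rw [em_I, ha, hb]; push_cast; ring
  set c' : ℝ := max (-ρ + Real.sin ρ) ((1 - a) * b - Real.exp (-a) * Real.sin b) / 2 with hc'
  have hmax : max (-ρ + Real.sin ρ) ((1 - a) * b - Real.exp (-a) * Real.sin b) < 0 := max_lt m1 m2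
  have hc1 : -ρ + Real.sin ρ < c' := by
    have := le_max_left (-ρ + Real.sin ρ) ((1 - a) * b - Real.exp (-a) * Real.sin b)
    rw [hc']; linarith
  have hc2 : (1 - a) * b - Real.exp (-a) * Real.sin b < c' := by
    have := le_max_right (-ρ + Real.sin ρ) ((1 - a) * b - Real.exp (-a) * Real.sin b)
    rw [hc']; linarith
  have hc0 : c' < -I.re / 2 := by
    rw [I_re, hc']; linarith
  refine ⟨c', hc0, 1, fun R hR => ⟨?_, ?_⟩⟩
  · -- the values on the horizontal line `T = -b`
    have hor : ∀ x : ℝ, x ≤ 1 - a →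
        x * b - Real.exp (x - 1) * Real.sin b ≤ (1 - a) * b - Real.exp (-a) * Real.sin b := by
      intro x hx
      have e1 : Real.exp (x - 1) = Real.exp (x - (1 - a)) * Real.exp (-a) := by
        rw [← Real.exp_add]; congr 1; ring
      have e2 := Real.add_one_le_exp (x - (1 - a))
      have e3 : Real.exp (-a) ≤ 1 := Real.exp_le_one_iff.2 (by linarith)
      have e4 := Real.exp_pos (-a)
      have e5 : Real.exp (-a) * Real.sin b ≤ b := by nlinarith only [hsb, hsb', e3]
      rw [e1]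
      have e6 : (1 - (1 - a - x)) * (Real.exp (-a) * Real.sin b) ≤
          Real.exp (x - (1 - a)) * (Real.exp (-a) * Real.sin b) := by
        apply mul_le_mul_of_nonneg_right _ (by positivity)
        linarith
      have e7 : (1 - a - x) * (Real.exp (-a) * Real.sin b) ≤ (1 - a - x) * b :=
        mul_le_mul_of_nonneg_left e5 (by linarith)
      linarith only [e6, e7]
    rw [hEm]
    have hA : (-1 - R * I : ℂ) = ((-1 : ℝ) : ℂ) + ((-R : ℝ) : ℂ) * I := by push_cast; ring
    rw [hA]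
    refine Conn.trans (B := ((-1 : ℝ) : ℂ) + ((-b : ℝ) : ℂ) * I) (conn_v (by linarith) ?_)
      (conn_h (by linarith) ?_)
    · intro y hy1 hy2
      rw [g_minus]
      have h1 := hor (-1) (by linarith)
      have h2 := sin_diff hy2
      rw [Real.sin_neg] at h2
      have h3 := abs_le.1 h2
      have h4 : Real.exp (-1 - 1) ≤ 1 := Real.exp_le_one_iff.2 (by norm_num)
      have h5 := Real.exp_pos (-1 - 1)
      have h6 : Real.exp (-1 - 1) * (Real.sin y + Real.sin b) ≤ 1 * (-b - y) := by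
        have h7 : Real.sin y + Real.sin b ≤ -b - y := by linarith [h3.1]
        calc _ ≤ Real.exp (-1 - 1) * (-b - y) := mul_le_mul_of_nonneg_left h7 h5.le
          _ ≤ _ := mul_le_mul_of_nonneg_right h4 (by linarith)
      linarith only [hc2, h1, h6]
    · intro x _ hx2
      rw [g_minus, Real.sin_neg]
      have h1 := hor x hx2
      linarith only [hc2, h1]
  · rw [hEp]
    have hB : (1 + R * I : ℂ) = ((1 : ℝ) : ℂ) + ((R : ℝ) : ℂ) * I := by push_cast; ring
    rw [hB]
    refine conn_v (by linarith) ?_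
    intro y hy1 _
    rw [g_minus, sub_self, Real.exp_zero]
    have h3 := abs_le.1 (sin_diff hy1)
    linarith [h3.2]

theorem static_diag : ∃ S : ℝ, S < 0 ∧ Good I (cexp (-1)) 0 [(S : ℂ)] := by
  -- the saddle point
  obtain ⟨S, ⟨hS1, hS2⟩, hS0⟩ : ∃ S ∈ Set.Icc (-1 : ℝ) 0, S + Real.exp (S - 1) = 0 := by
    have hc : ContinuousOn (fun x : ℝ => x + Real.exp (x - 1)) (Set.Icc (-1) 0) := by fun_prop
    have := intermediate_value_Icc (by norm_num : (-1 : ℝ) ≤ 0) hc
    have h0 : (0 : ℝ) ∈ Set.Icc (-1 + Real.exp (-1 - 1)) (0 + Real.exp (0 - 1)) := by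
      constructor
      · have : Real.exp (-1 - 1) ≤ 1 := Real.exp_le_one_iff.2 (by norm_num)
        linarith
      · have := Real.exp_pos (0 - 1); linarith
    obtain ⟨S, hS, hS'⟩ := this h0
    exact ⟨S, hS, hS'⟩
  have hE0 := Real.exp_pos (S - 1)
  have hSneg : S < 0 := by linarith
  have hS1' : -1 < S := by
    rcases hS1.lt_or_eq with h | h
    · exact h
    · exfalso
      rw [← h] at hS0
      have : Real.exp (-1 - 1) < 1 := Real.exp_lt_one_iff.2 (by norm_num)
      linarith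
  set d : ℝ := min (1 / 2) (S + 1) with hd
  have hd0 : 0 < d := lt_min (by norm_num) (by linarith)
  have hd1 : d ≤ 1 / 2 := min_le_left _ _
  have hd2 : d ≤ S + 1 := min_le_right _ _
  have hsd : 0 < Real.sin d := Real.sin_pos_of_pos_of_lt_pi hd0 (by linarith [Real.pi_gt_three])
  have hsd' : Real.sin d < d := Real.sin_lt hd0
  -- the values on the diagonal
  have key : ∀ x : ℝ, |x| ≤ d → x ≠ 0 →
      -((S + x) * x) - Real.exp (S + x - 1) * Real.sin x < 0 := by
    intro x hx hx0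
    have e1 : Real.exp (S + x - 1) = Real.exp x * (-S) := by
      have : -S = Real.exp (S - 1) := by linarith
      rw [this, ← Real.exp_add]; congr 1; ring
    rw [e1]
    have h1 : x - Real.exp x * Real.sin x ≤ 0 := by
      rcases lt_or_gt_of_ne hx0 with h | h
      · have h2 : Real.exp x ≤ 1 := Real.exp_le_one_iff.2 h.le
        have h3 : Real.sin (-x) < -x := Real.sin_lt (by linarith)
        have h4 : 0 < Real.sin (-x) := Real.sin_pos_of_pos_of_lt_pi (by linarith) (by
          have := (abs_le.1 hx).1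
          linarith [Real.pi_gt_three])
        rw [Real.sin_neg] at h3 h4
        nlinarith only [h2, h3, h4]
      · have h2 := Real.add_one_le_exp x
        have h3 := Real.sin_gt_sub_cube h
        have h4 : x ≤ 1 / 2 := (le_abs_self x).trans (hx.trans hd1)
        have h5 : 0 < x - x ^ 3 / 6 := by nlinarith only [h, h4, pow_pos h 2]
        have h6 : (x + 1) * (x - x ^ 3 / 6) ≤ Real.exp x * Real.sin x := by
          calc _ ≤ Real.exp x * (x - x ^ 3 / 6) := mul_le_mul_of_nonneg_right h2 h5.le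
            _ ≤ _ := mul_le_mul_of_nonneg_left h3.le (Real.exp_pos _).le
        have h7 : x ≤ (x + 1) * (x - x ^ 3 / 6) := by
          have h8 : (x + 1) * (x - x ^ 3 / 6) - x = x ^ 2 * (1 - x / 6 - x ^ 2 / 6) := by ring
          have h9 : 0 ≤ x ^ 2 * (1 - x / 6 - x ^ 2 / 6) := by
            apply mul_nonneg (by positivity); nlinarith only [h, h4]
          linarith
        linarith
    have h2 : 0 < x ^ 2 := by positivity
    have h3 : (-S) * (x - Real.exp x * Real.sin x) ≤ 0 :=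
      mul_nonpos_of_nonneg_of_nonpos (by linarith) h1
    linarith only [h2, h3]
  have kp := key d (by rw [abs_of_pos hd0]) hd0.ne'
  have km := key (-d) (by rw [abs_neg, abs_of_pos hd0]) (by linarith)
  rw [Real.sin_neg] at km
  set mp : ℝ := -((S + d) * d) - Real.exp (S + d - 1) * Real.sin d with hmp
  set mm : ℝ := -((S + -d) * -d) - Real.exp (S + -d - 1) * -Real.sin d with hmm
  set c' : ℝ := max mp mm / 2 with hc'
  have hmax : max mp mm < 0 := max_lt kp km
  have hc1 : mp < c' := by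
    have := le_max_left mp mm
    rw [hc']; linarith
  have hc2 : mm < c' := by
    have := le_max_right mp mm
    rw [hc']; linarith
  have hc0 : c' < 0 := by rw [hc']; linarith
  have hE1 : cexp (-1) * cexp (S : ℂ) = ((-S : ℝ) : ℂ) := by
    rw [← exp_add]
    have : -1 + (S : ℂ) = ((S - 1 : ℝ) : ℂ) := by push_cast; ring
    rw [this, ← ofReal_exp]
    congr 1
    linarith
  refine ⟨S, hSneg, c', hc0, 1, fun R hR => ?_⟩
  have hSm : (S : ℂ) - (d + d * I) = ((S - d : ℝ) : ℂ) + ((-d : ℝ) : ℂ) * I := by push_cast; ring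
  have hSp : (S : ℂ) + (d + d * I) = ((S + d : ℝ) : ℂ) + ((d : ℝ) : ℂ) * I := by push_cast; ring
  refine Chain.cons (v := (d + d * I : ℂ)) ?_ ⟨?_, ?_, ?_, ?_⟩ (Chain.nil ?_)
  · show Conn (Gh I (cexp (-1))) c' _ _
    rw [hSm]
    have hA : (-1 - R * I : ℂ) = ((-1 : ℝ) : ℂ) + ((-R : ℝ) : ℂ) * I := by push_cast; ring
    rw [hA]
    have hor : ∀ x : ℝ, x ≤ S - d → x * d + Real.exp (x - 1) * Real.sin d ≤ mm := by
      intro x hx
      have e1 : Real.exp (x - 1) ≤ Real.exp (S + -d - 1) := Real.exp_le_exp.2 (by linarith)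
      have e2 : Real.exp (x - 1) * Real.sin d ≤ Real.exp (S + -d - 1) * Real.sin d :=
        mul_le_mul_of_nonneg_right e1 hsd.le
      rw [hmm]
      nlinarith only [hsd, hsd', hx, e1]
    refine Conn.trans (B := ((-1 : ℝ) : ℂ) + ((-d : ℝ) : ℂ) * I) (conn_v (by linarith) ?_)
      (conn_h (by linarith) ?_)
    · intro y hy1 hy2
      rw [g_plus]
      have h1 := hor (-1) (by linarith)
      have h2 := sin_diff hy2
      rw [Real.sin_neg] at h2
      have h3 := abs_le.1 h2
      have h4 : Real.exp (-1 - 1) ≤ 1 := Real.exp_le_one_iff.2 (by norm_num)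
      have h5 := Real.exp_pos (-1 - 1)
      have h6 : Real.exp (-1 - 1) * (-Real.sin d - Real.sin y) ≤ 1 * (-d - y) := by
        have h7 : -Real.sin d - Real.sin y ≤ -d - y := h3.2
        calc _ ≤ Real.exp (-1 - 1) * (-d - y) := mul_le_mul_of_nonneg_left h7 h5.le
          _ ≤ _ := mul_le_mul_of_nonneg_right h4 (by linarith)
      linarith only [hc2, h1, h6]
    · intro x _ hx2
      rw [g_plus, Real.sin_neg]
      have h1 := hor x hx2
      linarith only [hc2, h1]
  · rw [deriv_Ph, hE1]; push_cast; ring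
  · have h := g_plus S 0
    simp only [ofReal_zero, zero_mul, add_zero, mul_zero, Real.sin_zero, neg_zero, sub_self] at h
    exact h
  · rw [deriv_deriv_Ph, hE1]
    have e : I * (1 + ((-S : ℝ) : ℂ)) * ((d : ℂ) + d * I) ^ 2 =
        ((-(2 * (1 - S) * d ^ 2) : ℝ) : ℂ) := by
      have : ((d : ℂ) + d * I) ^ 2 = 2 * d ^ 2 * I := by
        have := I_sq
        linear_combination (d : ℂ) ^ 2 * this
      rw [this]
      push_cast
      have := I_sq
      linear_combination (1 - (S : ℂ)) * 2 * d ^ 2 * this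
    rw [e, ofReal_re]
    have : 0 < 2 * (1 - S) * d ^ 2 := by
      have : 0 < 1 - S := by linarith
      positivity
    linarith
  · intro s hs1 hs0
    have e : (S : ℂ) + s * (d + d * I) = ((S + s * d : ℝ) : ℂ) + ((s * d : ℝ) : ℂ) * I := by
      push_cast; ring
    rw [e]
    show Gh I (cexp (-1)) _ < 0
    rw [g_plus]
    refine key (s * d) ?_ (mul_ne_zero hs0 hd0.ne')
    rw [abs_mul, abs_of_pos hd0]
    nlinarith only [hd0, hs1]
  · show Conn (Gh I (cexp (-1))) c' _ _
    rw [hSp]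
    have hB : (1 + R * I : ℂ) = ((1 : ℝ) : ℂ) + ((R : ℝ) : ℂ) * I := by push_cast; ring
    rw [hB]
    have hor : ∀ x : ℝ, S + d ≤ x → -(x * d) - Real.exp (x - 1) * Real.sin d ≤ mp := by
      intro x hx
      have e1 : Real.exp (S + d - 1) ≤ Real.exp (x - 1) := Real.exp_le_exp.2 (by linarith)
      have e2 : Real.exp (S + d - 1) * Real.sin d ≤ Real.exp (x - 1) * Real.sin d :=
        mul_le_mul_of_nonneg_right e1 hsd.le
      rw [hmp]
      nlinarith only [hsd, hsd', hx, e1]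
    refine Conn.trans (B := ((1 : ℝ) : ℂ) + ((d : ℝ) : ℂ) * I) (conn_h (by linarith) ?_)
      (conn_v (by linarith) ?_)
    · intro x hx1 _
      rw [g_plus]
      have h1 := hor x hx1
      linarith
    · intro y hy1 _
      rw [g_plus, sub_self, Real.exp_zero]
      have h1 := hor 1 (by linarith)
      rw [sub_self, Real.exp_zero] at h1
      have h3 := abs_le.1 (sin_diff hy1)
      linarith [h3.1]

end SokalV
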