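import Pool.Agent.Lib_MP_af4de1_v.Val1
import Pool.Agent.Lib_MP_af4de1_v.TipI

/-!
# The other lift is large [SV-OTHER]

`v_n = off (ζ n) → 0`, `-ζ n = (1-v_n)/e =: ζ'_n → e⁻¹`.  `Par` for `-ζ n` (limit `e⁻¹ = cexp(-1)`), `val_one_lim` with `static_diag`: `S_n → S`, `S = -W` real `< 0`,
`S_n + ζ'_n e^{S_n} = 0`, `S + e⁻¹e^S = 0`, `‖Ev(-ζ n)‖ ≥ (‖c0‖/2)√‖t n‖ exp(Re(Ph ζ'_n S_n/t n))`.
(1) `d = S_n - S`: `d + W(e^d - 1) = v W e^d`, so `‖d‖ ≤ 2‖v_n‖` eventually.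
(2) `Ph ζ'_n S_n = S_n²/2 - S_n = (S²/2 - S) - W v_n + O(‖v_n‖²)`.
`S²/2 - S > 0` is real.
(3) `‖sz‖ = exp(Re((-1/2+v_n)/t n))`.  `Re(1/t n) ≥ 0`.  So `‖Ev(-ζ n)‖/‖sz‖` is at least
`(‖c0‖/2)√‖t n‖ exp((1+W)c1‖v_n‖/‖t n‖ - C‖v_n‖²/‖t n‖)`, and `exp x ≥ x³/6`, `h2` control the factor `√‖t n‖`.
-/

namespace SokalV

open Complex Filter Topology

private theorem other_point {S : ℝ} (hS : S + Real.exp (-1) * Real.exp S = 0) (hS0 : S < 0)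
    {ζ s : ℂ} (hs : s + (-ζ) * cexp s = 0) (hd : ‖s - S‖ ≤ 1 / 2) :
    ‖Ph (-ζ) s - (((S ^ 2 / 2 - S : ℝ) : ℂ) + S * off ζ)‖ ≤ 20 * ‖off ζ‖ ^ 2 := by
  set v := off ζ with hv
  set d := s - S with hdd
  set E := cexp d with hE
  have hW0 : 0 < -S := by linarith
  have hW1 : -S ≤ 1 := by
    have h1 : Real.exp (-1) ≤ 1 := Real.exp_le_one_iff.2 (by norm_num)
    have h2 : Real.exp S ≤ 1 := Real.exp_le_one_iff.2 hS0.le
    have h3 := Real.exp_pos (-1)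
    have h4 := Real.exp_pos S
    nlinarith
  have hs' : s = S + d := by rw [hdd]; ring
  have hSc : (S : ℂ) + cexp (-1) * cexp S = 0 := by
    have := congrArg (fun x : ℝ => (x : ℂ)) hS
    simpa using this
  have hζ : -ζ = cexp (-1) * (1 - v) := by
    have h1 : cexp (-1) * cexp 1 = 1 := by rw [← Complex.exp_add]; simp
    rw [hv, off]
    linear_combination (ζ) * h1
  have hes : cexp s = cexp S * E := by rw [hE, ← Complex.exp_add, ← hs']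
  have hmain : (-ζ) * cexp s = (1 - v) * (-S) * E := by
    rw [hζ, hes]
    linear_combination ((1 - v) * E) * hSc
  have heq : (S : ℂ) + d + (1 - v) * (-S) * E = 0 := by
    rw [← hmain, ← hs']; exact hs
  have hd1 : ‖d‖ ≤ 1 := by linarith
  have hr : ‖E - 1 - d‖ ≤ ‖d‖ ^ 2 := Complex.norm_exp_sub_one_sub_id_le hd1
  have hE1 : ‖E - 1‖ ≤ 2 * ‖d‖ := Complex.norm_exp_sub_one_le hd1
  have hE2 : ‖E‖ ≤ 2 := by
    have := norm_add_le (E - 1) 1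
    rw [sub_add_cancel, norm_one] at this
    linarith
  have hd0 := norm_nonneg d
  have hv0 := norm_nonneg v
  have hnS : ‖(S : ℂ)‖ = -S := by
    rw [Complex.norm_real, Real.norm_eq_abs, abs_of_neg hS0]
  -- `(1 + W) d = v W E - W r`
  have h1 : (1 - (S : ℂ)) * d = v * (-S) * E - (-S) * (E - 1 - d) := by
    linear_combination heq
  have h1n : (1 - S) * ‖d‖ ≤ ‖v‖ * (-S) * 2 + (-S) * ‖d‖ ^ 2 := by
    have e1 : ‖(1 - (S : ℂ)) * d‖ = (1 - S) * ‖d‖ := by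
      rw [norm_mul, ← Complex.ofReal_one, ← Complex.ofReal_sub, Complex.norm_real,
        Real.norm_of_nonneg (by linarith)]
    rw [← e1, h1]
    refine (norm_sub_le _ _).trans (add_le_add ?_ ?_)
    · rw [norm_mul, norm_mul, norm_neg, hnS]
      exact mul_le_mul_of_nonneg_left hE2 (mul_nonneg hv0 hW0.le)
    · rw [norm_mul, norm_neg, hnS]
      exact mul_le_mul_of_nonneg_left hr hW0.le
  have hdv : ‖d‖ ≤ 2 * ‖v‖ := by
    have h2 : ‖d‖ ^ 2 ≤ ‖d‖ := by nlinarith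
    have h3 : (-S) * ‖d‖ ^ 2 ≤ (-S) * ‖d‖ := mul_le_mul_of_nonneg_left h2 hW0.le
    have h4 : ‖v‖ * (-S) * 2 ≤ ‖v‖ * 2 := by nlinarith
    nlinarith
  have hPh : Ph (-ζ) s = s ^ 2 / 2 - s := by
    unfold Ph
    linear_combination hs
  have hfin : Ph (-ζ) s - (((S ^ 2 / 2 - S : ℝ) : ℂ) + S * v) =
      v * S * (E - 1) - S * (E - 1 - d) + d ^ 2 / 2 := by
    rw [hPh, hs']
    push_cast
    linear_combination -heq
  rw [hfin]
  have b1 : ‖v * S * (E - 1)‖ ≤ 4 * ‖v‖ ^ 2 := by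
    rw [norm_mul, norm_mul, hnS]
    have h2 : ‖v‖ * (-S) ≤ ‖v‖ := by nlinarith
    have h3 : ‖v‖ * (-S) * ‖E - 1‖ ≤ ‖v‖ * (2 * ‖d‖) :=
      mul_le_mul h2 hE1 (norm_nonneg _) hv0
    nlinarith
  have b2 : ‖(S : ℂ) * (E - 1 - d)‖ ≤ 4 * ‖v‖ ^ 2 := by
    rw [norm_mul, hnS]
    have h3 : (-S) * ‖E - 1 - d‖ ≤ 1 * ‖d‖ ^ 2 :=
      mul_le_mul hW1 hr (norm_nonneg _) zero_le_one
    nlinarith
  have b3 : ‖d ^ 2 / 2‖ ≤ 2 * ‖v‖ ^ 2 := by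
    rw [norm_div, norm_pow]
    simp only [RCLike.norm_ofNat]
    nlinarith
  have := norm_add_le (v * S * (E - 1) - S * (E - 1 - d)) (d ^ 2 / 2)
  have := norm_sub_le (v * S * (E - 1)) (S * (E - 1 - d))
  nlinarith [sq_nonneg ‖v‖]

theorem other_big {t ζ : ℕ → ℂ} (h : Par t ζ (-cexp (-1)) I) {c1 c3 : ℝ} (hc1 : 0 < c1)
    (hc3 : 0 < c3)
    (h1 : ∀ᶠ n in atTop, c1 * ‖off (ζ n)‖ ≤ (-off (ζ n) * (‖t n‖ / t n)).re)
    (h2 : ∀ᶠ n in atTop, c3 * ‖t n‖ ^ 2 ≤ ‖off (ζ n)‖ ^ 3) :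
    ∃ c2 : ℝ, 0 < c2 ∧ ∀ᶠ n in atTop,
      ‖sz (t n) (ζ n)‖ * Real.exp (c2 * ‖off (ζ n)‖ / ‖t n‖) ≤ ‖Ev (t n) (-ζ n)‖ := by
  obtain ⟨S, hS0, hgood⟩ := static_diag
  have hcrit := good_crit hgood (by simp : (S : ℂ) ∈ [(S : ℂ)])
  have hSr : S + Real.exp (-1) * Real.exp S = 0 := by
    have : ((S + Real.exp (-1) * Real.exp S : ℝ) : ℂ) = 0 := by
      push_cast
      exact hcrit
    exact_mod_cast this
  have hPar : Par t (fun n => -ζ n) (cexp (-1)) I :=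
    ⟨h.ne, h.re, h.im, h.lim, h.dir, by simpa using h.zet.neg⟩
  obtain ⟨Sn, c0, hc0, hSn, hSneq, hlim⟩ := val_one_lim hPar hgood
  have hoff : Tendsto (fun n => off (ζ n)) atTop (𝓝 0) := by
    unfold off
    have h3 := (h.zet.const_mul (cexp 1)).const_add 1
    have e : (1 : ℂ) + cexp 1 * -cexp (-1) = 0 := by
      rw [mul_neg, ← Complex.exp_add]; simp
    rwa [e] at h3
  have hoffn : Tendsto (fun n => ‖off (ζ n)‖) atTop (𝓝 0) := by simpa using hoff.norm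
  have htn : Tendsto (fun n => ‖t n‖) atTop (𝓝 0) := by simpa using h.lim.norm
  have ev1 : ∀ᶠ n in atTop, ‖Sn n - S‖ ≤ 1 / 2 := by
    have h3 : Tendsto (fun n => ‖Sn n - S‖) atTop (𝓝 0) := by
      simpa using (hSn.sub_const (S : ℂ)).norm
    exact h3.eventually_le_const (by norm_num)
  have ev2 : ∀ᶠ n in atTop, ‖off (ζ n)‖ ≤ c1 / 80 :=
    hoffn.eventually_le_const (by positivity)
  have hc0n : 0 < ‖c0‖ := norm_pos_iff.2 hc0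
  have ev3 : ∀ᶠ n in atTop, ‖c0‖ / 2 ≤
      ‖Ev (t n) (-ζ n) / (√‖t n‖ * cexp (Ph (-ζ n) (Sn n) / t n))‖ :=
    hlim.norm.eventually_const_le (by linarith)
  have ev4 : ∀ᶠ n in atTop, √‖t n‖ ≤ ‖c0‖ / 2 * ((c1 / 4) ^ 3 * c3 / 6) := by
    have h3 : Tendsto (fun n => √‖t n‖) atTop (𝓝 0) := by
      simpa using htn.sqrt
    exact h3.eventually_le_const (by positivity)
  refine ⟨c1 / 2, by positivity, ?_⟩
  filter_upwards [h1, h2, ev1, ev2, ev3, ev4, hSneq] with n e1 e2 a1 a2 a3 a4 a5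
  have key := other_point hSr hS0 a5 a1
  set v := off (ζ n) with hv
  set τ := ‖t n‖ with hτ
  have hτ0 : 0 < τ := norm_pos_iff.2 (h.ne n)
  have hv0 : 0 ≤ ‖v‖ := norm_nonneg v
  set Err := Ph (-ζ n) (Sn n) - (((S ^ 2 / 2 - S : ℝ) : ℂ) + S * v) with hErr
  -- the real part
  have r1 : 0 ≤ (((S ^ 2 / 2 - S + 1 / 2 : ℝ) : ℂ) / t n).re := by
    rw [Complex.div_re]
    have h3 : 0 ≤ S ^ 2 / 2 - S + 1 / 2 := by nlinarith [sq_nonneg S]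
    have h4 := h.re n
    simp only [Complex.ofReal_re, Complex.ofReal_im, zero_mul, zero_div, add_zero]
    exact div_nonneg (mul_nonneg h3 h4) (Complex.normSq_nonneg _)
  have r2 : c1 * ‖v‖ / τ ≤ ((-v) / t n).re := by
    have e : (-v) * ((τ : ℂ) / t n) = (τ : ℂ) * ((-v) / t n) := by ring
    rw [e, Complex.re_ofReal_mul] at e1
    rw [div_le_iff₀ hτ0]
    linarith
  have r3 : -(20 * ‖v‖ ^ 2 / τ) ≤ (Err / t n).re := by
    have h3 : |(Err / t n).re| ≤ ‖Err / t n‖ := Complex.abs_re_le_norm _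
    rw [norm_div, ← hτ] at h3
    have h4 : ‖Err‖ / τ ≤ 20 * ‖v‖ ^ 2 / τ := div_le_div_of_nonneg_right key hτ0.le
    have h5 := neg_abs_le (Err / t n).re
    linarith
  have hsplit : Ph (-ζ n) (Sn n) / t n = (-1 / 2 + v) / t n +
      (((S ^ 2 / 2 - S + 1 / 2 : ℝ) : ℂ) / t n + ((1 - S : ℝ) : ℂ) * ((-v) / t n) + Err / t n) := by
    rw [hErr]
    push_cast
    ring
  have hre : ((-1 / 2 + v) / t n).re + 3 / 4 * (c1 * ‖v‖ / τ) ≤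
      (Ph (-ζ n) (Sn n) / t n).re := by
    rw [hsplit, Complex.add_re, Complex.add_re, Complex.add_re, Complex.re_ofReal_mul]
    have h0 : 0 ≤ c1 * ‖v‖ / τ := by positivity
    have h3 : c1 * ‖v‖ / τ ≤ (1 - S) * ((-v) / t n).re := by
      have : 1 * (c1 * ‖v‖ / τ) ≤ (1 - S) * ((-v) / t n).re :=
        mul_le_mul (by linarith) r2 h0 (by linarith)
      linarith
    have h4 : 20 * ‖v‖ ^ 2 / τ ≤ 1 / 4 * (c1 * ‖v‖ / τ) := by
      rw [mul_div_assoc', div_le_div_iff_of_pos_right hτ0]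
      nlinarith
    linarith
  -- the modulus
  have hsq0 : 0 < √τ := Real.sqrt_pos.2 hτ0
  have m1 : ‖c0‖ / 2 * (√τ * Real.exp ((Ph (-ζ n) (Sn n) / t n).re)) ≤ ‖Ev (t n) (-ζ n)‖ := by
    rw [norm_div, norm_mul, Complex.norm_exp, Complex.norm_real, Real.norm_of_nonneg hsq0.le,
      le_div_iff₀ (by positivity)] at a3
    exact a3
  have m2 : 1 ≤ ‖c0‖ / 2 * √τ * Real.exp (1 / 4 * (c1 * ‖v‖ / τ)) := by
    have h3 : 0 ≤ 1 / 4 * (c1 * ‖v‖ / τ) := by positivity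
    have h4 : (1 / 4 * (c1 * ‖v‖ / τ)) ^ 3 / 6 ≤ Real.exp (1 / 4 * (c1 * ‖v‖ / τ)) := by
      have := Real.pow_div_factorial_le_exp _ h3 3
      simpa [Nat.factorial] using this
    have h5 : (c1 / 4) ^ 3 * c3 / 6 / τ ≤ (1 / 4 * (c1 * ‖v‖ / τ)) ^ 3 / 6 := by
      have e : (1 / 4 * (c1 * ‖v‖ / τ)) ^ 3 / 6 = (c1 / 4) ^ 3 * ‖v‖ ^ 3 / 6 / τ ^ 3 := by
        field_simp
      rw [e, div_le_div_iff₀ hτ0 (by positivity)]
      have h6 : c3 * τ ^ 2 * τ ≤ ‖v‖ ^ 3 * τ := mul_le_mul_of_nonneg_right e2 hτ0.le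
      have h7 : 0 < (c1 / 4) ^ 3 / 6 := by positivity
      nlinarith [mul_le_mul_of_nonneg_left h6 h7.le]
    have h6 : ‖c0‖ / 2 * √τ * ((c1 / 4) ^ 3 * c3 / 6 / τ) ≤
        ‖c0‖ / 2 * √τ * Real.exp (1 / 4 * (c1 * ‖v‖ / τ)) :=
      mul_le_mul_of_nonneg_left (h5.trans h4) (by positivity)
    refine le_trans ?_ h6
    have h7 : τ = √τ * √τ := (Real.mul_self_sqrt hτ0.le).symm
    have h8 : ‖c0‖ / 2 * √τ * ((c1 / 4) ^ 3 * c3 / 6 / τ) =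
        (‖c0‖ / 2 * ((c1 / 4) ^ 3 * c3 / 6)) / √τ := by
      conv_lhs => rw [h7]
      rw [Real.sqrt_mul_self hsq0.le]
      field_simp
    rw [h8, le_div_iff₀ hsq0]
    linarith
  have m3 : ‖sz (t n) (ζ n)‖ = Real.exp (((-1 / 2 + v) / t n).re) := by
    unfold sz
    rw [Complex.norm_exp]
  rw [m3]
  have hexp : Real.exp (((-1 / 2 + v) / t n).re) * Real.exp (c1 / 2 * ‖v‖ / τ) *
      Real.exp (1 / 4 * (c1 * ‖v‖ / τ)) ≤ Real.exp ((Ph (-ζ n) (Sn n) / t n).re) := by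
    rw [← Real.exp_add, ← Real.exp_add]
    apply Real.exp_le_exp.2
    have e : c1 / 2 * ‖v‖ / τ = 1 / 2 * (c1 * ‖v‖ / τ) := by ring
    rw [e]
    linarith
  set A := Real.exp (((-1 / 2 + v) / t n).re) * Real.exp (c1 / 2 * ‖v‖ / τ) with hA
  have hA0 : 0 ≤ A := by positivity
  calc A = A * 1 := (mul_one A).symm
    _ ≤ A * (‖c0‖ / 2 * √τ * Real.exp (1 / 4 * (c1 * ‖v‖ / τ))) :=
        mul_le_mul_of_nonneg_left m2 hA0
    _ = ‖c0‖ / 2 * √τ * (A * Real.exp (1 / 4 * (c1 * ‖v‖ / τ))) := by ring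
    _ ≤ ‖c0‖ / 2 * √τ * Real.exp ((Ph (-ζ n) (Sn n) / t n).re) :=
        mul_le_mul_of_nonneg_left hexp (by positivity)
    _ = ‖c0‖ / 2 * (√τ * Real.exp ((Ph (-ζ n) (Sn n) / t n).re)) := by ring
    _ ≤ _ := m1

end SokalV
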