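import Pool.Agent.Lib_MP_af4de1_v.Tip1
import Pool.Agent.Lib_MP_af4de1_v.Other

/-!
# The tip for `N = 2` [SV-TIP2]

`tip_ratio`: `static_diag`, `val_one` for `-ζ n` (`Par` with limit `cexp (-1)`): `Ev0 := Ev(-ζ n) = J + R`, `R` `Small` at `c' < 0`, `J` `Big` at `0`, `Dv0 = -S J + o(J)`, `S < 0`.
`Ev0 = -(g1/g0) Ev1`, `Dv0 = -(g1/g0) Dv1 = -Ev0 + o(‖Ev0‖)` by `hr`, `hne`.  So `-S J + o(J) = -J + o(J)`, `(1 - S)J = o(J)`, but `1 - S > 1`, `J ≠ 0`.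
`tip_size`: `other_big`: `‖Ev0‖ ≥ ‖sz‖ exp(c2‖v‖/‖t‖)`, and `‖Ev0‖ = ‖g1/g0‖‖Ev1‖ ≤ C'‖sz‖exp(‖v‖√‖v‖/‖t‖)`; `‖v‖/‖t‖ ≥ c‖t‖^{-1/3} → ∞`, `√‖v‖ → 0`.
`tip_two`: `tip_cases`.  (a) `x_n → x0`: `airy_lim` (`tipConn_I`).  If `Ai x0 ≠ 0`: `Ev1 ≠ 0` eventually, `(Dv1+Ev1)/Ev1 = ell·(-Ad x0 + o(1))/(Ai x0 + o(1)) → 0`: `tip_ratio`.  If
`Ai x0 = 0`: `airy_zero`: `x0` real `< 0`; `‖Ev1‖ ≤ ‖sz‖` eventually (`ell → 0`); `‖v‖ = ‖x_n‖‖t‖/‖ell‖`, `‖v‖³ ≥ c3‖t‖²`; `-v‖t‖/t = -x_n‖t‖/ell`,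
divided by `‖v‖`: `-(x_n/‖x_n‖)(‖ell‖/ell) → e^{πI/6}` (`x_n/‖x_n‖ → -1`, `arg ell = arg(t)/3 → -π/6`), real part `cos(π/6) > 1/2`: `tip_size`.
(b) `Scale`: if `v0 cexp(2 (π/2)/3 I) ≠ -1`: `scale_one`, `tip_ratio`.  If `= -1`: `cubic_two_conn` with `δ = 1/2`, `tip_red`, `chain_nil`: `‖Ev1‖ ≤ ‖sz‖√‖v‖(C exp(1/(2τ)) + C exp(-…/τ))`,
`τ = ‖t‖/√‖v‖³`; `-v‖t‖/(t‖v‖) → -v0·I = e^{-πI/3}I = e^{πI/6}` (`v0 = -e^{-πI/3}`), real part `> 1/2`; `‖v‖³ ≥ ‖t‖²` from `Scale.big`: `tip_size`.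
-/

namespace SokalV

open Complex Filter Topology

private theorem t2_ev_exp {τ : ℕ → ℝ} (hτ : ∀ n, 0 < τ n) (hτ0 : Tendsto τ atTop (𝓝 0))
    {C η δ : ℝ} (hη : 0 < η) (hδ : 0 < δ) : ∀ᶠ n in atTop, C ≤ η * Real.exp (δ / τ n) := by
  have h2 : ∀ᶠ n in atTop, τ n < η * δ / (|C| + 1) := hτ0.eventually_lt_const (by positivity)
  filter_upwards [h2] with n hn
  have h3 : δ / τ n ≤ Real.exp (δ / τ n) := by
    have := Real.add_one_le_exp (δ / τ n)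
    linarith
  have h4 : τ n * (|C| + 1) < η * δ := by
    rwa [lt_div_iff₀ (by positivity)] at hn
  calc C ≤ |C| + 1 := by linarith [le_abs_self C]
    _ ≤ η * (δ / τ n) := by
        rw [← mul_div_assoc, le_div_iff₀ (hτ n)]
        linarith
    _ ≤ η * Real.exp (δ / τ n) := mul_le_mul_of_nonneg_left h3 hη.le

private theorem t2_small_big {τ : ℕ → ℝ} (hτ : ∀ n, 0 < τ n) (hτ0 : Tendsto τ atTop (𝓝 0))
    {c c' : ℝ} (hc : c' < c) {J R : ℕ → ℂ} (hJ : Big τ c J) (hR : Small τ c' R) {η : ℝ}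
    (hη : 0 < η) : ∀ᶠ n in atTop, ‖R n‖ ≤ η * ‖J n‖ := by
  obtain ⟨C, hC⟩ := hR
  have hδ : 0 < (c - c') / 2 := by linarith
  filter_upwards [hC, hJ _ hδ, t2_ev_exp (C := C) hτ hτ0 hη hδ] with n h1 h2 h3
  have h4 : Real.exp ((c - (c - c') / 2) / τ n) =
      Real.exp (((c - c') / 2) / τ n) * Real.exp (c' / τ n) := by
    rw [← Real.exp_add]
    congr 1
    ring
  calc ‖R n‖ ≤ C * Real.exp (c' / τ n) := h1
    _ ≤ (η * Real.exp (((c - c') / 2) / τ n)) * Real.exp (c' / τ n) :=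
        mul_le_mul_of_nonneg_right h3 (Real.exp_pos _).le
    _ = η * Real.exp ((c - (c - c') / 2) / τ n) := by rw [h4]; ring
    _ ≤ η * ‖J n‖ := mul_le_mul_of_nonneg_left h2 hη.le

private theorem t2_pos {t ζ : ℕ → ℂ} {ζ0 u0 : ℂ} (h : Par t ζ ζ0 u0) (n : ℕ) : 0 < ‖t n‖ :=
  norm_pos_iff.2 (h.ne n)

private theorem t2_lim {t ζ : ℕ → ℂ} {ζ0 u0 : ℂ} (h : Par t ζ ζ0 u0) :
    Tendsto (fun n => ‖t n‖) atTop (𝓝 0) := by
  have := h.lim.norm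
  rwa [norm_zero] at this

private theorem t2_neg {t ζ : ℕ → ℂ} {u0 : ℂ} (h : Par t ζ (-cexp (-1)) u0) :
    Par t (fun n => -ζ n) (cexp (-1)) u0 where
  ne := h.ne
  re := h.re
  im := h.im
  lim := h.lim
  dir := h.dir
  zet := by
    have := h.zet.neg
    rwa [neg_neg] at this

theorem tip_ratio {t ζ : ℕ → ℂ} {g0 g1 : ℂ} (hg0 : g0 ≠ 0) (hg1 : g1 ≠ 0)
    (h : Par t ζ (-cexp (-1)) I) (hE : ∀ n, g0 * Ev (t n) (-ζ n) + g1 * Ev (t n) (ζ n) = 0)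
    (hD : ∀ n, g0 * Dv (t n) (-ζ n) + g1 * Dv (t n) (ζ n) = 0)
    (hne : ∀ᶠ n in atTop, Ev (t n) (ζ n) ≠ 0)
    (hr : Tendsto (fun n => (Dv (t n) (ζ n) + Ev (t n) (ζ n)) / Ev (t n) (ζ n)) atTop (𝓝 0)) :
    False := by
  obtain ⟨S, hS, hgood⟩ := static_diag
  obtain ⟨c', hc', J, hJ, hR, hD0⟩ := val_one (t2_neg h) hgood
  have h1 := t2_small_big (t2_pos h) (t2_lim h) hc' hJ hR (η := 1 / 8) (by norm_num)
  have h2 := hD0 (1 / 8) (by norm_num)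
  have h3 : ∀ᶠ n in atTop, 0 < ‖J n‖ := by
    filter_upwards [hJ 1 one_pos] with n hn
    exact (Real.exp_pos _).trans_le hn
  have h4 : ∀ᶠ n in atTop,
      ‖(Dv (t n) (ζ n) + Ev (t n) (ζ n)) / Ev (t n) (ζ n)‖ < 1 / 8 := by
    have := hr.norm
    rw [norm_zero] at this
    exact this.eventually_lt_const (by norm_num)
  obtain ⟨n, h1, h2, h3, h4, h5⟩ := (h1.and (h2.and (h3.and (h4.and hne)))).exists
  obtain ⟨r, hr'⟩ : ∃ r, r = (Dv (t n) (ζ n) + Ev (t n) (ζ n)) / Ev (t n) (ζ n) := ⟨_, rfl⟩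
  rw [← hr'] at h4
  have h6 : Dv (t n) (ζ n) + Ev (t n) (ζ n) = r * Ev (t n) (ζ n) := by
    rw [hr', div_mul_cancel₀ _ h5]
  have h7 : Dv (t n) (-ζ n) + Ev (t n) (-ζ n) = r * Ev (t n) (-ζ n) := by
    have e1 := hE n
    have e2 := hD n
    refine mul_left_cancel₀ hg0 ?_
    linear_combination e1 + e2 - g1 * h6 - r * e1
  have hEn : ‖Ev (t n) (-ζ n)‖ ≤ 9 / 8 * ‖J n‖ := by
    have e : Ev (t n) (-ζ n) = (Ev (t n) (-ζ n) - J n) + J n := by ring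
    rw [e]
    refine (norm_add_le _ _).trans ?_
    linarith
  have h8 : (((1 - S : ℝ) : ℂ)) * J n = r * Ev (t n) (-ζ n) - (Ev (t n) (-ζ n) - J n)
      - (Dv (t n) (-ζ n) + S * J n) := by
    push_cast
    linear_combination h7
  have h9 : ‖(((1 - S : ℝ) : ℂ)) * J n‖ ≤ 1 / 8 * (9 / 8 * ‖J n‖) + 1 / 8 * ‖J n‖ + 1 / 8 * ‖J n‖ := by
    rw [h8]
    refine (norm_sub_le _ _).trans (add_le_add ((norm_sub_le _ _).trans (add_le_add ?_ h1)) h2)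
    rw [norm_mul]
    exact mul_le_mul h4.le hEn (norm_nonneg _) (by norm_num)
  rw [norm_mul, Complex.norm_real, Real.norm_eq_abs, abs_of_pos (by linarith)] at h9
  have h10 : ‖J n‖ ≤ (1 - S) * ‖J n‖ := by nlinarith
  linarith

private theorem t2_rho {t v : ℕ → ℂ} (ht : ∀ n, 0 < ‖t n‖) (htl : Tendsto (fun n => ‖t n‖) atTop (𝓝 0))
    {c3 : ℝ} (hc3 : 0 < c3) (h2 : ∀ᶠ n in atTop, c3 * ‖t n‖ ^ 2 ≤ ‖v n‖ ^ 3) (M : ℝ) :
    ∀ᶠ n in atTop, M < ‖v n‖ / ‖t n‖ := by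
  obtain ⟨M', hM', hM'0⟩ : ∃ M' : ℝ, M ≤ M' ∧ 0 < M' := ⟨max M 1, le_max_left _ _, by positivity⟩
  have h3 : ∀ᶠ n in atTop, ‖t n‖ < c3 / M' ^ 3 := htl.eventually_lt_const (by positivity)
  filter_upwards [h2, h3] with n h2 h3
  have ht' := ht n
  refine lt_of_le_of_lt hM' ?_
  rw [lt_div_iff₀ ht']
  by_contra hcon
  push Not at hcon
  have h4 : ‖v n‖ ^ 3 ≤ (M' * ‖t n‖) ^ 3 := pow_le_pow_left₀ (norm_nonneg _) hcon 3
  rw [lt_div_iff₀ (by positivity)] at h3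
  have h5 : (M' * ‖t n‖) ^ 3 = ‖t n‖ * M' ^ 3 * ‖t n‖ ^ 2 := by ring
  have h6 : ‖t n‖ * M' ^ 3 * ‖t n‖ ^ 2 < c3 * ‖t n‖ ^ 2 :=
    mul_lt_mul_of_pos_right h3 (by positivity)
  linarith

private theorem t2_off {t ζ : ℕ → ℂ} {u0 : ℂ} (h : Par t ζ (-cexp (-1)) u0) :
    Tendsto (fun n => off (ζ n)) atTop (𝓝 0) := by
  unfold off
  have h1 := (h.zet.const_mul (cexp 1)).const_add 1
  have h2 : 1 + cexp 1 * -cexp (-1) = 0 := by
    rw [mul_neg, ← Complex.exp_add]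
    simp
  rwa [h2] at h1

theorem tip_size {t ζ : ℕ → ℂ} {g0 g1 : ℂ} (hg0 : g0 ≠ 0) (h : Par t ζ (-cexp (-1)) I)
    (hE : ∀ n, g0 * Ev (t n) (-ζ n) + g1 * Ev (t n) (ζ n) = 0) {c1 c3 C : ℝ} (hc1 : 0 < c1)
    (hc3 : 0 < c3)
    (h1 : ∀ᶠ n in atTop, c1 * ‖off (ζ n)‖ ≤ (-off (ζ n) * (‖t n‖ / t n)).re)
    (h2 : ∀ᶠ n in atTop, c3 * ‖t n‖ ^ 2 ≤ ‖off (ζ n)‖ ^ 3)
    (h3 : ∀ᶠ n in atTop, ‖Ev (t n) (ζ n)‖ ≤
      C * ‖sz (t n) (ζ n)‖ * Real.exp (‖off (ζ n)‖ * √‖off (ζ n)‖ / ‖t n‖)) : False := by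
  obtain ⟨c2, hc2, h4⟩ := other_big h hc1 hc3 h1 h2
  have hoff : Tendsto (fun n => √‖off (ζ n)‖) atTop (𝓝 0) := by
    have h5 := (t2_off h).norm
    rw [norm_zero] at h5
    have := (Real.continuous_sqrt.tendsto 0).comp h5
    rwa [Real.sqrt_zero] at this
  have h5 : ∀ᶠ n in atTop, √‖off (ζ n)‖ < c2 / 2 := hoff.eventually_lt_const (by positivity)
  obtain ⟨K, hK⟩ : ∃ K : ℝ, K = ‖g1 / g0‖ * |C| := ⟨_, rfl⟩
  have hK0 : 0 ≤ K := by rw [hK]; positivity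
  have h6 := t2_rho (v := fun n => off (ζ n)) (t2_pos h) (t2_lim h) hc3 h2 (K * 2 / c2)
  obtain ⟨n, h3, h4, h5, h6⟩ := (h3.and (h4.and (h5.and h6))).exists
  have ht := t2_pos h n
  have hsz : 0 < ‖sz (t n) (ζ n)‖ := by
    unfold sz
    exact norm_pos_iff.2 (Complex.exp_ne_zero _)
  have e1 : Ev (t n) (-ζ n) = -(g1 / g0) * Ev (t n) (ζ n) := by
    have := hE n
    field_simp
    linear_combination this
  rw [e1, norm_mul, norm_neg] at h4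
  obtain ⟨ρ, hρ⟩ : ∃ ρ, ρ = ‖off (ζ n)‖ / ‖t n‖ := ⟨_, rfl⟩
  have hρ0 : 0 ≤ ρ := by rw [hρ]; positivity
  have e2 : c2 * ‖off (ζ n)‖ / ‖t n‖ = c2 * ρ := by rw [hρ]; ring
  have e3 : ‖off (ζ n)‖ * √‖off (ζ n)‖ / ‖t n‖ = √‖off (ζ n)‖ * ρ := by rw [hρ]; ring
  rw [e2] at h4
  rw [e3] at h3
  rw [← hρ] at h6
  have h7 : ‖sz (t n) (ζ n)‖ * Real.exp (c2 * ρ)
      ≤ ‖sz (t n) (ζ n)‖ * (K * Real.exp (√‖off (ζ n)‖ * ρ)) := by
    refine h4.trans ?_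
    have h8 : ‖Ev (t n) (ζ n)‖ ≤ |C| * ‖sz (t n) (ζ n)‖ * Real.exp (√‖off (ζ n)‖ * ρ) := by
      refine h3.trans ?_
      have := le_abs_self C
      gcongr
    calc ‖g1 / g0‖ * ‖Ev (t n) (ζ n)‖
        ≤ ‖g1 / g0‖ * (|C| * ‖sz (t n) (ζ n)‖ * Real.exp (√‖off (ζ n)‖ * ρ)) :=
          mul_le_mul_of_nonneg_left h8 (norm_nonneg _)
      _ = _ := by rw [hK]; ring
  have h8 := le_of_mul_le_mul_left h7 hsz
  have h9 : Real.exp (√‖off (ζ n)‖ * ρ) ≤ Real.exp (c2 / 2 * ρ) :=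
    Real.exp_le_exp.2 (mul_le_mul_of_nonneg_right h5.le hρ0)
  have h10 : Real.exp (c2 * ρ) = Real.exp (c2 / 2 * ρ) * Real.exp (c2 / 2 * ρ) := by
    rw [← Real.exp_add]
    congr 1
    ring
  have h11 : Real.exp (c2 / 2 * ρ) * Real.exp (c2 / 2 * ρ) ≤ K * Real.exp (c2 / 2 * ρ) := by
    rw [← h10]
    exact h8.trans (mul_le_mul_of_nonneg_left h9 hK0)
  have h12 := le_of_mul_le_mul_right h11 (Real.exp_pos _)
  have h13 : c2 / 2 * ρ ≤ Real.exp (c2 / 2 * ρ) := by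
    have := Real.add_one_le_exp (c2 / 2 * ρ)
    linarith
  have h14 : K < c2 / 2 * ρ := by
    rw [div_lt_iff₀ hc2] at h6
    linarith
  linarith

private theorem t2_ell_norm (t : ℂ) : ‖ell t‖ ^ 3 = 2 * ‖t‖ := by
  rw [← norm_pow, ell_pow, norm_mul]
  norm_num

private theorem t2_ell_ne {t : ℂ} (ht : t ≠ 0) : ell t ≠ 0 := by
  intro h
  have h1 := t2_ell_norm t
  rw [h, norm_zero] at h1
  have h2 := norm_pos_iff.2 ht
  norm_num at h1
  exact ht h1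

private theorem t2_ell_lim {t : ℕ → ℂ} (h : Tendsto (fun n => ‖t n‖) atTop (𝓝 0)) :
    Tendsto (fun n => ‖ell (t n)‖) atTop (𝓝 0) := by
  rw [Metric.tendsto_atTop] at h ⊢
  intro ε hε
  obtain ⟨N, hN⟩ := h (ε ^ 3 / 2) (by positivity)
  refine ⟨N, fun n hn => ?_⟩
  have h1 := hN n hn
  rw [Real.dist_eq, sub_zero, abs_of_nonneg (norm_nonneg _)] at h1 ⊢
  have h2 := t2_ell_norm (t n)
  have h3 : ‖ell (t n)‖ ^ 3 < ε ^ 3 := by linarith
  exact lt_of_pow_lt_pow_left₀ 3 hε.le h3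

private theorem t2_ell_dir {t : ℂ} (ht : t ≠ 0) :
    (‖ell t‖ : ℂ) / ell t = cexp (-(((t / ‖t‖ : ℂ)).arg / 3 : ℝ) * I) := by
  have h2t : (2 : ℂ) * t ≠ 0 := mul_ne_zero two_ne_zero ht
  have e1 : ell t = cexp (Complex.log (2 * t) * (1 / 3)) := by
    unfold ell
    rw [Complex.cpow_def_of_ne_zero h2t]
  have harg : (2 * t).arg = (t / ‖t‖).arg := by
    have h1 : (2 : ℂ) * t = ((2 : ℝ) : ℂ) * t := by push_cast; ring
    have h2 : t / ‖t‖ = ((‖t‖⁻¹ : ℝ) : ℂ) * t := by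
      push_cast
      rw [div_eq_mul_inv, mul_comm]
    rw [h1, h2, Complex.arg_real_mul _ two_pos,
      Complex.arg_real_mul _ (inv_pos.2 (norm_pos_iff.2 ht))]
  have e2 : (Complex.log (2 * t) * (1 / 3)).re = Real.log ‖2 * t‖ / 3 := by
    have h3 : Complex.log (2 * t) * (1 / 3) = ((1 / 3 : ℝ) : ℂ) * Complex.log (2 * t) := by
      push_cast; ring
    rw [h3, Complex.re_ofReal_mul, Complex.log_re]
    ring
  have e3 : Complex.log (2 * t) * (1 / 3)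
      = ((Real.log ‖2 * t‖ / 3 : ℝ) : ℂ) + (((2 * t).arg / 3 : ℝ) : ℂ) * I := by
    apply Complex.ext
    · rw [e2]
      simp
    · have h3 : Complex.log (2 * t) * (1 / 3) = ((1 / 3 : ℝ) : ℂ) * Complex.log (2 * t) := by
        push_cast; ring
      rw [h3, Complex.im_ofReal_mul, Complex.log_im]
      simp
      ring
  rw [e1, Complex.norm_exp, e2, e3, Complex.exp_add, Complex.ofReal_exp, ← harg]
  have h4 : cexp ((Real.log ‖2 * t‖ / 3 : ℝ) : ℂ) ≠ 0 := Complex.exp_ne_zero _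
  have h5 : cexp ((((2 * t).arg / 3 : ℝ) : ℂ) * I) ≠ 0 := Complex.exp_ne_zero _
  have h6 : cexp (-(((2 * t).arg / 3 : ℝ) : ℂ) * I) * cexp ((((2 * t).arg / 3 : ℝ) : ℂ) * I) = 1 := by
    rw [← Complex.exp_add, neg_mul, neg_add_cancel, Complex.exp_zero]
  rw [div_eq_iff (mul_ne_zero h4 h5)]
  linear_combination (-cexp ((Real.log ‖2 * t‖ / 3 : ℝ) : ℂ)) * h6

private theorem t2_ell_dir_lim {t ζ : ℕ → ℂ} {ζ0 : ℂ} (h : Par t ζ ζ0 I) :
    Tendsto (fun n => (‖ell (t n)‖ : ℂ) / ell (t n)) atTop (𝓝 (cexp ((Real.pi / 6 : ℝ) * I))) := by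
  have h1 : Tendsto (fun n => t n / (‖t n‖ : ℂ)) atTop (𝓝 (-I)) := by
    have h2 := h.dir.inv₀ Complex.I_ne_zero
    simp only [inv_div, Complex.inv_I] at h2
    exact h2
  have h3 : ContinuousAt Complex.arg (-I) := by
    refine Complex.continuousAt_arg ?_
    right
    simp
  have h4 := h3.tendsto.comp h1
  rw [Complex.arg_neg_I] at h4
  have h5 : Continuous fun x : ℝ => cexp (-((x / 3 : ℝ) : ℂ) * I) := by fun_prop
  have h6 := (h5.tendsto _).comp h4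
  have h7 : cexp (-((-(Real.pi / 2) / 3 : ℝ) : ℂ) * I) = cexp ((Real.pi / 6 : ℝ) * I) := by
    congr 1
    push_cast
    ring
  rw [h7] at h6
  refine h6.congr fun n => ?_
  rw [t2_ell_dir (h.ne n)]
  rfl

private theorem t2_cos : (cexp ((Real.pi / 6 : ℝ) * I)).re = √3 / 2 := by
  rw [Complex.exp_ofReal_mul_I_re, Real.cos_pi_div_six]

private theorem t2_sqrt3 : 1 < √3 := by
  rw [Real.lt_sqrt (by norm_num)]
  norm_num

theorem tip_two {t ζ : ℕ → ℂ} {g0 g1 : ℂ} (hg0 : g0 ≠ 0) (hg1 : g1 ≠ 0)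
    (h : Par t ζ (-cexp (-1)) I) (hE : ∀ n, g0 * Ev (t n) (-ζ n) + g1 * Ev (t n) (ζ n) = 0)
    (hD : ∀ n, g0 * Dv (t n) (-ζ n) + g1 * Dv (t n) (ζ n) = 0) : False := by
  have hI1 : ‖I‖ = 1 := Complex.norm_I
  have hI2 : 0 ≤ I.re := by simp
  have hI3 : 0 ≤ I.im := by simp
  rcases tip_cases h with ⟨φ, hφ, x0, hx⟩ | ⟨φ, hφ, v0, hv0, hs⟩
  · have h' := par_comp h hφ
    obtain ⟨hA, hB⟩ := airy_lim h' hI1 hI2 hI3 tipConn_I hx
    have hell := t2_ell_lim (t2_lim h')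
    have hsz : ∀ n, sz ((t ∘ φ) n) ((ζ ∘ φ) n) ≠ 0 := fun n => Complex.exp_ne_zero _
    have helln : ∀ n, ell ((t ∘ φ) n) ≠ 0 := fun n => t2_ell_ne (h'.ne n)
    by_cases hAi : Ai x0 = 0
    · obtain ⟨him, hre⟩ := airy_zero hAi
      obtain ⟨r, hr, hxr⟩ : ∃ r : ℝ, 0 < r ∧ x0 = ((-r : ℝ) : ℂ) := by
        refine ⟨-x0.re, by linarith, ?_⟩
        apply Complex.ext <;> simp [him]
      have hxn : ‖x0‖ = r := by
        rw [hxr, Complex.norm_real, Real.norm_eq_abs, abs_neg, abs_of_pos hr]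
      have hxnorm := hx.norm
      rw [hxn] at hxnorm
      -- the size of the offset
      have hv : ∀ n, ‖off ((ζ ∘ φ) n)‖ * ‖ell ((t ∘ φ) n)‖ =
          ‖off (ζ (φ n)) * ell (t (φ n)) / t (φ n)‖ * ‖(t ∘ φ) n‖ := by
        intro n
        have ht := t2_pos h' n
        rw [norm_div, norm_mul]
        have ht' : ‖t (φ n)‖ ≠ 0 := ht.ne'
        field_simp
        rfl
      refine tip_size (c1 := 1 / 2) (c3 := r ^ 3 / 16) (C := 1) hg0 h' (fun n => hE (φ n))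
        (by norm_num) (by positivity) ?_ ?_ ?_
      · have h1 : Tendsto (fun n => (-(off (ζ (φ n)) * ell (t (φ n)) / t (φ n)) *
            ((‖ell ((t ∘ φ) n)‖ : ℂ) / ell ((t ∘ φ) n))).re) atTop (𝓝 (r * (√3 / 2))) := by
          have h2 := (Complex.continuous_re.tendsto _).comp (hx.neg.mul (t2_ell_dir_lim h'))
          have h3 : (-x0 * cexp ((Real.pi / 6 : ℝ) * I)).re = r * (√3 / 2) := by
            rw [hxr, ← Complex.ofReal_neg, Complex.re_ofReal_mul, t2_cos]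
            ring
          rw [h3] at h2
          exact h2
        have h4 : 1 / 2 * r < r * (√3 / 2) := by
          have := t2_sqrt3
          nlinarith
        have h5 := (hxnorm.const_mul (1 / 2)).eventually_lt h1 h4
        filter_upwards [h5] with n hn
        have ht := t2_pos h' n
        have hl : 0 < ‖ell ((t ∘ φ) n)‖ := norm_pos_iff.2 (helln n)
        have hl' := helln n
        have ht' := h'.ne n
        have e1 : -off ((ζ ∘ φ) n) * ((‖(t ∘ φ) n‖ : ℂ) / (t ∘ φ) n) =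
            ((‖(t ∘ φ) n‖ / ‖ell ((t ∘ φ) n)‖ : ℝ) : ℂ) *
            (-(off (ζ (φ n)) * ell (t (φ n)) / t (φ n)) *
              ((‖ell ((t ∘ φ) n)‖ : ℂ) / ell ((t ∘ φ) n))) := by
          have hl2 : ((‖ell ((t ∘ φ) n)‖ : ℝ) : ℂ) ≠ 0 := by exact_mod_cast hl.ne'
          push_cast
          simp only [Function.comp_apply] at hl' ht' hl2 ⊢
          field_simp
        rw [e1, Complex.re_ofReal_mul]
        have e2 : ‖off ((ζ ∘ φ) n)‖ = ‖(t ∘ φ) n‖ / ‖ell ((t ∘ φ) n)‖ *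
            ‖off (ζ (φ n)) * ell (t (φ n)) / t (φ n)‖ := by
          have := hv n
          field_simp
          linarith
        rw [e2]
        have h6 : 0 < ‖(t ∘ φ) n‖ / ‖ell ((t ∘ φ) n)‖ := div_pos ht hl
        have h7 := mul_le_mul_of_nonneg_left hn.le h6.le
        linarith
      · have h5 : ∀ᶠ n in atTop, r / 2 < ‖off (ζ (φ n)) * ell (t (φ n)) / t (φ n)‖ :=
          hxnorm.eventually_const_lt (by linarith)
        filter_upwards [h5] with n hn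
        have ht := t2_pos h' n
        have h6 := hv n
        have h7 := t2_ell_norm ((t ∘ φ) n)
        have h8 : ‖off ((ζ ∘ φ) n)‖ ^ 3 * (2 * ‖(t ∘ φ) n‖) =
            ‖off (ζ (φ n)) * ell (t (φ n)) / t (φ n)‖ ^ 3 * ‖(t ∘ φ) n‖ ^ 3 := by
          rw [← h7, ← mul_pow, h6, mul_pow]
        have h9 : (r / 2) ^ 3 ≤ ‖off (ζ (φ n)) * ell (t (φ n)) / t (φ n)‖ ^ 3 :=
          pow_le_pow_left₀ (by positivity) hn.le 3
        have h10 : (r / 2) ^ 3 * ‖(t ∘ φ) n‖ ^ 3 ≤ ‖off ((ζ ∘ φ) n)‖ ^ 3 * (2 * ‖(t ∘ φ) n‖) := by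
          rw [h8]
          exact mul_le_mul_of_nonneg_right h9 (by positivity)
        have h11 : (r ^ 3 / 16 * ‖(t ∘ φ) n‖ ^ 2) * (2 * ‖(t ∘ φ) n‖)
            ≤ ‖off ((ζ ∘ φ) n)‖ ^ 3 * (2 * ‖(t ∘ φ) n‖) := by
          refine le_trans (le_of_eq ?_) h10
          ring
        exact le_of_mul_le_mul_right h11 (by positivity)
      · rw [hAi] at hA
        have h5 := hA.norm
        rw [norm_zero] at h5
        have h6 : ∀ᶠ n in atTop, ‖Ev ((t ∘ φ) n) ((ζ ∘ φ) n) /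
            (sz ((t ∘ φ) n) ((ζ ∘ φ) n) * ell ((t ∘ φ) n))‖ < 1 :=
          h5.eventually_lt_const one_pos
        have h7 : ∀ᶠ n in atTop, ‖ell ((t ∘ φ) n)‖ < 1 := hell.eventually_lt_const one_pos
        filter_upwards [h6, h7] with n h6 h7
        have hs' : 0 < ‖sz ((t ∘ φ) n) ((ζ ∘ φ) n)‖ := norm_pos_iff.2 (hsz n)
        have hl : 0 < ‖ell ((t ∘ φ) n)‖ := norm_pos_iff.2 (helln n)
        rw [norm_div, norm_mul, div_lt_one (by positivity)] at h6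
        have h8 : 1 ≤ Real.exp (‖off ((ζ ∘ φ) n)‖ * √‖off ((ζ ∘ φ) n)‖ / ‖(t ∘ φ) n‖) :=
          Real.one_le_exp (by positivity)
        have h9 : ‖sz ((t ∘ φ) n) ((ζ ∘ φ) n)‖ * ‖ell ((t ∘ φ) n)‖
            ≤ ‖sz ((t ∘ φ) n) ((ζ ∘ φ) n)‖ * 1 := mul_le_mul_of_nonneg_left h7.le hs'.le
        have h10 : ‖sz ((t ∘ φ) n) ((ζ ∘ φ) n)‖ * 1 ≤ ‖sz ((t ∘ φ) n) ((ζ ∘ φ) n)‖ *
            Real.exp (‖off ((ζ ∘ φ) n)‖ * √‖off ((ζ ∘ φ) n)‖ / ‖(t ∘ φ) n‖) :=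
          mul_le_mul_of_nonneg_left h8 hs'.le
        linarith
    · refine tip_ratio hg0 hg1 h' (fun n => hE (φ n)) (fun n => hD (φ n)) ?_ ?_
      · filter_upwards [hA.eventually_ne hAi] with n hn h0
        apply hn
        rw [h0, zero_div]
      · have h1 : Tendsto (fun n => ell ((t ∘ φ) n)) atTop (𝓝 0) :=
          tendsto_zero_iff_norm_tendsto_zero.2 hell
        have h2 := (hB.div hA hAi).mul h1
        rw [mul_zero] at h2
        refine h2.congr' ?_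
        filter_upwards [hA.eventually_ne hAi] with n hn
        have hs' := hsz n
        have hl' := helln n
        have hE1 : Ev ((t ∘ φ) n) ((ζ ∘ φ) n) ≠ 0 := by
          intro h0
          apply hn
          rw [h0, zero_div]
        simp only [Pi.div_apply]
        field_simp
  · have h' := par_comp h hφ
    by_cases h1 : v0 * cexp (2 * (I.arg : ℂ) / 3 * I) = -1
    · -- two saddle points
      obtain ⟨R1, hR1⟩ := cubic_two_conn hI1 hI2 hI3 hv0 h1 (δ := 1 / 2) (by norm_num)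
      obtain ⟨F, hF1, hF2, hF3, hF4, hF5⟩ := tip_red h' hI1 tipConn_I hs
      obtain ⟨C, hC⟩ := hF5 (max 6 R1) (le_max_left _ _)
      have hch : Chain F.u0 F.Ψ0 (1 / 2) (1 / 2) (((max 6 R1 : ℝ) : ℂ) * em I) []
          (((max 6 R1 : ℝ) : ℂ) * ep I) := by
        rw [hF1, hF3]
        exact Chain.nil (hR1 _ (le_max_right _ _))
      obtain ⟨⟨C1, hC1⟩, -⟩ := chain_nil F hch
      have hv0' : -v0 * I = cexp ((Real.pi / 6 : ℝ) * I) := by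
        rw [Complex.arg_I] at h1
        have e1 : cexp (2 * ((Real.pi / 2 : ℝ) : ℂ) / 3 * I) * cexp (-((Real.pi / 3 : ℝ) : ℂ) * I)
            = 1 := by
          rw [← Complex.exp_add, ← Complex.exp_zero]
          congr 1
          push_cast
          ring
        have e2 : v0 = -cexp (-((Real.pi / 3 : ℝ) : ℂ) * I) := by
          calc v0 = v0 * (cexp (2 * ((Real.pi / 2 : ℝ) : ℂ) / 3 * I) *
                cexp (-((Real.pi / 3 : ℝ) : ℂ) * I)) := by rw [e1, mul_one]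
            _ = (v0 * cexp (2 * ((Real.pi / 2 : ℝ) : ℂ) / 3 * I)) *
                cexp (-((Real.pi / 3 : ℝ) : ℂ) * I) := by ring
            _ = _ := by rw [h1]; ring
        have e3 : I = cexp ((Real.pi / 2 : ℝ) * I) := by
          rw [Complex.ofReal_div, Complex.ofReal_ofNat, Complex.exp_pi_div_two_mul_I]
        calc -v0 * I = cexp (-((Real.pi / 3 : ℝ) : ℂ) * I) * I := by rw [e2]; ring
          _ = cexp (-((Real.pi / 3 : ℝ) : ℂ) * I) * cexp ((Real.pi / 2 : ℝ) * I) := by rw [← e3]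
          _ = _ := by
            rw [← Complex.exp_add]
            congr 1
            push_cast
            ring
      refine tip_size (c1 := 1 / 2) (c3 := 1) (C := |C1| + |C|) hg0 h' (fun n => hE (φ n))
        (by norm_num) one_pos ?_ ?_ ?_
      · have h2 := (Complex.continuous_re.tendsto _).comp (hs.dir.neg.mul h'.dir)
        rw [hv0', t2_cos] at h2
        have h3 : (1 / 2 : ℝ) < √3 / 2 := by
          have := t2_sqrt3
          linarith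
        filter_upwards [h2.eventually_const_lt h3] with n hn
        have hv : 0 < ‖off ((ζ ∘ φ) n)‖ := norm_pos_iff.2 (hs.ne n)
        have hv' : ((‖off ((ζ ∘ φ) n)‖ : ℝ) : ℂ) ≠ 0 := by exact_mod_cast hv.ne'
        have e1 : -off ((ζ ∘ φ) n) * ((‖(t ∘ φ) n‖ : ℂ) / (t ∘ φ) n) =
            ((‖off ((ζ ∘ φ) n)‖ : ℝ) : ℂ) * (-(off ((ζ ∘ φ) n) / ‖off ((ζ ∘ φ) n)‖) *
              ((‖(t ∘ φ) n‖ : ℂ) / (t ∘ φ) n)) := by
          field_simp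
        rw [e1, Complex.re_ofReal_mul]
        have h4 : (1 / 2 : ℝ) < (-(off ((ζ ∘ φ) n) / ‖off ((ζ ∘ φ) n)‖) *
              ((‖(t ∘ φ) n‖ : ℂ) / (t ∘ φ) n)).re := hn
        have h5 := mul_le_mul_of_nonneg_left h4.le hv.le
        linarith
      · have h2 : ∀ᶠ n in atTop, ‖(t ∘ φ) n‖ / √‖off ((ζ ∘ φ) n)‖ ^ 3 < 1 :=
          hs.big.eventually_lt_const one_pos
        filter_upwards [h2] with n hn
        have hv : 0 < ‖off ((ζ ∘ φ) n)‖ := norm_pos_iff.2 (hs.ne n)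
        have hv2 : 0 < √‖off ((ζ ∘ φ) n)‖ := Real.sqrt_pos.2 hv
        rw [div_lt_one (by positivity)] at hn
        have h3 : ‖(t ∘ φ) n‖ ^ 2 ≤ (√‖off ((ζ ∘ φ) n)‖ ^ 3) ^ 2 :=
          pow_le_pow_left₀ (norm_nonneg _) hn.le 2
        have h4 : (√‖off ((ζ ∘ φ) n)‖ ^ 3) ^ 2 = ‖off ((ζ ∘ φ) n)‖ ^ 3 := by
          rw [← pow_mul, mul_comm, pow_mul, Real.sq_sqrt hv.le]
        rw [one_mul]
        linarith
      · have h2 : ∀ᶠ n in atTop, √‖off ((ζ ∘ φ) n)‖ < 1 := by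
          have h5 := hs.lim.norm
          rw [norm_zero] at h5
          have h6 := (Real.continuous_sqrt.tendsto 0).comp h5
          rw [Real.sqrt_zero] at h6
          exact h6.eventually_lt_const one_pos
        filter_upwards [hC, hC1, h2] with n hC hC1 h2
        have hv : 0 < ‖off ((ζ ∘ φ) n)‖ := norm_pos_iff.2 (hs.ne n)
        have hv2 : 0 < √‖off ((ζ ∘ φ) n)‖ := Real.sqrt_pos.2 hv
        have ht := t2_pos h' n
        have hs' : 0 < ‖sz ((t ∘ φ) n) ((ζ ∘ φ) n)‖ := norm_pos_iff.2 (Complex.exp_ne_zero _)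
        have hτ : F.τ n = ‖(t ∘ φ) n‖ / √‖off ((ζ ∘ φ) n)‖ ^ 3 := hF4 n
        have hτp := F.hτ n
        obtain ⟨X, hX⟩ : ∃ X, X = Real.exp (‖off ((ζ ∘ φ) n)‖ * √‖off ((ζ ∘ φ) n)‖ / ‖(t ∘ φ) n‖) :=
          ⟨_, rfl⟩
        have hXe : ‖off ((ζ ∘ φ) n)‖ * √‖off ((ζ ∘ φ) n)‖ / ‖(t ∘ φ) n‖ = 1 / F.τ n := by
          rw [hτ, one_div, inv_div]
          congr 1
          have := Real.sq_sqrt hv.le
          calc ‖off ((ζ ∘ φ) n)‖ * √‖off ((ζ ∘ φ) n)‖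
              = √‖off ((ζ ∘ φ) n)‖ ^ 2 * √‖off ((ζ ∘ φ) n)‖ := by rw [this]
            _ = _ := by ring
        have hX1 : Real.exp (1 / 2 / F.τ n) ≤ X := by
          rw [hX, hXe]
          refine Real.exp_le_exp.2 ?_
          exact div_le_div_of_nonneg_right (by norm_num) hτp.le
        have hX2 : Real.exp (-((max 6 R1) ^ 3 / 20) / F.τ n) ≤ X := by
          rw [hX, hXe]
          refine Real.exp_le_exp.2 ?_
          refine div_le_div_of_nonneg_right ?_ hτp.le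
          have : 0 < max 6 R1 := lt_of_lt_of_le (by norm_num) (le_max_left _ _)
          have : 0 < (max 6 R1) ^ 3 := by positivity
          linarith
        have hXp : 0 < X := by rw [hX]; exact Real.exp_pos _
        obtain ⟨D, hDd⟩ : ∃ D, D = F.P n (((max 6 R1 : ℝ) : ℂ) * ep I) -
          F.P n (((max 6 R1 : ℝ) : ℂ) * em I) := ⟨_, rfl⟩
        rw [← hDd] at hC1
        have hC' := hC.1
        rw [← hDd] at hC'
        obtain ⟨Y, hY⟩ : ∃ Y, Y = Ev ((t ∘ φ) n) ((ζ ∘ φ) n) /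
          (sz ((t ∘ φ) n) ((ζ ∘ φ) n) * √‖off ((ζ ∘ φ) n)‖) := ⟨_, rfl⟩
        rw [← hY] at hC'
        have hYn : ‖Y‖ ≤ (|C1| + |C|) * X := by
          have e : Y = (Y - D) + D := by ring
          rw [e]
          refine (norm_add_le _ _).trans ?_
          have g1 : ‖Y - D‖ ≤ |C| * X := by
            refine hC'.trans ?_
            refine mul_le_mul (le_abs_self C) hX2 (Real.exp_pos _).le (abs_nonneg _)
          have g2 : ‖D‖ ≤ |C1| * X := by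
            refine hC1.trans ?_
            refine mul_le_mul (le_abs_self C1) hX1 (Real.exp_pos _).le (abs_nonneg _)
          linarith
        have hEv : Ev ((t ∘ φ) n) ((ζ ∘ φ) n) = Y *
            (sz ((t ∘ φ) n) ((ζ ∘ φ) n) * √‖off ((ζ ∘ φ) n)‖) := by
          rw [hY, div_mul_cancel₀]
          refine mul_ne_zero (Complex.exp_ne_zero _) ?_
          exact_mod_cast hv2.ne'
        rw [hEv, norm_mul, norm_mul, Complex.norm_real, Real.norm_eq_abs, abs_of_pos hv2, ← hX]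
        have h8 : ‖sz ((t ∘ φ) n) ((ζ ∘ φ) n)‖ * √‖off ((ζ ∘ φ) n)‖
            ≤ ‖sz ((t ∘ φ) n) ((ζ ∘ φ) n)‖ * 1 := mul_le_mul_of_nonneg_left h2.le hs'.le
        calc ‖Y‖ * (‖sz ((t ∘ φ) n) ((ζ ∘ φ) n)‖ * √‖off ((ζ ∘ φ) n)‖)
            ≤ ((|C1| + |C|) * X) * (‖sz ((t ∘ φ) n) ((ζ ∘ φ) n)‖ * 1) :=
              mul_le_mul hYn h8 (by positivity) (by positivity)
          _ = _ := by ring
    · obtain ⟨h2, h3⟩ := scale_one h' hI1 hI2 hI3 tipConn_I hs hv0 h1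
      exact tip_ratio hg0 hg1 h' (fun n => hE (φ n)) (fun n => hD (φ n)) h2 h3

end SokalV
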