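import Pool.Agent.Lib_MP_af4de1_v.Tree
import Pool.Agent.Lib_MP_af4de1_u.Lifts

/-!
# `N = 2`: zeros with `‖z‖‖1+q‖ < 1/e` are simple [SV-TREE2]

`lifts 2` (`N = 2`, `m0 = 0`): `F = g0 E(w0) + g1 E(w1)`, `w1 = cexp(πI) w0 = -w0`, `z F(qz) = g0 DE(w0) + g1 DE(w1)`, and
`DE t w = w E(e^{-t}w) = w e^{y} E(w)` with `y` from `tree` (`q' = cexp (-t)`, `‖w‖ = ‖z‖`).  If both vanish:
`g0 E(w0) = -g1 E(w1)`, `0 = w0 (e^{y0} g0 E(w0) - e^{y1} g1 E(w1)) = w0 g0 E(w0)(e^{y0} + e^{y1})`; `w0 ≠ 0` (`F q 0 = 1`), `g0 ≠ 0`, `E(w0) ≠ 0`,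
and `Re e^{y} = e^{Re y} cos(Im y) > 0` for `‖y‖ < 1`: contradiction.
-/

namespace SokalV

open Complex

theorem tree_two {a : ℤ} (ha : IsCoprime a (2 : ℤ)) {t z : ℂ} (ht : 0 ≤ t.re)
    (h : ‖z‖ * ‖1 - cexp (-t)‖ < Real.exp (-1))
    (hF : SokalF.F (cexp (2 * Real.pi * I * a / (2 : ℕ)) * cexp (-t)) z = 0)
    (hF' : SokalF.F (cexp (2 * Real.pi * I * a / (2 : ℕ)) * cexp (-t))
      (cexp (2 * Real.pi * I * a / (2 : ℕ)) * cexp (-t) * z) = 0) : False := by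
  obtain ⟨g, ε, g0, hg0, hg, hl⟩ := SokalU.lifts 2 (by norm_num) a (by simpa using ha)
  obtain ⟨h1, h2⟩ := hl t z 0 ht
  rw [hF] at h1
  rw [hF', mul_zero] at h2
  have hI : Finset.Ico (0 : ℤ) (0 + ((2 : ℕ) : ℤ)) = {0, 1} := by decide
  rw [hI, Finset.sum_pair (by norm_num)] at h1 h2
  set w0 : ℂ := cexp (2 * Real.pi * (((0 : ℤ) : ℂ) + ε) / ((2 : ℕ) : ℂ) * I) * z with hw0
  have hw1 : cexp (2 * Real.pi * (((1 : ℤ) : ℂ) + ε) / ((2 : ℕ) : ℂ) * I) * z = -w0 := by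
    have h3 : (2 * Real.pi * (((1 : ℤ) : ℂ) + ε) / ((2 : ℕ) : ℂ) * I : ℂ) =
        2 * Real.pi * (((0 : ℤ) : ℂ) + ε) / ((2 : ℕ) : ℂ) * I + Real.pi * I := by
      push_cast
      ring
    rw [h3, Complex.exp_add, Complex.exp_pi_mul_I, hw0]
    ring
  rw [hw1] at h1 h2
  have hz : z ≠ 0 := by
    intro hz
    rw [hz, SokalF.F_zero] at hF
    exact one_ne_zero hF
  have hnw : ‖w0‖ = ‖z‖ := by
    have h3 : (2 * Real.pi * (((0 : ℤ) : ℂ) + ε) / ((2 : ℕ) : ℂ) * I : ℂ) = ((Real.pi * ε : ℝ) : ℂ) * I := by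
      push_cast
      ring
    rw [hw0, norm_mul, h3, Complex.norm_exp_ofReal_mul_I, one_mul]
  have hw : w0 ≠ 0 := by
    rw [← norm_ne_zero_iff, hnw]
    exact norm_ne_zero_iff.2 hz
  have hq : ‖cexp (-t)‖ ≤ 1 := SokalU.norm_exp_neg_le ht
  obtain ⟨n0, y0, hy0, _, e0⟩ := tree (z := w0) hq (by rw [hnw]; exact h)
  obtain ⟨n1, y1, hy1, _, e1⟩ := tree (z := -w0) hq (by rw [norm_neg, hnw]; exact h)
  unfold SokalU.DE SokalU.E at h2
  unfold SokalU.E at h1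
  rw [e0, e1] at h2
  have hre : ∀ y : ℂ, ‖y‖ < 1 → 0 < (cexp y).re := by
    intro y hy
    rw [Complex.exp_re]
    refine mul_pos (Real.exp_pos _) (Real.cos_pos_of_mem_Ioo ?_)
    have h3 := (abs_le.1 (Complex.abs_im_le_norm y))
    have h4 := Real.pi_gt_three
    constructor
    · linarith [h3.1]
    · linarith [h3.2]
  have hsum : cexp y0 + cexp y1 ≠ 0 := by
    intro h3
    have h4 := congrArg Complex.re h3
    rw [Complex.add_re, Complex.zero_re] at h4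
    linarith [hre y0 hy0, hre y1 hy1]
  have hg' : g 0 ≠ 0 := by
    rw [← norm_ne_zero_iff, hg 0]
    exact hg0.ne'
  have hfin : w0 * (g 0 * SokalF.F (cexp (-t)) w0) * (cexp y0 + cexp y1) = 0 := by
    linear_combination (-1 : ℂ) * h2 - w0 * cexp y1 * h1
  rcases mul_eq_zero.1 hfin with h3 | h3
  · rcases mul_eq_zero.1 h3 with h4 | h4
    · exact hw h4
    · exact (mul_ne_zero hg' n0) h4
  · exact hsum h3

end SokalV
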