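import Pool.Agent.Lib_MP_af4de1_v.Tree
import Pool.Agent.Lib_MP_af4de1_u.RootUnity

/-!
# `t z → 0` for `N ≥ 3` [SV-TREE3]

(1) Let `δ > 0` be small, `‖t‖ ≤ δ`, `‖t‖‖w‖ ≤ δ`: `‖w‖‖1-e^{-t}‖ ≤ 2‖t‖‖w‖ ≤ 2δ`, so by `tree` `E t (e^{-t}w) = e^{y}E t w` with `‖y‖ ≤ 6δ`
(`‖y‖ e^{-‖y‖} ≤ 2δ`, `‖y‖ < 1`), `E t w ≠ 0` and `DE t w = w e^y E t w`.  Hence along the ray `s ↦ E t (sw)`, `0 ≤ s ≤ 1`, the
logarithmic derivative is `w e^{y_s}`, `E t 0 = 1`: `|log ‖E t w‖ - Re w| ≤ 12δ‖w‖`.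
(2) As in `RootUnity.lean`: `z = r e^{iβ}`, `w_m = e^{2πi(m+ε)/N}z = r e^{iη_m}`, window of `N` lifts with `|η_m| ≤ π`, `μ` the nearest to
`0` (`|η_μ| ≤ π/N`), `ν` the second (`|η_ν| ≤ 2π/N`), all others `|η_m| ≥ 2π/N`.  `T_m = g_m E(w_m)`, `‖T_m‖ ≤ g0 exp(r cos η_m + 12δr)`,
`‖T_μ‖ ≥ g0 exp(r cos(π/N) - 12δr)`.  `0 = ∑ (w_m e^{y_m} - w_ν e^{y_ν}) T_m`:
`‖w_μe^{y_μ} - w_νe^{y_ν}‖‖T_μ‖ ≤ ∑_{m ≠ μ,ν} 6r‖T_m‖ ≤ 6rN exp(-r(cos(π/N) - cos(2π/N) - 24δ))‖T_μ‖`, and the left factor is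
`≥ r(2 sin(π/N) - 24δ)`.  With `24δ ≤ min(sin(π/N), (cos(π/N)-cos(2π/N))/2)` impossible for large `r`.  (`N ≥ 3`.)
-/

namespace SokalV

open Complex

private theorem Tree3_re (θ : ℝ) (z : ℂ) :
    (cexp ((θ : ℂ) * I) * z).re = ‖z‖ * Real.cos (θ + arg z) := by
  have h : cexp ((θ : ℂ) * I) * z = (‖z‖ : ℂ) * cexp (((θ + arg z : ℝ) : ℂ) * I) := by
    conv_lhs => rw [← Complex.norm_mul_exp_arg_mul_I z]
    push_cast
    rw [add_mul, Complex.exp_add]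
    ring
  rw [h, Complex.re_ofReal_mul, Complex.exp_ofReal_mul_I_re]

/-- `cos η ≤ cos h` for `η ∈ [h, 2π - h]`. -/
private theorem Tree3_cos {h η : ℝ} (h0 : 0 ≤ h) (h1 : h ≤ η)
    (h2 : η ≤ 2 * Real.pi - h) : Real.cos η ≤ Real.cos h := by
  rcases le_total η Real.pi with h3 | h3
  · exact Real.cos_le_cos_of_nonneg_of_le_pi h0 h3 h1
  · rw [← Real.cos_two_pi_sub η]
    exact Real.cos_le_cos_of_nonneg_of_le_pi h0 (by linarith) (by linarith)

/-- The tree bound in terms of `E`. -/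
private theorem Tree3_y {δ : ℝ} (hδ : δ ≤ 1 / 24) {t w : ℂ} (ht : 0 ≤ t.re) (htδ : ‖t‖ ≤ δ)
    (hw : ‖t‖ * ‖w‖ ≤ δ) : SokalU.E t w ≠ 0 ∧ ∃ y : ℂ, ‖cexp y - 1‖ ≤ 12 * δ ∧
      SokalU.E t (cexp (-t) * w) = cexp y * SokalU.E t w := by
  have hδ0 : 0 ≤ δ := (norm_nonneg t).trans htδ
  have h1 : ‖1 - cexp (-t)‖ ≤ 2 * ‖t‖ := by
    rw [norm_sub_rev]
    have h2 := Complex.norm_exp_sub_one_le (x := -t) (by rw [norm_neg]; linarith)
    rwa [norm_neg] at h2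
  have h3 : ‖w‖ * ‖1 - cexp (-t)‖ ≤ 2 * δ := by
    calc ‖w‖ * ‖1 - cexp (-t)‖ ≤ ‖w‖ * (2 * ‖t‖) :=
          mul_le_mul_of_nonneg_left h1 (norm_nonneg _)
      _ = 2 * (‖t‖ * ‖w‖) := by ring
      _ ≤ 2 * δ := by linarith
  have he : Real.exp 1 < 3 := lt_trans Real.exp_one_lt_d9 (by norm_num)
  have h4 : (1 : ℝ) / 3 < Real.exp (-1) := by
    rw [Real.exp_neg, ← one_div]
    exact one_div_lt_one_div_of_lt (Real.exp_pos 1) he
  obtain ⟨h5, y, hy1, hy2, hy3⟩ := tree (q := cexp (-t)) (z := w) (SokalU.norm_exp_neg_le ht)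
    (by linarith)
  refine ⟨h5, y, ?_, hy3⟩
  have h6 : ‖y‖ ≤ 6 * δ := by
    have h7 : ‖y‖ * Real.exp (-‖y‖) ≤ 2 * δ := hy2.trans h3
    have h8 : Real.exp ‖y‖ ≤ 3 := by
      have : Real.exp ‖y‖ ≤ Real.exp 1 := Real.exp_le_exp.2 hy1.le
      linarith
    have h9 : ‖y‖ = ‖y‖ * Real.exp (-‖y‖) * Real.exp ‖y‖ := by
      rw [mul_assoc, ← Real.exp_add, neg_add_cancel, Real.exp_zero, mul_one]
    rw [h9]
    calc ‖y‖ * Real.exp (-‖y‖) * Real.exp ‖y‖ ≤ 2 * δ * 3 := by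
          apply mul_le_mul h7 h8 (Real.exp_pos _).le (by linarith)
      _ = 6 * δ := by ring
  have h10 := Complex.norm_exp_sub_one_le (x := y) hy1.le
  linarith

/-- Gronwall along a ray. -/
private theorem Tree3_gronwall {K : ℝ} {f f' : ℝ → ℂ} (hf : ∀ s ∈ Set.Icc (0 : ℝ) 1, HasDerivAt f (f' s) s)
    (h0 : ‖f 0‖ ≤ 1) (hb : ∀ s ∈ Set.Icc (0 : ℝ) 1, ‖f' s‖ ≤ K * ‖f s‖) : ‖f 1‖ ≤ Real.exp K := by
  have h1 := norm_le_gronwallBound_of_norm_deriv_right_le (f := f) (f' := f') (δ := 1) (K := K)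
    (ε := 0) (a := 0) (b := 1) (fun s hs => (hf s hs).continuousAt.continuousWithinAt)
    (fun s hs => (hf s (Set.Ico_subset_Icc_self hs)).hasDerivWithinAt) h0
    (fun s hs => by rw [add_zero]; exact hb s (Set.Ico_subset_Icc_self hs)) 1
    (Set.right_mem_Icc.2 zero_le_one)
  rw [gronwallBound_ε0, sub_zero, one_mul, mul_one] at h1
  exact h1

/-- `‖E t w‖` is `exp (Re w)` up to `exp (12 δ ‖w‖)`. -/
private theorem Tree3_size {δ : ℝ} (hδ : δ ≤ 1 / 24) {t w : ℂ} (ht : 0 ≤ t.re) (htδ : ‖t‖ ≤ δ)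
    (hw : ‖t‖ * ‖w‖ ≤ δ) : ‖SokalU.E t w‖ ≤ Real.exp (w.re + 12 * δ * ‖w‖) ∧
      Real.exp (w.re - 12 * δ * ‖w‖) ≤ ‖SokalU.E t w‖ := by
  have hδ0 : 0 ≤ δ := (norm_nonneg t).trans htδ
  have key : ∀ s : ℝ, ∃ y : ℂ, s ∈ Set.Icc (0 : ℝ) 1 → SokalU.E t (s * w) ≠ 0 ∧
      ‖cexp y - 1‖ ≤ 12 * δ ∧
      SokalU.E t (cexp (-t) * (s * w)) = cexp y * SokalU.E t (s * w) := by
    intro s
    by_cases hs : s ∈ Set.Icc (0 : ℝ) 1
    · have h1 : ‖t‖ * ‖(s : ℂ) * w‖ ≤ δ := by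
        rw [norm_mul, Complex.norm_real, Real.norm_eq_abs, abs_of_nonneg hs.1]
        refine le_trans ?_ hw
        apply mul_le_mul_of_nonneg_left _ (norm_nonneg _)
        exact mul_le_of_le_one_left (norm_nonneg _) hs.2
      obtain ⟨h2, y, h3, h4⟩ := Tree3_y hδ ht htδ h1
      exact ⟨y, fun _ => ⟨h2, h3, h4⟩⟩
    · exact ⟨0, fun h => absurd h hs⟩
  choose y hy using key
  set φ : ℝ → ℂ := fun s => SokalU.E t (s * w) * cexp (-(s * w)) with hφ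
  have hφd : ∀ s ∈ Set.Icc (0 : ℝ) 1, HasDerivAt φ (w * (cexp (y s) - 1) * φ s) s := by
    intro s hs
    have h1 : HasDerivAt (fun s : ℝ => (s : ℂ) * w) (1 * w) s :=
      (Complex.ofRealCLM.hasDerivAt (x := s)).mul_const w
    have h2 : HasDerivAt (fun s : ℝ => SokalU.E t (s * w))
        (SokalU.E t (cexp (-t) * (s * w)) * (1 * w)) s :=
      HasDerivAt.comp_of_eq (h₂ := SokalU.E t) s (SokalU.hasDerivAt_E ht _) h1 rfl
    have h3 : HasDerivAt (fun s : ℝ => cexp (-(s * w))) (cexp (-(s * w)) * (-(1 * w))) s :=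
      h1.neg.cexp
    refine (h2.mul h3).congr_deriv ?_
    rw [(hy s hs).2.2, hφ]
    ring
  have hφ0 : φ 0 = 1 := by
    rw [hφ]
    simp only [Complex.ofReal_zero, zero_mul, neg_zero, Complex.exp_zero, mul_one]
    exact SokalF.F_zero _
  have hφ1 : φ 1 = SokalU.E t w * cexp (-w) := by
    rw [hφ]
    simp only [Complex.ofReal_one, one_mul]
  have hφne : ∀ s ∈ Set.Icc (0 : ℝ) 1, φ s ≠ 0 := fun s hs =>
    mul_ne_zero (hy s hs).1 (Complex.exp_ne_zero _)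
  have hbd : ∀ s ∈ Set.Icc (0 : ℝ) 1, ‖w * (cexp (y s) - 1)‖ ≤ 12 * δ * ‖w‖ := by
    intro s hs
    rw [norm_mul, mul_comm]
    exact mul_le_mul_of_nonneg_right (hy s hs).2.1 (norm_nonneg _)
  have hup : ‖φ 1‖ ≤ Real.exp (12 * δ * ‖w‖) := by
    refine Tree3_gronwall hφd (by rw [hφ0, norm_one]) ?_
    intro s hs
    rw [norm_mul]
    exact mul_le_mul_of_nonneg_right (hbd s hs) (norm_nonneg _)
  have hlo : ‖(φ 1)⁻¹‖ ≤ Real.exp (12 * δ * ‖w‖) := by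
    refine Tree3_gronwall (f := fun s => (φ s)⁻¹) (fun s hs => (hφd s hs).inv (hφne s hs))
      (by rw [hφ0, inv_one, norm_one]) ?_
    intro s hs
    have h1 : -(w * (cexp (y s) - 1) * φ s) / φ s ^ 2 = -(w * (cexp (y s) - 1)) * (φ s)⁻¹ := by
      have := hφne s hs
      field_simp
    rw [h1, norm_mul, norm_neg]
    exact mul_le_mul_of_nonneg_right (hbd s hs) (norm_nonneg _)
  rw [hφ1, norm_mul, Complex.norm_exp, Complex.neg_re] at hup
  rw [hφ1, norm_inv, norm_mul, Complex.norm_exp, Complex.neg_re] at hlo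
  have hE : 0 < ‖SokalU.E t w‖ := by
    have h1 := (hy 1 (Set.right_mem_Icc.2 zero_le_one)).1
    rw [Complex.ofReal_one, one_mul] at h1
    exact norm_pos_iff.2 h1
  constructor
  · have h1 : ‖SokalU.E t w‖ = ‖SokalU.E t w‖ * Real.exp (-w.re) * Real.exp w.re := by
      rw [mul_assoc, ← Real.exp_add, neg_add_cancel, Real.exp_zero, mul_one]
    rw [h1, add_comm w.re, Real.exp_add]
    exact mul_le_mul_of_nonneg_right hup (Real.exp_pos _).le
  · have h2 : 0 < ‖SokalU.E t w‖ * Real.exp (-w.re) := mul_pos hE (Real.exp_pos _)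
    have h3 : 1 ≤ Real.exp (12 * δ * ‖w‖) * (‖SokalU.E t w‖ * Real.exp (-w.re)) := by
      rwa [inv_le_iff_one_le_mul₀ h2] at hlo
    have h4 : Real.exp (w.re - 12 * δ * ‖w‖) =
        Real.exp (w.re - 12 * δ * ‖w‖) * 1 := (mul_one _).symm
    rw [h4]
    refine (mul_le_mul_of_nonneg_left h3 (Real.exp_pos _).le).trans (le_of_eq ?_)
    have h5 : Real.exp (w.re - 12 * δ * ‖w‖) * (Real.exp (12 * δ * ‖w‖) * Real.exp (-w.re)) = 1 := by
      rw [← Real.exp_add, ← Real.exp_add, ← Real.exp_zero]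
      congr 1
      ring
    calc _ = ‖SokalU.E t w‖ * (Real.exp (w.re - 12 * δ * ‖w‖) *
          (Real.exp (12 * δ * ‖w‖) * Real.exp (-w.re))) := by ring
      _ = ‖SokalU.E t w‖ := by rw [h5, mul_one]

/-- The main estimate: two consecutive terms, the first or the second is the large one. -/
private theorem Tree3_key {N : ℕ} (hN : 2 ≤ N) (g : ℤ → ℂ) {g0 : ℝ} (hg0 : 0 < g0)
    (hg : ∀ m, ‖g m‖ = g0) (θ : ℤ → ℝ) (hθ : ∀ m n : ℤ, θ n = θ m + (n - m) * (2 * Real.pi / N))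
    {t z : ℂ} (ht : 0 ≤ t.re) {δ : ℝ} (hδ : δ ≤ 1 / 24) (htδ : ‖t‖ ≤ δ) (htz : ‖t‖ * ‖z‖ ≤ δ)
    (hδ1 : 24 * δ ≤ Real.sin (2 * Real.pi / N / 2))
    (hδ2 : 24 * δ ≤ (Real.cos (2 * Real.pi / N / 2) - Real.cos (2 * Real.pi / N)) / 2)
    (m0 : ℤ)
    (h1 : ∑ m ∈ Finset.Ico m0 (m0 + N), g m * SokalU.E t (cexp ((θ m : ℂ) * I) * z) = 0)
    (h2 : ∑ m ∈ Finset.Ico m0 (m0 + N), g m * SokalU.DE t (cexp ((θ m : ℂ) * I) * z) = 0)
    (hm1 : -(2 * Real.pi / N) ≤ θ m0 + arg z) (hm2 : θ m0 + arg z ≤ 0)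
    (μ ν : ℤ) (hμ : μ ∈ Finset.Ico m0 (m0 + N)) (hμν : |(μ : ℝ) - ν| = 1)
    (hoth : ∀ m ∈ Finset.Ico m0 (m0 + N), m ≠ μ → m ≠ ν → m0 + 2 ≤ m)
    (hμ2 : |θ μ + arg z| ≤ (2 * Real.pi / N) / 2) (hz : z ≠ 0) :
    Real.sin (2 * Real.pi / N / 2) * Real.exp (‖z‖ * ((Real.cos (2 * Real.pi / N / 2)
      - Real.cos (2 * Real.pi / N)) / 2)) ≤ 4 * N := by
  have hπ := Real.pi_pos
  have hNpos : (0 : ℝ) < N := by positivity
  have hN2 : (2 : ℝ) ≤ N := by exact_mod_cast hN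
  have hδ0 : 0 ≤ δ := (norm_nonneg t).trans htδ
  set h : ℝ := 2 * Real.pi / N with hh
  have hh0 : 0 < h := by positivity
  have hhπ : h ≤ Real.pi := by
    rw [hh, div_le_iff₀ hNpos]
    nlinarith
  have hNh : N * h = 2 * Real.pi := by
    rw [hh]; field_simp
  have hr : 0 < ‖z‖ := norm_pos_iff.2 hz
  set w : ℤ → ℂ := fun m => cexp ((θ m : ℂ) * I) * z with hw
  have hwn : ∀ m, ‖w m‖ = ‖z‖ := by
    intro m
    rw [hw]
    simp only [norm_mul, Complex.norm_exp_ofReal_mul_I, one_mul]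
  have hy : ∀ m, ∃ y : ℂ, ‖cexp y - 1‖ ≤ 12 * δ ∧
      SokalU.DE t (w m) = w m * cexp y * SokalU.E t (w m) := by
    intro m
    obtain ⟨_, y, hy1, hy2⟩ := Tree3_y (w := w m) hδ ht htδ (by rw [hwn]; exact htz)
    refine ⟨y, hy1, ?_⟩
    change w m * SokalU.E t (cexp (-t) * w m) = _
    rw [hy2]
    exact (mul_assoc _ _ _).symm
  choose y hy1 hy2 using hy
  have hTu : ∀ m, ‖g m * SokalU.E t (w m)‖ ≤
      g0 * Real.exp (‖z‖ * Real.cos (θ m + arg z) + 12 * δ * ‖z‖) := by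
    intro m
    rw [norm_mul, hg]
    have h3 := (Tree3_size (w := w m) hδ ht htδ (by rw [hwn]; exact htz)).1
    rw [hwn] at h3
    have h4 : (w m).re = ‖z‖ * Real.cos (θ m + arg z) := Tree3_re _ _
    rw [h4] at h3
    exact mul_le_mul_of_nonneg_left h3 hg0.le
  have hTl : ∀ m, g0 * Real.exp (‖z‖ * Real.cos (θ m + arg z) - 12 * δ * ‖z‖) ≤
      ‖g m * SokalU.E t (w m)‖ := by
    intro m
    rw [norm_mul, hg]
    have h3 := (Tree3_size (w := w m) hδ ht htδ (by rw [hwn]; exact htz)).2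
    rw [hwn] at h3
    have h4 : (w m).re = ‖z‖ * Real.cos (θ m + arg z) := Tree3_re _ _
    rw [h4] at h3
    exact mul_le_mul_of_nonneg_left h3 hg0.le
  set W : ℤ → ℂ := fun m => w m * cexp (y m) with hW
  have hWw : ∀ m, ‖W m - w m‖ ≤ 12 * δ * ‖z‖ := by
    intro m
    have h3 : W m - w m = w m * (cexp (y m) - 1) := by
      rw [hW]; ring
    rw [h3, norm_mul, hwn, mul_comm]
    exact mul_le_mul_of_nonneg_right (hy1 m) (norm_nonneg _)
  have hWn : ∀ m, ‖W m‖ ≤ 2 * ‖z‖ := by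
    intro m
    have h3 : W m = (W m - w m) + w m := by ring
    rw [h3]
    refine (norm_add_le _ _).trans ?_
    have h4 := hWw m
    rw [hwn]
    nlinarith
  -- the combination
  have h3 : ∑ m ∈ Finset.Ico m0 (m0 + N), (W m - W ν) * (g m * SokalU.E t (w m)) = 0 := by
    have h4 : ∀ m, (W m - W ν) * (g m * SokalU.E t (w m))
        = g m * SokalU.DE t (w m) - W ν * (g m * SokalU.E t (w m)) := fun m => by
      rw [hy2]; ring
    simp only [h4, Finset.sum_sub_distrib, ← Finset.mul_sum]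
    rw [h1, h2]
    ring
  have h5 : (W μ - W ν) * (g μ * SokalU.E t (w μ))
      = - ∑ m ∈ (Finset.Ico m0 (m0 + N)).erase μ, (W m - W ν) * (g m * SokalU.E t (w m)) := by
    rw [← Finset.add_sum_erase _ _ hμ] at h3
    exact eq_neg_of_add_eq_zero_left h3
  have h6 : ∀ m ∈ (Finset.Ico m0 (m0 + N)).erase μ,
      ‖(W m - W ν) * (g m * SokalU.E t (w m))‖ ≤
        4 * ‖z‖ * (g0 * Real.exp (‖z‖ * Real.cos h + 12 * δ * ‖z‖)) := by
    intro m hm
    rw [Finset.mem_erase] at hm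
    by_cases hmν : m = ν
    · rw [hmν, sub_self, zero_mul, norm_zero]
      positivity
    · rw [norm_mul]
      have h7 := hoth m hm.2 hm.1 hmν
      have h8 := (Finset.mem_Ico.1 hm.2).2
      have h9 : ‖W m - W ν‖ ≤ 4 * ‖z‖ := by
        refine (norm_sub_le _ _).trans ?_
        have h9a := hWn m
        have h9b := hWn ν
        linarith
      have h10 : Real.cos (θ m + arg z) ≤ Real.cos h := by
        have h7' : (2 : ℝ) ≤ (m : ℝ) - m0 := by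
          have : ((m0 + 2 : ℤ) : ℝ) ≤ m := by exact_mod_cast h7
          push_cast at this
          linarith
        have h8' : (m : ℝ) - m0 ≤ N - 1 := by
          have : ((m + 1 : ℤ) : ℝ) ≤ ((m0 + N : ℤ) : ℝ) := by exact_mod_cast h8
          push_cast at this
          linarith
        rw [hθ m0 m]
        apply Tree3_cos hh0.le
        · nlinarith
        · nlinarith
      have h11 : ‖g m * SokalU.E t (w m)‖ ≤
          g0 * Real.exp (‖z‖ * Real.cos h + 12 * δ * ‖z‖) := by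
        refine (hTu m).trans ?_
        gcongr
      exact mul_le_mul h9 h11 (norm_nonneg _) (by positivity)
  have h11 : ‖(W μ - W ν) * (g μ * SokalU.E t (w μ))‖
      ≤ N * (4 * ‖z‖ * (g0 * Real.exp (‖z‖ * Real.cos h + 12 * δ * ‖z‖))) := by
    rw [h5, norm_neg]
    refine (norm_sum_le_of_le _ h6).trans ?_
    rw [Finset.sum_const, nsmul_eq_mul]
    have h12 : ((Finset.Ico m0 (m0 + (N : ℤ))).erase μ).card ≤ N := by
      refine (Finset.card_erase_le).trans ?_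
      simp
    have h13 : ((((Finset.Ico m0 (m0 + (N : ℤ))).erase μ).card : ℕ) : ℝ) ≤ N := by
      exact_mod_cast h12
    exact mul_le_mul_of_nonneg_right h13 (by positivity)
  have h14 : ‖w μ - w ν‖ = ‖z‖ * (2 * Real.sin (h / 2)) := by
    have h15 : w μ - w ν = (cexp ((θ μ : ℂ) * I) - cexp ((θ ν : ℂ) * I)) * z := by
      rw [hw]; ring
    have h16 : ‖cexp ((θ μ : ℂ) * I) - cexp ((θ ν : ℂ) * I)‖ = 2 * Real.sin (h / 2) := by
      have h17 : cexp ((θ μ : ℂ) * I) - cexp ((θ ν : ℂ) * I)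
          = cexp ((((θ μ + θ ν) / 2 : ℝ) : ℂ) * I) *
            (2 * (Real.sin ((θ μ - θ ν) / 2) : ℂ) * I) := by
        rw [Complex.ofReal_sin, Complex.sin]
        push_cast
        have h18 : cexp ((θ μ : ℂ) * I) = cexp (((θ μ : ℂ) + θ ν) / 2 * I) *
            cexp (((θ μ : ℂ) - θ ν) / 2 * I) := by
          rw [← Complex.exp_add]; congr 1; ring
        have h19 : cexp ((θ ν : ℂ) * I) = cexp (((θ μ : ℂ) + θ ν) / 2 * I) *
            cexp (-(((θ μ : ℂ) - θ ν) / 2) * I) := by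
          rw [← Complex.exp_add]; congr 1; ring
        rw [h18, h19]
        have h20 := Complex.I_mul_I
        linear_combination (-(cexp (((θ μ : ℂ) + θ ν) / 2 * I)) *
          (cexp (-(((θ μ : ℂ) - θ ν) / 2) * I) - cexp (((θ μ : ℂ) - θ ν) / 2 * I))) * h20
      rw [h17, norm_mul, Complex.norm_exp_ofReal_mul_I, one_mul, norm_mul, norm_mul,
        Complex.norm_I, mul_one, Complex.norm_ofNat, Complex.norm_real, Real.norm_eq_abs]
      congr 1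
      rw [hθ ν μ]
      have h21 : (θ ν + ((μ : ℝ) - ν) * h - θ ν) / 2 = ((μ : ℝ) - ν) * (h / 2) := by ring
      rw [h21]
      have h22 : 0 ≤ Real.sin (h / 2) :=
        Real.sin_nonneg_of_nonneg_of_le_pi (by positivity) (by linarith)
      rcases (abs_eq (zero_le_one)).1 hμν with h23 | h23
      · rw [h23, one_mul, abs_of_nonneg h22]
      · rw [h23, neg_one_mul, Real.sin_neg, abs_neg, abs_of_nonneg h22]
    rw [h15, norm_mul, h16, mul_comm]
  have h25 : 0 < Real.sin (h / 2) :=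
    Real.sin_pos_of_pos_of_lt_pi (by positivity) (by linarith)
  have h14' : ‖z‖ * Real.sin (h / 2) ≤ ‖W μ - W ν‖ := by
    have h15 : w μ - w ν = (W μ - W ν) - (W μ - w μ) + (W ν - w ν) := by ring
    have h16 : ‖w μ - w ν‖ ≤ ‖W μ - W ν‖ + ‖W μ - w μ‖ + ‖W ν - w ν‖ := by
      rw [h15]
      exact (norm_add_le _ _).trans (add_le_add (norm_sub_le _ _) le_rfl)
    rw [h14] at h16
    have h17 := hWw μ
    have h18 := hWw ν
    have h19 : 24 * δ * ‖z‖ ≤ Real.sin (h / 2) * ‖z‖ :=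
      mul_le_mul_of_nonneg_right hδ1 hr.le
    linarith
  have h24 : Real.cos (h / 2) ≤ Real.cos (θ μ + arg z) := by
    rw [← Real.cos_abs (θ μ + arg z)]
    exact Real.cos_le_cos_of_nonneg_of_le_pi (abs_nonneg _) (by linarith) hμ2
  have h26 : ‖z‖ * Real.sin (h / 2) * (g0 * Real.exp (‖z‖ * Real.cos (h / 2) - 12 * δ * ‖z‖))
      ≤ N * (4 * ‖z‖ * (g0 * Real.exp (‖z‖ * Real.cos h + 12 * δ * ‖z‖))) := by
    refine le_trans ?_ h11
    rw [norm_mul]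
    refine mul_le_mul h14' (le_trans ?_ (hTl μ)) (by positivity) (norm_nonneg _)
    gcongr
  have h27 : Real.exp (‖z‖ * ((Real.cos (h / 2) - Real.cos h) / 2)) ≤
      Real.exp (‖z‖ * Real.cos (h / 2) - 12 * δ * ‖z‖) /
        Real.exp (‖z‖ * Real.cos h + 12 * δ * ‖z‖) := by
    rw [← Real.exp_sub]
    apply Real.exp_le_exp.2
    have h28 : 24 * δ * ‖z‖ ≤ (Real.cos (h / 2) - Real.cos h) / 2 * ‖z‖ :=
      mul_le_mul_of_nonneg_right hδ2 hr.le
    linarith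
  refine (mul_le_mul_of_nonneg_left h27 h25.le).trans ?_
  rw [← mul_div_assoc, div_le_iff₀ (Real.exp_pos _)]
  have h28 : 0 < ‖z‖ * g0 := by positivity
  have h29 : ‖z‖ * g0 * (Real.sin (h / 2) * Real.exp (‖z‖ * Real.cos (h / 2) - 12 * δ * ‖z‖))
      ≤ ‖z‖ * g0 * (4 * N * Real.exp (‖z‖ * Real.cos h + 12 * δ * ‖z‖)) := by
    calc _ = ‖z‖ * Real.sin (h / 2) *
          (g0 * Real.exp (‖z‖ * Real.cos (h / 2) - 12 * δ * ‖z‖)) := by ring
      _ ≤ _ := h26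
      _ = _ := by ring
  exact le_of_mul_le_mul_left h29 h28

theorem tree_three {N : ℕ} (hN : 3 ≤ N) {a : ℤ} (ha : IsCoprime a (N : ℤ)) :
    ∃ δ : ℝ, 0 < δ ∧ ∃ R : ℝ, ∀ t z : ℂ, 0 ≤ t.re → ‖t‖ ≤ δ → ‖t‖ * ‖z‖ ≤ δ → R ≤ ‖z‖ →
      SokalF.F (cexp (2 * Real.pi * I * a / N) * cexp (-t)) z = 0 →
      SokalF.F (cexp (2 * Real.pi * I * a / N) * cexp (-t))
        (cexp (2 * Real.pi * I * a / N) * cexp (-t) * z) = 0 → False := by
  have hN0 : 0 < N := by omega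
  have hN2 : 2 ≤ N := by omega
  obtain ⟨g, ε, g0, hg0, hg, hlift⟩ := SokalU.lifts N hN0 a ha
  set θ : ℤ → ℝ := fun m => 2 * Real.pi * (m + ε) / N with hθdef
  have hcast : ∀ m : ℤ, (2 * Real.pi * ((m : ℂ) + ε) / N * I : ℂ) = (θ m : ℂ) * I := by
    intro m
    rw [hθdef]
    push_cast
    ring
  have hπ := Real.pi_pos
  have hNpos : (0 : ℝ) < N := by positivity
  have hN2' : (2 : ℝ) ≤ N := by exact_mod_cast hN2
  set h : ℝ := 2 * Real.pi / N with hh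
  have hh0 : 0 < h := by positivity
  have hhπ : h ≤ Real.pi := by
    rw [hh, div_le_iff₀ hNpos]
    nlinarith
  have hsin : 0 < Real.sin (h / 2) :=
    Real.sin_pos_of_pos_of_lt_pi (by positivity) (by linarith)
  have hcos : 0 < Real.cos (h / 2) - Real.cos h :=
    sub_pos.2 (Real.cos_lt_cos_of_nonneg_of_le_pi (by positivity) hhπ (by linarith))
  have hθ : ∀ m n : ℤ, θ n = θ m + (n - m) * (2 * Real.pi / N) := by
    intro m n
    simp only [hθdef]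
    field_simp
    ring
  refine ⟨min (Real.sin (h / 2)) ((Real.cos (h / 2) - Real.cos h) / 2) / 24, by positivity,
    8 * N / (Real.sin (h / 2) * (Real.cos (h / 2) - Real.cos h)), ?_⟩
  intro t z ht htδ htz hR hz1 hz2
  have hδ24 : 24 * (min (Real.sin (h / 2)) ((Real.cos (h / 2) - Real.cos h) / 2) / 24)
      = min (Real.sin (h / 2)) ((Real.cos (h / 2) - Real.cos h) / 2) := by ring
  have hδ1 : 24 * (min (Real.sin (h / 2)) ((Real.cos (h / 2) - Real.cos h) / 2) / 24) ≤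
      Real.sin (h / 2) := by
    rw [hδ24]; exact min_le_left _ _
  have hδ2 : 24 * (min (Real.sin (h / 2)) ((Real.cos (h / 2) - Real.cos h) / 2) / 24) ≤
      (Real.cos (h / 2) - Real.cos h) / 2 := by
    rw [hδ24]; exact min_le_right _ _
  obtain ⟨δ, hδ⟩ : ∃ δ, δ = min (Real.sin (h / 2)) ((Real.cos (h / 2) - Real.cos h) / 2) / 24 :=
    ⟨_, rfl⟩
  rw [← hδ] at htδ htz hδ1 hδ2
  have hδ3 : δ ≤ 1 / 24 := by
    have := Real.sin_le_one (h / 2)
    linarith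
  have hRpos : 0 < 8 * (N : ℝ) / (Real.sin (h / 2) * (Real.cos (h / 2) - Real.cos h)) := by
    positivity
  have hz : z ≠ 0 := norm_pos_iff.1 (hRpos.trans_le hR)
  -- the window
  set m0 : ℤ := ⌊-(θ 0 + arg z) / h⌋ with hm0
  have hm1 : θ m0 + arg z ≤ 0 := by
    have h1 : (m0 : ℝ) ≤ -(θ 0 + arg z) / h := Int.floor_le _
    rw [le_div_iff₀ hh0] at h1
    rw [hθ 0 m0]
    push_cast
    rw [← hh]
    linarith
  have hm2 : -h ≤ θ m0 + arg z := by
    have h1 : -(θ 0 + arg z) / h < m0 + 1 := Int.lt_floor_add_one _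
    rw [div_lt_iff₀ hh0] at h1
    rw [hθ 0 m0]
    push_cast
    rw [← hh]
    linarith
  have h1 : ∑ m ∈ Finset.Ico m0 (m0 + N), g m * SokalU.E t (cexp ((θ m : ℂ) * I) * z) = 0 := by
    have h1 := (hlift t z m0 ht).1
    simp only [hcast] at h1
    rw [← h1, hz1]
  have h2 : ∑ m ∈ Finset.Ico m0 (m0 + N), g m * SokalU.DE t (cexp ((θ m : ℂ) * I) * z) = 0 := by
    have h1 := (hlift t z m0 ht).2
    simp only [hcast] at h1
    rw [← h1, hz2, mul_zero]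
  have hkey : Real.sin (h / 2) * Real.exp (‖z‖ * ((Real.cos (h / 2) - Real.cos h) / 2)) ≤
      4 * N := by
    rcases le_total (-(h / 2)) (θ m0 + arg z) with hc | hc
    · refine Tree3_key hN2 g hg0 hg θ hθ ht hδ3 htδ htz hδ1 hδ2 m0 h1 h2 hm2 hm1 m0 (m0 + 1)
        ?_ ?_ ?_ ?_ hz
      · rw [Finset.mem_Ico]
        omega
      · push_cast
        rw [show (m0 : ℝ) - (m0 + 1) = -1 by ring, abs_neg, abs_one]
      · intro m hm h3 h4
        rw [Finset.mem_Ico] at hm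
        omega
      · rw [abs_le]
        constructor
        · exact hc
        · linarith
    · refine Tree3_key hN2 g hg0 hg θ hθ ht hδ3 htδ htz hδ1 hδ2 m0 h1 h2 hm2 hm1 (m0 + 1) m0
        ?_ ?_ ?_ ?_ hz
      · rw [Finset.mem_Ico]
        omega
      · push_cast
        rw [show (m0 : ℝ) + 1 - m0 = 1 by ring, abs_one]
      · intro m hm h3 h4
        rw [Finset.mem_Ico] at hm
        omega
      · have h5 : θ (m0 + 1) = θ m0 + h := by
          rw [hθ m0 (m0 + 1)]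
          push_cast
          ring
        rw [h5, abs_le]
        constructor
        · linarith
        · linarith
  have h6 := Real.add_one_le_exp (‖z‖ * ((Real.cos (h / 2) - Real.cos h) / 2))
  rw [div_le_iff₀ (by positivity)] at hR
  have h7 : Real.sin (h / 2) * (‖z‖ * ((Real.cos (h / 2) - Real.cos h) / 2) + 1) ≤ 4 * N :=
    (mul_le_mul_of_nonneg_left h6 hsin.le).trans hkey
  nlinarith

end SokalV
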