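import Pool.Agent.Lib_MP_af4de1_v.MT
import Pool.Agent.Lib_MP_af4de1_v.StaticG
import Pool.Agent.Lib_MP_af4de1_v.Pos
import Pool.Agent.Lib_MP_af4de1_v.N1
import Pool.Agent.Lib_MP_af4de1_v.Tree2
import Pool.Agent.Lib_MP_af4de1_v.Tree3
import Pool.Agent.Lib_MP_af4de1_v.Tip2
import Pool.Agent.Lib_MP_af4de1_u.Main

/-!
# Large multiple zeros near a root of unity with `t z` bounded
-/

namespace SokalV

open Complex Filter Topology

/-- The contour to the tip, if the top height is not positive. -/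
def TipHyp : Prop := ∀ u : ℂ, ‖u‖ = 1 → 0 < u.re → 0 ≤ u.im → ¬ TopPos u (-cexp (-1)) → TipConn u

section par

variable {t ζ : ℕ → ℂ} {ζ0 u0 : ℂ}

theorem Par.norm_dir (h : Par t ζ ζ0 u0) : ‖u0‖ = 1 := by
  have h1 := h.dir.norm
  have h2 : ∀ n, ‖(‖t n‖ : ℂ) / t n‖ = 1 := fun n => by
    rw [norm_div, Complex.norm_real, norm_norm, div_self (norm_ne_zero_iff.2 (h.ne n))]
  simp only [h2] at h1
  exact (tendsto_const_nhds_iff.1 h1).symm

theorem dir_re {w : ℂ} (h : 0 ≤ w.re) : 0 ≤ ((‖w‖ : ℂ) / w).re := by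
  rw [div_eq_mul_inv, Complex.re_ofReal_mul, Complex.inv_re]
  exact mul_nonneg (norm_nonneg _) (div_nonneg h (Complex.normSq_nonneg _))

theorem dir_im {w : ℂ} (h : w.im ≤ 0) : 0 ≤ ((‖w‖ : ℂ) / w).im := by
  rw [div_eq_mul_inv, Complex.im_ofReal_mul, Complex.inv_im]
  exact mul_nonneg (norm_nonneg _) (div_nonneg (neg_nonneg.2 h) (Complex.normSq_nonneg _))

theorem Par.dir_re (h : Par t ζ ζ0 u0) : 0 ≤ u0.re :=
  ge_of_tendsto ((Complex.continuous_re.tendsto _).comp h.dir)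
    (Eventually.of_forall fun n => SokalV.dir_re (h.re n))

theorem Par.dir_im (h : Par t ζ ζ0 u0) : 0 ≤ u0.im :=
  ge_of_tendsto ((Complex.continuous_im.tendsto _).comp h.dir)
    (Eventually.of_forall fun n => SokalV.dir_im (h.im n))

theorem Par.eq_I (h : Par t ζ ζ0 u0) (h0 : u0.re = 0) : u0 = I := by
  have h1 := h.norm_dir
  have h2 := h.dir_im
  have h3 : ‖u0‖ ^ 2 = u0.re ^ 2 + u0.im ^ 2 := by
    rw [Complex.sq_norm, Complex.normSq_apply]; ring
  rw [h1, h0] at h3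
  have h4 : u0.im = 1 := by nlinarith
  apply Complex.ext
  · simp [h0]
  · simp [h4]

theorem Par.neg (h : Par t ζ ζ0 u0) : Par t (fun n => -ζ n) (-ζ0) u0 :=
  ⟨h.ne, h.re, h.im, h.lim, h.dir, h.zet.neg⟩

end par

/-- `Ev` and `Dv` vanish with `E` and `DE`. -/
theorem comb_Ev {N : ℕ} {g : ℕ → ℂ} {t ζ : ℂ}
    (h : ∑ m ∈ Finset.range N, g m * SokalU.E t (lift N ζ m / t * cexp (-t / 2)) = 0) :
    ∑ m ∈ Finset.range N, g m * Ev t (lift N ζ m) = 0 := by
  have : ∑ m ∈ Finset.range N, g m * Ev t (lift N ζ m) =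
      (∑ m ∈ Finset.range N, g m * SokalU.E t (lift N ζ m / t * cexp (-t / 2))) *
        ((2 * Real.pi * t) ^ (1 / 2 : ℂ) * I) := by
    rw [Finset.sum_mul]
    refine Finset.sum_congr rfl fun m _ => ?_
    unfold Ev
    ring
  rw [this, h, zero_mul]

theorem comb_Dv {N : ℕ} {g : ℕ → ℂ} {t ζ : ℂ}
    (h : ∑ m ∈ Finset.range N, g m * SokalU.DE t (lift N ζ m / t * cexp (-t / 2)) = 0) :
    ∑ m ∈ Finset.range N, g m * Dv t (lift N ζ m) = 0 := by
  have : ∑ m ∈ Finset.range N, g m * Dv t (lift N ζ m) =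
      (∑ m ∈ Finset.range N, g m * SokalU.DE t (lift N ζ m / t * cexp (-t / 2))) *
        (t * (2 * Real.pi * t) ^ (1 / 2 : ℂ) * I) := by
    rw [Finset.sum_mul]
    refine Finset.sum_congr rfl fun m _ => ?_
    unfold Dv
    ring
  rw [this, h, zero_mul]

theorem lift_zero (N : ℕ) (ζ : ℂ) : lift N ζ 0 = ζ := by
  simp [lift]

theorem lift_two (ζ : ℂ) : lift 2 ζ 1 = -ζ := by
  have : (2 * Real.pi * I * (1 : ℕ) / (2 : ℕ) : ℂ) = Real.pi * I := by
    push_cast; ring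
  rw [lift, this, Complex.exp_pi_mul_I]
  ring

/-- The data of a sequence of multiple zeros. -/
structure Dat (N : ℕ) (a : ℤ) (t z ζ : ℕ → ℂ) (g : ℕ → ℂ) (ζ0 u0 : ℂ) : Prop where
  par : Par t ζ ζ0 u0
  zlim : Tendsto (fun n => ‖z n‖) atTop atTop
  nrm : ∀ n, ‖ζ n‖ = ‖t n‖ * ‖z n‖ * ‖cexp (t n / 2)‖
  gne : ∀ m, g m ≠ 0
  F0 : ∀ n, SokalF.F (cexp (2 * Real.pi * I * a / N) * cexp (-t n)) (z n) = 0
  F1 : ∀ n, SokalF.F (cexp (2 * Real.pi * I * a / N) * cexp (-t n))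
    (cexp (2 * Real.pi * I * a / N) * cexp (-t n) * z n) = 0
  hE : ∀ n, ∑ m ∈ Finset.range N, g m *
    SokalU.E (t n) (lift N (ζ n) m / t n * cexp (-t n / 2)) = 0
  hD : ∀ n, ∑ m ∈ Finset.range N, g m *
    SokalU.DE (t n) (lift N (ζ n) m / t n * cexp (-t n / 2)) = 0

section dat

variable {N : ℕ} {a : ℤ} {t z ζ : ℕ → ℂ} {g : ℕ → ℂ} {ζ0 u0 : ℂ}

theorem Dat.tz (h : Dat N a t z ζ g ζ0 u0) :
    Tendsto (fun n => ‖t n‖ * ‖z n‖) atTop (𝓝 ‖ζ0‖) := by
  have h1 : Tendsto (fun n => ‖cexp (t n / 2)‖) atTop (𝓝 1) := by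
    have : Tendsto (fun n => ‖cexp (t n / 2)‖) atTop (𝓝 ‖cexp (0 / 2)‖) :=
      ((Complex.continuous_exp.tendsto _).comp (h.par.lim.div_const 2)).norm
    simpa using this
  have h2 : Tendsto (fun n => ‖ζ n‖ / ‖cexp (t n / 2)‖) atTop (𝓝 (‖ζ0‖ / 1)) :=
    h.par.zet.norm.div h1 one_ne_zero
  rw [div_one] at h2
  refine h2.congr fun n => ?_
  rw [h.nrm n, mul_div_assoc, div_self (norm_ne_zero_iff.2 (Complex.exp_ne_zero _)), mul_one]

theorem Dat.tree_lim (h : Dat N a t z ζ g ζ0 u0) :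
    Tendsto (fun n => ‖z n‖ * ‖1 - cexp (-t n)‖) atTop (𝓝 ‖ζ0‖) := by
  have h0 : Tendsto (fun w : ℂ => (cexp w - 1) / w) (𝓝[≠] 0) (𝓝 1) := by
    have := (Complex.hasDerivAt_exp 0).tendsto_slope
    rw [Complex.exp_zero] at this
    refine this.congr fun w => ?_
    rw [slope_def_field, Complex.exp_zero, sub_zero]
  have h1 : Tendsto (fun n => -t n) atTop (𝓝[≠] 0) := by
    refine tendsto_nhdsWithin_iff.2 ⟨by simpa using h.par.lim.neg, ?_⟩
    exact Eventually.of_forall fun n => neg_ne_zero.2 (h.par.ne n)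
  have h2 : Tendsto (fun n => ‖(cexp (-t n) - 1) / (-t n)‖) atTop (𝓝 1) := by
    have := (h0.comp h1).norm
    simpa using this
  have h3 := h.tz.mul h2
  rw [mul_one] at h3
  refine h3.congr fun n => ?_
  rw [norm_div, norm_neg, norm_sub_rev 1]
  have := norm_ne_zero_iff.2 (h.par.ne n)
  field_simp

theorem Dat.of_top (hN : 0 < N) (h : Dat N a t z ζ g ζ0 u0) (hζ0 : ζ0 ≠ 0)
    (hT : ∃ m < N, TopPos u0 (lift N ζ0 m)) : False := by
  obtain ⟨c, L, h1, h2, h3, h4⟩ := static_G hN h.par.norm_dir h.par.dir_re h.par.dir_im hζ0 hT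
  exact mt hN h.gne h.par hζ0 h1 h2 h3 h4 h.hE h.hD

theorem Dat.one (htip : TipHyp) (h : Dat 1 a t z ζ g ζ0 u0) : False := by
  have hω : cexp (2 * Real.pi * I * a / (1 : ℕ)) = 1 := by
    rw [show (2 * Real.pi * I * a / (1 : ℕ) : ℂ) = a * (2 * Real.pi * I) by push_cast; ring,
      Complex.exp_int_mul_two_pi_mul_I]
  rcases lt_or_ge ‖ζ0‖ (Real.exp (-1)) with hlt | hge
  · obtain ⟨n, hn⟩ := (h.tree_lim.eventually_lt_const hlt).exists
    have hq : ‖cexp (-t n)‖ ≤ 1 := SokalU.norm_exp_neg_le (h.par.re n)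
    refine (tree hq hn).1 ?_
    have := h.F0 n
    rwa [hω, one_mul] at this
  have hζ0 : ζ0 ≠ 0 := by
    rintro rfl
    rw [norm_zero] at hge
    exact absurd (Real.exp_pos (-1)) (not_lt.2 hge)
  by_cases hT : TopPos u0 ζ0
  · exact h.of_top one_pos hζ0 ⟨0, one_pos, by rwa [lift_zero]⟩
  by_cases hζ : ζ0 = -cexp (-1)
  · subst hζ
    have hu : TipConn u0 := by
      rcases h.par.dir_re.lt_or_eq with h1 | h1
      · exact htip u0 h.par.norm_dir h1 h.par.dir_im hT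
      · rw [h.par.eq_I h1.symm]
        exact tipConn_I
    have hg : g 0 ≠ 0 := h.gne 0
    refine tip_one h.par h.par.norm_dir h.par.dir_re h.par.dir_im hu (fun n => ?_) fun n => ?_
    · have := comb_Ev (h.hE n)
      rw [Finset.sum_range_one, lift_zero] at this
      exact (mul_eq_zero.1 this).resolve_left hg
    · have := comb_Dv (h.hD n)
      rw [Finset.sum_range_one, lift_zero] at this
      exact (mul_eq_zero.1 this).resolve_left hg
  · obtain ⟨c, L, hL, hcase⟩ := static_N1 h.par.norm_dir h.par.dir_re h.par.dir_im hge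
      (by simpa using hζ) hT
    refine mt one_pos h.gne h.par hζ0 (c := c) (L := fun _ => L) ?_ ?_ ?_ ?_ h.hE h.hD
    · intro m hm
      obtain rfl : m = 0 := by omega
      rwa [lift_zero]
    · intro m _
      rcases hcase with ⟨S, rfl⟩ | ⟨S, S', hne, rfl⟩
      · simp
      · simpa using hne
    · rw [Finset.sum_range_one]
      rcases hcase with ⟨S, rfl⟩ | ⟨S, S', hne, rfl⟩ <;> simp
    · rw [Finset.sum_range_one]
      rcases hcase with ⟨S, rfl⟩ | ⟨S, S', hne, rfl⟩ <;> simp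

theorem Dat.two (ha : IsCoprime a (2 : ℤ)) (h : Dat 2 a t z ζ g ζ0 u0) : False := by
  rcases lt_or_ge ‖ζ0‖ (Real.exp (-1)) with hlt | hge
  · obtain ⟨n, hn⟩ := (h.tree_lim.eventually_lt_const hlt).exists
    exact tree_two ha (h.par.re n) hn (h.F0 n) (h.F1 n)
  have hζ0 : ζ0 ≠ 0 := by
    rintro rfl
    rw [norm_zero] at hge
    exact absurd (Real.exp_pos (-1)) (not_lt.2 hge)
  by_cases hc : 0 < u0.re ∨ Real.exp (-1) < ‖ζ0‖ ∨ (u0 * ζ0).re ≠ 0
  · rcases topPos_two h.par.norm_dir h.par.dir_re h.par.dir_im hζ0 hc with h1 | h1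
    · exact h.of_top two_pos hζ0 ⟨0, two_pos, by rwa [lift_zero]⟩
    · exact h.of_top two_pos hζ0 ⟨1, one_lt_two, by rwa [lift_two]⟩
  push Not at hc
  obtain ⟨hc1, hc2, hc3⟩ := hc
  have hu : u0 = I := h.par.eq_I (le_antisymm hc1 h.par.dir_re)
  subst hu
  have him : ζ0.im = 0 := by simpa using hc3
  have hnorm : ‖ζ0‖ = Real.exp (-1) := le_antisymm hc2 hge
  have hζre : (ζ0.re : ℂ) = ζ0 := by
    apply Complex.ext <;> simp [him]
  have habs : |ζ0.re| = Real.exp (-1) := by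
    rw [← hnorm, ← hζre, Complex.norm_real, Real.norm_eq_abs, Complex.ofReal_re]
  have hexp : ((Real.exp (-1) : ℝ) : ℂ) = cexp (-1) := by push_cast; rfl
  have e1 : ∀ n, g 0 * Ev (t n) (ζ n) + g 1 * Ev (t n) (-ζ n) = 0 := fun n => by
    have := comb_Ev (h.hE n)
    rwa [Finset.sum_range_succ, Finset.sum_range_one, lift_zero, lift_two] at this
  have e2 : ∀ n, g 0 * Dv (t n) (ζ n) + g 1 * Dv (t n) (-ζ n) = 0 := fun n => by
    have := comb_Dv (h.hD n)
    rwa [Finset.sum_range_succ, Finset.sum_range_one, lift_zero, lift_two] at this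
  rcases abs_eq (Real.exp_pos _).le |>.1 habs with h1 | h1
  · have hp : Par t (fun n => -ζ n) (-cexp (-1)) I := by
      have := h.par.neg
      rwa [← hζre, h1, hexp] at this
    refine tip_two (h.gne 0) (h.gne 1) hp (fun n => ?_) fun n => ?_
    · rw [neg_neg]
      exact e1 n
    · rw [neg_neg]
      exact e2 n
  · have hp : Par t ζ (-cexp (-1)) I := by
      have := h.par
      rwa [← hζre, h1, Complex.ofReal_neg, hexp] at this
    refine tip_two (h.gne 1) (h.gne 0) hp (fun n => ?_) fun n => ?_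
    · rw [add_comm]
      exact e1 n
    · rw [add_comm]
      exact e2 n

theorem Dat.three (hN : 3 ≤ N) (ha : IsCoprime a (N : ℤ)) (h : Dat N a t z ζ g ζ0 u0) :
    False := by
  by_cases hζ0 : ζ0 = 0
  · subst hζ0
    obtain ⟨δ, hδ, R, hR⟩ := tree_three hN ha
    have h1 := h.tz
    rw [norm_zero] at h1
    have h2 : Tendsto (fun n => ‖t n‖) atTop (𝓝 0) := by simpa using h.par.lim.norm
    obtain ⟨n, hn1, hn2, hn3⟩ := ((h1.eventually_lt_const hδ).and
      ((h2.eventually_lt_const hδ).and (h.zlim.eventually_ge_atTop R))).exists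
    exact hR (t n) (z n) (h.par.re n) hn2.le hn1.le hn3 (h.F0 n) (h.F1 n)
  · exact h.of_top (by omega) hζ0
      (topPos_three hN h.par.norm_dir h.par.dir_re h.par.dir_im hζ0)

theorem Dat.false (htip : TipHyp) (hN : 0 < N) (ha : IsCoprime a (N : ℤ))
    (h : Dat N a t z ζ g ζ0 u0) : False := by
  rcases (show N = 1 ∨ N = 2 ∨ 3 ≤ N by omega) with rfl | rfl | hN
  · exact h.one htip
  · exact h.two ha
  · exact h.three hN ha

end dat

end SokalV
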