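import Pool.Agent.Lib_MP_af4de1_v.N1C

/-!
# The case `N = 1`: far from window 0

For `s ≤ sLL` the convexified height `min_Y ((Y² - s²)/2 + ρ(s)₊ e^Y)` is below every `c` which is
at least `m` on the neighbouring finger.  Proof for `ρ(s) > 0`: `θ = a s + φ + 2 π k ∈ (-π/2, π/2)`,
`k ≥ 1`, `λ = φ/(φ + 2 π k)`; the point `λ s` is in the neighbouring finger, with angle `λ θ`; for
fixed `X` the height `a (X² - T²)/2 - b X T + r e^X cos θ` is concave along the segment from
`(T, θ) = (0, 0)` (where it is positive) to `(a s, θ)`.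
-/

namespace SokalN

open SokalV Complex Filter Topology Set

namespace Par

variable (p : Par)

/-- Bottom of the convexified fibre. -/
noncomputable def Yq (s : ℝ) : ℝ := Ym (-max (p.rho s) 0)

/-- Minimum of the convexified height on the fibre. -/
noncomputable def Mq (s : ℝ) : ℝ := fib (max (p.rho s) 0) (p.Yq s) - s ^ 2 / 2

theorem continuous_Yq : Continuous p.Yq := by
  have h1 := p.continuous_rho
  have h2 := continuous_Ym
  unfold Yq
  fun_prop

theorem continuous_Mq : Continuous p.Mq := by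
  have h1 := p.continuous_rho
  have h2 := p.continuous_Yq
  unfold Mq fib
  fun_prop

private theorem g_le_fib (Y s : ℝ) : p.g Y s ≤ fib (max (p.rho s) 0) Y - s ^ 2 / 2 := by
  have h : p.rho s * Real.exp Y ≤ max (p.rho s) 0 * Real.exp Y :=
    mul_le_mul_of_nonneg_right (le_max_left _ _) (Real.exp_pos Y).le
  simp only [g, fib]
  linarith

theorem g_Yq_le (s : ℝ) : p.g (p.Yq s) s ≤ p.Mq s := p.g_le_fib _ _

private theorem Mq_le_fib (Y s : ℝ) : p.Mq s ≤ fib (max (p.rho s) 0) Y - s ^ 2 / 2 := by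
  have h := fib_min (le_max_right (p.rho s) 0) Y
  simp only [Mq, Yq]
  linarith

private theorem max_rho_le (s : ℝ) : max (p.rho s) 0 ≤ p.r / p.a * Real.exp (p.b * s) := by
  have h0 : 0 < p.r / p.a * Real.exp (p.b * s) :=
    mul_pos (div_pos p.hr p.ha) (Real.exp_pos _)
  refine max_le ?_ h0.le
  calc p.rho s = p.r / p.a * Real.exp (p.b * s) * Real.cos (p.a * s + p.φ) := rfl
    _ ≤ p.r / p.a * Real.exp (p.b * s) * 1 := mul_le_mul_of_nonneg_left (Real.cos_le_one _) h0.le
    _ = _ := mul_one _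

/-- the height in the coordinates `X`, `T` -/
private theorem a_g (Y s : ℝ) : p.a * p.g Y s = p.a * ((Y + p.b * s) ^ 2 - (p.a * s) ^ 2) / 2 -
    p.b * (Y + p.b * s) * (p.a * s) +
    p.r * Real.exp (Y + p.b * s) * Real.cos (p.a * s + p.φ) := by
  have ha := p.ha.ne'
  have hab := p.hab
  have h1 : p.a * (p.rho s * Real.exp Y) =
      p.r * Real.exp (Y + p.b * s) * Real.cos (p.a * s + p.φ) := by
    rw [rho, Real.exp_add]
    field_simp
  rw [g]
  linear_combination h1 + (p.a * s ^ 2 / 2) * hab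

/-- the concavity argument -/
private theorem far_core {a b l X T E C C' M g m : ℝ} (ha : 0 < a) (hl0 : 0 < l) (hl1 : l < 1)
    (hE : 0 < E) (hcc : l * C + (1 - l) ≤ C')
    (e2 : a * m = a * (X ^ 2 - (l * T) ^ 2) / 2 - b * X * (l * T) + E * C')
    (e3 : a * g = a * (X ^ 2 - T ^ 2) / 2 - b * X * T + E * C) (e4 : M ≤ g) : l * M < m := by
  have e5 : a * M ≤ a * g := mul_le_mul_of_nonneg_left e4 ha.le
  have e6 : E * (l * C + (1 - l)) ≤ E * C' := mul_le_mul_of_nonneg_left hcc hE.le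
  have e7 : 0 < (1 - l) * (a * X ^ 2 / 2 + E) := mul_pos (by linarith) (by positivity)
  have e8 : 0 ≤ a * (l - l ^ 2) * T ^ 2 / 2 := by
    have : 0 ≤ l - l ^ 2 := by nlinarith only [hl0, hl1]
    positivity
  have e9 : l * (a * M) ≤ l * (a * g) := mul_le_mul_of_nonneg_left e5 hl0.le
  have e10 : a * (l * M) < a * m := by
    rw [e3] at e9
    rw [e2]
    linarith only [e6, e7, e8, e9]
  exact lt_of_mul_lt_mul_left e10 ha.le

/-- The far fingers. -/
theorem Mq_lt {c : ℝ} (NT : ∀ s, 0 ≤ p.rho s → p.m s ≤ 0)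
    (h1 : ∀ s ∈ Icc p.sLL p.sL, p.m s ≤ c) {s : ℝ} (hs : s ≤ p.sLL) : p.Mq s < c := by
  have ha := p.ha
  have hpi := Real.pi_pos
  have hLL := p.sLL_lt_sL
  have hL := p.sL_nonpos
  rcases le_or_gt (p.rho s) 0 with hr | hr
  · have e1 : p.Mq s = -s ^ 2 / 2 := by
      simp only [Mq, Yq, max_eq_right hr, neg_zero, Ym_zero, fib]
      ring
    have h2 := h1 p.sL ⟨hLL.le, le_rfl⟩
    rw [m_sL] at h2
    rw [e1]
    nlinarith only [hs, hLL, hL, h2]
  · -- the angle
    set ψ : ℝ := p.a * s + p.φ with hψ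
    have hcos : 0 < Real.cos ψ := by
      by_contra hcon
      push Not at hcon
      have h0 : 0 < p.r / p.a * Real.exp (p.b * s) :=
        mul_pos (div_pos p.hr p.ha) (Real.exp_pos _)
      have : p.rho s ≤ 0 := mul_nonpos_of_nonneg_of_nonpos h0.le hcon
      linarith
    have hψ2 : ψ ≤ -(Real.pi / 2) := by
      have h2 : s ≤ (-Real.pi / 2 - p.φ) / p.a := hs
      rw [le_div_iff₀ ha] at h2
      rw [hψ]; linarith
    set k : ℤ := ⌊(Real.pi / 2 - ψ) / (2 * Real.pi)⌋ with hk
    set θ : ℝ := ψ + 2 * Real.pi * k with hθ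
    have hk1 : (k : ℝ) ≤ (Real.pi / 2 - ψ) / (2 * Real.pi) := Int.floor_le _
    have hk2 : (Real.pi / 2 - ψ) / (2 * Real.pi) < k + 1 := Int.lt_floor_add_one _
    rw [le_div_iff₀ (by positivity)] at hk1
    rw [div_lt_iff₀ (by positivity)] at hk2
    have hcθ : Real.cos θ = Real.cos ψ := by
      rw [hθ, show ψ + 2 * Real.pi * k = ψ + k * (2 * Real.pi) by ring]
      exact Real.cos_add_int_mul_two_pi ψ k
    have hθ1 : θ ≤ Real.pi / 2 := by rw [hθ]; linarith
    have hθ2 : -(Real.pi / 2) < θ := by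
      by_contra hcon
      push Not at hcon
      have h2 : Real.cos (-θ) ≤ 0 :=
        Real.cos_nonpos_of_pi_div_two_le_of_le (by linarith) (by rw [hθ]; linarith)
      rw [Real.cos_neg, hcθ] at h2
      linarith
    have hkpos : (0 : ℝ) < k := by
      have : 0 < 2 * Real.pi * k := by rw [hθ] at hθ2; linarith
      by_contra hcon
      push Not at hcon
      nlinarith only [hθ1, hθ2, this, hcon]
    have hφ : 0 < p.φ := by linarith [p.h1]
    have hden : 0 < p.φ + 2 * Real.pi * k := by positivity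
    set l : ℝ := p.φ / (p.φ + 2 * Real.pi * k) with hl
    have hl0 : 0 < l := div_pos hφ hden
    have hl1 : l < 1 := by
      rw [hl, div_lt_one hden]
      have : 0 < 2 * Real.pi * k := by positivity
      linarith
    have hlφ : l * (p.φ + 2 * Real.pi * k) = p.φ := div_mul_cancel₀ _ hden.ne'
    set s' : ℝ := l * s with hs'
    have e1 : p.a * s' + p.φ = l * θ := by
      rw [hs', hθ, hψ]
      linear_combination -hlφ
    have hlθ1 : l * θ < Real.pi / 2 := by
      rcases le_or_gt θ 0 with h | h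
      · nlinarith only [hθ2, hl0, h]
      · nlinarith only [hθ1, hl1, h]
    have hlθ2 : -(Real.pi / 2) < l * θ := by
      rcases le_or_gt θ 0 with h | h
      · nlinarith only [hθ1, hθ2, hl0, hl1]
      · nlinarith only [hl0, hlθ1, h]
    have hs1 : p.sLL ≤ s' := by
      rw [sLL, div_le_iff₀ ha]; linarith only [e1, hlθ2]
    have hs2 : s' ≤ p.sL := by
      rw [sL, le_div_iff₀ ha]; linarith only [e1, hlθ1]
    have hm := h1 s' ⟨hs1, hs2⟩
    have hm0 := NT s' (p.rho_nonneg_finger hs1 hs2)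
    -- concavity
    have hcc : l * Real.cos θ + (1 - l) ≤ Real.cos (l * θ) := by
      have h2 := strictConcaveOn_cos_Icc.concaveOn.2
        (show θ ∈ Icc (-(Real.pi / 2)) (Real.pi / 2) from ⟨hθ2.le, hθ1⟩)
        (show (0 : ℝ) ∈ Icc (-(Real.pi / 2)) (Real.pi / 2) from ⟨by linarith, by linarith⟩)
        hl0.le (show 0 ≤ 1 - l by linarith) (by ring)
      simpa only [smul_eq_mul, mul_zero, add_zero, Real.cos_zero, mul_one] using h2
    set X : ℝ := p.Y s' + p.b * s' with hX
    have e2 := p.a_g (p.Y s') s'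
    rw [← hX, e1] at e2
    have e3 := p.a_g (X - p.b * s) s
    rw [show X - p.b * s + p.b * s = X by ring, ← hψ, ← hcθ] at e3
    have e4 : p.Mq s ≤ p.g (X - p.b * s) s := by
      have h2 := p.Mq_le_fib (X - p.b * s) s
      rw [max_eq_left hr.le] at h2
      rw [g_eq]
      exact h2
    have hre : 0 < p.r * Real.exp X := mul_pos p.hr (Real.exp_pos X)
    have e11 : p.a * s' = l * (p.a * s) := by rw [hs']; ring
    rw [e11] at e2
    have e12 : l * p.Mq s < p.m s' := far_core ha hl0 hl1 hre hcc e2 e3 e4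
    have e13 : p.Mq s < 0 := by
      by_contra hcon
      push Not at hcon
      have : 0 ≤ l * p.Mq s := mul_nonneg hl0.le hcon
      linarith
    have e14 : p.Mq s ≤ l * p.Mq s := by nlinarith only [hl1, e13]
    linarith

theorem Mq_le (s : ℝ) : p.Mq s ≤ p.r / p.a - p.a ^ 2 * s ^ 2 / 2 := by
  have h1 := p.Mq_le_fib (-(p.b * s)) s
  have h2 := p.max_rho_le s
  have h3 : max (p.rho s) 0 * Real.exp (-(p.b * s)) ≤ p.r / p.a := by
    calc max (p.rho s) 0 * Real.exp (-(p.b * s))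
        ≤ p.r / p.a * Real.exp (p.b * s) * Real.exp (-(p.b * s)) :=
          mul_le_mul_of_nonneg_right h2 (Real.exp_pos _).le
      _ = p.r / p.a := by
          rw [mul_assoc, ← Real.exp_add, add_neg_cancel, Real.exp_zero, mul_one]
  have hab := p.hab
  rw [fib] at h1
  nlinarith only [h1, h3, hab]

/-- the height at `x0 - R i` -/
private theorem far_top (x0 s : ℝ) : fib (max (p.rho s) 0) (x0 - p.b * s) - s ^ 2 / 2 ≤
    p.r / p.a * Real.exp x0 + x0 ^ 2 / 2 - x0 * p.b * s - p.a ^ 2 * s ^ 2 / 2 := by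
  have h2 := p.max_rho_le s
  have h3 : max (p.rho s) 0 * Real.exp (x0 - p.b * s) ≤ p.r / p.a * Real.exp x0 := by
    calc max (p.rho s) 0 * Real.exp (x0 - p.b * s)
        ≤ p.r / p.a * Real.exp (p.b * s) * Real.exp (x0 - p.b * s) :=
          mul_le_mul_of_nonneg_right h2 (Real.exp_pos _).le
      _ = p.r / p.a * Real.exp x0 := by
          rw [mul_assoc, ← Real.exp_add, add_sub_cancel]
  have hab := p.hab
  rw [fib]
  nlinarith only [h3, hab]

/-- on a fibre between two points the convexified height is at most the one of the outer point -/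
private theorem fib_between {x Y Z W : ℝ} (hx : 0 ≤ x)
    (h : (Z ≤ W ∧ W ≤ Ym (-x)) ∨ (Ym (-x) ≤ W ∧ W ≤ Z)) (_ : Y = Y) : fib x W ≤ fib x Z := by
  rcases h with ⟨h1, h2⟩ | ⟨h1, h2⟩
  · exact fib_anti (by linarith [Real.exp_pos (-1)]) (h1.trans h2) h2 h1
  · exact fib_mono' hx h1 (h1.trans h2) h2

/-- a uniform level below `c` -/
private theorem far_level {c : ℝ} (NT : ∀ s, 0 ≤ p.rho s → p.m s ≤ 0)
    (h1 : ∀ s ∈ Icc p.sLL p.sL, p.m s ≤ c) : ∃ c2 < c, ∀ s ≤ p.sLL, p.Mq s < c2 := by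
  have ha := p.ha
  -- far away
  set S : ℝ := -(1 + 2 * (|c| + 1 + p.r / p.a) / p.a ^ 2) with hS
  have hra : 0 < p.r / p.a := div_pos p.hr ha
  have hfar : ∀ s ≤ S, p.Mq s < c - 1 := by
    intro s hs
    have h2 := p.Mq_le s
    have hc : -|c| ≤ c := neg_abs_le c
    set w : ℝ := 2 * (|c| + 1 + p.r / p.a) / p.a ^ 2 with hw
    have hw0 : 0 < w := by positivity
    have hwa : w * p.a ^ 2 = 2 * (|c| + 1 + p.r / p.a) := div_mul_cancel₀ _ (by positivity)
    have h3 : 1 + w ≤ -s := by rw [hS] at hs; linarith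
    have h4 : w < s ^ 2 := by nlinarith only [h3]
    have h5 : w * p.a ^ 2 < p.a ^ 2 * s ^ 2 := by
      rw [mul_comm]
      exact mul_lt_mul_of_pos_left h4 (by positivity)
    linarith
  rcases le_or_gt p.sLL S with h | h
  · exact ⟨c - 1, by linarith, fun s hs => hfar s (hs.trans h)⟩
  · obtain ⟨s0, hs0, hmax⟩ := isCompact_Icc.exists_isMaxOn (nonempty_Icc.2 h.le)
      (p.continuous_Mq.continuousOn (s := Icc S p.sLL))
    have h0 : p.Mq s0 < c := p.Mq_lt NT h1 hs0.2
    refine ⟨(max (p.Mq s0) (c - 1) + c) / 2, ?_, ?_⟩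
    · have : max (p.Mq s0) (c - 1) < c := max_lt h0 (by linarith)
      linarith
    · intro s hs
      have hlt : max (p.Mq s0) (c - 1) < c := max_lt h0 (by linarith)
      rcases le_or_gt S s with h2 | h2
      · have h3 : p.Mq s ≤ p.Mq s0 := hmax ⟨h2, hs⟩
        have h4 := le_max_left (p.Mq s0) (c - 1)
        linarith
      · have h3 := hfar s h2.le
        have h4 := le_max_right (p.Mq s0) (c - 1)
        linarith

/-- The contour comes from `x0 - i∞`. -/
theorem far_conn {c : ℝ} (NT : ∀ s, 0 ≤ p.rho s → p.m s ≤ 0)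
    (h1 : ∀ s ∈ Icc p.sLL p.sL, p.m s ≤ c) (x0 : ℝ) :
    ∃ c' < p.a * c, ∃ R0 : ℝ, ∀ R : ℝ, R0 ≤ R →
      Conn p.G c' (x0 - R * I) (p.pt 0 p.sLL) := by
  have ha := p.ha
  obtain ⟨c2, hc2, hlev⟩ := p.far_level NT h1
  -- the height at the far end
  have hlim : Tendsto (fun s : ℝ => p.r / p.a * Real.exp x0 + x0 ^ 2 / 2 - x0 * p.b * s -
      p.a ^ 2 * s ^ 2 / 2) atBot atBot := by
    have e : (fun s : ℝ => p.r / p.a * Real.exp x0 + x0 ^ 2 / 2 - x0 * p.b * s -
        p.a ^ 2 * s ^ 2 / 2) = fun s : ℝ => (p.r / p.a * Real.exp x0 + x0 ^ 2 / 2) +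
        s * (-(x0 * p.b) - p.a ^ 2 / 2 * s) := by
      funext s; ring
    rw [e]
    refine tendsto_atBot_add_const_left _ _ ?_
    refine tendsto_id.atBot_mul_atTop₀ ?_
    have : Tendsto (fun s : ℝ => -(x0 * p.b) + (-(p.a ^ 2 / 2)) * s) atBot atTop := by
      refine tendsto_atTop_add_const_left _ _ ?_
      exact tendsto_id.const_mul_atBot_of_neg (by have := pow_pos ha 2; linarith)
    refine this.congr fun s => ?_
    ring
  obtain ⟨S, hS⟩ := (hlim.eventually_lt_atBot c2).exists_forall_of_atBot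
  refine ⟨p.a * c2, mul_lt_mul_of_pos_left hc2 ha, -(p.a * min S p.sLL), ?_⟩
  intro R hR
  set s : ℝ := -R / p.a with hs
  have has : p.a * s = -R := by rw [hs]; field_simp
  have hs1 : s ≤ min S p.sLL := by
    have : p.a * s ≤ p.a * min S p.sLL := by rw [has]; linarith
    exact le_of_mul_le_mul_left this ha
  have hsS : s ≤ S := hs1.trans (min_le_left _ _)
  have hsL : s ≤ p.sLL := hs1.trans (min_le_right _ _)
  have htop := (p.far_top x0 s).trans_lt (hS s hsS)
  have e0 : (x0 - R * I : ℂ) = p.pt (x0 - p.b * s) s := by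
    rw [pt_eq]
    have : (R : ℂ) = -(p.a * s : ℝ) := by rw [has]; push_cast; ring
    rw [this]
    push_cast
    ring
  have e1 : p.Yq p.sLL = 0 := by
    rw [Yq, rho_sLL, max_self, neg_zero, Ym_zero]
  -- along the bottom
  have hgraph : Conn p.G (p.a * c2) (p.pt (p.Yq s) s) (p.pt 0 p.sLL) := by
    obtain ⟨c3, hc3, h3⟩ := p.SC_graph (f := p.Yq) hsL p.continuous_Yq.continuousOn
      (c := c2) (fun t ht => (p.g_Yq_le t).trans_lt (hlev t ht.2))
    rw [e1] at h3
    exact h3.mono hc3.le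
  have hx : 0 ≤ max (p.rho s) 0 := le_max_right _ _
  rw [e0]
  refine Conn.trans ?_ hgraph
  rcases le_total (x0 - p.b * s) (p.Yq s) with h | h
  · obtain ⟨c3, hc3, h3⟩ := p.SC_horiz h (c := c2) (fun Y hY =>
      ((p.g_le_fib Y s).trans (sub_le_sub_right (fib_between (Y := 0) hx
        (Or.inl ⟨hY.1, hY.2⟩) rfl) _)).trans_lt htop)
    exact h3.mono hc3.le
  · obtain ⟨c3, hc3, h3⟩ := p.SC_horiz h (c := c2) (fun Y hY =>
      ((p.g_le_fib Y s).trans (sub_le_sub_right (fib_between (Y := 0) hx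
        (Or.inr ⟨hY.1, hY.2⟩) rfl) _)).trans_lt htop)
    exact (h3.mono hc3.le).symm

end Par

end SokalN
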