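import Pool.Agent.Lib_MP_af4de1_v.Val

/-!
# The tip: definitions

At `ζ = -1/e` the saddle point `H = 1` is double: with `h = H - 1`, `v = 1 + eζ`,
`Ph ζ (1+h) = -1/2 + v + vh - h³/6 + O(|h|⁴ + |v||h|²)`.
-/

namespace SokalV

open Complex Filter Topology MeasureTheory

/-- Upper valley direction of `-u h³/6`. -/
noncomputable def ep (u : ℂ) : ℂ := cexp ((2 * Real.pi / 3 - u.arg / 3) * I)

/-- Lower valley direction. -/
noncomputable def em (u : ℂ) : ℂ := cexp ((-(2 * Real.pi / 3) - u.arg / 3) * I)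

/-- The contour from infinity to the tip. -/
def TipConn (u : ℂ) : Prop := ∃ ρ0 : ℝ, 0 < ρ0 ∧ ∀ ρ : ℝ, 0 < ρ → ρ ≤ ρ0 →
  ∃ c' < -u.re / 2, ∃ R0 : ℝ, ∀ R : ℝ, R0 ≤ R →
    Conn (Gh u (-cexp (-1))) c' (-1 - R * I) (1 + ρ * em u) ∧
    Conn (Gh u (-cexp (-1))) c' (1 + ρ * ep u) (1 + R * I)

/-- The offset from the tip. -/
noncomputable def off (ζ : ℂ) : ℂ := 1 + cexp 1 * ζ

/-- The size at the tip. -/
noncomputable def sz (t ζ : ℂ) : ℂ := cexp ((-1 / 2 + off ζ) / t)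

/-- The Airy integral, `2πi Ai`. -/
noncomputable def Ai (x : ℂ) : ℂ :=
  (∫ s in Set.Ioi (0 : ℝ), cexp (x * (cexp (2 * Real.pi * I / 3) * s) - s ^ 3 / 3)) *
      cexp (2 * Real.pi * I / 3) -
    (∫ s in Set.Ioi (0 : ℝ), cexp (x * (cexp (-(2 * Real.pi * I / 3)) * s) - s ^ 3 / 3)) *
      cexp (-(2 * Real.pi * I / 3))

/-- Its derivative. -/
noncomputable def Ad (x : ℂ) : ℂ :=
  (∫ s in Set.Ioi (0 : ℝ), s * cexp (x * (cexp (2 * Real.pi * I / 3) * s) - s ^ 3 / 3)) *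
      cexp (2 * Real.pi * I / 3) ^ 2 -
    (∫ s in Set.Ioi (0 : ℝ), s * cexp (x * (cexp (-(2 * Real.pi * I / 3)) * s) - s ^ 3 / 3)) *
      cexp (-(2 * Real.pi * I / 3)) ^ 2

/-- The limit phase at the scale `√|v|`. -/
noncomputable def Cu (v s : ℂ) : ℂ := v * s - s ^ 3 / 6

end SokalV
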