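import Pool.Agent.Lib_MP_af4de1_v.N1F1
import Pool.Agent.Lib_MP_af4de1_v.N1D
import Pool.Agent.Lib_MP_af4de1_v.TipDefs

/-!
# The contour to the tip, `Re u > 0`

`ζ = -1/e`: `r = 1/e`, `φ = π + arg u`, `ρ(s) = -(1/(e a)) e^{b s} cos(a s + arg u)`,
`ρ'(s) = (1/(e a)) e^{b s} sin(a s)`, so `ρ > -1/e` except at `s = 0`; the channel descends from the
tip `(1, 0)` on both sides.  The point `1 + ρ ep` has `Y < 1`, the point `1 + ρ em` has
`g_Y > 0`, so both are joined horizontally to the channel.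
-/

namespace SokalN

open SokalV Complex Filter Topology Set

theorem phase_tip {h : ℂ} (hh : ‖h‖ ≤ 1) :
    ‖Ph (-cexp (-1)) (1 + h) - (-1 / 2 - h ^ 3 / 6)‖ ≤ ‖h‖ ^ 4 := by
  have h1 : Ph (-cexp (-1)) (1 + h) - (-1 / 2 - h ^ 3 / 6)
      = -(cexp h - (1 + h + h ^ 2 / 2 + h ^ 3 / 6)) := by
    have : cexp (-1) * cexp (1 + h) = cexp h := by rw [← Complex.exp_add]; congr 1; ring
    rw [Ph]
    linear_combination (-1 : ℂ) * this
  rw [h1, norm_neg]
  have hb := Complex.exp_bound hh (n := 4) (by norm_num)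
  have e4 : (∑ m ∈ Finset.range 4, h ^ m / (m.factorial : ℂ)) = 1 + h + h ^ 2 / 2 + h ^ 3 / 6 := by
    simp [Finset.sum_range_succ, Nat.factorial]
  rw [e4] at hb
  refine hb.trans ?_
  have h5 : (0 : ℝ) ≤ ‖h‖ ^ 4 := by positivity
  have h6 : ((Nat.succ 4 : ℕ) : ℝ) * ((Nat.factorial 4 : ℕ) * (4 : ℕ) : ℝ)⁻¹ ≤ 1 := by
    norm_num [Nat.factorial]
  calc _ ≤ ‖h‖ ^ 4 * 1 := mul_le_mul_of_nonneg_left h6 h5
    _ = _ := mul_one _

namespace Par

variable (p : Par)

/-- From a point with `Y ≤ 1` or `g_Y ≥ 0` to the bottom of the channel. -/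
theorem SC_chan' {s Y c : ℝ} (h : -Real.exp (-1) ≤ p.rho s)
    (hY : 0 ≤ Y + p.rho s * Real.exp Y) (hc : p.g Y s < c) :
    SC p.G (p.a * c) (p.pt Y s) (p.pt (p.Y s) s) := by
  rcases le_or_gt Y 1 with h1 | h1
  · exact p.SC_chan h h1 hc
  · have hmono : MonotoneOn (fib (p.rho s)) (Icc 1 Y) := by
      refine monotoneOn_of_deriv_nonneg (convex_Icc _ _)
        (fun x _ => (hasDerivAt_fib _ x).continuousAt.continuousWithinAt)
        (fun x _ => (hasDerivAt_fib _ x).differentiableAt.differentiableWithinAt) fun x hx => ?_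
      rw [interior_Icc] at hx
      rw [(hasDerivAt_fib _ x).deriv]
      -- x e^{-x} ≥ Y e^{-Y} ≥ -rho
      have k1 : x * Real.exp (-x) ≥ Y * Real.exp (-Y) := by
        have hanti : AntitoneOn (fun y : ℝ => y * Real.exp (-y)) (Ici 1) := by
          refine antitoneOn_of_deriv_nonpos (convex_Ici _) (by fun_prop) (by fun_prop) fun y hy => ?_
          rw [interior_Ici] at hy
          have : HasDerivAt (fun y : ℝ => y * Real.exp (-y))
              (1 * Real.exp (-y) + y * (Real.exp (-y) * -1)) y :=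
            (hasDerivAt_id y).mul ((hasDerivAt_neg y).exp)
          rw [this.deriv]
          have h2 := Real.exp_pos (-y)
          have h3 : (1 : ℝ) < y := hy
          nlinarith only [h2, h3]
        exact hanti (mem_Ici.2 hx.1.le) (mem_Ici.2 h1.le) hx.2.le
      have k2 : Y * Real.exp (-Y) + p.rho s ≥ 0 := by
        have h2 := Real.exp_pos (-Y)
        have h3 : Real.exp Y * Real.exp (-Y) = 1 := by rw [← Real.exp_add]; simp
        have h4 : (Y + p.rho s * Real.exp Y) * Real.exp (-Y) = Y * Real.exp (-Y) + p.rho s := by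
          linear_combination p.rho s * h3
        rw [← h4]
        positivity
      have h3 : Real.exp x * Real.exp (-x) = 1 := by rw [← Real.exp_add]; simp
      have h4 : x + p.rho s * Real.exp x = (x * Real.exp (-x) + p.rho s) * Real.exp x := by
        linear_combination (-x) * h3
      rw [h4]
      have := Real.exp_pos x
      apply mul_nonneg _ this.le
      linarith
    have hY1 : p.Y s ≤ 1 := p.Y_le h
    refine (p.SC_horiz (hY1.trans h1.le) fun y hy => ?_).symm
    have hg : fib (p.rho s) y ≤ fib (p.rho s) Y := by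
      rcases le_or_gt y 1 with h2 | h2
      · exact ((fib_mono h) ⟨hy.1, h2⟩ ⟨hY1, le_rfl⟩ h2).trans
          (hmono ⟨le_rfl, h1.le⟩ ⟨h1.le, le_rfl⟩ h1.le)
      · exact hmono ⟨h2.le, hy.2⟩ ⟨h1.le, le_rfl⟩ hy.2
    rw [g_eq] at hc ⊢
    linarith

/-- The fibre derivative in terms of the phase. -/
theorem fibre_deriv (Y s : ℝ) : p.a * (Y + p.rho s * Real.exp Y) =
    (p.u * (p.pt Y s + p.ζ * cexp (p.pt Y s))).re := by
  rw [mul_add p.u, u_mul_zeta_mul_exp, Complex.add_re, Complex.re_ofReal_mul]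
  have h2 : (((Real.cos (p.a * s + p.φ) : ℝ) : ℂ) + ((Real.sin (p.a * s + p.φ) : ℝ) : ℂ) * I).re =
      Real.cos (p.a * s + p.φ) := by
    rw [Complex.add_re, Complex.ofReal_re, Complex.re_ofReal_mul, Complex.I_re]; ring
  have h3 : (p.u * p.pt Y s).re = p.a * Y := by
    simp only [u, pt, Complex.mul_re]; ring
  rw [h2, h3, rho]
  have := p.ha.ne'
  field_simp

/-- From a point near the tip in a valley to the channel. -/
theorem tip_point (hζ : p.ζ = -cexp (-1)) {e : ℂ} (he : ‖e‖ = 1) (he3 : p.u * e ^ 3 = 1)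
    {κ : ℝ} (he2 : (p.u * e ^ 2).re ≤ -κ) {ρ : ℝ} (h0 : 0 < ρ) (h1 : ρ < 1 / 6)
    (h2 : ρ ≤ κ / 2) (hs : -Real.exp (-1) ≤ p.rho (ρ * e.im / p.a)) :
    SC p.G (p.a * (-1 / 2)) (1 + ρ * e) (p.pt (p.Y (ρ * e.im / p.a)) (ρ * e.im / p.a)) := by
  set s := ρ * e.im / p.a with hsdef
  set Y := 1 + ρ * e.re - p.b * s with hYdef
  have ha := p.ha
  have hpt : p.pt Y s = 1 + ρ * e := by
    have h3 : p.a * s = ρ * e.im := by rw [hsdef]; field_simp
    apply Complex.ext
    · simp [pt, hYdef]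
    · simp [pt, h3]
  have hn : ‖(ρ : ℂ) * e‖ = ρ := by
    rw [norm_mul, he, Complex.norm_real, Real.norm_eq_abs, abs_of_pos h0, mul_one]
  have hu := p.hu
  rw [← hpt]
  refine p.SC_chan' hs ?_ ?_
  · have h4 := p.fibre_deriv Y s
    rw [hpt, hζ] at h4
    have h5 : (1 + ρ * e : ℂ) + -cexp (-1) * cexp (1 + ρ * e)
        = -(ρ * e) ^ 2 / 2 - (cexp (ρ * e) - (1 + ρ * e + (ρ * e) ^ 2 / 2)) := by
      have : cexp (-1) * cexp (1 + ρ * e) = cexp (ρ * e) := by
        rw [← Complex.exp_add]; congr 1; ring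
      linear_combination (-1 : ℂ) * this
    have hb := Complex.exp_bound (hn.le.trans (by linarith)) (n := 3) (by norm_num)
    have hb2 : ‖cexp (ρ * e) - (1 + ρ * e + (ρ * e) ^ 2 / 2)‖ ≤ ρ ^ 3 := by
      have e4 : (∑ m ∈ Finset.range 3, ((ρ : ℂ) * e) ^ m / (m.factorial : ℂ))
          = 1 + ρ * e + (ρ * e) ^ 2 / 2 := by
        simp [Finset.sum_range_succ, Nat.factorial]
      rw [e4, hn] at hb
      refine hb.trans ?_
      have h6 : ((Nat.succ 3 : ℕ) : ℝ) * ((Nat.factorial 3 : ℕ) * (3 : ℕ) : ℝ)⁻¹ ≤ 1 := by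
        norm_num [Nat.factorial]
      calc _ ≤ ρ ^ 3 * 1 := mul_le_mul_of_nonneg_left h6 (by positivity)
        _ = _ := mul_one _
    have h7 : p.u * ((1 + ρ * e : ℂ) + -cexp (-1) * cexp (1 + ρ * e))
        = ((-(ρ ^ 2 / 2) : ℝ) : ℂ) * (p.u * e ^ 2)
          - p.u * (cexp (ρ * e) - (1 + ρ * e + (ρ * e) ^ 2 / 2)) := by
      rw [h5]; push_cast; ring
    rw [h7, Complex.sub_re, Complex.re_ofReal_mul] at h4
    have h8 : (p.u * (cexp (ρ * e) - (1 + ρ * e + (ρ * e) ^ 2 / 2))).re ≤ ρ ^ 3 := by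
      refine (Complex.re_le_norm _).trans ?_
      rw [norm_mul, hu, one_mul]
      exact hb2
    have h9 : ρ ^ 3 ≤ ρ ^ 2 / 2 * κ := by nlinarith only [h2]
    have h10 : ρ ^ 2 / 2 * κ ≤ -(ρ ^ 2 / 2) * (p.u * e ^ 2).re := by nlinarith only [he2]
    have h11 : 0 ≤ p.a * (Y + p.rho s * Real.exp Y) := by linarith
    exact nonneg_of_mul_nonneg_right h11 ha
  · have h4 := p.G_pt Y s
    have h5 : p.G (p.pt Y s) < p.a * (-1 / 2) := by
      show (p.u * Ph p.ζ (p.pt Y s)).re < _
      rw [hpt, hζ]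
      have h6 := phase_tip (hn.le.trans (by linarith))
      rw [hn] at h6
      have h7 : p.u * Ph (-cexp (-1)) (1 + ρ * e) = ((-1 / 2 : ℝ) : ℂ) * p.u
          - ((ρ ^ 3 / 6 : ℝ) : ℂ)
          + p.u * (Ph (-cexp (-1)) (1 + ρ * e) - (-1 / 2 - (ρ * e) ^ 3 / 6)) := by
        push_cast
        linear_combination (-(ρ : ℂ) ^ 3 / 6) * he3
      rw [h7, Complex.add_re, Complex.sub_re, Complex.re_ofReal_mul, Complex.ofReal_re]
      have h8 : (p.u * (Ph (-cexp (-1)) (1 + ρ * e) - (-1 / 2 - (ρ * e) ^ 3 / 6))).re ≤ ρ ^ 4 := by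
        refine (Complex.re_le_norm _).trans ?_
        rw [norm_mul, hu, one_mul]
        exact h6
      have h9 : ρ ^ 4 < ρ ^ 3 / 6 := by
        have : 0 < ρ ^ 3 := by positivity
        nlinarith only [h1, this]
      have h10 : p.u.re = p.a := rfl
      rw [h10]
      linarith
    rw [h4] at h5
    exact lt_of_mul_lt_mul_left h5 ha.le

end Par

/-- The function `e^{b s} cos(a s + γ)` has its strict maximum at `0`. -/
theorem tip_max {γ s : ℝ} (ha : 0 < Real.cos γ) (h1 : -Real.pi < Real.cos γ * s)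
    (h2 : Real.cos γ * s < Real.pi) (h0 : s ≠ 0) :
    Real.exp (Real.sin γ * s) * Real.cos (Real.cos γ * s + γ) < Real.cos γ := by
  set f : ℝ → ℝ := fun s => Real.exp (Real.sin γ * s) * Real.cos (Real.cos γ * s + γ) with hf
  have hd : ∀ s, HasDerivAt f (-(Real.exp (Real.sin γ * s) * Real.sin (Real.cos γ * s))) s := by
    intro s
    have h3 : HasDerivAt (fun s : ℝ => Real.exp (Real.sin γ * s))
        (Real.exp (Real.sin γ * s) * (Real.sin γ * 1)) s :=
      ((hasDerivAt_id s).const_mul (Real.sin γ)).exp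
    have h4 : HasDerivAt (fun s : ℝ => Real.cos (Real.cos γ * s + γ))
        (-Real.sin (Real.cos γ * s + γ) * (Real.cos γ * 1)) s :=
      (((hasDerivAt_id s).const_mul (Real.cos γ)).add_const γ).cos
    have h5 := h3.mul h4
    have h6 : Real.sin (-(Real.cos γ * s)) = Real.sin γ * Real.cos (Real.cos γ * s + γ)
        - Real.cos γ * Real.sin (Real.cos γ * s + γ) := by
      rw [← Real.sin_sub]; congr 1; ring
    rw [Real.sin_neg] at h6
    have h7 : Real.exp (Real.sin γ * s) * (Real.sin γ * 1) * Real.cos (Real.cos γ * s + γ) +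
        Real.exp (Real.sin γ * s) * (-Real.sin (Real.cos γ * s + γ) * (Real.cos γ * 1))
        = -(Real.exp (Real.sin γ * s) * Real.sin (Real.cos γ * s)) := by
      linear_combination (-Real.exp (Real.sin γ * s)) * h6
    rw [h7] at h5
    exact h5
  have hf0 : f 0 = Real.cos γ := by simp [hf]
  suffices key : f s < f 0 by rw [hf0] at key; exact key
  have hcont : Continuous f := by rw [hf]; fun_prop
  rcases lt_or_gt_of_ne h0 with h3 | h3
  · have hm : StrictMonoOn f (Icc s 0) := by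
      refine strictMonoOn_of_deriv_pos (convex_Icc _ _) hcont.continuousOn fun x hx => ?_
      rw [interior_Icc] at hx
      rw [(hd x).deriv]
      have : Real.sin (Real.cos γ * x) < 0 := by
        apply Real.sin_neg_of_neg_of_neg_pi_lt
        · exact mul_neg_of_pos_of_neg ha hx.2
        · have := mul_lt_mul_of_pos_left hx.1 ha
          linarith
      have h4 := Real.exp_pos (Real.sin γ * x)
      nlinarith only [this, h4]
    exact hm ⟨le_rfl, h3.le⟩ ⟨h3.le, le_rfl⟩ h3
  · have hm : StrictAntiOn f (Icc 0 s) := by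
      refine strictAntiOn_of_deriv_neg (convex_Icc _ _) hcont.continuousOn fun x hx => ?_
      rw [interior_Icc] at hx
      rw [(hd x).deriv]
      have : 0 < Real.sin (Real.cos γ * x) := by
        apply Real.sin_pos_of_pos_of_lt_pi
        · exact mul_pos ha hx.1
        · have := mul_lt_mul_of_pos_left hx.2 ha
          linarith
      have h4 := Real.exp_pos (Real.sin γ * x)
      nlinarith only [this, h4]
    exact hm ⟨le_rfl, h3.le⟩ ⟨h3.le, le_rfl⟩ h3

theorem tip_dir {γ x : ℝ} {u : ℂ} (hu : cexp (γ * I) = u) :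
    ‖cexp (x * I)‖ = 1 ∧ (cexp (x * I)).im = Real.sin x ∧
    (u * cexp (x * I) ^ 2).re = Real.cos (γ + 2 * x) ∧
    u * cexp (x * I) ^ 3 = cexp ((γ + 3 * x : ℝ) * I) := by
  refine ⟨Complex.norm_exp_ofReal_mul_I x, Complex.exp_ofReal_mul_I_im x, ?_, ?_⟩
  · have : u * cexp (x * I) ^ 2 = cexp ((γ + 2 * x : ℝ) * I) := by
      rw [← hu, ← Complex.exp_nat_mul, ← Complex.exp_add]
      congr 1; push_cast; ring
    rw [this, Complex.exp_ofReal_mul_I_re]
  · rw [← hu, ← Complex.exp_nat_mul, ← Complex.exp_add]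
    congr 1; push_cast; ring

theorem tipConn {u : ℂ} (hu : ‖u‖ = 1) (ha : 0 < u.re) (hb : 0 ≤ u.im)
    (hT : ¬ TopPos u (-cexp (-1))) : TipConn u := by
  have he := Real.exp_pos (-1)
  have hpi := Real.pi_pos
  have hγ0 : 0 ≤ u.arg := Complex.arg_nonneg_iff.2 hb
  have hγ1 : u.arg < Real.pi / 2 :=
    (abs_lt.1 (Complex.abs_arg_lt_pi_div_two_iff.2 (Or.inl ha))).2
  have hu0 : u ≠ 0 := by rintro rfl; simp at ha
  set γ := u.arg with hγ
  have hcos : u.re = Real.cos γ := by rw [hγ, Complex.cos_arg hu0, hu, div_one]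
  have hsin : u.im = Real.sin γ := by rw [hγ, Complex.sin_arg, hu, div_one]
  have hue : cexp (γ * I) = u := by
    have := Complex.norm_mul_exp_arg_mul_I u
    rw [hu, Complex.ofReal_one, one_mul] at this
    exact this
  let p : Par := ⟨u.re, u.im, Real.exp (-1), Real.pi + γ, ha, by
    rw [hcos, hsin]; exact Real.cos_sq_add_sin_sq γ, he, by linarith, by linarith⟩
  have hpa : p.a = Real.cos γ := hcos
  have hpb : p.b = Real.sin γ := hsin
  have hpr : p.r = Real.exp (-1) := rfl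
  have hpφ : p.φ = Real.pi + γ := rfl
  have hpu : p.u = u := Complex.ext rfl rfl
  have hpζ : p.ζ = -cexp (-1) := by
    have h1 := p.u_mul_zeta
    rw [hpu, hpr, hpφ] at h1
    have h2 : cexp (((Real.pi + γ : ℝ) : ℂ) * I) = -u := by
      rw [← hue]
      push_cast
      rw [add_mul, Complex.exp_add, Complex.exp_pi_mul_I]
      ring
    rw [h2] at h1
    have h3 : u * p.ζ = u * -cexp (-1) := by
      rw [h1]; push_cast; ring
    exact mul_left_cancel₀ hu0 h3
  have hT' : ¬ TopPos p.u p.ζ := by rw [hpu, hpζ]; exact hT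
  have NT := Par.NT_of hT'
  have NT' : ∀ s, 0 ≤ p.mirror.rho s → p.mirror.m s ≤ 0 := by
    intro s hs
    rw [Par.mirror_rho] at hs
    rw [Par.mirror_m]
    exact NT _ hs
  -- the function rho
  have hrho : ∀ s, p.rho s = -(Real.exp (-1) / Real.cos γ *
      (Real.exp (Real.sin γ * s) * Real.cos (Real.cos γ * s + γ))) := by
    intro s
    rw [Par.rho, hpr, hpφ, hpa, hpb]
    have : Real.cos γ * s + (Real.pi + γ) = Real.cos γ * s + γ + Real.pi := by ring
    rw [this, Real.cos_add_pi]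
    ring
  have hcγ : 0 < Real.cos γ := by rw [← hcos]; exact ha
  have hrho0 : p.rho 0 = -Real.exp (-1) := by
    rw [hrho]
    simp only [mul_zero, Real.exp_zero, zero_add, one_mul]
    field_simp
  have hrho10 : p.rho1 0 = 0 := by
    rw [Par.rho1, hpr, hpφ, hpa, hpb]
    simp only [mul_zero, zero_add, Real.exp_zero]
    have h1 : Real.cos (Real.pi + γ) = -Real.cos γ := by rw [add_comm, Real.cos_add_pi]
    have h2 : Real.sin (Real.pi + γ) = -Real.sin γ := by rw [add_comm, Real.sin_add_pi]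
    rw [h1, h2]
    ring
  have hasR : p.a * p.sRR = 3 * Real.pi / 2 - γ := by
    rw [Par.sRR, hpφ]; have := p.ha.ne'; field_simp; ring
  have hasL : p.a * p.sLL = -(3 * Real.pi / 2) - γ := by
    rw [Par.sLL, hpφ]; have := p.ha.ne'; field_simp; ring
  have hasL1 : p.a * p.sL = -(Real.pi / 2) - γ := by
    rw [Par.sL, hpφ]; have := p.ha.ne'; field_simp; ring
  have hasR1 : p.a * p.sR = Real.pi / 2 - γ := by
    rw [Par.sR, hpφ]; have := p.ha.ne'; field_simp; ring
  have hbig : ∀ s ∈ Icc p.sLL p.sRR, s ≠ 0 → -Real.exp (-1) < p.rho s := by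
    intro s hs hs0
    rcases le_or_gt s p.sL with h1 | h1
    · have := p.rho_nonneg_finger hs.1 h1
      linarith
    · rcases le_or_gt p.sR s with h2 | h2
      · have h3 := p.mirror.rho_nonneg_finger (s := -s)
          (by rw [Par.mirror_sLL]; linarith [hs.2]) (by rw [Par.mirror_sL]; linarith)
        rw [Par.mirror_rho, neg_neg] at h3
        linarith
      · have h3 := mul_lt_mul_of_pos_left h1 p.ha
        have h4 := mul_lt_mul_of_pos_left h2 p.ha
        rw [hasL1] at h3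
        rw [hasR1] at h4
        rw [hpa] at h3 h4
        have h5 := tip_max hcγ (s := s) (by linarith) (by linarith) hs0
        rw [hrho]
        have h6 : Real.exp (-1) / Real.cos γ *
            (Real.exp (Real.sin γ * s) * Real.cos (Real.cos γ * s + γ)) < Real.exp (-1) := by
          calc _ < Real.exp (-1) / Real.cos γ * Real.cos γ :=
                mul_lt_mul_of_pos_left h5 (by positivity)
            _ = _ := by field_simp
        linarith
  have hs0L : p.sLL < 0 := by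
    by_contra h; push Not at h
    have := mul_nonneg p.ha.le h
    rw [hasL] at this
    linarith
  have hs0R : 0 < p.sRR := by
    by_contra h; push Not at h
    have := mul_nonpos_of_nonneg_of_nonpos p.ha.le h
    rw [hasR] at this
    linarith
  have hm10 : p.m1 0 = 0 := by rw [Par.m1, hrho10]; ring
  have hm0 : p.m 0 = -1 / 2 := by
    have h1 : Real.exp (-1) * Real.exp 1 = 1 := by rw [← Real.exp_add]; simp
    rw [Par.m, Par.Y, hrho0, neg_neg, Ym_exp, Par.g, hrho0]
    linear_combination (-1 : ℝ) * h1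
  have hup : StrictMonoOn p.m (Icc p.sLL 0) := p.m_strictMono
    (fun s hs => hbig s ⟨hs.1.le, (hs.2.trans hs0R).le⟩ hs.2.ne) hm10.ge
  have hdown : StrictAntiOn p.m (Icc 0 p.sRR) := p.m_strictAnti
    (fun s hs => hbig s ⟨(hs0L.trans hs.1).le, hs.2.le⟩ hs.1.ne') hm10.le
  have hmL : ∀ s ∈ Icc p.sLL 0, p.m s ≤ -1 / 2 := fun s hs => by
    rw [← hm0]; exact hup.monotoneOn hs ⟨hs0L.le, le_rfl⟩ hs.2
  have hmR : ∀ s ∈ Icc 0 p.sRR, p.m s ≤ -1 / 2 := fun s hs => by
    rw [← hm0]; exact hdown.antitoneOn ⟨le_rfl, hs0R.le⟩ hs hs.1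
  -- far parts
  obtain ⟨cL, hcL, RL, hRL⟩ := p.far_conn (c := -1 / 2) NT
    (fun s hs => hmL s ⟨hs.1, hs.2.trans p.sL_nonpos⟩) (-1)
  obtain ⟨cR, hcR, RR, hRR⟩ := p.mirror.far_conn (c := -1 / 2) NT'
    (fun s hs => by
      rw [Par.mirror_sLL, Par.mirror_sL] at hs
      rw [Par.mirror_m]
      exact hmR _ ⟨by linarith [hs.2, p.sR_nonneg], by linarith [hs.1]⟩) 1
  -- constants
  have hem : em u = cexp ((-(2 * Real.pi / 3) - γ / 3 : ℝ) * I) := by
    rw [SokalV.em]; congr 2; push_cast; ring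
  have hep : ep u = cexp ((2 * Real.pi / 3 - γ / 3 : ℝ) * I) := by
    rw [ep]; congr 2; push_cast; ring
  obtain ⟨hem1, hemi', hem2', hem3'⟩ := tip_dir (x := -(2 * Real.pi / 3) - γ / 3) hue
  obtain ⟨hep1, hepi', hep2', hep3'⟩ := tip_dir (x := 2 * Real.pi / 3 - γ / 3) hue
  rw [← hem] at hem1 hemi' hem2' hem3'
  rw [← hep] at hep1 hepi' hep2' hep3'
  have hem2 : (u * em u ^ 2).re < 0 := by
    rw [hem2', ← Real.cos_neg]
    apply Real.cos_neg_of_pi_div_two_lt_of_lt <;> linarith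
  have hep2 : (u * ep u ^ 2).re < 0 := by
    rw [hep2']
    apply Real.cos_neg_of_pi_div_two_lt_of_lt <;> linarith
  set κ := min (-(u * em u ^ 2).re) (-(u * ep u ^ 2).re) with hκ
  have hκ0 : 0 < κ := lt_min (by linarith) (by linarith)
  have hem3 : u * em u ^ 3 = 1 := by
    rw [hem3']
    have : ((γ + 3 * (-(2 * Real.pi / 3) - γ / 3) : ℝ) : ℂ) * I = -(2 * Real.pi * I) := by
      push_cast; ring
    rw [this, Complex.exp_neg, Complex.exp_two_pi_mul_I, inv_one]
  have hep3 : u * ep u ^ 3 = 1 := by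
    rw [hep3']
    have : ((γ + 3 * (2 * Real.pi / 3 - γ / 3) : ℝ) : ℂ) * I = 2 * Real.pi * I := by
      push_cast; ring
    rw [this, Complex.exp_two_pi_mul_I]
  have hemi : (em u).im < 0 := by
    rw [hemi']
    apply Real.sin_neg_of_neg_of_neg_pi_lt <;> linarith
  have hepi : 0 < (ep u).im := by
    rw [hepi']
    apply Real.sin_pos_of_pos_of_lt_pi <;> linarith
  have hrhoL := p.rho_sLL
  have hrhoR : p.rho p.sRR = 0 := by
    have := p.mirror.rho_sLL
    rw [Par.mirror_rho, Par.mirror_sLL, neg_neg] at this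
    exact this
  refine ⟨min (1 / 8) (κ / 2), by positivity, fun ρ hρ hρ0 => ?_⟩
  have hρ1 : ρ ≤ 1 / 8 := hρ0.trans (min_le_left _ _)
  have hρ2 : ρ ≤ κ / 2 := hρ0.trans (min_le_right _ _)
  -- lower
  have hL : SC p.G (p.a * (-1 / 2)) (1 + ρ * em u) (p.pt 0 p.sLL) := by
    set s := ρ * (em u).im / p.a with hs
    have has : p.a * s = ρ * (em u).im := by rw [hs]; have := p.ha.ne'; field_simp
    have hs0 : s < 0 := div_neg_of_neg_of_pos (mul_neg_of_pos_of_neg hρ hemi) p.ha
    have hsL : p.sLL < s := by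
      have h1 : -1 ≤ (em u).im := by
        have := (abs_le.1 ((Complex.abs_im_le_norm (em u)).trans hem1.le)).1
        exact this
      have h2 : p.a * p.sLL < p.a * s := by
        rw [hasL, has]
        have h6 : ρ * (-1) ≤ ρ * (em u).im := mul_le_mul_of_nonneg_left h1 hρ.le
        linarith [Real.pi_gt_three]
      exact lt_of_mul_lt_mul_left h2 p.ha.le
    have h3 := p.tip_point hpζ hem1 (by rw [hpu]; exact hem3) (κ := κ)
      (by rw [hpu]; linarith [min_le_left (-(u * em u ^ 2).re) (-(u * ep u ^ 2).re)]) hρ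
      (by linarith) hρ2 (hbig s ⟨hsL.le, (hs0.trans hs0R).le⟩ hs0.ne).le
    have h4 := p.SC_along (c := -1 / 2) hsL.le (fun σ hσ => by
      rw [← hm0]; exact hup ⟨hσ.1, (hσ.2.trans_lt hs0).le⟩ ⟨hs0L.le, le_rfl⟩
        (hσ.2.trans_lt hs0))
    have h5 : p.Y p.sLL = 0 := by rw [Par.Y, hrhoL, neg_zero, Ym_zero]
    rw [h5] at h4
    exact h3.trans h4.symm
  have hR : SC p.G (p.a * (-1 / 2)) (1 + ρ * ep u) (p.pt 0 p.sRR) := by
    set s := ρ * (ep u).im / p.a with hs
    have has : p.a * s = ρ * (ep u).im := by rw [hs]; have := p.ha.ne'; field_simp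
    have hs0 : 0 < s := div_pos (mul_pos hρ hepi) p.ha
    have hsR : s < p.sRR := by
      have h1 : (ep u).im ≤ 1 := by
        have := (abs_le.1 ((Complex.abs_im_le_norm (ep u)).trans hep1.le)).2
        exact this
      have h2 : p.a * s < p.a * p.sRR := by
        rw [hasR, has]
        have h6 : ρ * (ep u).im ≤ ρ * 1 := mul_le_mul_of_nonneg_left h1 hρ.le
        linarith [Real.pi_gt_three]
      exact lt_of_mul_lt_mul_left h2 p.ha.le
    have h3 := p.tip_point hpζ hep1 (by rw [hpu]; exact hep3) (κ := κ)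
      (by rw [hpu]; linarith [min_le_right (-(u * em u ^ 2).re) (-(u * ep u ^ 2).re)]) hρ
      (by linarith) hρ2 (hbig s ⟨(hs0L.trans hs0).le, hsR.le⟩ hs0.ne').le
    have h4 := p.SC_along (c := -1 / 2) hsR.le (fun σ hσ => by
      rw [← hm0]; exact hdown ⟨le_rfl, hs0R.le⟩ ⟨(hs0.trans_le hσ.1).le, hσ.2⟩
        (hs0.trans_le hσ.1))
    have h5 : p.Y p.sRR = 0 := by rw [Par.Y, hrhoR, neg_zero, Ym_zero]
    rw [h5] at h4
    exact h3.trans h4
  obtain ⟨c1, k1, k2⟩ := hL
  obtain ⟨c2, l1, l2⟩ := hR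
  have hG : Gh u (-cexp (-1)) = p.G := by
    funext H
    show (u * Ph (-cexp (-1)) H).re = (p.u * Ph p.ζ H).re
    rw [hpu, hpζ]
  have hlev : p.a * (-1 / 2) = -u.re / 2 := by rw [hpa, hcos]; ring
  rw [hlev] at k1 l1 hcL
  have hcR' : cR < -u.re / 2 := by
    have : p.mirror.a = p.a := rfl
    rw [this, hlev] at hcR
    exact hcR
  refine ⟨max (max c1 c2) (max cL cR), max_lt (max_lt k1 l1) (max_lt hcL hcR'), max RL RR,
    fun R hR => ?_⟩
  rw [hG]
  have m1 := hRL R ((le_max_left _ _).trans hR)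
  have m2 := conn_mirror p (hRR R ((le_max_right _ _).trans hR))
  constructor
  · have h1 : (((-1 : ℝ) : ℂ) - R * I) = -1 - R * I := by push_cast; ring
    rw [h1] at m1
    exact (m1.mono ((le_max_left _ _).trans (le_max_right _ _))).trans
      (k2.symm.mono ((le_max_left _ _).trans (le_max_left _ _)))
  · have h1 : starRingEnd ℂ (((1 : ℝ) : ℂ) - R * I) = 1 + R * I := by
      rw [map_sub, map_mul, Complex.conj_I, Complex.conj_ofReal, Complex.conj_ofReal]
      push_cast; ring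
    have h2 : starRingEnd ℂ (p.mirror.pt 0 p.mirror.sLL) = p.pt 0 p.sRR := by
      rw [Par.mirror_pt, Complex.conj_conj, Par.mirror_sLL, neg_neg]
    rw [h1, h2] at m2
    exact (l2.mono ((le_max_right _ _).trans (le_max_left _ _))).trans
      (m2.symm.mono ((le_max_right _ _).trans (le_max_right _ _)))

end SokalN
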