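import Pool.Agent.Lib_MP_af4de1_v.TipDefs

/-!
# Zeros of the Airy integral [SV-AIRY]

`ω = cexp(2πI/3)`, `ω³ = 1`, `Re ω = Re ω⁻¹ = -1/2`.  Differentiation under the integral sign (`|∂| ≤ s exp(R s - s³/3)` locally): `Ai' = Ad`,
`Ad'(x) = (∫ s² e^{xωs-s³/3}) ω³ - (∫ s² e^{xω⁻¹s-s³/3}) ω⁻³`, and `∫_0^∞ (xω - s²) e^{xωs-s³/3} ds = -1` (fundamental theorem), so
`∫ s² e^{xωs-s³/3} = 1 + xω∫e^{…}`; the two `1`'s cancel: `Ad' = x Ai`.
`Ai 0 = (ω - ω⁻¹)∫_0^∞ e^{-s³/3} ds ≠ 0`.
`airy_simple`: if `Ai x = 0 = Ad x`, Gronwall for the linear system `(y,y')' = (y', xy)` along the segment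
from `x` to `0`: contradiction.
`airy_zero`: `y(s) = Ai(x+s)`, `s ≥ 0`; `y, y' → 0`.
`d/ds (conj y · y') = |y'|² + (x+s)|y|²`.  Imaginary part: `d/ds Im(conj y y') = Im x |y|²`; `Im(conj y y')` is `0` at `s = 0` and tends to `0`: it is
monotone, so `Im x · |y|² = 0`, `y ≠ 0` somewhere: `Im x = 0`.  If `x ≥ 0`: `Re(conj y y')` is nondecreasing, `0` at `0` and at `∞`, so its derivative
`|y'|² + (x+s)|y|²` is `0`: contradiction.
-/

namespace SokalV

open Complex Filter Topology MeasureTheory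

private noncomputable def K (c : ℂ) (n : ℕ) (x : ℂ) : ℂ :=
  ∫ s in Set.Ioi (0 : ℝ), (s : ℂ) ^ n * cexp (x * (c * s) - s ^ 3 / 3)

private theorem aux_bound (R : ℝ) (m : ℕ) : ∃ C : ℝ, 0 ≤ C ∧ ∀ s : ℝ, 0 ≤ s →
    s ^ m * Real.exp (R * s - s ^ 3 / 3) ≤ C * Real.exp (-s) := by
  set A : ℝ := |R| + 2 with hA
  have hA0 : 0 ≤ A := by positivity
  refine ⟨m.factorial * Real.exp (3 * A * (1 + A)), by positivity, fun s hs => ?_⟩
  have h1 : s ^ m ≤ m.factorial * Real.exp s := by
    have := Real.pow_div_factorial_le_exp s hs m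
    rw [div_le_iff₀ (by positivity)] at this
    linarith
  have h2 : A * s - s ^ 3 / 3 ≤ 3 * A * (1 + A) := by
    by_cases h : s ≤ 3 * (1 + A)
    · have h3 : 0 ≤ s ^ 3 := by positivity
      have h4 : A * s ≤ A * (3 * (1 + A)) := mul_le_mul_of_nonneg_left h hA0
      linarith
    · push Not at h
      have h3 : (3 * (1 + A)) ^ 2 ≤ s ^ 2 := by
        apply pow_le_pow_left₀ (by positivity) h.le
      have h4 : A * 3 ≤ s ^ 2 := by nlinarith only [h3]
      have h5 : A * s * 3 ≤ s ^ 3 := by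
        have := mul_le_mul_of_nonneg_right h4 hs
        linarith only [this]
      have h6 : 0 ≤ 3 * A * (1 + A) := by positivity
      linarith
  have h3 : R ≤ |R| := le_abs_self R
  have h4 : R * s + s + s ≤ A * s := by rw [hA]; nlinarith only [hs, h3]
  calc s ^ m * Real.exp (R * s - s ^ 3 / 3)
      ≤ (m.factorial * Real.exp s) * Real.exp (R * s - s ^ 3 / 3) :=
        mul_le_mul_of_nonneg_right h1 (Real.exp_pos _).le
    _ = m.factorial * (Real.exp s * Real.exp (R * s - s ^ 3 / 3)) := by ring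
    _ = m.factorial * Real.exp (s + (R * s - s ^ 3 / 3)) := by rw [Real.exp_add]
    _ ≤ m.factorial * Real.exp (3 * A * (1 + A) + (-s)) := by
        apply mul_le_mul_of_nonneg_left _ (by positivity)
        apply Real.exp_le_exp.2
        linarith
    _ = m.factorial * Real.exp (3 * A * (1 + A)) * Real.exp (-s) := by
        rw [Real.exp_add]; ring

private theorem norm_term (c x : ℂ) (n : ℕ) {s : ℝ} (hs : 0 ≤ s) :
    ‖(s : ℂ) ^ n * cexp (x * (c * s) - s ^ 3 / 3)‖ =
      s ^ n * Real.exp ((x * c).re * s - s ^ 3 / 3) := by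
  rw [norm_mul, norm_pow, Complex.norm_real, Real.norm_eq_abs, abs_of_nonneg hs,
    Complex.norm_exp]
  congr 2
  have h1 : (s : ℂ) ^ 3 / 3 = ((s ^ 3 / 3 : ℝ) : ℂ) := by push_cast; ring
  have h2 : x * (c * s) = (x * c) * (s : ℂ) := by ring
  rw [h1, h2, Complex.sub_re, Complex.ofReal_re, Complex.re_mul_ofReal]

private theorem norm_term_le (c x : ℂ) (n : ℕ) {R s : ℝ} (hs : 0 ≤ s) (hR : ‖x * c‖ ≤ R) :
    ‖(s : ℂ) ^ n * cexp (x * (c * s) - s ^ 3 / 3)‖ ≤
      s ^ n * Real.exp (R * s - s ^ 3 / 3) := by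
  rw [norm_term c x n hs]
  apply mul_le_mul_of_nonneg_left _ (by positivity)
  apply Real.exp_le_exp.2
  have : (x * c).re ≤ R := (Complex.re_le_norm _).trans hR
  nlinarith

private theorem cont_term (c x : ℂ) (n : ℕ) :
    Continuous fun s : ℝ => (s : ℂ) ^ n * cexp (x * (c * s) - s ^ 3 / 3) := by
  fun_prop

private theorem bound_int (R : ℝ) (n : ℕ) :
    IntegrableOn (fun s : ℝ => s ^ n * Real.exp (R * s - s ^ 3 / 3)) (Set.Ioi 0) := by
  obtain ⟨C, hC, h⟩ := aux_bound R n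
  have h1 : IntegrableOn (fun s : ℝ => C * Real.exp (-s)) (Set.Ioi 0) :=
    (integrableOn_exp_neg_Ioi 0).const_mul C
  refine Integrable.mono' h1 ?_ ?_
  · exact (by fun_prop : Continuous fun s : ℝ => s ^ n * Real.exp (R * s - s ^ 3 / 3)).aestronglyMeasurable
  · refine (ae_restrict_iff' measurableSet_Ioi).2 (Eventually.of_forall fun s hs => ?_)
    have hs' : 0 ≤ s := le_of_lt hs
    rw [Real.norm_of_nonneg (by positivity)]
    exact h s hs'

private theorem term_int (c x : ℂ) (n : ℕ) :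
    IntegrableOn (fun s : ℝ => (s : ℂ) ^ n * cexp (x * (c * s) - s ^ 3 / 3)) (Set.Ioi 0) := by
  refine Integrable.mono' (bound_int ‖x * c‖ n) (cont_term c x n).aestronglyMeasurable ?_
  refine (ae_restrict_iff' measurableSet_Ioi).2 (Eventually.of_forall fun s hs => ?_)
  exact norm_term_le c x n (le_of_lt hs) le_rfl

private theorem hasDerivAt_K (c : ℂ) (n : ℕ) (x : ℂ) :
    HasDerivAt (K c n) (c * K c (n + 1) x) x := by
  have key := hasDerivAt_integral_of_dominated_loc_of_deriv_le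
    (μ := volume.restrict (Set.Ioi (0 : ℝ)))
    (F := fun (x : ℂ) (s : ℝ) => (s : ℂ) ^ n * cexp (x * (c * s) - s ^ 3 / 3))
    (F' := fun (x : ℂ) (s : ℝ) => c * ((s : ℂ) ^ (n + 1) * cexp (x * (c * s) - s ^ 3 / 3)))
    (x₀ := x) (s := Metric.ball x 1)
    (bound := fun s : ℝ => ‖c‖ * (s ^ (n + 1) *
      Real.exp (((‖x‖ + 1) * ‖c‖) * s - s ^ 3 / 3)))
    (Metric.ball_mem_nhds x one_pos)
    (Eventually.of_forall fun y => (cont_term c y n).aestronglyMeasurable)
    (term_int c x n)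
    ((cont_term c x (n + 1)).const_smul c).aestronglyMeasurable
    ?_ ((bound_int _ (n + 1)).const_mul ‖c‖) ?_
  · have h : HasDerivAt (K c n) (∫ s in Set.Ioi (0 : ℝ),
        c * ((s : ℂ) ^ (n + 1) * cexp (x * (c * s) - s ^ 3 / 3))) x := key.2
    exact h.congr_deriv (integral_const_mul _ _)
  · refine (ae_restrict_iff' measurableSet_Ioi).2 (Eventually.of_forall fun s hs y hy => ?_)
    rw [norm_mul]
    apply mul_le_mul_of_nonneg_left _ (norm_nonneg c)
    apply norm_term_le c y (n + 1) (le_of_lt hs)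
    rw [norm_mul]
    apply mul_le_mul_of_nonneg_right _ (norm_nonneg c)
    have h1 : ‖y - x‖ < 1 := by simpa [dist_eq_norm] using hy
    have h2 := norm_add_le (y - x) x
    rw [sub_add_cancel] at h2
    linarith
  · refine (ae_restrict_iff' measurableSet_Ioi).2 (Eventually.of_forall fun s hs y hy => ?_)
    have h1 : HasDerivAt (fun y : ℂ => y * (c * s) - (s : ℂ) ^ 3 / 3) (c * s) y := by
      simpa using ((hasDerivAt_id y).mul_const (c * (s : ℂ))).sub_const ((s : ℂ) ^ 3 / 3)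
    have h2 := (h1.cexp).const_mul ((s : ℂ) ^ n)
    refine h2.congr_deriv ?_
    ring

private theorem K_two (c x : ℂ) : K c 2 x = 1 + x * c * K c 0 x := by
  have hd : ∀ s ∈ Set.Ici (0 : ℝ), HasDerivAt (fun s : ℝ => cexp (x * (c * s) - (s : ℂ) ^ 3 / 3))
      ((x * c - (s : ℂ) ^ 2) * cexp (x * (c * s) - (s : ℂ) ^ 3 / 3)) s := by
    intro s _
    have h0 : HasDerivAt (fun s : ℝ => (s : ℂ)) 1 s := Complex.ofRealCLM.hasDerivAt
    have h1 : HasDerivAt (fun s : ℝ => x * (c * s) - (s : ℂ) ^ 3 / 3) (x * c - (s : ℂ) ^ 2) s := by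
      have h2 := ((h0.const_mul c).const_mul x).sub ((h0.pow 3).div_const 3)
      refine h2.congr_deriv ?_
      simp
    refine (h1.cexp).congr_deriv ?_
    ring
  have hi0 := term_int c x 0
  have hi2 := term_int c x 2
  have hi : IntegrableOn (fun s : ℝ => (x * c - (s : ℂ) ^ 2) *
      cexp (x * (c * s) - (s : ℂ) ^ 3 / 3)) (Set.Ioi 0) := by
    have h3 := (hi0.const_mul (x * c)).sub hi2
    refine h3.congr (Eventually.of_forall fun s => ?_)
    simp
    ring
  have ht : Tendsto (fun s : ℝ => cexp (x * (c * s) - (s : ℂ) ^ 3 / 3)) atTop (𝓝 0) := by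
    rw [tendsto_zero_iff_norm_tendsto_zero]
    obtain ⟨C, hC, h⟩ := aux_bound ‖x * c‖ 0
    have h4 : Tendsto (fun s : ℝ => C * Real.exp (-s)) atTop (𝓝 0) := by
      simpa using (Real.tendsto_exp_neg_atTop_nhds_zero).const_mul C
    refine squeeze_zero' (Eventually.of_forall fun s => norm_nonneg _) ?_ h4
    filter_upwards [eventually_ge_atTop 0] with s hs
    have h5 := (norm_term_le c x 0 hs le_rfl).trans (h s hs)
    simpa using h5
  have hfin := integral_Ioi_of_hasDerivAt_of_tendsto' hd hi ht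
  have e1 : (∫ s in Set.Ioi (0 : ℝ), (x * c - (s : ℂ) ^ 2) *
      cexp (x * (c * s) - (s : ℂ) ^ 3 / 3)) = x * c * K c 0 x - K c 2 x := by
    unfold K
    rw [← integral_const_mul, ← integral_sub (hi0.const_mul (x * c)) hi2]
    refine integral_congr_ae (Eventually.of_forall fun s => ?_)
    simp
    ring
  rw [e1] at hfin
  have e2 : cexp (x * (c * ((0 : ℝ) : ℂ)) - ((0 : ℝ) : ℂ) ^ 3 / 3) = 1 := by simp
  rw [e2] at hfin
  linear_combination -hfin

private theorem w_cube : cexp (2 * Real.pi * I / 3) ^ 3 = 1 := by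
  rw [← Complex.exp_nat_mul]
  have : ((3 : ℕ) : ℂ) * (2 * Real.pi * I / 3) = 2 * Real.pi * I := by push_cast; ring
  rw [this, Complex.exp_two_pi_mul_I]

private theorem w_cube' : cexp (-(2 * Real.pi * I / 3)) ^ 3 = 1 := by
  rw [Complex.exp_neg, inv_pow, w_cube, inv_one]

private theorem Ai_eq (x : ℂ) : Ai x = K (cexp (2 * Real.pi * I / 3)) 0 x * cexp (2 * Real.pi * I / 3) -
    K (cexp (-(2 * Real.pi * I / 3))) 0 x * cexp (-(2 * Real.pi * I / 3)) := by
  unfold Ai K
  simp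

private theorem Ad_eq (x : ℂ) : Ad x =
    K (cexp (2 * Real.pi * I / 3)) 1 x * cexp (2 * Real.pi * I / 3) ^ 2 -
    K (cexp (-(2 * Real.pi * I / 3))) 1 x * cexp (-(2 * Real.pi * I / 3)) ^ 2 := by
  unfold Ad K
  simp

theorem hasDerivAt_Ai (x : ℂ) : HasDerivAt Ai (Ad x) x := by
  have h : Ai = fun x => K (cexp (2 * Real.pi * I / 3)) 0 x * cexp (2 * Real.pi * I / 3) -
    K (cexp (-(2 * Real.pi * I / 3))) 0 x * cexp (-(2 * Real.pi * I / 3)) := funext Ai_eq
  rw [h, Ad_eq]
  refine (((hasDerivAt_K _ 0 x).mul_const _).sub ((hasDerivAt_K _ 0 x).mul_const _)).congr_deriv ?_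
  ring

theorem hasDerivAt_Ad (x : ℂ) : HasDerivAt Ad (x * Ai x) x := by
  have h : Ad = fun x => K (cexp (2 * Real.pi * I / 3)) 1 x * cexp (2 * Real.pi * I / 3) ^ 2 -
    K (cexp (-(2 * Real.pi * I / 3))) 1 x * cexp (-(2 * Real.pi * I / 3)) ^ 2 := funext Ad_eq
  rw [h, Ai_eq]
  refine (((hasDerivAt_K _ 1 x).mul_const _).sub ((hasDerivAt_K _ 1 x).mul_const _)).congr_deriv ?_
  have e1 := w_cube
  have e2 := w_cube'
  have k1 := K_two (cexp (2 * Real.pi * I / 3)) x
  have k2 := K_two (cexp (-(2 * Real.pi * I / 3))) x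
  rw [show (1 + 1 : ℕ) = 2 from rfl, k1, k2]
  linear_combination (1 + x * cexp (2 * Real.pi * I / 3) * K (cexp (2 * Real.pi * I / 3)) 0 x) * e1 -
    (1 + x * cexp (-(2 * Real.pi * I / 3)) * K (cexp (-(2 * Real.pi * I / 3))) 0 x) * e2

theorem Ai_zero_ne : Ai 0 ≠ 0 := by
  have h1 : Ai 0 = ((∫ s in Set.Ioi (0 : ℝ), Real.exp (-(s ^ 3 / 3)) : ℝ) : ℂ) *
      (cexp (2 * Real.pi * I / 3) - cexp (-(2 * Real.pi * I / 3))) := by
    unfold Ai
    have e : (∫ s in Set.Ioi (0 : ℝ), cexp (-((s : ℂ) ^ 3 / 3))) =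
        ((∫ s in Set.Ioi (0 : ℝ), Real.exp (-(s ^ 3 / 3)) : ℝ) : ℂ) := by
      rw [← integral_complex_ofReal]
      refine integral_congr_ae (Eventually.of_forall fun s => ?_)
      simp
    simp only [zero_mul, zero_sub]
    rw [e]
    ring
  rw [h1]
  refine mul_ne_zero ?_ ?_
  · rw [Complex.ofReal_ne_zero]
    apply ne_of_gt
    have hi : IntegrableOn (fun s : ℝ => Real.exp (-(s ^ 3 / 3))) (Set.Ioi 0) := by
      have := bound_int 0 0
      refine this.congr (Eventually.of_forall fun s => ?_)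
      simp
    rw [integral_pos_iff_support_of_nonneg (fun s => (Real.exp_pos _).le) hi]
    have hs : Function.support (fun s : ℝ => Real.exp (-(s ^ 3 / 3))) = Set.univ := by
      ext s; simp [(Real.exp_pos _).ne']
    rw [hs, Measure.restrict_apply_univ, Real.volume_Ioi]
    exact ENNReal.zero_lt_top
  · have h2 : (cexp (2 * Real.pi * I / 3) - cexp (-(2 * Real.pi * I / 3))) =
        2 * I * Complex.sin (2 * Real.pi / 3) := by
      have e1 : cexp (2 * Real.pi * I / 3) = cexp ((2 * Real.pi / 3) * I) := by congr 1; ring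
      have e2 : cexp (-(2 * Real.pi * I / 3)) = cexp (-(2 * Real.pi / 3) * I) := by congr 1; ring
      rw [e1, e2, Complex.sin]
      ring_nf
      rw [Complex.I_sq]
      ring
    rw [h2]
    refine mul_ne_zero (mul_ne_zero two_ne_zero Complex.I_ne_zero) ?_
    have h3 : Complex.sin (2 * Real.pi / 3) = ((Real.sin (2 * Real.pi / 3) : ℝ) : ℂ) := by
      push_cast; rfl
    rw [h3, Complex.ofReal_ne_zero]
    apply ne_of_gt
    apply Real.sin_pos_of_pos_of_lt_pi
    · positivity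
    · linarith [Real.pi_pos]

theorem airy_simple {x : ℂ} (h : Ai x = 0) : Ad x ≠ 0 := by
  intro h'
  have hpath : ∀ τ : ℝ, HasDerivAt (fun τ : ℝ => x + (τ : ℂ) * (-x)) (-x) τ := by
    intro τ
    have h0 : HasDerivAt (fun τ : ℝ => (τ : ℂ)) 1 τ := Complex.ofRealCLM.hasDerivAt
    simpa using (h0.mul_const (-x)).const_add x
  have hf : ∀ τ : ℝ, HasDerivAt (fun τ : ℝ => (Ai (x + (τ : ℂ) * (-x)), Ad (x + (τ : ℂ) * (-x))))
      (Ad (x + (τ : ℂ) * (-x)) * (-x), ((x + (τ : ℂ) * (-x)) * Ai (x + (τ : ℂ) * (-x))) * (-x)) τ := by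
    intro τ
    exact ((hasDerivAt_Ai _).comp τ (hpath τ)).prodMk ((hasDerivAt_Ad _).comp τ (hpath τ))
  have key := norm_le_gronwallBound_of_norm_deriv_right_le (a := 0) (b := 1) (δ := 0)
    (K := ‖x‖ + ‖x‖ ^ 2) (ε := 0)
    (f := fun τ : ℝ => (Ai (x + (τ : ℂ) * (-x)), Ad (x + (τ : ℂ) * (-x))))
    (f' := fun τ : ℝ => (Ad (x + (τ : ℂ) * (-x)) * (-x),
      ((x + (τ : ℂ) * (-x)) * Ai (x + (τ : ℂ) * (-x))) * (-x)))
    (fun τ _ => (hf τ).continuousAt.continuousWithinAt)
    (fun τ _ => (hf τ).hasDerivWithinAt) (by simp [h, h']) ?_ 1 (by simp)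
  · rw [gronwallBound_ε0_δ0] at key
    have h1 := norm_le_zero_iff.1 key
    have h2 := congrArg Prod.fst h1
    have h3 : x + ((1 : ℝ) : ℂ) * (-x) = 0 := by push_cast; ring
    simp only at h2
    rw [h3] at h2
    exact Ai_zero_ne h2
  · intro τ hτ
    set y := Ai (x + (τ : ℂ) * (-x)) with hy
    set z := Ad (x + (τ : ℂ) * (-x)) with hz
    have hn : ‖x + (τ : ℂ) * (-x)‖ ≤ ‖x‖ := by
      have e : x + (τ : ℂ) * (-x) = ((1 - τ : ℝ) : ℂ) * x := by push_cast; ring
      rw [e, norm_mul, Complex.norm_real, Real.norm_of_nonneg (by linarith [hτ.2])]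
      have := hτ.1
      nlinarith only [this, norm_nonneg x]
    have hm1 : ‖y‖ ≤ ‖(y, z)‖ := norm_fst_le (y, z)
    have hm2 : ‖z‖ ≤ ‖(y, z)‖ := norm_snd_le (y, z)
    rw [add_zero]
    refine (Prod.norm_def _).le.trans (max_le ?_ ?_)
    · simp only
      rw [norm_mul, norm_neg]
      have h0 := norm_nonneg x
      have h1 := norm_nonneg z
      have h2 := norm_nonneg (y, z)
      have : ‖z‖ * ‖x‖ ≤ ‖(y, z)‖ * ‖x‖ := mul_le_mul_of_nonneg_right hm2 h0
      nlinarith only [h2, this]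
    · simp only
      rw [norm_mul, norm_mul, norm_neg]
      have h0 := norm_nonneg x
      have h1 := norm_nonneg y
      have h2 := norm_nonneg (y, z)
      have h3 : ‖x + (τ : ℂ) * (-x)‖ * ‖y‖ ≤ ‖x‖ * ‖(y, z)‖ := mul_le_mul hn hm1 h1 h0
      have h4 := mul_le_mul_of_nonneg_right h3 h0
      linarith only [h4, mul_nonneg h2 h0]

private theorem K_tendsto (c x : ℂ) (hc : c.re < 0) (n : ℕ) :
    Tendsto (fun s : ℝ => K c n (x + s)) atTop (𝓝 0) := by
  have key := tendsto_integral_filter_of_dominated_convergence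
    (μ := volume.restrict (Set.Ioi (0 : ℝ))) (l := atTop)
    (F := fun (s : ℝ) (r : ℝ) => (r : ℂ) ^ n * cexp ((x + s) * (c * r) - (r : ℂ) ^ 3 / 3))
    (f := fun _ => 0)
    (fun r : ℝ => r ^ n * Real.exp (‖x * c‖ * r - r ^ 3 / 3))
    (Eventually.of_forall fun s => (cont_term c (x + s) n).aestronglyMeasurable) ?_
    (bound_int _ n) ?_
  · simpa [K] using key
  · filter_upwards [eventually_ge_atTop 0] with s hs
    refine (ae_restrict_iff' measurableSet_Ioi).2 (Eventually.of_forall fun r hr => ?_)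
    have hr' : (0 : ℝ) ≤ r := le_of_lt hr
    rw [norm_term c (x + s) n hr']
    apply mul_le_mul_of_nonneg_left _ (by positivity)
    apply Real.exp_le_exp.2
    have h1 : ((x + s) * c).re = (x * c).re + s * c.re := by
      rw [add_mul, Complex.add_re, Complex.re_ofReal_mul]
    rw [h1]
    have h2 : (x * c).re ≤ ‖x * c‖ := Complex.re_le_norm _
    have h3 : s * c.re ≤ 0 := mul_nonpos_of_nonneg_of_nonpos hs hc.le
    nlinarith only [hr', h2, h3]
  · refine (ae_restrict_iff' measurableSet_Ioi).2 (Eventually.of_forall fun r hr => ?_)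
    have hr0 : (0 : ℝ) < r := hr
    rw [tendsto_zero_iff_norm_tendsto_zero]
    have e : (fun s : ℝ => ‖(r : ℂ) ^ n * cexp ((x + s) * (c * r) - (r : ℂ) ^ 3 / 3)‖) =
        fun s : ℝ => (r ^ n * Real.exp ((x * c).re * r - r ^ 3 / 3)) * Real.exp (s * (c.re * r)) := by
      funext s
      rw [norm_term c (x + s) n hr0.le]
      have h1 : ((x + s) * c).re = (x * c).re + s * c.re := by
        rw [add_mul, Complex.add_re, Complex.re_ofReal_mul]
      rw [h1, mul_assoc, ← Real.exp_add]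
      congr 2
      ring
    rw [e]
    have h2 : Tendsto (fun s : ℝ => Real.exp (s * (c.re * r))) atTop (𝓝 0) := by
      apply Real.tendsto_exp_atBot.comp
      exact tendsto_id.atTop_mul_const_of_neg (mul_neg_of_neg_of_pos hc hr0)
    simpa using h2.const_mul (r ^ n * Real.exp ((x * c).re * r - r ^ 3 / 3))

private theorem w_re : (cexp (2 * Real.pi * I / 3)).re < 0 := by
  have e1 : cexp (2 * Real.pi * I / 3) = cexp (((2 * Real.pi / 3 : ℝ) : ℂ) * I) := by
    congr 1; push_cast; ring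
  rw [e1, Complex.exp_ofReal_mul_I_re]
  apply Real.cos_neg_of_pi_div_two_lt_of_lt <;> linarith [Real.pi_pos]

private theorem w_re' : (cexp (-(2 * Real.pi * I / 3))).re < 0 := by
  have e1 : cexp (-(2 * Real.pi * I / 3)) = cexp (((-(2 * Real.pi / 3) : ℝ) : ℂ) * I) := by
    congr 1; push_cast; ring
  rw [e1, Complex.exp_ofReal_mul_I_re, Real.cos_neg]
  apply Real.cos_neg_of_pi_div_two_lt_of_lt <;> linarith [Real.pi_pos]

private theorem Ai_tendsto (x : ℂ) : Tendsto (fun s : ℝ => Ai (x + s)) atTop (𝓝 0) := by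
  simp only [Ai_eq]
  simpa using ((K_tendsto _ x w_re 0).mul_const _).sub ((K_tendsto _ x w_re' 0).mul_const _)

private theorem Ad_tendsto (x : ℂ) : Tendsto (fun s : ℝ => Ad (x + s)) atTop (𝓝 0) := by
  simp only [Ad_eq]
  simpa using ((K_tendsto _ x w_re 1).mul_const _).sub ((K_tendsto _ x w_re' 1).mul_const _)

private theorem mono_zero {f f' : ℝ → ℝ} (hd : ∀ s, HasDerivAt f (f' s) s)
    (h0 : ∀ s, 0 ≤ s → 0 ≤ f' s) (hf : f 0 = 0) (ht : Tendsto f atTop (𝓝 0)) :
    ∀ s, 0 < s → f' s = 0 := by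
  have hmono : MonotoneOn f (Set.Ici 0) := by
    apply monotoneOn_of_deriv_nonneg (convex_Ici 0)
    · exact fun s _ => (hd s).continuousAt.continuousWithinAt
    · exact fun s _ => (hd s).differentiableAt.differentiableWithinAt
    · intro s hs
      rw [interior_Ici] at hs
      rw [(hd s).deriv]
      exact h0 s (le_of_lt hs)
  have hz : ∀ s, 0 ≤ s → f s = 0 := by
    intro s hs
    apply le_antisymm
    · refine ge_of_tendsto ht ?_
      filter_upwards [eventually_ge_atTop s] with t ht'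
      exact hmono hs (hs.trans ht') ht'
    · rw [← hf]
      exact hmono (Set.mem_Ici.2 le_rfl) hs hs
  intro s hs
  have h1 : f =ᶠ[𝓝 s] fun _ => 0 := by
    filter_upwards [lt_mem_nhds hs] with t ht'
    exact hz t (le_of_lt ht')
  have h2 : HasDerivAt f 0 s := (hasDerivAt_const s (0 : ℝ)).congr_of_eventuallyEq h1
  exact (hd s).unique h2

theorem airy_zero {x : ℂ} (h : Ai x = 0) : x.im = 0 ∧ x.re < 0 := by
  have hp : ∀ s : ℝ, HasDerivAt (fun s : ℝ => x + (s : ℂ)) 1 s := by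
    intro s
    have h0 : HasDerivAt (fun s : ℝ => (s : ℂ)) 1 s := Complex.ofRealCLM.hasDerivAt
    exact h0.const_add x
  have hy : ∀ s : ℝ, HasDerivAt (fun s : ℝ => Ai (x + s)) (Ad (x + s)) s := by
    intro s
    simpa [Function.comp_def] using (hasDerivAt_Ai (x + s)).comp s (hp s)
  have hz : ∀ s : ℝ, HasDerivAt (fun s : ℝ => Ad (x + s)) ((x + s) * Ai (x + s)) s := by
    intro s
    simpa [Function.comp_def] using (hasDerivAt_Ad (x + s)).comp s (hp s)
  have hyr : ∀ s : ℝ, HasDerivAt (fun s : ℝ => (Ai (x + s)).re) (Ad (x + s)).re s := fun s =>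
    Complex.reCLM.hasFDerivAt.comp_hasDerivAt s (hy s)
  have hyi : ∀ s : ℝ, HasDerivAt (fun s : ℝ => (Ai (x + s)).im) (Ad (x + s)).im s := fun s =>
    Complex.imCLM.hasFDerivAt.comp_hasDerivAt s (hy s)
  have hzr : ∀ s : ℝ, HasDerivAt (fun s : ℝ => (Ad (x + s)).re) ((x + s) * Ai (x + s)).re s :=
    fun s => Complex.reCLM.hasFDerivAt.comp_hasDerivAt s (hz s)
  have hzi : ∀ s : ℝ, HasDerivAt (fun s : ℝ => (Ad (x + s)).im) ((x + s) * Ai (x + s)).im s :=
    fun s => Complex.imCLM.hasFDerivAt.comp_hasDerivAt s (hz s)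
  have tA := Ai_tendsto x
  have tB := Ad_tendsto x
  have tAr : Tendsto (fun s : ℝ => (Ai (x + s)).re) atTop (𝓝 0) := by
    simpa [Function.comp_def] using (Complex.continuous_re.tendsto _).comp tA
  have tAi : Tendsto (fun s : ℝ => (Ai (x + s)).im) atTop (𝓝 0) := by
    simpa [Function.comp_def] using (Complex.continuous_im.tendsto _).comp tA
  have tBr : Tendsto (fun s : ℝ => (Ad (x + s)).re) atTop (𝓝 0) := by
    simpa [Function.comp_def] using (Complex.continuous_re.tendsto _).comp tB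
  have tBi : Tendsto (fun s : ℝ => (Ad (x + s)).im) atTop (𝓝 0) := by
    simpa [Function.comp_def] using (Complex.continuous_im.tendsto _).comp tB
  have h00 : Ai (x + ((0 : ℝ) : ℂ)) = 0 := by simpa using h
  have him : x.im = 0 := by
    -- `g = Im (conj y y')`, `g' = Im x |y|²`
    have hg : ∀ s : ℝ, HasDerivAt (fun s : ℝ => x.im * ((Ai (x + s)).re * (Ad (x + s)).im -
        (Ai (x + s)).im * (Ad (x + s)).re))
        (x.im ^ 2 * ((Ai (x + s)).re ^ 2 + (Ai (x + s)).im ^ 2)) s := by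
      intro s
      refine ((((hyr s).mul (hzi s)).sub ((hyi s).mul (hzr s))).const_mul x.im).congr_deriv ?_
      simp only [Complex.mul_re, Complex.mul_im, Complex.add_re, Complex.add_im,
        Complex.ofReal_re, Complex.ofReal_im]
      ring
    have hall := mono_zero hg (fun s _ => by positivity) (by simp [h]) (by
      have := ((tAr.mul tBi).sub (tAi.mul tBr)).const_mul x.im
      simpa using this)
    by_contra hne
    have hy0 : ∀ s : ℝ, 0 < s → Ai (x + s) = 0 := by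
      intro s hs
      have h1 := hall s hs
      have h2 : (Ai (x + s)).re ^ 2 + (Ai (x + s)).im ^ 2 = 0 := by
        rcases mul_eq_zero.1 h1 with h3 | h3
        · exact absurd (pow_eq_zero_iff (two_ne_zero)|>.1 h3) hne
        · exact h3
      apply Complex.ext
      · simp only [Complex.zero_re]; nlinarith only [h2]
      · simp only [Complex.zero_im]; nlinarith only [h2]
    have h1 : (fun s : ℝ => Ai (x + s)) =ᶠ[𝓝 1] fun _ => 0 := by
      filter_upwards [lt_mem_nhds (zero_lt_one : (0 : ℝ) < 1)] with t ht'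
      exact hy0 t ht'
    have h2 : HasDerivAt (fun s : ℝ => Ai (x + s)) 0 1 :=
      (hasDerivAt_const (1 : ℝ) (0 : ℂ)).congr_of_eventuallyEq h1
    exact airy_simple (hy0 1 one_pos) ((hy 1).unique h2)
  refine ⟨him, ?_⟩
  by_contra hre
  push Not at hre
  have hg : ∀ s : ℝ, HasDerivAt (fun s : ℝ => (Ai (x + s)).re * (Ad (x + s)).re +
      (Ai (x + s)).im * (Ad (x + s)).im)
      ((Ad (x + s)).re ^ 2 + (Ad (x + s)).im ^ 2 +
        (x.re + s) * ((Ai (x + s)).re ^ 2 + (Ai (x + s)).im ^ 2)) s := by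
    intro s
    refine (((hyr s).mul (hzr s)).add ((hyi s).mul (hzi s))).congr_deriv ?_
    simp only [Complex.mul_re, Complex.mul_im, Complex.add_re, Complex.add_im,
      Complex.ofReal_re, Complex.ofReal_im, him]
    ring
  have hall := mono_zero hg (fun s hs => by
    have : 0 ≤ x.re + s := add_nonneg hre hs
    positivity) (by simp [h]) (by
      have := (tAr.mul tBr).add (tAi.mul tBi)
      simpa using this)
  have h1 := hall 1 one_pos
  have h2 : 0 < x.re + 1 := by linarith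
  have h3 : (Ad (x + ((1 : ℝ) : ℂ))).re ^ 2 + (Ad (x + ((1 : ℝ) : ℂ))).im ^ 2 = 0 := by
    have := mul_nonneg h2.le (add_nonneg (sq_nonneg (Ai (x + ((1 : ℝ) : ℂ))).re)
      (sq_nonneg (Ai (x + ((1 : ℝ) : ℂ))).im))
    nlinarith only [hre, h1]
  have h4 : (Ai (x + ((1 : ℝ) : ℂ))).re ^ 2 + (Ai (x + ((1 : ℝ) : ℂ))).im ^ 2 = 0 := by
    rw [h3, zero_add] at h1
    exact (mul_eq_zero.1 h1).resolve_left h2.ne'
  have a1 : Ai (x + ((1 : ℝ) : ℂ)) = 0 := by
    apply Complex.ext
    · simp only [Complex.zero_re]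
      nlinarith only [h4]
    · simp only [Complex.zero_im]
      nlinarith only [h4]
  have a2 : Ad (x + ((1 : ℝ) : ℂ)) = 0 := by
    apply Complex.ext
    · simp only [Complex.zero_re]
      nlinarith only [h3]
    · simp only [Complex.zero_im]
      nlinarith only [h3]
  exact airy_simple a1 a2

end SokalV
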