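import Pool.Agent.Lib_MP_af4de1_v.TipDefs

/-!
# The cubic phase: contours [SV-CUB]

`u = e^{iγ}`, `0 ≤ γ ≤ π/2`, `‖v‖ = 1`.  Substitute `s = κσ`, `κ = 2^{1/3}e^{-iγ/3}` (`κ³ = 2ū`): `u Cu v s = Xσ - σ³/3` with
`X = 2^{1/3} v e^{2iγ/3}`, and `R ep u = κ·R 2^{-1/3} e^{2πi/3}`, `R em u = κ·R 2^{-1/3}e^{-2πi/3}`.  Let `Γ(σ) = Re(Xσ - σ³/3)`.
CASE `X ≠ -2^{1/3}` (`v e^{2iγ/3} ≠ -1`): let `p² = X`, `p1 = Re p > 0`.  `Γ(-p+τ) = Γ(-p) + Re(pτ² - τ³/3)`; on `τ = iy`: `Γ(-p) - p1 y²`.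
So `σ* = -p` is crossed vertically (`v = κ·5i`), then horizontally to the left:
`τ = -x+5i`, `0 ≤ x ≤ 4`: `Re(pτ²-τ³/3) = p1(x²-25) + 10p2x + x³/3 - 25x ≤ -p1`, to the ray
`arg σ = 2π/3`, then along the ray, where `Γ ≤ |X|ϱ - ϱ³/3`.  The same below by reflection.
`c = Γ(-p)`, `|c| ≤ (2/3)|X|^{3/2} < 1`, `c' = c - p1`.
CASE `X = -2^{1/3} =: -q²`: with `σ = x+iy`, `Γ = x(y² - q² - x²/3)`.  Saddles `∓iq`, height `0`.  Contour: from the ray `arg = -2π/3`
to `-q-2qi`, through `-iq` to `q`, through `iq` to `-q+2qi`, to the ray `arg = 2π/3`.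
-/

namespace SokalV

open Complex Filter Topology

private theorem conn_map {g g' : ℂ → ℝ} {c : ℝ} {A B : ℂ} {f : ℂ → ℂ} (hf : Continuous f)
    (h : Conn g c A B) (hg : ∀ H, g' (f H) = g H) : Conn g' c (f A) (f B) := by
  obtain ⟨U, h1, h2, h3, h4⟩ := h
  refine ⟨f '' U, h1.image f hf.continuousOn, ⟨A, h2, rfl⟩, ⟨B, h3, rfl⟩, ?_⟩
  rintro _ ⟨H, hH, rfl⟩
  rw [hg]; exact h4 H hH

private theorem chain_conn {u0 : ℂ} {Ψ0 : ℂ → ℂ} {c c' δ : ℝ} {A B : ℂ} {L : List ℂ}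
    (h : Chain u0 Ψ0 c c' A L B) (h1 : c' ≤ δ) (h2 : c < δ) :
    Conn (fun H => (u0 * Ψ0 H).re) δ A B := by
  induction h with
  | nil h => exact h.mono h1
  | @cons A B S v L hc hs _ ih =>
    refine ((hc.mono h1).trans (Conn.segment ?_)).trans ih
    intro s hs0 hs1
    have e : S - v + (s : ℂ) * (S + v - (S - v)) = S + ((2 * s - 1 : ℝ) : ℂ) * v := by
      push_cast; ring
    rw [e]
    by_cases h0 : 2 * s - 1 = 0
    · rw [h0]; simp only [ofReal_zero, zero_mul, add_zero]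
      rw [hs.height]; exact h2
    · exact (hs.seg _ (abs_le.2 ⟨by linarith, by linarith⟩) h0).trans h2

/-- The phase in the scaled coordinate. -/
private noncomputable def ga (X s : ℂ) : ℝ := (X * s - s ^ 3 / 3).re

private theorem ga_scale {u v κ s : ℂ} (h : u * κ ^ 3 = 2) :
    (u * Cu v (κ * s)).re = ga (u * v * κ) s := by
  unfold ga Cu
  congr 1
  have : u * (v * (κ * s) - (κ * s) ^ 3 / 6) = u * v * κ * s - (u * κ ^ 3) * s ^ 3 / 6 := by ring
  rw [this, h]; ring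

private theorem sad_scale {u v κ S V : ℂ} {c : ℝ} (hκ : κ ≠ 0) (hu0 : u ≠ 0) (h : u * κ ^ 3 = 2)
    (hS : S ^ 2 = u * v * κ) (hc : ga (u * v * κ) S = c) (hd : (S * V ^ 2).re > 0)
    (hs : ∀ s : ℝ, |s| ≤ 1 → s ≠ 0 → ga (u * v * κ) (S + s * V) < c) :
    Sad u (Cu v) c (κ * S) (κ * V) := by
  have hder : ∀ s : ℂ, deriv (Cu v) s = v - s ^ 2 / 2 := by
    intro s
    have h1 : HasDerivAt (Cu v) (v * 1 - (3 * s ^ 2) / 6) s := by
      unfold Cu
      have h2 : HasDerivAt (fun s : ℂ => v * s) (v * 1) s := (hasDerivAt_id s).const_mul v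
      have h3 : HasDerivAt (fun s : ℂ => s ^ 3) (3 * s ^ 2) s := by
        simpa using hasDerivAt_pow 3 s
      exact h2.sub (h3.div_const 6)
    rw [h1.deriv]; ring
  have hder2 : deriv (deriv (Cu v)) (κ * S) = -(κ * S) := by
    have h1 : deriv (Cu v) = fun s => v - s ^ 2 / 2 := funext hder
    rw [h1]
    have h3 : HasDerivAt (fun s : ℂ => s ^ 2) (2 * (κ * S)) (κ * S) := by
      simpa using hasDerivAt_pow 2 (κ * S)
    have h4 : HasDerivAt (fun s : ℂ => v - s ^ 2 / 2) (0 - 2 * (κ * S) / 2) (κ * S) :=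
      (hasDerivAt_const _ v).sub (h3.div_const 2)
    rw [h4.deriv]; ring
  refine ⟨?_, ?_, ?_, ?_⟩
  · rw [hder]
    have h1 : u * κ * (v - (κ * S) ^ 2 / 2) = 0 := by
      have : u * κ * (v - (κ * S) ^ 2 / 2) = u * v * κ - (u * κ ^ 3) * S ^ 2 / 2 := by ring
      rw [this, h, hS]; ring
    rcases mul_eq_zero.1 h1 with h2 | h2
    · exact absurd h2 (mul_ne_zero hu0 hκ)
    · exact h2
  · rw [ga_scale h]; exact hc
  · rw [hder2]
    have : u * -(κ * S) * (κ * V) ^ 2 = -((u * κ ^ 3) * (S * V ^ 2)) := by ring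
    rw [this, h, neg_re]
    have h2 : (2 * (S * V ^ 2)).re = 2 * (S * V ^ 2).re := by
      simp [mul_re]
    rw [h2]; linarith
  · intro s h1 h2
    have : κ * S + s * (κ * V) = κ * (S + s * V) := by ring
    rw [this, ga_scale h]
    exact hs s h1 h2

private theorem ga_shift (p : ℂ) (x y : ℝ) : ga (p ^ 2) (-p + (x + y * I)) =
    -(2 / 3) * (p ^ 3).re + p.re * (x ^ 2 - y ^ 2) - 2 * p.im * x * y - x ^ 3 / 3 + x * y ^ 2 := by
  obtain ⟨a, b⟩ := p
  unfold ga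
  have h : ∀ z : ℂ, (z / 3).re = z.re / 3 := fun z => by
    have := Complex.div_ofReal_re z 3
    simpa using this
  rw [sub_re, h]
  simp only [pow_succ, pow_zero, one_mul, mul_re, mul_im, add_re, add_im, neg_re, neg_im,
    ofReal_re, ofReal_im, I_re, I_im]
  ring

private theorem ga_xy (X : ℝ) (x y : ℝ) : ga (X : ℂ) (x + y * I) =
    x * (y ^ 2 + X - x ^ 2 / 3) := by
  unfold ga
  have h : ∀ z : ℂ, (z / 3).re = z.re / 3 := fun z => by
    have := Complex.div_ofReal_re z 3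
    simpa using this
  rw [sub_re, h]
  simp only [pow_succ, pow_zero, one_mul, mul_re, mul_im, add_re, add_im, neg_re, neg_im,
    ofReal_re, ofReal_im, I_re, I_im]
  ring

/-- The upper ray direction. -/
private noncomputable def om : ℂ := ⟨-1 / 2, Real.sqrt 3 / 2⟩

private theorem om_cube : om ^ 3 = 1 := by
  have h3 : Real.sqrt 3 ^ 2 = 3 := Real.sq_sqrt (by norm_num)
  have h3' : Real.sqrt 3 * Real.sqrt 3 = 3 := by rw [← sq]; exact h3
  apply Complex.ext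
  · simp only [om, pow_succ, pow_zero, one_mul, mul_re, mul_im, one_re]
    ring_nf; rw [h3]; norm_num
  · simp only [om, pow_succ, pow_zero, one_mul, mul_re, mul_im, one_im]
    ring_nf
    have : Real.sqrt 3 ^ 3 = 3 * Real.sqrt 3 := by rw [pow_succ, h3]
    rw [this]; ring

private theorem norm_om : ‖om‖ = 1 := by
  have h := congrArg norm om_cube
  rw [norm_pow, norm_one] at h
  exact (pow_eq_one_iff_of_nonneg (norm_nonneg _) (by norm_num)).1 h

private theorem exp_om : cexp (2 * Real.pi / 3 * I) = om := by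
  have e : (2 * Real.pi / 3 * I : ℂ) = ((Real.pi - Real.pi / 3 : ℝ) : ℂ) * I := by
    push_cast; ring
  rw [e, exp_mul_I, ← ofReal_cos, ← ofReal_sin, Real.cos_pi_sub, Real.sin_pi_sub,
    Real.cos_pi_div_three, Real.sin_pi_div_three]
  apply Complex.ext
  · simp [om]; norm_num
  · simp [om]

private theorem exp_om' : cexp (-(2 * Real.pi / 3) * I) = (starRingEnd ℂ) om := by
  rw [← exp_om, ← exp_conj]
  congr 1
  simp only [map_mul, map_div₀, conj_ofReal, conj_I, map_ofNat]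
  ring

private theorem scale_data {u v : ℂ} (hu : ‖u‖ = 1) : ∃ a : ℝ, 0 < a ∧ a ^ 3 = 2 ∧
    ∃ κ : ℂ, κ ≠ 0 ∧ u * κ ^ 3 = 2 ∧ u * v * κ = a * (v * cexp (2 * u.arg / 3 * I)) ∧
      (∀ R : ℝ, (R : ℂ) * ep u = κ * ((R / a : ℝ) * om)) ∧
      (∀ R : ℝ, (R : ℂ) * em u = κ * ((R / a : ℝ) * (starRingEnd ℂ) om)) := by
  have ha : (0 : ℝ) < (2 : ℝ) ^ ((1 : ℝ) / 3) := Real.rpow_pos_of_pos (by norm_num) _
  have ha3 : ((2 : ℝ) ^ ((1 : ℝ) / 3)) ^ 3 = 2 := by
    rw [← Real.rpow_natCast, ← Real.rpow_mul (by norm_num)]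
    norm_num
  generalize (2 : ℝ) ^ ((1 : ℝ) / 3) = a at ha ha3
  have hu' : u = cexp (u.arg * I) := by
    have := Complex.norm_mul_exp_arg_mul_I u
    rw [hu] at this
    simpa using this.symm
  have ha0 : (a : ℂ) ≠ 0 := by exact_mod_cast ha.ne'
  refine ⟨a, ha, ha3, a * cexp (-(u.arg / 3) * I), mul_ne_zero ha0 (exp_ne_zero _), ?_, ?_, ?_, ?_⟩
  · rw [mul_pow, ← Complex.exp_nat_mul]
    have h1 : (a : ℂ) ^ 3 = 2 := by exact_mod_cast congrArg ((↑) : ℝ → ℂ) ha3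
    rw [h1]
    nth_rewrite 1 [hu']
    have : cexp (u.arg * I) * (2 * cexp (((3 : ℕ) : ℂ) * (-(u.arg / 3) * I))) =
        2 * (cexp (u.arg * I) * cexp (((3 : ℕ) : ℂ) * (-(u.arg / 3) * I))) := by ring
    rw [this, ← Complex.exp_add]
    have h2 : (u.arg * I + ((3 : ℕ) : ℂ) * (-(u.arg / 3) * I) : ℂ) = 0 := by push_cast; ring
    rw [h2, Complex.exp_zero, mul_one]
  · nth_rewrite 1 [hu']
    have : cexp (u.arg * I) * v * (a * cexp (-(u.arg / 3) * I)) =
        a * (v * (cexp (u.arg * I) * cexp (-(u.arg / 3) * I))) := by ring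
    rw [this, ← Complex.exp_add]
    congr 3
    ring
  · intro R
    rw [← exp_om]
    unfold ep
    have : (a * cexp (-(u.arg / 3) * I) * ((R / a : ℝ) * cexp (2 * Real.pi / 3 * I)) : ℂ) =
        (a * (R / a)) * (cexp (2 * Real.pi / 3 * I) * cexp (-(u.arg / 3) * I)) := by
      push_cast; ring
    rw [this, mul_div_cancel₀ _ ha0, ← Complex.exp_add]
    congr 2
    ring
  · intro R
    rw [← exp_om']
    unfold em
    have : (a * cexp (-(u.arg / 3) * I) * ((R / a : ℝ) * cexp (-(2 * Real.pi / 3) * I)) : ℂ) =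
        (a * (R / a)) * (cexp (-(2 * Real.pi / 3) * I) * cexp (-(u.arg / 3) * I)) := by
      push_cast; ring
    rw [this, mul_div_cancel₀ _ ha0, ← Complex.exp_add]
    congr 2
    ring

private theorem ga_conj (X s : ℂ) :
    ga ((starRingEnd ℂ) X) ((starRingEnd ℂ) s) = ga X s := by
  unfold ga
  have : (starRingEnd ℂ) X * (starRingEnd ℂ) s - (starRingEnd ℂ) s ^ 3 / 3 =
      (starRingEnd ℂ) (X * s - s ^ 3 / 3) := by
    simp only [map_sub, map_mul, map_div₀, map_pow, map_ofNat]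
  rw [this, conj_re]

private theorem ga_ray (X : ℂ) (r : ℝ) (hr : 0 ≤ r) : ga X (r * om) ≤ ‖X‖ * r - r ^ 3 / 3 := by
  unfold ga
  have h : ∀ z : ℂ, (z / 3).re = z.re / 3 := fun z => by
    have := Complex.div_ofReal_re z 3
    simpa using this
  rw [sub_re, h, mul_pow, om_cube, mul_one]
  have h1 : ((r : ℂ) ^ 3).re = r ^ 3 := by rw [← ofReal_pow, ofReal_re]
  rw [h1]
  have h2 : (X * (r * om)).re ≤ ‖X‖ * r := by
    calc (X * (r * om)).re ≤ ‖X * (r * om)‖ := re_le_norm _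
      _ = ‖X‖ * r := by
        rw [norm_mul, norm_mul, norm_om, mul_one, norm_real, Real.norm_of_nonneg hr]
  linarith

/-- The upper half of the contour in the first case. -/
private theorem half_one {a : ℝ} (ha : 0 < a) (ha3 : a ^ 3 = 2) {p : ℂ} (hp : ‖p‖ ^ 2 = a)
    (hp1 : 0 < p.re) {r : ℝ} (hr : 8 ≤ r) :
    Conn (ga (p ^ 2)) (-(2 / 3) * (p ^ 3).re - p.re) (-p + 5 * I) (r * om) := by
  have ha1 : a < 1.27 := by
    by_contra hcon
    push Not at hcon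
    have : (1.27 : ℝ) ^ 3 ≤ a ^ 3 := pow_le_pow_left₀ (by norm_num) hcon 3
    rw [ha3] at this; norm_num at this
  have hp0 : ‖p‖ ≤ 1.13 := by
    by_contra hcon
    push Not at hcon
    have : (1.13 : ℝ) ^ 2 ≤ ‖p‖ ^ 2 := pow_le_pow_left₀ (by norm_num) hcon.le 2
    rw [hp] at this; norm_num at this
    linarith
  have hp2 := abs_le.1 ((abs_im_le_norm p).trans hp0)
  have hp3 := abs_le.1 ((abs_re_le_norm p).trans hp0)
  have hp4 : |(p ^ 3).re| ≤ 1.5 := by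
    calc |(p ^ 3).re| ≤ ‖p ^ 3‖ := abs_re_le_norm _
      _ = ‖p‖ ^ 3 := norm_pow _ _
      _ ≤ 1.13 ^ 3 := pow_le_pow_left₀ (norm_nonneg _) hp0 3
      _ ≤ 1.5 := by norm_num
  have hp5 := abs_le.1 hp4
  set w : ℝ := Real.sqrt 3 with hw
  have hw2 : w ^ 2 = 3 := Real.sq_sqrt (by norm_num)
  have hw0 : 0 ≤ w := Real.sqrt_nonneg _
  have hw1 : 1.73 ≤ w := by nlinarith only [hw2, hw0]
  have hw3 : w ≤ 1.74 := by nlinarith only [hw2]
  set r0 : ℝ := 2 * (5 - p.im) * w / 3 with hr0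
  have hr1 : r0 ≤ 8 := by rw [hr0]; nlinarith
  have hr2 : 4 ≤ r0 := by rw [hr0]; nlinarith
  have hend : (r0 : ℂ) * om - (-p + 5 * I) = ((-(r0 / 2 - p.re) : ℝ) : ℂ) := by
    apply Complex.ext
    · simp [om]; ring
    · simp [om]
      rw [hr0, ← hw]
      have : 2 * (5 - p.im) * w / 3 * (w / 2) = (5 - p.im) * w ^ 2 / 3 := by ring
      rw [this, hw2]; ring
  have hx0 : 0 ≤ r0 / 2 - p.re := by linarith
  have hx1 : r0 / 2 - p.re ≤ 4 := by linarith
  refine Conn.trans (B := (r0 : ℂ) * om) (Conn.segment ?_) (Conn.segment ?_)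
  · intro s hs0 hs1
    rw [hend]
    have e : -p + 5 * I + (s : ℂ) * ((-(r0 / 2 - p.re) : ℝ) : ℂ) =
        -p + (((-(s * (r0 / 2 - p.re)) : ℝ) : ℂ) + ((5 : ℝ) : ℂ) * I) := by
      push_cast; ring
    rw [e, ga_shift]
    have hx2 : 0 ≤ s * (r0 / 2 - p.re) := mul_nonneg hs0 hx0
    have hx3 : s * (r0 / 2 - p.re) ≤ 4 := by nlinarith only [hx1, hs0, hs1]
    generalize s * (r0 / 2 - p.re) = x at hx2 hx3
    have k1 : p.re * (x ^ 2 - 25) < -p.re := by
      have k0 : x ^ 2 - 25 < -1 := by nlinarith only [hx2, hx3]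
      linarith only [mul_pos hp1 (sub_pos.2 k0)]
    have k2 : x * (10 * p.im + x ^ 2 / 3 - 25) ≤ 0 := by
      apply mul_nonpos_of_nonneg_of_nonpos hx2
      nlinarith only [hw1, hw3, hr0, hr2, hx2, hx3]
    linarith only [k1, k2]
  · intro s hs0 hs1
    have e : (r0 : ℂ) * om + (s : ℂ) * ((r : ℂ) * om - (r0 : ℂ) * om) =
        ((r0 + s * (r - r0) : ℝ) : ℂ) * om := by push_cast; ring
    rw [e]
    have hR : 4 ≤ r0 + s * (r - r0) := by nlinarith only [hr, hr2, hs0, hs1]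
    generalize r0 + s * (r - r0) = x at hR
    have h1 := ga_ray (p ^ 2) x (by linarith)
    rw [norm_pow, hp] at h1
    have h2 : a * x - x ^ 3 / 3 < -3 := by
      have : x * (a - x ^ 2 / 3) ≤ 4 * (-3) := by nlinarith only [ha1, hR]
      linarith only [this]
    have h3 : -(2 / 3) * (p ^ 3).re - p.re ≥ -3 := by linarith
    linarith

/-- One saddle point. -/
theorem cubic_one {u v : ℂ} (hu : ‖u‖ = 1) (hre : 0 ≤ u.re) (him : 0 ≤ u.im) (hv : ‖v‖ = 1)
    (h : v * cexp (2 * u.arg / 3 * I) ≠ -1) : ∃ c : ℝ, -1 < c ∧ c < 1 ∧ ∃ S : ℂ, ∃ c' < c, ∃ R1 : ℝ,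
      ∀ R : ℝ, R1 ≤ R → Chain u (Cu v) c c' (R * em u) [S] (R * ep u) := by
  obtain ⟨a, ha, ha3, κ, hκ, hκ3, hX, hep, hem⟩ := scale_data (v := v) hu
  have hu0 : u ≠ 0 := by rintro rfl; simp at hu
  have hXn : ‖u * v * κ‖ = a := by
    rw [hX, norm_mul, norm_mul, hv, norm_real, Real.norm_of_nonneg ha.le]
    have : (2 * u.arg / 3 * I : ℂ) = ((2 * u.arg / 3 : ℝ) : ℂ) * I := by push_cast; ring
    rw [this, norm_exp_ofReal_mul_I]; ring
  obtain ⟨p0, hp0⟩ := IsAlgClosed.exists_pow_nat_eq (u * v * κ) (n := 2) (by norm_num)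
  have hp0n : ‖p0‖ ^ 2 = a := by rw [← norm_pow, hp0, hXn]
  obtain ⟨p, hp, hpn, hp1⟩ : ∃ p : ℂ, p ^ 2 = u * v * κ ∧ ‖p‖ ^ 2 = a ∧ 0 < p.re := by
    rcases lt_trichotomy p0.re 0 with h1 | h1 | h1
    · exact ⟨-p0, by rw [neg_sq]; exact hp0, by rw [norm_neg]; exact hp0n,
        by rw [neg_re]; linarith⟩
    · exfalso
      apply h
      have h2 : p0 = (p0.im : ℂ) * I := by
        apply Complex.ext
        · simp [h1]
        · simp
      have h3 : p0 ^ 2 = -(a : ℂ) := by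
        rw [h2, mul_pow, I_sq, ← ofReal_pow]
        have : ‖p0‖ ^ 2 = p0.im ^ 2 := by
          rw [h2]; simp
        rw [← this, hp0n]; ring
      have ha0 : (a : ℂ) ≠ 0 := by exact_mod_cast ha.ne'
      have h4 : (a : ℂ) * (v * cexp (2 * u.arg / 3 * I)) = a * (-1) := by
        rw [← hX, ← hp0, h3]; ring
      exact mul_left_cancel₀ ha0 h4
    · exact ⟨p0, hp0, hp0n, h1⟩
  have hp6 : (‖p‖ ^ 3) ^ 2 = 2 := by
    rw [← ha3, ← hpn]; ring
  have hp7 : ‖p‖ ^ 3 < 1.5 := by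
    have : 0 ≤ ‖p‖ ^ 3 := by positivity
    nlinarith only [hp6]
  have hp8 : |(p ^ 3).re| < 1.5 := by
    calc |(p ^ 3).re| ≤ ‖p ^ 3‖ := abs_re_le_norm _
      _ = ‖p‖ ^ 3 := norm_pow _ _
      _ < 1.5 := hp7
  have hp9 := abs_lt.1 hp8
  refine ⟨-(2 / 3) * (p ^ 3).re, by linarith, by linarith, κ * (-p),
    -(2 / 3) * (p ^ 3).re - p.re, by linarith, 8 * a, ?_⟩
  intro R hR
  have hRa : 8 ≤ R / a := by rw [le_div_iff₀ ha]; exact hR
  refine Chain.cons (v := κ * (5 * I)) ?_ ?_ (Chain.nil ?_)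
  · rw [hem, ← mul_sub]
    have hc : (p ^ 3).re = ((starRingEnd ℂ) p ^ 3).re := by
      rw [← map_pow, conj_re]
    have k := half_one ha ha3 (p := (starRingEnd ℂ) p) (by rw [RCLike.norm_conj]; exact hpn)
      (by rw [conj_re]; exact hp1) hRa
    rw [← hc, conj_re, ← map_pow] at k
    have k2 := conn_map (g' := ga (p ^ 2)) continuous_conj k (fun H => by
      have := ga_conj (p ^ 2) ((starRingEnd ℂ) H)
      rw [Complex.conj_conj] at this
      exact this.symm)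
    have e1 : (starRingEnd ℂ) (-(starRingEnd ℂ) p + 5 * I) = -p - 5 * I := by
      simp only [map_add, map_neg, map_mul, Complex.conj_conj, conj_I, map_ofNat]; ring
    have e2 : (starRingEnd ℂ) (((R / a : ℝ) : ℂ) * om) = ((R / a : ℝ) : ℂ) * (starRingEnd ℂ) om := by
      rw [map_mul, conj_ofReal]
    rw [e1, e2] at k2
    exact conn_map (f := fun s => κ * s) (continuous_const.mul continuous_id) k2.symm
      (fun H => by rw [ga_scale hκ3, hp])
  · refine sad_scale hκ hu0 hκ3 (by rw [neg_sq, hp]) ?_ ?_ ?_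
    · rw [← hp]
      have := ga_shift p 0 0
      simpa using this
    · have : -p * (5 * I) ^ 2 = 25 * p := by rw [mul_pow, I_sq]; ring
      rw [this]
      have h2 : (25 * p).re = 25 * p.re := by simp [mul_re]
      rw [h2]; linarith
    · intro s _ hs
      rw [← hp]
      have e : -p + (s : ℂ) * (5 * I) = -p + (((0 : ℝ) : ℂ) + ((5 * s : ℝ) : ℂ) * I) := by
        push_cast; ring
      rw [e, ga_shift]
      have : 0 < s ^ 2 := by positivity
      nlinarith only [hp1, this]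
  · rw [hep, ← mul_add]
    have k := half_one ha ha3 hpn hp1 hRa
    exact conn_map (f := fun s => κ * s) (continuous_const.mul continuous_id) k
      (fun H => by rw [ga_scale hκ3, hp])

/-- The upper half of the contour in the second case. -/
private theorem half_two {a q : ℝ} (hq : 0 < q) (hqa : q ^ 2 = a) (ha3 : a ^ 3 = 2)
    {r : ℝ} (hr : 8 ≤ r) :
    Conn (ga ((-a : ℝ) : ℂ)) (-1) ((-q : ℝ) + (2 * q : ℝ) * I) (r * om) := by
  have hq6 : (q ^ 3) ^ 2 = 2 := by rw [← ha3, ← hqa]; ring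
  have hq3 : 1 ≤ q ^ 3 := by
    have : 0 < q ^ 3 := by positivity
    nlinarith only [hq6, this]
  have hq1 : 1 ≤ q := by
    by_contra hcon
    push Not at hcon
    have : q ^ 3 < 1 := pow_lt_one₀ hq.le hcon (by norm_num)
    linarith
  have hq2 : q ≤ 1.13 := by
    by_contra hcon
    push Not at hcon
    have : (1.13 : ℝ) ^ 6 ≤ q ^ 6 := pow_le_pow_left₀ (by norm_num) hcon.le 6
    have h6 : q ^ 6 = 2 := by rw [← hq6]; ring
    rw [h6] at this; norm_num at this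
  set w : ℝ := Real.sqrt 3 with hw
  have hw2 : w ^ 2 = 3 := Real.sq_sqrt (by norm_num)
  have hw0 : 0 ≤ w := Real.sqrt_nonneg _
  have hw1 : 1.73 ≤ w := by nlinarith only [hw2, hw0]
  have hw3 : w ≤ 1.74 := by nlinarith only [hw2]
  set r0 : ℝ := 4 * q * w / 3 with hr0
  have hr1 : r0 ≤ 8 := by rw [hr0]; nlinarith only [hq2, hw2, hw0]
  have hr2 : 2.3 * q ≤ r0 := by rw [hr0]; nlinarith only [hq1, hw1]
  have hr3 : r0 ≤ 2.32 * q := by rw [hr0]; nlinarith only [hw1, hw3, hr0, hr2]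
  have hend : (r0 : ℂ) * om - ((-q : ℝ) + (2 * q : ℝ) * I) = ((-(r0 / 2 - q) : ℝ) : ℂ) := by
    apply Complex.ext
    · simp [om]; ring
    · simp [om]
      rw [hr0, ← hw]
      have : 4 * q * w / 3 * (w / 2) = 2 * q * w ^ 2 / 3 := by ring
      rw [this, hw2]; ring
  refine Conn.trans (B := (r0 : ℂ) * om) (Conn.segment ?_) (Conn.segment ?_)
  · intro s hs0 hs1
    rw [hend]
    have e : ((-q : ℝ) : ℂ) + (2 * q : ℝ) * I + (s : ℂ) * ((-(r0 / 2 - q) : ℝ) : ℂ) =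
        (((-(q + s * (r0 / 2 - q)) : ℝ) : ℂ) + ((2 * q : ℝ) : ℂ) * I) := by
      push_cast; ring
    rw [e, ga_xy]
    have hx2 : q ≤ q + s * (r0 / 2 - q) := by nlinarith only [hr2, hr3, hs0]
    have hx3 : q + s * (r0 / 2 - q) ≤ 1.2 * q := by nlinarith only [hr2, hr3, hs1]
    generalize q + s * (r0 / 2 - q) = x at hx2 hx3
    have k1 : (2 * q) ^ 2 + -a - (-x) ^ 2 / 3 ≥ 2 := by nlinarith only [hqa, hq1, hx2, hx3]
    nlinarith only [hq1, hx2, k1]
  · intro s hs0 hs1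
    have e : (r0 : ℂ) * om + (s : ℂ) * ((r : ℂ) * om - (r0 : ℂ) * om) =
        (((-(r0 + s * (r - r0)) / 2 : ℝ) : ℂ) + (((r0 + s * (r - r0)) * w / 2 : ℝ) : ℂ) * I) := by
      apply Complex.ext
      · simp [om]; ring
      · simp [om, ← hw]; ring
    rw [e, ga_xy]
    have hR : 2.3 * q ≤ r0 + s * (r - r0) := by nlinarith only [hr, hr1, hr2, hs0]
    generalize r0 + s * (r - r0) = x at hR
    have k1 : (x * w / 2) ^ 2 + -a - (-x / 2) ^ 2 / 3 = 2 / 3 * x ^ 2 - a := by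
      have : (x * w / 2) ^ 2 = x ^ 2 * w ^ 2 / 4 := by ring
      rw [this, hw2]; ring
    rw [k1]
    have k2 : 2 / 3 * x ^ 2 - a ≥ 2 := by nlinarith only [hqa, hq1, hR]
    nlinarith only [hq1, hR, k2]

/-- Two saddle points at the height `0`. -/
theorem cubic_two {u v : ℂ} (hu : ‖u‖ = 1) (hre : 0 ≤ u.re) (him : 0 ≤ u.im) (hv : ‖v‖ = 1)
    (h : v * cexp (2 * u.arg / 3 * I) = -1) : ∃ S S' : ℂ, S ≠ S' ∧ ∃ c' < (0 : ℝ), ∃ R1 : ℝ,
      ∀ R : ℝ, R1 ≤ R → Chain u (Cu v) 0 c' (R * em u) [S, S'] (R * ep u) := by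
  obtain ⟨a, ha, ha3, κ, hκ, hκ3, hX, hep, hem⟩ := scale_data (v := v) hu
  have hu0 : u ≠ 0 := by rintro rfl; simp at hu
  have hX' : u * v * κ = ((-a : ℝ) : ℂ) := by rw [hX, h]; push_cast; ring
  obtain ⟨q, hq, hqa⟩ : ∃ q : ℝ, 0 < q ∧ q ^ 2 = a :=
    ⟨Real.sqrt a, Real.sqrt_pos.2 ha, Real.sq_sqrt ha.le⟩
  have hq6 : (q ^ 3) ^ 2 = 2 := by rw [← ha3, ← hqa]; ring
  have hq3 : 1 ≤ q ^ 3 := by
    have : 0 < q ^ 3 := by positivity
    nlinarith only [hq6, this]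
  refine ⟨κ * (-(q * I)), κ * (q * I), ?_, -1, by norm_num, 8 * a, ?_⟩
  · intro hcon
    have h1 := mul_left_cancel₀ hκ hcon
    have h2 := congrArg Complex.im h1
    simp at h2
    linarith
  intro R hR
  have hRa : 8 ≤ R / a := by rw [le_div_iff₀ ha]; exact hR
  have k := half_two hq hqa ha3 hRa
  refine Chain.cons (v := κ * (q + q * I)) ?_ ?_ (Chain.cons (v := κ * (-q + q * I)) ?_ ?_
    (Chain.nil ?_))
  · rw [hem, ← mul_sub]
    have k2 := conn_map (g' := ga ((-a : ℝ) : ℂ)) continuous_conj k (fun H => by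
      have := ga_conj ((-a : ℝ) : ℂ) H
      rw [conj_ofReal] at this
      exact this)
    have e1 : (starRingEnd ℂ) (((-q : ℝ) : ℂ) + (2 * q : ℝ) * I) =
        -(q * I) - (q + q * I) := by
      simp only [map_add, map_mul, conj_ofReal, conj_I]; push_cast; ring
    have e2 : (starRingEnd ℂ) (((R / a : ℝ) : ℂ) * om) = ((R / a : ℝ) : ℂ) * (starRingEnd ℂ) om := by
      rw [map_mul, conj_ofReal]
    rw [e1, e2] at k2
    exact conn_map (f := fun s => κ * s) (continuous_const.mul continuous_id) k2.symm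
      (fun H => by rw [ga_scale hκ3, hX'])
  · refine sad_scale hκ hu0 hκ3 ?_ ?_ ?_ ?_
    · rw [hX', neg_sq, mul_pow, I_sq, ← hqa]; push_cast; ring
    · rw [hX']
      have e : -((q : ℂ) * I) = (((0 : ℝ) : ℂ) + ((-q : ℝ) : ℂ) * I) := by push_cast; ring
      rw [e, ga_xy]; ring
    · have e : -((q : ℂ) * I) * ((q : ℂ) + q * I) ^ 2 = ((2 * q ^ 3 : ℝ) : ℂ) := by
        push_cast
        linear_combination (-(q : ℂ) ^ 3 * I - 2 * (q : ℂ) ^ 3 + 0) * I_sq
      rw [e, ofReal_re]; positivity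
    · intro s hs1 hs
      rw [hX']
      have e : -((q : ℂ) * I) + (s : ℂ) * ((q : ℂ) + q * I) =
          (((s * q : ℝ) : ℂ) + ((-q + s * q : ℝ) : ℂ) * I) := by push_cast; ring
      rw [e, ga_xy, ← hqa]
      have e2 : s * q * ((-q + s * q) ^ 2 + -q ^ 2 - (s * q) ^ 2 / 3) =
          -(q ^ 3 * s ^ 2) * (2 - 2 / 3 * s) := by ring
      rw [e2]
      have h1 := abs_le.1 hs1
      have h2 : 0 < q ^ 3 * s ^ 2 := by positivity
      nlinarith
  · have e : κ * -(q * I) + κ * (q + q * I) = κ * (q * I) - κ * (-q + q * I) := by ring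
    rw [e]
    apply Conn.refl
    have e : κ * (q * I) - κ * (-q + q * I) = κ * (((q : ℝ) : ℂ) + ((0 : ℝ) : ℂ) * I) := by
      push_cast; ring
    rw [e, ga_scale hκ3, hX', ga_xy, ← hqa]
    have e2 : q * (0 ^ 2 + -q ^ 2 - q ^ 2 / 3) = -(4 / 3) * q ^ 3 := by ring
    rw [e2]; linarith
  · refine sad_scale hκ hu0 hκ3 ?_ ?_ ?_ ?_
    · rw [hX', mul_pow, I_sq, ← hqa]; push_cast; ring
    · rw [hX']
      have e : ((q : ℂ) * I) = (((0 : ℝ) : ℂ) + ((q : ℝ) : ℂ) * I) := by push_cast; ring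
      rw [e, ga_xy]; ring
    · have e : ((q : ℂ) * I) * (-(q : ℂ) + q * I) ^ 2 = ((2 * q ^ 3 : ℝ) : ℂ) := by
        push_cast
        linear_combination ((q : ℂ) ^ 3 * I - 2 * (q : ℂ) ^ 3 + 0) * I_sq
      rw [e, ofReal_re]; positivity
    · intro s hs1 hs
      rw [hX']
      have e : ((q : ℂ) * I) + (s : ℂ) * (-(q : ℂ) + q * I) =
          (((-(s * q) : ℝ) : ℂ) + ((q + s * q : ℝ) : ℂ) * I) := by push_cast; ring
      rw [e, ga_xy, ← hqa]
      have e2 : -(s * q) * ((q + s * q) ^ 2 + -q ^ 2 - (-(s * q)) ^ 2 / 3) =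
          -(q ^ 3 * s ^ 2) * (2 + 2 / 3 * s) := by ring
      rw [e2]
      have h1 := abs_le.1 hs1
      have h2 : 0 < q ^ 3 * s ^ 2 := by positivity
      nlinarith
  · rw [hep, ← mul_add]
    have e1 : ((-q : ℝ) : ℂ) + (2 * q : ℝ) * I = (q * I) + (-q + q * I) := by push_cast; ring
    rw [e1] at k
    exact conn_map (f := fun s => κ * s) (continuous_const.mul continuous_id) k
      (fun H => by rw [ga_scale hκ3, hX'])

/-- Upper bound in the second case. -/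
theorem cubic_two_conn {u v : ℂ} (hu : ‖u‖ = 1) (hre : 0 ≤ u.re) (him : 0 ≤ u.im) (hv : ‖v‖ = 1)
    (h : v * cexp (2 * u.arg / 3 * I) = -1) {δ : ℝ} (hδ : 0 < δ) : ∃ R1 : ℝ, ∀ R : ℝ, R1 ≤ R →
      Conn (fun H => (u * Cu v H).re) δ (R * em u) (R * ep u) := by
  obtain ⟨S, S', _, c', hc', R1, h1⟩ := cubic_two hu hre him hv h
  exact ⟨R1, fun R hR => chain_conn (h1 R hR) (hc'.le.trans hδ.le) hδ⟩

end SokalV
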