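import Pool.Agent.Lib_MP_af4de1_v.TipBound

/-!
# Reduction to the cubic phase [SV-TIPS]

`v_n = off (ζ n) → 0`, `v_n ≠ 0`, `ε_n = √‖v_n‖`, `‖t n‖/ε_n³ → 0`, `v_n/‖v_n‖ → v0`.  The family: `Ψ n s = (Ph (ζ n)(1+ε_n s) - (-1/2+v_n))/ε_n³`,
`Ψ0 = Cu v0`, `w n s = (ζ n e^{1+ε_n s} + 1)/ε_n → -s`, `τ n = ‖t n‖/ε_n³`, `u n = ‖t n‖/t n`; `u n Ψ n s/τ n = (Ph … - (-1/2+v_n))/t n`, locally uniform
limits by `tip_exp`, `tip_mult`.  If `P` is a primitive of `cexp(Ph (ζ n) H/t n)` then `P(1+ε_n s)/(ε_n sz)` is one for the family.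
`tip_red`: `rep_E` with `R` from `TipConn` (and large, as in `val_nil`): `Ev = tails + [P(1+RI) - P(1+ρ ep)] + [P(1+ρ ep) - P(1+ε R' ep)] + [P(1+εR' ep) - P(1+εR' em)]
+ … `.  The first ones are `Small` at some `c1 < -u0.re/2` (`Fam.rel` for `exists_fam`), and `exp(c1/‖t‖)/(‖sz‖ε) ≤ exp(-δ/‖t‖)` eventually (`‖sz‖ =
exp(Re((-1/2+v)/t))`, `ε ≥ ‖t‖^{1/3}`), which is `≤ exp(-R'³/(20 τ n))` because `τ n ≥ ‖t n‖/o(1)`.  The ray piece: by `tip_bound`, for `y ≥ ε R'`, `R' ≥ 6`: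
`2‖v‖y = 2ε²y ≤ y³/16`, so it is `≤ ‖sz‖∫_{εR'}^ρ exp(-y³/(16‖t‖))dy = ‖sz‖ ε ∫_{R'} exp(-s³/(16τ))ds ≤ C‖sz‖ε exp(-R'³/(20τ))`.
For `Dv + Ev` the integrand has the factor `ζe^H+1`, of size `≤ 3y` on the ray, and `O(1)` on the rest; `Q`-primitives: `Q n s` of the family is
`(Q^{DE} + P)(1+ε_n s)/(ε_n² sz)`.
-/

namespace SokalV

open Complex Filter Topology

/-- The sequence is at a scale larger than the Airy scale. -/
structure Scale (t ζ : ℕ → ℂ) (v0 : ℂ) : Prop where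
  ne : ∀ n, off (ζ n) ≠ 0
  lim : Tendsto (fun n => off (ζ n)) atTop (𝓝 0)
  big : Tendsto (fun n => ‖t n‖ / √‖off (ζ n)‖ ^ 3) atTop (𝓝 0)
  dir : Tendsto (fun n => off (ζ n) / ‖off (ζ n)‖) atTop (𝓝 v0)

private theorem ts_tlu {f : ℕ → ℂ → ℂ} {f0 : ℂ → ℂ}
    (h : ∀ K : ℝ, 0 < K → ∀ η : ℝ, 0 < η → ∀ᶠ n in atTop, ∀ s : ℂ, ‖s‖ ≤ K → ‖f n s - f0 s‖ < η) :
    TendstoLocallyUniformly f f0 atTop := by
  rw [Metric.tendstoLocallyUniformly_iff]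
  intro η hη x
  refine ⟨Metric.closedBall x 1, Metric.closedBall_mem_nhds x one_pos, ?_⟩
  filter_upwards [h (‖x‖ + 1) (by positivity) η hη] with n hn y hy
  rw [dist_comm, dist_eq_norm]
  refine hn y ?_
  have h1 : dist y x ≤ 1 := hy
  rw [dist_eq_norm] at h1
  have h2 : ‖y‖ ≤ ‖y - x‖ + ‖x‖ := by
    have := norm_add_le (y - x) x
    rwa [sub_add_cancel] at this
  linarith

private theorem ts_pos {t ζ : ℕ → ℂ} {v0 : ℂ} (hs : Scale t ζ v0) {ε : ℕ → ℝ}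
    (hε : ∀ n, ε n = √‖off (ζ n)‖) : (∀ n, 0 < ε n) ∧ (∀ n, ε n ^ 2 = ‖off (ζ n)‖) ∧ Tendsto ε atTop (𝓝 0) ∧
      Tendsto (fun n => ‖t n‖ / ε n ^ 3) atTop (𝓝 0) := by
  refine ⟨fun n => ?_, fun n => ?_, ?_, ?_⟩
  · rw [hε]
    exact Real.sqrt_pos.2 (norm_pos_iff.2 (hs.ne n))
  · rw [hε]
    exact Real.sq_sqrt (norm_nonneg _)
  · have h1 : ε = fun n => √‖off (ζ n)‖ := funext hε
    rw [h1]
    have h2 : Tendsto (fun n => ‖off (ζ n)‖) atTop (𝓝 0) := by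
      have := hs.lim.norm
      simpa using this
    have h3 := (Real.continuous_sqrt.tendsto 0).comp h2
    simpa [Function.comp_def] using h3
  · have := hs.big
    refine this.congr (fun n => ?_)
    rw [hε]

private theorem ts_exp {t ζ : ℂ} (ht : t ≠ 0) {ε : ℝ} (hε : 0 < ε) (s : ℂ) :
    cexp (((‖t‖ : ℂ) / t) * ((Ph ζ (1 + ε * s) - (-1 / 2 + off ζ)) / (ε : ℂ) ^ 3) / ((‖t‖ / ε ^ 3 : ℝ) : ℂ)) =
      cexp (Ph ζ (1 + ε * s) / t) / sz t ζ := by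
  have h1 : (‖t‖ : ℂ) ≠ 0 := by
    exact_mod_cast (norm_pos_iff.2 ht).ne'
  have h2 : (ε : ℂ) ≠ 0 := by exact_mod_cast hε.ne'
  have h3 : ((‖t‖ : ℂ) / t) * ((Ph ζ (1 + ε * s) - (-1 / 2 + off ζ)) / (ε : ℂ) ^ 3) / ((‖t‖ / ε ^ 3 : ℝ) : ℂ) =
      Ph ζ (1 + ε * s) / t - (-1 / 2 + off ζ) / t := by
    push_cast
    field_simp
  rw [h3, Complex.exp_sub]
  rfl

private theorem ts_fam {t ζ : ℕ → ℂ} {u0 v0 : ℂ} (h : Par t ζ (-cexp (-1)) u0) (hs : Scale t ζ v0)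
    {P0 Q0 : ℕ → ℂ → ℂ} (hP : ∀ n H, HasDerivAt (P0 n) (cexp (Ph (ζ n) H / t n)) H)
    (hQ : ∀ n H, HasDerivAt (Q0 n) (ζ n * cexp H * cexp (Ph (ζ n) H / t n)) H)
    {ε : ℕ → ℝ} (hε : ∀ n, ε n = √‖off (ζ n)‖) : ∃ F : Fam, F.Ψ0 = Cu v0 ∧ F.w0 = (fun s => -s) ∧
      F.u0 = u0 ∧ (∀ n, F.τ n = ‖t n‖ / ε n ^ 3) ∧
      (∀ n, F.u n = ‖t n‖ / t n) ∧
      (∀ n s, F.Ψ n s = (Ph (ζ n) (1 + ε n * s) - (-1 / 2 + off (ζ n))) / (ε n : ℂ) ^ 3) ∧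
      (∀ n s, F.w n s = (ζ n * cexp (1 + ε n * s) + 1) / ε n) ∧
      (∀ n s, F.P n s = P0 n (1 + ε n * s) / (sz (t n) (ζ n) * ε n)) ∧
      (∀ n s, F.Q n s = (Q0 n (1 + ε n * s) + P0 n (1 + ε n * s)) / (sz (t n) (ζ n) * (ε n : ℂ) ^ 2)) := by
  obtain ⟨hε0, hε2, hεl, hτl⟩ := ts_pos hs hε
  have hεc : ∀ n, (ε n : ℂ) ≠ 0 := fun n => by exact_mod_cast (hε0 n).ne'
  have hsz : ∀ n, sz (t n) (ζ n) ≠ 0 := fun n => Complex.exp_ne_zero _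
  have hlin : ∀ n (s : ℂ), HasDerivAt (fun s : ℂ => 1 + (ε n : ℂ) * s) (ε n) s := by
    intro n s
    simpa using ((hasDerivAt_id s).const_mul (ε n : ℂ)).const_add 1
  have hne : ∀ (n : ℕ) (s : ℂ), ‖(ε n : ℂ) * s‖ = ε n * ‖s‖ := by
    intro n s
    rw [norm_mul, Complex.norm_real, Real.norm_eq_abs, abs_of_pos (hε0 n)]
  have hsmall : ∀ K : ℝ, 0 < K → ∀ η : ℝ, 0 < η → ∀ᶠ n in atTop, ε n * K < η := by
    intro K hK η hη
    have h1 : Tendsto (fun n => ε n * K) atTop (𝓝 0) := by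
      simpa using hεl.mul_const K
    exact h1.eventually_lt_const hη
  have hex : ∀ n, (fun s => cexp (((‖t n‖ : ℂ) / t n) * ((Ph (ζ n) (1 + ε n * s) - (-1 / 2 + off (ζ n))) / (ε n : ℂ) ^ 3) /
      ((‖t n‖ / ε n ^ 3 : ℝ) : ℂ))) = fun s => cexp (Ph (ζ n) (1 + ε n * s) / t n) / sz (t n) (ζ n) := by
    intro n
    funext s
    exact ts_exp (h.ne n) (hε0 n) s
  refine ⟨{ Ψ := fun n s => (Ph (ζ n) (1 + ε n * s) - (-1 / 2 + off (ζ n))) / (ε n : ℂ) ^ 3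
            Ψ0 := Cu v0
            w := fun n s => (ζ n * cexp (1 + ε n * s) + 1) / ε n
            w0 := fun s => -s
            u := fun n => ‖t n‖ / t n
            u0 := u0
            τ := fun n => ‖t n‖ / ε n ^ 3
            P := fun n s => P0 n (1 + ε n * s) / (sz (t n) (ζ n) * ε n)
            Q := fun n s => (Q0 n (1 + ε n * s) + P0 n (1 + ε n * s)) / (sz (t n) (ζ n) * (ε n : ℂ) ^ 2)
            hΨ := ?_, hw := ?_, hΨlim := ?_, hwlim := ?_, hulim := h.dir, hτ := ?_, hτlim := hτl, hP := ?_, hQ := ?_ },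
    rfl, rfl, rfl, fun n => rfl, fun n => rfl, fun n s => rfl, fun n s => rfl, fun n s => rfl, fun n s => rfl⟩
  · intro n
    unfold Ph
    fun_prop
  · intro n
    fun_prop
  · refine ts_tlu (fun K hK η hη => ?_)
    have e1 := hsmall K hK (1 / 2) (by norm_num)
    have e2 := hsmall (K ^ 4 / 12 + K ^ 2) (by positivity) (η / 2) (by positivity)
    have e3 : ∀ᶠ n in atTop, ‖off (ζ n) / ‖off (ζ n)‖ - v0‖ * K < η / 2 := by
      have h1 : Tendsto (fun n => ‖off (ζ n) / ‖off (ζ n)‖ - v0‖ * K) atTop (𝓝 0) := by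
        have := ((hs.dir.sub_const v0).norm).mul_const K
        simpa using this
      exact h1.eventually_lt_const (by positivity)
    filter_upwards [e1, e2, e3] with n h1 h2 h3 s hsK
    have hn := hε0 n
    have h4 : ‖(ε n : ℂ) * s‖ ≤ 1 / 2 := by
      rw [hne]
      have := mul_le_mul_of_nonneg_left hsK hn.le
      linarith
    have h5 := tip_exp (ζ n) h4
    have h6 : (Ph (ζ n) (1 + ε n * s) - (-1 / 2 + off (ζ n))) / (ε n : ℂ) ^ 3 - Cu v0 s =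
        (Ph (ζ n) (1 + ε n * s) - (-1 / 2 + off (ζ n)) - (off (ζ n) * (ε n * s) - (ε n * s) ^ 3 / 6)) / (ε n : ℂ) ^ 3 +
          (off (ζ n) / ‖off (ζ n)‖ - v0) * s := by
      rw [← hε2 n]
      unfold Cu
      have := hεc n
      push_cast
      field_simp
      ring
    rw [h6]
    refine (norm_add_le _ _).trans_lt ?_
    rw [norm_div, norm_mul]
    have h7 : ‖(ε n : ℂ) ^ 3‖ = ε n ^ 3 := by
      rw [norm_pow, Complex.norm_real, Real.norm_eq_abs, abs_of_pos hn]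
    rw [h7]
    have h8 : ‖Ph (ζ n) (1 + ε n * s) - (-1 / 2 + off (ζ n)) - (off (ζ n) * (ε n * s) - (ε n * s) ^ 3 / 6)‖ / ε n ^ 3 ≤
        ε n * (K ^ 4 / 12 + K ^ 2) := by
      rw [div_le_iff₀ (by positivity)]
      refine h5.trans ?_
      rw [hne, ← hε2 n]
      have h9 : ‖s‖ ^ 4 ≤ K ^ 4 := pow_le_pow_left₀ (norm_nonneg _) hsK 4
      have h10 : ‖s‖ ^ 2 ≤ K ^ 2 := pow_le_pow_left₀ (norm_nonneg _) hsK 2
      calc (ε n * ‖s‖) ^ 4 / 12 + ε n ^ 2 * (ε n * ‖s‖) ^ 2 = ε n ^ 4 * (‖s‖ ^ 4 / 12 + ‖s‖ ^ 2) := by ring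
        _ ≤ ε n ^ 4 * (K ^ 4 / 12 + K ^ 2) := mul_le_mul_of_nonneg_left (by linarith) (by positivity)
        _ = ε n * (K ^ 4 / 12 + K ^ 2) * ε n ^ 3 := by ring
    have h9 : ‖off (ζ n) / ‖off (ζ n)‖ - v0‖ * ‖s‖ ≤ ‖off (ζ n) / ‖off (ζ n)‖ - v0‖ * K :=
      mul_le_mul_of_nonneg_left hsK (norm_nonneg _)
    linarith
  · refine ts_tlu (fun K hK η hη => ?_)
    have e1 := hsmall K hK (1 / 2) (by norm_num)
    have e2 := hsmall (K ^ 2 + 2) (by positivity) η hη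
    filter_upwards [e1, e2] with n h1 h2 s hsK
    have hn := hε0 n
    have h4 : ‖(ε n : ℂ) * s‖ ≤ 1 / 2 := by
      rw [hne]
      have := mul_le_mul_of_nonneg_left hsK hn.le
      linarith
    have h5 := tip_mult (ζ n) h4
    have h6 : (ζ n * cexp (1 + ε n * s) + 1) / ε n - -s = (ζ n * cexp (1 + ε n * s) + 1 + ε n * s) / ε n := by
      have := hεc n
      field_simp
      ring
    rw [h6, norm_div, Complex.norm_real, Real.norm_eq_abs, abs_of_pos hn]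
    refine lt_of_le_of_lt ?_ h2
    rw [div_le_iff₀ hn]
    refine h5.trans ?_
    rw [hne, ← hε2 n]
    have h10 : ‖s‖ ^ 2 ≤ K ^ 2 := pow_le_pow_left₀ (norm_nonneg _) hsK 2
    calc (ε n * ‖s‖) ^ 2 + 2 * ε n ^ 2 = ε n ^ 2 * (‖s‖ ^ 2 + 2) := by ring
      _ ≤ ε n ^ 2 * (K ^ 2 + 2) := mul_le_mul_of_nonneg_left (by linarith) (by positivity)
      _ = ε n * (K ^ 2 + 2) * ε n := by ring
  · intro n
    have h1 := norm_pos_iff.2 (h.ne n)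
    have h2 := hε0 n
    positivity
  · intro n s
    have h1 := ((hP n (1 + ε n * s)).comp s (hlin n s)).div_const (sz (t n) (ζ n) * ε n)
    have h2 := congrFun (hex n) s
    beta_reduce at h2
    rw [h2]
    have h3 : cexp (Ph (ζ n) (1 + ε n * s) / t n) / sz (t n) (ζ n) =
        cexp (Ph (ζ n) (1 + ε n * s) / t n) * (ε n : ℂ) / (sz (t n) (ζ n) * ε n) := by
      have := hεc n
      have := hsz n
      field_simp
    rw [h3]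
    exact h1
  · intro n s
    have h1 := (((hQ n (1 + ε n * s)).add (hP n (1 + ε n * s))).comp s (hlin n s)).div_const
      (sz (t n) (ζ n) * (ε n : ℂ) ^ 2)
    have h2 := congrFun (hex n) s
    beta_reduce at h2
    rw [h2]
    have h3 : (ζ n * cexp (1 + ε n * s) + 1) / ε n * (cexp (Ph (ζ n) (1 + ε n * s) / t n) / sz (t n) (ζ n)) =
        (ζ n * cexp (1 + ε n * s) * cexp (Ph (ζ n) (1 + ε n * s) / t n) + cexp (Ph (ζ n) (1 + ε n * s) / t n)) *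
          (ε n : ℂ) / (sz (t n) (ζ n) * (ε n : ℂ) ^ 2) := by
      have := hεc n
      have := hsz n
      field_simp
    rw [h3]
    exact h1

private theorem ts_ray {G g : ℂ → ℂ} (hG : ∀ s, HasDerivAt G (g s) s) {e : ℂ} (he : ‖e‖ = 1) {a b M : ℝ}
    (hab : a ≤ b) (ha : 0 ≤ a) (hM : 0 ≤ M) (hg : ∀ s : ℝ, a ≤ s → s ≤ b → ‖g (s * e)‖ ≤ M * Real.exp (-s)) :
    ‖G (b * e) - G (a * e)‖ ≤ M := by
  have h1 : ∀ x : ℝ, HasDerivAt (fun x : ℝ => G (x * e) - G (a * e)) (g (x * e) * e) x := by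
    intro x
    have h2 : HasDerivAt (fun x : ℝ => (x : ℂ) * e) e x := by
      simpa using (Complex.ofRealCLM.hasDerivAt (x := x)).mul_const e
    exact ((hG (x * e)).comp x h2).sub_const _
  have hB : ∀ x : ℝ, HasDerivAt (fun x : ℝ => M * (Real.exp (-a) - Real.exp (-x))) (M * Real.exp (-x)) x := by
    intro x
    have h2 : HasDerivAt (fun x : ℝ => Real.exp (-x)) (-Real.exp (-x)) x := by
      simpa using (hasDerivAt_neg x).exp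
    have h3 := (h2.const_sub (Real.exp (-a))).const_mul M
    simpa using h3
  have h3 := image_norm_le_of_norm_deriv_right_le_deriv_boundary (f := fun x : ℝ => G (x * e) - G (a * e))
    (f' := fun x : ℝ => g (x * e) * e) (a := a) (b := b)
    (fun x _ => (h1 x).continuousAt.continuousWithinAt) (fun x _ => (h1 x).hasDerivWithinAt)
    (B := fun x : ℝ => M * (Real.exp (-a) - Real.exp (-x))) (B' := fun x : ℝ => M * Real.exp (-x))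
    (by simp) hB (fun x hx => by
      rw [norm_mul, he, mul_one]
      exact hg x hx.1 hx.2.le) (Set.right_mem_Icc.2 hab)
  refine h3.trans ?_
  have h4 : Real.exp (-a) ≤ 1 := Real.exp_le_one_iff.2 (by linarith)
  have h5 : 0 < Real.exp (-b) := Real.exp_pos _
  have h6 : Real.exp (-a) - Real.exp (-b) ≤ 1 := by linarith
  calc M * (Real.exp (-a) - Real.exp (-b)) ≤ M * 1 := mul_le_mul_of_nonneg_left h6 hM
    _ = M := mul_one M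

/-- the size of the integrand on the ray -/
private theorem ts_size {R s τ : ℝ} (hR : 6 ≤ R) (hs : R ≤ s) (hτ : 0 < τ) (hτ1 : τ ≤ 1 / 5) :
    Real.exp ((-(s ^ 3 / 8) + 2 * s) / τ) ≤ Real.exp (-(R ^ 3 / 20) / τ) * Real.exp (-2 * s) := by
  rw [← Real.exp_add]
  refine Real.exp_le_exp.2 ?_
  have h6 : 6 ≤ s := hR.trans hs
  have h1 : 36 * s ≤ s ^ 3 := by linarith only [mul_nonneg (by linarith : 0 ≤ s) (by nlinarith : 0 ≤ s ^ 2 - 36)]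
  have h2 : R ^ 3 ≤ s ^ 3 := pow_le_pow_left₀ (by linarith) hs 3
  have h3 : 2 * s * τ ≤ 2 * s * (1 / 5) := mul_le_mul_of_nonneg_left hτ1 (by linarith)
  have h4 : -(s ^ 3 / 8) + 2 * s ≤ -(R ^ 3 / 20) - 2 * s * τ := by linarith
  calc (-(s ^ 3 / 8) + 2 * s) / τ ≤ (-(R ^ 3 / 20) - 2 * s * τ) / τ := div_le_div_of_nonneg_right h4 hτ.le
    _ = -(R ^ 3 / 20) / τ + -2 * s := by field_simp; ring

private theorem norm_ep (u : ℂ) : ‖ep u‖ = 1 := by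
  unfold ep
  have : ((2 * Real.pi / 3 - u.arg / 3) * I : ℂ) = ((2 * Real.pi / 3 - u.arg / 3 : ℝ) : ℂ) * I := by
    push_cast; ring
  rw [this, Complex.norm_exp_ofReal_mul_I]

private theorem norm_em (u : ℂ) : ‖em u‖ = 1 := by
  unfold em
  have : ((-(2 * Real.pi / 3) - u.arg / 3) * I : ℂ) = ((-(2 * Real.pi / 3) - u.arg / 3 : ℝ) : ℂ) * I := by
    push_cast; ring
  rw [this, Complex.norm_exp_ofReal_mul_I]

/-- the two bounds on one ray -/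
private theorem ts_onray {t ζ e : ℂ} (ht : t ≠ 0) (he : ‖e‖ = 1) {ε R ρ τ : ℝ} (hε : 0 < ε) (hε1 : ε ≤ 1)
    (hε2 : ε ^ 2 = ‖off ζ‖) (hτ : τ = ‖t‖ / ε ^ 3) (hR : 6 ≤ R) (hτ1 : τ ≤ 1 / 5) (hρ : ρ ≤ 1 / 2) (hRρ : R ≤ ρ / ε)
    (hb : ∀ y : ℝ, 0 ≤ y → y ≤ ρ → (((‖t‖ : ℂ) / t) * (Ph ζ (1 + y * e) - (-1 / 2 + off ζ))).re ≤
      -(y ^ 3 / 8) + 2 * ‖off ζ‖ * y)
    {P Q : ℂ → ℂ}
    (hP : ∀ s, HasDerivAt P (cexp (((‖t‖ : ℂ) / t) * ((Ph ζ (1 + ε * s) - (-1 / 2 + off ζ)) / (ε : ℂ) ^ 3) / (τ : ℂ))) s)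
    (hQ : ∀ s, HasDerivAt Q ((ζ * cexp (1 + ε * s) + 1) / ε *
      cexp (((‖t‖ : ℂ) / t) * ((Ph ζ (1 + ε * s) - (-1 / 2 + off ζ)) / (ε : ℂ) ^ 3) / (τ : ℂ))) s) :
    ‖P ((ρ / ε : ℝ) * e) - P (R * e)‖ ≤ 3 * Real.exp (-(R ^ 3 / 20) / τ) ∧
      ‖Q ((ρ / ε : ℝ) * e) - Q (R * e)‖ ≤ 3 * Real.exp (-(R ^ 3 / 20) / τ) := by
  have ht0 : 0 < ‖t‖ := norm_pos_iff.2 ht
  have hτ0 : 0 < τ := by rw [hτ]; positivity
  have hY : 0 < Real.exp (-(R ^ 3 / 20) / τ) := Real.exp_pos _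
  have hexp : ∀ s : ℝ, R ≤ s → s ≤ ρ / ε →
      ‖cexp (((‖t‖ : ℂ) / t) * ((Ph ζ (1 + ε * (s * e)) - (-1 / 2 + off ζ)) / (ε : ℂ) ^ 3) / (τ : ℂ))‖ ≤
        Real.exp (-(R ^ 3 / 20) / τ) * Real.exp (-2 * s) := by
    intro s hs1 hs2
    refine le_trans ?_ (ts_size hR hs1 hτ0 hτ1)
    rw [Complex.norm_exp]
    refine Real.exp_le_exp.2 ?_
    have hs0 : 0 ≤ s := by linarith
    have hy : ε * s ≤ ρ := by
      rw [le_div_iff₀ hε] at hs2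
      linarith
    have h1 := hb (ε * s) (by positivity) hy
    have h2 : ((ε * s : ℝ) : ℂ) * e = ε * (s * e) := by push_cast; ring
    rw [h2, ← hε2] at h1
    have h3 : ((‖t‖ : ℂ) / t) * ((Ph ζ (1 + ε * (s * e)) - (-1 / 2 + off ζ)) / (ε : ℂ) ^ 3) / (τ : ℂ) =
        (((‖t‖ : ℂ) / t) * (Ph ζ (1 + ε * (s * e)) - (-1 / 2 + off ζ))) / ((ε ^ 3 * τ : ℝ) : ℂ) := by
      have h4 : (ε : ℂ) ≠ 0 := by exact_mod_cast hε.ne'
      have h5 : (τ : ℂ) ≠ 0 := by exact_mod_cast hτ0.ne'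
      push_cast
      field_simp
    rw [h3, Complex.div_ofReal_re]
    have h6 : 0 < ε ^ 3 * τ := by positivity
    rw [div_le_iff₀ h6]
    refine h1.trans (le_of_eq ?_)
    field_simp
  have hne : ∀ s : ℝ, 0 ≤ s → ‖(ε : ℂ) * (s * e)‖ = ε * s := by
    intro s hs
    rw [norm_mul, norm_mul, he, Complex.norm_real, Complex.norm_real, Real.norm_eq_abs, Real.norm_eq_abs,
      abs_of_pos hε, abs_of_nonneg hs, mul_one]
  have hw : ∀ s : ℝ, R ≤ s → s ≤ ρ / ε → ‖(ζ * cexp (1 + ε * (s * e)) + 1) / ε‖ ≤ 3 * s := by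
    intro s hs1 hs2
    have hs0 : 0 ≤ s := by linarith
    have hy : ε * s ≤ 1 / 2 := by
      rw [le_div_iff₀ hε] at hs2
      linarith
    have h1 := tip_mult ζ (h := (ε : ℂ) * (s * e)) (by rw [hne s hs0]; exact hy)
    rw [hne s hs0, ← hε2] at h1
    have h2 : ‖ζ * cexp (1 + ε * (s * e)) + 1‖ ≤ ε * s + ((ε * s) ^ 2 + 2 * ε ^ 2) := by
      have h3 : ζ * cexp (1 + ε * (s * e)) + 1 = (ζ * cexp (1 + ε * (s * e)) + 1 + ε * (s * e)) - ε * (s * e) := by ring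
      rw [h3]
      refine (norm_sub_le _ _).trans ?_
      rw [hne s hs0]
      linarith
    rw [norm_div, Complex.norm_real, Real.norm_eq_abs, abs_of_pos hε, div_le_iff₀ hε]
    refine h2.trans ?_
    have h4 : (ε * s) ^ 2 ≤ 1 / 2 * (ε * s) := by
      rw [pow_two]
      exact mul_le_mul_of_nonneg_right hy (by positivity)
    have h5 : ε ^ 2 ≤ ε := by nlinarith only [hε, hε1]
    have h6 : 6 * ε ≤ ε * s := by nlinarith only [hR, hs1, h5]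
    linarith
  constructor
  · refine ts_ray hP he hRρ (by linarith) (by positivity) (fun s hs1 hs2 => ?_)
    refine (hexp s hs1 hs2).trans ?_
    have h1 : Real.exp (-2 * s) ≤ Real.exp (-s) := Real.exp_le_exp.2 (by linarith)
    have h2 : 0 < Real.exp (-s) := Real.exp_pos _
    nlinarith only [h1, h2, mul_pos hY h2]
  · refine ts_ray hQ he hRρ (by linarith) (by positivity) (fun s hs1 hs2 => ?_)
    rw [norm_mul]
    have hs0 : 0 ≤ s := by linarith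
    have h1 := mul_le_mul (hw s hs1 hs2) (hexp s hs1 hs2) (norm_nonneg _) (by positivity)
    refine h1.trans ?_
    have h2 : Real.exp (-2 * s) = Real.exp (-s) * Real.exp (-s) := by
      rw [← Real.exp_add]; ring_nf
    have h3 : s * Real.exp (-s) ≤ 1 := by
      have h4 : s ≤ Real.exp s := by linarith [Real.add_one_le_exp s]
      have h5 : Real.exp s * Real.exp (-s) = 1 := by rw [← Real.exp_add]; simp
      have := mul_le_mul_of_nonneg_right h4 (Real.exp_pos (-s)).le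
      linarith
    have h4 : 0 ≤ 3 * Real.exp (-(R ^ 3 / 20) / τ) * Real.exp (-s) := by positivity
    calc 3 * s * (Real.exp (-(R ^ 3 / 20) / τ) * Real.exp (-2 * s)) =
        (3 * Real.exp (-(R ^ 3 / 20) / τ) * Real.exp (-s)) * (s * Real.exp (-s)) := by rw [h2]; ring
      _ ≤ (3 * Real.exp (-(R ^ 3 / 20) / τ) * Real.exp (-s)) * 1 := mul_le_mul_of_nonneg_left h3 h4
      _ = _ := by ring

/-- the comparison of the far part -/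
private theorem ts_cmp {t ζ : ℕ → ℂ} {u0 v0 : ℂ} (h : Par t ζ (-cexp (-1)) u0) (hs : Scale t ζ v0) {ε : ℕ → ℝ}
    (hε : ∀ n, ε n = √‖off (ζ n)‖) {c' : ℝ} (hc : c' < -u0.re / 2) (R : ℝ) :
    ∃ C : ℝ, 0 ≤ C ∧ ∀ᶠ n in atTop, Real.exp (c' / ‖t n‖) ≤
      C * (‖sz (t n) (ζ n)‖ * ε n ^ 2) * Real.exp (-(R ^ 3 / 20) / (‖t n‖ / ε n ^ 3)) := by
  obtain ⟨hε0, hε2, hεl, hτl⟩ := ts_pos hs hε
  obtain ⟨δ, hδ⟩ : ∃ δ : ℝ, δ = (-u0.re / 2 - c') / 2 := ⟨_, rfl⟩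
  have hδ0 : 0 < δ := by rw [hδ]; linarith
  refine ⟨2 / δ, by positivity, ?_⟩
  have e1 : ∀ᶠ n in atTop, c' + δ < (((‖t n‖ : ℂ) / t n) * (-1 / 2 + off (ζ n))).re := by
    have h1 : Tendsto (fun n => ((‖t n‖ : ℂ) / t n) * (-1 / 2 + off (ζ n))) atTop (𝓝 (u0 * (-1 / 2 + 0))) :=
      h.dir.mul (hs.lim.const_add _)
    have h2 := (Complex.continuous_re.tendsto _).comp h1
    have h3 : (u0 * (-1 / 2 + 0)).re = -u0.re / 2 := by
      rw [add_zero, show (-1 / 2 : ℂ) = ((-1 / 2 : ℝ) : ℂ) by push_cast; ring, Complex.re_mul_ofReal]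
      ring
    rw [h3] at h2
    exact h2.eventually_const_lt (by rw [hδ]; linarith)
  have e2 : ∀ᶠ n in atTop, ε n < 1 := hεl.eventually_lt_const one_pos
  have e3 : ∀ᶠ n in atTop, ‖t n‖ / ε n ^ 3 < 1 := hτl.eventually_lt_const one_pos
  have e4 : ∀ᶠ n in atTop, R ^ 3 / 20 * ε n ^ 3 < δ / 2 := by
    have h1 : Tendsto (fun n => R ^ 3 / 20 * ε n ^ 3) atTop (𝓝 (R ^ 3 / 20 * 0 ^ 3)) :=
      (hεl.pow 3).const_mul _
    rw [show R ^ 3 / 20 * (0 : ℝ) ^ 3 = 0 by ring] at h1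
    exact h1.eventually_lt_const (by positivity)
  filter_upwards [e1, e2, e3, e4] with n h1 h2 h3 h4
  have ht0 : 0 < ‖t n‖ := norm_pos_iff.2 (h.ne n)
  have hn := hε0 n
  have hsz : Real.exp ((c' + δ) / ‖t n‖) ≤ ‖sz (t n) (ζ n)‖ := by
    unfold sz
    rw [Complex.norm_exp]
    refine Real.exp_le_exp.2 ?_
    have h5 : (-1 / 2 + off (ζ n)) / t n = (((‖t n‖ : ℂ) / t n) * (-1 / 2 + off (ζ n))) / (‖t n‖ : ℝ) := by
      have h6 : (‖t n‖ : ℂ) ≠ 0 := by exact_mod_cast ht0.ne'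
      have h7 := h.ne n
      field_simp
    rw [h5, Complex.div_ofReal_re]
    exact div_le_div_of_nonneg_right h1.le ht0.le
  have h5 : Real.exp (c' / ‖t n‖) = Real.exp ((c' + δ) / ‖t n‖) * (Real.exp (-(δ / 2 / ‖t n‖)) * Real.exp (-(δ / 2 / ‖t n‖))) := by
    rw [← Real.exp_add, ← Real.exp_add]
    congr 1
    field_simp
    ring
  have h6 : Real.exp (-(δ / 2 / ‖t n‖)) ≤ 2 / δ * ε n ^ 2 := by
    have h7 : 0 < δ / 2 / ‖t n‖ := by positivity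
    have h8 : δ / 2 / ‖t n‖ ≤ Real.exp (δ / 2 / ‖t n‖) := by linarith [Real.add_one_le_exp (δ / 2 / ‖t n‖)]
    have h9 : Real.exp (-(δ / 2 / ‖t n‖)) ≤ (δ / 2 / ‖t n‖)⁻¹ := by
      rw [Real.exp_neg]
      exact inv_anti₀ h7 h8
    refine h9.trans ?_
    have h10 : (δ / 2 / ‖t n‖)⁻¹ = 2 / δ * ‖t n‖ := by field_simp
    rw [h10]
    refine mul_le_mul_of_nonneg_left ?_ (by positivity)
    rw [div_lt_one (by positivity)] at h3
    have h11 : ε n ^ 3 ≤ ε n ^ 2 := by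
      calc ε n ^ 3 = ε n * ε n ^ 2 := by ring
        _ ≤ 1 * ε n ^ 2 := mul_le_mul_of_nonneg_right h2.le (by positivity)
        _ = ε n ^ 2 := one_mul _
    linarith
  have h7 : Real.exp (-(δ / 2 / ‖t n‖)) ≤ Real.exp (-(R ^ 3 / 20) / (‖t n‖ / ε n ^ 3)) := by
    refine Real.exp_le_exp.2 ?_
    have h8 : -(R ^ 3 / 20) / (‖t n‖ / ε n ^ 3) = -((R ^ 3 / 20 * ε n ^ 3) / ‖t n‖) := by field_simp
    rw [h8, neg_le_neg_iff]
    exact div_le_div_of_nonneg_right h4.le ht0.le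
  rw [h5]
  have hY : 0 < Real.exp (-(δ / 2 / ‖t n‖)) := Real.exp_pos _
  calc Real.exp ((c' + δ) / ‖t n‖) * (Real.exp (-(δ / 2 / ‖t n‖)) * Real.exp (-(δ / 2 / ‖t n‖))) ≤
      ‖sz (t n) (ζ n)‖ * ((2 / δ * ε n ^ 2) * Real.exp (-(R ^ 3 / 20) / (‖t n‖ / ε n ^ 3))) :=
        mul_le_mul hsz (mul_le_mul h6 h7 hY.le (by positivity)) (by positivity) (norm_nonneg _)
    _ = _ := by ring

/-- the far part -/
private theorem ts_far {t ζ : ℕ → ℂ} {u0 : ℂ} (h : Par t ζ (-cexp (-1)) u0) {F : Fam}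
    (hΨ0 : F.Ψ0 = Ph (-cexp (-1))) (hu0 : F.u0 = u0) (hτ : ∀ n, F.τ n = ‖t n‖)
    (hP : ∀ n H, HasDerivAt (F.P n) (cexp (Ph (ζ n) H / t n)) H)
    (hQ : ∀ n H, HasDerivAt (F.Q n) (ζ n * cexp H * cexp (Ph (ζ n) H / t n)) H) {A B : ℂ} {c' R0 : ℝ}
    (hconn : ∀ R : ℝ, R0 ≤ R → Conn (Gh u0 (-cexp (-1))) c' (-1 - R * I) B ∧ Conn (Gh u0 (-cexp (-1))) c' A (1 + R * I)) :
    ∃ C : ℝ, 0 ≤ C ∧ ∀ᶠ n in atTop, ‖Ev (t n) (ζ n) - (F.P n A - F.P n B)‖ ≤ C * Real.exp (c' / ‖t n‖) ∧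
      ‖Dv (t n) (ζ n) - (F.Q n A - F.Q n B)‖ ≤ C * Real.exp (c' / ‖t n‖) := by
  obtain ⟨Z, hZ⟩ : ∃ Z : ℝ, Z = ‖-cexp (-1)‖ + 1 := ⟨_, rfl⟩
  have hZ0 : 0 < Z := by rw [hZ]; positivity
  obtain ⟨R, hR1, hR2, hR3⟩ : ∃ R : ℝ, R0 ≤ R ∧ 1 ≤ R ∧ 1 / 2 + 3 * Z - R / 2 ≤ c' :=
    ⟨max (max R0 1) (2 * (1 / 2 + 3 * Z - c')), (le_max_left _ _).trans (le_max_left _ _),
      (le_max_right _ _).trans (le_max_left _ _), by
        have := le_max_right (max R0 1) (2 * (1 / 2 + 3 * Z - c'))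
        linarith⟩
  obtain ⟨hc1, hc2⟩ := hconn R hR1
  have hg : (fun H => (F.u0 * F.Ψ0 H).re) = Gh u0 (-cexp (-1)) := by
    rw [hu0, hΨ0]
    rfl
  rw [← hg] at hc1 hc2
  obtain ⟨C1, h1⟩ := F.rel hc1
  obtain ⟨C2, h2⟩ := F.rel hc2
  have e3 : ∀ᶠ n in atTop, ‖ζ n‖ < Z := by
    refine h.zet.norm.eventually_lt_const ?_
    rw [hZ]
    linarith
  have e4 : ∀ᶠ n in atTop, ‖t n‖ < 1 := by
    have h5 := h.lim.norm
    rw [norm_zero] at h5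
    exact h5.eventually_lt_const one_pos
  refine ⟨|C1| + |C2| + 12 * Z + 4, by positivity, ?_⟩
  filter_upwards [h1, h2, e3, e4] with n h1 h2 h3 h4
  rw [hτ] at h1 h2
  have ht0 : 0 < ‖t n‖ := norm_pos_iff.2 (h.ne n)
  obtain ⟨y, hy⟩ : ∃ y : ℝ, y = Real.exp (c' / ‖t n‖) := ⟨_, rfl⟩
  have hy0 : 0 < y := by rw [hy]; exact Real.exp_pos _
  rw [← hy] at h1 h2 ⊢
  have hexp : Real.exp ((1 / 2 + 3 * ‖ζ n‖ - R / 2) / ‖t n‖) ≤ y := by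
    rw [hy]
    refine Real.exp_le_exp.2 (div_le_div_of_nonneg_right ?_ ht0.le)
    linarith
  obtain ⟨hp1, hp2⟩ := tail_pos (h.ne n) (h.re n) (h.im n) (ζ := ζ n) hR2
  obtain ⟨hn1, hn2⟩ := tail_neg (h.ne n) (h.re n) (h.im n) (ζ := ζ n) hR2
  have hE : (2 * ‖t n‖) * Real.exp ((1 / 2 + 3 * ‖ζ n‖ - R / 2) / ‖t n‖) ≤ 2 * y :=
    mul_le_mul (by linarith) hexp (Real.exp_pos _).le (by norm_num)
  have hD : (6 * ‖ζ n‖ * ‖t n‖) * Real.exp ((1 / 2 + 3 * ‖ζ n‖ - R / 2) / ‖t n‖) ≤ (6 * Z) * y := by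
    refine mul_le_mul ?_ hexp (Real.exp_pos _).le (by positivity)
    have h5 : ‖ζ n‖ * ‖t n‖ ≤ Z * 1 := mul_le_mul h3.le h4.le ht0.le hZ0.le
    linarith
  have hC1 : C1 * y ≤ |C1| * y := mul_le_mul_of_nonneg_right (le_abs_self _) hy0.le
  have hC2 : C2 * y ≤ |C2| * y := mul_le_mul_of_nonneg_right (le_abs_self _) hy0.le
  have hZy : 0 < Z * y := by positivity
  constructor
  · have h5 := rep_E (h.ne n) (h.re n) (h.im n) R (hP n)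
    have h6 : Ev (t n) (ζ n) - (F.P n A - F.P n B) = (F.P n (1 + R * I) - F.P n A) +
        (F.P n B - F.P n (-1 - R * I)) + (∫ s in Set.Ioi R, cexp (Ph (ζ n) (1 + s * I) / t n)) * I +
        (∫ s in Set.Iio (-R), cexp (Ph (ζ n) (-1 + s * I) / t n)) * I := by
      unfold Ev
      rw [h5]
      ring
    rw [h6]
    refine (norm_add_le _ _).trans ?_
    refine (add_le_add_left ((norm_add_le _ _).trans (add_le_add_left (norm_add_le _ _) _)) _).trans ?_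
    rw [norm_mul, norm_mul, Complex.norm_I, mul_one, mul_one]
    have := h1.1
    have := h2.1
    linarith
  · have h5 := rep_DE (h.ne n) (h.re n) (h.im n) R (hQ n)
    have h6 : Dv (t n) (ζ n) - (F.Q n A - F.Q n B) = (F.Q n (1 + R * I) - F.Q n A) +
        (F.Q n B - F.Q n (-1 - R * I)) +
        (∫ s in Set.Ioi R, ζ n * cexp (1 + s * I) * cexp (Ph (ζ n) (1 + s * I) / t n)) * I +
        (∫ s in Set.Iio (-R), ζ n * cexp (-1 + s * I) * cexp (Ph (ζ n) (-1 + s * I) / t n)) * I := by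
      unfold Dv
      rw [h5]
      ring
    rw [h6]
    refine (norm_add_le _ _).trans ?_
    refine (add_le_add_left ((norm_add_le _ _).trans (add_le_add_left (norm_add_le _ _) _)) _).trans ?_
    rw [norm_mul, norm_mul, Complex.norm_I, mul_one, mul_one]
    have := h1.2
    have := h2.2
    linarith

theorem tip_red {t ζ : ℕ → ℂ} {u0 v0 : ℂ} (h : Par t ζ (-cexp (-1)) u0) (hu0 : ‖u0‖ = 1)
    (hT : TipConn u0) (hs : Scale t ζ v0) : ∃ F : Fam, F.Ψ0 = Cu v0 ∧ F.w0 = (fun s => -s) ∧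
      F.u0 = u0 ∧ (∀ n, F.τ n = ‖t n‖ / √‖off (ζ n)‖ ^ 3) ∧
      ∀ R : ℝ, 6 ≤ R → ∃ C : ℝ, ∀ᶠ n in atTop,
        ‖Ev (t n) (ζ n) / (sz (t n) (ζ n) * √‖off (ζ n)‖) -
          (F.P n (R * ep u0) - F.P n (R * em u0))‖ ≤ C * Real.exp (-(R ^ 3 / 20) / F.τ n) ∧
        ‖(Dv (t n) (ζ n) + Ev (t n) (ζ n)) / (sz (t n) (ζ n) * √‖off (ζ n)‖ ^ 2) -
          (F.Q n (R * ep u0) - F.Q n (R * em u0))‖ ≤ C * Real.exp (-(R ^ 3 / 20) / F.τ n) := by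
  obtain ⟨ε, hε⟩ : ∃ ε : ℕ → ℝ, ∀ n, ε n = √‖off (ζ n)‖ := ⟨_, fun n => rfl⟩
  obtain ⟨hε0, hε2, hεl, hτl⟩ := ts_pos hs hε
  obtain ⟨G, hG0, -, hGu0, hGτ, hGu, hGΨ, hGw⟩ := exists_fam h
  have hP0 : ∀ n H, HasDerivAt (G.P n) (cexp (Ph (ζ n) H / t n)) H := by
    intro n H
    have h1 := G.hP n H
    have h2 : (‖t n‖ : ℂ) ≠ 0 := by exact_mod_cast (norm_pos_iff.2 (h.ne n)).ne'
    have h3 : ((‖t n‖ : ℂ) / t n) * Ph (ζ n) H / (‖t n‖ : ℂ) = Ph (ζ n) H / t n := by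
      have h4 := h.ne n
      field_simp
    rwa [hGu, hGΨ, hGτ, h3] at h1
  have hQ0 : ∀ n H, HasDerivAt (G.Q n) (ζ n * cexp H * cexp (Ph (ζ n) H / t n)) H := by
    intro n H
    have h1 := G.hQ n H
    have h2 : (‖t n‖ : ℂ) ≠ 0 := by exact_mod_cast (norm_pos_iff.2 (h.ne n)).ne'
    have h3 : ((‖t n‖ : ℂ) / t n) * Ph (ζ n) H / (‖t n‖ : ℂ) = Ph (ζ n) H / t n := by
      have h4 := h.ne n
      field_simp
    rwa [hGu, hGΨ, hGτ, h3, hGw] at h1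
  obtain ⟨F, hF1, hF2, hF3, hFτ, hFu, hFΨ, hFw, hFP, hFQ⟩ := ts_fam h hs hP0 hQ0 hε
  refine ⟨F, hF1, hF2, hF3, fun n => by rw [hFτ, hε], fun R hR => ?_⟩
  obtain ⟨ρ0, hρ0, hρc⟩ := hT
  obtain ⟨ρ1, hρ1, hρ12, hb⟩ := tip_bound hu0
  obtain ⟨ρ, hρ, hρl, hρr⟩ : ∃ ρ : ℝ, 0 < ρ ∧ ρ ≤ ρ0 ∧ ρ ≤ ρ1 :=
    ⟨min ρ0 ρ1, lt_min hρ0 hρ1, min_le_left _ _, min_le_right _ _⟩
  obtain ⟨c', hc', R0, hconn⟩ := hρc ρ hρ hρl
  obtain ⟨C0, hC0, e0⟩ := ts_far h hG0 hGu0 hGτ hP0 hQ0 hconn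
  obtain ⟨C1, hC1, e1⟩ := ts_cmp h hs hε hc' R
  have e2 : ∀ᶠ n in atTop, ε n < 1 := hεl.eventually_lt_const one_pos
  have e3 : ∀ᶠ n in atTop, ‖t n‖ / ε n ^ 3 < 1 / 5 := hτl.eventually_lt_const (by norm_num)
  have e4 : ∀ᶠ n in atTop, ε n * R < ρ := by
    have h1 : Tendsto (fun n => ε n * R) atTop (𝓝 0) := by simpa using hεl.mul_const R
    exact h1.eventually_lt_const hρ
  have e5 : ∀ᶠ n in atTop, ‖(‖t n‖ : ℂ) / t n - u0‖ < ρ1 := by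
    have h1 : Tendsto (fun n => ‖(‖t n‖ : ℂ) / t n - u0‖) atTop (𝓝 0) := by
      have := (h.dir.sub_const u0).norm
      simpa using this
    exact h1.eventually_lt_const hρ1
  have e6 : ∀ᶠ n in atTop, ‖off (ζ n)‖ < ρ1 := by
    have h1 := hs.lim.norm
    rw [norm_zero] at h1
    exact h1.eventually_lt_const hρ1
  refine ⟨(2 * C0) * C1 + 6, ?_⟩
  filter_upwards [e0, e1, e2, e3, e4, e5, e6] with n h0 h1 h2 h3 h4 h5 h6
  rw [← hε n]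
  have hn := hε0 n
  have hnc : (ε n : ℂ) ≠ 0 := by exact_mod_cast hn.ne'
  have hszc : sz (t n) (ζ n) ≠ 0 := Complex.exp_ne_zero _
  have hsz0 : 0 < ‖sz (t n) (ζ n)‖ := norm_pos_iff.2 hszc
  have hRρ : R ≤ ρ / ε n := by
    rw [le_div_iff₀ hn]
    linarith
  have hbe : ∀ y : ℝ, 0 ≤ y → y ≤ ρ → (((‖t n‖ : ℂ) / t n) * (Ph (ζ n) (1 + y * ep u0) - (-1 / 2 + off (ζ n)))).re ≤
      -(y ^ 3 / 8) + 2 * ‖off (ζ n)‖ * y := fun y hy1 hy2 => (hb _ _ y h5.le h6.le hy1 (hy2.trans hρr)).1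
  have hbm : ∀ y : ℝ, 0 ≤ y → y ≤ ρ → (((‖t n‖ : ℂ) / t n) * (Ph (ζ n) (1 + y * em u0) - (-1 / 2 + off (ζ n)))).re ≤
      -(y ^ 3 / 8) + 2 * ‖off (ζ n)‖ * y := fun y hy1 hy2 => (hb _ _ y h5.le h6.le hy1 (hy2.trans hρr)).2
  have hFP' : ∀ s, HasDerivAt (F.P n) (cexp (((‖t n‖ : ℂ) / t n) *
      ((Ph (ζ n) (1 + ε n * s) - (-1 / 2 + off (ζ n))) / (ε n : ℂ) ^ 3) / (F.τ n : ℂ))) s := by
    intro s
    have h7 := F.hP n s
    rwa [hFu, hFΨ] at h7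
  have hFQ' : ∀ s, HasDerivAt (F.Q n) ((ζ n * cexp (1 + ε n * s) + 1) / ε n * cexp (((‖t n‖ : ℂ) / t n) *
      ((Ph (ζ n) (1 + ε n * s) - (-1 / 2 + off (ζ n))) / (ε n : ℂ) ^ 3) / (F.τ n : ℂ))) s := by
    intro s
    have h7 := F.hQ n s
    rwa [hFu, hFΨ, hFw] at h7
  have hτ1 : F.τ n ≤ 1 / 5 := by rw [hFτ]; exact h3.le
  obtain ⟨hp1, hp2⟩ := ts_onray (h.ne n) (norm_ep u0) hn h2.le (hε2 n) (hFτ n) hR hτ1 (hρr.trans hρ12) hRρ hbe hFP' hFQ'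
  obtain ⟨hm1, hm2⟩ := ts_onray (h.ne n) (norm_em u0) hn h2.le (hε2 n) (hFτ n) hR hτ1 (hρr.trans hρ12) hRρ hbm hFP' hFQ'
  have hend : ∀ e : ℂ, 1 + (ε n : ℂ) * ((ρ / ε n : ℝ) * e) = 1 + ρ * e := by
    intro e
    push_cast
    field_simp
  rw [← hFτ n] at h1
  obtain ⟨Y, hY⟩ : ∃ Y : ℝ, Y = Real.exp (-(R ^ 3 / 20) / F.τ n) := ⟨_, rfl⟩
  rw [← hY] at hp1 hp2 hm1 hm2 h1 ⊢
  have hY0 : 0 < Y := by rw [hY]; exact Real.exp_pos _
  obtain ⟨hE, hD⟩ := h0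
  have hE' := hE.trans (mul_le_mul_of_nonneg_left h1 hC0)
  have hD' := hD.trans (mul_le_mul_of_nonneg_left h1 hC0)
  have hnorm1 : ‖sz (t n) (ζ n) * (ε n : ℂ)‖ = ‖sz (t n) (ζ n)‖ * ε n := by
    rw [norm_mul, Complex.norm_real, Real.norm_eq_abs, abs_of_pos hn]
  have hnorm2 : ‖sz (t n) (ζ n) * (ε n : ℂ) ^ 2‖ = ‖sz (t n) (ζ n)‖ * ε n ^ 2 := by
    rw [norm_mul, norm_pow, Complex.norm_real, Real.norm_eq_abs, abs_of_pos hn]
  have hεε : ε n ^ 2 ≤ ε n := by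
    calc ε n ^ 2 = ε n * ε n := pow_two _
      _ ≤ 1 * ε n := mul_le_mul_of_nonneg_right h2.le hn.le
      _ = ε n := one_mul _
  constructor
  · have h7 : Ev (t n) (ζ n) / (sz (t n) (ζ n) * ε n) - (F.P n (R * ep u0) - F.P n (R * em u0)) =
        (Ev (t n) (ζ n) - (G.P n (1 + ρ * ep u0) - G.P n (1 + ρ * em u0))) / (sz (t n) (ζ n) * ε n) +
          (F.P n ((ρ / ε n : ℝ) * ep u0) - F.P n (R * ep u0)) - (F.P n ((ρ / ε n : ℝ) * em u0) - F.P n (R * em u0)) := by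
      rw [hFP n ((ρ / ε n : ℝ) * ep u0), hFP n ((ρ / ε n : ℝ) * em u0), hend, hend]
      field_simp
      ring
    rw [h7]
    refine (norm_sub_le _ _).trans ?_
    refine (add_le_add_left (norm_add_le _ _) _).trans ?_
    rw [norm_div, hnorm1]
    have h8 : ‖Ev (t n) (ζ n) - (G.P n (1 + ρ * ep u0) - G.P n (1 + ρ * em u0))‖ / (‖sz (t n) (ζ n)‖ * ε n) ≤
        C0 * C1 * Y := by
      rw [div_le_iff₀ (by positivity)]
      refine hE'.trans ?_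
      calc C0 * (C1 * (‖sz (t n) (ζ n)‖ * ε n ^ 2) * Y) = (C0 * C1 * Y * ‖sz (t n) (ζ n)‖) * ε n ^ 2 := by ring
        _ ≤ (C0 * C1 * Y * ‖sz (t n) (ζ n)‖) * ε n := mul_le_mul_of_nonneg_left hεε (by positivity)
        _ = _ := by ring
    have h9 : 0 ≤ C0 * C1 * Y := by positivity
    linarith
  · have h7 : (Dv (t n) (ζ n) + Ev (t n) (ζ n)) / (sz (t n) (ζ n) * (ε n : ℂ) ^ 2) -
        (F.Q n (R * ep u0) - F.Q n (R * em u0)) =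
        ((Ev (t n) (ζ n) - (G.P n (1 + ρ * ep u0) - G.P n (1 + ρ * em u0))) +
          (Dv (t n) (ζ n) - (G.Q n (1 + ρ * ep u0) - G.Q n (1 + ρ * em u0)))) / (sz (t n) (ζ n) * (ε n : ℂ) ^ 2) +
          (F.Q n ((ρ / ε n : ℝ) * ep u0) - F.Q n (R * ep u0)) - (F.Q n ((ρ / ε n : ℝ) * em u0) - F.Q n (R * em u0)) := by
      rw [hFQ n ((ρ / ε n : ℝ) * ep u0), hFQ n ((ρ / ε n : ℝ) * em u0), hend, hend]
      field_simp
      ring
    rw [h7]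
    refine (norm_sub_le _ _).trans ?_
    refine (add_le_add_left (norm_add_le _ _) _).trans ?_
    rw [norm_div, hnorm2]
    have h8 : ‖(Ev (t n) (ζ n) - (G.P n (1 + ρ * ep u0) - G.P n (1 + ρ * em u0))) +
          (Dv (t n) (ζ n) - (G.Q n (1 + ρ * ep u0) - G.Q n (1 + ρ * em u0)))‖ / (‖sz (t n) (ζ n)‖ * ε n ^ 2) ≤
        2 * C0 * C1 * Y := by
      rw [div_le_iff₀ (by positivity)]
      refine (norm_add_le _ _).trans ((add_le_add hE' hD').trans (le_of_eq ?_))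
      ring
    linarith

end SokalV
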