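import Pool.Agent.Lib_MP_af4de1_v.AiryLim
import Pool.Agent.Lib_MP_af4de1_v.TipScale
import Pool.Agent.Lib_MP_af4de1_v.Airy
import Pool.Agent.Lib_MP_af4de1_v.Cubic

/-!
# The two scales at the tip, and `N = 1` [SV-TIP1]

`tip_cases`: `v_n = off (ζ n) → 0` (`off(-e⁻¹) = 0`), `x_n = v_n ell/t n`, `‖x_n‖ = 2^{1/3}‖v_n‖/‖t n‖^{2/3}`.  If `‖x_n‖` does not tend to `∞` there is a subsequence on which
`x_n` is bounded and a further one on which it converges.  If `‖x_n‖ → ∞`: drop the first terms: `v_n ≠ 0`, and `‖t n‖/√‖v_n‖³ = √2 ‖x_n‖^{-3/2} → 0`; subsequence with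
`v_n/‖v_n‖ → v0`, `‖v0‖ = 1`: `Scale`.  (`Par` passes to subsequences: `par_comp`.)
`scale_one`: `tip_red` and `cubic_one`: family `F`, `F.Ψ0 = Cu v0`.  `R := max(6, R1)`, `R³/20 ≥ 10.8 > 1`, so `-(R³/20) < -1 < c`.  `chain_one F` for `[S]` between `R em` and `R ep`:
`J`, `P(R ep) - P(R em) - J` is `Small` at `c'`, `Q(R ep) - Q(R em) - (-S)J = o(J)`.  With `c'' = max c' (-(R³/20)) < c` and `tip_red`: the statement, with `K n = sz·√‖off‖·J n`.
(`√‖off‖² ` cancels one factor: `(Dv+Ev)/(sz √‖off‖) = √‖off‖·(…)`.)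
`tip_one`: case (a) `airy_lim`: `Ai x0 = 0`, `Ad x0 = 0` against `airy_simple`.  Case (b) with `v0 cexp(2 arg/3 I) ≠ -1`: `scale_one`: `Ev = 0`: `J + R = 0`, `R` `Small` at `c'' < c`: `lin_one` with `g = 1`.
With `= -1`: `cubic_two`, `chain_two`: `J + J' + R = 0`, `-S J - S' J' + E = 0`, `E = o(‖J‖+‖J'‖)` (the error `exp(-(R³/20)/τ)` is `o(‖J‖)` by `Big`): `lin_two` with `a = b = 1`, `w = -S`, `w' = -S'`.
-/

namespace SokalV

open Complex Filter Topology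

private theorem t1_exp {τ : ℕ → ℝ} (hτ : ∀ n, 0 < τ n) (hτ0 : Tendsto τ atTop (𝓝 0))
    {C η δ : ℝ} (hη : 0 < η) (hδ : 0 < δ) : ∀ᶠ n in atTop, C ≤ η * Real.exp (δ / τ n) := by
  have h2 : ∀ᶠ n in atTop, τ n < η * δ / (|C| + 1) := hτ0.eventually_lt_const (by positivity)
  filter_upwards [h2] with n hn
  have h3 : δ / τ n ≤ Real.exp (δ / τ n) := by
    have := Real.add_one_le_exp (δ / τ n)
    linarith
  have h4 : τ n * (|C| + 1) < η * δ := by
    rwa [lt_div_iff₀ (by positivity)] at hn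
  calc C ≤ |C| + 1 := by linarith [le_abs_self C]
    _ ≤ η * (δ / τ n) := by
        rw [← mul_div_assoc, le_div_iff₀ (hτ n)]
        linarith
    _ ≤ η * Real.exp (δ / τ n) := mul_le_mul_of_nonneg_left h3 hη.le

private theorem t1_small {τ : ℕ → ℝ} (hτ : ∀ n, 0 < τ n) (hτ0 : Tendsto τ atTop (𝓝 0))
    {c c' : ℝ} (hc : c' < c) {J R : ℕ → ℂ} (hJ : Big τ c J) (hR : Small τ c' R) {η : ℝ}
    (hη : 0 < η) : ∀ᶠ n in atTop, ‖R n‖ ≤ η * ‖J n‖ := by
  obtain ⟨C, hC⟩ := hR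
  have hδ : 0 < (c - c') / 2 := by linarith
  filter_upwards [hC, hJ _ hδ, t1_exp (C := C) hτ hτ0 hη hδ] with n h1 h2 h3
  have h4 : Real.exp ((c - (c - c') / 2) / τ n) =
      Real.exp (((c - c') / 2) / τ n) * Real.exp (c' / τ n) := by
    rw [← Real.exp_add]
    congr 1
    ring
  calc ‖R n‖ ≤ C * Real.exp (c' / τ n) := h1
    _ ≤ (η * Real.exp (((c - c') / 2) / τ n)) * Real.exp (c' / τ n) :=
        mul_le_mul_of_nonneg_right h3 (Real.exp_pos _).le
    _ = η * Real.exp ((c - (c - c') / 2) / τ n) := by rw [h4]; ring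
    _ ≤ η * ‖J n‖ := mul_le_mul_of_nonneg_left h2 hη.le

private theorem t1_pos {τ : ℕ → ℝ} {c : ℝ} {J : ℕ → ℂ} (hJ : Big τ c J) :
    ∀ᶠ n in atTop, 0 < ‖J n‖ := by
  filter_upwards [hJ 1 one_pos] with n hn
  exact (Real.exp_pos _).trans_le hn

private theorem t1_mono {τ : ℕ → ℝ} (hτ : ∀ n, 0 < τ n) {c c' : ℝ} (hc : c ≤ c') {R : ℕ → ℂ}
    (hR : Small τ c R) : Small τ c' R := by
  obtain ⟨C, hC⟩ := hR
  refine ⟨|C|, ?_⟩
  filter_upwards [hC] with n h1
  calc ‖R n‖ ≤ C * Real.exp (c / τ n) := h1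
    _ ≤ |C| * Real.exp (c / τ n) := mul_le_mul_of_nonneg_right (le_abs_self C) (Real.exp_pos _).le
    _ ≤ |C| * Real.exp (c' / τ n) := by
        apply mul_le_mul_of_nonneg_left _ (abs_nonneg C)
        exact Real.exp_le_exp.2 (div_le_div_of_nonneg_right hc (hτ n).le)

private theorem t1_add {τ : ℕ → ℝ} {c : ℝ} {R R' : ℕ → ℂ} (h : Small τ c R)
    (h' : Small τ c R') : Small τ c (fun n => R n + R' n) := by
  obtain ⟨C, hC⟩ := h
  obtain ⟨C', hC'⟩ := h'
  refine ⟨C + C', ?_⟩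
  filter_upwards [hC, hC'] with n h1 h2
  calc ‖R n + R' n‖ ≤ ‖R n‖ + ‖R' n‖ := norm_add_le _ _
    _ ≤ (C + C') * Real.exp (c / τ n) := by rw [add_mul]; exact add_le_add h1 h2

private theorem off_tip : off (-cexp (-1)) = 0 := by
  unfold off
  rw [mul_neg, ← exp_add]
  simp

private theorem off_lim {ζ : ℕ → ℂ} (h : Tendsto ζ atTop (𝓝 (-cexp (-1)))) :
    Tendsto (fun n => off (ζ n)) atTop (𝓝 0) := by
  have h1 : Continuous off := by unfold off; fun_prop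
  have h2 := (h1.tendsto (-cexp (-1))).comp h
  rw [off_tip] at h2
  exact h2

theorem par_comp {t ζ : ℕ → ℂ} {ζ0 u0 : ℂ} (h : Par t ζ ζ0 u0) {φ : ℕ → ℕ} (hφ : StrictMono φ) :
    Par (t ∘ φ) (ζ ∘ φ) ζ0 u0 :=
  ⟨fun n => h.ne _, fun n => h.re _, fun n => h.im _, h.lim.comp hφ.tendsto_atTop,
    h.dir.comp hφ.tendsto_atTop, h.zet.comp hφ.tendsto_atTop⟩

/-- Either the Airy scale or a larger scale. -/
theorem tip_cases {t ζ : ℕ → ℂ} {u0 : ℂ} (h : Par t ζ (-cexp (-1)) u0) :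
    (∃ φ : ℕ → ℕ, StrictMono φ ∧ ∃ x0 : ℂ,
      Tendsto (fun n => off (ζ (φ n)) * ell (t (φ n)) / t (φ n)) atTop (𝓝 x0)) ∨
    (∃ φ : ℕ → ℕ, StrictMono φ ∧ ∃ v0 : ℂ, ‖v0‖ = 1 ∧ Scale (t ∘ φ) (ζ ∘ φ) v0) := by
  set x : ℕ → ℂ := fun n => off (ζ n) * ell (t n) / t n with hx
  by_cases hb : ∃ M : ℝ, ∃ᶠ n in atTop, ‖x n‖ ≤ M
  · left
    obtain ⟨M, hM⟩ := hb
    obtain ⟨a, _, φ, hφ, hlim⟩ := tendsto_subseq_of_frequently_bounded
      (Metric.isBounded_closedBall (x := (0 : ℂ)) (r := M)) (x := x)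
      (hM.mono fun n hn => by simpa using hn)
    exact ⟨φ, hφ, a, hlim⟩
  · right
    push Not at hb
    have hinf : Tendsto (fun n => ‖x n‖) atTop atTop := by
      rw [tendsto_atTop]
      intro M
      filter_upwards [hb M] with n hn
      exact hn.le
    set y : ℕ → ℂ := fun n => off (ζ n) / ‖off (ζ n)‖ with hy
    have hyb : ∀ n, y n ∈ Metric.closedBall (0 : ℂ) 1 := by
      intro n
      rw [mem_closedBall_zero_iff, hy]
      simp only [norm_div, norm_real, norm_norm]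
      exact div_self_le_one _
    obtain ⟨v0, _, φ, hφ, hlim⟩ := tendsto_subseq_of_bounded
      (Metric.isBounded_closedBall (x := (0 : ℂ)) (r := 1)) hyb
    have hne : ∀ᶠ n in atTop, off (ζ n) ≠ 0 := by
      filter_upwards [hb 0] with n hn h0
      rw [hx] at hn
      simp [h0] at hn
    obtain ⟨N, hN⟩ := eventually_atTop.1 hne
    have hφN : StrictMono (fun n => φ (n + N)) := fun a b hab => hφ (by linarith)
    have hNe : ∀ n, off (ζ (φ (n + N))) ≠ 0 := fun n =>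
      hN _ (le_trans (Nat.le_add_left N n) (hφ.le_apply))
    have hlim' : Tendsto (fun n => y (φ (n + N))) atTop (𝓝 v0) :=
      hlim.comp (tendsto_add_atTop_nat N)
    have hnorm : ‖v0‖ = 1 := by
      have h1 := hlim'.norm
      refine tendsto_nhds_unique h1 ?_
      refine tendsto_const_nhds.congr fun n => ?_
      rw [hy]
      simp only [norm_div, norm_real, norm_norm]
      rw [div_self (norm_ne_zero_iff.2 (hNe n))]
    refine ⟨fun n => φ (n + N), hφN, v0, hnorm, ⟨fun n => hNe n, ?_, ?_, hlim'⟩⟩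
    · exact (off_lim h.zet).comp hφN.tendsto_atTop
    · have hx3 : ∀ n, off (ζ n) ≠ 0 →
          ‖t n‖ / √‖off (ζ n)‖ ^ 3 = √(2 / ‖x n‖ ^ 3) := by
        intro n hn
        have ht : 0 < ‖t n‖ := norm_pos_iff.2 (h.ne n)
        have hv : 0 < ‖off (ζ n)‖ := norm_pos_iff.2 hn
        have hs : 0 < √‖off (ζ n)‖ := Real.sqrt_pos.2 hv
        have hs2 : √‖off (ζ n)‖ ^ 2 = ‖off (ζ n)‖ := Real.sq_sqrt hv.le
        have hl : ‖ell (t n)‖ ^ 3 = 2 * ‖t n‖ := by
          rw [← norm_pow, ell_pow, norm_mul]; simp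
        have hxn : ‖x n‖ ^ 3 = 2 * ‖off (ζ n)‖ ^ 3 / ‖t n‖ ^ 2 := by
          rw [hx]
          simp only [norm_div, norm_mul]
          rw [div_pow, mul_pow, hl]
          field_simp
        symm
        have h6 : ‖off (ζ n)‖ ^ 3 = √‖off (ζ n)‖ ^ 6 := by
          calc ‖off (ζ n)‖ ^ 3 = (√‖off (ζ n)‖ ^ 2) ^ 3 := by rw [hs2]
            _ = _ := by ring
        rw [Real.sqrt_eq_iff_mul_self_eq (by positivity) (by positivity), hxn, h6]
        field_simp
      have h1 : Tendsto (fun n => √(2 / ‖x n‖ ^ 3)) atTop (𝓝 0) := by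
        have h2 : Tendsto (fun n => 2 / ‖x n‖ ^ 3) atTop (𝓝 0) :=
          ((tendsto_pow_atTop (by norm_num : (3 : ℕ) ≠ 0)).comp hinf).const_div_atTop 2
        have h3 := (Real.continuous_sqrt.tendsto 0).comp h2
        rw [Real.sqrt_zero] at h3
        exact h3
      refine (h1.comp hφN.tendsto_atTop).congr fun n => ?_
      exact (hx3 _ (hNe n)).symm

/-- One saddle point at the larger scale: the ratio. -/
theorem scale_one {t ζ : ℕ → ℂ} {u0 v0 : ℂ} (h : Par t ζ (-cexp (-1)) u0) (hu0 : ‖u0‖ = 1)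
    (hre : 0 ≤ u0.re) (him : 0 ≤ u0.im) (hT : TipConn u0) (hs : Scale t ζ v0) (hv : ‖v0‖ = 1)
    (h1 : v0 * cexp (2 * u0.arg / 3 * I) ≠ -1) :
    (∀ᶠ n in atTop, Ev (t n) (ζ n) ≠ 0) ∧
      Tendsto (fun n => (Dv (t n) (ζ n) + Ev (t n) (ζ n)) / Ev (t n) (ζ n)) atTop (𝓝 0) := by
  obtain ⟨F, hΨ, hw, hu, hτ, hred⟩ := tip_red h hu0 hT hs
  obtain ⟨c, hc1, _, S, c', hc', R1, hch⟩ := cubic_one hu0 hre him hv h1
  set R : ℝ := max 6 R1 with hR
  have hR6 : 6 ≤ R := le_max_left _ _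
  obtain ⟨C, hC⟩ := hred R hR6
  have hR20 : -(R ^ 3 / 20) < c := by
    have : (6 : ℝ) ^ 3 ≤ R ^ 3 := pow_le_pow_left₀ (by norm_num) hR6 3
    linarith
  have hchain : Chain F.u0 F.Ψ0 c c' (R * em u0) [S] (R * ep u0) := by
    rw [hu, hΨ]
    exact hch R (le_max_right _ _)
  obtain ⟨J, hJ, hP, hQ⟩ := chain_one F hc' hchain
  have hE1 : Small F.τ (-(R ^ 3 / 20)) (fun n => Ev (t n) (ζ n) / (sz (t n) (ζ n) *
      √‖off (ζ n)‖) - (F.P n (R * ep u0) - F.P n (R * em u0))) :=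
    ⟨C, hC.mono fun n hn => hn.1⟩
  have hE2 : Small F.τ (-(R ^ 3 / 20)) (fun n => (Dv (t n) (ζ n) + Ev (t n) (ζ n)) /
      (sz (t n) (ζ n) * √‖off (ζ n)‖ ^ 2) - (F.Q n (R * ep u0) - F.Q n (R * em u0))) :=
    ⟨C, hC.mono fun n hn => hn.2⟩
  have b1 := t1_small F.hτ F.hτlim hR20 hJ hE1 (η := 1 / 4) (by norm_num)
  have b2 := t1_small F.hτ F.hτlim hc' hJ hP (η := 1 / 4) (by norm_num)
  have b3 := t1_small F.hτ F.hτlim hR20 hJ hE2 (η := 1) (by norm_num)
  have b4 := hQ 1 one_pos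
  have b5 := t1_pos hJ
  have hoff : ∀ n, 0 < √‖off (ζ n)‖ := fun n => Real.sqrt_pos.2 (norm_pos_iff.2 (hs.ne n))
  have hmain : ∀ᶠ n in atTop, Ev (t n) (ζ n) ≠ 0 ∧
      ‖(Dv (t n) (ζ n) + Ev (t n) (ζ n)) / Ev (t n) (ζ n)‖ ≤
        √‖off (ζ n)‖ * (2 * (‖S‖ + 2)) := by
    filter_upwards [b1, b2, b3, b4, b5] with n k1 k2 k3 k4 k5
    have hw' : F.w0 S = -S := by rw [hw]
    rw [hw'] at k4
    have hsz : sz (t n) (ζ n) ≠ 0 := by unfold sz; exact exp_ne_zero _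
    have ho : (√‖off (ζ n)‖ : ℂ) ≠ 0 := by exact_mod_cast (hoff n).ne'
    have hlow : ‖J n‖ / 2 ≤ ‖Ev (t n) (ζ n) / (sz (t n) (ζ n) * √‖off (ζ n)‖)‖ := by
      have e : J n = Ev (t n) (ζ n) / (sz (t n) (ζ n) * √‖off (ζ n)‖) -
          (Ev (t n) (ζ n) / (sz (t n) (ζ n) * √‖off (ζ n)‖) -
            (F.P n (R * ep u0) - F.P n (R * em u0))) -
          (F.P n (R * ep u0) - F.P n (R * em u0) - J n) := by ring
      have : ‖J n‖ ≤ ‖Ev (t n) (ζ n) / (sz (t n) (ζ n) * √‖off (ζ n)‖)‖ + 1 / 4 * ‖J n‖ +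
          1 / 4 * ‖J n‖ := by
        nth_rewrite 1 [e]
        refine (norm_sub_le _ _).trans (add_le_add ((norm_sub_le _ _).trans ?_) k2)
        exact add_le_add le_rfl k1
      linarith
    have hup : ‖(Dv (t n) (ζ n) + Ev (t n) (ζ n)) / (sz (t n) (ζ n) * √‖off (ζ n)‖ ^ 2)‖ ≤
        (‖S‖ + 2) * ‖J n‖ := by
      have e : (Dv (t n) (ζ n) + Ev (t n) (ζ n)) / (sz (t n) (ζ n) * √‖off (ζ n)‖ ^ 2) =
          ((Dv (t n) (ζ n) + Ev (t n) (ζ n)) / (sz (t n) (ζ n) * √‖off (ζ n)‖ ^ 2) -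
            (F.Q n (R * ep u0) - F.Q n (R * em u0))) +
          (F.Q n (R * ep u0) - F.Q n (R * em u0) - -S * J n) + -S * J n := by ring
      rw [e]
      refine norm_add₃_le.trans ?_
      rw [norm_mul, norm_neg]
      linarith
    have hEv : Ev (t n) (ζ n) ≠ 0 := by
      intro h0
      rw [h0, zero_div, norm_zero] at hlow
      linarith
    refine ⟨hEv, ?_⟩
    have e : (Dv (t n) (ζ n) + Ev (t n) (ζ n)) / Ev (t n) (ζ n) =
        √‖off (ζ n)‖ * (((Dv (t n) (ζ n) + Ev (t n) (ζ n)) /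
          (sz (t n) (ζ n) * √‖off (ζ n)‖ ^ 2)) /
          (Ev (t n) (ζ n) / (sz (t n) (ζ n) * √‖off (ζ n)‖))) := by
      field_simp
    rw [e, norm_mul, norm_div, norm_real, Real.norm_of_nonneg (hoff n).le]
    refine mul_le_mul_of_nonneg_left ?_ (hoff n).le
    rw [div_le_iff₀ (by linarith)]
    calc _ ≤ (‖S‖ + 2) * ‖J n‖ := hup
      _ = 2 * (‖S‖ + 2) * (‖J n‖ / 2) := by ring
      _ ≤ _ := mul_le_mul_of_nonneg_left hlow (by positivity)
  refine ⟨hmain.mono fun n hn => hn.1, ?_⟩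
  have hz : Tendsto (fun n => √‖off (ζ n)‖ * (2 * (‖S‖ + 2))) atTop (𝓝 0) := by
    have h2 := hs.lim.norm
    rw [norm_zero] at h2
    have h3 := (Real.continuous_sqrt.tendsto 0).comp h2
    rw [Real.sqrt_zero] at h3
    have h4 := h3.mul_const (2 * (‖S‖ + 2))
    rw [zero_mul] at h4
    exact h4
  exact squeeze_zero_norm' (hmain.mono fun n hn => hn.2) hz

theorem tip_one {t ζ : ℕ → ℂ} {u0 : ℂ} (h : Par t ζ (-cexp (-1)) u0) (hu0 : ‖u0‖ = 1)
    (hre : 0 ≤ u0.re) (him : 0 ≤ u0.im) (hT : TipConn u0) (hE : ∀ n, Ev (t n) (ζ n) = 0)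
    (hD : ∀ n, Dv (t n) (ζ n) = 0) : False := by
  rcases tip_cases h with ⟨φ, hφ, x0, hx0⟩ | ⟨φ, hφ, v0, hv0, hs⟩
  · have h' := par_comp h hφ
    obtain ⟨l1, l2⟩ := airy_lim h' hu0 hre him hT hx0
    have hA : Ai x0 = 0 := by
      refine tendsto_nhds_unique l1 ?_
      refine tendsto_const_nhds.congr fun n => ?_
      simp [Function.comp, hE]
    have hB : -Ad x0 = 0 := by
      refine tendsto_nhds_unique l2 ?_
      refine tendsto_const_nhds.congr fun n => ?_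
      simp [Function.comp, hE, hD]
    exact airy_simple hA (neg_eq_zero.1 hB)
  · have h' := par_comp h hφ
    by_cases h1 : v0 * cexp (2 * u0.arg / 3 * I) = -1
    · obtain ⟨F, hΨ, hw, hu, hτ, hred⟩ := tip_red h' hu0 hT hs
      obtain ⟨S, S', hSS, c', hc', R1, hch⟩ := cubic_two hu0 hre him hv0 h1
      set R : ℝ := max 6 R1 with hR
      have hR6 : 6 ≤ R := le_max_left _ _
      obtain ⟨C, hC⟩ := hred R hR6
      have hR20 : -(R ^ 3 / 20) < 0 := by
        have : (6 : ℝ) ^ 3 ≤ R ^ 3 := pow_le_pow_left₀ (by norm_num) hR6 3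
        linarith
      have hchain : Chain F.u0 F.Ψ0 0 c' (R * em u0) [S, S'] (R * ep u0) := by
        rw [hu, hΨ]
        exact hch R (le_max_right _ _)
      obtain ⟨J, J', hJ, hJ', hP, hQ⟩ := chain_two F hc' hchain
      have hE1 : Small F.τ (-(R ^ 3 / 20)) (fun n =>
          -(F.P n (R * ep u0) - F.P n (R * em u0))) := by
        refine ⟨C, hC.mono fun n hn => ?_⟩
        have := hn.1
        simp only [Function.comp, hE, zero_div, zero_sub] at this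
        exact this
      have hE2 : Small F.τ (-(R ^ 3 / 20)) (fun n =>
          -(F.Q n (R * ep u0) - F.Q n (R * em u0))) := by
        refine ⟨C, hC.mono fun n hn => ?_⟩
        have := hn.2
        simp only [Function.comp, hE, hD, add_zero, zero_div, zero_sub] at this
        exact this
      set c2 : ℝ := max c' (-(R ^ 3 / 20)) with hc2
      have hc20 : c2 < 0 := max_lt hc' hR20
      have hSm : Small F.τ c2 (fun n => -(J n + J' n)) := by
        have h2 := t1_add (t1_mono F.hτ (le_max_left _ _ : c' ≤ c2) hP)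
          (t1_mono F.hτ (le_max_right _ _ : -(R ^ 3 / 20) ≤ c2) hE1)
        obtain ⟨C2, hC2⟩ := h2
        refine ⟨C2, hC2.mono fun n hn => ?_⟩
        refine le_trans (le_of_eq ?_) hn
        congr 1
        ring
      have hw1 : F.w0 S = -S := by rw [hw]
      have hw2 : F.w0 S' = -S' := by rw [hw]
      refine lin_two F.hτ F.hτlim hc20 hJ hJ' hSm (E := fun n => -(-S * J n + -S' * J' n)) ?_
        (a := 1) (b := 1) one_ne_zero one_ne_zero (w := -S) (w' := -S')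
        (fun hcon => hSS (neg_injective hcon)) (Filter.Frequently.of_forall fun n => ⟨?_, ?_⟩)
      · intro ε hε
        filter_upwards [hQ (ε / 2) (by positivity),
          t1_small F.hτ F.hτlim hR20 hJ hE2 (η := ε / 2) (by positivity)] with n k1 k2
        rw [hw1, hw2] at k1
        have e : -(-S * J n + -S' * J' n) =
            (F.Q n (R * ep u0) - F.Q n (R * em u0) - -S * J n - -S' * J' n) +
              -(F.Q n (R * ep u0) - F.Q n (R * em u0)) := by ring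
        rw [e]
        refine (norm_add_le _ _).trans ((add_le_add k1 k2).trans ?_)
        nlinarith [norm_nonneg (J n), norm_nonneg (J' n)]
      · ring
      · ring
    · obtain ⟨h2, _⟩ := scale_one h' hu0 hre him hT hs hv0 h1
      obtain ⟨n, hn⟩ := h2.exists
      exact hn (hE _)

end SokalV
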