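import Pool.Agent.Lib_MP_af4de1_v.TipDefs

/-!
# The part of the contour near the tip [SV-TSPL]

`exists_fam h` gives a family `F` (`Ψ0 = Ph (-e⁻¹)`).  `TipConn` with `ρ := min ρ0 ρ1` gives `c' < -u0.re/2` and `R0`; choose `R ≥ max(R0, 1)` with
`1/2 + 3(e⁻¹+1) - R/2 ≤ c'`.  `rep_E` with `P = F.P n`: `Ev = (P(1+RI) - P(-1-RI)) + tails`, `tail_pos`, `tail_neg` (`‖ζ n‖ ≤ e⁻¹ + 1` for large `n`):
the tails are `≤ C exp(c'/‖t n‖)`; `Fam.rel` for the two connections: `P(1+RI) - P(1+ρ ep)` and `P(1+ρ em) - P(-1-RI)` are `≤ C exp(c'/‖t n‖)`.  Same for `Dv`,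
`rep_DE`, `Q`.  Differences of a primitive do not depend on the primitive: two primitives of the same function differ by a constant
(`HasDerivAt` of the difference is `0` everywhere: `is_const_of_deriv_eq_zero`).
-/

namespace SokalV

open Complex Filter Topology

private theorem prim_diff {P P' f : ℂ → ℂ} (h : ∀ H, HasDerivAt P (f H) H)
    (h' : ∀ H, HasDerivAt P' (f H) H) (A B : ℂ) : P B - P A = P' B - P' A := by
  have hd : ∀ H, HasDerivAt (fun H => P H - P' H) 0 H := fun H => by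
    have := (h H).sub (h' H)
    rw [sub_self] at this
    exact this
  have hc := is_const_of_deriv_eq_zero (fun H => (hd H).differentiableAt) (fun H => (hd H).deriv) B A
  linear_combination hc

theorem tip_split {t ζ : ℕ → ℂ} {u0 : ℂ} (h : Par t ζ (-cexp (-1)) u0) (hT : TipConn u0)
    {ρ1 : ℝ} (hρ1 : 0 < ρ1) : ∃ ρ : ℝ, 0 < ρ ∧ ρ ≤ ρ1 ∧ ∃ c1 < -u0.re / 2, ∃ C : ℝ,
      ∀ᶠ n in atTop, ∀ P Q : ℂ → ℂ, (∀ H, HasDerivAt P (cexp (Ph (ζ n) H / t n)) H) →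
        (∀ H, HasDerivAt Q (ζ n * cexp H * cexp (Ph (ζ n) H / t n)) H) →
        ‖Ev (t n) (ζ n) - (P (1 + ρ * ep u0) - P (1 + ρ * em u0))‖ ≤
          C * Real.exp (c1 / ‖t n‖) ∧
        ‖Dv (t n) (ζ n) - (Q (1 + ρ * ep u0) - Q (1 + ρ * em u0))‖ ≤
          C * Real.exp (c1 / ‖t n‖) := by
  obtain ⟨F, hΨ0, -, hu0, hτ, hu, hΨ, hw⟩ := exists_fam h
  obtain ⟨ρ0, hρ0, hT⟩ := hT
  have hρ : 0 < min ρ0 ρ1 := lt_min hρ0 hρ1
  obtain ⟨c', hc', R0, hR⟩ := hT (min ρ0 ρ1) hρ (min_le_left _ _)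
  obtain ⟨ρ, hρe⟩ : ∃ ρ : ℝ, ρ = min ρ0 ρ1 := ⟨_, rfl⟩
  rw [← hρe] at hR hρ
  obtain ⟨M, hM⟩ : ∃ M : ℝ, M = ‖-cexp (-1)‖ + 1 := ⟨_, rfl⟩
  have hM0 : 0 < M := by rw [hM]; positivity
  obtain ⟨R, hRe⟩ : ∃ R : ℝ, R = max R0 (max 1 (2 * (1 / 2 + 3 * M - c'))) := ⟨_, rfl⟩
  have hR0 : R0 ≤ R := by rw [hRe]; exact le_max_left _ _
  have hR1 : 1 ≤ R := by rw [hRe]; exact (le_max_left _ _).trans (le_max_right _ _)
  have hR2 : 2 * (1 / 2 + 3 * M - c') ≤ R := by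
    rw [hRe]; exact (le_max_right _ _).trans (le_max_right _ _)
  obtain ⟨hc1, hc2⟩ := hR R hR0
  have hconn : (fun H => (F.u0 * F.Ψ0 H).re) = Gh u0 (-cexp (-1)) := by
    funext H
    rw [hΨ0, hu0]
    rfl
  rw [← hconn] at hc1 hc2
  obtain ⟨C1, hC1⟩ := F.rel hc1
  obtain ⟨C2, hC2⟩ := F.rel hc2
  refine ⟨ρ, hρ, by rw [hρe]; exact min_le_right _ _, c', hc', C1 + C2 + (4 + 12 * M), ?_⟩
  have hζ : ∀ᶠ n in atTop, ‖ζ n‖ < M := by
    refine h.zet.norm.eventually_lt_const ?_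
    rw [hM]
    linarith
  have ht1 : ∀ᶠ n in atTop, ‖t n‖ < 1 := by
    refine h.lim.norm.eventually_lt_const ?_
    rw [norm_zero]
    exact one_pos
  filter_upwards [hC1, hC2, hζ, ht1] with n k1 k2 hz htn P Q hP hQ
  have hn : 0 < ‖t n‖ := norm_pos_iff.2 (h.ne n)
  have hnC : (‖t n‖ : ℂ) ≠ 0 := by exact_mod_cast hn.ne'
  have hint : ∀ H, F.u n * F.Ψ n H / F.τ n = Ph (ζ n) H / t n := by
    intro H
    rw [hu, hΨ, hτ]
    have := h.ne n
    field_simp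
  have hFP : ∀ H, HasDerivAt (F.P n) (cexp (Ph (ζ n) H / t n)) H := by
    intro H
    rw [← hint H]
    exact F.hP n H
  have hFQ : ∀ H, HasDerivAt (F.Q n) (ζ n * cexp H * cexp (Ph (ζ n) H / t n)) H := by
    intro H
    have := F.hQ n H
    rw [hint H, hw n] at this
    exact this
  rw [hτ] at k1 k2
  have hz0 : 0 ≤ ‖ζ n‖ := norm_nonneg _
  have hE : Real.exp ((1 / 2 + 3 * ‖ζ n‖ - R / 2) / ‖t n‖) ≤ Real.exp (c' / ‖t n‖) := by
    refine Real.exp_le_exp.2 (div_le_div_of_nonneg_right ?_ hn.le)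
    linarith
  have hX : 0 < Real.exp (c' / ‖t n‖) := Real.exp_pos _
  have hb1 : 2 * ‖t n‖ * Real.exp ((1 / 2 + 3 * ‖ζ n‖ - R / 2) / ‖t n‖) ≤
      2 * Real.exp (c' / ‖t n‖) := by
    have := mul_le_mul htn.le hE (Real.exp_pos _).le zero_le_one
    linarith
  have hb2 : 6 * ‖ζ n‖ * ‖t n‖ * Real.exp ((1 / 2 + 3 * ‖ζ n‖ - R / 2) / ‖t n‖) ≤
      6 * M * Real.exp (c' / ‖t n‖) := by
    have h1 := mul_le_mul htn.le hE (Real.exp_pos _).le zero_le_one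
    have h2 : ‖t n‖ * Real.exp ((1 / 2 + 3 * ‖ζ n‖ - R / 2) / ‖t n‖) ≤
        Real.exp (c' / ‖t n‖) := by linarith
    have h3 := mul_le_mul hz.le h2 (by positivity) hM0.le
    linarith only [h3]
  obtain ⟨p1, p2⟩ := tail_pos (ζ := ζ n) (h.ne n) (h.re n) (h.im n) hR1
  obtain ⟨m1, m2⟩ := tail_neg (ζ := ζ n) (h.ne n) (h.re n) (h.im n) hR1
  constructor
  · have e1 := rep_E (ζ := ζ n) (h.ne n) (h.re n) (h.im n) R hP
    have d1 := prim_diff hP hFP (1 + ρ * ep u0) (1 + R * I)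
    have d2 := prim_diff hP hFP (-1 - R * I) (1 + ρ * em u0)
    have e2 : Ev (t n) (ζ n) - (P (1 + ρ * ep u0) - P (1 + ρ * em u0)) =
        ((F.P n (1 + ρ * em u0) - F.P n (-1 - R * I)) +
          (F.P n (1 + R * I) - F.P n (1 + ρ * ep u0))) +
        ((∫ s in Set.Ioi R, cexp (Ph (ζ n) (1 + s * I) / t n)) * I +
          (∫ s in Set.Iio (-R), cexp (Ph (ζ n) (-1 + s * I) / t n)) * I) := by
      unfold Ev
      rw [e1, ← d1, ← d2]
      ring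
    rw [e2]
    refine (norm_add_le _ _).trans ?_
    have n1 := norm_add_le (F.P n (1 + ρ * em u0) - F.P n (-1 - R * I))
      (F.P n (1 + R * I) - F.P n (1 + ρ * ep u0))
    have n2 := norm_add_le ((∫ s in Set.Ioi R, cexp (Ph (ζ n) (1 + s * I) / t n)) * I)
      ((∫ s in Set.Iio (-R), cexp (Ph (ζ n) (-1 + s * I) / t n)) * I)
    rw [norm_mul, norm_mul, norm_I, mul_one, mul_one] at n2
    have hMX : 0 ≤ 12 * M * Real.exp (c' / ‖t n‖) := by positivity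
    linarith only [hb1, p1, m1, n1, n2, hMX, k1.1, k2.1]
  · have e1 := rep_DE (ζ := ζ n) (h.ne n) (h.re n) (h.im n) R hQ
    have d1 := prim_diff hQ hFQ (1 + ρ * ep u0) (1 + R * I)
    have d2 := prim_diff hQ hFQ (-1 - R * I) (1 + ρ * em u0)
    have e2 : Dv (t n) (ζ n) - (Q (1 + ρ * ep u0) - Q (1 + ρ * em u0)) =
        ((F.Q n (1 + ρ * em u0) - F.Q n (-1 - R * I)) +
          (F.Q n (1 + R * I) - F.Q n (1 + ρ * ep u0))) +
        ((∫ s in Set.Ioi R, ζ n * cexp (1 + s * I) * cexp (Ph (ζ n) (1 + s * I) / t n)) * I +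
          (∫ s in Set.Iio (-R), ζ n * cexp (-1 + s * I) *
            cexp (Ph (ζ n) (-1 + s * I) / t n)) * I) := by
      unfold Dv
      rw [e1, ← d1, ← d2]
      ring
    rw [e2]
    refine (norm_add_le _ _).trans ?_
    have n1 := norm_add_le (F.Q n (1 + ρ * em u0) - F.Q n (-1 - R * I))
      (F.Q n (1 + R * I) - F.Q n (1 + ρ * ep u0))
    have n2 := norm_add_le
      ((∫ s in Set.Ioi R, ζ n * cexp (1 + s * I) * cexp (Ph (ζ n) (1 + s * I) / t n)) * I)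
      ((∫ s in Set.Iio (-R), ζ n * cexp (-1 + s * I) * cexp (Ph (ζ n) (-1 + s * I) / t n)) * I)
    rw [norm_mul, norm_mul, norm_I, mul_one, mul_one] at n2
    linarith only [hX, hb2, p2, m2, n1, n2, k1.2, k2.2]

/-- The size `‖sz‖` is larger than the rest. -/
theorem sz_big {t ζ : ℕ → ℂ} {u0 : ℂ} (h : Par t ζ (-cexp (-1)) u0) {c1 : ℝ}
    (hc1 : c1 < -u0.re / 2) : ∃ δ : ℝ, 0 < δ ∧ ∀ᶠ n in atTop,
      Real.exp (c1 / ‖t n‖) ≤ Real.exp (-δ / ‖t n‖) * ‖sz (t n) (ζ n)‖ := by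
  have hδ : 0 < (-u0.re / 2 - c1) / 2 := by linarith
  refine ⟨(-u0.re / 2 - c1) / 2, hδ, ?_⟩
  have hoff : Tendsto (fun n => off (ζ n)) atTop (𝓝 0) := by
    have h1 : Tendsto (fun n => 1 + cexp 1 * ζ n) atTop (𝓝 (1 + cexp 1 * (-cexp (-1)))) :=
      (h.zet.const_mul _).const_add _
    have h2 : 1 + cexp 1 * (-cexp (-1)) = 0 := by
      rw [mul_neg, ← Complex.exp_add, add_neg_cancel, Complex.exp_zero, add_neg_cancel]
    rw [h2] at h1
    exact h1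
  have hg : Tendsto (fun n => ((-1 / 2 + off (ζ n)) * ((‖t n‖ : ℂ) / t n)).re) atTop
      (𝓝 (-u0.re / 2)) := by
    have h1 := (hoff.const_add (-1 / 2 : ℂ)).mul h.dir
    have h2 := (Complex.continuous_re.tendsto _).comp h1
    have h3 : ((-1 / 2 + 0) * u0 : ℂ).re = -u0.re / 2 := by
      have : ((-1 / 2 + 0) * u0 : ℂ) = ((-1 / 2 : ℝ) : ℂ) * u0 := by push_cast; ring
      rw [this, Complex.re_ofReal_mul]
      ring
    rw [h3] at h2
    exact h2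
  have hev : ∀ᶠ n in atTop, c1 + (-u0.re / 2 - c1) / 2 <
      ((-1 / 2 + off (ζ n)) * ((‖t n‖ : ℂ) / t n)).re :=
    hg.eventually_const_lt (by linarith)
  filter_upwards [hev] with n hn
  have ht : 0 < ‖t n‖ := norm_pos_iff.2 (h.ne n)
  have htC : (‖t n‖ : ℂ) ≠ 0 := by exact_mod_cast ht.ne'
  have e1 : (-1 / 2 + off (ζ n)) / t n =
      ((-1 / 2 + off (ζ n)) * ((‖t n‖ : ℂ) / t n)) / (‖t n‖ : ℝ) := by
    have := h.ne n
    field_simp
  unfold sz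
  rw [Complex.norm_exp, e1, Complex.div_ofReal_re, ← Real.exp_add, ← add_div]
  refine Real.exp_le_exp.2 (div_le_div_of_nonneg_right ?_ ht.le)
  linarith

end SokalV
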