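import Pool.Agent.Lib_MP_af4de1_v.TipBound
import Pool.Agent.Lib_MP_af4de1_v.TipSplit

/-!
# The Airy limit [SV-A1]

`ell = (2t)^{1/3}`, `ell³ = 2t`, `x_n = off(ζ n) ell/t → x0`.  `tip_split` with `ρ1` from `tip_bound`:
`Ev ≈ ep ∫_0^ρ cexp(Ph ζ(1+y ep)/t)dy - em ∫_0^ρ cexp(Ph ζ(1+y em)/t)dy` (`P(1+ρ ep) - P 1`, integral of the derivative along the segment), up to
`C exp(c1/‖t‖)`, which divided by `sz·ell` tends to `0` (`sz_big`).  Substitute `y = ‖ell‖ s`: the first integral divided by `sz·ell` is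
`(‖ell‖/ell) ∫_0^{ρ/‖ell‖} cexp((Ph ζ(1+‖ell‖s ep) - (-1/2+off ζ))/t) ds`.  With `ell = ‖ell‖e^{iα_n}`, `α_n = arg(t n)/3 → -arg(u0)/3` (`t n/‖t n‖ → conj u0`,
`u0.re ≥ 0` so the argument is continuous there), `‖ell‖ ep/ell → ω = e^{2πi/3}`; pointwise (by `tip_exp`: the errors `‖h‖⁴/‖t‖`, `‖v‖‖h‖²/‖t‖` with `h = ‖ell‖s ep`
tend to `0`: `‖ell‖³ = 2‖t‖`, `‖v‖ ≤ C‖t‖/‖ell‖`) the exponent tends to `x0 ω s - s³/3`: `off·‖ell‖s ep/t = x_n·(‖ell‖ep/ell)s`, `(‖ell‖s ep)³/(6t) = ell³(…)³/(6t) → ω³s³/3`.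
Dominated convergence: by `tip_bound` the integrand is `≤ exp((-y³/8 + 2‖v‖y)/‖t‖) = exp(-s³/4 + 2‖x_n‖s)`.  So the quotient tends to `ω∫… - ω⁻¹∫… = Ai x0`.
Second limit: `Dv + Ev` has the integrand `(ζe^H+1)cexp(Ph ζ H/t)`; by `tip_mult` `(ζe^{1+h}+1)/ell = -h/ell + O((‖h‖²+2‖v‖)/‖ell‖) → -ωs`, bounded by `s + ‖ell‖s² + C‖ell‖`:
the limit is `-(ω·∫ωs… - ω⁻¹∫ω⁻¹s…) = -Ad x0`.  (`Ai`, `Ad` are written with `cexp (2πI/3)` and `cexp(-(2πI/3))`.)
-/

namespace SokalV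

open Complex Filter Topology MeasureTheory

/-- The Airy scale. -/
noncomputable def ell (t : ℂ) : ℂ := (2 * t) ^ (1 / 3 : ℂ)

theorem ell_pow {t : ℂ} : ell t ^ 3 = 2 * t := by
  unfold ell
  have h := Complex.cpow_nat_inv_pow (2 * t) (n := 3) (by norm_num)
  rw [show (1 / 3 : ℂ) = ((3 : ℕ) : ℂ)⁻¹ by push_cast; norm_num]
  exact h

private theorem norm_ell {t : ℂ} : ‖ell t‖ ^ 3 = 2 * ‖t‖ := by
  rw [← norm_pow, ell_pow, norm_mul]
  simp

private theorem ell_ne {t : ℂ} (ht : t ≠ 0) : ell t ≠ 0 := by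
  intro h
  have := ell_pow (t := t)
  rw [h] at this
  apply ht
  simpa using this.symm

private theorem ell_dir {t : ℂ} (ht : t ≠ 0) : ell t = (‖ell t‖ : ℂ) * cexp ((t.arg / 3 : ℝ) * I) := by
  have h2 : (2 * t) ≠ 0 := by simp [ht]
  have harg : (2 * t).arg = t.arg := by
    have := Complex.arg_real_mul t (r := 2) (by norm_num)
    simpa using this
  have h3 : ell t = cexp ((Real.log ‖2 * t‖ / 3 : ℝ)) * cexp ((t.arg / 3 : ℝ) * I) := by
    unfold ell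
    rw [Complex.cpow_def_of_ne_zero h2, Complex.log, harg, ← Complex.exp_add]
    congr 1
    push_cast
    ring
  have h4 : ‖ell t‖ = Real.exp (Real.log ‖2 * t‖ / 3) := by
    rw [h3, norm_mul, Complex.norm_exp_ofReal_mul_I, Complex.norm_exp_ofReal, mul_one]
  rw [h4, Complex.ofReal_exp]
  exact h3

private theorem ell_lim {t : ℕ → ℂ} (h : Tendsto t atTop (𝓝 0)) :
    Tendsto (fun n => ‖ell (t n)‖) atTop (𝓝 0) := by
  have h1 : Tendsto (fun n => 2 * ‖t n‖) atTop (𝓝 0) := by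
    have := (h.norm).const_mul 2
    simpa using this
  have h2 : (fun n => ‖ell (t n)‖) = fun n => (2 * ‖t n‖) ^ (1 / 3 : ℝ) := by
    funext n
    rw [← norm_ell, ← Real.rpow_natCast, ← Real.rpow_mul (norm_nonneg _)]
    norm_num
  rw [h2]
  have h3 := h1.rpow_const (p := (1 / 3 : ℝ)) (Or.inr (by norm_num))
  rwa [Real.zero_rpow (by norm_num)] at h3

private theorem arg_lim {t ζ : ℕ → ℂ} {ζ0 u0 : ℂ} (h : Par t ζ ζ0 u0) (hu0 : ‖u0‖ = 1)
    (hre : 0 ≤ u0.re) : Tendsto (fun n => (t n).arg) atTop (𝓝 (-u0.arg)) := by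
  have hs : u0 ∈ Complex.slitPlane := by
    rw [Complex.mem_slitPlane_iff]
    rcases hre.lt_or_eq with h1 | h1
    · exact Or.inl h1
    · right
      intro h2
      have : u0 = 0 := Complex.ext h1.symm h2
      rw [this] at hu0
      simp at hu0
  have h1 : Tendsto (fun n => ((‖t n‖ : ℂ) / t n).arg) atTop (𝓝 u0.arg) :=
    (Complex.continuousAt_arg hs).tendsto.comp h.dir
  have h2 : (fun n => ((‖t n‖ : ℂ) / t n).arg) = fun n => -(t n).arg := by
    funext n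
    have hn : 0 < ‖t n‖ := norm_pos_iff.mpr (h.ne n)
    rw [div_eq_mul_inv, Complex.arg_real_mul _ hn, Complex.arg_inv]
    rw [if_neg]
    intro h3
    rw [Complex.arg_eq_pi_iff] at h3
    linarith [h.re n, h3.1]
  rw [h2] at h1
  have := h1.neg
  simpa using this

private theorem kap_lim {t ζ : ℕ → ℂ} {ζ0 u0 : ℂ} (h : Par t ζ ζ0 u0) (hu0 : ‖u0‖ = 1)
    (hre : 0 ≤ u0.re) (θ : ℝ) :
    Tendsto (fun n => (‖ell (t n)‖ : ℂ) * cexp (((θ - u0.arg / 3 : ℝ) : ℂ) * I) / ell (t n)) atTop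
      (𝓝 (cexp (θ * I))) := by
  have h1 : ∀ n, (‖ell (t n)‖ : ℂ) * cexp (((θ - u0.arg / 3 : ℝ) : ℂ) * I) / ell (t n) =
      cexp (((θ - u0.arg / 3 - (t n).arg / 3 : ℝ) : ℂ) * I) := by
    intro n
    have h2 := ell_dir (h.ne n)
    have h3 : (‖ell (t n)‖ : ℂ) ≠ 0 := by
      simpa using ell_ne (h.ne n)
    set l := ‖ell (t n)‖ with hl
    rw [h2, mul_div_mul_left _ _ h3, ← Complex.exp_sub]
    congr 1
    push_cast
    ring
  simp_rw [h1]
  have h2 : Tendsto (fun n => θ - u0.arg / 3 - (t n).arg / 3) atTop (𝓝 θ) := by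
    have := ((arg_lim h hu0 hre).div_const 3).const_sub (θ - u0.arg / 3)
    convert this using 2
    ring
  have h3 : Continuous (fun x : ℝ => cexp (x * I)) := by fun_prop
  exact (h3.tendsto θ).comp h2

private theorem bound_int (M : ℝ) (hM : 0 ≤ M) : IntegrableOn
    (fun s : ℝ => (M + s + s ^ 2) * Real.exp (-(s ^ 3 / 4) + 2 * M * s)) (Set.Ioi 0) := by
  have h0 : IntegrableOn (fun x : ℝ => Real.exp (-1 * x)) (Set.Ioi 0) := exp_neg_integrableOn_Ioi 0 one_pos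
  set a := 2 * M + 2 with ha
  have h1 : IntegrableOn (fun x : ℝ => ((M + 3) * Real.exp (a * (1 + 4 * a))) * Real.exp (-1 * x)) (Set.Ioi 0) :=
    h0.const_mul _
  refine Integrable.mono' h1 (by fun_prop) ?_
  rw [ae_restrict_iff' measurableSet_Ioi]
  refine Eventually.of_forall fun s hs => ?_
  have hs0 : (0 : ℝ) < s := hs
  have e1 : s ≤ Real.exp s := by linarith [Real.add_one_le_exp s]
  have e2 : s ^ 2 ≤ 2 * Real.exp s := by linarith [Real.quadratic_le_exp_of_nonneg hs0.le]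
  have e0 : 1 ≤ Real.exp s := Real.one_le_exp hs0.le
  have e3 : M + s + s ^ 2 ≤ (M + 3) * Real.exp s := by nlinarith only [hM, e1, e2, e0]
  have e4 : s + (-(s ^ 3 / 4) + 2 * M * s) ≤ a * (1 + 4 * a) + -1 * s := by
    have ha2 : 2 ≤ a := by linarith
    rcases le_total s (1 + 4 * a) with h | h
    · nlinarith only [ha2, h, pow_pos hs0 3]
    · have h5 : a ≤ s ^ 2 / 4 := by nlinarith only [h]
      have h6 := mul_le_mul_of_nonneg_right h5 hs0.le
      nlinarith only [e3, ha2, h]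
  rw [Real.norm_of_nonneg (by positivity)]
  calc (M + s + s ^ 2) * Real.exp (-(s ^ 3 / 4) + 2 * M * s)
      ≤ ((M + 3) * Real.exp s) * Real.exp (-(s ^ 3 / 4) + 2 * M * s) := by gcongr
    _ = (M + 3) * Real.exp (s + (-(s ^ 3 / 4) + 2 * M * s)) := by rw [Real.exp_add s]; ring
    _ ≤ (M + 3) * Real.exp (a * (1 + 4 * a) + -1 * s) := by gcongr
    _ = _ := by rw [Real.exp_add (a * (1 + 4 * a))]; ring

private theorem dct {φ : ℕ → ℝ → ℂ} {φ0 : ℝ → ℂ} {b : ℕ → ℝ} {M : ℝ} (hM : 0 ≤ M)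
    (hb : Tendsto b atTop atTop) (hφ : ∀ n, Continuous (φ n))
    (hbd : ∀ᶠ n in atTop, ∀ s : ℝ, 0 < s → s ≤ b n →
      ‖φ n s‖ ≤ (M + s + s ^ 2) * Real.exp (-(s ^ 3 / 4) + 2 * M * s))
    (hlim : ∀ s : ℝ, 0 < s → Tendsto (fun n => φ n s) atTop (𝓝 (φ0 s))) :
    Tendsto (fun n => ∫ s in (0 : ℝ)..(b n), φ n s) atTop (𝓝 (∫ s in Set.Ioi (0 : ℝ), φ0 s)) := by
  have h1 : Tendsto (fun n => ∫ s in Set.Ioi (0 : ℝ), (Set.Iic (b n)).indicator (φ n) s) atTop
      (𝓝 (∫ s in Set.Ioi (0 : ℝ), φ0 s)) := by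
    refine tendsto_integral_filter_of_dominated_convergence _ ?_ ?_ (bound_int M hM) ?_
    · exact Eventually.of_forall fun n =>
        ((hφ n).aestronglyMeasurable.indicator measurableSet_Iic)
    · filter_upwards [hbd] with n hn
      rw [ae_restrict_iff' measurableSet_Ioi]
      refine Eventually.of_forall fun s hs => ?_
      by_cases h : s ∈ Set.Iic (b n)
      · rw [Set.indicator_of_mem h]
        exact hn s hs h
      · rw [Set.indicator_of_notMem h, norm_zero]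
        have : (0 : ℝ) < s := hs
        positivity
    · rw [ae_restrict_iff' measurableSet_Ioi]
      refine Eventually.of_forall fun s hs => ?_
      refine (hlim s hs).congr' ?_
      filter_upwards [hb.eventually_ge_atTop s] with n hn
      rw [Set.indicator_of_mem (show s ∈ Set.Iic (b n) from hn)]
  refine h1.congr' ?_
  filter_upwards [hb.eventually_ge_atTop 0] with n hn
  rw [setIntegral_indicator measurableSet_Iic, intervalIntegral.integral_of_le hn]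
  rfl

private theorem ftc {G g : ℂ → ℂ} (hG : ∀ H, HasDerivAt G (g H) H) (hg : Continuous g) (e : ℂ) {L ρ : ℝ}
    (hL : 0 < L) : G (1 + ρ * e) - G 1 = (L * e) * ∫ s in (0 : ℝ)..(ρ / L), g (1 + (L * s : ℝ) * e) := by
  have h1 : ∀ s : ℝ, HasDerivAt (fun s : ℝ => G (1 + (L * s : ℝ) * e)) (g (1 + (L * s : ℝ) * e) * (L * e)) s := by
    intro s
    have h2 : HasDerivAt (fun s : ℝ => (1 : ℂ) + (L * s : ℝ) * e) (L * e) s := by
      have h3 : HasDerivAt (fun s : ℝ => ((L * s : ℝ) : ℂ)) (L : ℂ) s := by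
        have h4 : HasDerivAt (fun s : ℝ => L * s) L s := by
          simpa using (hasDerivAt_id s).const_mul L
        exact h4.ofReal_comp
      exact (h3.mul_const e).const_add 1
    exact HasDerivAt.comp s (hG _) h2
  have h5 : Continuous fun s : ℝ => g (1 + (L * s : ℝ) * e) := by fun_prop
  have h4 := intervalIntegral.integral_eq_sub_of_hasDerivAt (a := 0) (b := ρ / L) (fun s _ => h1 s)
    ((h5.mul continuous_const).intervalIntegrable _ _)
  rw [intervalIntegral.integral_mul_const] at h4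
  rw [mul_comm ((L : ℂ) * e) _, h4, mul_div_cancel₀ _ hL.ne']
  simp

private theorem cont_Ph (ζ t : ℂ) : Continuous fun H => cexp (Ph ζ H / t) := by
  unfold Ph
  fun_prop

private theorem core {t ζ : ℕ → ℂ} {u0 x0 e ω : ℂ} (h : Par t ζ (-cexp (-1)) u0)
    (he : ‖e‖ = 1) (hω : ω ^ 3 = 1)
    (hκ : Tendsto (fun n => (‖ell (t n)‖ : ℂ) * e / ell (t n)) atTop (𝓝 ω))
    (hx : Tendsto (fun n => off (ζ n) * ell (t n) / t n) atTop (𝓝 x0))
    {ρ : ℝ} (hρ : 0 < ρ) (hρ2 : ρ ≤ 1 / 2)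
    (hb : ∀ᶠ n in atTop, ∀ y : ℝ, 0 ≤ y → y ≤ ρ →
      ((‖t n‖ : ℂ) / t n * (Ph (ζ n) (1 + y * e) - (-1 / 2 + off (ζ n)))).re ≤
        -(y ^ 3 / 8) + 2 * ‖off (ζ n)‖ * y)
    {P R : ℕ → ℂ → ℂ} (hP : ∀ n H, HasDerivAt (P n) (cexp (Ph (ζ n) H / t n)) H)
    (hR : ∀ n H, HasDerivAt (R n) ((ζ n * cexp H + 1) * cexp (Ph (ζ n) H / t n)) H) :
    Tendsto (fun n => (P n (1 + ρ * e) - P n 1) / (sz (t n) (ζ n) * ell (t n))) atTop
      (𝓝 ((∫ s in Set.Ioi (0 : ℝ), cexp (x0 * (ω * s) - s ^ 3 / 3)) * ω)) ∧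
    Tendsto (fun n => (R n (1 + ρ * e) - R n 1) / (sz (t n) (ζ n) * ell (t n) ^ 2)) atTop
      (𝓝 (-((∫ s in Set.Ioi (0 : ℝ), s * cexp (x0 * (ω * s) - s ^ 3 / 3)) * ω ^ 2))) := by
  have hL : ∀ n, 0 < ‖ell (t n)‖ := fun n => norm_pos_iff.mpr (ell_ne (h.ne n))
  have hL0 := ell_lim h.lim
  have hbt : Tendsto (fun n => ρ / ‖ell (t n)‖) atTop atTop := by
    have h1 : Tendsto (fun n => ‖ell (t n)‖) atTop (𝓝[>] 0) :=
      tendsto_nhdsWithin_iff.mpr ⟨hL0, Eventually.of_forall hL⟩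
    exact h1.inv_tendsto_nhdsGT_zero.const_mul_atTop hρ
  -- sizes
  have hvt : ∀ n, ‖off (ζ n)‖ * ‖ell (t n)‖ = ‖off (ζ n) * ell (t n) / t n‖ * ‖t n‖ := by
    intro n
    rw [norm_div, norm_mul]
    have : ‖t n‖ ≠ 0 := norm_ne_zero_iff.mpr (h.ne n)
    field_simp
  obtain ⟨M, hM0, hM⟩ : ∃ M : ℝ, 0 ≤ M ∧ ∀ᶠ n in atTop, ‖off (ζ n) * ell (t n) / t n‖ ≤ M := by
    refine ⟨‖x0‖ + 1, by positivity, ?_⟩
    filter_upwards [hx.norm.eventually_lt_const (lt_add_one ‖x0‖)] with n hn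
    exact hn.le
  -- the two integrands
  set φ : ℕ → ℝ → ℂ := fun n s =>
    cexp ((Ph (ζ n) (1 + (‖ell (t n)‖ * s : ℝ) * e) - (-1 / 2 + off (ζ n))) / t n) with hφ
  set ψ : ℕ → ℝ → ℂ := fun n s =>
    (ζ n * cexp (1 + (‖ell (t n)‖ * s : ℝ) * e) + 1) / ell (t n) * φ n s with hψ
  have hφc : ∀ n, Continuous (φ n) := by
    intro n
    rw [hφ]
    simp only
    unfold Ph
    fun_prop
  have hψc : ∀ n, Continuous (ψ n) := by
    intro n
    rw [hψ]
    simp only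
    have := hφc n
    fun_prop
  -- bound of the first integrand
  have hφb : ∀ᶠ n in atTop, ∀ s : ℝ, 0 < s → s ≤ ρ / ‖ell (t n)‖ →
      ‖φ n s‖ ≤ Real.exp (-(s ^ 3 / 4) + 2 * M * s) := by
    filter_upwards [hb, hM] with n hn hMn s hs hs2
    have hy0 : 0 ≤ ‖ell (t n)‖ * s := by positivity
    have hy1 : ‖ell (t n)‖ * s ≤ ρ := by
      rw [le_div_iff₀ (hL n)] at hs2
      linarith
    have h1 := hn _ hy0 hy1
    have ht0 : 0 < ‖t n‖ := norm_pos_iff.mpr (h.ne n)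
    rw [hφ]
    simp only
    rw [Complex.norm_exp, Real.exp_le_exp]
    have h2 : (Ph (ζ n) (1 + (‖ell (t n)‖ * s : ℝ) * e) - (-1 / 2 + off (ζ n))) / t n =
        ((‖t n‖⁻¹ : ℝ) : ℂ) * ((‖t n‖ : ℂ) / t n * (Ph (ζ n) (1 + (‖ell (t n)‖ * s : ℝ) * e) -
          (-1 / 2 + off (ζ n)))) := by
      have h3 : (‖t n‖ : ℂ) ≠ 0 := by exact_mod_cast ht0.ne'
      have h4 := h.ne n
      push_cast
      field_simp
    rw [h2, Complex.re_ofReal_mul]
    have h3 : ‖t n‖⁻¹ * (-((‖ell (t n)‖ * s) ^ 3 / 8) + 2 * ‖off (ζ n)‖ * (‖ell (t n)‖ * s)) =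
        -(s ^ 3 / 4) + 2 * ‖off (ζ n) * ell (t n) / t n‖ * s := by
      have h4 : (‖ell (t n)‖ * s) ^ 3 = 2 * ‖t n‖ * s ^ 3 := by rw [mul_pow, norm_ell]
      have h5 : 2 * ‖off (ζ n)‖ * (‖ell (t n)‖ * s) = 2 * (‖off (ζ n) * ell (t n) / t n‖ * ‖t n‖) * s := by
        rw [← hvt]
        ring
      rw [h4, h5]
      field_simp
      ring
    calc ‖t n‖⁻¹ * _ ≤ ‖t n‖⁻¹ * (-((‖ell (t n)‖ * s) ^ 3 / 8) + 2 * ‖off (ζ n)‖ * (‖ell (t n)‖ * s)) :=
          mul_le_mul_of_nonneg_left h1 (by positivity)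
      _ = _ := h3
      _ ≤ _ := by
        have := mul_le_mul_of_nonneg_right hMn hs.le
        linarith
  -- limit of the first integrand
  have hv0 : Tendsto (fun n => ‖off (ζ n)‖ / ‖ell (t n)‖) atTop (𝓝 0) := by
    have h1 : ∀ n, ‖off (ζ n)‖ / ‖ell (t n)‖ = ‖off (ζ n) * ell (t n) / t n‖ * (‖ell (t n)‖ / 2) := by
      intro n
      have h2 := hvt n
      have h3 := norm_ell (t := t n)
      have h4 := (hL n).ne'
      rw [div_eq_iff h4]
      have h5 : ‖off (ζ n)‖ * ‖ell (t n)‖ = (‖off (ζ n) * ell (t n) / t n‖ * (‖ell (t n)‖ / 2) * ‖ell (t n)‖) *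
          ‖ell (t n)‖ := by
        rw [h2]
        have : ‖t n‖ = ‖ell (t n)‖ ^ 3 / 2 := by linarith
        rw [this]
        ring
      exact mul_right_cancel₀ h4 h5
    simp_rw [h1]
    have := hx.norm.mul (hL0.div_const 2)
    simpa using this
  have hφl : ∀ s : ℝ, 0 < s → Tendsto (fun n => φ n s) atTop (𝓝 (cexp (x0 * (ω * s) - s ^ 3 / 3))) := by
    intro s hs
    have h1 : Tendsto (fun n => (Ph (ζ n) (1 + (‖ell (t n)‖ * s : ℝ) * e) - (-1 / 2 + off (ζ n))) / t n) atTop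
        (𝓝 (x0 * (ω * s) - s ^ 3 / 3)) := by
      have h2 : Tendsto (fun n => off (ζ n) * ell (t n) / t n * ((‖ell (t n)‖ : ℂ) * e / ell (t n) * s) -
          ((‖ell (t n)‖ : ℂ) * e / ell (t n)) ^ 3 * s ^ 3 / 3) atTop (𝓝 (x0 * (ω * s) - s ^ 3 / 3)) := by
        have := (hx.mul (hκ.mul_const (s : ℂ))).sub (((hκ.pow 3).mul_const ((s : ℂ) ^ 3)).div_const 3)
        rwa [hω, one_mul] at this
      have h3 : Tendsto (fun n => (Ph (ζ n) (1 + (‖ell (t n)‖ * s : ℝ) * e) - (-1 / 2 + off (ζ n))) / t n -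
          (off (ζ n) * ell (t n) / t n * ((‖ell (t n)‖ : ℂ) * e / ell (t n) * s) -
          ((‖ell (t n)‖ : ℂ) * e / ell (t n)) ^ 3 * s ^ 3 / 3)) atTop (𝓝 0) := by
        have h4 : Tendsto (fun n => ‖ell (t n)‖ * s ^ 4 / 6 +
            ‖off (ζ n) * ell (t n) / t n‖ * ‖ell (t n)‖ * s ^ 2) atTop (𝓝 0) := by
          have := ((hL0.mul_const (s ^ 4)).div_const 6).add ((hx.norm.mul hL0).mul_const (s ^ 2))
          simpa using this
        refine squeeze_zero_norm' ?_ h4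
        have h5 : Tendsto (fun n => ‖ell (t n)‖ * s) atTop (𝓝 0) := by
          simpa using hL0.mul_const s
        filter_upwards [h5.eventually_lt_const (show (0 : ℝ) < 1 / 2 by norm_num)] with n hn
        have ht0 : 0 < ‖t n‖ := norm_pos_iff.mpr (h.ne n)
        have hh : ‖((‖ell (t n)‖ * s : ℝ) : ℂ) * e‖ = ‖ell (t n)‖ * s := by
          rw [norm_mul, he, mul_one, Complex.norm_real, Real.norm_of_nonneg (by positivity)]
        have h6 := tip_exp (ζ n) (h := ((‖ell (t n)‖ * s : ℝ) : ℂ) * e) (by rw [hh]; exact hn.le)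
        rw [hh] at h6
        have h7 : (Ph (ζ n) (1 + (‖ell (t n)‖ * s : ℝ) * e) - (-1 / 2 + off (ζ n))) / t n -
          (off (ζ n) * ell (t n) / t n * ((‖ell (t n)‖ : ℂ) * e / ell (t n) * s) -
          ((‖ell (t n)‖ : ℂ) * e / ell (t n)) ^ 3 * s ^ 3 / 3) =
          (Ph (ζ n) (1 + (‖ell (t n)‖ * s : ℝ) * e) - (-1 / 2 + off (ζ n)) -
            (off (ζ n) * (((‖ell (t n)‖ * s : ℝ) : ℂ) * e) - (((‖ell (t n)‖ * s : ℝ) : ℂ) * e) ^ 3 / 6)) / t n := by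
          have e1 := ell_pow (t := t n)
          have e2 := ell_ne (h.ne n)
          have e3 := h.ne n
          have e4 : t n = ell (t n) ^ 3 / 2 := by rw [e1]; ring
          have e5 : off (ζ n) * ell (t n) / t n * ((‖ell (t n)‖ : ℂ) * e / ell (t n) * s) =
              off (ζ n) * (((‖ell (t n)‖ * s : ℝ) : ℂ) * e) / t n := by
            push_cast
            field_simp
          have e6 : ((‖ell (t n)‖ : ℂ) * e / ell (t n)) ^ 3 * s ^ 3 / 3 =
              (((‖ell (t n)‖ * s : ℝ) : ℂ) * e) ^ 3 / 6 / t n := by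
            rw [div_pow, e1]
            push_cast
            field_simp
            ring
          rw [e5, e6]
          ring
        rw [h7, norm_div, div_le_iff₀ ht0]
        refine h6.trans (le_of_eq ?_)
        have e1 : (‖ell (t n)‖ * s) ^ 4 = 2 * ‖t n‖ * (‖ell (t n)‖ * s ^ 4) := by
          rw [← norm_ell]
          ring
        have e2 : ‖off (ζ n)‖ * (‖ell (t n)‖ * s) ^ 2 =
            ‖off (ζ n) * ell (t n) / t n‖ * ‖t n‖ * (‖ell (t n)‖ * s ^ 2) := by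
          rw [← hvt]
          ring
        rw [e1, e2]
        ring
      have := h3.add h2
      simpa using this
    exact (Complex.continuous_exp.tendsto _).comp h1
  -- bound of the second integrand
  have hwb : ∀ᶠ n in atTop, ∀ s : ℝ, 0 < s → s ≤ ρ / ‖ell (t n)‖ →
      ‖(ζ n * cexp (1 + (‖ell (t n)‖ * s : ℝ) * e) + 1) / ell (t n) + (‖ell (t n)‖ : ℂ) * e / ell (t n) * s‖ ≤
        ‖ell (t n)‖ * s ^ 2 + 2 * (‖off (ζ n)‖ / ‖ell (t n)‖) := by
    refine Eventually.of_forall fun n s hs hs2 => ?_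
    have hy0 : 0 ≤ ‖ell (t n)‖ * s := by have := hL n; positivity
    have hy1 : ‖ell (t n)‖ * s ≤ ρ := by
      rw [le_div_iff₀ (hL n)] at hs2
      linarith
    have hh : ‖((‖ell (t n)‖ * s : ℝ) : ℂ) * e‖ = ‖ell (t n)‖ * s := by
      rw [norm_mul, he, mul_one, Complex.norm_real, Real.norm_of_nonneg hy0]
    have h1 := tip_mult (ζ n) (h := ((‖ell (t n)‖ * s : ℝ) : ℂ) * e) (by rw [hh]; linarith)
    rw [hh] at h1
    have h2 : (ζ n * cexp (1 + (‖ell (t n)‖ * s : ℝ) * e) + 1) / ell (t n) + (‖ell (t n)‖ : ℂ) * e / ell (t n) * s =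
        (ζ n * cexp (1 + (‖ell (t n)‖ * s : ℝ) * e) + 1 + ((‖ell (t n)‖ * s : ℝ) : ℂ) * e) / ell (t n) := by
      push_cast
      ring
    rw [h2, norm_div, div_le_iff₀ (hL n)]
    refine h1.trans (le_of_eq ?_)
    have := (hL n).ne'
    field_simp
  have hκn : ∀ n, ‖(‖ell (t n)‖ : ℂ) * e / ell (t n)‖ = 1 := by
    intro n
    rw [norm_div, norm_mul, he, mul_one, Complex.norm_real, norm_norm, div_self (hL n).ne']
  have hψb : ∀ᶠ n in atTop, ∀ s : ℝ, 0 < s → s ≤ ρ / ‖ell (t n)‖ →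
      ‖ψ n s‖ ≤ ((M + 1) + s + s ^ 2) * Real.exp (-(s ^ 3 / 4) + 2 * (M + 1) * s) := by
    filter_upwards [hφb, hwb, hL0.eventually_lt_const one_pos,
      hv0.eventually_lt_const (show (0 : ℝ) < 1 / 2 by norm_num)] with n h1 h2 h3 h4 s hs hs2
    rw [hψ]
    simp only
    rw [norm_mul]
    have h5 : ‖(ζ n * cexp (1 + (‖ell (t n)‖ * s : ℝ) * e) + 1) / ell (t n)‖ ≤ (M + 1) + s + s ^ 2 := by
      have h6 := h2 s hs hs2
      have h7 : ‖(‖ell (t n)‖ : ℂ) * e / ell (t n) * s‖ = s := by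
        rw [norm_mul, hκn, one_mul, Complex.norm_real, Real.norm_of_nonneg hs.le]
      have h8 := norm_sub_le ((ζ n * cexp (1 + (‖ell (t n)‖ * s : ℝ) * e) + 1) / ell (t n) +
        (‖ell (t n)‖ : ℂ) * e / ell (t n) * s) ((‖ell (t n)‖ : ℂ) * e / ell (t n) * s)
      rw [add_sub_cancel_right, h7] at h8
      have h9 : ‖ell (t n)‖ * s ^ 2 ≤ 1 * s ^ 2 := mul_le_mul_of_nonneg_right h3.le (by positivity)
      linarith
    refine mul_le_mul h5 ((h1 s hs hs2).trans ?_) (norm_nonneg _) (by positivity)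
    rw [Real.exp_le_exp]
    linarith
  have hψl : ∀ s : ℝ, 0 < s → Tendsto (fun n => ψ n s) atTop
      (𝓝 (-(ω * s) * cexp (x0 * (ω * s) - s ^ 3 / 3))) := by
    intro s hs
    have h1 : Tendsto (fun n => (ζ n * cexp (1 + (‖ell (t n)‖ * s : ℝ) * e) + 1) / ell (t n)) atTop
        (𝓝 (-(ω * s))) := by
      have h2 : Tendsto (fun n => (ζ n * cexp (1 + (‖ell (t n)‖ * s : ℝ) * e) + 1) / ell (t n) +
          (‖ell (t n)‖ : ℂ) * e / ell (t n) * s) atTop (𝓝 0) := by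
        have h3 : Tendsto (fun n => ‖ell (t n)‖ * s ^ 2 + 2 * (‖off (ζ n)‖ / ‖ell (t n)‖)) atTop (𝓝 0) := by
          simpa using (hL0.mul_const (s ^ 2)).add (hv0.const_mul 2)
        refine squeeze_zero_norm' ?_ h3
        filter_upwards [hwb, hbt.eventually_ge_atTop s] with n hn hs2
        exact hn s hs hs2
      have h4 := h2.sub (hκ.mul_const (s : ℂ))
      simpa using h4
    exact h1.mul (hφl s hs)
  have hφb' : ∀ᶠ n in atTop, ∀ s : ℝ, 0 < s → s ≤ ρ / ‖ell (t n)‖ →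
      ‖φ n s‖ ≤ ((M + 1) + s + s ^ 2) * Real.exp (-(s ^ 3 / 4) + 2 * (M + 1) * s) := by
    filter_upwards [hφb] with n h1 s hs hs2
    have h2 : Real.exp (-(s ^ 3 / 4) + 2 * M * s) ≤ Real.exp (-(s ^ 3 / 4) + 2 * (M + 1) * s) := by
      rw [Real.exp_le_exp]
      linarith
    have h3 : 0 < Real.exp (-(s ^ 3 / 4) + 2 * (M + 1) * s) := Real.exp_pos _
    have h4 := h1 s hs hs2
    nlinarith only [hM0, hs, h2, h3, h4]
  have lim1 := dct (by linarith : (0 : ℝ) ≤ M + 1) hbt hφc hφb' hφl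
  have lim2 := dct (by linarith : (0 : ℝ) ≤ M + 1) hbt hψc hψb hψl
  have hsz : ∀ n H, cexp (Ph (ζ n) H / t n) =
      sz (t n) (ζ n) * cexp ((Ph (ζ n) H - (-1 / 2 + off (ζ n))) / t n) := by
    intro n H
    unfold sz
    rw [← Complex.exp_add]
    congr 1
    ring
  have hsz0 : ∀ n, sz (t n) (ζ n) ≠ 0 := fun n => Complex.exp_ne_zero _
  constructor
  · have h1 : ∀ n, (P n (1 + ρ * e) - P n 1) / (sz (t n) (ζ n) * ell (t n)) =
        (∫ s in (0 : ℝ)..(ρ / ‖ell (t n)‖), φ n s) * ((‖ell (t n)‖ : ℂ) * e / ell (t n)) := by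
      intro n
      rw [ftc (hP n) (cont_Ph _ _) e (ρ := ρ) (hL n)]
      have h2 : (fun s : ℝ => cexp (Ph (ζ n) (1 + (‖ell (t n)‖ * s : ℝ) * e) / t n)) =
          fun s : ℝ => sz (t n) (ζ n) * φ n s := by
        funext s
        exact hsz n _
      rw [h2, intervalIntegral.integral_const_mul]
      have := hsz0 n
      have := ell_ne (h.ne n)
      field_simp
    simp_rw [h1]
    exact lim1.mul hκ
  · have h1 : ∀ n, (R n (1 + ρ * e) - R n 1) / (sz (t n) (ζ n) * ell (t n) ^ 2) =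
        (∫ s in (0 : ℝ)..(ρ / ‖ell (t n)‖), ψ n s) * ((‖ell (t n)‖ : ℂ) * e / ell (t n)) := by
      intro n
      rw [ftc (hR n) (by have := cont_Ph (ζ n) (t n); fun_prop) e (ρ := ρ) (hL n)]
      have e2 := ell_ne (h.ne n)
      have h2 : (fun s : ℝ => (ζ n * cexp (1 + (‖ell (t n)‖ * s : ℝ) * e) + 1) *
          cexp (Ph (ζ n) (1 + (‖ell (t n)‖ * s : ℝ) * e) / t n)) =
          fun s : ℝ => (sz (t n) (ζ n) * ell (t n)) * ψ n s := by
        funext s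
        rw [hsz n, hψ]
        simp only
        rw [hφ]
        simp only
        field_simp
      rw [h2, intervalIntegral.integral_const_mul]
      have := hsz0 n
      field_simp
    simp_rw [h1]
    have h2 := lim2.mul hκ
    convert h2 using 2
    have h3 : (fun s : ℝ => -(ω * s) * cexp (x0 * (ω * s) - s ^ 3 / 3)) =
        fun s : ℝ => -ω * (s * cexp (x0 * (ω * s) - s ^ 3 / 3)) := by
      funext s
      ring
    rw [h3, MeasureTheory.integral_const_mul]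
    ring

theorem airy_lim {t ζ : ℕ → ℂ} {u0 x0 : ℂ} (h : Par t ζ (-cexp (-1)) u0) (hu0 : ‖u0‖ = 1)
    (hre : 0 ≤ u0.re) (him : 0 ≤ u0.im) (hT : TipConn u0)
    (hx : Tendsto (fun n => off (ζ n) * ell (t n) / t n) atTop (𝓝 x0)) :
    Tendsto (fun n => Ev (t n) (ζ n) / (sz (t n) (ζ n) * ell (t n))) atTop (𝓝 (Ai x0)) ∧
    Tendsto (fun n => (Dv (t n) (ζ n) + Ev (t n) (ζ n)) / (sz (t n) (ζ n) * ell (t n) ^ 2))
      atTop (𝓝 (-Ad x0)) := by
  obtain ⟨ρ1, hρ1, hρ12, hbd⟩ := tip_bound hu0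
  obtain ⟨ρ, hρ, hρρ1, c1, hc1, C, hC⟩ := tip_split h hT hρ1
  obtain ⟨δ, hδ, hbig⟩ := sz_big h hc1
  obtain ⟨F, -, -, -, hF1, hF2, hF3, hF4⟩ := exists_fam h
  have harg : ∀ n H, F.u n * F.Ψ n H / F.τ n = Ph (ζ n) H / t n := by
    intro n H
    rw [hF1, hF2, hF3]
    have h1 : (‖t n‖ : ℂ) ≠ 0 := by
      exact_mod_cast (norm_pos_iff.mpr (h.ne n)).ne'
    have h2 := h.ne n
    field_simp
  have hP : ∀ n H, HasDerivAt (F.P n) (cexp (Ph (ζ n) H / t n)) H := by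
    intro n H
    rw [← harg]
    exact F.hP n H
  have hQ : ∀ n H, HasDerivAt (F.Q n) (ζ n * cexp H * cexp (Ph (ζ n) H / t n)) H := by
    intro n H
    have := F.hQ n H
    rw [harg, hF4] at this
    exact this
  have hR : ∀ n H, HasDerivAt (fun H => F.Q n H + F.P n H)
      ((ζ n * cexp H + 1) * cexp (Ph (ζ n) H / t n)) H := by
    intro n H
    refine ((hQ n H).add (hP n H)).congr_deriv ?_
    ring
  have hoff : Tendsto (fun n => ‖off (ζ n)‖) atTop (𝓝 0) := by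
    have h1 : Tendsto (fun n => off (ζ n)) atTop (𝓝 (off (-cexp (-1)))) := by
      have h2 : Continuous off := by
        unfold off
        fun_prop
      exact (h2.tendsto _).comp h.zet
    have h3 : off (-cexp (-1)) = 0 := by
      unfold off
      rw [mul_neg, ← Complex.exp_add]
      simp
    rw [h3] at h1
    simpa using h1.norm
  have hun : ∀ᶠ n in atTop, ‖(‖t n‖ : ℂ) / t n - u0‖ ≤ ρ1 := by
    have h1 : Tendsto (fun n => ‖(‖t n‖ : ℂ) / t n - u0‖) atTop (𝓝 0) := by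
      have := (h.dir.sub_const u0).norm
      simpa using this
    filter_upwards [h1.eventually_lt_const hρ1] with n hn
    exact hn.le
  have hω : ∀ θ : ℝ, (θ = 2 * Real.pi / 3 ∨ θ = -(2 * Real.pi / 3)) → (cexp (θ * I)) ^ 3 = 1 := by
    intro θ hθ
    rw [← Complex.exp_nat_mul]
    rcases hθ with rfl | rfl
    · rw [show ((3 : ℕ) : ℂ) * (((2 * Real.pi / 3 : ℝ) : ℂ) * I) = 2 * Real.pi * I by push_cast; ring]
      exact Complex.exp_two_pi_mul_I
    · rw [show ((3 : ℕ) : ℂ) * (((-(2 * Real.pi / 3) : ℝ) : ℂ) * I) = -(2 * Real.pi * I) by push_cast; ring,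
        Complex.exp_neg, Complex.exp_two_pi_mul_I, inv_one]
  have hep : ep u0 = cexp (((2 * Real.pi / 3 - u0.arg / 3 : ℝ) : ℂ) * I) := by
    unfold ep
    push_cast
    ring_nf
  have hem : em u0 = cexp (((-(2 * Real.pi / 3) - u0.arg / 3 : ℝ) : ℂ) * I) := by
    unfold em
    push_cast
    ring_nf
  have hb1 : ∀ᶠ n in atTop, ∀ y : ℝ, 0 ≤ y → y ≤ ρ →
      ((‖t n‖ : ℂ) / t n * (Ph (ζ n) (1 + y * ep u0) - (-1 / 2 + off (ζ n)))).re ≤
        -(y ^ 3 / 8) + 2 * ‖off (ζ n)‖ * y := by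
    filter_upwards [hun, hoff.eventually_lt_const hρ1] with n h1 h2 y hy hy2
    exact (hbd _ _ y h1 h2.le hy (hy2.trans hρρ1)).1
  have hb2 : ∀ᶠ n in atTop, ∀ y : ℝ, 0 ≤ y → y ≤ ρ →
      ((‖t n‖ : ℂ) / t n * (Ph (ζ n) (1 + y * em u0) - (-1 / 2 + off (ζ n)))).re ≤
        -(y ^ 3 / 8) + 2 * ‖off (ζ n)‖ * y := by
    filter_upwards [hun, hoff.eventually_lt_const hρ1] with n h1 h2 y hy hy2
    exact (hbd _ _ y h1 h2.le hy (hy2.trans hρρ1)).2
  have k1 := kap_lim h hu0 hre (2 * Real.pi / 3)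
  have k2 := kap_lim h hu0 hre (-(2 * Real.pi / 3))
  rw [← hep] at k1
  rw [← hem] at k2
  have n1 : ‖ep u0‖ = 1 := by
    rw [hep]
    exact Complex.norm_exp_ofReal_mul_I _
  have n2 : ‖em u0‖ = 1 := by
    rw [hem]
    exact Complex.norm_exp_ofReal_mul_I _
  obtain ⟨a1, a2⟩ := core h n1 (hω _ (Or.inl rfl)) k1 hx hρ (hρρ1.trans hρ12) hb1 hP hR
  obtain ⟨b1, b2⟩ := core h n2 (hω _ (Or.inr rfl)) k2 hx hρ (hρρ1.trans hρ12) hb2 hP hR
  have w1 : cexp (((2 * Real.pi / 3 : ℝ) : ℂ) * I) = cexp (2 * Real.pi * I / 3) := by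
    congr 1
    push_cast
    ring
  have w2 : cexp (((-(2 * Real.pi / 3) : ℝ) : ℂ) * I) = cexp (-(2 * Real.pi * I / 3)) := by
    congr 1
    push_cast
    ring
  rw [w1] at a1 a2
  rw [w2] at b1 b2
  have hL : ∀ n, 0 < ‖ell (t n)‖ := fun n => norm_pos_iff.mpr (ell_ne (h.ne n))
  have hL0 := ell_lim h.lim
  have hC0 : 0 ≤ |C| := abs_nonneg C
  have hsz0 : ∀ n, 0 < ‖sz (t n) (ζ n)‖ := fun n => norm_pos_iff.mpr (Complex.exp_ne_zero _)
  have hexp : ∀ n, Real.exp (-δ / ‖t n‖) ≤ ‖ell (t n)‖ ^ 3 / (2 * δ) := by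
    intro n
    have ht0 : 0 < ‖t n‖ := norm_pos_iff.mpr (h.ne n)
    have h1 : δ / ‖t n‖ ≤ Real.exp (δ / ‖t n‖) := by
      linarith [Real.add_one_le_exp (δ / ‖t n‖)]
    rw [norm_ell, neg_div, Real.exp_neg]
    have h2 : 0 < δ / ‖t n‖ := by positivity
    calc (Real.exp (δ / ‖t n‖))⁻¹ ≤ (δ / ‖t n‖)⁻¹ := inv_anti₀ h2 h1
      _ = 2 * ‖t n‖ / (2 * δ) := by
        rw [inv_div, mul_div_mul_left _ _ (by norm_num : (2 : ℝ) ≠ 0)]
  constructor
  · -- first limit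
    have r1 : Tendsto (fun n => (Ev (t n) (ζ n) - (F.P n (1 + ρ * ep u0) - F.P n (1 + ρ * em u0))) /
        (sz (t n) (ζ n) * ell (t n))) atTop (𝓝 0) := by
      have h4 : Tendsto (fun n => |C| * (‖ell (t n)‖ ^ 2 / (2 * δ))) atTop (𝓝 0) := by
        have := ((hL0.pow 2).div_const (2 * δ)).const_mul |C|
        simpa using this
      refine squeeze_zero_norm' ?_ h4
      filter_upwards [hC, hbig] with n h5 h6
      have h7 := (h5 _ _ (hP n) (hQ n)).1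
      have h8 := hexp n
      have h9 := hL n
      have h10 := hsz0 n
      rw [norm_div, norm_mul, div_le_iff₀ (by positivity)]
      calc _ ≤ C * Real.exp (c1 / ‖t n‖) := h7
        _ ≤ |C| * Real.exp (c1 / ‖t n‖) := by gcongr; exact le_abs_self C
        _ ≤ |C| * (Real.exp (-δ / ‖t n‖) * ‖sz (t n) (ζ n)‖) := by gcongr
        _ ≤ |C| * ((‖ell (t n)‖ ^ 3 / (2 * δ)) * ‖sz (t n) (ζ n)‖) := by gcongr
        _ = _ := by ring
    have r2 := (r1.add a1).sub b1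
    have h1 : ∀ n, Ev (t n) (ζ n) / (sz (t n) (ζ n) * ell (t n)) =
        (Ev (t n) (ζ n) - (F.P n (1 + ρ * ep u0) - F.P n (1 + ρ * em u0))) / (sz (t n) (ζ n) * ell (t n)) +
        (F.P n (1 + ρ * ep u0) - F.P n 1) / (sz (t n) (ζ n) * ell (t n)) -
        (F.P n (1 + ρ * em u0) - F.P n 1) / (sz (t n) (ζ n) * ell (t n)) := by
      intro n
      ring
    simp_rw [h1]
    convert r2 using 2
    unfold Ai
    rw [zero_add]
  · have r1 : Tendsto (fun n => (Ev (t n) (ζ n) - (F.P n (1 + ρ * ep u0) - F.P n (1 + ρ * em u0)) +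
        (Dv (t n) (ζ n) - (F.Q n (1 + ρ * ep u0) - F.Q n (1 + ρ * em u0)))) /
        (sz (t n) (ζ n) * ell (t n) ^ 2)) atTop (𝓝 0) := by
      have h4 : Tendsto (fun n => 2 * |C| * (‖ell (t n)‖ / (2 * δ))) atTop (𝓝 0) := by
        have := (hL0.div_const (2 * δ)).const_mul (2 * |C|)
        simpa using this
      refine squeeze_zero_norm' ?_ h4
      filter_upwards [hC, hbig] with n h5 h6
      obtain ⟨h7, h7'⟩ := h5 _ _ (hP n) (hQ n)
      have h8 := hexp n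
      have h9 := hL n
      have h10 := hsz0 n
      rw [norm_div, norm_mul, norm_pow, div_le_iff₀ (by positivity)]
      calc _ ≤ C * Real.exp (c1 / ‖t n‖) + C * Real.exp (c1 / ‖t n‖) :=
            (norm_add_le _ _).trans (add_le_add h7 h7')
        _ = 2 * C * Real.exp (c1 / ‖t n‖) := by ring
        _ ≤ 2 * |C| * Real.exp (c1 / ‖t n‖) := by gcongr; exact le_abs_self C
        _ ≤ 2 * |C| * (Real.exp (-δ / ‖t n‖) * ‖sz (t n) (ζ n)‖) := by gcongr
        _ ≤ 2 * |C| * ((‖ell (t n)‖ ^ 3 / (2 * δ)) * ‖sz (t n) (ζ n)‖) := by gcongr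
        _ = _ := by ring
    have r2 := (r1.add a2).sub b2
    have h1 : ∀ n, (Dv (t n) (ζ n) + Ev (t n) (ζ n)) / (sz (t n) (ζ n) * ell (t n) ^ 2) =
        (Ev (t n) (ζ n) - (F.P n (1 + ρ * ep u0) - F.P n (1 + ρ * em u0)) +
        (Dv (t n) (ζ n) - (F.Q n (1 + ρ * ep u0) - F.Q n (1 + ρ * em u0)))) /
        (sz (t n) (ζ n) * ell (t n) ^ 2) +
        (F.Q n (1 + ρ * ep u0) + F.P n (1 + ρ * ep u0) - (F.Q n 1 + F.P n 1)) / (sz (t n) (ζ n) * ell (t n) ^ 2) -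
        (F.Q n (1 + ρ * em u0) + F.P n (1 + ρ * em u0) - (F.Q n 1 + F.P n 1)) / (sz (t n) (ζ n) * ell (t n) ^ 2) := by
      intro n
      ring
    simp_rw [h1]
    convert r2 using 2
    unfold Ad
    ring

end SokalV
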