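import Pool.Agent.Lib_MP_af4de1_v.SaddleAs

/-!
# Asymptotics along a chain [SV-CHA]

`chain_nil`: `Fam.rel`.  `chain_one`: unfold `Chain` (`cases` twice): `A ~ S - v`, `S + v ~ B` by `Fam.rel` at the level `c'`, and
`J n = P_n(S+v) - P_n(S-v)`; `Fam.saddle`: `J n = (c0 + o(1)) √τ_n cexp(u_nΨ_n(S_n)/τ_n)`, `Re(u_nΨ_n(S_n)) → c`
(continuity, locally uniform convergence, `height`): `Big` (`√τ exp((c-ε/2)/τ) ≥ exp((c-ε)/τ)` for small `τ`).  The second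
limit of `Fam.saddle` gives `‖ΔQ - w0 S · J‖ ≤ ε ‖J‖`, the errors `C exp(c'/τ_n) ≤ ε‖J n‖` by `Big`.  `chain_two` the same twice.
`lin_one`: `‖g‖ exp((c-ε)/τ) ≤ ‖g‖‖J‖ = ‖R‖ ≤ C exp(c'/τ)` with `ε = (c-c')/2` is false for small `τ`.
`lin_two`: frequently `‖J1‖ ≥ ‖J2‖` or frequently `‖J2‖ ≥ ‖J1‖`.  First case: subtract `w2` times the first equation:
`a (w1-w2) J1 = w2 R - E`, `‖a (w1-w2)‖ ‖J1‖ ≤ ‖w2‖ C exp(c'/τ) + 2ε‖J1‖`: contradiction with `Big` for small `ε`.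
-/

namespace SokalV

open Complex Filter Topology

/-- Of the size of a saddle point contribution at the height `c` (lower bound). -/
def Big (τ : ℕ → ℝ) (c : ℝ) (J : ℕ → ℂ) : Prop :=
  ∀ ε : ℝ, 0 < ε → ∀ᶠ n in atTop, Real.exp ((c - ε) / τ n) ≤ ‖J n‖

/-- Not larger than a contribution at the height `c`. -/
def Small (τ : ℕ → ℝ) (c : ℝ) (R : ℕ → ℂ) : Prop :=
  ∃ C : ℝ, ∀ᶠ n in atTop, ‖R n‖ ≤ C * Real.exp (c / τ n)

/-- `K √τ exp(δ/τ) ≥ 1` for small `τ`. -/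
private theorem ev_sqrt {τ : ℕ → ℝ} (hτ : ∀ n, 0 < τ n) (hτ0 : Tendsto τ atTop (𝓝 0)) {K δ : ℝ}
    (hK : 0 < K) (hδ : 0 < δ) : ∀ᶠ n in atTop, 1 ≤ K * √(τ n) * Real.exp (δ / τ n) := by
  have h1 : Tendsto (fun n => √(τ n)) atTop (𝓝 0) := by
    have := (Real.continuous_sqrt.tendsto 0).comp hτ0
    simpa [Function.comp_def] using this
  have h2 : ∀ᶠ n in atTop, √(τ n) < K * δ := h1.eventually_lt_const (by positivity)
  filter_upwards [h2] with n hn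
  have hs : 0 < √(τ n) := Real.sqrt_pos.2 (hτ n)
  have hsq : √(τ n) * √(τ n) = τ n := Real.mul_self_sqrt (hτ n).le
  have h3 : δ / τ n ≤ Real.exp (δ / τ n) := by
    have := Real.add_one_le_exp (δ / τ n)
    linarith
  calc (1 : ℝ) ≤ K * δ / √(τ n) := by rw [one_le_div hs]; exact hn.le
    _ = K * √(τ n) * (δ / τ n) := by
        rw [div_eq_iff hs.ne']
        calc K * δ = K * δ * (√(τ n) * √(τ n)) / τ n := by
              rw [hsq, mul_div_assoc, div_self (hτ n).ne', mul_one]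
          _ = _ := by ring
    _ ≤ K * √(τ n) * Real.exp (δ / τ n) := by
        apply mul_le_mul_of_nonneg_left h3
        positivity

/-- `C ≤ η exp(δ/τ)` for small `τ`. -/
private theorem ev_exp {τ : ℕ → ℝ} (hτ : ∀ n, 0 < τ n) (hτ0 : Tendsto τ atTop (𝓝 0)) {C η δ : ℝ}
    (hη : 0 < η) (hδ : 0 < δ) : ∀ᶠ n in atTop, C ≤ η * Real.exp (δ / τ n) := by
  have h2 : ∀ᶠ n in atTop, τ n < η * δ / (|C| + 1) := hτ0.eventually_lt_const (by positivity)
  filter_upwards [h2] with n hn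
  have h3 : δ / τ n ≤ Real.exp (δ / τ n) := by
    have := Real.add_one_le_exp (δ / τ n)
    linarith
  have h4 : τ n * (|C| + 1) < η * δ := by
    rwa [lt_div_iff₀ (by positivity)] at hn
  calc C ≤ |C| + 1 := by linarith [le_abs_self C]
    _ ≤ η * (δ / τ n) := by
        rw [← mul_div_assoc, le_div_iff₀ (hτ n)]
        linarith
    _ ≤ η * Real.exp (δ / τ n) := mul_le_mul_of_nonneg_left h3 hη.le

private theorem small_big {τ : ℕ → ℝ} (hτ : ∀ n, 0 < τ n) (hτ0 : Tendsto τ atTop (𝓝 0))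
    {c c' : ℝ} (hc : c' < c) {J R : ℕ → ℂ} (hJ : Big τ c J) (hR : Small τ c' R) {η : ℝ}
    (hη : 0 < η) : ∀ᶠ n in atTop, ‖R n‖ ≤ η * ‖J n‖ := by
  obtain ⟨C, hC⟩ := hR
  have hδ : 0 < (c - c') / 2 := by linarith
  filter_upwards [hC, hJ _ hδ, ev_exp (C := C) hτ hτ0 hη hδ] with n h1 h2 h3
  have h4 : Real.exp ((c - (c - c') / 2) / τ n) =
      Real.exp (((c - c') / 2) / τ n) * Real.exp (c' / τ n) := by
    rw [← Real.exp_add]
    congr 1
    ring
  calc ‖R n‖ ≤ C * Real.exp (c' / τ n) := h1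
    _ ≤ (η * Real.exp (((c - c') / 2) / τ n)) * Real.exp (c' / τ n) :=
        mul_le_mul_of_nonneg_right h3 (Real.exp_pos _).le
    _ = η * Real.exp ((c - (c - c') / 2) / τ n) := by rw [h4]; ring
    _ ≤ η * ‖J n‖ := mul_le_mul_of_nonneg_left h2 hη.le

private theorem big_pos {τ : ℕ → ℝ} {c : ℝ} {J : ℕ → ℂ} (hJ : Big τ c J) :
    ∀ᶠ n in atTop, 0 < ‖J n‖ := by
  filter_upwards [hJ 1 one_pos] with n hn
  exact (Real.exp_pos _).trans_le hn

private theorem small_add {τ : ℕ → ℝ} {c : ℝ} {R R' : ℕ → ℂ} (h : Small τ c R)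
    (h' : Small τ c R') : Small τ c (fun n => R n + R' n) := by
  obtain ⟨C, hC⟩ := h
  obtain ⟨C', hC'⟩ := h'
  refine ⟨C + C', ?_⟩
  filter_upwards [hC, hC'] with n h1 h2
  calc ‖R n + R' n‖ ≤ ‖R n‖ + ‖R' n‖ := norm_add_le _ _
    _ ≤ (C + C') * Real.exp (c / τ n) := by rw [add_mul]; exact add_le_add h1 h2

private theorem conn_small (F : Fam) {c : ℝ} {A B : ℂ}
    (h : Conn (fun H => (F.u0 * F.Ψ0 H).re) c A B) :
    Small F.τ c (fun n => F.P n B - F.P n A) ∧ Small F.τ c (fun n => F.Q n B - F.Q n A) := by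
  obtain ⟨C, hC⟩ := F.rel h
  exact ⟨⟨C, hC.mono fun n hn => hn.1⟩, ⟨C, hC.mono fun n hn => hn.2⟩⟩

private theorem saddle_big (F : Fam) {c : ℝ} {S v : ℂ} (h : Sad F.u0 F.Ψ0 c S v) :
    Big F.τ c (fun n => F.P n (S + v) - F.P n (S - v)) ∧
    ∀ ε : ℝ, 0 < ε → ∀ᶠ n in atTop,
      ‖F.Q n (S + v) - F.Q n (S - v) - F.w0 S * (F.P n (S + v) - F.P n (S - v))‖ ≤
        ε * ‖F.P n (S + v) - F.P n (S - v)‖ := by
  obtain ⟨Sn, c0, hc0, hSn, -, hl1, hl2⟩ := F.saddle h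
  have hc0' : 0 < ‖c0‖ := norm_pos_iff.2 hc0
  have hD : ∀ n, 0 < ‖(√(F.τ n) : ℂ) * cexp (F.u n * F.Ψ n (Sn n) / F.τ n)‖ := by
    intro n
    rw [norm_pos_iff]
    refine mul_ne_zero ?_ (Complex.exp_ne_zero _)
    have : √(F.τ n) ≠ 0 := (Real.sqrt_pos.2 (F.hτ n)).ne'
    exact_mod_cast this
  have hDn : ∀ n, ‖(√(F.τ n) : ℂ) * cexp (F.u n * F.Ψ n (Sn n) / F.τ n)‖ =
      √(F.τ n) * Real.exp ((F.u n * F.Ψ n (Sn n)).re / F.τ n) := by
    intro n
    rw [norm_mul, Complex.norm_exp, Complex.div_ofReal_re, Complex.norm_real, Real.norm_eq_abs,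
      abs_of_nonneg (Real.sqrt_nonneg _)]
  have hJ : ∀ᶠ n in atTop, ‖c0‖ / 2 * ‖(√(F.τ n) : ℂ) * cexp (F.u n * F.Ψ n (Sn n) / F.τ n)‖ ≤
      ‖F.P n (S + v) - F.P n (S - v)‖ := by
    have h1 : ∀ᶠ n in atTop, ‖c0‖ / 2 < ‖(F.P n (S + v) - F.P n (S - v)) /
        (√(F.τ n) * cexp (F.u n * F.Ψ n (Sn n) / F.τ n))‖ :=
      hl1.norm.eventually_const_lt (by linarith)
    filter_upwards [h1] with n hn
    rw [norm_div, lt_div_iff₀ (hD n)] at hn
    exact hn.le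
  refine ⟨?_, ?_⟩
  · intro ε hε
    have hcont : Continuous F.Ψ0 :=
      F.hΨlim.continuous (Eventually.of_forall fun n => (F.hΨ n).continuous).frequently
    have hlim : Tendsto (fun n => (F.u n * F.Ψ n (Sn n)).re) atTop (𝓝 c) := by
      have h1 : Tendsto (fun n => F.Ψ n (Sn n)) atTop (𝓝 (F.Ψ0 S)) :=
        F.hΨlim.tendsto_comp hcont.continuousAt hSn
      have h2 := (Complex.continuous_re.tendsto _).comp (F.hulim.mul h1)
      rw [h.height] at h2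
      exact h2
    have hre : ∀ᶠ n in atTop, c - ε / 2 < (F.u n * F.Ψ n (Sn n)).re :=
      hlim.eventually_const_lt (by linarith)
    filter_upwards [hJ, hre, ev_sqrt F.hτ F.hτlim (K := ‖c0‖ / 2) (δ := ε / 2) (by positivity)
      (by positivity)] with n h1 h2 h3
    rw [hDn n] at h1
    refine le_trans ?_ h1
    have h4 : Real.exp ((c - ε / 2) / F.τ n) ≤
        Real.exp ((F.u n * F.Ψ n (Sn n)).re / F.τ n) :=
      Real.exp_le_exp.2 (div_le_div_of_nonneg_right h2.le (F.hτ n).le)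
    have h5 : Real.exp ((c - ε / 2) / F.τ n) =
        Real.exp (ε / 2 / F.τ n) * Real.exp ((c - ε) / F.τ n) := by
      rw [← Real.exp_add]
      congr 1
      ring
    calc Real.exp ((c - ε) / F.τ n) = 1 * Real.exp ((c - ε) / F.τ n) := (one_mul _).symm
      _ ≤ (‖c0‖ / 2 * √(F.τ n) * Real.exp (ε / 2 / F.τ n)) * Real.exp ((c - ε) / F.τ n) :=
          mul_le_mul_of_nonneg_right h3 (Real.exp_pos _).le
      _ = ‖c0‖ / 2 * √(F.τ n) * Real.exp ((c - ε / 2) / F.τ n) := by rw [h5]; ring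
      _ ≤ ‖c0‖ / 2 * √(F.τ n) * Real.exp ((F.u n * F.Ψ n (Sn n)).re / F.τ n) :=
          mul_le_mul_of_nonneg_left h4 (by positivity)
      _ = _ := by ring
  · intro ε hε
    have h1 : ∀ᶠ n in atTop, ‖(F.Q n (S + v) - F.Q n (S - v) -
        F.w0 S * (F.P n (S + v) - F.P n (S - v))) /
        (√(F.τ n) * cexp (F.u n * F.Ψ n (Sn n) / F.τ n))‖ < ε * (‖c0‖ / 2) := by
      refine hl2.norm.eventually_lt_const ?_
      rw [norm_zero]
      positivity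
    filter_upwards [h1, hJ] with n h2 h3
    rw [norm_div, div_lt_iff₀ (hD n)] at h2
    calc _ ≤ ε * (‖c0‖ / 2) * ‖(√(F.τ n) : ℂ) * cexp (F.u n * F.Ψ n (Sn n) / F.τ n)‖ := h2.le
      _ = ε * (‖c0‖ / 2 * ‖(√(F.τ n) : ℂ) * cexp (F.u n * F.Ψ n (Sn n) / F.τ n)‖) := by ring
      _ ≤ _ := mul_le_mul_of_nonneg_left h3 hε.le

theorem chain_nil (F : Fam) {c c' : ℝ} {A B : ℂ} (h : Chain F.u0 F.Ψ0 c c' A [] B) :
    Small F.τ c' (fun n => F.P n B - F.P n A) ∧ Small F.τ c' (fun n => F.Q n B - F.Q n A) := by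
  cases h with
  | nil h => exact conn_small F h

theorem chain_one (F : Fam) {c c' : ℝ} (hc : c' < c) {A B S : ℂ}
    (h : Chain F.u0 F.Ψ0 c c' A [S] B) : ∃ J : ℕ → ℂ, Big F.τ c J ∧
      Small F.τ c' (fun n => F.P n B - F.P n A - J n) ∧
      ∀ ε : ℝ, 0 < ε → ∀ᶠ n in atTop, ‖F.Q n B - F.Q n A - F.w0 S * J n‖ ≤ ε * ‖J n‖ := by
  cases h with
  | @cons _ _ _ v _ h1 h2 h3 =>
    cases h3 with
    | nil h4 =>
      obtain ⟨hB, hQ⟩ := saddle_big F h2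
      obtain ⟨p1, q1⟩ := conn_small F h1
      obtain ⟨p4, q4⟩ := conn_small F h4
      refine ⟨fun n => F.P n (S + v) - F.P n (S - v), hB, ?_, ?_⟩
      · obtain ⟨C, hC⟩ := small_add p1 p4
        refine ⟨C, ?_⟩
        filter_upwards [hC] with n hn
        refine le_trans (le_of_eq ?_) hn
        congr 1
        ring
      · intro ε hε
        filter_upwards [hQ (ε / 2) (by positivity),
          small_big F.hτ F.hτlim hc hB (small_add q1 q4) (η := ε / 2) (by positivity)]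
          with n k1 k2
        calc ‖F.Q n B - F.Q n A - F.w0 S * (F.P n (S + v) - F.P n (S - v))‖
            = ‖(F.Q n (S + v) - F.Q n (S - v) - F.w0 S * (F.P n (S + v) - F.P n (S - v))) +
                (F.Q n (S - v) - F.Q n A + (F.Q n B - F.Q n (S + v)))‖ := by
              congr 1
              ring
          _ ≤ _ := norm_add_le _ _
          _ ≤ _ := add_le_add k1 k2
          _ = ε * ‖F.P n (S + v) - F.P n (S - v)‖ := by ring

theorem chain_two (F : Fam) {c c' : ℝ} (hc : c' < c) {A B S S' : ℂ}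
    (h : Chain F.u0 F.Ψ0 c c' A [S, S'] B) : ∃ J J' : ℕ → ℂ, Big F.τ c J ∧ Big F.τ c J' ∧
      Small F.τ c' (fun n => F.P n B - F.P n A - J n - J' n) ∧
      ∀ ε : ℝ, 0 < ε → ∀ᶠ n in atTop,
        ‖F.Q n B - F.Q n A - F.w0 S * J n - F.w0 S' * J' n‖ ≤ ε * (‖J n‖ + ‖J' n‖) := by
  cases h with
  | @cons _ _ _ v _ h1 h2 h3 =>
    cases h3 with
    | @cons _ _ _ v' _ h4 h5 h6 =>
      cases h6 with
      | nil h7 =>
        obtain ⟨hB, hQ⟩ := saddle_big F h2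
        obtain ⟨hB', hQ'⟩ := saddle_big F h5
        obtain ⟨p1, q1⟩ := conn_small F h1
        obtain ⟨p4, q4⟩ := conn_small F h4
        obtain ⟨p7, q7⟩ := conn_small F h7
        refine ⟨fun n => F.P n (S + v) - F.P n (S - v),
          fun n => F.P n (S' + v') - F.P n (S' - v'), hB, hB', ?_, ?_⟩
        · obtain ⟨C, hC⟩ := small_add (small_add p1 p4) p7
          refine ⟨C, ?_⟩
          filter_upwards [hC] with n hn
          refine le_trans (le_of_eq ?_) hn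
          congr 1
          ring
        · intro ε hε
          filter_upwards [hQ (ε / 2) (by positivity), hQ' (ε / 2) (by positivity),
            small_big F.hτ F.hτlim hc hB (small_add (small_add q1 q4) q7) (η := ε / 2)
              (by positivity)] with n k1 k1' k2
          calc ‖F.Q n B - F.Q n A - F.w0 S * (F.P n (S + v) - F.P n (S - v)) -
                F.w0 S' * (F.P n (S' + v') - F.P n (S' - v'))‖
              = ‖(F.Q n (S + v) - F.Q n (S - v) - F.w0 S * (F.P n (S + v) - F.P n (S - v))) +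
                  (F.Q n (S' + v') - F.Q n (S' - v') -
                    F.w0 S' * (F.P n (S' + v') - F.P n (S' - v'))) +
                  (F.Q n (S - v) - F.Q n A + (F.Q n (S' - v') - F.Q n (S + v)) +
                    (F.Q n B - F.Q n (S' + v')))‖ := by
                congr 1
                ring
            _ ≤ _ := norm_add₃_le
            _ ≤ _ := add_le_add (add_le_add k1 k1') k2
            _ ≤ ε * (‖F.P n (S + v) - F.P n (S - v)‖ + ‖F.P n (S' + v') - F.P n (S' - v')‖) := by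
                nlinarith [norm_nonneg (F.P n (S + v) - F.P n (S - v)),
                  norm_nonneg (F.P n (S' + v') - F.P n (S' - v'))]

theorem lin_one {τ : ℕ → ℝ} (hτ : ∀ n, 0 < τ n) (hτ0 : Tendsto τ atTop (𝓝 0)) {c c' : ℝ}
    (hc : c' < c) {J R : ℕ → ℂ} (hJ : Big τ c J) (hR : Small τ c' R) {g : ℂ} (hg : g ≠ 0)
    (h : ∃ᶠ n in atTop, g * J n + R n = 0) : False := by
  have hg' : 0 < ‖g‖ := norm_pos_iff.2 hg
  have h1 := small_big hτ hτ0 hc hJ hR (η := ‖g‖ / 2) (by positivity)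
  obtain ⟨n, hn, h2, h3⟩ := (h.and_eventually (h1.and (big_pos hJ))).exists
  have h4 : ‖g‖ * ‖J n‖ = ‖R n‖ := by
    rw [← norm_mul, eq_neg_of_add_eq_zero_left hn, norm_neg]
  nlinarith [mul_pos hg' h3]

theorem lin_two {τ : ℕ → ℝ} (hτ : ∀ n, 0 < τ n) (hτ0 : Tendsto τ atTop (𝓝 0)) {c c' : ℝ}
    (hc : c' < c) {J J' R E : ℕ → ℂ} (hJ : Big τ c J) (hJ' : Big τ c J') (hR : Small τ c' R)
    (hE : ∀ ε : ℝ, 0 < ε → ∀ᶠ n in atTop, ‖E n‖ ≤ ε * (‖J n‖ + ‖J' n‖))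
    {a b w w' : ℂ} (ha : a ≠ 0) (hb : b ≠ 0) (hw : w ≠ w')
    (h : ∃ᶠ n in atTop, a * J n + b * J' n + R n = 0 ∧
      a * w * J n + b * w' * J' n + E n = 0) : False := by
  have hww : w - w' ≠ 0 := sub_ne_zero.2 hw
  have ha' : 0 < ‖a * (w - w')‖ := norm_pos_iff.2 (mul_ne_zero ha hww)
  have hb' : 0 < ‖b * (w - w')‖ := norm_pos_iff.2 (mul_ne_zero hb hww)
  have hw1 : 0 < ‖w‖ + 3 := by positivity
  have hw2 : 0 < ‖w'‖ + 3 := by positivity
  obtain ⟨η, hη, hη1, hη2⟩ : ∃ η : ℝ, 0 < η ∧ η * (‖w'‖ + 3) ≤ ‖a * (w - w')‖ ∧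
      η * (‖w‖ + 3) ≤ ‖b * (w - w')‖ := by
    refine ⟨min (‖a * (w - w')‖ / (‖w'‖ + 3)) (‖b * (w - w')‖ / (‖w‖ + 3)),
      lt_min (div_pos ha' hw2) (div_pos hb' hw1), ?_, ?_⟩
    · rw [← le_div_iff₀ hw2]
      exact min_le_left _ _
    · rw [← le_div_iff₀ hw1]
      exact min_le_right _ _
  obtain ⟨n, ⟨e1, e2⟩, r1, r2, r3, j1, j2⟩ := (h.and_eventually
    ((small_big hτ hτ0 hc hJ hR hη).and ((small_big hτ hτ0 hc hJ' hR hη).and
      ((hE η hη).and ((big_pos hJ).and (big_pos hJ')))))).exists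
  rcases le_total ‖J' n‖ ‖J n‖ with hle | hle
  · have h1 : a * (w - w') * J n = w' * R n - E n := by linear_combination e2 - w' * e1
    have h2 : ‖a * (w - w')‖ * ‖J n‖ ≤ ‖w'‖ * ‖R n‖ + ‖E n‖ := by
      rw [← norm_mul, h1, ← norm_mul]
      exact norm_sub_le _ _
    have h3 : ‖w'‖ * ‖R n‖ ≤ ‖w'‖ * (η * ‖J n‖) := mul_le_mul_of_nonneg_left r1 (norm_nonneg _)
    have h4 : η * (‖J n‖ + ‖J' n‖) ≤ η * (‖J n‖ + ‖J n‖) :=
      mul_le_mul_of_nonneg_left (by linarith) hη.le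
    have h5 : η * (‖w'‖ + 3) * ‖J n‖ ≤ ‖a * (w - w')‖ * ‖J n‖ :=
      mul_le_mul_of_nonneg_right hη1 j1.le
    nlinarith [mul_pos hη j1]
  · have h1 : b * (w - w') * J' n = -(w * R n - E n) := by linear_combination w * e1 - e2
    have h2 : ‖b * (w - w')‖ * ‖J' n‖ ≤ ‖w‖ * ‖R n‖ + ‖E n‖ := by
      rw [← norm_mul, h1, norm_neg, ← norm_mul]
      exact norm_sub_le _ _
    have h3 : ‖w‖ * ‖R n‖ ≤ ‖w‖ * (η * ‖J' n‖) := mul_le_mul_of_nonneg_left r2 (norm_nonneg _)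
    have h4 : η * (‖J n‖ + ‖J' n‖) ≤ η * (‖J' n‖ + ‖J' n‖) :=
      mul_le_mul_of_nonneg_left (by linarith) hη.le
    have h5 : η * (‖w‖ + 3) * ‖J' n‖ ≤ ‖b * (w - w')‖ * ‖J' n‖ :=
      mul_le_mul_of_nonneg_right hη2 j2.le
    nlinarith [mul_pos hη j2]

end SokalV
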