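import Pool.Agent.Lib_MP_af4de1_v.Defs

/-!
# Elementary facts on `Conn` and `Chain`
-/

namespace SokalV

open Complex Filter Topology

variable {g g' : ℂ → ℝ} {c c' : ℝ} {A B D : ℂ}

theorem Conn.symm (h : Conn g c A B) : Conn g c B A := by
  obtain ⟨U, h1, h2, h3, h4⟩ := h
  exact ⟨U, h1, h3, h2, h4⟩

theorem Conn.trans (h : Conn g c A B) (h' : Conn g c B D) : Conn g c A D := by
  obtain ⟨U, h1, h2, h3, h4⟩ := h
  obtain ⟨V, k1, k2, k3, k4⟩ := h'
  refine ⟨U ∪ V, h1.union B h3 k2 k1, Or.inl h2, Or.inr k3, ?_⟩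
  rintro H (hH | hH)
  · exact h4 H hH
  · exact k4 H hH

theorem Conn.mono (h : Conn g c A B) (hc : c ≤ c') : Conn g c' A B := by
  obtain ⟨U, h1, h2, h3, h4⟩ := h
  exact ⟨U, h1, h2, h3, fun H hH => (h4 H hH).trans_le hc⟩

theorem Conn.of_le (h : Conn g c A B) (hg : ∀ H, g' H ≤ g H) : Conn g' c A B := by
  obtain ⟨U, h1, h2, h3, h4⟩ := h
  exact ⟨U, h1, h2, h3, fun H hH => (hg H).trans_lt (h4 H hH)⟩

theorem Conn.refl (h : g A < c) : Conn g c A A :=
  ⟨{A}, isPreconnected_singleton, rfl, rfl, by rintro H rfl; exact h⟩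

/-- Along a segment. -/
theorem Conn.segment (h : ∀ s : ℝ, 0 ≤ s → s ≤ 1 → g (A + s * (B - A)) < c) : Conn g c A B := by
  refine ⟨(fun s : ℝ => A + s * (B - A)) '' Set.Icc 0 1, ?_, ⟨0, by simp, by simp⟩,
    ⟨1, by simp, by simp⟩, ?_⟩
  · refine isPreconnected_Icc.image _ (Continuous.continuousOn ?_)
    fun_prop
  · rintro H ⟨s, hs, rfl⟩
    exact h s hs.1 hs.2

theorem Conn.left (h : Conn g c A B) : g A < c := by
  obtain ⟨U, _, h2, _, h4⟩ := h
  exact h4 A h2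

theorem Conn.right (h : Conn g c A B) : g B < c := by
  obtain ⟨U, _, _, h3, h4⟩ := h
  exact h4 B h3

/-- In a small ball. -/
theorem Conn.ball {ρ : ℝ} (h : ∀ H ∈ Metric.ball D ρ, g H < c) (hA : A ∈ Metric.ball D ρ)
    (hB : B ∈ Metric.ball D ρ) : Conn g c A B :=
  ⟨Metric.ball D ρ, (convex_ball D ρ).isPreconnected, hA, hB, h⟩

variable {u0 : ℂ} {Ψ0 : ℂ → ℂ} {c1 : ℝ} {L L' : List ℂ}

theorem Chain.mono (h : Chain u0 Ψ0 c c' A L B) (hc : c' ≤ c1) : Chain u0 Ψ0 c c1 A L B := by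
  induction h with
  | nil h => exact Chain.nil (h.mono hc)
  | cons h1 h2 _ ih => exact Chain.cons (h1.mono hc) h2 ih

theorem Chain.conn_trans (h : Chain u0 Ψ0 c c' B L D)
    (h' : Conn (fun H => (u0 * Ψ0 H).re) c' A B) : Chain u0 Ψ0 c c' A L D := by
  cases h with
  | nil h => exact Chain.nil (h'.trans h)
  | cons h1 h2 h3 => exact Chain.cons (h'.trans h1) h2 h3

theorem Chain.trans_conn (h : Chain u0 Ψ0 c c' A L B)
    (h' : Conn (fun H => (u0 * Ψ0 H).re) c' B D) : Chain u0 Ψ0 c c' A L D := by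
  induction h with
  | nil h => exact Chain.nil (h.trans h')
  | cons h1 h2 _ ih => exact Chain.cons h1 h2 (ih h')

theorem Chain.append (h : Chain u0 Ψ0 c c' A L B) (h' : Chain u0 Ψ0 c c' B L' D) :
    Chain u0 Ψ0 c c' A (L ++ L') D := by
  induction h with
  | nil h => exact h'.conn_trans h
  | cons h1 h2 _ ih => exact Chain.cons h1 h2 (ih h')

end SokalV
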