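import Pool.Agent.Lib_MP_af4de1_v.Conn

/-!
# Perturbed saddle points [SV-CRIT]

First and second derivatives converge locally uniformly (`TendstoLocallyUniformlyOn.deriv`).  `Ψ0''(S) ≠ 0`, so `Ψ0'` has no zero
on a punctured ball around `S`; on its boundary circle `|Ψ_n' - Ψ_n'(S)|` is bounded below for large `n`, `Ψ_n'(S) → 0`, so the open
mapping estimate `DiffContOnCl.ball_subset_image_closedBall` gives a zero of `Ψ_n'` in the ball.  `S_n` is a nearest zero.
-/

namespace SokalV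

open Complex Filter Topology

private lemma crit_near (f : ℕ → ℂ → ℂ) (f0 : ℂ → ℂ) (hf : ∀ n, Differentiable ℂ (f n))
    (hf0 : Differentiable ℂ f0) (hlim : TendstoLocallyUniformly f f0 atTop) {S : ℂ} (h1 : f0 S = 0)
    (h2 : deriv f0 S ≠ 0) {ε : ℝ} (hε : 0 < ε) :
    ∀ᶠ n in atTop, ∃ z ∈ Metric.closedBall S ε, f n z = 0 := by
  have hne : ∀ᶠ z in 𝓝[≠] S, f0 z ≠ 0 := (hf0 S).hasDerivAt.eventually_ne h2
  rw [eventually_nhdsWithin_iff, Metric.eventually_nhds_iff] at hne
  obtain ⟨δ, hδ, hne⟩ := hne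
  -- the radius
  set r : ℝ := min ε (δ / 2) with hr
  have hr0 : 0 < r := lt_min hε (by linarith)
  have hrδ : r < δ := (min_le_right _ _).trans_lt (by linarith)
  have hsph : ∀ z ∈ Metric.sphere S r, 0 < ‖f0 z‖ := by
    intro z hz
    have hz' : dist z S = r := hz
    refine norm_pos_iff.2 (hne (by rw [hz']; exact hrδ) ?_)
    intro h
    rw [Set.mem_singleton_iff] at h
    rw [h, dist_self] at hz'
    exact hr0.ne hz'
  have hcpt : IsCompact (Metric.sphere S r) := isCompact_sphere S r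
  have hnes : (Metric.sphere S r).Nonempty := (NormedSpace.sphere_nonempty).2 hr0.le
  obtain ⟨z0, hz0, hmin⟩ := hcpt.exists_isMinOn hnes (hf0.continuous.norm.continuousOn)
  set m : ℝ := ‖f0 z0‖ with hm
  have hm0 : 0 < m := hsph z0 hz0
  have hlow : ∀ z ∈ Metric.sphere S r, m ≤ ‖f0 z‖ := fun z hz => hmin hz
  -- uniform convergence on the closed ball
  have hunif : TendstoUniformlyOn f f0 atTop (Metric.closedBall S r) :=
    (tendstoLocallyUniformlyOn_iff_tendstoUniformlyOn_of_compact (isCompact_closedBall S r)).1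
      hlim.tendstoLocallyUniformlyOn
  rw [Metric.tendstoUniformlyOn_iff] at hunif
  filter_upwards [hunif (m / 8) (by linarith)] with n hn
  have hS : ‖f n S‖ < m / 8 := by
    have := hn S (Metric.mem_closedBall_self hr0.le)
    rwa [h1, dist_zero_left] at this
  have hbd : ∀ z ∈ Metric.sphere S r, m / 2 ≤ ‖f n z - f n S‖ := by
    intro z hz
    have a1 := hn z (Metric.sphere_subset_closedBall hz)
    have a2 := hlow z hz
    rw [dist_eq_norm] at a1
    have a3 : ‖f0 z‖ ≤ ‖f0 z - f n z‖ + ‖f n z - f n S‖ + ‖f n S‖ := by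
      calc ‖f0 z‖ = ‖(f0 z - f n z) + (f n z - f n S) + f n S‖ := by congr 1; ring
        _ ≤ _ := norm_add₃_le
    linarith
  have hfreq : ∃ᶠ z in 𝓝 S, f n z ≠ f n S := by
    intro h
    have h' : f n =ᶠ[𝓝 S] fun _ => f n S := by
      filter_upwards [h] with z hz
      exact not_not.1 hz
    have hA : AnalyticOnNhd ℂ (f n) Set.univ := (hf n).differentiableOn.analyticOnNhd isOpen_univ
    have hE := hA.eqOn_of_preconnected_of_eventuallyEq (analyticOnNhd_const) isPreconnected_univ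
      (Set.mem_univ S) h'
    have h3 := hbd z0 hz0
    have h4 : f n z0 = f n S := hE (Set.mem_univ z0)
    rw [h4, sub_self, norm_zero] at h3
    linarith
  have hsub := (hf n).diffContOnCl.ball_subset_image_closedBall hr0 hbd hfreq (a := 0) (by
    rw [Metric.mem_ball, dist_zero_left]
    linarith)
  obtain ⟨z, hz, hz'⟩ := hsub
  exact ⟨z, Metric.closedBall_subset_closedBall (min_le_left _ _) hz, hz'⟩

private lemma crit_seq (f : ℕ → ℂ → ℂ) (hf : ∀ n, Differentiable ℂ (f n)) {S : ℂ}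
    (h : ∀ ε : ℝ, 0 < ε → ∀ᶠ n in atTop, ∃ z ∈ Metric.closedBall S ε, f n z = 0) :
    ∃ Sn : ℕ → ℂ, Tendsto Sn atTop (𝓝 S) ∧ ∀ᶠ n in atTop, f n (Sn n) = 0 := by
  classical
  have hcl : ∀ n, IsClosed {z | f n z = 0} := fun n =>
    isClosed_eq (hf n).continuous continuous_const
  have hex : ∀ n, ∃ w : ℂ, ∀ z, f n z = 0 → f n w = 0 ∧ dist w S ≤ dist z S := by
    intro n
    by_cases hne : ({z | f n z = 0} : Set ℂ).Nonempty
    · obtain ⟨y, hy, hyd⟩ := (hcl n).exists_infDist_eq_dist hne S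
      refine ⟨y, fun z hz => ⟨hy, ?_⟩⟩
      rw [dist_comm y, ← hyd, dist_comm z]
      exact Metric.infDist_le_dist_of_mem hz
    · exact ⟨S, fun z hz => (hne ⟨z, hz⟩).elim⟩
  choose Sn hSn using hex
  refine ⟨Sn, ?_, ?_⟩
  · rw [Metric.tendsto_nhds]
    intro ε hε
    filter_upwards [h (ε / 2) (by linarith)] with n hn
    obtain ⟨z, hz, hz0⟩ := hn
    have h1 := (hSn n z hz0).2
    have h2 : dist z S ≤ ε / 2 := hz
    linarith
  · filter_upwards [h 1 one_pos] with n hn
    obtain ⟨z, _, hz0⟩ := hn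
    exact (hSn n z hz0).1

theorem Fam.exists_crit (F : Fam) {S : ℂ} (h1 : deriv F.Ψ0 S = 0) (h2 : deriv (deriv F.Ψ0) S ≠ 0) :
    ∃ Sn : ℕ → ℂ, Tendsto Sn atTop (𝓝 S) ∧ ∀ᶠ n in atTop, deriv (F.Ψ n) (Sn n) = 0 := by
  have hΨ : TendstoLocallyUniformlyOn F.Ψ F.Ψ0 atTop Set.univ :=
    tendstoLocallyUniformlyOn_univ.2 F.hΨlim
  have hev : ∀ᶠ n in atTop, DifferentiableOn ℂ (F.Ψ n) Set.univ :=
    Eventually.of_forall fun n => (F.hΨ n).differentiableOn
  have hd0 : Differentiable ℂ F.Ψ0 :=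
    differentiableOn_univ.1 (hΨ.differentiableOn hev isOpen_univ)
  have hder : TendstoLocallyUniformly (fun n => deriv (F.Ψ n)) (deriv F.Ψ0) atTop :=
    tendstoLocallyUniformlyOn_univ.1 (hΨ.deriv hev isOpen_univ)
  have hdd : ∀ n, Differentiable ℂ (deriv (F.Ψ n)) := fun n =>
    ((F.hΨ n).contDiff (n := 2)).differentiable_deriv_two
  have hdd0 : Differentiable ℂ (deriv F.Ψ0) := (hd0.contDiff (n := 2)).differentiable_deriv_two
  exact crit_seq _ hdd fun ε hε => crit_near _ _ hdd hdd0 hder h1 h2 hε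

end SokalV
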