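import Pool.Agent.Lib_MP_af4de1_u.Main

/-!
# Full finiteness: definitions

`E_t(y) √(2πt) i = ∫ exp(Ph ζ H / t) dH` over a contour from `-1 - i∞` to `1 + i∞`, `ζ = t y e^{t/2}`
(`Re t ≥ 0 ≥ Im t`, `t ≠ 0`).  With `1/t = u/|t|` the modulus of the integrand is `exp(Gh u ζ H/|t|)`.
Plan: `/team-store/sokV_plan.md`.
-/

namespace SokalV

open Complex Filter Topology

/-- The phase. -/
noncomputable def Ph (ζ H : ℂ) : ℂ := H ^ 2 / 2 + ζ * cexp H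

/-- The height. -/
noncomputable def Gh (u ζ H : ℂ) : ℝ := (u * Ph ζ H).re

/-- The height with `cos` replaced by its positive part: convex in `X`. -/
noncomputable def Gp (u ζ : ℂ) (X T : ℝ) : ℝ :=
  u.re * (X ^ 2 - T ^ 2) / 2 - u.im * X * T + Real.exp X * max ((u * ζ * cexp (T * I)).re) 0

/-- `A`, `B` are connected in the set `g < c`. -/
def Conn (g : ℂ → ℝ) (c : ℝ) (A B : ℂ) : Prop :=
  ∃ U : Set ℂ, IsPreconnected U ∧ A ∈ U ∧ B ∈ U ∧ ∀ H ∈ U, g H < c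

/-- `S` is a simple saddle point of `Re (u0 Ψ0)` at the height `c`; the segment from `S - v` to
`S + v` is a descent path. -/
structure Sad (u0 : ℂ) (Ψ0 : ℂ → ℂ) (c : ℝ) (S v : ℂ) : Prop where
  crit : deriv Ψ0 S = 0
  height : (u0 * Ψ0 S).re = c
  desc : (u0 * deriv (deriv Ψ0) S * v ^ 2).re < 0
  seg : ∀ s : ℝ, |s| ≤ 1 → s ≠ 0 → (u0 * Ψ0 (S + s * v)).re < c

/-- A contour from `A` to `B` below the height `c'` except for the passes over the saddle points in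
the list `L`, which have the height `c`. -/
inductive Chain (u0 : ℂ) (Ψ0 : ℂ → ℂ) (c c' : ℝ) : ℂ → List ℂ → ℂ → Prop
  | nil {A B : ℂ} : Conn (fun H => (u0 * Ψ0 H).re) c' A B → Chain u0 Ψ0 c c' A [] B
  | cons {A B S v : ℂ} {L : List ℂ} : Conn (fun H => (u0 * Ψ0 H).re) c' A (S - v) →
      Sad u0 Ψ0 c S v → Chain u0 Ψ0 c c' (S + v) L B → Chain u0 Ψ0 c c' A (S :: L) B

/-- The contour of `E_t` in the limit direction `u` at `ζ`: below the height `c` except for the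
saddle points in the list `L`. -/
def Good (u ζ : ℂ) (c : ℝ) (L : List ℂ) : Prop :=
  ∃ c' < c, ∃ R0 : ℝ, ∀ R : ℝ, R0 ≤ R → Chain u (Ph ζ) c c' (-1 - R * I) L (1 + R * I)

/-- The convexified height has positive infimum on one horizontal line. -/
def TopPos (u ζ : ℂ) : Prop := ∃ T ε : ℝ, 0 < ε ∧ ∀ X : ℝ, ε ≤ Gp u ζ X T

/-- A convergent family of integrands `w_n exp(u_n Ψ_n/τ_n)` with primitives. -/
structure Fam where
  Ψ : ℕ → ℂ → ℂ
  Ψ0 : ℂ → ℂ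
  w : ℕ → ℂ → ℂ
  w0 : ℂ → ℂ
  u : ℕ → ℂ
  u0 : ℂ
  τ : ℕ → ℝ
  P : ℕ → ℂ → ℂ
  Q : ℕ → ℂ → ℂ
  hΨ : ∀ n, Differentiable ℂ (Ψ n)
  hw : ∀ n, Differentiable ℂ (w n)
  hΨlim : TendstoLocallyUniformly Ψ Ψ0 atTop
  hwlim : TendstoLocallyUniformly w w0 atTop
  hulim : Tendsto u atTop (𝓝 u0)
  hτ : ∀ n, 0 < τ n
  hτlim : Tendsto τ atTop (𝓝 0)
  hP : ∀ n H, HasDerivAt (P n) (cexp (u n * Ψ n H / τ n)) H
  hQ : ∀ n H, HasDerivAt (Q n) (w n H * cexp (u n * Ψ n H / τ n)) H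

end SokalV
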