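import Pool.Agent.Lib_MP_af4de1_v.Conn

/-!
# Connected points have exponentially comparable primitives [SV-REL]

`Ψ0`, `w0` are continuous (locally uniform limits).  Let `g H = Re (u0 Ψ0 H)`.  LOCAL STEP: if `g A < c`, there is a
closed ball `K` around `A` with `g < c` on `K`; `K` is compact, so `max_K g < c`, `u_n Ψ_n → u0 Ψ0` uniformly on `K`,
`‖w_n‖ ≤ M` on `K` for large `n`: eventually `‖exp(u_n Ψ_n/τ_n)‖ ≤ exp(c/τ_n)` on `K`, and for `B ∈ K` the mean value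
inequality on the segment gives `‖P_n B - P_n A‖ ≤ ‖B - A‖ exp(c/τ_n)`, `‖Q_n B - Q_n A‖ ≤ M ‖B - A‖ exp(c/τ_n)`.
The relation `∃ C, ∀ᶠ n, …` is symmetric and transitive; `IsPreconnected.induction₂` on the set `U` of `Conn`.
-/

namespace SokalV

open Complex Filter Topology

private theorem FamRel_unif {f : ℕ → ℂ → ℂ} {f0 : ℂ → ℂ} (h : TendstoLocallyUniformly f f0 atTop)
    {K : Set ℂ} (hK : IsCompact K) {ε : ℝ} (hε : 0 < ε) :
    ∀ᶠ n in atTop, ∀ H ∈ K, ‖f n H - f0 H‖ < ε := by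
  have h1 := (tendstoLocallyUniformlyOn_iff_tendstoUniformlyOn_of_compact hK).1
    (h.tendstoLocallyUniformlyOn (s := K))
  have h2 := Metric.tendstoUniformlyOn_iff.1 h1 ε hε
  filter_upwards [h2] with n hn H hH
  rw [← dist_eq_norm, dist_comm]
  exact hn H hH

private theorem FamRel_bd {f : ℂ → ℂ} (hf : Continuous f) {K : Set ℂ} (hK : IsCompact K) :
    ∃ M : ℝ, 0 ≤ M ∧ ∀ H ∈ K, ‖f H‖ ≤ M := by
  obtain ⟨M, hM⟩ := hK.exists_bound_of_continuousOn hf.continuousOn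
  exact ⟨max M 0, le_max_right _ _, fun H hH => (hM H hH).trans (le_max_left _ _)⟩

private theorem FamRel_prod (F : Fam) {K : Set ℂ} (hK : IsCompact K) {ε : ℝ} (hε : 0 < ε) :
    ∀ᶠ n in atTop, ∀ H ∈ K, ‖F.u n * F.Ψ n H - F.u0 * F.Ψ0 H‖ ≤ ε := by
  have hc : Continuous F.Ψ0 :=
    F.hΨlim.continuous (Frequently.of_forall fun n => (F.hΨ n).continuous)
  obtain ⟨M, hM0, hM⟩ := FamRel_bd hc hK
  have hu0 : 0 < ‖F.u0‖ + 1 := by positivity
  have hM1 : 0 < M + 1 := by positivity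
  have e1 : ∀ᶠ n in atTop, ‖F.u n‖ < ‖F.u0‖ + 1 :=
    (F.hulim.norm).eventually_lt_const (by linarith)
  have e2 : ∀ᶠ n in atTop, ‖F.u n - F.u0‖ < ε / (2 * (M + 1)) := by
    have h1 : Tendsto (fun n => ‖F.u n - F.u0‖) atTop (𝓝 0) := by
      have := (F.hulim.sub_const F.u0).norm
      simpa using this
    exact h1.eventually_lt_const (by positivity)
  have e3 := FamRel_unif F.hΨlim hK (ε := ε / (2 * (‖F.u0‖ + 1))) (by positivity)
  filter_upwards [e1, e2, e3] with n h1 h2 h3 H hH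
  have h4 : F.u n * F.Ψ n H - F.u0 * F.Ψ0 H
      = F.u n * (F.Ψ n H - F.Ψ0 H) + (F.u n - F.u0) * F.Ψ0 H := by ring
  rw [h4]
  have h5 : ‖F.u n * (F.Ψ n H - F.Ψ0 H)‖ ≤ (‖F.u0‖ + 1) * (ε / (2 * (‖F.u0‖ + 1))) := by
    rw [norm_mul]
    exact mul_le_mul h1.le (h3 H hH).le (norm_nonneg _) hu0.le
  have h6 : ‖(F.u n - F.u0) * F.Ψ0 H‖ ≤ (ε / (2 * (M + 1))) * (M + 1) := by
    rw [norm_mul]
    exact mul_le_mul h2.le ((hM H hH).trans (by linarith)) (norm_nonneg _) (by positivity)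
  have h7 : (‖F.u0‖ + 1) * (ε / (2 * (‖F.u0‖ + 1))) = ε / 2 := by field_simp
  have h8 : (ε / (2 * (M + 1))) * (M + 1) = ε / 2 := by field_simp
  rw [h7] at h5
  rw [h8] at h6
  calc _ ≤ _ := norm_add_le _ _
    _ ≤ ε / 2 + ε / 2 := add_le_add h5 h6
    _ = ε := by ring

private theorem FamRel_loc (F : Fam) {c : ℝ} {A : ℂ} (hA : (F.u0 * F.Ψ0 A).re < c) :
    ∀ᶠ B in 𝓝 A, ∃ C : ℝ, ∀ᶠ n in atTop, ‖F.P n B - F.P n A‖ ≤ C * Real.exp (c / F.τ n) ∧
      ‖F.Q n B - F.Q n A‖ ≤ C * Real.exp (c / F.τ n) := by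
  have hc : Continuous F.Ψ0 :=
    F.hΨlim.continuous (Frequently.of_forall fun n => (F.hΨ n).continuous)
  have hcw : Continuous F.w0 :=
    F.hwlim.continuous (Frequently.of_forall fun n => (F.hw n).continuous)
  have hg : Continuous fun H => (F.u0 * F.Ψ0 H).re := by fun_prop
  obtain ⟨m, hm1, hm2⟩ := exists_between hA
  have h1 : ∀ᶠ H in 𝓝 A, (F.u0 * F.Ψ0 H).re < m := hg.continuousAt.eventually_lt_const hm1
  obtain ⟨r, hr, hr'⟩ := Metric.nhds_basis_closedBall.eventually_iff.1 h1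
  have hK : IsCompact (Metric.closedBall A r) := isCompact_closedBall A r
  obtain ⟨M, hM0, hM⟩ := FamRel_bd hcw hK
  have e1 := FamRel_prod F hK (ε := c - m) (by linarith)
  have e2 := FamRel_unif F.hwlim hK (ε := 1) one_pos
  filter_upwards [Metric.closedBall_mem_nhds A hr] with B hB
  refine ⟨(M + 1) * ‖B - A‖ + ‖B - A‖, ?_⟩
  filter_upwards [e1, e2] with n h1 h2
  have hτ := F.hτ n
  have hexp : ∀ H ∈ Metric.closedBall A r, ‖cexp (F.u n * F.Ψ n H / F.τ n)‖ ≤ Real.exp (c / F.τ n) := by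
    intro H hH
    rw [Complex.norm_exp, Complex.div_ofReal_re]
    refine Real.exp_le_exp.2 (div_le_div_of_nonneg_right ?_ hτ.le)
    have h3 := (Complex.abs_re_le_norm _).trans (h1 H hH)
    rw [Complex.sub_re] at h3
    have h4 := (le_abs_self _).trans h3
    have h5 := hr' hH
    linarith
  have hw : ∀ H ∈ Metric.closedBall A r, ‖F.w n H‖ ≤ M + 1 := by
    intro H hH
    have h3 := h2 H hH
    have h4 := hM H hH
    have h5 : F.w n H = (F.w n H - F.w0 H) + F.w0 H := by ring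
    rw [h5]
    exact (norm_add_le _ _).trans (by linarith)
  have hE : 0 < Real.exp (c / F.τ n) := Real.exp_pos _
  have hAm : A ∈ Metric.closedBall A r := Metric.mem_closedBall_self hr.le
  have hP := (convex_closedBall A r).norm_image_sub_le_of_norm_hasDerivWithin_le
    (f := F.P n) (f' := fun H => cexp (F.u n * F.Ψ n H / F.τ n))
    (fun H _ => (F.hP n H).hasDerivWithinAt) hexp hAm hB
  have hQ := (convex_closedBall A r).norm_image_sub_le_of_norm_hasDerivWithin_le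
    (f := F.Q n) (f' := fun H => F.w n H * cexp (F.u n * F.Ψ n H / F.τ n))
    (C := (M + 1) * Real.exp (c / F.τ n))
    (fun H _ => (F.hQ n H).hasDerivWithinAt) (fun H hH => by
      rw [norm_mul]
      exact mul_le_mul (hw H hH) (hexp H hH) (norm_nonneg _) (by positivity)) hAm hB
  have hn : 0 ≤ ‖B - A‖ := norm_nonneg _
  constructor
  · refine hP.trans ?_
    have : 0 ≤ (M + 1) * ‖B - A‖ * Real.exp (c / F.τ n) := by positivity
    nlinarith
  · refine hQ.trans ?_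
    have : 0 ≤ ‖B - A‖ * Real.exp (c / F.τ n) := by positivity
    nlinarith

theorem Fam.rel (F : Fam) {c : ℝ} {A B : ℂ} (h : Conn (fun H => (F.u0 * F.Ψ0 H).re) c A B) :
    ∃ C : ℝ, ∀ᶠ n in atTop, ‖F.P n B - F.P n A‖ ≤ C * Real.exp (c / F.τ n) ∧
      ‖F.Q n B - F.Q n A‖ ≤ C * Real.exp (c / F.τ n) := by
  obtain ⟨U, hU, hA, hB, hc⟩ := h
  refine hU.induction₂ (fun A B => ∃ C : ℝ, ∀ᶠ n in atTop,
    ‖F.P n B - F.P n A‖ ≤ C * Real.exp (c / F.τ n) ∧
      ‖F.Q n B - F.Q n A‖ ≤ C * Real.exp (c / F.τ n)) ?_ ?_ ?_ hA hB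
  · intro x hx
    exact (FamRel_loc F (hc x hx)).filter_mono nhdsWithin_le_nhds
  · rintro x y z _ _ _ ⟨C, hC⟩ ⟨D, hD⟩
    refine ⟨C + D, ?_⟩
    filter_upwards [hC, hD] with n h1 h2
    constructor
    · have h3 : F.P n z - F.P n x = (F.P n z - F.P n y) + (F.P n y - F.P n x) := by ring
      rw [h3, add_mul]
      exact (norm_add_le _ _).trans (by linarith [h1.1, h2.1])
    · have h3 : F.Q n z - F.Q n x = (F.Q n z - F.Q n y) + (F.Q n y - F.Q n x) := by ring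
      rw [h3, add_mul]
      exact (norm_add_le _ _).trans (by linarith [h1.2, h2.2])
  · rintro x y _ _ ⟨C, hC⟩
    refine ⟨C, ?_⟩
    filter_upwards [hC] with n h1
    rw [norm_sub_rev (F.P n x), norm_sub_rev (F.Q n x)]
    exact h1

end SokalV
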