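import Pool.Agent.Lib_MP_af4de1_v.Conn

/-!
# The fibre lemma [SV-FIB]

`Gh u ζ (X+TI) = u.re (X²-T²)/2 - u.im X T + e^X Re(uζe^{TI}) ≤ Gp u ζ X T`.  For fixed `T`, `Gp` is convex in `X` (`u.re ≥ 0`), and
`Gp` is continuous in `(X,T)`.  So `{X : Gp u ζ X T < c}` is an interval: two points of the same fibre are joined by a
horizontal segment.  `fibre`: relation `P T T' := ∀ X X', Gp X T < c → Gp X' T' < c → Conn (X+TI) (X'+T'I)` on `Icc Ta Tb`
(`isPreconnected_Icc`, `IsPreconnected.induction₂`): local step: given `T`, choose `X0` with `Gp X0 T < c`, then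
`Gp X0 T' < c` for `T'` near `T`: go horizontally to `X0` at `T`, vertically to `T'`, horizontally to `X'`.  Symmetry and
transitivity (through a point of the middle fibre, nonempty) are clear.
-/

namespace SokalV

open Complex Filter Topology

private theorem Fibre_re (w : ℂ) (x : ℝ) : ((x : ℂ) * w).re = x * w.re := by
  rw [Complex.re_ofReal_mul]

theorem Gh_eq (u ζ : ℂ) (X T : ℝ) : Gh u ζ (X + T * I) =
    u.re * (X ^ 2 - T ^ 2) / 2 - u.im * X * T + Real.exp X * (u * ζ * cexp (T * I)).re := by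
  have h1 : u * Ph ζ (X + T * I) =
      ((((X ^ 2 - T ^ 2) / 2 : ℝ) : ℂ) * u + (((X * T : ℝ) : ℂ)) * (u * I)) +
        ((Real.exp X : ℝ) : ℂ) * (u * ζ * cexp (T * I)) := by
    unfold Ph
    rw [Complex.exp_add]
    push_cast
    linear_combination (-(u * T ^ 2) / 2 : ℂ) * (-1 : ℂ) * (Complex.I_sq)
  unfold Gh
  rw [h1, Complex.add_re, Complex.add_re, Fibre_re, Fibre_re, Fibre_re]
  have h2 : (u * I).re = - u.im := by simp
  rw [h2]
  ring

theorem Gh_le_Gp (u ζ : ℂ) (X T : ℝ) : Gh u ζ (X + T * I) ≤ Gp u ζ X T := by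
  rw [Gh_eq]
  unfold Gp
  have h1 : Real.exp X * (u * ζ * cexp (T * I)).re ≤ Real.exp X * max ((u * ζ * cexp (T * I)).re) 0 :=
    mul_le_mul_of_nonneg_left (le_max_left _ _) (Real.exp_pos X).le
  linarith

theorem Gh_eq_Gp {u ζ : ℂ} {T : ℝ} (h : 0 ≤ (u * ζ * cexp (T * I)).re) (X : ℝ) :
    Gh u ζ (X + T * I) = Gp u ζ X T := by
  rw [Gh_eq]
  unfold Gp
  rw [max_eq_left h]

theorem continuous_Gp (u ζ : ℂ) : Continuous (fun p : ℝ × ℝ => Gp u ζ p.1 p.2) := by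
  unfold Gp
  have h1 : Continuous (fun p : ℝ × ℝ => (u * ζ * cexp ((p.2 : ℂ) * I)).re) := by
    fun_prop
  have h2 : Continuous (fun p : ℝ × ℝ => max ((u * ζ * cexp ((p.2 : ℂ) * I)).re) 0) :=
    h1.max continuous_const
  have h3 : Continuous (fun p : ℝ × ℝ => Real.exp p.1) := by fun_prop
  have h4 : Continuous (fun p : ℝ × ℝ => u.re * (p.1 ^ 2 - p.2 ^ 2) / 2 - u.im * p.1 * p.2) := by
    fun_prop
  exact h4.add (h3.mul h2)

theorem convexOn_Gp {u : ℂ} (hu : 0 ≤ u.re) (ζ : ℂ) (T : ℝ) :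
    ConvexOn ℝ Set.univ (fun X => Gp u ζ X T) := by
  refine ⟨convex_univ, ?_⟩
  intro x _ y _ a b ha hb hab
  simp only [smul_eq_mul]
  unfold Gp
  have hK : 0 ≤ max ((u * ζ * cexp (T * I)).re) 0 := le_max_right _ _
  generalize max ((u * ζ * cexp (T * I)).re) 0 = K at hK ⊢
  have h1 : Real.exp (a * x + b * y) ≤ a * Real.exp x + b * Real.exp y := by
    have := convexOn_exp.2 (Set.mem_univ x) (Set.mem_univ y) ha hb hab
    simpa only [smul_eq_mul] using this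
  have h2 : (a * x + b * y) ^ 2 ≤ a * x ^ 2 + b * y ^ 2 := by
    have hb' : b = 1 - a := by linarith
    subst hb'
    nlinarith [mul_nonneg (mul_nonneg ha hb) (sq_nonneg (x - y))]
  have h3 := mul_le_mul_of_nonneg_left h2 hu
  have h4 := mul_le_mul_of_nonneg_right h1 hK
  have hb' : b = 1 - a := by linarith
  subst hb'
  nlinarith [h3, h4]

/-- Horizontally, in one fibre. -/
theorem conn_horizontal {u ζ : ℂ} (hu : 0 ≤ u.re) {c : ℝ} {X X' T : ℝ} (h : Gp u ζ X T < c)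
    (h' : Gp u ζ X' T < c) : Conn (Gh u ζ) c (X + T * I) (X' + T * I) := by
  apply Conn.segment
  intro s hs hs'
  have h1 : (X + T * I : ℂ) + s * ((X' + T * I) - (X + T * I)) =
      (((1 - s) * X + s * X' : ℝ) : ℂ) + T * I := by
    push_cast
    ring
  rw [h1]
  refine (Gh_le_Gp u ζ _ T).trans_lt ?_
  have h2 := (convexOn_Gp hu ζ T).2 (Set.mem_univ X) (Set.mem_univ X') (by linarith : 0 ≤ 1 - s) hs
    (by ring)
  simp only [smul_eq_mul] at h2
  refine h2.trans_lt ?_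
  rcases hs.eq_or_lt with h0 | h0
  · rw [← h0]
    linarith
  · nlinarith [mul_lt_mul_of_pos_left h' h0, mul_le_mul_of_nonneg_left h.le (by linarith : 0 ≤ 1 - s)]

theorem fibre {u ζ : ℂ} (hu : 0 ≤ u.re) {c Ta Tb : ℝ} (hab : Ta ≤ Tb)
    (h : ∀ T ∈ Set.Icc Ta Tb, ∃ X : ℝ, Gp u ζ X T < c) {Xa Xb : ℝ} (ha : Gp u ζ Xa Ta < c)
    (hb : Gp u ζ Xb Tb < c) : Conn (Gh u ζ) c (Xa + Ta * I) (Xb + Tb * I) := by
  have key : ∀ T ∈ Set.Icc Ta Tb, ∀ T' ∈ Set.Icc Ta Tb, ∀ X X' : ℝ, Gp u ζ X T < c →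
      Gp u ζ X' T' < c → Conn (Gh u ζ) c (X + T * I) (X' + T' * I) := by
    intro T hT T' hT'
    refine isPreconnected_Icc.induction₂ (fun T T' => ∀ X X' : ℝ, Gp u ζ X T < c →
      Gp u ζ X' T' < c → Conn (Gh u ζ) c (X + T * I) (X' + T' * I)) ?_ ?_ ?_ hT hT'
    · intro T hT
      obtain ⟨X0, hX0⟩ := h T hT
      have hc : Continuous (fun T' : ℝ => Gp u ζ X0 T') :=
        (continuous_Gp u ζ).comp (continuous_const.prodMk continuous_id)
      have he : ∀ᶠ T' in 𝓝 T, Gp u ζ X0 T' < c := hc.continuousAt.eventually_lt_const hX0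
      obtain ⟨ε, hε, hball⟩ := Metric.eventually_nhds_iff_ball.1 he
      refine mem_nhdsWithin_of_mem_nhds ?_
      filter_upwards [Metric.ball_mem_nhds T hε] with T' hT' X X' hX hX'
      refine (conn_horizontal hu hX hX0).trans (Conn.trans (B := (X0 + T' * I : ℂ)) ?_
        (conn_horizontal hu (hball T' hT') hX'))
      apply Conn.segment
      intro s hs hs'
      have h1 : (X0 + T * I : ℂ) + s * ((X0 + T' * I) - (X0 + T * I)) =
          (X0 : ℂ) + ((T + s * (T' - T) : ℝ) : ℂ) * I := by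
        push_cast
        ring
      rw [h1]
      refine (Gh_le_Gp u ζ _ _).trans_lt (hball _ ?_)
      rw [Metric.mem_ball, Real.dist_eq] at hT' ⊢
      have h2 : T + s * (T' - T) - T = s * (T' - T) := by ring
      rw [h2, abs_mul, abs_of_nonneg hs]
      calc s * |T' - T| ≤ 1 * |T' - T| := mul_le_mul_of_nonneg_right hs' (abs_nonneg _)
        _ < ε := by rw [one_mul]; exact hT'
    · intro T1 T2 T3 _ h2 _ k1 k2 X X' hX hX'
      obtain ⟨X0, hX0⟩ := h T2 h2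
      exact (k1 X X0 hX hX0).trans (k2 X0 X' hX0 hX')
    · intro T1 T2 _ _ k X X' hX hX'
      exact (k X' X hX' hX).symm
  exact key Ta ⟨le_rfl, hab⟩ Tb ⟨hab, le_rfl⟩ Xa Xb ha hb

/-- The vertical half lines at the ends. -/
theorem Gp_tail {u ζ : ℂ} (hu : ‖u‖ = 1) (hre : 0 ≤ u.re) (him : 0 ≤ u.im) {T : ℝ} (hT : 1 ≤ T) :
    Gp u ζ 1 T ≤ 1 / 2 + 3 * ‖ζ‖ - T / 2 ∧ Gp u ζ (-1) (-T) ≤ 1 / 2 + 3 * ‖ζ‖ - T / 2 := by
  have hab : 1 ≤ u.re + u.im := by
    have h1 : u.re ^ 2 + u.im ^ 2 = 1 := by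
      have h2 := Complex.sq_norm u
      rw [hu, Complex.normSq_apply] at h2
      nlinarith [h2]
    nlinarith [mul_nonneg hre him]
  have hm : ∀ S : ℝ, max ((u * ζ * cexp (S * I)).re) 0 ≤ ‖ζ‖ := by
    intro S
    refine max_le ?_ (norm_nonneg _)
    refine (Complex.re_le_norm _).trans ?_
    rw [norm_mul, norm_mul, hu, Complex.norm_exp_ofReal_mul_I, one_mul, mul_one]
  have hm0 : ∀ S : ℝ, 0 ≤ max ((u * ζ * cexp (S * I)).re) 0 := fun S => le_max_right _ _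
  have hq : u.re * (1 - T ^ 2) / 2 - u.im * T ≤ 1 / 2 - T / 2 := by
    have h1 : u.re * (1 - T ^ 2) / 2 ≤ - (u.re * (T - 1)) := by
      nlinarith [mul_nonneg hre (mul_nonneg (by linarith : (0:ℝ) ≤ T - 1) (by linarith : (0:ℝ) ≤ T - 1))]
    have h2 : - (u.im * T) ≤ - (u.im * (T - 1)) := by nlinarith
    have h3 : (T - 1) ≤ (u.re + u.im) * (T - 1) := by
      nlinarith [mul_nonneg (by linarith : (0:ℝ) ≤ u.re + u.im - 1) (by linarith : (0:ℝ) ≤ T - 1)]
    nlinarith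
  have he1 : Real.exp 1 ≤ 3 := by
    have := Real.exp_one_lt_d9
    linarith
  have he2 : Real.exp (-1) ≤ 3 := by
    have : Real.exp (-1) ≤ 1 := Real.exp_le_one_iff.2 (by norm_num)
    linarith
  constructor
  · unfold Gp
    have h1 : Real.exp 1 * max ((u * ζ * cexp (T * I)).re) 0 ≤ 3 * ‖ζ‖ :=
      mul_le_mul he1 (hm T) (hm0 T) (by norm_num)
    have h2 : u.re * (1 ^ 2 - T ^ 2) / 2 - u.im * 1 * T = u.re * (1 - T ^ 2) / 2 - u.im * T := by ring
    rw [h2]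
    linarith
  · unfold Gp
    have h1 : Real.exp (-1) * max ((u * ζ * cexp (((-T : ℝ) : ℂ) * I)).re) 0 ≤ 3 * ‖ζ‖ :=
      mul_le_mul he2 (hm (-T)) (hm0 (-T)) (by norm_num)
    have h2 : u.re * ((-1) ^ 2 - (-T) ^ 2) / 2 - u.im * (-1) * (-T) =
        u.re * (1 - T ^ 2) / 2 - u.im * T := by ring
    rw [h2]
    linarith

end SokalV
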