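import Pool.Agent.Lib_MP_af4de1_v.Final
import Pool.Agent.Lib_MP_af4de1_w.Main

/-!
# All multiple zeros with `0 < |q| ≤ 1` are bounded
-/

namespace SokalV

open Complex Filter Topology ComplexConjugate

/-- `z` is a zero of `F(.;q)` and of its derivative, `q = e^{2πia/N} e^{-t}`. -/
def Bad (N : ℕ) (a : ℤ) (t z : ℂ) : Prop :=
  SokalF.F (cexp (2 * Real.pi * I * a / N) * cexp (-t)) z = 0 ∧
    SokalF.F (cexp (2 * Real.pi * I * a / N) * cexp (-t))
      (cexp (2 * Real.pi * I * a / N) * cexp (-t) * z) = 0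

theorem Bad.conj {N : ℕ} {a : ℤ} {t z : ℂ} (h : Bad N a t z) :
    Bad N (-a) (conj t) (conj z) := by
  have e : cexp (2 * Real.pi * I * ((-a : ℤ) : ℂ) / N) * cexp (-(conj t)) =
      conj (cexp (2 * Real.pi * I * a / N) * cexp (-t)) := by
    rw [map_mul, ← Complex.exp_conj, ← Complex.exp_conj, map_neg, map_div₀, map_mul, map_mul,
      map_mul, Complex.conj_I, Complex.conj_ofReal, map_ofNat, map_intCast, map_natCast]
    congr 2
    push_cast
    ring
  refine ⟨?_, ?_⟩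
  · rw [e, SokalW.conj_F, h.1, map_zero]
  · rw [e, ← map_mul, SokalW.conj_F, h.2, map_zero]

/-- No sequence of multiple zeros with `t z` bounded, `Im t ≤ 0`, `t ≠ 0`. -/
theorem no_seq_bdd (htip : TipHyp) {N : ℕ} (hN : 0 < N) {a : ℤ} (ha : IsCoprime a (N : ℤ))
    {t z : ℕ → ℂ} (hre : ∀ n, 0 ≤ (t n).re) (him : ∀ n, (t n).im ≤ 0) (hne : ∀ n, t n ≠ 0)
    (hlim : Tendsto t atTop (𝓝 0)) (hz : Tendsto (fun n => ‖z n‖) atTop atTop)
    (hbad : ∀ n, Bad N a (t n) (z n)) {K : ℝ} (hK : ∀ n, ‖t n‖ * ‖z n‖ ≤ K) : False := by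
  obtain ⟨g, ε, g0, hg0, hg, hlift⟩ := SokalU.lifts N hN a ha
  set e : ℂ := cexp (2 * Real.pi * ε / N * I) with he
  have hen : ‖e‖ = 1 := by
    have : (2 * Real.pi * ε / N * I : ℂ) = ((2 * Real.pi * ε / N : ℝ) : ℂ) * I := by
      push_cast; ring
    rw [he, this, Complex.norm_exp_ofReal_mul_I]
  set ζ : ℕ → ℂ := fun n => t n * z n * cexp (t n / 2) * e with hζ
  have hnrm : ∀ n, ‖ζ n‖ = ‖t n‖ * ‖z n‖ * ‖cexp (t n / 2)‖ := fun n => by
    simp only [hζ, norm_mul, hen, mul_one]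
  -- compactness
  obtain ⟨T, hT⟩ : ∃ T : ℝ, ∀ n, ‖t n‖ ≤ T := by
    obtain ⟨T, hT⟩ := (Metric.isBounded_range_of_tendsto t hlim).exists_norm_le
    exact ⟨T, fun n => hT _ ⟨n, rfl⟩⟩
  have hζb : ∀ n, ‖ζ n‖ ≤ K * Real.exp (T / 2) := fun n => by
    rw [hnrm n]
    have h1 : ‖cexp (t n / 2)‖ ≤ Real.exp (T / 2) := by
      rw [Complex.norm_exp, Real.exp_le_exp]
      have h2 := Complex.re_le_norm (t n)
      have h3 : (t n / 2).re = (t n).re / 2 := by
        rw [show (2 : ℂ) = ((2 : ℝ) : ℂ) by norm_num, Complex.div_ofReal_re]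
      rw [h3]
      linarith [hT n]
    have hK0 : 0 ≤ K := (mul_nonneg (norm_nonneg _) (norm_nonneg _)).trans (hK n)
    exact mul_le_mul (hK n) h1 (norm_nonneg _) hK0
  have hcomp : IsCompact (Metric.closedBall (0 : ℂ) (K * Real.exp (T / 2)) ×ˢ
      Metric.closedBall (0 : ℂ) 1) := (isCompact_closedBall _ _).prod (isCompact_closedBall _ _)
  obtain ⟨⟨ζ0, u0⟩, -, φ, hφ, hφlim⟩ := hcomp.tendsto_subseq (x := fun n =>
    (ζ n, (‖t n‖ : ℂ) / t n)) (fun n => ⟨mem_closedBall_zero_iff.2 (hζb n), by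
      rw [mem_closedBall_zero_iff, norm_div, Complex.norm_real, norm_norm,
        div_self (norm_ne_zero_iff.2 (hne n))]⟩)
  have hl1 : Tendsto (fun n => ζ (φ n)) atTop (𝓝 ζ0) :=
    (continuous_fst.tendsto _).comp hφlim
  have hl2 : Tendsto (fun n => (‖t (φ n)‖ : ℂ) / t (φ n)) atTop (𝓝 u0) :=
    (continuous_snd.tendsto _).comp hφlim
  -- the lifts
  have hpt : ∀ n (m : ℕ), lift N (ζ n) m / t n * cexp (-t n / 2) =
      cexp (2 * Real.pi * ((m : ℤ) + ε) / N * I) * z n := fun n m => by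
    have h1 : cexp (2 * Real.pi * ((m : ℤ) + ε) / N * I) =
        cexp (2 * Real.pi * I * m / N) * e := by
      rw [he, ← Complex.exp_add]
      congr 1
      push_cast
      ring
    have h2 : cexp (t n / 2) * cexp (-t n / 2) = 1 := by
      rw [← Complex.exp_add]
      have : t n / 2 + -t n / 2 = 0 := by ring
      rw [this, Complex.exp_zero]
    rw [h1]
    simp only [lift, hζ]
    have h3 : t n ≠ 0 := hne n
    calc t n * z n * cexp (t n / 2) * e * cexp (2 * Real.pi * I * m / N) / t n *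
          cexp (-t n / 2) =
        (t n / t n) * (cexp (2 * Real.pi * I * m / N) * e) * z n *
          (cexp (t n / 2) * cexp (-t n / 2)) := by ring
      _ = _ := by rw [h2, div_self h3]; ring
  have hsum : ∀ (f : ℤ → ℂ), ∑ m ∈ Finset.Ico (0 : ℤ) (0 + N), f m =
      ∑ m ∈ Finset.range N, f (m : ℤ) := fun f => by
    rw [zero_add, Finset.range_eq_Ico]
    refine (Finset.sum_nbij (fun m : ℕ => (m : ℤ)) ?_ ?_ ?_ ?_).symm
    · intro m hm
      simp only [Finset.mem_Ico] at hm ⊢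
      exact ⟨by positivity, by exact_mod_cast hm.2⟩
    · intro m _ m' _ h
      simp only [Nat.cast_inj] at h
      exact h
    · intro m hm
      simp only [Finset.coe_Ico, Set.mem_Ico] at hm
      refine ⟨m.toNat, ?_, ?_⟩
      · simp only [Finset.coe_Ico, Set.mem_Ico]
        omega
      · simp only
        omega
    · intro m _
      rfl
  have hdat : Dat N a (t ∘ φ) (z ∘ φ) (ζ ∘ φ) (fun m => g (m : ℤ)) ζ0 u0 := by
    refine ⟨⟨fun n => hne _, fun n => hre _, fun n => him _, hlim.comp hφ.tendsto_atTop, hl2,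
      hl1⟩, hz.comp hφ.tendsto_atTop, fun n => hnrm _, fun m => ?_, fun n => (hbad _).1,
      fun n => (hbad _).2, fun n => ?_, fun n => ?_⟩
    · rw [← norm_ne_zero_iff, hg]
      exact hg0.ne'
    · have h1 := (hlift (t (φ n)) (z (φ n)) 0 (hre _)).1
      rw [(hbad (φ n)).1, hsum] at h1
      simp only [Function.comp]
      rw [h1]
      exact Finset.sum_congr rfl fun m _ => by rw [hpt]
    · have h1 := (hlift (t (φ n)) (z (φ n)) 0 (hre _)).2
      rw [(hbad (φ n)).2, mul_zero, hsum] at h1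
      simp only [Function.comp]
      rw [h1]
      exact Finset.sum_congr rfl fun m _ => by rw [hpt]
  exact hdat.false htip hN ha

/-- No sequence of multiple zeros, `Im t ≤ 0`. -/
theorem no_seq_im (htip : TipHyp) {N : ℕ} (hN : 0 < N) {a : ℤ} (ha : IsCoprime a (N : ℤ))
    {t : ℕ → ℂ} {k β : ℕ → ℝ} (hre : ∀ n, 0 ≤ (t n).re) (him : ∀ n, (t n).im ≤ 0)
    (hlim : Tendsto t atTop (𝓝 0)) (hk : Tendsto k atTop atTop)
    (hV : ∀ n, (N : ℝ) ^ 2 * SokalU.V (k n) (t n) ≤ 4 * Real.pi)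
    (hz : Tendsto (fun n => ‖SokalU.zp (t n) (k n) * cexp (β n * I)‖) atTop atTop)
    (hbad : ∀ n, Bad N a (t n) (SokalU.zp (t n) (k n) * cexp (β n * I))) : False := by
  -- `t ≠ 0`
  obtain ⟨R, hR⟩ := SokalU.rootUnity (cexp (2 * Real.pi * I * a / N))
    ⟨N, hN, SokalU.omega_pow hN a⟩
  have hne : ∀ᶠ n in atTop, t n ≠ 0 := by
    filter_upwards [hz.eventually_gt_atTop R] with n hn h0
    have h1 := hbad n
    rw [h0] at h1
    unfold Bad at h1
    rw [neg_zero, Complex.exp_zero, mul_one] at h1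
    rw [h0] at hn
    exact absurd (hR _ h1.1 h1.2) (not_le.2 hn)
  obtain ⟨K0, hK0, hW⟩ := SokalW.mainW N hN
  have hsmall : ∀ᶠ n in atTop, ‖t n‖ * k n ≤ K0 := by
    filter_upwards [hk.eventually_ge_atTop K0] with n hn
    by_contra hcon
    push Not at hcon
    exact hW a (t n) (k n) (β n) ha (hre n) hn hcon.le (hV n) (hbad n).1 (hbad n).2
  obtain ⟨n0, hn0⟩ := eventually_atTop.1 (hne.and (hsmall.and (hk.eventually_ge_atTop 0)))
  have hsh : Tendsto (fun n => n + n0) atTop atTop := tendsto_add_atTop_nat n0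
  refine no_seq_bdd htip hN ha (t := fun n => t (n + n0))
    (z := fun n => SokalU.zp (t (n + n0)) (k (n + n0)) * cexp (β (n + n0) * I))
    (fun n => hre _) (fun n => him _) (fun n => (hn0 _ (by omega)).1) (hlim.comp hsh)
    (hz.comp hsh) (fun n => hbad _) (K := K0 * Real.exp K0) fun n => ?_
  obtain ⟨h1, h2, h3⟩ := hn0 (n + n0) (by omega)
  have hzn : ‖SokalU.zp (t (n + n0)) (k (n + n0)) * cexp (β (n + n0) * I)‖ =
      k (n + n0) * Real.exp ((t (n + n0)).re * k (n + n0) - (t (n + n0)).re / 2) := by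
    rw [norm_mul, Complex.norm_exp_ofReal_mul_I, mul_one]
    unfold SokalU.zp
    rw [norm_mul, Complex.norm_real, Real.norm_of_nonneg h3, Complex.norm_exp]
    have h4 : (t (n + n0) / 2).re = (t (n + n0)).re / 2 := by
      rw [show (2 : ℂ) = ((2 : ℝ) : ℂ) by norm_num, Complex.div_ofReal_re]
    rw [Complex.sub_re, h4, Complex.re_mul_ofReal]
  rw [hzn, ← mul_assoc]
  have h5 : (t (n + n0)).re * k (n + n0) - (t (n + n0)).re / 2 ≤ K0 := by
    have h6 : (t (n + n0)).re * k (n + n0) ≤ ‖t (n + n0)‖ * k (n + n0) :=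
      mul_le_mul_of_nonneg_right (Complex.re_le_norm _) h3
    have h7 := hre (n + n0)
    linarith
  exact mul_le_mul h2 (Real.exp_le_exp.2 h5) (Real.exp_pos _).le hK0.le

/-- No sequence of multiple zeros near a root of unity. -/
theorem no_seq (htip : TipHyp) {N : ℕ} (hN : 0 < N) {a : ℤ} (ha : IsCoprime a (N : ℤ))
    {t : ℕ → ℂ} {k β : ℕ → ℝ} (hre : ∀ n, 0 ≤ (t n).re)
    (hlim : Tendsto t atTop (𝓝 0)) (hk : Tendsto k atTop atTop)
    (hV : ∀ n, (N : ℝ) ^ 2 * SokalU.V (k n) (t n) ≤ 4 * Real.pi)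
    (hz : Tendsto (fun n => ‖SokalU.zp (t n) (k n) * cexp (β n * I)‖) atTop atTop)
    (hbad : ∀ n, Bad N a (t n) (SokalU.zp (t n) (k n) * cexp (β n * I))) : False := by
  by_cases hfr : ∃ᶠ n in atTop, (t n).im ≤ 0
  · obtain ⟨φ, hφ, hφ'⟩ := extraction_of_frequently_atTop hfr
    exact no_seq_im htip hN ha (t := t ∘ φ) (k := k ∘ φ) (β := β ∘ φ) (fun n => hre _) hφ'
      (hlim.comp hφ.tendsto_atTop) (hk.comp hφ.tendsto_atTop) (fun n => hV _)
      (hz.comp hφ.tendsto_atTop) (fun n => hbad _)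
  · rw [not_frequently] at hfr
    obtain ⟨n0, hn0⟩ := eventually_atTop.1 hfr
    have hsh : Tendsto (fun n => n + n0) atTop atTop := tendsto_add_atTop_nat n0
    have hc : ∀ n, SokalU.zp (conj (t n)) (k n) * cexp (((-β n : ℝ) : ℂ) * I) =
        conj (SokalU.zp (t n) (k n) * cexp (β n * I)) := fun n => by
      rw [map_mul, ← SokalU.conj_zp, Complex.conj_ofReal, ← Complex.exp_conj, map_mul,
        Complex.conj_I, Complex.conj_ofReal]
      congr 2
      push_cast
      ring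
    refine no_seq_im htip hN (a := -a) ha.neg_left (t := fun n => conj (t (n + n0)))
      (k := fun n => k (n + n0)) (β := fun n => -β (n + n0)) (fun n => ?_) (fun n => ?_) ?_
      (hk.comp hsh) (fun n => ?_) ?_ (fun n => ?_)
    · rw [Complex.conj_re]
      exact hre _
    · rw [Complex.conj_im]
      have := hn0 (n + n0) (by omega)
      push Not at this
      linarith
    · have := (Complex.continuous_conj.tendsto _).comp (hlim.comp hsh)
      rw [map_zero] at this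
      exact this
    · rw [SokalU.V_conj]
      exact hV _
    · simp only [hc, Complex.norm_conj]
      exact hz.comp hsh
    · rw [hc]
      exact (hbad _).conj

/-- Near a root of unity. -/
theorem near_root (htip : TipHyp) {N : ℕ} (hN : 0 < N) {a : ℤ} (ha : IsCoprime a (N : ℤ)) :
    ∃ M : ℕ, ∀ (t : ℂ) (k β : ℝ), 0 ≤ t.re → ‖t‖ ≤ 1 / (M + 1) → (M : ℝ) ≤ k →
      (M : ℝ) ≤ ‖SokalU.zp t k * cexp (β * I)‖ → (N : ℝ) ^ 2 * SokalU.V k t ≤ 4 * Real.pi →
      Bad N a t (SokalU.zp t k * cexp (β * I)) → False := by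
  by_contra hcon
  push Not at hcon
  choose t k β h1 h2 h3 h4 h5 h6 using hcon
  have hcast : Tendsto (fun n : ℕ => (n : ℝ)) atTop atTop := tendsto_natCast_atTop_atTop
  refine no_seq htip hN ha (t := t) (k := k) (β := β) h1 ?_ (tendsto_atTop_mono h3 hcast) h5
    (tendsto_atTop_mono h4 hcast) (fun n => (h6 n).1)
  rw [tendsto_zero_iff_norm_tendsto_zero]
  exact squeeze_zero (fun n => norm_nonneg _) h2 tendsto_one_div_add_atTop_nhds_zero_nat

end SokalV
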