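import Pool.Agent.Lib_MP_af4de1_v.Final2

/-!
# All multiple zeros with `0 < |q| ≤ 1` are bounded: conclusion
-/

namespace SokalV

open Complex

/-- No large multiple zeros near `e^{2πia/N}`. -/
def NR (N : ℕ) (a : ℤ) (M : ℕ) : Prop :=
  ∀ (t : ℂ) (k β : ℝ), 0 ≤ t.re → ‖t‖ ≤ 1 / (M + 1) → (M : ℝ) ≤ k →
    (M : ℝ) ≤ ‖SokalU.zp t k * cexp (β * I)‖ → (N : ℝ) ^ 2 * SokalU.V k t ≤ 4 * Real.pi →
    Bad N a t (SokalU.zp t k * cexp (β * I)) → False

theorem NR.mono {N : ℕ} {a : ℤ} {M M' : ℕ} (h : NR N a M) (hM : M ≤ M') : NR N a M' := by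
  intro t k β h1 h2 h3 h4 h5 h6
  have hM' : (M : ℝ) ≤ M' := by exact_mod_cast hM
  refine h t k β h1 (h2.trans ?_) (hM'.trans h3) (hM'.trans h4) h5 h6
  apply one_div_le_one_div_of_le (by positivity)
  linarith

theorem omega_mod {N : ℕ} (hN : 0 < N) (a : ℤ) :
    cexp (2 * Real.pi * I * ((a % N : ℤ) : ℂ) / N) = cexp (2 * Real.pi * I * a / N) := by
  have hN' : (N : ℂ) ≠ 0 := by exact_mod_cast hN.ne'
  have h1 : (a : ℂ) = ((a % N : ℤ) : ℂ) + N * ((a / N : ℤ) : ℂ) := by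
    have := Int.emod_add_mul_ediv a N
    exact_mod_cast this.symm
  have h2 : (2 * Real.pi * I * a / N : ℂ) =
      2 * Real.pi * I * ((a % N : ℤ) : ℂ) / N + ((a / N : ℤ) : ℂ) * (2 * Real.pi * I) := by
    rw [h1]
    field_simp
  rw [h2, Complex.exp_add, Complex.exp_int_mul_two_pi_mul_I, mul_one]

theorem NR.of_mod {N : ℕ} (hN : 0 < N) {a : ℤ} {M : ℕ} (h : NR N (a % N) M) : NR N a M := by
  intro t k β h1 h2 h3 h4 h5 h6
  refine h t k β h1 h2 h3 h4 h5 ?_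
  unfold Bad at h6 ⊢
  rwa [omega_mod hN a]

theorem near_N (htip : TipHyp) {N : ℕ} (hN : 0 < N) :
    ∃ M : ℕ, ∀ a : ℤ, IsCoprime a (N : ℤ) → NR N a M := by
  have h : ∀ j : ℕ, ∃ M : ℕ, IsCoprime (j : ℤ) (N : ℤ) → NR N j M := fun j => by
    by_cases hj : IsCoprime (j : ℤ) (N : ℤ)
    · obtain ⟨M, hM⟩ := near_root htip hN hj
      exact ⟨M, fun _ => hM⟩
    · exact ⟨0, fun h => absurd h hj⟩
  choose f hf using h
  refine ⟨(Finset.range N).sup f, fun a ha => ?_⟩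
  have hNZ : (0 : ℤ) < N := by exact_mod_cast hN
  have h0 : 0 ≤ a % N := Int.emod_nonneg _ hNZ.ne'
  have hlt : a % N < N := Int.emod_lt_of_pos _ hNZ
  obtain ⟨j, hj⟩ := Int.eq_ofNat_of_zero_le h0
  have hjN : j < N := by omega
  have hcop : IsCoprime (j : ℤ) (N : ℤ) := by
    rw [← hj]
    have : a % N = a + N * (-(a / N)) := by
      have := Int.emod_add_mul_ediv a N
      linarith
    rw [this]
    exact IsCoprime.add_mul_left_left ha _
  refine NR.of_mod hN ?_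
  rw [hj]
  exact (hf j hcop).mono (Finset.le_sup (f := f) (Finset.mem_range.2 hjN))

theorem near_all (htip : TipHyp) (N0 : ℕ) : ∃ M : ℕ, ∀ N : ℕ, 0 < N → N < N0 →
    ∀ a : ℤ, IsCoprime a (N : ℤ) → NR N a M := by
  have h : ∀ N : ℕ, ∃ M : ℕ, 0 < N → ∀ a : ℤ, IsCoprime a (N : ℤ) → NR N a M := fun N => by
    by_cases hN : 0 < N
    · obtain ⟨M, hM⟩ := near_N htip hN
      exact ⟨M, fun _ => hM⟩
    · exact ⟨0, fun h => absurd h hN⟩
  choose f hf using h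
  exact ⟨(Finset.range N0).sup f, fun N hN hN0 a ha =>
    (hf N hN a ha).mono (Finset.le_sup (f := f) (Finset.mem_range.2 hN0))⟩

/-- Near the circle. -/
theorem near_circle (htip : TipHyp) : ∃ r : ℝ, r < 1 ∧ ∃ R : ℝ, ∀ q z : ℂ,
    r ≤ ‖q‖ → 0 < ‖q‖ → ‖q‖ ≤ 1 → R ≤ ‖z‖ →
    SokalF.F q z = 0 → SokalF.F q (q * z) = 0 → False := by
  obtain ⟨N0, hN0, hcore⟩ := SokalU.core
  obtain ⟨M, hM⟩ := near_all htip N0
  obtain ⟨δ, hδ, hδ1, hδM⟩ : ∃ δ : ℝ, 0 < δ ∧ δ ≤ 1 / 16 ∧ 4 * δ ≤ 1 / (M + 1) := by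
    refine ⟨min (1 / 16) (1 / (M + 1) / 4), by positivity, min_le_left _ _, ?_⟩
    have := min_le_right (1 / 16 : ℝ) (1 / (M + 1) / 4)
    linarith
  set K : ℝ := 2 / δ ^ 2 + M with hKdef
  have hK : 0 < K := by positivity
  refine ⟨Real.exp (-(δ ^ 2 / 2)), Real.exp_lt_one_iff.2 (by nlinarith [sq_nonneg δ, pow_pos hδ 2]),
    K * Real.exp K + 1, ?_⟩
  intro q z hqr hq0 hq1 hz hF hF'
  have hqne : q ≠ 0 := norm_pos_iff.1 hq0
  set τ : ℝ := -Real.log ‖q‖ with hτdef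
  have hτ0 : 0 ≤ τ := by
    rw [hτdef]
    have := Real.log_nonpos hq0.le hq1
    linarith
  have hτ1 : τ ≤ δ ^ 2 / 2 := by
    rw [hτdef]
    have := Real.log_le_log (Real.exp_pos _) hqr
    rw [Real.log_exp] at this
    linarith
  have hδ2 : δ ^ 2 ≤ 1 := by nlinarith
  have hKe : K ≤ K * Real.exp K := le_mul_of_one_le_right hK.le (Real.one_le_exp hK.le)
  have hzpos : 0 < ‖z‖ := by
    have : 0 < K * Real.exp K := by positivity
    linarith
  obtain ⟨k, hk, hkz⟩ := SokalU.exists_k hτ0 hzpos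
  have hkK : K < k := SokalU.k_large hτ0 (by linarith) hK hk hkz (by linarith)
  have hkK2 : 2 / δ ^ 2 < k := by
    have : (0 : ℝ) ≤ M := Nat.cast_nonneg M
    linarith
  have hkM : (M : ℝ) ≤ k := by
    have : (0 : ℝ) ≤ 2 / δ ^ 2 := by positivity
    linarith
  have hzM : (M : ℝ) ≤ ‖z‖ := by
    have : (0 : ℝ) ≤ 2 / δ ^ 2 := by positivity
    linarith
  have hs0 : 0 < 1 / k + τ := by positivity
  have hs1 : 1 / k + τ ≤ δ ^ 2 := by
    have : 1 / k ≤ δ ^ 2 / 2 := by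
      rw [div_lt_iff₀ (by positivity)] at hkK2
      rw [div_le_iff₀ hk]
      linarith
    linarith
  set σ : ℝ := 1 / √(1 / k + τ) with hσdef
  have hsq : 0 < √(1 / k + τ) := Real.sqrt_pos.2 hs0
  have hσ0 : 0 < σ := by positivity
  have hσ : 1 / σ ^ 2 = 1 / k + τ := by
    rw [hσdef, div_pow, one_pow, one_div_one_div, Real.sq_sqrt hs0.le]
  have hsqδ : √(1 / k + τ) ≤ δ := by
    rw [Real.sqrt_le_left hδ.le]
    exact hs1
  have hσδ : 1 ≤ δ * σ := by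
    rw [hσdef, mul_one_div, le_div_iff₀ hsq]
    linarith
  have hpi := Real.pi_gt_three
  have h2pi : 1 ≤ √(2 * Real.pi) := by
    rw [Real.one_le_sqrt]; linarith
  have h2pi' : √(2 * Real.pi) ≤ 3 := by
    rw [Real.sqrt_le_left (by norm_num)]
    have := Real.pi_lt_d2
    linarith
  have hσ1 : 1 ≤ √(2 * Real.pi) * σ := by nlinarith
  obtain ⟨N, a, t, β, hN, ha, htre, hq, hzz, hNV, him⟩ :=
    SokalU.params q z hqne hq1 k σ hk hkz hσ0 hσ hσ1
  have htre0 : 0 ≤ t.re := by rw [htre]; exact hτ0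
  rcases le_or_gt N0 N with hle | hlt
  · refine hcore N a t k β hle ha htre0 hk hNV ?_ ?_
    · rw [← hq, ← hzz]; exact hF
    · rw [← hq, ← hzz]; exact hF'
  · have h2 : |t.im| ≤ 3 * δ := by
      have h3 : |t.im| * σ ≤ (3 * δ) * σ := by nlinarith
      exact le_of_mul_le_mul_right h3 hσ0
    have h3 : ‖t‖ ≤ 4 * δ := by
      have := Complex.norm_le_abs_re_add_abs_im t
      rw [abs_of_nonneg htre0, htre] at this
      nlinarith
    refine hM N hN hlt a ha t k β htre0 (h3.trans hδM) hkM (by rw [← hzz]; exact hzM) hNV ?_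
    unfold Bad
    rw [← hq, ← hzz]
    exact ⟨hF, hF'⟩

/-- All multiple zeros are bounded. -/
theorem all_bounded (htip : TipHyp) : ∃ R : ℝ, ∀ q z : ℂ, 0 < ‖q‖ → ‖q‖ ≤ 1 →
    SokalF.F q z = 0 → SokalF.F q (q * z) = 0 → ‖z‖ ≤ R := by
  obtain ⟨r, hr, R1, hR1⟩ := near_circle htip
  obtain ⟨R2, hR2⟩ := SokalF.large_bound hr
  refine ⟨max R1 R2, fun q z h1 h2 h3 h4 => ?_⟩
  rcases le_or_gt r ‖q‖ with hle | hlt
  · refine le_max_of_le_left ?_
    by_contra hcon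
    push Not at hcon
    exact hR1 q z hle h1 h2 hcon.le h3 h4
  · exact le_max_of_le_right (hR2 q z h1 hlt.le h3 h4)

end SokalV
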