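import Pool.Agent.Lib_MP_af4de1_v.Final3
import Pool.Agent.Lib_MP_af4de1_v.N1Tip

/-!
# All multiple zeros with `0 < |q| ≤ 1` are bounded
-/

namespace SokalV

/-- All multiple zeros are bounded. -/
theorem bounded : ∃ R : ℝ, ∀ q z : ℂ, 0 < ‖q‖ → ‖q‖ ≤ 1 →
    SokalF.F q z = 0 → SokalF.F q (q * z) = 0 → ‖z‖ ≤ R :=
  all_bounded fun _ hu ha hb hT => SokalN.tipConn hu ha hb hT

end SokalV
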