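import Pool.Agent.Lib_MP_af4de1_v.Conn

/-!
# Laplace's method at a simple saddle point [SV-LAP]

`P_n(S_n+v) - P_n(S_n-v) = ∫_{-1}^1 v exp(u_n Ψ_n(S_n+sv)/τ_n) ds` (derivative of `s ↦ P_n(S_n+sv)`).  Let
`D_n(s) = u_n (Ψ_n(S_n+sv) - Ψ_n(S_n))`.  CLAIM: there is `κ > 0` with `Re D_n(s) ≤ -κ s²` for `|s| ≤ 1`, `n` large.
Near `0`: `Ψ_n'(S_n) = 0`, so `D_n(s) = s² u_n v² ∫_0^1 (1-θ) Ψ_n''(S_n+θsv) dθ`, the factor of `s²` tends uniformly to
`u0 v² ∫ (1-θ) Ψ0''(S+θsv) dθ`, whose value at `s = 0` has negative real part (`desc`): fine for `|s| ≤ δ0`.  For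
`δ0 ≤ |s| ≤ 1`: `Re D_n(s) → Re D_0(s) = Re u0Ψ0(S+sv) - c < 0` uniformly (`seg`, compactness).
Substitute `s = √τ_n σ`: the quotient in the statement is `v ∫_{|σ| ≤ 1/√τ_n} exp(D_n(√τ_n σ)/τ_n) dσ`, the integrand is
`≤ exp(-κσ²)` and tends to `exp(u0 Ψ0''(S) v² σ²/2)`: dominated convergence;
`c0 = v ∫_ℝ exp(u0 Ψ0''(S) v² σ²/2) dσ ≠ 0` (`integral_gaussian_complex`).  Second statement: the same with the bounded factor
`w_n(S_n+√τ_n σ v) - w0 S → 0`.
-/

namespace SokalV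

open Complex Filter Topology

/-- A third order Taylor bound. -/
private lemma taylor2 {f : ℂ → ℂ} (hf : Differentiable ℂ f) {a z : ℂ} {M : ℝ}
    (h0 : deriv f a = 0)
    (hM : ∀ y, ‖y - a‖ ≤ ‖z‖ → ‖deriv (deriv (deriv f)) y‖ ≤ M) :
    ‖f (a + z) - f a - deriv (deriv f) a * z ^ 2 / 2‖ ≤ M * ‖z‖ ^ 3 := by
  set B := Metric.closedBall a ‖z‖ with hB
  have hconv : Convex ℝ B := convex_closedBall _ _
  have ha : a ∈ B := Metric.mem_closedBall_self (norm_nonneg z)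
  have hmem : ∀ y, y ∈ B ↔ ‖y - a‖ ≤ ‖z‖ := fun y => mem_closedBall_iff_norm
  have hM0 : 0 ≤ M := (norm_nonneg _).trans (hM a (by simp))
  have h2 : ∀ y ∈ B, ‖deriv (deriv f) y - deriv (deriv f) a‖ ≤ M * ‖z‖ := by
    intro y hy
    have h3 := hconv.norm_image_sub_le_of_norm_deriv_le (f := deriv (deriv f))
      (fun x _ => hf.deriv.deriv x) (fun x hx => hM x ((hmem x).1 hx)) ha hy
    exact h3.trans (mul_le_mul_of_nonneg_left ((hmem y).1 hy) hM0)
  have h1 : ∀ y ∈ B, ‖deriv f y - deriv (deriv f) a * (y - a)‖ ≤ M * ‖z‖ * ‖z‖ := by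
    intro y hy
    have hd : ∀ x ∈ B, HasDerivWithinAt (fun x => deriv f x - deriv (deriv f) a * (x - a))
        (deriv (deriv f) x - deriv (deriv f) a) B x := by
      intro x _
      have h3 := (hf.deriv x).hasDerivAt
      have h4 : HasDerivAt (fun x => deriv (deriv f) a * (x - a)) (deriv (deriv f) a) x := by
        simpa using ((hasDerivAt_id x).sub_const a).const_mul (deriv (deriv f) a)
      exact (h3.sub h4).hasDerivWithinAt
    have h5 := hconv.norm_image_sub_le_of_norm_hasDerivWithin_le hd h2 ha hy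
    simp only [h0, sub_self, mul_zero, sub_zero] at h5
    exact h5.trans (mul_le_mul_of_nonneg_left ((hmem y).1 hy) (by positivity))
  have hd : ∀ x ∈ B, HasDerivWithinAt (fun x => f x - deriv (deriv f) a * (x - a) ^ 2 / 2)
      (deriv f x - deriv (deriv f) a * (x - a)) B x := by
    intro x _
    have h3 := (hf x).hasDerivAt
    have h4 : HasDerivAt (fun x => deriv (deriv f) a * (x - a) ^ 2 / 2)
        (deriv (deriv f) a * (x - a)) x := by
      have h5 := ((((hasDerivAt_id x).sub_const a).pow 2).const_mul (deriv (deriv f) a)).div_const 2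
      refine h5.congr_deriv ?_
      simp only [id, mul_one, Nat.cast_ofNat, Nat.add_one_sub_one, pow_one]
      ring
    exact (h3.sub h4).hasDerivWithinAt
  have hz : a + z ∈ B := by rw [hmem]; simp
  have h5 := hconv.norm_image_sub_le_of_norm_hasDerivWithin_le hd h1 ha hz
  simp only [sub_self, add_sub_cancel_left] at h5
  calc ‖f (a + z) - f a - deriv (deriv f) a * z ^ 2 / 2‖
      = ‖f (a + z) - deriv (deriv f) a * z ^ 2 / 2 -
          (f a - deriv (deriv f) a * 0 ^ 2 / 2)‖ := by congr 1; ring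
    _ ≤ M * ‖z‖ * ‖z‖ * ‖z‖ := h5
    _ = M * ‖z‖ ^ 3 := by ring

private lemma tlu_deriv {Ψ : ℕ → ℂ → ℂ} {Ψ0 : ℂ → ℂ} (h : TendstoLocallyUniformly Ψ Ψ0 atTop)
    (hd : ∀ n, Differentiable ℂ (Ψ n)) :
    TendstoLocallyUniformly (fun n => deriv (Ψ n)) (deriv Ψ0) atTop := by
  have h1 := (tendstoLocallyUniformlyOn_univ.2 h).deriv
    (Eventually.of_forall fun n => (hd n).differentiableOn) isOpen_univ
  exact tendstoLocallyUniformlyOn_univ.1 h1

private lemma tlu_cont {Ψ : ℕ → ℂ → ℂ} {Ψ0 : ℂ → ℂ} (h : TendstoLocallyUniformly Ψ Ψ0 atTop)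
    (hd : ∀ n, Differentiable ℂ (Ψ n)) : Continuous Ψ0 :=
  h.continuous (Frequently.of_forall fun n => (hd n).continuous)

private lemma tlu_comp {ι : Type*} {l : Filter ι} {Ψ : ℕ → ℂ → ℂ} {Ψ0 : ℂ → ℂ}
    (h : TendstoLocallyUniformly Ψ Ψ0 atTop) (hc : Continuous Ψ0) {N : ι → ℕ}
    (hN : Tendsto N l atTop) {g : ι → ℂ} {x : ℂ} (hg : Tendsto g l (𝓝 x)) :
    Tendsto (fun i => Ψ (N i) (g i)) l (𝓝 (Ψ0 x)) := by
  refine tendsto_comp_of_locally_uniform_limit (F := fun i => Ψ (N i)) hc.continuousAt hg ?_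
  intro u hu
  obtain ⟨t, ht, hev⟩ := h u hu x
  exact ⟨t, ht, hN.eventually hev⟩

private lemma tlu_bound {Ψ : ℕ → ℂ → ℂ} {Ψ0 : ℂ → ℂ} (h : TendstoLocallyUniformly Ψ Ψ0 atTop)
    (hc : Continuous Ψ0) {K : Set ℂ} (hK : IsCompact K) :
    ∃ M : ℝ, ∀ᶠ n in atTop, ∀ y ∈ K, ‖Ψ n y‖ ≤ M := by
  obtain ⟨C, hC⟩ := hK.exists_bound_of_continuousOn hc.continuousOn
  have h1 := (tendstoLocallyUniformlyOn_iff_tendstoUniformlyOn_of_compact hK).1
    (h.tendstoLocallyUniformlyOn (s := K))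
  refine ⟨C + 1, ?_⟩
  filter_upwards [Metric.tendstoUniformlyOn_iff.1 h1 1 one_pos] with n hn y hy
  have h2 := hn y hy
  rw [dist_eq_norm] at h2
  calc ‖Ψ n y‖ = ‖Ψ0 y - (Ψ0 y - Ψ n y)‖ := by congr 1; ring
    _ ≤ ‖Ψ0 y‖ + ‖Ψ0 y - Ψ n y‖ := norm_sub_le _ _
    _ ≤ C + 1 := add_le_add (hC y hy) h2.le

private lemma compact_ev {K : Set ℝ} (hK : IsCompact K) {P : ℕ → ℝ → Prop}
    (h : ∀ s ∈ K, ∀ᶠ p : ℕ × ℝ in atTop ×ˢ 𝓝 s, P p.1 p.2) : ∀ᶠ n in atTop, ∀ s ∈ K, P n s := by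
  have h1 : ∀ᶠ p : ℕ × ℝ in atTop ×ˢ 𝓝ˢ K, P p.1 p.2 := by
    rw [hK.prod_nhdsSet_eq_biSup]
    simpa only [eventually_iSup] using h
  exact h1.curry.mono fun n hn s hs => hn.self_of_nhdsSet s hs

/-- uniform Taylor bound -/
private lemma Fam.taylor (F : Fam) {S : ℂ} {Sn : ℕ → ℂ} (hS : Tendsto Sn atTop (𝓝 S))
    (hcrit : ∀ᶠ n in atTop, deriv (F.Ψ n) (Sn n) = 0) (ρ : ℝ) :
    ∃ M : ℝ, 0 ≤ M ∧ ∀ᶠ n in atTop, ∀ z : ℂ, ‖z‖ ≤ ρ →
      ‖F.Ψ n (Sn n + z) - F.Ψ n (Sn n) - deriv (deriv (F.Ψ n)) (Sn n) * z ^ 2 / 2‖ ≤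
        M * ‖z‖ ^ 3 := by
  have h1 := tlu_deriv F.hΨlim F.hΨ
  have h2 := tlu_deriv h1 (fun n => (F.hΨ n).deriv)
  have h3 := tlu_deriv h2 (fun n => (F.hΨ n).deriv.deriv)
  have hc := tlu_cont h3 (fun n => (F.hΨ n).deriv.deriv.deriv)
  obtain ⟨M, hM⟩ := tlu_bound h3 hc (isCompact_closedBall S (ρ + 1))
  refine ⟨max M 0, le_max_right _ _, ?_⟩
  have hS1 : ∀ᶠ n in atTop, ‖Sn n - S‖ < 1 := by
    have := Metric.tendsto_nhds.1 hS 1 one_pos
    simpa [dist_eq_norm] using this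
  filter_upwards [hM, hS1, hcrit] with n hn hn1 hn2 z hz
  refine taylor2 (F.hΨ n) hn2 (fun y hy => (hn y ?_).trans (le_max_left _ _))
  rw [mem_closedBall_iff_norm]
  calc ‖y - S‖ = ‖(y - Sn n) + (Sn n - S)‖ := by congr 1; ring
    _ ≤ ‖y - Sn n‖ + ‖Sn n - S‖ := norm_add_le _ _
    _ ≤ ρ + 1 := add_le_add (hy.trans hz) hn1.le

/-- the second derivative at the critical points converges -/
private lemma Fam.second (F : Fam) {S : ℂ} {Sn : ℕ → ℂ} (hS : Tendsto Sn atTop (𝓝 S)) :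
    Tendsto (fun n => deriv (deriv (F.Ψ n)) (Sn n)) atTop (𝓝 (deriv (deriv F.Ψ0) S)) := by
  have h1 := tlu_deriv F.hΨlim F.hΨ
  have h2 := tlu_deriv h1 (fun n => (F.hΨ n).deriv)
  exact tlu_comp h2 (tlu_cont h2 (fun n => (F.hΨ n).deriv.deriv)) tendsto_id hS

/-- uniform descent along the segment -/
private lemma Fam.descent (F : Fam) {c : ℝ} {S v : ℂ} (h : Sad F.u0 F.Ψ0 c S v) {Sn : ℕ → ℂ}
    (hS : Tendsto Sn atTop (𝓝 S)) (hcrit : ∀ᶠ n in atTop, deriv (F.Ψ n) (Sn n) = 0) :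
    ∃ κ : ℝ, 0 < κ ∧ ∀ᶠ n in atTop, ∀ s : ℝ, |s| ≤ 1 →
      (F.u n * (F.Ψ n (Sn n + s * v) - F.Ψ n (Sn n))).re ≤ -κ * s ^ 2 := by
  obtain ⟨M, hM0, hM⟩ := F.taylor hS hcrit ‖v‖
  set α : ℝ := -(F.u0 * deriv (deriv F.Ψ0) S * v ^ 2).re with hα
  have hαpos : 0 < α := by
    have := h.desc
    linarith
  -- constants
  set U : ℝ := ‖F.u0‖ + 1 with hU
  have hUpos : 0 < U := by positivity
  have hUev : ∀ᶠ n in atTop, ‖F.u n‖ ≤ U := by
    have h1 := F.hulim.norm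
    filter_upwards [h1.eventually (gt_mem_nhds (show ‖F.u0‖ < U by rw [hU]; linarith))] with n hn
    exact hn.le
  have hA : Tendsto (fun n => (F.u n * deriv (deriv (F.Ψ n)) (Sn n) * v ^ 2).re) atTop (𝓝 (-α)) := by
    have h1 := (((F.hulim.mul (F.second hS)).mul_const (v ^ 2)))
    have h2 := (continuous_re.tendsto _).comp h1
    rw [hα, neg_neg]
    exact h2
  have hAev : ∀ᶠ n in atTop, (F.u n * deriv (deriv (F.Ψ n)) (Sn n) * v ^ 2).re ≤ -(α / 2) :=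
    (hA.eventually (gt_mem_nhds (show -α < -(α / 2) by linarith))).mono fun n hn => hn.le
  set K3 : ℝ := U * M * ‖v‖ ^ 3 with hK3
  have hK30 : 0 ≤ K3 := by positivity
  set δ : ℝ := min 1 (α / (8 * (K3 + 1))) with hδ
  have hδ0 : 0 < δ := lt_min one_pos (by positivity)
  have hδ1 : δ ≤ 1 := min_le_left _ _
  have hδK : K3 * δ ≤ α / 8 := by
    have h1 : δ ≤ α / (8 * (K3 + 1)) := min_le_right _ _
    calc K3 * δ ≤ (K3 + 1) * (α / (8 * (K3 + 1))) := by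
          apply mul_le_mul (by linarith) h1 hδ0.le (by positivity)
      _ = α / 8 := by field_simp
  -- near 0
  have near : ∀ᶠ n in atTop, ∀ s : ℝ, |s| ≤ δ →
      (F.u n * (F.Ψ n (Sn n + s * v) - F.Ψ n (Sn n))).re ≤ -(α / 8) * s ^ 2 := by
    filter_upwards [hM, hUev, hAev] with n hn hu ha s hs
    have hz : ‖(s : ℂ) * v‖ ≤ ‖v‖ := by
      rw [norm_mul, norm_real, Real.norm_eq_abs]
      exact mul_le_of_le_one_left (norm_nonneg v) (hs.trans hδ1)
    have h1 := hn (s * v) hz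
    set Rm := F.Ψ n (Sn n + s * v) - F.Ψ n (Sn n) -
      deriv (deriv (F.Ψ n)) (Sn n) * (s * v) ^ 2 / 2 with hRm
    have h2 : F.u n * (F.Ψ n (Sn n + s * v) - F.Ψ n (Sn n)) =
        ((s ^ 2 / 2 : ℝ) : ℂ) * (F.u n * deriv (deriv (F.Ψ n)) (Sn n) * v ^ 2) + F.u n * Rm := by
      rw [hRm]
      push_cast
      ring
    rw [h2, add_re, re_ofReal_mul]
    have h3 : (F.u n * Rm).re ≤ K3 * |s| ^ 3 := by
      refine (re_le_norm _).trans ?_
      rw [norm_mul]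
      calc ‖F.u n‖ * ‖Rm‖ ≤ U * (M * ‖(s : ℂ) * v‖ ^ 3) :=
            mul_le_mul hu h1 (norm_nonneg _) hUpos.le
        _ = K3 * |s| ^ 3 := by
            rw [norm_mul, norm_real, Real.norm_eq_abs, hK3]
            ring
    have h4 : |s| ^ 3 = |s| * s ^ 2 := by
      rw [pow_succ, sq_abs]
      ring
    have h5 : K3 * |s| ^ 3 ≤ α / 8 * s ^ 2 := by
      rw [h4]
      calc K3 * (|s| * s ^ 2) = K3 * |s| * s ^ 2 := by ring
        _ ≤ K3 * δ * s ^ 2 := by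
            apply mul_le_mul_of_nonneg_right _ (sq_nonneg s)
            exact mul_le_mul_of_nonneg_left hs hK30
        _ ≤ α / 8 * s ^ 2 := mul_le_mul_of_nonneg_right hδK (sq_nonneg s)
    have h6 : s ^ 2 / 2 * (F.u n * deriv (deriv (F.Ψ n)) (Sn n) * v ^ 2).re ≤
        s ^ 2 / 2 * (-(α / 2)) := mul_le_mul_of_nonneg_left ha (by positivity)
    nlinarith [sq_nonneg s]
  -- away from 0
  have hΨc : Continuous F.Ψ0 := tlu_cont F.hΨlim F.hΨ
  set K : Set ℝ := Set.Icc (-1) 1 \ Set.Ioo (-δ) δ with hKdef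
  have hK : IsCompact K := isCompact_Icc.diff isOpen_Ioo
  set g : ℝ → ℝ := fun s => (F.u0 * (F.Ψ0 (S + s * v) - F.Ψ0 S)).re with hg
  have hgc : Continuous g := by
    rw [hg]
    fun_prop
  have hgneg : ∀ s ∈ K, g s < 0 := by
    intro s hs
    have hs1 : |s| ≤ 1 := abs_le.2 hs.1
    have hs0 : s ≠ 0 := by
      rintro rfl
      exact hs.2 ⟨by linarith, hδ0⟩
    have h1 := h.seg s hs1 hs0
    have h2 := h.height
    simp only [hg, mul_sub, sub_re]
    linarith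
  obtain ⟨m, hm0, hm⟩ : ∃ m : ℝ, 0 < m ∧ ∀ s ∈ K, g s ≤ -m := by
    rcases K.eq_empty_or_nonempty with he | hne
    · exact ⟨1, one_pos, by rw [he]; simp⟩
    · obtain ⟨s0, hs0, hmax⟩ := hK.exists_isMaxOn hne hgc.continuousOn
      exact ⟨-g s0, by linarith [hgneg s0 hs0], fun s hs => by
        rw [neg_neg]; exact hmax hs⟩
  have away : ∀ᶠ n in atTop, ∀ s ∈ K,
      (F.u n * (F.Ψ n (Sn n + s * v) - F.Ψ n (Sn n))).re < -(m / 2) := by
    refine compact_ev hK (P := fun n s =>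
      (F.u n * (F.Ψ n (Sn n + s * v) - F.Ψ n (Sn n))).re < -(m / 2)) ?_
    intro s hs
    have t1 : Tendsto (fun p : ℕ × ℝ => p.1) (atTop ×ˢ 𝓝 s) atTop := tendsto_fst
    have t2 : Tendsto (fun p : ℕ × ℝ => p.2) (atTop ×ˢ 𝓝 s) (𝓝 s) := tendsto_snd
    have t3 : Tendsto (fun p : ℕ × ℝ => Sn p.1) (atTop ×ˢ 𝓝 s) (𝓝 S) := hS.comp t1
    have t4 : Tendsto (fun p : ℕ × ℝ => Sn p.1 + p.2 * v) (atTop ×ˢ 𝓝 s) (𝓝 (S + s * v)) :=
      t3.add (((continuous_ofReal.tendsto s).comp t2).mul_const v)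
    have t5 := tlu_comp F.hΨlim hΨc t1 t4
    have t6 := tlu_comp F.hΨlim hΨc t1 t3
    have t7 := (F.hulim.comp t1).mul (t5.sub t6)
    have t8 := (continuous_re.tendsto _).comp t7
    have h1 : (F.u0 * (F.Ψ0 (S + s * v) - F.Ψ0 S)).re < -(m / 2) := by
      have := hm s hs
      simp only [hg] at this
      linarith
    exact t8.eventually (gt_mem_nhds h1)
  refine ⟨min (α / 8) (m / 2), lt_min (by linarith) (by linarith), ?_⟩
  filter_upwards [near, away] with n hn ha s hs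
  by_cases hsδ : |s| ≤ δ
  · refine (hn s hsδ).trans ?_
    have := min_le_left (α / 8) (m / 2)
    nlinarith [sq_nonneg s]
  · have hsK : s ∈ K := by
      refine ⟨abs_le.1 hs, fun h2 => hsδ ?_⟩
      exact (abs_lt.2 h2).le
    refine (ha s hsK).le.trans ?_
    have h1 := min_le_right (α / 8) (m / 2)
    have h2 : s ^ 2 ≤ 1 := by
      rw [← sq_abs]
      exact pow_le_one₀ (abs_nonneg s) hs
    nlinarith [sq_nonneg s, lt_min (show 0 < α / 8 by linarith) (show 0 < m / 2 by linarith)]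

/-- pointwise limit of the scaled phase -/
private lemma Fam.pointwise (F : Fam) {S v : ℂ} {Sn : ℕ → ℂ}
    (hS : Tendsto Sn atTop (𝓝 S)) (hcrit : ∀ᶠ n in atTop, deriv (F.Ψ n) (Sn n) = 0) (σ : ℝ) :
    Tendsto (fun n => F.u n * (F.Ψ n (Sn n + ((√(F.τ n) * σ : ℝ) : ℂ) * v) - F.Ψ n (Sn n)) /
      F.τ n) atTop (𝓝 (F.u0 * deriv (deriv F.Ψ0) S * v ^ 2 / 2 * (σ : ℂ) ^ 2)) := by
  obtain ⟨M, hM0, hM⟩ := F.taylor hS hcrit ‖v‖
  have hsq : Tendsto (fun n => √(F.τ n)) atTop (𝓝 0) := by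
    have := F.hτlim.sqrt
    simpa using this
  have hσ : ∀ᶠ n in atTop, |√(F.τ n) * σ| ≤ 1 := by
    have h1 : Tendsto (fun n => |√(F.τ n) * σ|) atTop (𝓝 0) := by
      have := (hsq.mul_const σ).abs
      simpa using this
    exact (h1.eventually (gt_mem_nhds one_pos)).mono fun n hn => hn.le
  have hmain : Tendsto (fun n => F.u n * deriv (deriv (F.Ψ n)) (Sn n) * v ^ 2 / 2 * (σ : ℂ) ^ 2)
      atTop (𝓝 (F.u0 * deriv (deriv F.Ψ0) S * v ^ 2 / 2 * (σ : ℂ) ^ 2)) :=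
    (((F.hulim.mul (F.second hS)).mul_const (v ^ 2)).div_const 2).mul_const _
  set E : ℕ → ℂ := fun n => F.u n * (F.Ψ n (Sn n + ((√(F.τ n) * σ : ℝ) : ℂ) * v) - F.Ψ n (Sn n)) /
      F.τ n - F.u n * deriv (deriv (F.Ψ n)) (Sn n) * v ^ 2 / 2 * (σ : ℂ) ^ 2 with hE
  have herr : Tendsto E atTop (𝓝 0) := by
    have hb : Tendsto (fun n => ‖F.u n‖ * (M * (√(F.τ n) * (|σ| * ‖v‖) ^ 3))) atTop (𝓝 0) := by
      have h1 := F.hulim.norm.mul ((hsq.mul_const ((|σ| * ‖v‖) ^ 3)).const_mul M)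
      simpa using h1
    refine squeeze_zero_norm' ?_ hb
    filter_upwards [hM, hσ] with n hn hs
    have hτ := F.hτ n
    have hτ' : (F.τ n : ℂ) ≠ 0 := by exact_mod_cast hτ.ne'
    have hz : ‖((√(F.τ n) * σ : ℝ) : ℂ) * v‖ ≤ ‖v‖ := by
      rw [norm_mul, norm_real, Real.norm_eq_abs]
      exact mul_le_of_le_one_left (norm_nonneg v) hs
    have h1 := hn _ hz
    have hsq2 : ((√(F.τ n) : ℝ) : ℂ) ^ 2 = F.τ n := by
      rw [← ofReal_pow, Real.sq_sqrt hτ.le]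
    have h2 : E n = F.u n * (F.Ψ n (Sn n + ((√(F.τ n) * σ : ℝ) : ℂ) * v) - F.Ψ n (Sn n) -
        deriv (deriv (F.Ψ n)) (Sn n) * (((√(F.τ n) * σ : ℝ) : ℂ) * v) ^ 2 / 2) / F.τ n := by
      have h3 : (((√(F.τ n) * σ : ℝ) : ℂ) * v) ^ 2 = F.τ n * ((σ : ℂ) ^ 2 * v ^ 2) := by
        rw [← hsq2]
        push_cast
        ring
      rw [h3, hE]
      field_simp
    rw [h2, norm_div, norm_mul, norm_real, Real.norm_eq_abs, abs_of_pos hτ]
    rw [div_le_iff₀ hτ]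
    calc ‖F.u n‖ * ‖F.Ψ n (Sn n + ((√(F.τ n) * σ : ℝ) : ℂ) * v) - F.Ψ n (Sn n) -
          deriv (deriv (F.Ψ n)) (Sn n) * (((√(F.τ n) * σ : ℝ) : ℂ) * v) ^ 2 / 2‖
        ≤ ‖F.u n‖ * (M * ‖((√(F.τ n) * σ : ℝ) : ℂ) * v‖ ^ 3) :=
          mul_le_mul_of_nonneg_left h1 (norm_nonneg _)
      _ = ‖F.u n‖ * (M * (√(F.τ n) * (|σ| * ‖v‖) ^ 3)) * F.τ n := by
          rw [norm_mul, norm_real, Real.norm_eq_abs, abs_mul, abs_of_nonneg (Real.sqrt_nonneg _)]
          have h4 : √(F.τ n) ^ 3 = √(F.τ n) * F.τ n := by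
            rw [pow_succ, Real.sq_sqrt hτ.le]
            ring
          calc ‖F.u n‖ * (M * (√(F.τ n) * |σ| * ‖v‖) ^ 3)
              = ‖F.u n‖ * (M * (√(F.τ n) ^ 3 * (|σ| * ‖v‖) ^ 3)) := by ring
            _ = _ := by rw [h4]; ring
  have := hmain.add herr
  simp only [hE, add_zero] at this
  refine this.congr fun n => ?_
  ring

/-- Laplace's method with a weight -/
private lemma Fam.core (F : Fam) {c : ℝ} {S v : ℂ} (h : Sad F.u0 F.Ψ0 c S v) {Sn : ℕ → ℂ}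
    (hS : Tendsto Sn atTop (𝓝 S)) (hcrit : ∀ᶠ n in atTop, deriv (F.Ψ n) (Sn n) = 0)
    (W : ℕ → ℂ → ℂ) (W0 : ℂ) (hWc : ∀ n, Continuous (W n)) (C : ℝ)
    (hWb : ∀ᶠ n in atTop, ∀ s : ℝ, |s| ≤ 1 → ‖W n (Sn n + s * v)‖ ≤ C)
    (hWl : ∀ σ : ℝ, Tendsto (fun n => W n (Sn n + ((√(F.τ n) * σ : ℝ) : ℂ) * v)) atTop (𝓝 W0))
    (R : ℕ → ℂ → ℂ)
    (hR : ∀ n H, HasDerivAt (R n) (W n H * cexp (F.u n * F.Ψ n H / F.τ n)) H) :
    Tendsto (fun n => (R n (Sn n + v) - R n (Sn n - v)) /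
      (√(F.τ n) * cexp (F.u n * F.Ψ n (Sn n) / F.τ n))) atTop
      (𝓝 (v * ∫ σ : ℝ, W0 * cexp (-(-(F.u0 * deriv (deriv F.Ψ0) S * v ^ 2 / 2)) * (σ : ℂ) ^ 2))) := by
  obtain ⟨κ, hκ, hdesc⟩ := F.descent h hS hcrit
  -- the integrand
  set D : ℕ → ℝ → ℂ := fun n s => F.u n * (F.Ψ n (Sn n + s * v) - F.Ψ n (Sn n)) with hD
  set f : ℕ → ℝ → ℂ := fun n s => W n (Sn n + s * v) * cexp (D n s / F.τ n) with hf
  have hfc : ∀ n, Continuous (f n) := by
    intro n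
    have h1 := (F.hΨ n).continuous
    have h2 := hWc n
    simp only [hf, hD]
    fun_prop
  set I : ℕ → ℝ → ℂ := fun n =>
    (Set.Ioc (-(1 / √(F.τ n))) (1 / √(F.τ n))).indicator (fun σ => f n (√(F.τ n) * σ)) with hI
  have hsq : ∀ n, 0 < √(F.τ n) := fun n => Real.sqrt_pos.2 (F.hτ n)
  -- the quotient as an integral
  have key : ∀ n, (R n (Sn n + v) - R n (Sn n - v)) /
      (√(F.τ n) * cexp (F.u n * F.Ψ n (Sn n) / F.τ n)) = v * ∫ σ : ℝ, I n σ := by
    intro n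
    have hτ' : ((√(F.τ n) : ℝ) : ℂ) ≠ 0 := by exact_mod_cast (hsq n).ne'
    have e1 : ∫ σ : ℝ, I n σ = ∫ σ in (-(1 / √(F.τ n)))..(1 / √(F.τ n)), f n (√(F.τ n) * σ) := by
      rw [intervalIntegral.integral_of_le (by
        have := (one_div_pos.2 (hsq n)).le
        linarith), ← MeasureTheory.integral_indicator measurableSet_Ioc]
    have e2 : (√(F.τ n)) • ∫ σ in (-(1 / √(F.τ n)))..(1 / √(F.τ n)), f n (√(F.τ n) * σ) =
        ∫ s in (-1 : ℝ)..1, f n s := by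
      rw [intervalIntegral.smul_integral_comp_mul_left]
      congr 1
      · rw [mul_neg, mul_one_div_cancel (hsq n).ne']
      · rw [mul_one_div_cancel (hsq n).ne']
    have e3 : ∫ s in (-1 : ℝ)..1, W n (Sn n + s * v) * cexp (F.u n * F.Ψ n (Sn n + s * v) / F.τ n) * v
        = R n (Sn n + v) - R n (Sn n - v) := by
      have hd : ∀ s ∈ Set.uIcc (-1 : ℝ) 1, HasDerivAt (fun s : ℝ => R n (Sn n + s * v))
          (W n (Sn n + s * v) * cexp (F.u n * F.Ψ n (Sn n + s * v) / F.τ n) * v) s := by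
        intro s _
        have h1 : HasDerivAt (fun s : ℝ => Sn n + (s : ℂ) * v) v s := by
          have h2 := ((ofRealCLM.hasDerivAt (x := s)).mul_const v).const_add (Sn n)
          simpa using h2
        exact (hR n (Sn n + s * v)).comp s h1
      have hcont : Continuous (fun s : ℝ =>
          W n (Sn n + s * v) * cexp (F.u n * F.Ψ n (Sn n + s * v) / F.τ n) * v) := by
        have h1 := (F.hΨ n).continuous
        have h2 := hWc n
        fun_prop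
      rw [intervalIntegral.integral_eq_sub_of_hasDerivAt hd (hcont.intervalIntegrable _ _)]
      simp [sub_eq_add_neg]
    have e4 : ∫ s in (-1 : ℝ)..1, W n (Sn n + s * v) * cexp (F.u n * F.Ψ n (Sn n + s * v) / F.τ n) * v
        = v * cexp (F.u n * F.Ψ n (Sn n) / F.τ n) * ∫ s in (-1 : ℝ)..1, f n s := by
      rw [← intervalIntegral.integral_const_mul]
      congr 1
      ext s
      have h1 : cexp (F.u n * F.Ψ n (Sn n + s * v) / F.τ n) =
          cexp (F.u n * F.Ψ n (Sn n) / F.τ n) * cexp (D n s / F.τ n) := by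
        rw [← Complex.exp_add]
        congr 1
        simp only [hD]
        ring
      rw [h1]
      simp only [hf]
      ring
    rw [← e3, e4, ← e2, e1, real_smul]
    have h5 := Complex.exp_ne_zero (F.u n * F.Ψ n (Sn n) / F.τ n)
    field_simp
  rw [show (fun n => (R n (Sn n + v) - R n (Sn n - v)) /
      (√(F.τ n) * cexp (F.u n * F.Ψ n (Sn n) / F.τ n))) = fun n => v * ∫ σ : ℝ, I n σ from
    funext key]
  refine Tendsto.const_mul v ?_
  refine MeasureTheory.tendsto_integral_filter_of_dominated_convergence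
    (fun σ => C * Real.exp (-κ * σ ^ 2)) ?_ ?_ ?_ ?_
  · refine Eventually.of_forall fun n => ?_
    refine (Measurable.indicator ?_ measurableSet_Ioc).aestronglyMeasurable
    exact ((hfc n).comp (by fun_prop)).measurable
  · filter_upwards [hdesc, hWb] with n hn hw
    refine Eventually.of_forall fun σ => ?_
    have hC : 0 ≤ C := (norm_nonneg _).trans (hw 0 (by simp))
    simp only [hI]
    by_cases hσ : σ ∈ Set.Ioc (-(1 / √(F.τ n))) (1 / √(F.τ n))
    · rw [Set.indicator_of_mem hσ]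
      have hs1 : |√(F.τ n) * σ| ≤ 1 := by
        rw [abs_mul, abs_of_pos (hsq n)]
        have h1 : |σ| ≤ 1 / √(F.τ n) := abs_le.2 ⟨hσ.1.le, hσ.2⟩
        calc √(F.τ n) * |σ| ≤ √(F.τ n) * (1 / √(F.τ n)) :=
              mul_le_mul_of_nonneg_left h1 (hsq n).le
          _ = 1 := mul_one_div_cancel (hsq n).ne'
      simp only [hf]
      rw [norm_mul]
      refine mul_le_mul (hw _ hs1) ?_ (norm_nonneg _) hC
      rw [norm_exp]
      refine Real.exp_le_exp.2 ?_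
      have h2 := hn _ hs1
      have h3 : (D n (√(F.τ n) * σ) / F.τ n).re = (D n (√(F.τ n) * σ)).re / F.τ n :=
        div_ofReal_re _ _
      rw [h3, div_le_iff₀ (F.hτ n)]
      refine h2.trans (le_of_eq ?_)
      rw [mul_pow, Real.sq_sqrt (F.hτ n).le]
      ring
    · rw [Set.indicator_of_notMem hσ, norm_zero]
      positivity
  · exact (integrable_exp_neg_mul_sq hκ).const_mul C
  · refine Eventually.of_forall fun σ => ?_
    have hev : ∀ᶠ n in atTop, σ ∈ Set.Ioc (-(1 / √(F.τ n))) (1 / √(F.τ n)) := by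
      have h1 : Tendsto (fun n => √(F.τ n)) atTop (𝓝 0) := by
        have := F.hτlim.sqrt
        simpa using this
      have h2 : Tendsto (fun n => √(F.τ n) * (|σ| + 1)) atTop (𝓝 0) := by
        have := h1.mul_const (|σ| + 1)
        simpa using this
      filter_upwards [h2.eventually (gt_mem_nhds one_pos)] with n hn
      have h3 : |σ| + 1 < 1 / √(F.τ n) := by
        rw [lt_div_iff₀ (hsq n)]
        linarith
      have h4 := neg_abs_le σ
      have h5 := le_abs_self σ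
      exact ⟨by linarith, by linarith⟩
    have hlim := (hWl σ).mul ((continuous_exp.tendsto _).comp (F.pointwise (v := v) hS hcrit σ))
    rw [neg_neg]
    refine hlim.congr' ?_
    filter_upwards [hev] with n hn
    simp only [hI]
    rw [Set.indicator_of_mem hn]
    simp only [hf, hD, Function.comp]

theorem Fam.laplace (F : Fam) {c : ℝ} {S v : ℂ} (h : Sad F.u0 F.Ψ0 c S v) {Sn : ℕ → ℂ}
    (hS : Tendsto Sn atTop (𝓝 S)) (hcrit : ∀ᶠ n in atTop, deriv (F.Ψ n) (Sn n) = 0) :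
    ∃ c0 : ℂ, c0 ≠ 0 ∧
      Tendsto (fun n => (F.P n (Sn n + v) - F.P n (Sn n - v)) /
        (√(F.τ n) * cexp (F.u n * F.Ψ n (Sn n) / F.τ n))) atTop (𝓝 c0) ∧
      Tendsto (fun n => (F.Q n (Sn n + v) - F.Q n (Sn n - v) -
        F.w0 S * (F.P n (Sn n + v) - F.P n (Sn n - v))) /
        (√(F.τ n) * cexp (F.u n * F.Ψ n (Sn n) / F.τ n))) atTop (𝓝 0) := by
  set b : ℂ := -(F.u0 * deriv (deriv F.Ψ0) S * v ^ 2 / 2) with hb
  have hbre : 0 < b.re := by
    have h1 := h.desc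
    have h2 : b.re = -(F.u0 * deriv (deriv F.Ψ0) S * v ^ 2).re / 2 := by
      rw [hb, neg_re]
      have : (F.u0 * deriv (deriv F.Ψ0) S * v ^ 2 / 2).re =
          (F.u0 * deriv (deriv F.Ψ0) S * v ^ 2).re / 2 := by
        exact div_ofReal_re (F.u0 * deriv (deriv F.Ψ0) S * v ^ 2) 2
      rw [this]
      ring
    rw [h2]
    linarith
  have hv : v ≠ 0 := by
    rintro rfl
    have := h.desc
    simp at this
  have hb0 : b ≠ 0 := by
    rintro h0
    rw [h0] at hbre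
    simp at hbre
  have hsq : Tendsto (fun n => √(F.τ n)) atTop (𝓝 0) := by
    have := F.hτlim.sqrt
    simpa using this
  refine ⟨v * ∫ σ : ℝ, 1 * cexp (-b * (σ : ℂ) ^ 2), ?_, ?_, ?_⟩
  · simp only [one_mul]
    rw [integral_gaussian_complex hbre]
    refine mul_ne_zero hv ?_
    rw [Ne, cpow_eq_zero_iff]
    intro h1
    exact (div_ne_zero (by exact_mod_cast Real.pi_ne_zero) hb0) h1.1
  · refine F.core h hS hcrit (fun _ _ => 1) 1 (fun n => continuous_const) 1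
      (Eventually.of_forall fun n s _ => by simp) (fun σ => tendsto_const_nhds) F.P ?_
    intro n H
    simpa using F.hP n H
  · have hw := tlu_cont F.hwlim F.hw
    obtain ⟨C, hC⟩ := tlu_bound F.hwlim hw (isCompact_closedBall S (‖v‖ + 1))
    have hS1 : ∀ᶠ n in atTop, ‖Sn n - S‖ < 1 := by
      have := Metric.tendsto_nhds.1 hS 1 one_pos
      simpa [dist_eq_norm] using this
    have := F.core h hS hcrit (fun n H => F.w n H - F.w0 S) 0
      (fun n => (F.hw n).continuous.sub continuous_const) (C + ‖F.w0 S‖) ?_ ?_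
      (fun n H => F.Q n H - F.w0 S * F.P n H) ?_
    · simp only [zero_mul, MeasureTheory.integral_zero, mul_zero] at this
      refine this.congr fun n => ?_
      congr 1
      ring
    · filter_upwards [hC, hS1] with n hn h1 s hs
      refine (norm_sub_le _ _).trans (add_le_add (hn _ ?_) le_rfl)
      rw [mem_closedBall_iff_norm]
      calc ‖Sn n + s * v - S‖ = ‖s * v + (Sn n - S)‖ := by congr 1; ring
        _ ≤ ‖(s : ℂ) * v‖ + ‖Sn n - S‖ := norm_add_le _ _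
        _ ≤ ‖v‖ + 1 := by
          refine add_le_add ?_ h1.le
          rw [norm_mul, norm_real, Real.norm_eq_abs]
          exact mul_le_of_le_one_left (norm_nonneg v) hs
    · intro σ
      have h1 : Tendsto (fun n => Sn n + ((√(F.τ n) * σ : ℝ) : ℂ) * v) atTop (𝓝 S) := by
        have h2 : Tendsto (fun n => ((√(F.τ n) * σ : ℝ) : ℂ)) atTop (𝓝 ((0 * σ : ℝ) : ℂ)) :=
          (continuous_ofReal.tendsto _).comp (hsq.mul_const σ)
        have h3 := hS.add (h2.mul_const v)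
        simpa using h3
      have h2 := (tlu_comp F.hwlim hw tendsto_id h1).sub_const (F.w0 S)
      simpa using h2
    · intro n H
      have h1 := (F.hQ n H).sub ((F.hP n H).const_mul (F.w0 S))
      refine h1.congr_deriv ?_
      ring

end SokalV
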