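import Pool.Agent.Lib_MP_af4de1_v.Fibre

/-!
# Existence of the top level [SV-TOPA]

`IsTop` below: level `c` is reached on the line `T` of the lift `m` and nothing is higher.  The set `K` of all `c` such that
`∃ m < N, ∃ T, ∀ X, c ≤ Gp u ζ_m X T` is bounded above (`X = 0`: `c ≤ ‖ζ‖`), contains some `c > 0` (`TopPos`).  Let `c = sSup K`,
`c_k → c`, `c_k ∈ K`, `c_k > 0`, with `(m_k, T_k)`: by `Gp_tail` (`X = ±1`) `|T_k| ≤ 1 + 2(1/2 + 3‖ζ‖)`.  Subsequence: `m_k = m`,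
`T_k → T`; `continuous_Gp` gives `∀ X, c ≤ Gp u ζ_m X T`.  Maximality: if `c1 > c` and `∀ X, c1 ≤ Gp …` then `c1 ∈ K`.
-/

namespace SokalV

open Complex Filter Topology

/-- The lift number `m`. -/
noncomputable def lift (N : ℕ) (ζ : ℂ) (m : ℕ) : ℂ := ζ * cexp (2 * Real.pi * I * m / N)

/-- `c` is the top level: nothing is higher, for no lift. -/
def IsMax (N : ℕ) (u ζ : ℂ) (c : ℝ) : Prop :=
  ∀ m < N, ∀ T c1 : ℝ, c < c1 → ∃ X : ℝ, Gp u (lift N ζ m) X T < c1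

/-- The line `T` of the lift `m` reaches the level `c`. -/
def Reach (N : ℕ) (u ζ : ℂ) (c : ℝ) (m : ℕ) (T : ℝ) : Prop := ∀ X : ℝ, c ≤ Gp u (lift N ζ m) X T

theorem norm_lift (N : ℕ) (ζ : ℂ) (m : ℕ) : ‖lift N ζ m‖ = ‖ζ‖ := by
  unfold lift
  have h1 : (2 * Real.pi * I * m / N : ℂ) = ((2 * Real.pi * m / N : ℝ) : ℂ) * I := by
    push_cast
    ring
  rw [norm_mul, h1, Complex.norm_exp_ofReal_mul_I, mul_one]

/-- Lines which reach a nonnegative level are bounded. -/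
private theorem TopA_bound {N : ℕ} {u ζ : ℂ} (hu : ‖u‖ = 1) (hre : 0 ≤ u.re) (him : 0 ≤ u.im)
    {c : ℝ} (hc : 0 ≤ c) {m : ℕ} {T : ℝ} (h : Reach N u ζ c m T) : |T| ≤ 2 + 6 * ‖ζ‖ := by
  have hz : 0 ≤ ‖ζ‖ := norm_nonneg ζ
  rw [abs_le]
  constructor
  · by_contra hcon
    rw [not_le] at hcon
    have h1 : (1 : ℝ) ≤ -T := by linarith
    have h2 := (Gp_tail (ζ := lift N ζ m) hu hre him h1).2
    rw [neg_neg, norm_lift] at h2
    have h3 := h (-1)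
    linarith
  · by_contra hcon
    rw [not_le] at hcon
    have h1 : (1 : ℝ) ≤ T := by linarith
    have h2 := (Gp_tail (ζ := lift N ζ m) hu hre him h1).1
    rw [norm_lift] at h2
    have h3 := h 1
    linarith

/-- Levels which are reached are at most `‖ζ‖`. -/
private theorem TopA_le {N : ℕ} {u ζ : ℂ} (hu : ‖u‖ = 1) (hre : 0 ≤ u.re)
    {c : ℝ} {m : ℕ} {T : ℝ} (h : Reach N u ζ c m T) : c ≤ ‖ζ‖ := by
  have h1 := h 0
  unfold Gp at h1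
  have h2 : max ((u * lift N ζ m * cexp (T * I)).re) 0 ≤ ‖ζ‖ := by
    refine max_le ?_ (norm_nonneg _)
    refine (Complex.re_le_norm _).trans ?_
    rw [norm_mul, norm_mul, hu, Complex.norm_exp_ofReal_mul_I, one_mul, mul_one, norm_lift]
  rw [Real.exp_zero, one_mul] at h1
  have h3 : 0 ≤ u.re * T ^ 2 := mul_nonneg hre (sq_nonneg T)
  nlinarith

private theorem TopA_cont (u z : ℂ) (X T : ℝ) :
    Tendsto (fun T' : ℝ => Gp u z X T') (𝓝 T) (𝓝 (Gp u z X T)) := by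
  have hc : Continuous (fun T' : ℝ => Gp u z X T') :=
    (continuous_Gp u z).comp (continuous_const.prodMk continuous_id)
  exact hc.tendsto T

/-- Compactness: limits of lines which reach levels tending to `c`. -/
private theorem TopA_compact {N : ℕ} {u ζ : ℂ} (hu : ‖u‖ = 1) (hre : 0 ≤ u.re) (him : 0 ≤ u.im)
    {c : ℝ} {cs : ℕ → ℝ} (hcs : Tendsto cs atTop (𝓝 c)) (hpos : ∀ k, 0 ≤ cs k) {ms : ℕ → ℕ}
    {Ts : ℕ → ℝ} (hm : ∀ k, ms k < N) (hR : ∀ k, Reach N u ζ (cs k) (ms k) (Ts k)) :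
    ∃ m < N, ∃ T : ℝ, ∃ φ : ℕ → ℕ, StrictMono φ ∧ (∀ k, ms (φ k) = m) ∧
      Tendsto (fun k => Ts (φ k)) atTop (𝓝 T) ∧ Reach N u ζ c m T := by
  -- a constant subsequence of `ms`
  have h1 : ∃ m < N, ∃ᶠ k in atTop, ms k = m := by
    by_contra hcon
    push Not at hcon
    have h2 : ∀ᶠ k in atTop, ∀ m ∈ Finset.range N, ms k ≠ m := by
      rw [Filter.eventually_all_finset]
      intro m hmN
      exact hcon m (Finset.mem_range.1 hmN)
    obtain ⟨k, hk⟩ := h2.exists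
    exact hk (ms k) (Finset.mem_range.2 (hm k)) rfl
  obtain ⟨m, hmN, hf⟩ := h1
  obtain ⟨φ, hφ, hφm⟩ := Filter.extraction_of_frequently_atTop hf
  have hb : ∀ k, Ts (φ k) ∈ Set.Icc (-(2 + 6 * ‖ζ‖)) (2 + 6 * ‖ζ‖) := by
    intro k
    have := TopA_bound hu hre him (hpos (φ k)) (hR (φ k))
    rw [abs_le] at this
    exact this
  obtain ⟨T, -, ψ, hψ, hT⟩ := isCompact_Icc.tendsto_subseq hb
  refine ⟨m, hmN, T, φ ∘ ψ, hφ.comp hψ, fun k => hφm _, hT, ?_⟩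
  intro X
  have h3 : Tendsto (fun k => Gp u (lift N ζ m) X (Ts (φ (ψ k)))) atTop
      (𝓝 (Gp u (lift N ζ m) X T)) := by
    exact (TopA_cont u (lift N ζ m) X T).comp hT
  have h5 : Tendsto (fun k => cs (φ (ψ k))) atTop (𝓝 c) :=
    hcs.comp (hφ.comp hψ).tendsto_atTop
  refine le_of_tendsto_of_tendsto' h5 h3 ?_
  intro k
  have h6 := hR (φ (ψ k)) X
  rw [hφm] at h6
  exact h6

private theorem TopA_lim (c : ℝ) : Tendsto (fun k : ℕ => c - c / ((k : ℝ) + 2)) atTop (𝓝 c) := by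
  have h1 : Tendsto (fun k : ℕ => ((k : ℝ) + 2)) atTop atTop :=
    tendsto_atTop_add_const_right _ _ tendsto_natCast_atTop_atTop
  have h2 : Tendsto (fun k : ℕ => c / ((k : ℝ) + 2)) atTop (𝓝 0) := h1.const_div_atTop c
  have h3 := (tendsto_const_nhds (x := c)).sub h2
  rwa [sub_zero] at h3

private theorem TopA_lim_pos' {c : ℝ} (hc : 0 < c) (k : ℕ) :
    0 < c - c / ((k : ℝ) + 2) ∧ c - c / ((k : ℝ) + 2) < c := by
  have hk : (0 : ℝ) ≤ k := Nat.cast_nonneg k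
  constructor
  · rw [sub_pos, div_lt_iff₀ (by positivity)]
    nlinarith
  · have : 0 < c / ((k : ℝ) + 2) := by positivity
    linarith

private theorem TopA_lim_pos {c : ℝ} (hc : 0 < c) (k : ℕ) : 0 ≤ c - c / ((k : ℝ) + 2) :=
  (TopA_lim_pos' hc k).1.le

theorem top_exists {N : ℕ} {u ζ : ℂ} (hu : ‖u‖ = 1) (hre : 0 ≤ u.re) (him : 0 ≤ u.im)
    (h : ∃ m < N, TopPos u (lift N ζ m)) :
    ∃ c : ℝ, 0 < c ∧ IsMax N u ζ c ∧ ∃ m < N, ∃ T : ℝ, Reach N u ζ c m T := by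
  obtain ⟨m0, hm0, T0, ε, hε, h0⟩ := h
  have hne : ({c : ℝ | ∃ m < N, ∃ T : ℝ, Reach N u ζ c m T}).Nonempty := ⟨ε, m0, hm0, T0, h0⟩
  have hbd : BddAbove {c : ℝ | ∃ m < N, ∃ T : ℝ, Reach N u ζ c m T} := by
    refine ⟨‖ζ‖, ?_⟩
    rintro c ⟨m, _, T, hT⟩
    exact TopA_le hu hre hT
  have hle : ∀ c ∈ {c : ℝ | ∃ m < N, ∃ T : ℝ, Reach N u ζ c m T},
      c ≤ sSup {c : ℝ | ∃ m < N, ∃ T : ℝ, Reach N u ζ c m T} := fun c hc => le_csSup hbd hc
  have hlt : ∀ a < sSup {c : ℝ | ∃ m < N, ∃ T : ℝ, Reach N u ζ c m T},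
      ∃ b ∈ {c : ℝ | ∃ m < N, ∃ T : ℝ, Reach N u ζ c m T}, a < b :=
    fun a ha => exists_lt_of_lt_csSup hne ha
  generalize sSup {c : ℝ | ∃ m < N, ∃ T : ℝ, Reach N u ζ c m T} = c at hle hlt
  have hcpos : 0 < c := hε.trans_le (hle ε ⟨m0, hm0, T0, h0⟩)
  refine ⟨c, hcpos, ?_, ?_⟩
  · intro m hm T c1 hc1
    by_contra hcon
    push Not at hcon
    exact absurd (hle c1 ⟨m, hm, T, hcon⟩) (not_le.2 hc1)
  · -- levels tending to `c`
    have h1 : ∀ k : ℕ, ∃ m < N, ∃ T : ℝ, Reach N u ζ (c - c / (k + 2)) m T := by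
      intro k
      have h2 : c - c / (k + 2) < c := by
        have : 0 < c / ((k : ℝ) + 2) := by positivity
        linarith
      obtain ⟨b, ⟨m, hm, T, hT⟩, hb⟩ := hlt _ h2
      exact ⟨m, hm, T, fun X => hb.le.trans (hT X)⟩
    choose ms hms Ts hTs using h1
    obtain ⟨m, hm, T, φ, _, _, _, hR⟩ := TopA_compact hu hre him (TopA_lim c) (TopA_lim_pos hcpos) hms hTs
    exact ⟨m, hm, T, hR⟩

/-- Lines which reach levels close to `c` are close to lines which reach `c`. -/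
theorem top_near {N : ℕ} {u ζ : ℂ} (hu : ‖u‖ = 1) (hre : 0 ≤ u.re) (him : 0 ≤ u.im) {c : ℝ}
    (hc : 0 < c) {δ : ℝ} (hδ : 0 < δ) : ∃ c' : ℝ, 0 < c' ∧ c' < c ∧ ∀ m < N, ∀ T : ℝ,
      Reach N u ζ c' m T → ∃ T' : ℝ, Reach N u ζ c m T' ∧ |T - T'| < δ := by
  by_contra hcon
  have h1 : ∀ k : ℕ, ∃ m < N, ∃ T : ℝ, Reach N u ζ (c - c / (k + 2)) m T ∧
      ∀ T' : ℝ, Reach N u ζ c m T' → δ ≤ |T - T'| := by
    intro k
    by_contra hk
    refine hcon ⟨c - c / (k + 2), (TopA_lim_pos' hc k).1, (TopA_lim_pos' hc k).2, ?_⟩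
    intro m hm T hT
    by_contra hT'
    refine hk ⟨m, hm, T, hT, ?_⟩
    intro T' hR
    by_contra hδ'
    exact hT' ⟨T', hR, not_le.1 hδ'⟩
  choose ms hms Ts hTs hfar using h1
  obtain ⟨m, hm, T, φ, _, hφm, hφT, hR⟩ :=
    TopA_compact hu hre him (TopA_lim c) (TopA_lim_pos hc) hms hTs
  obtain ⟨k, hk⟩ := ((Metric.tendsto_nhds.1 hφT) δ hδ).exists
  rw [Real.dist_eq] at hk
  have h2 := hfar (φ k) T (by rw [hφm]; exact hR)
  exact absurd hk (not_lt.2 h2)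

end SokalV
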