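import Pool.Agent.Lib_MP_af4de1_v.Val
import Pool.Agent.Lib_MP_af4de1_v.TopA

/-!
# No multiple zeros along a sequence if the limit contours are good [SV-MT]

`∑_{m<N} length (L m) ∈ {1,2}`.
CASE one list `[S]` (lift `μ`), all others `[]`: `val_one` for `μ`, `val_nil` for the others (`ζ n` replaced by `lift N (ζ n) m`, which tends to
`lift N ζ0 m`; `Par` for the lift).  Multiply the first equation by `√(2πt)·I`: `g_μ J + R = 0`, `R` `Small` at the maximum `c'`
of the finitely many levels: `lin_one`.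
CASE one list `[S,S']`, `S ≠ S'` (`Nodup`): `val_two`, `lin_two` with `w = -S`, `w' = -S'`; multiply the second equation by
`t √(2πt) I`; the errors of the other lifts are `Small` at `c' < c`, so `≤ ε‖J‖` eventually by `Big`.
CASE two lifts `μ ≠ ν` with `[S]`, `[S']`: `S ≠ S'` because `S = -lift·e^S` (`good_crit`) would give `lift N ζ0 μ = lift N ζ0 ν`, impossible for
`ζ0 ≠ 0`, `μ ≠ ν < N`.  `lin_two`.
-/

namespace SokalV

open Complex Filter Topology

theorem lift_injective {N : ℕ} {ζ : ℂ} (hζ : ζ ≠ 0) {m m' : ℕ} (hm : m < N) (hm' : m' < N)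
    (h : lift N ζ m = lift N ζ m') : m = m' := by
  have hN : N ≠ 0 := by omega
  have e : ∀ k : ℕ, lift N ζ k = ζ * cexp (2 * Real.pi * I / N) ^ k := by
    intro k
    unfold lift
    rw [← Complex.exp_nat_mul]
    congr 2
    ring
  rw [e, e] at h
  exact (Complex.isPrimitiveRoot_exp N hN).pow_inj hm hm' (mul_left_cancel₀ hζ h)

private theorem MT_par {N : ℕ} {t ζ : ℕ → ℂ} {ζ0 u0 : ℂ} (h : Par t ζ ζ0 u0) (m : ℕ) :
    Par t (fun n => lift N (ζ n) m) (lift N ζ0 m) u0 :=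
  ⟨h.ne, h.re, h.im, h.lim, h.dir, h.zet.mul_const _⟩

/-- `e` and `d` are given by the saddle point contributions in the list `l` (coefficient, saddle
point, contribution) up to smaller terms. -/
private def Rp (τ : ℕ → ℝ) (c : ℝ) (e d : ℕ → ℂ) (l : List (ℂ × ℂ × (ℕ → ℂ))) : Prop :=
  (∀ p ∈ l, p.1 ≠ 0 ∧ Big τ c p.2.2) ∧ ∃ c' : ℝ, c' < c ∧ ∃ C : ℝ, 0 ≤ C ∧
    (∀ᶠ n in atTop, ‖e n - (l.map fun p => p.1 * p.2.2 n).sum‖ ≤ C * Real.exp (c' / τ n)) ∧
    ∀ ε : ℝ, 0 < ε → ∀ᶠ n in atTop, ‖d n + (l.map fun p => p.1 * p.2.1 * p.2.2 n).sum‖ ≤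
      ε * (l.map fun p => ‖p.2.2 n‖).sum + C * Real.exp (c' / τ n)

private theorem Rp_zero (τ : ℕ → ℝ) (c : ℝ) : Rp τ c (fun _ => 0) (fun _ => 0) [] := by
  refine ⟨by simp, c - 1, by linarith, 0, le_rfl, ?_, ?_⟩
  · simp
  · intro ε _
    simp

private theorem Rp_add {τ : ℕ → ℝ} (hτ : ∀ n, 0 < τ n) {c : ℝ} {e d e' d' : ℕ → ℂ}
    {l l' : List (ℂ × ℂ × (ℕ → ℂ))} (h : Rp τ c e d l) (h' : Rp τ c e' d' l') :
    Rp τ c (fun n => e n + e' n) (fun n => d n + d' n) (l ++ l') := by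
  obtain ⟨hb, c1, hc1, C1, hC1, h1, h2⟩ := h
  obtain ⟨hb', c2, hc2, C2, hC2, h1', h2'⟩ := h'
  have key : ∀ n, C1 * Real.exp (c1 / τ n) + C2 * Real.exp (c2 / τ n) ≤
      (C1 + C2) * Real.exp (max c1 c2 / τ n) := by
    intro n
    have a1 : Real.exp (c1 / τ n) ≤ Real.exp (max c1 c2 / τ n) :=
      Real.exp_le_exp.2 (div_le_div_of_nonneg_right (le_max_left _ _) (hτ n).le)
    have a2 : Real.exp (c2 / τ n) ≤ Real.exp (max c1 c2 / τ n) :=
      Real.exp_le_exp.2 (div_le_div_of_nonneg_right (le_max_right _ _) (hτ n).le)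
    have b1 := mul_le_mul_of_nonneg_left a1 hC1
    have b2 := mul_le_mul_of_nonneg_left a2 hC2
    rw [add_mul]
    exact add_le_add b1 b2
  refine ⟨?_, max c1 c2, max_lt hc1 hc2, C1 + C2, add_nonneg hC1 hC2, ?_, ?_⟩
  · intro p hp
    rcases List.mem_append.1 hp with hp | hp
    · exact hb p hp
    · exact hb' p hp
  · filter_upwards [h1, h1'] with n k k'
    rw [List.map_append, List.sum_append]
    refine le_trans ?_ ((add_le_add k k').trans (key n))
    refine le_trans (le_of_eq ?_) (norm_add_le _ _)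
    congr 1
    ring
  · intro ε hε
    filter_upwards [h2 ε hε, h2' ε hε] with n k k'
    simp only [List.map_append, List.sum_append]
    have k2 := (norm_add_le (d n + (l.map fun p => p.1 * p.2.1 * p.2.2 n).sum)
      (d' n + (l'.map fun p => p.1 * p.2.1 * p.2.2 n).sum)).trans (add_le_add k k')
    have k3 : d n + d' n + ((l.map fun p => p.1 * p.2.1 * p.2.2 n).sum +
        (l'.map fun p => p.1 * p.2.1 * p.2.2 n).sum) =
        d n + (l.map fun p => p.1 * p.2.1 * p.2.2 n).sum +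
        (d' n + (l'.map fun p => p.1 * p.2.1 * p.2.2 n).sum) := by ring
    rw [k3]
    have k4 := key n
    rw [mul_add]
    linarith

private theorem Rp_one {τ : ℕ → ℝ} {c : ℝ} {e d : ℕ → ℂ} {g : ℂ} (hg : g ≠ 0)
    (l : List (ℂ × (ℕ → ℂ))) (hb : ∀ p ∈ l, Big τ c p.2) {c' : ℝ} (hc' : c' < c)
    (h1 : Small τ c' (fun n => e n - (l.map fun p => p.2 n).sum))
    (h2 : ∃ C : ℝ, 0 ≤ C ∧ ∀ ε : ℝ, 0 < ε → ∀ᶠ n in atTop,
      ‖d n + (l.map fun p => p.1 * p.2 n).sum‖ ≤
      ε * (l.map fun p => ‖p.2 n‖).sum + C * Real.exp (c' / τ n)) :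
    Rp τ c (fun n => g * e n) (fun n => g * d n) (l.map fun p => (g, p.1, p.2)) := by
  obtain ⟨C1, h1⟩ := h1
  obtain ⟨C2, hC2, h2⟩ := h2
  have hg' : 0 < ‖g‖ := norm_pos_iff.2 hg
  have hs1 : ∀ n, ((l.map fun p => ((g, p.1, p.2) : ℂ × ℂ × (ℕ → ℂ))).map fun p =>
      p.1 * p.2.2 n).sum = g * (l.map fun p => p.2 n).sum := by
    intro n
    rw [List.map_map, ← List.sum_map_mul_left]
    rfl
  have hs2 : ∀ n, ((l.map fun p => ((g, p.1, p.2) : ℂ × ℂ × (ℕ → ℂ))).map fun p =>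
      p.1 * p.2.1 * p.2.2 n).sum = g * (l.map fun p => p.1 * p.2 n).sum := by
    intro n
    rw [List.map_map, ← List.sum_map_mul_left]
    congr 1
    refine List.map_congr_left fun p _ => ?_
    show g * p.1 * p.2 n = g * (p.1 * p.2 n)
    ring
  have hs3 : ∀ n, ((l.map fun p => ((g, p.1, p.2) : ℂ × ℂ × (ℕ → ℂ))).map fun p =>
      ‖p.2.2 n‖).sum = (l.map fun p => ‖p.2 n‖).sum := by
    intro n
    rw [List.map_map]
    rfl
  refine ⟨?_, c', hc', ‖g‖ * (|C1| + C2), by positivity, ?_, ?_⟩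
  · intro p hp
    obtain ⟨p', hp', rfl⟩ := List.mem_map.1 hp
    exact ⟨hg, hb p' hp'⟩
  · filter_upwards [h1] with n k
    rw [hs1, ← mul_sub, norm_mul, mul_assoc]
    refine mul_le_mul_of_nonneg_left (k.trans ?_) hg'.le
    have : C1 ≤ |C1| + C2 := by linarith [le_abs_self C1]
    exact mul_le_mul_of_nonneg_right this (Real.exp_pos _).le
  · intro ε hε
    filter_upwards [h2 (ε / ‖g‖) (div_pos hε hg')] with n k
    rw [hs2, hs3, ← mul_add, norm_mul]
    have k2 := mul_le_mul_of_nonneg_left k hg'.le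
    refine k2.trans ?_
    have e1 : ‖g‖ * (ε / ‖g‖ * (l.map fun p => ‖p.2 n‖).sum + C2 * Real.exp (c' / τ n)) =
        ε * (l.map fun p => ‖p.2 n‖).sum + ‖g‖ * C2 * Real.exp (c' / τ n) := by
      field_simp
    rw [e1]
    have e2 : ‖g‖ * C2 ≤ ‖g‖ * (|C1| + C2) :=
      mul_le_mul_of_nonneg_left (by linarith [abs_nonneg C1]) hg'.le
    have e3 := mul_le_mul_of_nonneg_right e2 (Real.exp_pos (c' / τ n)).le
    linarith

/-- the contribution of one lift -/
private theorem MT_lift {t z : ℕ → ℂ} {z0 u0 : ℂ} (h : Par t z z0 u0) {c : ℝ} {L : List ℂ}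
    (hg : Good u0 z0 c L) (hL : L.length ≤ 2) {g : ℂ} (hg0 : g ≠ 0) :
    ∃ l : List (ℂ × ℂ × (ℕ → ℂ)), (l.map fun p => p.2.1) = L ∧
      Rp (fun n => ‖t n‖) c (fun n => g * Ev (t n) (z n)) (fun n => g * Dv (t n) (z n)) l := by
  match L, hg, hL with
  | [], hg, _ =>
    obtain ⟨c', hc', k1, C, k2⟩ := val_nil h hg
    refine ⟨[], rfl, ?_⟩
    refine Rp_one hg0 [] (by simp) hc' (by simpa using k1) ⟨|C|, abs_nonneg C, fun ε _ => ?_⟩
    filter_upwards [k2] with n k
    simp only [List.map_nil, List.sum_nil, add_zero, mul_zero, zero_add]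
    exact k.trans (mul_le_mul_of_nonneg_right (le_abs_self C) (Real.exp_pos _).le)
  | [S], hg, _ =>
    obtain ⟨c', hc', J, hJ, k1, k2⟩ := val_one h hg
    refine ⟨[(g, S, J)], rfl, ?_⟩
    refine Rp_one hg0 [(S, J)] (by simpa using hJ) hc' (by simpa using k1)
      ⟨0, le_rfl, fun ε hε => ?_⟩
    filter_upwards [k2 ε hε] with n k
    simpa using k
  | [S, S'], hg, _ =>
    obtain ⟨c', hc', J, J', hJ, hJ', k1, k2⟩ := val_two h hg
    refine ⟨[(g, S, J), (g, S', J')], rfl, ?_⟩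
    refine Rp_one hg0 [(S, J), (S', J')] ?_ hc' ?_ ⟨0, le_rfl, fun ε hε => ?_⟩
    · intro p hp
      simp only [List.mem_cons, List.not_mem_nil, or_false] at hp
      rcases hp with rfl | rfl
      · exact hJ
      · exact hJ'
    · obtain ⟨C, k1⟩ := k1
      refine ⟨C, ?_⟩
      filter_upwards [k1] with n k
      simpa [sub_sub] using k
    · filter_upwards [k2 ε hε] with n k
      simpa [add_assoc] using k
  | _ :: _ :: _ :: _, _, hL =>
    exact absurd hL (by simp)

private theorem MT_absorb {τ : ℕ → ℝ} (hτ : ∀ n, 0 < τ n) (hτ0 : Tendsto τ atTop (𝓝 0))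
    {c c' : ℝ} (hc : c' < c) {J : ℕ → ℂ} (hJ : Big τ c J) (C ε : ℝ) (hε : 0 < ε) :
    ∀ᶠ n in atTop, C * Real.exp (c' / τ n) ≤ ε * ‖J n‖ := by
  set k : ℝ := (c - c') / 2 with hk
  have hk0 : 0 < k := by rw [hk]; linarith
  have h1 : Tendsto (fun n => k * (τ n)⁻¹) atTop atTop :=
    (tendsto_inv_nhdsGT_zero.comp (tendsto_nhdsWithin_iff.2
      ⟨hτ0, Eventually.of_forall fun n => hτ n⟩)).const_mul_atTop hk0
  have h2 := (Real.tendsto_exp_atTop.comp h1).eventually_ge_atTop (C / ε)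
  filter_upwards [h2, hJ k hk0] with n a b
  have a' : C / ε ≤ Real.exp (k * (τ n)⁻¹) := a
  have e1 : (c - k) / τ n = k * (τ n)⁻¹ + c' / τ n := by
    have : c - k = k + c' := by rw [hk]; ring
    rw [this, add_div, div_eq_mul_inv]
  rw [e1, Real.exp_add] at b
  have a2 : C ≤ ε * Real.exp (k * (τ n)⁻¹) := by
    rw [div_le_iff₀ hε] at a'
    linarith
  calc C * Real.exp (c' / τ n) ≤ ε * Real.exp (k * (τ n)⁻¹) * Real.exp (c' / τ n) :=
        mul_le_mul_of_nonneg_right a2 (Real.exp_pos _).le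
    _ = ε * (Real.exp (k * (τ n)⁻¹) * Real.exp (c' / τ n)) := by ring
    _ ≤ ε * ‖J n‖ := mul_le_mul_of_nonneg_left b hε.le

private theorem MT_final {τ : ℕ → ℝ} (hτ : ∀ n, 0 < τ n) (hτ0 : Tendsto τ atTop (𝓝 0)) {c : ℝ}
    {l : List (ℂ × ℂ × (ℕ → ℂ))} (h : Rp τ c (fun _ => 0) (fun _ => 0) l)
    (h1 : 1 ≤ l.length) (h2 : l.length ≤ 2) (hn : (l.map fun p => p.2.1).Nodup) : False := by
  obtain ⟨hb, c', hc', C, hC, k1, k2⟩ := h
  match l, h1, h2, hb, k1, k2, hn with
  | [], h1, _, _, _, _, _ => simp at h1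
  | [(a, S, J)], _, _, hb, k1, _, _ =>
    obtain ⟨ha, hJ⟩ := hb (a, S, J) (by simp)
    refine lin_one hτ hτ0 hc' hJ (R := fun n => -(a * J n)) ⟨C, ?_⟩ ha
      (Eventually.of_forall fun n => add_neg_cancel _).frequently
    filter_upwards [k1] with n k
    simpa using k
  | [(a, S, J), (b, S', J')], _, _, hb, k1, k2, hn =>
    obtain ⟨ha, hJ⟩ := hb (a, S, J) (by simp)
    obtain ⟨hb', hJ'⟩ := hb (b, S', J') (by simp)
    have hS : S ≠ S' := by
      intro e
      subst e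
      simp at hn
    refine lin_two hτ hτ0 hc' hJ hJ' (R := fun n => -(a * J n + b * J' n))
      (E := fun n => a * S * J n + b * S' * J' n) (w := -S) (w' := -S') ⟨C, ?_⟩ ?_ ha hb'
      (fun e => hS (neg_injective e))
      (Eventually.of_forall fun n => ⟨by ring, by ring⟩).frequently
    · filter_upwards [k1] with n k
      rw [norm_neg]
      simp only [List.map_cons, List.map_nil, List.sum_cons, List.sum_nil, add_zero, zero_sub,
        norm_neg] at k
      exact k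
    · intro ε hε
      filter_upwards [k2 (ε / 2) (half_pos hε), MT_absorb hτ hτ0 hc' hJ C (ε / 2) (half_pos hε)]
        with n k k'
      simp only [List.map_cons, List.map_nil, List.sum_cons, List.sum_nil, add_zero,
        zero_add] at k
      have k3 : 0 ≤ ε / 2 * ‖J' n‖ := by positivity
      calc _ ≤ _ := k
        _ ≤ ε * (‖J n‖ + ‖J' n‖) := by
          rw [mul_add] at k ⊢
          nlinarith [k', k3]
  | _ :: _ :: _ :: _, _, h2, _, _, _, _ =>
    exact absurd h2 (by simp)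

theorem mt {N : ℕ} (hN : 0 < N) {g : ℕ → ℂ} (hg : ∀ m, g m ≠ 0) {t ζ : ℕ → ℂ} {ζ0 u0 : ℂ}
    (h : Par t ζ ζ0 u0) (hζ0 : ζ0 ≠ 0) {c : ℝ} {L : ℕ → List ℂ}
    (hgood : ∀ m < N, Good u0 (lift N ζ0 m) c (L m)) (hnd : ∀ m < N, (L m).Nodup)
    (h1 : 1 ≤ ∑ m ∈ Finset.range N, (L m).length)
    (h2 : ∑ m ∈ Finset.range N, (L m).length ≤ 2)
    (hE : ∀ n, ∑ m ∈ Finset.range N, g m * SokalU.E (t n) (lift N (ζ n) m / t n * cexp (-t n / 2)) = 0)
    (hD : ∀ n, ∑ m ∈ Finset.range N,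
      g m * SokalU.DE (t n) (lift N (ζ n) m / t n * cexp (-t n / 2)) = 0) : False := by
  have hτ : ∀ n, 0 < ‖t n‖ := fun n => norm_pos_iff.2 (h.ne n)
  have hτ0 : Tendsto (fun n => ‖t n‖) atTop (𝓝 0) := by simpa using h.lim.norm
  have key : ∀ k ≤ N, ∃ l : List (ℂ × ℂ × (ℕ → ℂ)),
      Rp (fun n => ‖t n‖) c (fun n => ∑ m ∈ Finset.range k, g m * Ev (t n) (lift N (ζ n) m))
        (fun n => ∑ m ∈ Finset.range k, g m * Dv (t n) (lift N (ζ n) m)) l ∧
      l.length = ∑ m ∈ Finset.range k, (L m).length ∧ (l.map fun p => p.2.1).Nodup ∧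
      ∀ S ∈ l.map fun p => p.2.1, ∃ m < k, S ∈ L m := by
    intro k
    induction k with
    | zero =>
      intro _
      refine ⟨[], ?_, by simp, by simp, by simp⟩
      simpa using Rp_zero (fun n => ‖t n‖) c
    | succ k ih =>
      intro hk
      obtain ⟨l, l1, l2, l3, l4⟩ := ih (by omega)
      have hlen : (L k).length ≤ 2 :=
        (Finset.single_le_sum (f := fun m => (L m).length) (fun m _ => Nat.zero_le _)
          (Finset.mem_range.2 (by omega : k < N))).trans h2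
      obtain ⟨l', m1, m2⟩ := MT_lift (MT_par h k) (hgood k (by omega)) hlen (hg k)
      refine ⟨l ++ l', ?_, ?_, ?_, ?_⟩
      · simp only [Finset.sum_range_succ]
        exact Rp_add hτ l1 m2
      · rw [Finset.sum_range_succ, List.length_append, l2, ← m1, List.length_map]
      · rw [List.map_append, List.nodup_append']
        refine ⟨l3, by rw [m1]; exact hnd k (by omega), ?_⟩
        intro S hS hS'
        rw [m1] at hS'
        obtain ⟨m, hm, hSm⟩ := l4 S hS
        have c1 := good_crit (hgood k (by omega)) hS'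
        have c2 := good_crit (hgood m (by omega)) hSm
        have c3 : lift N ζ0 m = lift N ζ0 k := by
          have c4 : lift N ζ0 m * cexp S = lift N ζ0 k * cexp S := by
            linear_combination c2 - c1
          exact mul_right_cancel₀ (Complex.exp_ne_zero S) c4
        have := lift_injective hζ0 (by omega) (by omega) c3
        omega
      · intro S hS
        rw [List.map_append, List.mem_append] at hS
        rcases hS with hS | hS
        · obtain ⟨m, hm, hSm⟩ := l4 S hS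
          exact ⟨m, by omega, hSm⟩
        · rw [m1] at hS
          exact ⟨k, by omega, hS⟩
  obtain ⟨l, l1, l2, l3, _⟩ := key N le_rfl
  have e1 : (fun n => ∑ m ∈ Finset.range N, g m * Ev (t n) (lift N (ζ n) m)) = fun _ => 0 := by
    funext n
    have : ∀ m ∈ Finset.range N, g m * Ev (t n) (lift N (ζ n) m) =
        g m * SokalU.E (t n) (lift N (ζ n) m / t n * cexp (-t n / 2)) *
          ((2 * Real.pi * t n) ^ (1 / 2 : ℂ) * I) := by
      intro m _
      unfold Ev
      ring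
    rw [Finset.sum_congr rfl this, ← Finset.sum_mul, hE n, zero_mul]
  have e2 : (fun n => ∑ m ∈ Finset.range N, g m * Dv (t n) (lift N (ζ n) m)) = fun _ => 0 := by
    funext n
    have : ∀ m ∈ Finset.range N, g m * Dv (t n) (lift N (ζ n) m) =
        g m * SokalU.DE (t n) (lift N (ζ n) m / t n * cexp (-t n / 2)) *
          (t n * (2 * Real.pi * t n) ^ (1 / 2 : ℂ) * I) := by
      intro m _
      unfold Dv
      ring
    rw [Finset.sum_congr rfl this, ← Finset.sum_mul, hD n, zero_mul]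
  rw [e1, e2] at l1
  exact MT_final hτ hτ0 l1 (by rw [l2]; exact h1) (by rw [l2]; exact h2) l3

end SokalV
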