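import Pool.Agent.Lib_MP_af4de1_v.N1Defs

/-!
# The case `N = 1`: connections in the coordinates `(Y, s)`, saddles, reflection
-/

namespace SokalN

open SokalV Complex Filter Topology Set

variable {G : ℂ → ℝ} {c c1 : ℝ} {A B D : ℂ}

theorem SC.symm (h : SC G c A B) : SC G c B A := by
  obtain ⟨c', h1, h2⟩ := h
  exact ⟨c', h1, h2.symm⟩

theorem SC.trans (h : SC G c A B) (h' : SC G c B D) : SC G c A D := by
  obtain ⟨c', h1, h2⟩ := h
  obtain ⟨c'', k1, k2⟩ := h'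
  exact ⟨max c' c'', max_lt h1 k1, (h2.mono (le_max_left _ _)).trans (k2.mono (le_max_right _ _))⟩

theorem SC.mono (h : SC G c A B) (hc : c ≤ c1) : SC G c1 A B := by
  obtain ⟨c', h1, h2⟩ := h
  exact ⟨c', h1.trans_le hc, h2⟩

theorem SC.refl (h : G A < c) : SC G c A A := by
  obtain ⟨c', h1, h2⟩ := exists_between h
  exact ⟨c', h2, Conn.refl h1⟩

/-- Along a continuous path. -/
theorem SC.path {f : ℝ → ℂ} {s1 s2 : ℝ} (h12 : s1 ≤ s2) (hf : ContinuousOn f (Icc s1 s2))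
    (hG : Continuous G) (h : ∀ s ∈ Icc s1 s2, G (f s) < c) : SC G c (f s1) (f s2) := by
  obtain ⟨s0, hs0, hmax⟩ := isCompact_Icc.exists_isMaxOn (nonempty_Icc.2 h12)
    (hG.comp_continuousOn hf)
  obtain ⟨c', hc1, hc2⟩ := exists_between (h s0 hs0)
  refine ⟨c', hc2, f '' Icc s1 s2, isPreconnected_Icc.image _ hf,
    ⟨s1, left_mem_Icc.2 h12, rfl⟩, ⟨s2, right_mem_Icc.2 h12, rfl⟩, ?_⟩
  rintro H ⟨s, hs, rfl⟩
  exact (hmax hs).trans_lt hc1

theorem hasDerivAt_Ph (ζ H : ℂ) : HasDerivAt (Ph ζ) (H + ζ * cexp H) H := by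
  have h1 : HasDerivAt (fun H : ℂ => H ^ 2 / 2) (2 * H ^ 1 * 1 / 2) H := by
    simpa using ((hasDerivAt_id H).pow 2).div_const 2
  have h2 := h1.add ((Complex.hasDerivAt_exp H).const_mul ζ)
  have e : (2 * H ^ 1 * 1 / 2 + ζ * cexp H : ℂ) = H + ζ * cexp H := by ring
  rw [e] at h2
  exact h2

theorem deriv_Ph (ζ : ℂ) : deriv (Ph ζ) = fun H => H + ζ * cexp H :=
  funext fun H => (hasDerivAt_Ph ζ H).deriv

theorem deriv_deriv_Ph (ζ H : ℂ) : deriv (deriv (Ph ζ)) H = 1 + ζ * cexp H := by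
  rw [deriv_Ph]
  exact ((hasDerivAt_id H).add ((Complex.hasDerivAt_exp H).const_mul ζ)).deriv

theorem Ph_add {ζ S : ℂ} (h1 : S + ζ * cexp S = 0) (h : ℂ) :
    Ph ζ (S + h) - Ph ζ S = (1 - S) * h ^ 2 / 2 - S * (cexp h - (1 + h + h ^ 2 / 2)) := by
  have h2 : ζ * cexp S = -S := by linear_combination h1
  have h3 : ζ * cexp (S + h) = -S * cexp h := by rw [Complex.exp_add, ← mul_assoc, h2]
  rw [Ph, Ph, h3, h2]
  ring

/-- A simple critical point of the phase with a descent direction. -/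
theorem sad_of_desc {u ζ S v : ℂ} (h1 : S + ζ * cexp S = 0) (h2 : (u * (1 - S) * v ^ 2).re < 0) :
    ∃ δ0 > 0, ∀ δ : ℝ, 0 < δ → δ ≤ δ0 → Sad u (Ph ζ) ((u * Ph ζ S).re) S (δ * v) := by
  set κ := -(u * (1 - S) * v ^ 2).re with hκ
  have hκ0 : 0 < κ := by linarith
  set M := ‖u‖ * ‖S‖ * ‖v‖ ^ 3 with hM
  have hM0 : 0 ≤ M := by positivity
  have hv0 : 0 ≤ ‖v‖ := norm_nonneg v
  refine ⟨min (1 / (‖v‖ + 1)) (κ / (2 * (M + 1))), by positivity, fun δ hδ hδ0 => ?_⟩
  have hδ1 : δ ≤ 1 / (‖v‖ + 1) := hδ0.trans (min_le_left _ _)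
  have hδ2 : δ ≤ κ / (2 * (M + 1)) := hδ0.trans (min_le_right _ _)
  rw [le_div_iff₀ (by positivity)] at hδ1 hδ2
  refine ⟨?_, rfl, ?_, ?_⟩
  · rw [deriv_Ph]; exact h1
  · rw [deriv_deriv_Ph]
    have e : u * (1 + ζ * cexp S) * ((δ : ℂ) * v) ^ 2
        = ((δ ^ 2 : ℝ) : ℂ) * (u * (1 - S) * v ^ 2) := by
      have h3 : ζ * cexp S = -S := by linear_combination h1
      rw [h3]; push_cast; ring
    rw [e, Complex.re_ofReal_mul]
    exact mul_neg_of_pos_of_neg (by positivity) h2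
  · intro s hs hs0
    set x : ℝ := s * δ with hx
    have hx0 : x ≠ 0 := mul_ne_zero hs0 hδ.ne'
    have hxa : 0 < |x| := abs_pos.2 hx0
    have hxδ : |x| ≤ δ := by
      rw [hx, abs_mul, abs_of_pos hδ]
      nlinarith only [hδ, hs]
    have e1 : S + (s : ℂ) * ((δ : ℂ) * v) = S + (x : ℂ) * v := by rw [hx]; push_cast; ring
    rw [e1]
    have e2 := Ph_add h1 ((x : ℂ) * v)
    have e3 : u * Ph ζ (S + x * v) = u * Ph ζ S + ((x ^ 2 / 2 : ℝ) : ℂ) * (u * (1 - S) * v ^ 2)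
        - u * S * (cexp (x * v) - (1 + x * v + (x * v) ^ 2 / 2)) := by
      push_cast
      linear_combination u * e2
    have hn : ‖(x : ℂ) * v‖ = |x| * ‖v‖ := by rw [norm_mul, Complex.norm_real, Real.norm_eq_abs]
    have hn1 : ‖(x : ℂ) * v‖ ≤ 1 := by
      rw [hn]
      nlinarith only [hδ1, hxa, hxδ]
    have hb := Complex.exp_bound hn1 (n := 3) (by norm_num)
    have hb2 : ‖cexp (x * v) - (1 + x * v + (x * v) ^ 2 / 2)‖ ≤ (|x| * ‖v‖) ^ 3 := by
      have e4 : (∑ m ∈ Finset.range 3, ((x : ℂ) * v) ^ m / (m.factorial : ℂ))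
          = 1 + x * v + (x * v) ^ 2 / 2 := by
        simp [Finset.sum_range_succ, Nat.factorial]
      rw [e4, hn] at hb
      refine hb.trans ?_
      have h5 : (0 : ℝ) ≤ (|x| * ‖v‖) ^ 3 := by positivity
      have h6 : ((Nat.succ 3 : ℕ) : ℝ) * ((Nat.factorial 3 : ℕ) * (3 : ℕ) : ℝ)⁻¹ ≤ 1 := by
        norm_num [Nat.factorial]
      calc _ ≤ (|x| * ‖v‖) ^ 3 * 1 := mul_le_mul_of_nonneg_left h6 h5
        _ = _ := mul_one _
    rw [e3, Complex.sub_re, Complex.add_re, Complex.re_ofReal_mul]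
    have h7 : -(u * S * (cexp (x * v) - (1 + x * v + (x * v) ^ 2 / 2))).re ≤ M * |x| ^ 3 := by
      calc -(u * S * (cexp (x * v) - (1 + x * v + (x * v) ^ 2 / 2))).re
          ≤ ‖u * S * (cexp (x * v) - (1 + x * v + (x * v) ^ 2 / 2))‖ :=
            (neg_le_abs _).trans (Complex.abs_re_le_norm _)
        _ = ‖u‖ * ‖S‖ * ‖cexp (x * v) - (1 + x * v + (x * v) ^ 2 / 2)‖ := by
            rw [norm_mul, norm_mul]
        _ ≤ ‖u‖ * ‖S‖ * (|x| * ‖v‖) ^ 3 := by gcongr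
        _ = M * |x| ^ 3 := by rw [hM]; ring
    have h8 : x ^ 2 = |x| ^ 2 := (sq_abs x).symm
    have h9 : (u * (1 - S) * v ^ 2).re = -κ := by rw [hκ]; ring
    rw [h9, h8]
    have h10 : M * |x| < κ / 2 := by
      have : (M + 1) * |x| ≤ (M + 1) * δ := mul_le_mul_of_nonneg_left hxδ (by positivity)
      linarith only [hδ2, hxa, this]
    have h11 : 0 < |x| ^ 2 := by positivity
    linarith only [h7, mul_lt_mul_of_pos_left h10 h11]

namespace Par

variable (p : Par)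

theorem hu : ‖p.u‖ = 1 := by
  have : ‖p.u‖ ^ 2 = 1 := by
    rw [← Complex.normSq_eq_norm_sq, Complex.normSq_apply]
    have := p.hab
    simp only [u]
    linarith only [this]
  nlinarith only [this, norm_nonneg p.u]

theorem u_mul_zeta : p.u * p.ζ = p.r * cexp (p.φ * I) := by
  have : p.u * (⟨p.a, -p.b⟩ : ℂ) = 1 := by
    have := p.hab
    apply Complex.ext <;> simp [u] <;> nlinarith
  rw [ζ, ← mul_assoc, this, one_mul]

theorem continuous_G : Continuous p.G := by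
  unfold G Ph
  fun_prop

theorem pt_eq (Y s : ℝ) : p.pt Y s = Y + p.b * s + p.a * s * I := by
  apply Complex.ext <;> simp [pt]

theorem pt_add (Y s V W δ : ℝ) : p.pt (Y + δ * V) (s + δ * W) = p.pt Y s + δ * p.pt V W := by
  simp only [pt_eq]; push_cast; ring

theorem pt_sub (Y s V W δ : ℝ) : p.pt (Y - δ * V) (s - δ * W) = p.pt Y s - δ * p.pt V W := by
  simp only [pt_eq]; push_cast; ring

theorem u_mul_zeta_mul_exp (Y s : ℝ) : p.u * (p.ζ * cexp (p.pt Y s)) =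
    ((p.r * Real.exp (p.b * s) * Real.exp Y : ℝ) : ℂ) *
      (Real.cos (p.a * s + p.φ) + Real.sin (p.a * s + p.φ) * I) := by
  rw [← mul_assoc, u_mul_zeta, pt_eq]
  have : cexp (Y + p.b * s + p.a * s * I) =
      cexp Y * cexp (p.b * s) * cexp (p.a * s * I) := by
    rw [← Complex.exp_add, ← Complex.exp_add]
  rw [this]
  have h2 : cexp (p.φ * I) * cexp (p.a * s * I) =
      Real.cos (p.a * s + p.φ) + Real.sin (p.a * s + p.φ) * I := by
    rw [← Complex.exp_add]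
    have : (p.φ * I + p.a * s * I : ℂ) = ((p.a * s + p.φ : ℝ) : ℂ) * I := by push_cast; ring
    rw [this, Complex.exp_mul_I, Complex.ofReal_cos, Complex.ofReal_sin]
  rw [← h2]
  push_cast
  ring

/-- The height in the coordinates `(Y, s)`. -/
theorem G_pt (Y s : ℝ) : p.G (p.pt Y s) = p.a * p.g Y s := by
  have h1 : p.G (p.pt Y s) = (p.u * (p.pt Y s) ^ 2 / 2 + p.u * (p.ζ * cexp (p.pt Y s))).re := by
    show (p.u * Ph p.ζ (p.pt Y s)).re = _
    rw [Ph]; congr 1; ring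
  rw [h1, u_mul_zeta_mul_exp, Complex.add_re, Complex.re_ofReal_mul]
  have h2 : (((Real.cos (p.a * s + p.φ) : ℝ) : ℂ) + ((Real.sin (p.a * s + p.φ) : ℝ) : ℂ) * I).re =
      Real.cos (p.a * s + p.φ) := by
    rw [Complex.add_re, Complex.ofReal_re, Complex.re_ofReal_mul, Complex.I_re]; ring
  have h3 : (p.u * (p.pt Y s) ^ 2 / 2).re = p.a * ((Y ^ 2 - s ^ 2) / 2) := by
    have e1 : p.u * (p.pt Y s) ^ 2 / 2 =
        (((p.a * ((Y + p.b * s) ^ 2 - (p.a * s) ^ 2) - p.b * (2 * (Y + p.b * s) * (p.a * s))) / 2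
          : ℝ) : ℂ) + (((p.b * ((Y + p.b * s) ^ 2 - (p.a * s) ^ 2)
          + p.a * (2 * (Y + p.b * s) * (p.a * s))) / 2 : ℝ) : ℂ) * I := by
      have e2 : p.u = p.a + p.b * I := by apply Complex.ext <;> simp [u]
      rw [pt_eq, e2]
      push_cast
      have hI : I ^ 2 = -1 := Complex.I_sq
      linear_combination ((p.a : ℂ) * (p.a * s) ^ 2 / 2 + p.b * (p.a * s) ^ 2 * I / 2
        + p.b * (Y + p.b * s) * (p.a * s)) * hI
    rw [e1]
    simp only [Complex.add_re, Complex.ofReal_re, Complex.re_ofReal_mul, Complex.I_re, mul_zero,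
      add_zero]
    have := p.hab
    linear_combination (p.a * s ^ 2 / 2 * (-1)) * this
  rw [h2, h3, g, rho]
  have := p.ha.ne'
  field_simp

/-- A path given as a graph over `s`. -/
theorem SC_graph {f : ℝ → ℝ} {s1 s2 c : ℝ} (h12 : s1 ≤ s2) (hf : ContinuousOn f (Icc s1 s2))
    (h : ∀ s ∈ Icc s1 s2, p.g (f s) s < c) :
    SC p.G (p.a * c) (p.pt (f s1) s1) (p.pt (f s2) s2) := by
  refine SC.path (f := fun s => p.pt (f s) s) h12 ?_ p.continuous_G ?_
  · simp only [pt_eq]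
    fun_prop
  · intro s hs
    rw [G_pt]
    exact mul_lt_mul_of_pos_left (h s hs) p.ha

/-- A horizontal path. -/
theorem SC_horiz {Y1 Y2 s c : ℝ} (h12 : Y1 ≤ Y2) (h : ∀ Y ∈ Icc Y1 Y2, p.g Y s < c) :
    SC p.G (p.a * c) (p.pt Y1 s) (p.pt Y2 s) := by
  refine SC.path (f := fun Y => p.pt Y s) h12 ?_ p.continuous_G ?_
  · simp only [pt_eq]
    fun_prop
  · intro Y hY
    rw [G_pt]
    exact mul_lt_mul_of_pos_left (h Y hY) p.ha

/-- Window 0: the sea is connected. -/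
theorem SC_sea {s1 s2 : ℝ} (h1 : p.sL < s1) (h1' : s1 < p.sR) (h2 : p.sL < s2) (h2' : s2 < p.sR)
    (c : ℝ) : ∃ Y0 : ℝ, ∀ Y : ℝ, Y0 ≤ Y → SC p.G (p.a * c) (p.pt Y s1) (p.pt Y s2) := by
  wlog h12 : s1 ≤ s2 generalizing s1 s2
  · obtain ⟨Y0, h⟩ := this h2 h2' h1 h1' (le_of_not_ge h12)
    exact ⟨Y0, fun Y hY => (h Y hY).symm⟩
  have hneg : ∀ s ∈ Icc s1 s2, p.rho s < 0 := by
    intro s hs
    have ha := p.ha
    have k1 : p.sL < s := h1.trans_le hs.1
    have k2 : s < p.sR := hs.2.trans_lt h2'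
    rw [sL, div_lt_iff₀ ha] at k1
    rw [sR, lt_div_iff₀ ha] at k2
    have hc : Real.cos (p.a * s + p.φ) < 0 :=
      Real.cos_neg_of_pi_div_two_lt_of_lt (by linarith) (by linarith)
    have hr := p.hr
    have : 0 < p.r / p.a * Real.exp (p.b * s) := by positivity
    exact mul_neg_of_pos_of_neg this hc
  have hcont : Continuous p.rho := by unfold rho; fun_prop
  obtain ⟨s0, hs0, hmax⟩ := isCompact_Icc.exists_isMaxOn (nonempty_Icc.2 h12) hcont.continuousOn
  have hρ := hneg s0 hs0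
  set ρ0 := -p.rho s0 with hρ0
  have hρ0' : 0 < ρ0 := by linarith
  refine ⟨max 1 (6 / ρ0 * (1 / 2 + |c| + 1)), fun Y hY => ?_⟩
  have hY1 : 1 ≤ Y := (le_max_left _ _).trans hY
  have hY2 : 6 / ρ0 * (1 / 2 + |c| + 1) ≤ Y := (le_max_right _ _).trans hY
  refine p.SC_graph (f := fun _ => Y) h12 continuousOn_const fun s hs => ?_
  have h3 : p.rho s ≤ -ρ0 := by rw [hρ0, neg_neg]; exact hmax hs
  have h4 : Y ^ 3 / 6 ≤ Real.exp Y := by
    have := Real.pow_div_factorial_le_exp Y (by linarith) 3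
    norm_num [Nat.factorial] at this
    linarith
  have h5 : 6 * (1 / 2 + |c| + 1) ≤ ρ0 * Y := by
    rw [div_mul_eq_mul_div, div_le_iff₀ hρ0'] at hY2
    linarith
  have h6 : p.rho s * Real.exp Y ≤ -ρ0 * (Y ^ 3 / 6) := by
    have := Real.exp_pos Y
    nlinarith only [hρ0', h3, h4, this]
  have h7 : (1 / 2 + |c| + 1) * Y ^ 2 ≤ ρ0 * (Y ^ 3 / 6) := by
    have : 0 ≤ Y ^ 2 := sq_nonneg Y
    nlinarith only [h5]
  have h8 : (|c| + 1) * 1 ≤ (|c| + 1) * Y ^ 2 := by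
    have := abs_nonneg c
    apply mul_le_mul_of_nonneg_left _ (by positivity)
    nlinarith only [hY1]
  have h9 := neg_abs_le c
  rw [g]
  nlinarith only [h6, h7, h8, h9]

/-- Saddle points in the coordinates `(Y, s)`. -/
theorem sad {Y s V W : ℝ} (h1 : Y + p.rho s * Real.exp Y = 0)
    (h2 : -s + p.rho1 s * Real.exp Y = 0)
    (h3 : (1 - Y) * V ^ 2 + 2 * s * V * W + (-1 + p.rho2 s * Real.exp Y) * W ^ 2 < 0) :
    ∃ δ0 > 0, ∀ δ : ℝ, 0 < δ → δ ≤ δ0 →
      Sad p.u (Ph p.ζ) (p.a * p.g Y s) (p.pt Y s) (δ * p.pt V W) := by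
  have ha := p.ha
  have hab := p.hab
  have hu0 : p.u ≠ 0 := by
    intro h
    have := p.hu
    rw [h, norm_zero] at this
    exact zero_ne_one this
  set C := p.r * Real.exp (p.b * s) * Real.exp Y * Real.cos (p.a * s + p.φ) with hC
  set D := p.r * Real.exp (p.b * s) * Real.exp Y * Real.sin (p.a * s + p.φ) with hD
  have e1 : p.rho s * Real.exp Y = C / p.a := by rw [rho, hC]; ring
  have e2 : p.rho1 s * Real.exp Y = (p.b * C - p.a * D) / p.a := by rw [rho1, hC, hD]; ring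
  have e3 : p.rho2 s * Real.exp Y = ((p.b ^ 2 - p.a ^ 2) * C - 2 * p.a * p.b * D) / p.a := by
    rw [rho2, hC, hD]; ring
  have hC' : C = -p.a * Y := by
    rw [e1] at h1
    field_simp at h1
    linarith
  have hD' : D = -p.b * Y - s := by
    rw [e2] at h2
    field_simp at h2
    have : p.a * D = p.a * (-p.b * Y - s) := by rw [hC'] at h2; linarith
    exact mul_left_cancel₀ ha.ne' this
  have hcrit : p.pt Y s + p.ζ * cexp (p.pt Y s) = 0 := by
    have h4 : p.u * (p.pt Y s + p.ζ * cexp (p.pt Y s)) = 0 := by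
      rw [mul_add, u_mul_zeta_mul_exp]
      have h5 : ((p.r * Real.exp (p.b * s) * Real.exp Y : ℝ) : ℂ) *
          (Real.cos (p.a * s + p.φ) + Real.sin (p.a * s + p.φ) * I) = (C : ℂ) + (D : ℂ) * I := by
        rw [hC, hD]; push_cast; ring
      rw [h5, hC', hD', pt_eq]
      have e2 : p.u = p.a + p.b * I := by apply Complex.ext <;> simp [u]
      have hab' : (p.a : ℂ) ^ 2 + (p.b : ℂ) ^ 2 = 1 := by exact_mod_cast hab
      rw [e2]
      push_cast
      linear_combination ((p.a : ℂ) * p.b * s) * Complex.I_sq + I * s * hab'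
    exact (mul_eq_zero.1 h4).resolve_left hu0
  have hQ : (p.u * (1 - p.pt Y s) * (p.pt V W) ^ 2).re < 0 := by
    have : (p.u * (1 - p.pt Y s) * (p.pt V W) ^ 2).re =
        p.a * ((1 - Y) * V ^ 2 + 2 * s * V * W + (-1 + p.rho2 s * Real.exp Y) * W ^ 2) := by
      rw [e3, hC', hD']
      simp only [u, pt, pow_two, Complex.mul_re, Complex.mul_im, Complex.sub_re, Complex.sub_im,
        Complex.one_re, Complex.one_im]
      field_simp
      linear_combination (2 * p.a * s * V * W - p.a * W ^ 2 + 2 * p.a * p.b * s * W ^ 2) * hab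
    rw [this]
    exact mul_neg_of_pos_of_neg ha h3
  obtain ⟨δ0, h5, h6⟩ := sad_of_desc hcrit hQ
  refine ⟨δ0, h5, fun δ k1 k2 => ?_⟩
  have h7 := h6 δ k1 k2
  have h8 : (p.u * Ph p.ζ (p.pt Y s)).re = p.a * p.g Y s := p.G_pt Y s
  rw [h8] at h7
  exact h7

theorem mirror_u : p.mirror.u = starRingEnd ℂ p.u := rfl

theorem mirror_zeta : p.mirror.ζ = starRingEnd ℂ p.ζ := by
  have h1 : cexp (((2 * Real.pi - p.φ : ℝ) : ℂ) * I) = starRingEnd ℂ (cexp (p.φ * I)) := by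
    rw [← Complex.exp_conj, map_mul, Complex.conj_I, Complex.conj_ofReal]
    have : (((2 * Real.pi - p.φ : ℝ) : ℂ) * I) = p.φ * -I + 2 * Real.pi * I := by push_cast; ring
    rw [this, Complex.exp_add, Complex.exp_two_pi_mul_I, mul_one]
  simp only [ζ, mirror, map_mul, Complex.conj_ofReal]
  rw [h1]
  congr 1

theorem mirror_rho (s : ℝ) : p.mirror.rho s = p.rho (-s) := by
  simp only [rho, mirror]
  have : p.a * s + (2 * Real.pi - p.φ) = 2 * Real.pi - (p.a * -s + p.φ) := by ring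
  rw [this, Real.cos_two_pi_sub]
  congr 2
  ring_nf

theorem mirror_rho1 (s : ℝ) : p.mirror.rho1 s = -p.rho1 (-s) := by
  simp only [rho1, mirror]
  have : p.a * s + (2 * Real.pi - p.φ) = 2 * Real.pi - (p.a * -s + p.φ) := by ring
  rw [this, Real.cos_two_pi_sub, Real.sin_two_pi_sub]
  have : -p.b * s = p.b * -s := by ring
  rw [this]
  ring

theorem mirror_m (s : ℝ) : p.mirror.m s = p.m (-s) := by
  simp only [m, g, Y, mirror_rho]
  ring

theorem mirror_m1 (s : ℝ) : p.mirror.m1 s = -p.m1 (-s) := by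
  simp only [m1, Y, mirror_rho, mirror_rho1]
  ring

theorem mirror_pt (Y s : ℝ) : p.mirror.pt Y s = starRingEnd ℂ (p.pt Y (-s)) := by
  apply Complex.ext <;> simp [pt, mirror]

theorem mirror_sL : p.mirror.sL = -p.sR := by
  simp only [sL, sR, mirror]; ring

theorem mirror_sLL : p.mirror.sLL = -p.sRR := by
  simp only [sLL, sRR, mirror]; ring

theorem mirror_sR : p.mirror.sR = -p.sL := by
  simp only [sL, sR, mirror]; ring

end Par

theorem Ph_conj (ζ H : ℂ) :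
    Ph ζ (starRingEnd ℂ H) = starRingEnd ℂ (Ph (starRingEnd ℂ ζ) H) := by
  have h2 : starRingEnd ℂ (2 : ℂ) = 2 := Complex.conj_ofNat 2
  simp only [Ph, map_add, map_div₀, map_pow, map_mul, Complex.conj_conj, ← Complex.exp_conj, h2]

/-- Connections under complex conjugation. -/
theorem conn_mirror (p : Par) {c : ℝ} {A B : ℂ} (h : Conn p.mirror.G c A B) :
    Conn p.G c (starRingEnd ℂ A) (starRingEnd ℂ B) := by
  obtain ⟨U, k1, k2, k3, k4⟩ := h
  refine ⟨starRingEnd ℂ '' U, k1.image _ Complex.continuous_conj.continuousOn,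
    ⟨A, k2, rfl⟩, ⟨B, k3, rfl⟩, ?_⟩
  rintro H ⟨H', hH', rfl⟩
  have := k4 H' hH'
  have h1 : (p.u * Ph p.ζ (starRingEnd ℂ H')).re = (p.mirror.u * Ph p.mirror.ζ H').re := by
    rw [p.mirror_u, p.mirror_zeta, Ph_conj, ← Complex.conj_re (starRingEnd ℂ p.u * _), map_mul,
      Complex.conj_conj]
  show (p.u * Ph p.ζ (starRingEnd ℂ H')).re < c
  rw [h1]
  exact this

/-- Complex conjugation and reversal of a contour with one saddle point. -/
theorem _root_.SokalV.Chain.conj_reverse {u ζ : ℂ} {c c' : ℝ} {A B S : ℂ}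
    (h : Chain (starRingEnd ℂ u) (Ph (starRingEnd ℂ ζ)) c c' A [S] B) :
    Chain u (Ph ζ) c c' (starRingEnd ℂ B) [starRingEnd ℂ S] (starRingEnd ℂ A) := by
  have hPh : ∀ H : ℂ, Ph ζ (starRingEnd ℂ H) = starRingEnd ℂ (Ph (starRingEnd ℂ ζ) H) := by
    intro H
    have h2 : starRingEnd ℂ (2 : ℂ) = 2 := Complex.conj_ofNat 2
    simp only [Ph, map_add, map_div₀, map_pow, map_mul, Complex.conj_conj, ← Complex.exp_conj, h2]
  have hG : ∀ H : ℂ, (u * Ph ζ (starRingEnd ℂ H)).re =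
      (starRingEnd ℂ u * Ph (starRingEnd ℂ ζ) H).re := by
    intro H
    rw [hPh, ← Complex.conj_re (starRingEnd ℂ u * _), map_mul, Complex.conj_conj]
  have hC : ∀ {A B : ℂ}, Conn (fun H => (starRingEnd ℂ u * Ph (starRingEnd ℂ ζ) H).re) c' A B →
      Conn (fun H => (u * Ph ζ H).re) c' (starRingEnd ℂ A) (starRingEnd ℂ B) := by
    rintro A B ⟨U, k1, k2, k3, k4⟩
    refine ⟨starRingEnd ℂ '' U, k1.image _ Complex.continuous_conj.continuousOn,
      ⟨A, k2, rfl⟩, ⟨B, k3, rfl⟩, ?_⟩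
    rintro H ⟨H', hH', rfl⟩
    have := k4 H' hH'
    simp only [hG]
    exact this
  cases h with
  | cons h1 h2 h3 =>
    rename_i v
    cases h3 with
    | nil h3 =>
      refine Chain.cons (v := -starRingEnd ℂ v) ?_ ⟨?_, ?_, ?_, ?_⟩ (Chain.nil ?_)
      · have := (hC h3).symm
        rw [map_add] at this
        rwa [sub_neg_eq_add]
      · have := h2.crit
        rw [deriv_Ph] at this ⊢
        simp only at this ⊢
        have h4 := congrArg (starRingEnd ℂ) this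
        rw [map_add, map_mul, Complex.conj_conj, map_zero, ← Complex.exp_conj] at h4
        exact h4
      · rw [hG]; exact h2.height
      · have := h2.desc
        rw [deriv_deriv_Ph] at this ⊢
        rw [← Complex.conj_re] at this
        rw [map_mul, map_mul, map_add, map_mul, Complex.conj_conj, Complex.conj_conj, map_one,
          map_pow, ← Complex.exp_conj] at this
        rw [neg_sq]
        exact this
      · intro s hs hs0
        have h4 := h2.seg (-s) (by rwa [abs_neg]) (neg_ne_zero.2 hs0)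
        have h5 : starRingEnd ℂ S + (s : ℂ) * -starRingEnd ℂ v
            = starRingEnd ℂ (S + ((-s : ℝ) : ℂ) * v) := by
          rw [map_add, map_mul, Complex.conj_ofReal]; push_cast; ring
        rw [h5, hG]
        exact h4
      · have := (hC h1).symm
        rw [map_sub] at this
        rwa [← sub_eq_add_neg]

/-- A contour below `c''` from a contour over saddle points of height `< c''`. -/
theorem _root_.SokalV.Chain.conn {u : ℂ} {Ψ : ℂ → ℂ} {c c' c'' : ℝ} {A B : ℂ} {L : List ℂ}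
    (h : Chain u Ψ c c' A L B) (h1 : c' ≤ c'') (h2 : c < c'') :
    Conn (fun H => (u * Ψ H).re) c'' A B := by
  induction h with
  | nil h => exact h.mono h1
  | cons k1 k2 _ ih =>
    rename_i A B S v L _
    refine (k1.mono h1).trans (Conn.trans (Conn.segment fun s hs0 hs1 => ?_) ih)
    show (u * Ψ (S - v + s * (S + v - (S - v)))).re < c''
    have e : S - v + (s : ℂ) * (S + v - (S - v)) = S + ((2 * s - 1 : ℝ) : ℂ) * v := by
      push_cast; ring
    rw [e]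
    by_cases h0 : 2 * s - 1 = 0
    · rw [h0, Complex.ofReal_zero, zero_mul, add_zero, k2.height]
      exact h2
    · exact (k2.seg (2 * s - 1) (abs_le.2 ⟨by linarith, by linarith⟩) h0).trans h2

/-- Two half contours. -/
theorem good_of_two {u ζ S1 S2 : ℂ} {c1 c2 : ℝ} (hS : S1 ≠ S2) (P : ℝ → ℂ)
    (h1 : ∃ c' < c1, ∃ Y0 : ℝ, ∀ Yb : ℝ, Y0 ≤ Yb → ∃ R0 : ℝ, ∀ R : ℝ, R0 ≤ R →
      Chain u (Ph ζ) c1 c' (-1 - R * I) [S1] (P Yb))
    (h2 : ∃ c' < c2, ∃ Y0 : ℝ, ∀ Yb : ℝ, Y0 ≤ Yb → ∃ R0 : ℝ, ∀ R : ℝ, R0 ≤ R →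
      Chain u (Ph ζ) c2 c' (P Yb) [S2] (1 + R * I)) :
    ∃ (c : ℝ) (L : List ℂ), Good u ζ c L ∧
      ((∃ S, L = [S]) ∨ ∃ S1 S2, S1 ≠ S2 ∧ L = [S1, S2]) := by
  obtain ⟨c1', k1, Y1, k2⟩ := h1
  obtain ⟨c2', l1, Y2, l2⟩ := h2
  obtain ⟨R1, k3⟩ := k2 (max Y1 Y2) (le_max_left _ _)
  obtain ⟨R2, l3⟩ := l2 (max Y1 Y2) (le_max_right _ _)
  rcases lt_trichotomy c1 c2 with h | rfl | h
  · obtain ⟨c'', m1, m2⟩ := exists_between h
    refine ⟨c2, [S2], ⟨max c2' c'', max_lt l1 m2, max R1 R2, fun R hR => ?_⟩, Or.inl ⟨S2, rfl⟩⟩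
    have a1 := k3 R ((le_max_left _ _).trans hR)
    have a2 := l3 R ((le_max_right _ _).trans hR)
    exact (a2.mono (le_max_left _ _)).conn_trans
      (a1.conn ((k1.trans m1).le.trans (le_max_right _ _)) (m1.trans_le (le_max_right _ _)))
  · refine ⟨c1, [S1, S2], ⟨max c1' c2', max_lt k1 l1, max R1 R2, fun R hR => ?_⟩,
      Or.inr ⟨S1, S2, hS, rfl⟩⟩
    have a1 := k3 R ((le_max_left _ _).trans hR)
    have a2 := l3 R ((le_max_right _ _).trans hR)
    exact (a1.mono (le_max_left _ _)).append (a2.mono (le_max_right _ _))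
  · obtain ⟨c'', m1, m2⟩ := exists_between h
    refine ⟨c1, [S1], ⟨max c1' c'', max_lt k1 m2, max R1 R2, fun R hR => ?_⟩, Or.inl ⟨S1, rfl⟩⟩
    have a1 := k3 R ((le_max_left _ _).trans hR)
    have a2 := l3 R ((le_max_right _ _).trans hR)
    exact (a1.mono (le_max_left _ _)).trans_conn
      (a2.conn ((l1.trans m1).le.trans (le_max_right _ _)) (m1.trans_le (le_max_right _ _)))

end SokalN
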