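import Pool.Agent.Lib_MP_af4de1_v.N1Defs

/-!
# The case `N = 1`: the functions `Ym`, `Yp` and the fibres `Y ↦ Y²/2 + x e^Y`
-/

namespace SokalN

open Filter Topology Set

private noncomputable def N1B_k (y : ℝ) : ℝ := y * Real.exp (-y)

private theorem N1B_hasDerivAt_k (y : ℝ) : HasDerivAt N1B_k ((1 - y) * Real.exp (-y)) y := by
  have h1 : HasDerivAt (fun y : ℝ => Real.exp (-y)) (Real.exp (-y) * (-1)) y := (hasDerivAt_neg y).exp
  have h2 := (hasDerivAt_id y).mul h1
  refine h2.congr_deriv ?_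
  simp only [id]
  ring

private theorem N1B_cont_k : Continuous N1B_k := by
  unfold N1B_k
  fun_prop

private theorem N1B_mono_k : StrictMonoOn N1B_k (Iic 1) := by
  refine strictMonoOn_of_deriv_pos (convex_Iic 1) N1B_cont_k.continuousOn fun y hy => ?_
  rw [interior_Iic] at hy
  rw [(N1B_hasDerivAt_k y).deriv]
  exact mul_pos (by linarith [mem_Iio.1 hy]) (Real.exp_pos _)

private theorem N1B_anti_k : StrictAntiOn N1B_k (Ici 1) := by
  refine strictAntiOn_of_deriv_neg (convex_Ici 1) N1B_cont_k.continuousOn fun y hy => ?_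
  rw [interior_Ici] at hy
  rw [(N1B_hasDerivAt_k y).deriv]
  exact mul_neg_of_neg_of_pos (by linarith [mem_Ioi.1 hy]) (Real.exp_pos _)

private theorem N1B_k_one : N1B_k 1 = Real.exp (-1) := by
  unfold N1B_k
  rw [one_mul]

private theorem N1B_k_le (y : ℝ) : N1B_k y ≤ Real.exp (-1) := by
  rw [← N1B_k_one]
  rcases le_total y 1 with h | h
  · exact N1B_mono_k.monotoneOn (mem_Iic.2 h) (mem_Iic.2 le_rfl) h
  · exact N1B_anti_k.antitoneOn (mem_Ici.2 le_rfl) (mem_Ici.2 h) h

private theorem N1B_ke_le {y : ℝ} (h : y ≤ 1) : ke y = N1B_k y := by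
  unfold ke N1B_k
  rw [if_pos h]

private theorem N1B_ke_ge {y : ℝ} (h : 1 ≤ y) : ke y = Real.exp (-1) + (y - 1) := by
  rcases h.eq_or_lt with h1 | h1
  · rw [← h1, N1B_ke_le le_rfl, N1B_k_one]
    ring
  · unfold ke
    rw [if_neg h1.not_ge]

/-- `ke` is a strictly increasing continuous bijection. -/
theorem strictMono_ke : StrictMono ke := by
  refine StrictMonoOn.Iic_union_Ici (a := 1) ?_ ?_
  · intro x hx y hy hxy
    rw [N1B_ke_le hx, N1B_ke_le hy]
    exact N1B_mono_k hx hy hxy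
  · intro x hx y hy hxy
    rw [N1B_ke_ge hx, N1B_ke_ge hy]
    linarith

theorem continuous_ke : Continuous ke := by
  unfold ke
  refine Continuous.if_le (by fun_prop) (by fun_prop) continuous_id continuous_const ?_
  intro x hx
  have hx' : x = 1 := hx
  rw [hx']
  ring

theorem surjective_ke : Function.Surjective ke := by
  refine continuous_ke.surjective ?_ ?_
  · have h1 : Tendsto (fun y : ℝ => Real.exp (-1) + (y - 1)) atTop atTop :=
      tendsto_atTop_add_const_left _ _ (tendsto_atTop_add_const_right _ _ tendsto_id)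
    refine h1.congr' ?_
    filter_upwards [eventually_ge_atTop (1 : ℝ)] with y hy
    exact (N1B_ke_ge hy).symm
  · refine tendsto_atBot_mono' _ ?_ tendsto_id
    filter_upwards [eventually_le_atBot (0 : ℝ)] with y hy
    rw [N1B_ke_le (hy.trans zero_le_one)]
    unfold N1B_k
    have h1 : 1 ≤ Real.exp (-y) := Real.one_le_exp (by linarith)
    simp only [id]
    nlinarith

theorem ke_Ym (x : ℝ) : ke (Ym x) = x := Function.invFun_eq (surjective_ke x)

theorem Ym_ke (y : ℝ) : Ym (ke y) = y := strictMono_ke.injective (ke_Ym _)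

theorem strictMono_Ym : StrictMono Ym := by
  intro x y hxy
  rw [← strictMono_ke.lt_iff_lt, ke_Ym, ke_Ym]
  exact hxy

theorem continuous_Ym : Continuous Ym :=
  strictMono_Ym.monotone.continuous_of_surjective fun y => ⟨ke y, Ym_ke y⟩

theorem Ym_exp : Ym (Real.exp (-1)) = 1 := by
  rw [← N1B_k_one, ← N1B_ke_le le_rfl, Ym_ke]

theorem Ym_zero : Ym 0 = 0 := by
  have h : ke 0 = 0 := by
    rw [N1B_ke_le zero_le_one]
    unfold N1B_k
    ring
  rw [← h, Ym_ke]
  exact h.symm

theorem Ym_le {x : ℝ} (h : x ≤ Real.exp (-1)) : Ym x ≤ 1 := by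
  rw [← Ym_exp]
  exact strictMono_Ym.monotone h

theorem Ym_lt {x : ℝ} (h : x < Real.exp (-1)) : Ym x < 1 := by
  rw [← Ym_exp]
  exact strictMono_Ym h

theorem Ym_nonpos {x : ℝ} (h : x ≤ 0) : Ym x ≤ 0 := by
  rw [← Ym_zero]
  exact strictMono_Ym.monotone h

private theorem N1B_k_Ym {x : ℝ} (h : x ≤ Real.exp (-1)) : N1B_k (Ym x) = x := by
  rw [← N1B_ke_le (Ym_le h), ke_Ym]

theorem Ym_eq {x : ℝ} (h : x ≤ Real.exp (-1)) : Ym x * Real.exp (-Ym x) = x := N1B_k_Ym h

private theorem N1B_crit (x y : ℝ) : y + x * Real.exp y = Real.exp y * (N1B_k y + x) := by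
  unfold N1B_k
  have h : Real.exp y * Real.exp (-y) = 1 := by
    rw [← Real.exp_add, add_neg_cancel, Real.exp_zero]
  linear_combination (-y) * h

/-- The fibre derivative vanishes. -/
theorem Ym_crit {x : ℝ} (h : -Real.exp (-1) ≤ x) : Ym (-x) + x * Real.exp (Ym (-x)) = 0 := by
  rw [N1B_crit, N1B_k_Ym (by linarith)]
  ring

theorem hasDerivAt_Ym {x : ℝ} (h : x < Real.exp (-1)) :
    HasDerivAt Ym (Real.exp (Ym x) / (1 - Ym x)) x := by
  have hy := Ym_lt h
  have h1 : HasDerivAt ke ((1 - Ym x) * Real.exp (-Ym x)) (Ym x) := by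
    refine (N1B_hasDerivAt_k (Ym x)).congr_of_eventuallyEq ?_
    filter_upwards [Iio_mem_nhds hy] with z hz
    exact N1B_ke_le (le_of_lt hz)
  have h2 : (1 - Ym x) * Real.exp (-Ym x) ≠ 0 := (mul_pos (by linarith) (Real.exp_pos _)).ne'
  have h3 := HasDerivAt.of_local_left_inverse continuous_Ym.continuousAt h1 h2
    (Eventually.of_forall ke_Ym)
  refine h3.congr_deriv ?_
  rw [mul_inv, Real.exp_neg, inv_inv, mul_comm, div_eq_mul_inv]

private theorem N1B_kp_eq (y : ℝ) : kp y = y - Real.log (max y 1) := by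
  unfold kp
  split_ifs with h
  · rw [max_eq_right h, Real.log_one, sub_zero]
  · rw [max_eq_left (le_of_not_ge h)]

private theorem N1B_kp_le {y : ℝ} (h : y ≤ 1) : kp y = y := by
  rw [N1B_kp_eq, max_eq_right h, Real.log_one, sub_zero]

private theorem N1B_kp_ge {y : ℝ} (h : 1 ≤ y) : kp y = y - Real.log y := by
  rw [N1B_kp_eq, max_eq_left h]

private theorem N1B_continuous_kp : Continuous kp := by
  have e : kp = fun y => y - Real.log (max y 1) := funext N1B_kp_eq
  rw [e]
  refine continuous_id.sub (Continuous.log (by fun_prop) fun y => ?_)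
  exact (lt_of_lt_of_le zero_lt_one (le_max_right y 1)).ne'

private theorem N1B_strictMono_kp : StrictMono kp := by
  refine StrictMonoOn.Iic_union_Ici (a := 1) ?_ ?_
  · intro x hx y hy hxy
    rw [N1B_kp_le hx, N1B_kp_le hy]
    exact hxy
  · have h1 : StrictMonoOn (fun y : ℝ => y - Real.log y) (Ici 1) := by
      refine strictMonoOn_of_deriv_pos (convex_Ici 1) ?_ fun y hy => ?_
      · refine continuousOn_id.sub (Real.continuousOn_log.mono ?_)
        intro y hy
        have : (1 : ℝ) ≤ y := hy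
        exact (by linarith : (0 : ℝ) < y).ne'
      · rw [interior_Ici] at hy
        have hy1 : (1 : ℝ) < y := hy
        have hy0 : (0 : ℝ) < y := by linarith
        have h2 : HasDerivAt (fun y : ℝ => y - Real.log y) (1 - y⁻¹) y :=
          (hasDerivAt_id y).sub (Real.hasDerivAt_log hy0.ne')
        rw [h2.deriv]
        have h3 : y⁻¹ < 1 := inv_lt_one_of_one_lt₀ hy1
        linarith
    intro x hx y hy hxy
    rw [N1B_kp_ge hx, N1B_kp_ge hy]
    exact h1 hx hy hxy

private theorem N1B_surjective_kp : Function.Surjective kp := by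
  refine N1B_continuous_kp.surjective ?_ ?_
  · refine tendsto_atTop_mono' _ ?_ (tendsto_id.atTop_div_const (show (0 : ℝ) < 2 by norm_num))
    filter_upwards [eventually_ge_atTop (1 : ℝ)] with y hy
    rw [N1B_kp_ge hy]
    have hy0 : (0 : ℝ) < y := by linarith
    have h1 := Real.log_le_sub_one_of_pos (show (0 : ℝ) < y / 2 by positivity)
    have h2 : Real.log y = Real.log (y / 2) + Real.log 2 := by
      rw [← Real.log_mul (by positivity) (by norm_num)]
      congr 1
      ring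
    have h3 : Real.log 2 < 1 := by
      have := Real.log_two_lt_d9
      linarith
    simp only [id]
    linarith
  · refine tendsto_id.congr' ?_
    filter_upwards [eventually_le_atBot (1 : ℝ)] with y hy
    exact (N1B_kp_le hy).symm

private theorem N1B_kp_inv (x : ℝ) : kp (Function.invFun kp x) = x :=
  Function.invFun_eq (N1B_surjective_kp x)

private theorem N1B_inv_kp (y : ℝ) : Function.invFun kp (kp y) = y :=
  N1B_strictMono_kp.injective (N1B_kp_inv _)

private theorem N1B_strictMono_inv : StrictMono (Function.invFun kp) := by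
  intro x y hxy
  rw [← N1B_strictMono_kp.lt_iff_lt, N1B_kp_inv, N1B_kp_inv]
  exact hxy

private theorem N1B_continuous_inv : Continuous (Function.invFun kp) :=
  N1B_strictMono_inv.monotone.continuous_of_surjective fun y => ⟨kp y, N1B_inv_kp y⟩

private theorem N1B_inv_one : Function.invFun kp 1 = 1 := by
  have h : kp 1 = 1 := N1B_kp_le le_rfl
  have h1 := N1B_inv_kp 1
  rwa [h] at h1

theorem continuousOn_Yp : ContinuousOn Yp (Ioi 0) := by
  unfold Yp
  refine N1B_continuous_inv.comp_continuousOn ((Real.continuousOn_log.mono ?_).neg)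
  intro y hy
  exact (mem_Ioi.1 hy).ne'

theorem Yp_exp : Yp (Real.exp (-1)) = 1 := by
  unfold Yp
  rw [Real.log_exp, neg_neg, N1B_inv_one]

theorem one_le_Yp {x : ℝ} (h0 : 0 < x) (h : x ≤ Real.exp (-1)) : 1 ≤ Yp x := by
  unfold Yp
  have h1 : Real.log x ≤ -1 := by
    have := Real.log_le_log h0 h
    rwa [Real.log_exp] at this
  have h2 := N1B_strictMono_inv.monotone (show (1 : ℝ) ≤ -Real.log x by linarith)
  rwa [N1B_inv_one] at h2

theorem one_lt_Yp {x : ℝ} (h0 : 0 < x) (h : x < Real.exp (-1)) : 1 < Yp x := by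
  unfold Yp
  have h1 : Real.log x < -1 := by
    have := Real.log_lt_log h0 h
    rwa [Real.log_exp] at this
  have h2 := N1B_strictMono_inv (show (1 : ℝ) < -Real.log x by linarith)
  rwa [N1B_inv_one] at h2

private theorem N1B_k_Yp {x : ℝ} (h0 : 0 < x) (h : x ≤ Real.exp (-1)) : N1B_k (Yp x) = x := by
  have h1 := one_le_Yp h0 h
  have h2 : kp (Yp x) = -Real.log x := N1B_kp_inv _
  rw [N1B_kp_ge h1] at h2
  unfold N1B_k
  have h3 : Real.exp (Real.log (Yp x)) = Yp x := Real.exp_log (by linarith)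
  have h4 : Real.exp (Real.log x) = x := Real.exp_log h0
  calc Yp x * Real.exp (-Yp x) = Real.exp (Real.log (Yp x)) * Real.exp (-Yp x) := by rw [h3]
    _ = Real.exp (Real.log (Yp x) + -Yp x) := (Real.exp_add _ _).symm
    _ = Real.exp (Real.log x) := by
        congr 1
        linarith
    _ = x := h4

theorem Yp_crit {x : ℝ} (h : -Real.exp (-1) ≤ x) (h0 : x < 0) :
    Yp (-x) + x * Real.exp (Yp (-x)) = 0 := by
  rw [N1B_crit, N1B_k_Yp (by linarith) (by linarith)]
  ring

/-- The fibre function. -/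
noncomputable def fib (x Y : ℝ) : ℝ := Y ^ 2 / 2 + x * Real.exp Y

theorem hasDerivAt_fib (x Y : ℝ) : HasDerivAt (fib x) (Y + x * Real.exp Y) Y := by
  have h1 : HasDerivAt (fun Y : ℝ => Y ^ 2 / 2) Y Y := by
    have h2 := (hasDerivAt_pow 2 Y).div_const 2
    refine h2.congr_deriv ?_
    norm_num
  exact h1.add ((Real.hasDerivAt_exp Y).const_mul x)

private theorem N1B_cont_fib (x : ℝ) : Continuous (fib x) := by
  unfold fib
  fun_prop

private theorem N1B_diff_fib (x : ℝ) : Differentiable ℝ (fib x) := fun Y =>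
  (hasDerivAt_fib x Y).differentiableAt

private theorem N1B_deriv_fib (x Y : ℝ) : deriv (fib x) Y = Real.exp Y * (N1B_k Y + x) := by
  rw [(hasDerivAt_fib x Y).deriv, N1B_crit]

theorem fib_anti {x : ℝ} (h : -Real.exp (-1) ≤ x) : AntitoneOn (fib x) (Iic (Ym (-x))) := by
  refine antitoneOn_of_deriv_nonpos (convex_Iic _) (N1B_cont_fib x).continuousOn
    (N1B_diff_fib x).differentiableOn fun Y hY => ?_
  rw [interior_Iic, mem_Iio] at hY
  rw [N1B_deriv_fib]
  have h1 : Ym (-x) ≤ 1 := Ym_le (by linarith)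
  have h2 : N1B_k Y ≤ N1B_k (Ym (-x)) :=
    N1B_mono_k.monotoneOn (mem_Iic.2 (hY.le.trans h1)) (mem_Iic.2 h1) hY.le
  rw [N1B_k_Ym (by linarith)] at h2
  exact mul_nonpos_of_nonneg_of_nonpos (Real.exp_pos _).le (by linarith)

theorem fib_mono {x : ℝ} (h : -Real.exp (-1) ≤ x) : MonotoneOn (fib x) (Icc (Ym (-x)) 1) := by
  refine monotoneOn_of_deriv_nonneg (convex_Icc _ _) (N1B_cont_fib x).continuousOn
    (N1B_diff_fib x).differentiableOn fun Y hY => ?_
  rw [interior_Icc, mem_Ioo] at hY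
  rw [N1B_deriv_fib]
  have h1 : Ym (-x) ≤ 1 := Ym_le (by linarith)
  have h2 : N1B_k (Ym (-x)) ≤ N1B_k Y :=
    N1B_mono_k.monotoneOn (mem_Iic.2 h1) (mem_Iic.2 hY.2.le) hY.1.le
  rw [N1B_k_Ym (by linarith)] at h2
  exact mul_nonneg (Real.exp_pos _).le (by linarith)

theorem fib_mono' {x : ℝ} (h : 0 ≤ x) : MonotoneOn (fib x) (Ici (Ym (-x))) := by
  have he := Real.exp_pos (-1)
  refine monotoneOn_of_deriv_nonneg (convex_Ici _) (N1B_cont_fib x).continuousOn
    (N1B_diff_fib x).differentiableOn fun Y hY => ?_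
  rw [interior_Ici, mem_Ioi] at hY
  rcases le_total Y 1 with h3 | h3
  · rw [N1B_deriv_fib]
    have h1 : Ym (-x) ≤ 1 := Ym_le (by linarith)
    have h2 : N1B_k (Ym (-x)) ≤ N1B_k Y :=
      N1B_mono_k.monotoneOn (mem_Iic.2 h1) (mem_Iic.2 h3) hY.le
    rw [N1B_k_Ym (by linarith)] at h2
    exact mul_nonneg (Real.exp_pos _).le (by linarith)
  · rw [(hasDerivAt_fib x Y).deriv]
    have := Real.exp_pos Y
    positivity

theorem fib_min {x : ℝ} (h : 0 ≤ x) (Y : ℝ) : fib x (Ym (-x)) ≤ fib x Y := by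
  have he := Real.exp_pos (-1)
  rcases le_total Y (Ym (-x)) with h1 | h1
  · exact fib_anti (by linarith) (mem_Iic.2 h1) (mem_Iic.2 le_rfl) h1
  · exact fib_mono' h (mem_Ici.2 le_rfl) (mem_Ici.2 h1) h1

theorem fib_strictMono {x : ℝ} (h : -Real.exp (-1) < x) (h0 : x < 0) :
    StrictMonoOn (fib x) (Icc (Ym (-x)) (Yp (-x))) := by
  refine strictMonoOn_of_deriv_pos (convex_Icc _ _) (N1B_cont_fib x).continuousOn fun Y hY => ?_
  rw [interior_Icc, mem_Ioo] at hY
  rw [N1B_deriv_fib]
  refine mul_pos (Real.exp_pos _) ?_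
  have h1 : Ym (-x) ≤ 1 := Ym_le (by linarith)
  have h2 : 1 ≤ Yp (-x) := one_le_Yp (by linarith) (by linarith)
  rcases le_total Y 1 with h3 | h3
  · have h4 : N1B_k (Ym (-x)) < N1B_k Y := N1B_mono_k (mem_Iic.2 h1) (mem_Iic.2 h3) hY.1
    rw [N1B_k_Ym (by linarith)] at h4
    linarith
  · have h4 : N1B_k (Yp (-x)) < N1B_k Y := N1B_anti_k (mem_Ici.2 h3) (mem_Ici.2 h2) hY.2
    rw [N1B_k_Yp (by linarith) (by linarith)] at h4
    linarith

theorem fib_anti' {x : ℝ} (h : -Real.exp (-1) ≤ x) (h0 : x < 0) :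
    AntitoneOn (fib x) (Ici (Yp (-x))) := by
  refine antitoneOn_of_deriv_nonpos (convex_Ici _) (N1B_cont_fib x).continuousOn
    (N1B_diff_fib x).differentiableOn fun Y hY => ?_
  rw [interior_Ici, mem_Ioi] at hY
  rw [N1B_deriv_fib]
  have h1 : 1 ≤ Yp (-x) := one_le_Yp (by linarith) (by linarith)
  have h2 : N1B_k Y ≤ N1B_k (Yp (-x)) :=
    N1B_anti_k.antitoneOn (mem_Ici.2 h1) (mem_Ici.2 (h1.trans hY.le)) hY.le
  rw [N1B_k_Yp (by linarith) (by linarith)] at h2
  exact mul_nonpos_of_nonneg_of_nonpos (Real.exp_pos _).le (by linarith)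

theorem fib_antitone {x : ℝ} (h : x ≤ -Real.exp (-1)) : Antitone (fib x) := by
  refine antitone_of_deriv_nonpos (N1B_diff_fib x) fun Y => ?_
  rw [N1B_deriv_fib]
  have h1 := N1B_k_le Y
  exact mul_nonpos_of_nonneg_of_nonpos (Real.exp_pos _).le (by linarith)

end SokalN
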