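import Pool.Agent.Lib_MP_af4de1_v.N1A
import Pool.Agent.Lib_MP_af4de1_v.N1B

/-!
# The case `N = 1`: the channel

`m(s) = min_{Y ≤ 1} g(Y, s)`, `m' = m1`, `(1 - Y) m'' = -((a D + b)² + a² (1 - Y)²)`,
`D = (r/a) e^{b s} e^Y sin(a s + φ)`.
-/

namespace SokalN

open SokalV Filter Topology Set

namespace Par

variable (p : Par)

theorem g_eq (Y s : ℝ) : p.g Y s = fib (p.rho s) Y - s ^ 2 / 2 := by
  simp only [g, fib]; ring

theorem sL_nonpos : p.sL ≤ 0 := div_nonpos_of_nonpos_of_nonneg (by linarith [p.h1]) p.ha.le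

theorem sR_nonneg : 0 ≤ p.sR := div_nonneg (by linarith [p.h2]) p.ha.le

theorem sLL_lt_sL : p.sLL < p.sL :=
  div_lt_div_of_pos_right (by linarith [Real.pi_pos]) p.ha

theorem sL_lt_sR : p.sL < p.sR :=
  div_lt_div_of_pos_right (by linarith [Real.pi_pos]) p.ha

theorem sR_lt_sRR : p.sR < p.sRR :=
  div_lt_div_of_pos_right (by linarith [Real.pi_pos]) p.ha

private theorem N1C_arg (s : ℝ) : HasDerivAt (fun s : ℝ => p.a * s + p.φ) p.a s := by
  have h := ((hasDerivAt_id s).const_mul p.a).add_const p.φ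
  rw [mul_one] at h
  exact h

private theorem N1C_exp (s : ℝ) : HasDerivAt (fun s : ℝ => p.r / p.a * Real.exp (p.b * s))
    (p.r / p.a * Real.exp (p.b * s) * p.b) s := by
  have h := ((hasDerivAt_id s).const_mul p.b).exp.const_mul (p.r / p.a)
  have e : p.r / p.a * (Real.exp (p.b * id s) * (p.b * 1)) = p.r / p.a * Real.exp (p.b * s) * p.b := by
    simp only [id]
    ring
  rw [e] at h
  exact h

theorem hasDerivAt_rho (s : ℝ) : HasDerivAt p.rho (p.rho1 s) s := by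
  have h := (p.N1C_exp s).mul (p.N1C_arg s).cos
  have e : p.r / p.a * Real.exp (p.b * s) * p.b * Real.cos (p.a * s + p.φ) +
      p.r / p.a * Real.exp (p.b * s) * (-Real.sin (p.a * s + p.φ) * p.a) = p.rho1 s := by
    unfold rho1
    ring
  rw [e] at h
  exact h

theorem hasDerivAt_rho1 (s : ℝ) : HasDerivAt p.rho1 (p.rho2 s) s := by
  have h := (p.N1C_exp s).mul (((p.N1C_arg s).cos.const_mul p.b).sub
    ((p.N1C_arg s).sin.const_mul p.a))
  have e : p.r / p.a * Real.exp (p.b * s) * p.b *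
      (p.b * Real.cos (p.a * s + p.φ) - p.a * Real.sin (p.a * s + p.φ)) +
      p.r / p.a * Real.exp (p.b * s) * (p.b * (-Real.sin (p.a * s + p.φ) * p.a) -
        p.a * (Real.cos (p.a * s + p.φ) * p.a)) = p.rho2 s := by
    unfold rho2
    ring
  rw [← e]
  exact h

theorem continuous_rho : Continuous p.rho := by
  unfold rho; fun_prop

theorem continuous_rho1 : Continuous p.rho1 := by
  unfold rho1; fun_prop

theorem continuous_Y : Continuous p.Y := continuous_Ym.comp p.continuous_rho.neg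

theorem continuous_m : Continuous p.m := by
  have h1 := p.continuous_rho
  have h2 := p.continuous_Y
  unfold m g
  fun_prop

theorem continuous_m1 : Continuous p.m1 := by
  have h1 := p.continuous_rho1
  have h2 := p.continuous_Y
  unfold m1
  fun_prop

private theorem N1C_argL : p.a * p.sL + p.φ = Real.pi / 2 := by
  have h := p.ha.ne'
  unfold sL
  field_simp
  ring

private theorem N1C_argLL : p.a * p.sLL + p.φ = -(Real.pi / 2) := by
  have h := p.ha.ne'
  unfold sLL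
  field_simp
  ring

theorem rho_sL : p.rho p.sL = 0 := by
  unfold rho
  rw [N1C_argL, Real.cos_pi_div_two, mul_zero]

theorem rho_sLL : p.rho p.sLL = 0 := by
  unfold rho
  rw [N1C_argLL, Real.cos_neg, Real.cos_pi_div_two, mul_zero]

theorem rho_nonneg_finger {s : ℝ} (h1 : p.sLL ≤ s) (h2 : s ≤ p.sL) : 0 ≤ p.rho s := by
  have ha := p.ha
  have hr := p.hr
  have k1 := mul_le_mul_of_nonneg_left h1 ha.le
  have k2 := mul_le_mul_of_nonneg_left h2 ha.le
  have e1 := p.N1C_argL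
  have e2 := p.N1C_argLL
  have hc : 0 ≤ Real.cos (p.a * s + p.φ) :=
    Real.cos_nonneg_of_neg_pi_div_two_le_of_le (by linarith) (by linarith)
  unfold rho
  positivity

theorem rho_neg_window {s : ℝ} (h1 : p.sL < s) (h2 : s < p.sR) : p.rho s < 0 := by
  have ha := p.ha
  have hr := p.hr
  rw [sL, div_lt_iff₀ ha] at h1
  rw [sR, lt_div_iff₀ ha] at h2
  have hc : Real.cos (p.a * s + p.φ) < 0 :=
    Real.cos_neg_of_pi_div_two_lt_of_lt (by linarith) (by linarith)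
  have : 0 < p.r / p.a * Real.exp (p.b * s) := by positivity
  exact mul_neg_of_pos_of_neg this hc

theorem rho1_sL_neg : p.rho1 p.sL < 0 := by
  have ha := p.ha
  have hr := p.hr
  unfold rho1
  rw [N1C_argL, Real.cos_pi_div_two, Real.sin_pi_div_two, mul_zero, mul_one, zero_sub]
  have : 0 < p.r / p.a * Real.exp (p.b * p.sL) := by positivity
  exact mul_neg_of_pos_of_neg this (by linarith)

theorem rho1_sLL_pos : 0 < p.rho1 p.sLL := by
  have ha := p.ha
  have hr := p.hr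
  unfold rho1
  rw [N1C_argLL, Real.cos_neg, Real.sin_neg, Real.cos_pi_div_two, Real.sin_pi_div_two, mul_zero,
    mul_neg, mul_one, zero_sub, neg_neg]
  positivity

theorem m_sL : p.m p.sL = -p.sL ^ 2 / 2 := by
  simp only [m, g, Y, rho_sL, neg_zero, Ym_zero]; ring

theorem m_sLL : p.m p.sLL = -p.sLL ^ 2 / 2 := by
  simp only [m, g, Y, rho_sLL, neg_zero, Ym_zero]; ring

theorem Y_crit {s : ℝ} (h : -Real.exp (-1) ≤ p.rho s) :
    p.Y s + p.rho s * Real.exp (p.Y s) = 0 := Ym_crit h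

theorem Y_le {s : ℝ} (h : -Real.exp (-1) ≤ p.rho s) : p.Y s ≤ 1 := Ym_le (by linarith)

theorem Y_lt {s : ℝ} (h : -Real.exp (-1) < p.rho s) : p.Y s < 1 := Ym_lt (by linarith)

theorem hasDerivAt_Y {s : ℝ} (h : -Real.exp (-1) < p.rho s) :
    HasDerivAt p.Y (-p.rho1 s * Real.exp (p.Y s) / (1 - p.Y s)) s := by
  have h1 := HasDerivAt.comp s (hasDerivAt_Ym (x := -p.rho s) (by linarith))
    (p.hasDerivAt_rho s).neg
  have e : Real.exp (Ym (-p.rho s)) / (1 - Ym (-p.rho s)) * -p.rho1 s =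
      -p.rho1 s * Real.exp (p.Y s) / (1 - p.Y s) := by
    unfold Y
    ring
  rw [e] at h1
  exact h1

theorem hasDerivAt_m {s : ℝ} (h : -Real.exp (-1) < p.rho s) : HasDerivAt p.m (p.m1 s) s := by
  have hY := p.hasDerivAt_Y h
  have hcr := p.Y_crit h.le
  have h1 := (((hY.pow 2).sub ((hasDerivAt_id s).pow 2)).div_const 2).add
    ((p.hasDerivAt_rho s).mul hY.exp)
  set Y' := -p.rho1 s * Real.exp (p.Y s) / (1 - p.Y s) with hY'
  have e : (((2 : ℕ) : ℝ) * p.Y s ^ (2 - 1) * Y' - ((2 : ℕ) : ℝ) * id s ^ (2 - 1) * 1) / 2 +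
      (p.rho1 s * Real.exp (p.Y s) + p.rho s * (Real.exp (p.Y s) * Y')) = p.m1 s := by
    unfold m1
    simp only [id]
    push_cast
    linear_combination Y' * hcr
  rw [e] at h1
  exact h1

/-- The second derivative of the channel. -/
theorem hess_neg {s : ℝ} (h : -Real.exp (-1) < p.rho s) :
    -1 + p.rho2 s * Real.exp (p.Y s) - (p.rho1 s * Real.exp (p.Y s)) ^ 2 / (1 - p.Y s) < 0 := by
  have ha := p.ha
  have hab := p.hab
  have hlt := p.Y_lt h
  have hcr := p.Y_crit h.le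
  have h1Y : 0 < 1 - p.Y s := by linarith
  set C := p.r / p.a * Real.exp (p.b * s) * Real.exp (p.Y s) * Real.cos (p.a * s + p.φ) with hC
  set D := p.r / p.a * Real.exp (p.b * s) * Real.exp (p.Y s) * Real.sin (p.a * s + p.φ) with hD
  have e1 : p.rho s * Real.exp (p.Y s) = C := by rw [rho, hC]; ring
  have e2 : p.rho1 s * Real.exp (p.Y s) = p.b * C - p.a * D := by rw [rho1, hC, hD]; ring
  have e3 : p.rho2 s * Real.exp (p.Y s) = (p.b ^ 2 - p.a ^ 2) * C - 2 * p.a * p.b * D := by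
    rw [rho2, hC, hD]; ring
  rw [e1] at hcr
  have hC' : C = -p.Y s := by linarith
  rw [e2, e3, hC']
  have key : (-1 + ((p.b ^ 2 - p.a ^ 2) * -p.Y s - 2 * p.a * p.b * D) -
      (p.b * -p.Y s - p.a * D) ^ 2 / (1 - p.Y s)) =
      -((p.a * D + p.b) ^ 2 + p.a ^ 2 * (1 - p.Y s) ^ 2) / (1 - p.Y s) := by
    rw [eq_div_iff h1Y.ne', sub_mul, div_mul_cancel₀ _ h1Y.ne']
    linear_combination (1 - p.Y s) * hab
  rw [key]
  apply div_neg_of_neg_of_pos _ h1Y
  have : 0 < p.a ^ 2 * (1 - p.Y s) ^ 2 := by positivity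
  nlinarith [sq_nonneg (p.a * D + p.b)]

theorem hasDerivAt_m1 {s : ℝ} (h : -Real.exp (-1) < p.rho s) :
    HasDerivAt p.m1 (-1 + p.rho2 s * Real.exp (p.Y s)
      - (p.rho1 s * Real.exp (p.Y s)) ^ 2 / (1 - p.Y s)) s := by
  have hY := p.hasDerivAt_Y h
  have h1 := (hasDerivAt_id s).neg.add ((p.hasDerivAt_rho1 s).mul hY.exp)
  have e : -1 + (p.rho2 s * Real.exp (p.Y s) +
      p.rho1 s * (Real.exp (p.Y s) * (-p.rho1 s * Real.exp (p.Y s) / (1 - p.Y s)))) =
      -1 + p.rho2 s * Real.exp (p.Y s) - (p.rho1 s * Real.exp (p.Y s)) ^ 2 / (1 - p.Y s) := by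
    ring
  rw [e] at h1
  exact h1

theorem m1_strictAnti {s1 s2 : ℝ} (h : ∀ s ∈ Ioo s1 s2, -Real.exp (-1) < p.rho s) :
    StrictAntiOn p.m1 (Icc s1 s2) := by
  refine strictAntiOn_of_deriv_neg (convex_Icc s1 s2) p.continuous_m1.continuousOn ?_
  intro s hs
  rw [interior_Icc] at hs
  rw [(p.hasDerivAt_m1 (h s hs)).deriv]
  exact p.hess_neg (h s hs)

/-- The channel rises up to a point with `m1 ≥ 0`. -/
theorem m_strictMono {s1 s2 : ℝ} (h : ∀ s ∈ Ioo s1 s2, -Real.exp (-1) < p.rho s)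
    (h2 : 0 ≤ p.m1 s2) : StrictMonoOn p.m (Icc s1 s2) := by
  refine strictMonoOn_of_deriv_pos (convex_Icc s1 s2) p.continuous_m.continuousOn ?_
  intro s hs
  rw [interior_Icc] at hs
  rw [(p.hasDerivAt_m (h s hs)).deriv]
  refine h2.trans_lt ?_
  exact p.m1_strictAnti h ⟨hs.1.le, hs.2.le⟩ ⟨(hs.1.trans hs.2).le, le_rfl⟩ hs.2

/-- The channel falls after a point with `m1 ≤ 0`. -/
theorem m_strictAnti {s1 s2 : ℝ} (h : ∀ s ∈ Ioo s1 s2, -Real.exp (-1) < p.rho s)
    (h2 : p.m1 s1 ≤ 0) : StrictAntiOn p.m (Icc s1 s2) := by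
  refine strictAntiOn_of_deriv_neg (convex_Icc s1 s2) p.continuous_m.continuousOn ?_
  intro s hs
  rw [interior_Icc] at hs
  rw [(p.hasDerivAt_m (h s hs)).deriv]
  refine lt_of_lt_of_le ?_ h2
  exact p.m1_strictAnti h ⟨le_rfl, (hs.1.trans hs.2).le⟩ ⟨hs.1.le, hs.2.le⟩ hs.1

theorem m1_sLL_pos : 0 < p.m1 p.sLL := by
  have h1 := p.sLL_lt_sL
  have h2 := p.sL_nonpos
  have h3 := p.rho1_sLL_pos
  have h4 : 0 < p.rho1 p.sLL * Real.exp (p.Y p.sLL) := by positivity
  unfold m1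
  linarith

/-- The direction of the channel at a saddle point. -/
theorem chan_dir {s : ℝ} (h : -Real.exp (-1) < p.rho s) (h0 : p.m1 s = 0) :
    (1 - p.Y s) * (-s / (1 - p.Y s)) ^ 2 + 2 * s * (-s / (1 - p.Y s)) * 1
      + (-1 + p.rho2 s * Real.exp (p.Y s)) * 1 ^ 2 < 0 := by
  have h1 := p.hess_neg h
  have h1Y : 0 < 1 - p.Y s := by linarith [p.Y_lt h]
  have h2 : p.rho1 s * Real.exp (p.Y s) = s := by
    unfold m1 at h0
    linarith
  rw [h2] at h1
  have e : (1 - p.Y s) * (-s / (1 - p.Y s)) ^ 2 + 2 * s * (-s / (1 - p.Y s)) * 1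
      + (-1 + p.rho2 s * Real.exp (p.Y s)) * 1 ^ 2 =
      -1 + p.rho2 s * Real.exp (p.Y s) - s ^ 2 / (1 - p.Y s) := by
    have h3 := h1Y.ne'
    field_simp
    ring
  rw [e]
  exact h1

/-- From a point `Y ≤ 1` to the bottom of the channel. -/
theorem SC_chan {s Y c : ℝ} (h : -Real.exp (-1) ≤ p.rho s) (hY : Y ≤ 1) (hc : p.g Y s < c) :
    SC p.G (p.a * c) (p.pt Y s) (p.pt (p.Y s) s) := by
  have hb : ∀ Y' : ℝ, fib (p.rho s) Y' ≤ fib (p.rho s) Y → p.g Y' s < c := by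
    intro Y' h'
    rw [g_eq] at hc ⊢
    linarith
  rcases le_total Y (p.Y s) with hle | hle
  · refine p.SC_horiz hle fun Y' hY' => hb Y' ?_
    exact fib_anti h (mem_Iic.2 hle) (mem_Iic.2 hY'.2) hY'.1
  · refine SC.symm (p.SC_horiz hle fun Y' hY' => hb Y' ?_)
    exact fib_mono h ⟨hY'.1, hY'.2.trans hY⟩ ⟨hle, hY⟩ hY'.2

/-- Along the channel. -/
theorem SC_along {s1 s2 c : ℝ} (h12 : s1 ≤ s2) (h : ∀ s ∈ Icc s1 s2, p.m s < c) :
    SC p.G (p.a * c) (p.pt (p.Y s1) s1) (p.pt (p.Y s2) s2) :=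
  p.SC_graph (f := p.Y) h12 p.continuous_Y.continuousOn h

end Par

end SokalN
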