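import Pool.Agent.Lib_MP_af4de1_v.Conn

/-!
# The case `N = 1`: coordinates

`u = a + ib`, `a > 0`, `|u| = 1`, `u ζ = r e^{iφ}`.  With `H = Y + i ū s` (so `X = Y + b s`, `T = a s`)
the height is `a g(Y, s)`, `g(Y, s) = (Y² - s²)/2 + ρ(s) e^Y`, `ρ(s) = (r/a) e^{b s} cos(a s + φ)`.
Window 0 is `sL ≤ s ≤ sR` (there `ρ ≤ 0`), its neighbours are the fingers `sLL ≤ s ≤ sL` and
`sR ≤ s ≤ sRR` (there `ρ ≥ 0`).
-/

namespace SokalN

open SokalV Complex Filter Topology Set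

/-- `A`, `B` are connected strictly below the height `c`. -/
def SC (g : ℂ → ℝ) (c : ℝ) (A B : ℂ) : Prop := ∃ c' < c, Conn g c' A B

/-- Parameters. -/
structure Par where
  a : ℝ
  b : ℝ
  r : ℝ
  φ : ℝ
  ha : 0 < a
  hab : a ^ 2 + b ^ 2 = 1
  hr : 0 < r
  h1 : Real.pi / 2 ≤ φ
  h2 : φ ≤ 3 * Real.pi / 2

namespace Par

variable (p : Par)

noncomputable def u : ℂ := ⟨p.a, p.b⟩

noncomputable def ζ : ℂ := (⟨p.a, -p.b⟩ : ℂ) * (p.r * cexp (p.φ * I))

noncomputable def rho (s : ℝ) : ℝ :=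
  p.r / p.a * Real.exp (p.b * s) * Real.cos (p.a * s + p.φ)

noncomputable def rho1 (s : ℝ) : ℝ :=
  p.r / p.a * Real.exp (p.b * s) *
    (p.b * Real.cos (p.a * s + p.φ) - p.a * Real.sin (p.a * s + p.φ))

noncomputable def rho2 (s : ℝ) : ℝ :=
  p.r / p.a * Real.exp (p.b * s) *
    ((p.b ^ 2 - p.a ^ 2) * Real.cos (p.a * s + p.φ) - 2 * p.a * p.b * Real.sin (p.a * s + p.φ))

noncomputable def g (Y s : ℝ) : ℝ := (Y ^ 2 - s ^ 2) / 2 + p.rho s * Real.exp Y

noncomputable def pt (Y s : ℝ) : ℂ := ⟨Y + p.b * s, p.a * s⟩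

/-- The height. -/
noncomputable abbrev G : ℂ → ℝ := fun H => (p.u * Ph p.ζ H).re

noncomputable def sL : ℝ := (Real.pi / 2 - p.φ) / p.a

noncomputable def sR : ℝ := (3 * Real.pi / 2 - p.φ) / p.a

noncomputable def sLL : ℝ := (-Real.pi / 2 - p.φ) / p.a

noncomputable def sRR : ℝ := (5 * Real.pi / 2 - p.φ) / p.a

/-- The mirror image (complex conjugation). -/
noncomputable def mirror : Par where
  a := p.a
  b := -p.b
  r := p.r
  φ := 2 * Real.pi - p.φ
  ha := p.ha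
  hab := by have := p.hab; nlinarith
  hr := p.hr
  h1 := by have := p.h2; linarith
  h2 := by have := p.h1; linarith

end Par

/-- The strictly increasing bijection `y e^{-y}` (`y ≤ 1`), `e^{-1} + (y - 1)` (`y ≥ 1`). -/
noncomputable def ke (y : ℝ) : ℝ := if y ≤ 1 then y * Real.exp (-y) else Real.exp (-1) + (y - 1)

/-- The solution `y ≤ 1` of `y e^{-y} = x`, `x ≤ e^{-1}`. -/
noncomputable def Ym (x : ℝ) : ℝ := Function.invFun ke x

/-- The strictly increasing bijection `y - log y` (`y ≥ 1`), `y` (`y ≤ 1`). -/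
noncomputable def kp (y : ℝ) : ℝ := if y ≤ 1 then y else y - Real.log y

/-- The solution `y ≥ 1` of `y e^{-y} = x`, `0 < x ≤ e^{-1}`. -/
noncomputable def Yp (x : ℝ) : ℝ := Function.invFun kp (-Real.log x)

namespace Par

variable (p : Par)

/-- The bottom of the channel. -/
noncomputable def Y (s : ℝ) : ℝ := Ym (-p.rho s)

noncomputable def m (s : ℝ) : ℝ := p.g (p.Y s) s

noncomputable def m1 (s : ℝ) : ℝ := -s + p.rho1 s * Real.exp (p.Y s)

end Par

end SokalN
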