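import Pool.Agent.Lib_MP_af4de1_v.N1E0

/-!
# The case `N = 1`: lower half, case 2
-/

namespace SokalN

open SokalV Complex Filter Topology Set

namespace Par

variable (p : Par)

/-- Case 2: the saddle point is on the ridge. -/
theorem lower2 (NT : ∀ s, 0 ≤ p.rho s → p.m s ≤ 0) {α : ℝ} (h1 : p.sL < α) (h2 : α < p.sR)
    (h3 : p.rho α = -Real.exp (-1)) (h4 : ∀ s, p.sLL ≤ s → s < α → -Real.exp (-1) < p.rho s)
    (h5 : 0 < p.m1 α) (x0 : ℝ) :
    ∃ (Y1 s1 : ℝ), s1 < α ∧ ∀ sb, p.sL < sb → sb < p.sR →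
      ∃ c' < p.a * p.g Y1 s1, ∃ Y0 : ℝ, ∀ Yb : ℝ, Y0 ≤ Yb → ∃ R0 : ℝ, ∀ R : ℝ, R0 ≤ R →
        Chain p.u (Ph p.ζ) (p.a * p.g Y1 s1) c' (x0 - R * I) [p.pt Y1 s1] (p.pt Yb sb) := by
  have ha := p.ha
  have hLL := p.sLL_lt_sL
  have hmono : StrictMonoOn p.m (Icc p.sLL α) :=
    p.m_strictMono (fun s hs => h4 s hs.1.le hs.2) h5.le
  have hneg : ∀ s, p.sL < s → s ≤ α → p.rho s < 0 := fun s k1 k2 =>
    p.rho_neg_window k1 (k2.trans_lt h2)
  -- the derivative on the ridge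
  set R1 : ℝ → ℝ := fun s => -s + p.rho1 s * Real.exp (Yp (-p.rho s)) with hR1
  have hcont : ContinuousOn R1 (Ioc p.sL α) := by
    have k1 : ContinuousOn (fun s => Yp (-p.rho s)) (Ioc p.sL α) := by
      refine continuousOn_Yp.comp p.continuous_rho.neg.continuousOn fun s hs => ?_
      have := hneg s hs.1 hs.2
      exact mem_Ioi.2 (by linarith)
    exact continuousOn_id.neg.add
      (p.continuous_rho1.continuousOn.mul (Real.continuous_exp.comp_continuousOn k1))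
  have hR1α : 0 < R1 α := by
    have k1 : R1 α = p.m1 α := by
      simp only [hR1, m1, Y]
      rw [h3, neg_neg, Yp_exp, Ym_exp]
    rw [k1]
    exact h5
  obtain ⟨t, ht1, ht2, ht3⟩ : ∃ t, p.sL < t ∧ t < α ∧ R1 t < 0 := by
    have c1 : Continuous (fun s => s * p.rho s + p.rho1 s) :=
      (continuous_id.mul p.continuous_rho).add p.continuous_rho1
    have k1 : ∀ᶠ s in 𝓝 p.sL, s * p.rho s + p.rho1 s < 0 := by
      refine (c1.tendsto p.sL).eventually (gt_mem_nhds ?_)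
      rw [p.rho_sL, mul_zero, zero_add]
      exact p.rho1_sL_neg
    have k2 : ∀ᶠ s in 𝓝 p.sL, p.rho1 s < 0 :=
      (p.continuous_rho1.tendsto p.sL).eventually (gt_mem_nhds p.rho1_sL_neg)
    have k3 : ∀ᶠ s in 𝓝[>] p.sL, s ∈ Ioo p.sL α := Ioo_mem_nhdsGT h1
    obtain ⟨t, k1, k2, k3⟩ := ((k1.filter_mono nhdsWithin_le_nhds).and
      ((k2.filter_mono nhdsWithin_le_nhds).and k3)).exists
    refine ⟨t, k3.1, k3.2, ?_⟩
    have hr := hneg t k3.1 k3.2.le
    have hlt := h4 t (hLL.trans k3.1).le k3.2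
    have e1 := Yp_crit hlt.le hr
    have e2 := one_le_Yp (x := -p.rho t) (by linarith) (by linarith)
    have e4 : R1 t * p.rho t = -(t * p.rho t) - p.rho1 t * Yp (-p.rho t) := by
      simp only [hR1]
      linear_combination p.rho1 t * e1
    have e5 : 0 < R1 t * p.rho t := by
      rw [e4]
      nlinarith
    exact neg_of_mul_pos_left e5 hr.le
  obtain ⟨s0, hs0, hs0z⟩ : ∃ s0 ∈ Icc t α, R1 s0 = 0 :=
    intermediate_value_Icc ht2.le (hcont.mono fun s hs => ⟨ht1.trans_le hs.1, hs.2⟩)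
      ⟨ht3.le, hR1α.le⟩
  have hs0α : s0 < α := by
    rcases hs0.2.lt_or_eq with h | h
    · exact h
    · rw [h] at hs0z
      exact absurd hs0z hR1α.ne'
  have hs0L : p.sL < s0 := ht1.trans_le hs0.1
  have hs0LL : p.sLL < s0 := hLL.trans hs0L
  have hr := hneg s0 hs0L hs0α.le
  have hlt := h4 s0 hs0LL.le hs0α
  set Y1 := Yp (-p.rho s0) with hY1
  have hY1' : 1 < Y1 := one_lt_Yp (by linarith) (by linarith)
  have hYs0 : p.Y s0 < 1 := p.Y_lt hlt
  have hfs : StrictMonoOn (fib (p.rho s0)) (Icc (p.Y s0) Y1) := fib_strictMono hlt hr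
  refine ⟨Y1, s0, hs0α, fun sb hb1 hb2 => ?_⟩
  set c := p.g Y1 s0 with hc
  have hcm : p.m s0 < c := by
    rw [hc, m, g_eq, g_eq]
    have := hfs ⟨le_rfl, (hYs0.trans hY1').le⟩ ⟨(hYs0.trans hY1').le, le_rfl⟩ (hYs0.trans hY1')
    linarith
  obtain ⟨δ0, hδ0, hsad⟩ := p.sad (Y := Y1) (s := s0) (V := 1) (W := 0) (Yp_crit hlt.le hr)
    hs0z (by nlinarith)
  set δ := min δ0 (Y1 - 1) with hδ
  have hδp : 0 < δ := lt_min hδ0 (by linarith)
  have hδ1 : δ ≤ Y1 - 1 := min_le_right _ _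
  have hS := hsad δ hδp (min_le_left _ _)
  have hms : ∀ s ∈ Icc p.sLL s0, p.m s < c := fun s hs =>
    lt_of_le_of_lt (hmono.monotoneOn ⟨hs.1, hs.2.trans hs0α.le⟩ ⟨hs0LL.le, hs0α.le⟩ hs.2) hcm
  refine p.glue NT (fun s hs => (hms s ⟨hs.1, hs.2.trans hs0L.le⟩).le) (P := fun Yb => p.pt Yb sb)
    ?_ hS ?_
  · have k1 := p.SC_along hs0LL.le hms
    have k2 : p.Y p.sLL = 0 := by
      rw [Y, p.rho_sLL, neg_zero, Ym_zero]
    rw [k2] at k1
    have k3 : p.pt Y1 s0 - (δ : ℂ) * p.pt 1 0 = p.pt (Y1 - δ) s0 := by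
      have := p.pt_sub Y1 s0 1 0 δ
      rw [mul_one, mul_zero, sub_zero] at this
      exact this.symm
    rw [k3]
    refine k1.trans (p.SC_horiz (by linarith) fun Y' hY' => ?_)
    rw [hc, g_eq, g_eq]
    have := hfs ⟨hY'.1, by linarith [hY'.2]⟩ ⟨(hYs0.trans hY1').le, le_rfl⟩
      (show Y' < Y1 by linarith [hY'.2])
    linarith
  · have k3 : p.pt Y1 s0 + (δ : ℂ) * p.pt 1 0 = p.pt (Y1 + δ) s0 := by
      have := p.pt_add Y1 s0 1 0 δ
      rw [mul_one, mul_zero, add_zero] at this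
      exact this.symm
    have k4 : p.g (Y1 + δ) s0 < c := by
      have k5 := hS.seg 1 (by norm_num) one_ne_zero
      rw [Complex.ofReal_one, one_mul, k3] at k5
      have k6 : p.a * p.g (Y1 + δ) s0 < p.a * c := by
        rw [← p.G_pt]
        exact k5
      exact lt_of_mul_lt_mul_left k6 ha.le
    rw [k3]
    refine p.to_sea hs0L (hs0α.trans h2) hb1 hb2 k4 ?_
    exact (fib_anti' hlt.le hr).mono (Ici_subset_Ici.2 (by linarith))

end Par

end SokalN
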