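import Pool.Agent.Lib_MP_af4de1_v.N1E0

/-!
# The case `N = 1`: lower half, case 3
-/

namespace SokalN

open SokalV Complex Filter Topology Set

namespace Par

variable (p : Par)

/-- Case 3: the saddle point is `(1, α)`. -/
theorem lower3 (NT : ∀ s, 0 ≤ p.rho s → p.m s ≤ 0) {α : ℝ} (h1 : p.sL < α) (h2 : α < p.sR)
    (h3 : p.rho α = -Real.exp (-1)) (h4 : ∀ s, p.sLL ≤ s → s < α → -Real.exp (-1) < p.rho s)
    (h5 : p.m1 α = 0) (h6 : α < 0) (x0 : ℝ) :
    ∀ sb, p.sL < sb → sb < p.sR →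
      ∃ c' < p.a * p.g 1 α, ∃ Y0 : ℝ, ∀ Yb : ℝ, Y0 ≤ Yb → ∃ R0 : ℝ, ∀ R : ℝ, R0 ≤ R →
        Chain p.u (Ph p.ζ) (p.a * p.g 1 α) c' (x0 - R * I) [p.pt 1 α] (p.pt Yb sb) := by
  intro sb hb1 hb2
  have ha := p.ha
  have hLL := p.sLL_lt_sL
  have hLα : p.sLL < α := hLL.trans h1
  have hYα : p.Y α = 1 := by
    rw [Y, h3, neg_neg, Ym_exp]
  have hmono : StrictMonoOn p.m (Icc p.sLL α) :=
    p.m_strictMono (fun s hs => h4 s hs.1.le hs.2) h5.ge
  have hr1 : p.rho1 α * Real.exp 1 = α := by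
    have := h5
    rw [m1, hYα] at this
    linarith
  have hr1' : p.rho1 α < 0 := by
    by_contra hcon
    push Not at hcon
    have := mul_nonneg hcon (Real.exp_pos 1).le
    linarith
  -- the function `rho` decreases after `α`
  obtain ⟨ε, hε, hρ⟩ : ∃ ε > 0, ∀ δ : ℝ, 0 < δ → δ ≤ ε → p.rho (α + δ) < -Real.exp (-1) := by
    have k1 : ∀ᶠ s in 𝓝 α, p.rho1 s < 0 :=
      (p.continuous_rho1.tendsto α).eventually (gt_mem_nhds hr1')
    obtain ⟨ε, hε, k2⟩ := Metric.eventually_nhds_iff.1 k1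
    refine ⟨ε / 2, by linarith, fun δ hδ hδε => ?_⟩
    have k3 : StrictAntiOn p.rho (Icc α (α + δ)) := by
      refine strictAntiOn_of_deriv_neg (convex_Icc _ _) p.continuous_rho.continuousOn ?_
      intro s hs
      rw [interior_Icc] at hs
      rw [(p.hasDerivAt_rho s).deriv]
      apply k2
      rw [Real.dist_eq, abs_of_pos (by linarith [hs.1])]
      linarith [hs.2]
    have k4 := k3 ⟨le_rfl, by linarith⟩ ⟨by linarith, le_rfl⟩ (show α < α + δ by linarith)
    rwa [h3] at k4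
  set c := p.g 1 α with hc
  have hcm : p.m α = c := by
    rw [m, hYα]
  set K := -1 + p.rho2 α * Real.exp 1 with hK
  set V := (|K| + 1) / (-2 * α) with hV
  have hVp : 0 < V := div_pos (by positivity) (by linarith)
  have hVα : 2 * α * V = -(|K| + 1) := by
    rw [hV]
    have : α ≠ 0 := h6.ne
    field_simp
  obtain ⟨δ0, hδ0, hsad⟩ := p.sad (Y := 1) (s := α) (V := V) (W := 1)
    (by
      rw [h3, neg_mul, ← Real.exp_add]
      norm_num)
    (by rw [hr1]; ring)
    (by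
      rw [← hK]
      nlinarith [le_abs_self K])
  set δ := min δ0 (min ((α - p.sLL) / 2) (min ε ((p.sR - α) / 2))) with hδ
  have hδp : 0 < δ := lt_min hδ0 (lt_min (by linarith) (lt_min hε (by linarith)))
  have hδ1 : δ ≤ (α - p.sLL) / 2 := (min_le_right _ _).trans (min_le_left _ _)
  have hδ2 : δ ≤ ε := (min_le_right _ _).trans ((min_le_right _ _).trans (min_le_left _ _))
  have hδ3 : δ ≤ (p.sR - α) / 2 :=
    (min_le_right _ _).trans ((min_le_right _ _).trans (min_le_right _ _))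
  have hS := hsad δ hδp (min_le_left _ _)
  have hδV : 0 < δ * V := mul_pos hδp hVp
  have kS : p.pt 1 α - (δ : ℂ) * p.pt V 1 = p.pt (1 - δ * V) (α - δ) := by
    have := p.pt_sub 1 α V 1 δ
    rw [mul_one] at this
    exact this.symm
  have kS' : p.pt 1 α + (δ : ℂ) * p.pt V 1 = p.pt (1 + δ * V) (α + δ) := by
    have := p.pt_add 1 α V 1 δ
    rw [mul_one] at this
    exact this.symm
  have gS : p.g (1 - δ * V) (α - δ) < c := by
    have k5 := hS.seg (-1) (by norm_num) (by norm_num)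
    have e : p.pt 1 α + ((-1 : ℝ) : ℂ) * ((δ : ℂ) * p.pt V 1) =
        p.pt 1 α - (δ : ℂ) * p.pt V 1 := by
      push_cast
      ring
    rw [e, kS] at k5
    have k6 : p.a * p.g (1 - δ * V) (α - δ) < p.a * c := by
      rw [← p.G_pt]
      exact k5
    exact lt_of_mul_lt_mul_left k6 ha.le
  have gS' : p.g (1 + δ * V) (α + δ) < c := by
    have k5 := hS.seg 1 (by norm_num) one_ne_zero
    rw [Complex.ofReal_one, one_mul, kS'] at k5
    have k6 : p.a * p.g (1 + δ * V) (α + δ) < p.a * c := by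
      rw [← p.G_pt]
      exact k5
    exact lt_of_mul_lt_mul_left k6 ha.le
  refine p.glue NT (fun s hs => ?_) (P := fun Yb => p.pt Yb sb) ?_ hS ?_
  · rw [← hcm]
    exact hmono.monotoneOn ⟨hs.1, hs.2.trans h1.le⟩ ⟨hLα.le, le_rfl⟩ (hs.2.trans h1.le)
  · have k1 : SC p.G (p.a * c) (p.pt (p.Y p.sLL) p.sLL) (p.pt (p.Y (α - δ)) (α - δ)) := by
      refine p.SC_along (by linarith) fun s hs => ?_
      rw [← hcm]
      exact hmono ⟨hs.1, by linarith [hs.2]⟩ ⟨hLα.le, le_rfl⟩ (by linarith [hs.2])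
    have k2 : p.Y p.sLL = 0 := by
      rw [Y, p.rho_sLL, neg_zero, Ym_zero]
    rw [k2] at k1
    rw [kS]
    refine k1.trans (SC.symm (p.SC_chan (h4 _ (by linarith) (by linarith)).le ?_ gS))
    linarith
  · rw [kS']
    exact p.to_sea (by linarith) (by linarith) hb1 hb2 gS'
      ((fib_antitone (hρ δ hδp hδ2).le).antitoneOn _)

end Par

end SokalN
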