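import Pool.Agent.Lib_MP_af4de1_v.N1E1
import Pool.Agent.Lib_MP_af4de1_v.N1E2
import Pool.Agent.Lib_MP_af4de1_v.N1E3

/-!
# The case `N = 1`: lower half and open window
-/

namespace SokalN

open SokalV Complex Filter Topology Set

namespace Par

variable (p : Par)

/-- At the first point where `rho = -e^{-1}` the derivative is not positive. -/
private theorem N1E_rho1_nonpos {α : ℝ} (h1 : p.sL < α)
    (h3 : p.rho α = -Real.exp (-1)) (h4 : ∀ s, p.sLL ≤ s → s < α → -Real.exp (-1) < p.rho s) :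
    p.rho1 α ≤ 0 := by
  by_contra hcon
  push Not at hcon
  have hLα : p.sLL < α := p.sLL_lt_sL.trans h1
  have hd := p.hasDerivAt_rho α
  have hs := hd.tendsto_slope
  have h5 : ∀ᶠ x in 𝓝[≠] α, 0 < slope p.rho α x := hs.eventually (lt_mem_nhds hcon)
  have h6 : ∀ᶠ x in 𝓝[<] α, 0 < slope p.rho α x := h5.filter_mono (nhdsWithin_mono _ (fun x hx => ne_of_lt hx))
  have h7 : ∀ᶠ x in 𝓝[<] α, x ∈ Ioo p.sLL α := Ioo_mem_nhdsLT hLα
  obtain ⟨x, hx1, hx2⟩ := (h6.and h7).exists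
  have h8 := h4 x hx2.1.le hx2.2
  rw [slope_def_field, h3] at hx1
  have h9 : (p.rho x - -Real.exp (-1)) / (x - α) < 0 :=
    div_neg_of_pos_of_neg (by linarith) (by linarith [hx2.2])
  linarith

/-- The lower half of the contour, closed window. -/
theorem lower (NT : ∀ s, 0 ≤ p.rho s → p.m s ≤ 0)
    (tip : p.rho 0 = -Real.exp (-1) → p.rho1 0 ≠ 0) {α : ℝ} (h1 : p.sL < α) (h2 : α < p.sR)
    (h3 : p.rho α = -Real.exp (-1)) (h4 : ∀ s, p.sLL ≤ s → s < α → -Real.exp (-1) < p.rho s)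
    (x0 : ℝ) :
    ∃ (Y1 s1 c : ℝ), s1 ≤ α ∧ (s1 = α → α < 0) ∧ ∀ sb, p.sL < sb → sb < p.sR →
      ∃ c' < c, ∃ Y0 : ℝ, ∀ Yb : ℝ, Y0 ≤ Yb → ∃ R0 : ℝ, ∀ R : ℝ, R0 ≤ R →
        Chain p.u (Ph p.ζ) c c' (x0 - R * I) [p.pt Y1 s1] (p.pt Yb sb) := by
  rcases lt_trichotomy (p.m1 α) 0 with h5 | h5 | h5
  · obtain ⟨Y1, s1, hs1, h6⟩ := p.lower1 NT h1 h2 h3 h4 h5 x0
    exact ⟨Y1, s1, _, hs1.le, fun h => absurd h hs1.ne, h6⟩
  · have h6 : p.rho1 α ≤ 0 := p.N1E_rho1_nonpos h1 h3 h4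
    have hYα : p.Y α = 1 := by
      rw [Y, h3, neg_neg, Ym_exp]
    have h7 : α = p.rho1 α * Real.exp 1 := by
      rw [m1, hYα] at h5
      linarith
    have h8 : α < 0 := by
      have h9 : α ≤ 0 := by
        rw [h7]
        exact mul_nonpos_of_nonpos_of_nonneg h6 (Real.exp_pos 1).le
      rcases h9.lt_or_eq with h | h
      · exact h
      · exfalso
        subst h
        refine tip h3 ?_
        have h10 : p.rho1 0 * Real.exp 1 = 0 := h7.symm
        exact (mul_eq_zero.1 h10).resolve_right (Real.exp_pos 1).ne'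
    exact ⟨1, α, _, le_rfl, fun _ => h8, p.lower3 NT h1 h2 h3 h4 h5 h8 x0⟩
  · obtain ⟨Y1, s1, hs1, h6⟩ := p.lower2 NT h1 h2 h3 h4 h5 x0
    exact ⟨Y1, s1, _, hs1.le, fun h => absurd h hs1.ne, h6⟩

/-- Connections under complex conjugation. -/
private theorem N1E_conj {c' : ℝ} {A B : ℂ} (h : Conn p.mirror.G c' A B) :
    Conn p.G c' (starRingEnd ℂ A) (starRingEnd ℂ B) := by
  have hPh : ∀ H : ℂ, Ph p.ζ (starRingEnd ℂ H) = starRingEnd ℂ (Ph (starRingEnd ℂ p.ζ) H) := by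
    intro H
    have h2 : starRingEnd ℂ (2 : ℂ) = 2 := Complex.conj_ofNat 2
    simp only [Ph, map_add, map_div₀, map_pow, map_mul, Complex.conj_conj, ← Complex.exp_conj, h2]
  have hG : ∀ H : ℂ, p.G (starRingEnd ℂ H) = p.mirror.G H := by
    intro H
    show (p.u * Ph p.ζ (starRingEnd ℂ H)).re = (p.mirror.u * Ph p.mirror.ζ H).re
    rw [hPh, p.mirror_u, p.mirror_zeta, ← Complex.conj_re (starRingEnd ℂ p.u * _), map_mul, Complex.conj_conj]
  obtain ⟨U, k1, k2, k3, k4⟩ := h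
  refine ⟨starRingEnd ℂ '' U, k1.image _ Complex.continuous_conj.continuousOn,
    ⟨A, k2, rfl⟩, ⟨B, k3, rfl⟩, ?_⟩
  rintro H ⟨H', hH', rfl⟩
  rw [hG]
  exact k4 H' hH'

/-- The open window: one saddle point. -/
theorem open_window (NT : ∀ s, 0 ≤ p.rho s → p.m s ≤ 0)
    (h : ∀ s ∈ Icc p.sLL p.sRR, -Real.exp (-1) < p.rho s) :
    ∃ (Y1 s1 c : ℝ), Good p.u p.ζ c [p.pt Y1 s1] := by
  have ha := p.ha
  have hLL := p.sLL_lt_sL
  have hLR := p.sL_lt_sR
  have hRR := p.sR_lt_sRR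
  have hlr : p.sLL < p.sRR := hLL.trans (hLR.trans hRR)
  have hm1LL := p.m1_sLL_pos
  have hm1RR : p.m1 p.sRR < 0 := by
    have k := p.mirror.m1_sLL_pos
    rw [p.mirror_m1, p.mirror_sLL, neg_neg] at k
    linarith
  have hrhoRR : p.rho p.sRR = 0 := by
    have k := p.mirror.rho_sLL
    rwa [p.mirror_rho, p.mirror_sLL, neg_neg] at k
  obtain ⟨s1, hs1, hs1z⟩ : ∃ s1 ∈ Icc p.sLL p.sRR, p.m1 s1 = 0 :=
    intermediate_value_Icc' hlr.le p.continuous_m1.continuousOn ⟨hm1RR.le, hm1LL.le⟩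
  have hs1L : p.sLL < s1 := by
    rcases hs1.1.lt_or_eq with h | h
    · exact h
    · rw [← h] at hs1z
      exact absurd hs1z hm1LL.ne'
  have hs1R : s1 < p.sRR := by
    rcases hs1.2.lt_or_eq with h | h
    · exact h
    · rw [h] at hs1z
      exact absurd hs1z hm1RR.ne
  have hlt := h s1 hs1
  set Y1 := p.Y s1 with hY1
  have hY1' : Y1 < 1 := p.Y_lt hlt
  have hmono : StrictMonoOn p.m (Icc p.sLL s1) :=
    p.m_strictMono (fun s hs => h s ⟨hs.1.le, (hs.2.trans hs1R).le⟩) hs1z.ge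
  have hanti : StrictAntiOn p.m (Icc s1 p.sRR) :=
    p.m_strictAnti (fun s hs => h s ⟨(hs1L.trans hs.1).le, hs.2.le⟩) hs1z.le
  set c := p.g Y1 s1 with hc
  have hcm : p.m s1 = c := rfl
  have hmle : ∀ s ∈ Icc p.sLL p.sRR, p.m s ≤ c := by
    intro s hs
    rw [← hcm]
    rcases le_total s s1 with h | h
    · exact hmono.monotoneOn ⟨hs.1, h⟩ ⟨hs1L.le, le_rfl⟩ h
    · exact hanti.antitoneOn ⟨le_rfl, hs1R.le⟩ ⟨h, hs.2⟩ h
  set V := -s1 / (1 - Y1) with hV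
  obtain ⟨δ0, hδ0, hsad⟩ := p.sad (Y := Y1) (s := s1) (V := V) (W := 1) (p.Y_crit hlt.le)
    hs1z (p.chan_dir hlt hs1z)
  set δ := min δ0 (min ((s1 - p.sLL) / 2) (min ((p.sRR - s1) / 2) ((1 - Y1) / (|V| + 1)))) with hδ
  have hδp : 0 < δ := lt_min hδ0 (lt_min (by linarith) (lt_min (by linarith)
    (div_pos (by linarith) (by positivity))))
  have hδ1 : δ ≤ (s1 - p.sLL) / 2 := (min_le_right _ _).trans (min_le_left _ _)
  have hδ2 : δ ≤ (p.sRR - s1) / 2 :=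
    (min_le_right _ _).trans ((min_le_right _ _).trans (min_le_left _ _))
  have hδ3 : δ ≤ (1 - Y1) / (|V| + 1) :=
    (min_le_right _ _).trans ((min_le_right _ _).trans (min_le_right _ _))
  have hS := hsad δ hδp (min_le_left _ _)
  have hVδ : |δ * V| ≤ 1 - Y1 := by
    rw [le_div_iff₀ (by positivity)] at hδ3
    rw [abs_mul, abs_of_pos hδp]
    nlinarith
  obtain ⟨hV1, hV2⟩ := abs_le.1 hVδ
  have kS : p.pt Y1 s1 - (δ : ℂ) * p.pt V 1 = p.pt (Y1 - δ * V) (s1 - δ) := by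
    have := p.pt_sub Y1 s1 V 1 δ
    rw [mul_one] at this
    exact this.symm
  have kS' : p.pt Y1 s1 + (δ : ℂ) * p.pt V 1 = p.pt (Y1 + δ * V) (s1 + δ) := by
    have := p.pt_add Y1 s1 V 1 δ
    rw [mul_one] at this
    exact this.symm
  have gS : p.g (Y1 - δ * V) (s1 - δ) < c := by
    have k5 := hS.seg (-1) (by norm_num) (by norm_num)
    have e : p.pt Y1 s1 + ((-1 : ℝ) : ℂ) * ((δ : ℂ) * p.pt V 1) =
        p.pt Y1 s1 - (δ : ℂ) * p.pt V 1 := by
      push_cast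
      ring
    rw [e, kS] at k5
    have k6 : p.a * p.g (Y1 - δ * V) (s1 - δ) < p.a * c := by
      rw [← p.G_pt]
      exact k5
    exact lt_of_mul_lt_mul_left k6 ha.le
  have gS' : p.g (Y1 + δ * V) (s1 + δ) < c := by
    have k5 := hS.seg 1 (by norm_num) one_ne_zero
    rw [Complex.ofReal_one, one_mul, kS'] at k5
    have k6 : p.a * p.g (Y1 + δ * V) (s1 + δ) < p.a * c := by
      rw [← p.G_pt]
      exact k5
    exact lt_of_mul_lt_mul_left k6 ha.le
  have hYLL : p.Y p.sLL = 0 := by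
    rw [Y, p.rho_sLL, neg_zero, Ym_zero]
  have hYRR : p.Y p.sRR = 0 := by
    rw [Y, hrhoRR, neg_zero, Ym_zero]
  -- the lower part
  have hA : SC p.G (p.a * c) (p.pt 0 p.sLL) (p.pt Y1 s1 - (δ : ℂ) * p.pt V 1) := by
    have k1 : SC p.G (p.a * c) (p.pt (p.Y p.sLL) p.sLL) (p.pt (p.Y (s1 - δ)) (s1 - δ)) := by
      refine p.SC_along (by linarith) fun s hs => ?_
      rw [← hcm]
      exact hmono ⟨hs.1, by linarith [hs.2]⟩ ⟨hs1L.le, le_rfl⟩ (by linarith [hs.2])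
    rw [hYLL] at k1
    rw [kS]
    exact k1.trans (SC.symm (p.SC_chan (h _ ⟨by linarith, by linarith⟩).le (by linarith) gS))
  -- the upper part
  have hB : SC p.G (p.a * c) (p.pt Y1 s1 + (δ : ℂ) * p.pt V 1) (p.pt 0 p.sRR) := by
    have k1 : SC p.G (p.a * c) (p.pt (p.Y (s1 + δ)) (s1 + δ)) (p.pt (p.Y p.sRR) p.sRR) := by
      refine p.SC_along (by linarith) fun s hs => ?_
      rw [← hcm]
      exact hanti ⟨le_rfl, hs1R.le⟩ ⟨by linarith [hs.1], hs.2⟩ (by linarith [hs.1])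
    rw [hYRR] at k1
    rw [kS']
    exact (p.SC_chan (h _ ⟨by linarith, by linarith⟩).le (by linarith) gS').trans k1
  -- far away
  obtain ⟨c1, hc1, R1, hfar1⟩ := p.far_conn (c := c) NT
    (fun s hs => hmle s ⟨hs.1, hs.2.trans (hLR.trans hRR).le⟩) (-1)
  obtain ⟨c2, hc2, R2, hfar2⟩ := p.mirror.far_conn (c := c)
    (fun s hs => by rw [p.mirror_m]; exact NT _ (by rwa [p.mirror_rho] at hs))
    (fun s hs => by
      rw [p.mirror_m]
      rw [p.mirror_sLL, p.mirror_sL] at hs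
      exact hmle (-s) ⟨by linarith [hs.2], by linarith [hs.1]⟩) 1
  obtain ⟨c3, hc3, k3⟩ := hA
  obtain ⟨c4, hc4, k4⟩ := hB
  have hc2' : c2 < p.a * c := hc2
  refine ⟨Y1, s1, p.a * c, max (max c1 c2) (max c3 c4), max_lt (max_lt hc1 hc2') (max_lt hc3 hc4), max R1 R2,
    fun R hR => ?_⟩
  have k1 := hfar1 R ((le_max_left _ _).trans hR)
  have k2 := p.N1E_conj (hfar2 R ((le_max_right _ _).trans hR))
  have e1 : (((-1 : ℝ) : ℂ) - R * I) = -1 - R * I := by push_cast; ring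
  have e2 : starRingEnd ℂ (((1 : ℝ) : ℂ) - R * I) = 1 + R * I := by
    rw [map_sub, map_mul, Complex.conj_ofReal, Complex.conj_ofReal, Complex.conj_I]
    push_cast
    ring
  have e3 : starRingEnd ℂ (p.mirror.pt 0 p.mirror.sLL) = p.pt 0 p.sRR := by
    rw [p.mirror_pt, Complex.conj_conj, p.mirror_sLL, neg_neg]
  rw [e1] at k1
  rw [e2, e3] at k2
  refine Chain.cons (v := (δ : ℂ) * p.pt V 1) ?_ hS (Chain.nil ?_)
  · exact (k1.mono ((le_max_left _ _).trans (le_max_left _ _))).trans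
      (k3.mono ((le_max_left _ _).trans (le_max_right _ _)))
  · exact (k4.mono ((le_max_right _ _).trans (le_max_right _ _))).trans
      (k2.symm.mono ((le_max_right _ _).trans (le_max_left _ _)))

end Par

end SokalN
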