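import Pool.Agent.Lib_MP_af4de1_v.N1D

/-!
# The case `N = 1`: glueing
-/

namespace SokalN

open SokalV Complex Filter Topology Set

namespace Par

variable (p : Par)

/-- Glue: from far, along `SC` connections, over one saddle point. -/
theorem glue {c x0 : ℝ} (NT : ∀ s, 0 ≤ p.rho s → p.m s ≤ 0)
    (h1 : ∀ s ∈ Icc p.sLL p.sL, p.m s ≤ c) {S v : ℂ} {P : ℝ → ℂ}
    (hA : SC p.G (p.a * c) (p.pt 0 p.sLL) (S - v)) (hS : Sad p.u (Ph p.ζ) (p.a * c) S v)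
    (hB : ∃ c' < p.a * c, ∃ Y0 : ℝ, ∀ Yb : ℝ, Y0 ≤ Yb → Conn p.G c' (S + v) (P Yb)) :
    ∃ c' < p.a * c, ∃ Y0 : ℝ, ∀ Yb : ℝ, Y0 ≤ Yb → ∃ R0 : ℝ, ∀ R : ℝ, R0 ≤ R →
      Chain p.u (Ph p.ζ) (p.a * c) c' (x0 - R * I) [S] (P Yb) := by
  obtain ⟨c1, hc1, R0, hfar⟩ := p.far_conn NT h1 x0
  obtain ⟨c2, hc2, hA'⟩ := hA
  obtain ⟨c3, hc3, Y0, hB'⟩ := hB
  refine ⟨max (max c1 c2) c3, max_lt (max_lt hc1 hc2) hc3, Y0, fun Yb hYb => ⟨R0, fun R hR => ?_⟩⟩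
  refine Chain.cons (v := v) ?_ hS (Chain.nil ?_)
  · exact ((hfar R hR).mono ((le_max_left c1 c2).trans (le_max_left _ c3))).trans
      (hA'.mono ((le_max_right c1 c2).trans (le_max_left _ c3)))
  · exact (hB' Yb hYb).mono (le_max_right _ c3)

/-- From a point on a fibre of the window on which the height falls, into the sea. -/
theorem to_sea {s Y1 c sb : ℝ} (h1 : p.sL < s) (h2 : s < p.sR) (h3 : p.sL < sb) (h4 : sb < p.sR)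
    (hg : p.g Y1 s < c) (hf : AntitoneOn (fib (p.rho s)) (Ici Y1)) :
    ∃ c' < p.a * c, ∃ Y0 : ℝ, ∀ Yb : ℝ, Y0 ≤ Yb →
      Conn p.G c' (p.pt Y1 s) (p.pt Yb sb) := by
  obtain ⟨c0, hc0, hc0'⟩ := exists_between hg
  obtain ⟨Y0, hY0⟩ := p.SC_sea h1 h2 h3 h4 c0
  refine ⟨p.a * c0, mul_lt_mul_of_pos_left hc0' p.ha, max Y0 Y1, fun Yb hYb => ?_⟩
  have hY1 : Y1 ≤ Yb := (le_max_right _ _).trans hYb
  obtain ⟨c1, hc1, k1⟩ := p.SC_horiz (s := s) hY1 (c := c0) (fun Y hY => by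
    have h5 : fib (p.rho s) Y ≤ fib (p.rho s) Y1 := hf (mem_Ici.2 le_rfl) (mem_Ici.2 hY.1) hY.1
    rw [g_eq] at hc0 ⊢
    linarith)
  obtain ⟨c2, hc2, k2⟩ := hY0 Yb ((le_max_left _ _).trans hYb)
  exact (k1.mono hc1.le).trans (k2.mono hc2.le)

end Par

end SokalN
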