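import Pool.Agent.Lib_MP_af4de1_v.N1E0

/-!
# The case `N = 1`: lower half, case 1
-/

namespace SokalN

open SokalV Complex Filter Topology Set

namespace Par

variable (p : Par)

/-- Case 1: the saddle point is in the channel. -/
theorem lower1 (NT : ∀ s, 0 ≤ p.rho s → p.m s ≤ 0) {α : ℝ} (h1 : p.sL < α) (h2 : α < p.sR)
    (h3 : p.rho α = -Real.exp (-1)) (h4 : ∀ s, p.sLL ≤ s → s < α → -Real.exp (-1) < p.rho s)
    (h5 : p.m1 α < 0) (x0 : ℝ) :
    ∃ (Y1 s1 : ℝ), s1 < α ∧ ∀ sb, p.sL < sb → sb < p.sR →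
      ∃ c' < p.a * p.g Y1 s1, ∃ Y0 : ℝ, ∀ Yb : ℝ, Y0 ≤ Yb → ∃ R0 : ℝ, ∀ R : ℝ, R0 ≤ R →
        Chain p.u (Ph p.ζ) (p.a * p.g Y1 s1) c' (x0 - R * I) [p.pt Y1 s1] (p.pt Yb sb) := by
  have ha := p.ha
  have hLL := p.sLL_lt_sL
  have hLα : p.sLL < α := hLL.trans h1
  have hm1LL := p.m1_sLL_pos
  obtain ⟨s1, hs1, hs1z⟩ : ∃ s1 ∈ Icc p.sLL α, p.m1 s1 = 0 :=
    intermediate_value_Icc' hLα.le p.continuous_m1.continuousOn ⟨h5.le, hm1LL.le⟩
  have hs1L : p.sLL < s1 := by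
    rcases hs1.1.lt_or_eq with h | h
    · exact h
    · rw [← h] at hs1z
      exact absurd hs1z hm1LL.ne'
  have hs1α : s1 < α := by
    rcases hs1.2.lt_or_eq with h | h
    · exact h
    · rw [h] at hs1z
      exact absurd hs1z h5.ne
  have hlt := h4 s1 hs1L.le hs1α
  set Y1 := p.Y s1 with hY1
  have hY1' : Y1 < 1 := p.Y_lt hlt
  have hmono : StrictMonoOn p.m (Icc p.sLL s1) :=
    p.m_strictMono (fun s hs => h4 s hs.1.le (hs.2.trans hs1α)) hs1z.ge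
  have hanti : StrictAntiOn p.m (Icc s1 α) :=
    p.m_strictAnti (fun s hs => h4 s (hs1L.trans hs.1).le hs.2) hs1z.le
  refine ⟨Y1, s1, hs1α, fun sb hb1 hb2 => ?_⟩
  set c := p.g Y1 s1 with hc
  have hcm : p.m s1 = c := rfl
  have hmle : ∀ s ∈ Icc p.sLL α, p.m s ≤ c := by
    intro s hs
    rw [← hcm]
    rcases le_total s s1 with h | h
    · exact hmono.monotoneOn ⟨hs.1, h⟩ ⟨hs1L.le, le_rfl⟩ h
    · exact hanti.antitoneOn ⟨le_rfl, hs1α.le⟩ ⟨h, hs.2⟩ h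
  set V := -s1 / (1 - Y1) with hV
  obtain ⟨δ0, hδ0, hsad⟩ := p.sad (Y := Y1) (s := s1) (V := V) (W := 1) (p.Y_crit hlt.le)
    hs1z (p.chan_dir hlt hs1z)
  set δ := min δ0 (min ((s1 - p.sLL) / 2) (min ((α - s1) / 2) ((1 - Y1) / (|V| + 1)))) with hδ
  have hδp : 0 < δ := lt_min hδ0 (lt_min (by linarith) (lt_min (by linarith)
    (div_pos (by linarith) (by positivity))))
  have hδ1 : δ ≤ (s1 - p.sLL) / 2 := (min_le_right _ _).trans (min_le_left _ _)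
  have hδ2 : δ ≤ (α - s1) / 2 :=
    (min_le_right _ _).trans ((min_le_right _ _).trans (min_le_left _ _))
  have hδ3 : δ ≤ (1 - Y1) / (|V| + 1) :=
    (min_le_right _ _).trans ((min_le_right _ _).trans (min_le_right _ _))
  have hS := hsad δ hδp (min_le_left _ _)
  have hVδ : |δ * V| ≤ 1 - Y1 := by
    rw [le_div_iff₀ (by positivity)] at hδ3
    rw [abs_mul, abs_of_pos hδp]
    nlinarith
  obtain ⟨hV1, hV2⟩ := abs_le.1 hVδ
  have kS : p.pt Y1 s1 - (δ : ℂ) * p.pt V 1 = p.pt (Y1 - δ * V) (s1 - δ) := by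
    have := p.pt_sub Y1 s1 V 1 δ
    rw [mul_one] at this
    exact this.symm
  have kS' : p.pt Y1 s1 + (δ : ℂ) * p.pt V 1 = p.pt (Y1 + δ * V) (s1 + δ) := by
    have := p.pt_add Y1 s1 V 1 δ
    rw [mul_one] at this
    exact this.symm
  have gS : p.g (Y1 - δ * V) (s1 - δ) < c := by
    have k5 := hS.seg (-1) (by norm_num) (by norm_num)
    have e : p.pt Y1 s1 + ((-1 : ℝ) : ℂ) * ((δ : ℂ) * p.pt V 1) =
        p.pt Y1 s1 - (δ : ℂ) * p.pt V 1 := by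
      push_cast
      ring
    rw [e, kS] at k5
    have k6 : p.a * p.g (Y1 - δ * V) (s1 - δ) < p.a * c := by
      rw [← p.G_pt]
      exact k5
    exact lt_of_mul_lt_mul_left k6 ha.le
  have gS' : p.g (Y1 + δ * V) (s1 + δ) < c := by
    have k5 := hS.seg 1 (by norm_num) one_ne_zero
    rw [Complex.ofReal_one, one_mul, kS'] at k5
    have k6 : p.a * p.g (Y1 + δ * V) (s1 + δ) < p.a * c := by
      rw [← p.G_pt]
      exact k5
    exact lt_of_mul_lt_mul_left k6 ha.le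
  have hYα : p.Y α = 1 := by
    rw [Y, h3, neg_neg, Ym_exp]
  refine p.glue NT (fun s hs => hmle s ⟨hs.1, hs.2.trans h1.le⟩) (P := fun Yb => p.pt Yb sb)
    ?_ hS ?_
  · have k1 : SC p.G (p.a * c) (p.pt (p.Y p.sLL) p.sLL) (p.pt (p.Y (s1 - δ)) (s1 - δ)) := by
      refine p.SC_along (by linarith) fun s hs => ?_
      rw [← hcm]
      exact hmono ⟨hs.1, by linarith [hs.2]⟩ ⟨hs1L.le, le_rfl⟩ (by linarith [hs.2])
    have k2 : p.Y p.sLL = 0 := by
      rw [Y, p.rho_sLL, neg_zero, Ym_zero]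
    rw [k2] at k1
    rw [kS]
    refine k1.trans (SC.symm (p.SC_chan (h4 _ (by linarith) (by linarith)).le ?_ gS))
    linarith
  · rw [kS']
    have k1 : SC p.G (p.a * c) (p.pt (Y1 + δ * V) (s1 + δ)) (p.pt 1 α) := by
      have k2 := p.SC_chan (s := s1 + δ) (Y := Y1 + δ * V) (c := c)
        (h4 _ (by linarith) (by linarith)).le (by linarith) gS'
      have k3 : SC p.G (p.a * c) (p.pt (p.Y (s1 + δ)) (s1 + δ)) (p.pt (p.Y α) α) := by
        refine p.SC_along (by linarith) fun s hs => ?_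
        rw [← hcm]
        exact hanti ⟨le_rfl, hs1α.le⟩ ⟨by linarith [hs.1], hs.2⟩ (by linarith [hs.1])
      rw [hYα] at k3
      exact k2.trans k3
    obtain ⟨c1, hc1, k1⟩ := k1
    have hgα : p.g 1 α < c := by
      have k4 : p.m α < p.m s1 := hanti ⟨le_rfl, hs1α.le⟩ ⟨hs1α.le, le_rfl⟩ hs1α
      rw [m, hYα, hcm] at k4
      exact k4
    obtain ⟨c2, hc2, Y0, k5⟩ := p.to_sea h1 h2 hb1 hb2 hgα
      ((fib_antitone h3.le).antitoneOn (Ici 1))
    exact ⟨max c1 c2, max_lt hc1 hc2, Y0, fun Yb hYb =>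
      (k1.mono (le_max_left _ _)).trans ((k5 Yb hYb).mono (le_max_right _ _))⟩

end Par

end SokalN
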