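import Pool.Agent.Lib_MP_af4de1_v.N1C

/-!
# The case `N = 1`: parameters
-/

namespace SokalN

open SokalV Complex Filter Topology Set

namespace Par

variable (p : Par)

private theorem N1F1_conj {u : ℂ} (hu : ‖u‖ = 1) : (⟨u.re, -u.im⟩ : ℂ) * u = 1 := by
  have h : u.re * u.re + u.im * u.im = 1 := by
    have h1 := Complex.normSq_eq_norm_sq u
    rw [hu, Complex.normSq_apply] at h1
    linarith
  apply Complex.ext
  · simp only [Complex.mul_re, Complex.one_re]
    linarith
  · simp only [Complex.mul_im, Complex.one_im]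
    ring

/-- Parameters from `u`, `ζ`. -/
theorem exists_par {u ζ : ℂ} (hu : ‖u‖ = 1) (ha : 0 < u.re) (hζ : ζ ≠ 0)
    (hT : ¬ TopPos u ζ) : ∃ p : Par, p.u = u ∧ p.ζ = ζ := by
  have hu0 : u ≠ 0 := by
    intro h
    rw [h, norm_zero] at hu
    exact zero_ne_one hu
  have hw : u * ζ ≠ 0 := mul_ne_zero hu0 hζ
  have hab : u.re ^ 2 + u.im ^ 2 = 1 := by
    have h1 := Complex.normSq_eq_norm_sq u
    rw [hu, Complex.normSq_apply] at h1
    linarith
  have hr : 0 < ‖u * ζ‖ := norm_pos_iff.2 hw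
  have hexp : (‖u * ζ‖ : ℂ) * cexp (arg (u * ζ) * I) = u * ζ := Complex.norm_mul_exp_arg_mul_I _
  have hre : (u * ζ).re ≤ 0 := by
    by_contra hcon
    push Not at hcon
    refine hT ⟨0, min (u.re / 2) ((u * ζ).re * Real.exp (-1)), ?_, fun X => ?_⟩
    · exact lt_min (by linarith) (mul_pos hcon (Real.exp_pos _))
    · unfold Gp
      have h1 : max ((u * ζ * cexp (((0 : ℝ) : ℂ) * I)).re) 0 = (u * ζ).re := by
        rw [Complex.ofReal_zero, zero_mul, Complex.exp_zero, mul_one, max_eq_left hcon.le]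
      rw [h1]
      rcases le_total X (-1) with h | h
      · refine (min_le_left _ _).trans ?_
        have h2 := mul_pos (Real.exp_pos X) hcon
        have h3 : 1 ≤ X ^ 2 := by nlinarith
        nlinarith
      · refine (min_le_right _ _).trans ?_
        have h2 : Real.exp (-1) ≤ Real.exp X := Real.exp_le_exp.2 h
        have h3 := mul_le_mul_of_nonneg_left h2 hcon.le
        have h4 : 0 ≤ u.re * X ^ 2 := mul_nonneg ha.le (sq_nonneg X)
        nlinarith
  have hcos : Real.cos (arg (u * ζ)) ≤ 0 := by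
    rw [Complex.cos_arg hw]
    exact div_nonpos_of_nonpos_of_nonneg hre hr.le
  have harg1 := Complex.neg_pi_lt_arg (u * ζ)
  have harg2 := Complex.arg_le_pi (u * ζ)
  have hπ := Real.pi_pos
  have habs : Real.pi / 2 ≤ |arg (u * ζ)| := by
    by_contra hcon
    push Not at hcon
    have h1 := abs_lt.1 hcon
    have := Real.cos_pos_of_mem_Ioo (x := arg (u * ζ)) ⟨by linarith, h1.2⟩
    linarith
  have hφ : ∃ φ : ℝ, Real.pi / 2 ≤ φ ∧ φ ≤ 3 * Real.pi / 2 ∧
      (‖u * ζ‖ : ℂ) * cexp (φ * I) = u * ζ := by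
    rcases le_total 0 (arg (u * ζ)) with h | h
    · rw [abs_of_nonneg h] at habs
      exact ⟨arg (u * ζ), habs, by linarith, hexp⟩
    · rw [abs_of_nonpos h] at habs
      refine ⟨arg (u * ζ) + 2 * Real.pi, by linarith, by linarith, ?_⟩
      have h1 : (((arg (u * ζ) + 2 * Real.pi : ℝ) : ℂ) * I) = arg (u * ζ) * I + 2 * Real.pi * I := by
        push_cast
        ring
      rw [h1, Complex.exp_add, Complex.exp_two_pi_mul_I, mul_one]
      exact hexp
  obtain ⟨φ, h1, h2, h3⟩ := hφ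
  refine ⟨⟨u.re, u.im, ‖u * ζ‖, φ, ha, hab, hr, h1, h2⟩, rfl, ?_⟩
  show (⟨u.re, -u.im⟩ : ℂ) * ((‖u * ζ‖ : ℂ) * cexp (φ * I)) = ζ
  rw [h3, ← mul_assoc, N1F1_conj hu, one_mul]

theorem NT_of {p : Par} (hT : ¬ TopPos p.u p.ζ) (s : ℝ) (hs : 0 ≤ p.rho s) : p.m s ≤ 0 := by
  by_contra hcon
  push Not at hcon
  refine hT ⟨p.a * s, p.a * p.m s, mul_pos p.ha hcon, fun X => ?_⟩
  have ha := p.ha
  have hab := p.hab
  have h1 : (p.u * p.ζ * cexp (((p.a * s : ℝ) : ℂ) * I)).re = p.r * Real.cos (p.a * s + p.φ) := by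
    rw [p.u_mul_zeta]
    have h2 : (p.r : ℂ) * cexp (p.φ * I) * cexp (((p.a * s : ℝ) : ℂ) * I) =
        (p.r : ℂ) * cexp (((p.a * s + p.φ : ℝ) : ℂ) * I) := by
      rw [mul_assoc, ← Complex.exp_add]
      congr 2
      push_cast
      ring
    rw [h2, Complex.re_ofReal_mul, Complex.exp_ofReal_mul_I_re]
  have hc : 0 ≤ Real.cos (p.a * s + p.φ) := by
    by_contra h
    push Not at h
    have h2 : 0 < p.r / p.a * Real.exp (p.b * s) :=
      mul_pos (div_pos p.hr ha) (Real.exp_pos _)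
    have h3 : p.rho s < 0 := mul_neg_of_pos_of_neg h2 h
    linarith
  have h2 : Gp p.u p.ζ X (p.a * s) = p.a * p.g (X - p.b * s) s := by
    unfold Gp
    rw [h1, max_eq_left (mul_nonneg p.hr.le hc)]
    have hX : Real.exp X = Real.exp (p.b * s) * Real.exp (X - p.b * s) := by
      rw [← Real.exp_add]
      congr 1
      ring
    rw [hX]
    unfold g rho
    simp only [u]
    field_simp
    linear_combination (-p.a * s ^ 2) * hab
  rw [h2]
  refine mul_le_mul_of_nonneg_left ?_ ha.le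
  rw [m, p.g_eq, p.g_eq]
  have := fib_min hs (X - p.b * s)
  unfold Y
  linarith

theorem tip_of {p : Par} (h : p.ζ ≠ -Real.exp (-1)) (h0 : p.rho 0 = -Real.exp (-1)) :
    p.rho1 0 ≠ 0 := by
  intro h1
  apply h
  have ha := p.ha
  have hr := p.hr
  have hab := p.hab
  simp only [rho, rho1, mul_zero, Real.exp_zero, zero_add, mul_one] at h0 h1
  have h2 : p.b * Real.cos p.φ - p.a * Real.sin p.φ = 0 :=
    (mul_eq_zero.1 h1).resolve_left (div_pos hr ha).ne'
  have h3 : p.r * Real.cos p.φ = -p.a * Real.exp (-1) := by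
    field_simp at h0
    linarith
  have h4 : p.r * Real.sin p.φ = -p.b * Real.exp (-1) := by
    have h5 : p.a * (p.r * Real.sin p.φ) = p.a * (-p.b * Real.exp (-1)) := by
      linear_combination (-p.r) * h2 + p.b * h3
    exact mul_left_cancel₀ ha.ne' h5
  have h5 : (p.r : ℂ) * cexp (p.φ * I) = -Real.exp (-1) * p.u := by
    rw [Complex.exp_mul_I, ← Complex.ofReal_cos, ← Complex.ofReal_sin]
    apply Complex.ext
    · simp only [u, Complex.mul_re, Complex.add_re, Complex.add_im, Complex.mul_im,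
        Complex.ofReal_re, Complex.ofReal_im, Complex.I_re, Complex.I_im, Complex.neg_re,
        Complex.neg_im]
      linarith
    · simp only [u, Complex.mul_re, Complex.add_re, Complex.add_im, Complex.mul_im,
        Complex.ofReal_re, Complex.ofReal_im, Complex.I_re, Complex.I_im, Complex.neg_re,
        Complex.neg_im]
      linarith
  show (⟨p.a, -p.b⟩ : ℂ) * ((p.r : ℂ) * cexp (p.φ * I)) = _
  rw [h5]
  have h6 : (⟨p.a, -p.b⟩ : ℂ) * p.u = 1 := N1F1_conj p.hu
  linear_combination (-(Real.exp (-1) : ℂ)) * h6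

end Par

end SokalN
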