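import Pool.Agent.Lib_MP_af4de1_v.N1E
import Pool.Agent.Lib_MP_af4de1_v.N1F1

/-!
# The case `N = 1`, `Re u > 0`
-/

namespace SokalN

open SokalV Complex Filter Topology Set

namespace Par

variable (p : Par)

/-- The first point of the closed part of the window. -/
theorem first_point (h : ∃ s ∈ Icc p.sL p.sR, p.rho s ≤ -Real.exp (-1)) :
    ∃ α, p.sL < α ∧ α < p.sR ∧ p.rho α = -Real.exp (-1) ∧
      ∀ s, p.sLL ≤ s → s < α → -Real.exp (-1) < p.rho s := by
  have he := Real.exp_pos (-1)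
  have hcont := p.continuous_rho
  set K : Set ℝ := Icc p.sL p.sR ∩ p.rho ⁻¹' Iic (-Real.exp (-1)) with hK
  have hKc : IsCompact K := isCompact_Icc.inter_right (isClosed_Iic.preimage hcont)
  have hKn : K.Nonempty := by
    obtain ⟨s, hs, hs'⟩ := h
    exact ⟨s, hs, hs'⟩
  obtain ⟨hα, hα'⟩ := hKc.sInf_mem hKn
  set α := sInf K with hαdef
  have hmin : ∀ s ∈ K, α ≤ s := fun s hs => csInf_le hKc.bddBelow hs
  have hα'' : p.rho α ≤ -Real.exp (-1) := hα'
  have h0 := p.rho_sL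
  have hsR : p.rho p.sR = 0 := by
    have := p.mirror.rho_sL
    rw [mirror_rho, mirror_sL, neg_neg] at this
    exact this
  have h1 : p.sL < α := by
    refine lt_of_le_of_ne hα.1 fun h => ?_
    rw [← h, h0] at hα''
    linarith
  have h2 : α < p.sR := by
    refine lt_of_le_of_ne hα.2 fun h => ?_
    rw [h, hsR] at hα''
    linarith
  have h3 : p.rho α = -Real.exp (-1) := by
    have h4 : -Real.exp (-1) ∈ Icc (p.rho α) (p.rho p.sL) := ⟨hα'', by rw [h0]; linarith⟩
    obtain ⟨s, hs, hs'⟩ := intermediate_value_Icc' h1.le hcont.continuousOn h4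
    have h5 : s ∈ K := ⟨⟨hs.1, hs.2.trans hα.2⟩, hs'.le⟩
    have h6 : s = α := le_antisymm hs.2 (hmin s h5)
    rw [← h6, hs']
  refine ⟨α, h1, h2, h3, fun s hs1 hs2 => ?_⟩
  by_contra h7
  push Not at h7
  rcases le_or_gt s p.sL with h8 | h8
  · have := p.rho_nonneg_finger hs1 h8
    linarith
  · exact absurd (hmin s ⟨⟨h8.le, (hs2.trans h2).le⟩, h7⟩) (not_le.2 hs2)

theorem static_pos (NT : ∀ s, 0 ≤ p.rho s → p.m s ≤ 0)
    (tip : p.rho 0 = -Real.exp (-1) → p.rho1 0 ≠ 0) :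
    ∃ (c : ℝ) (L : List ℂ), Good p.u p.ζ c L ∧
      ((∃ S, L = [S]) ∨ ∃ S1 S2, S1 ≠ S2 ∧ L = [S1, S2]) := by
  have he := Real.exp_pos (-1)
  by_cases h : ∃ s ∈ Icc p.sL p.sR, p.rho s ≤ -Real.exp (-1)
  · obtain ⟨α, a1, a2, a3, a4⟩ := p.first_point h
    have h' : ∃ s ∈ Icc p.mirror.sL p.mirror.sR, p.mirror.rho s ≤ -Real.exp (-1) := by
      refine ⟨-α, ?_, ?_⟩
      · rw [mirror_sL, mirror_sR]
        exact ⟨by linarith, by linarith⟩
      · rw [mirror_rho, neg_neg, a3]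
    obtain ⟨α', b1, b2, b3, b4⟩ := p.mirror.first_point h'
    have hαβ : α ≤ -α' := by
      by_contra hlt
      push Not at hlt
      rw [mirror_sR] at b2
      rw [mirror_rho] at b3
      have := a4 (-α') (by linarith [p.sLL_lt_sL]) hlt
      linarith
    have NT' : ∀ s, 0 ≤ p.mirror.rho s → p.mirror.m s ≤ 0 := by
      intro s hs
      rw [mirror_rho] at hs
      rw [mirror_m]
      exact NT _ hs
    have tip' : p.mirror.rho 0 = -Real.exp (-1) → p.mirror.rho1 0 ≠ 0 := by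
      intro h0
      rw [mirror_rho, neg_zero] at h0
      rw [mirror_rho1, neg_zero]
      exact neg_ne_zero.2 (tip h0)
    obtain ⟨Y1, s1, c1, c2, c3, c4⟩ := p.lower NT tip a1 a2 a3 a4 (-1)
    obtain ⟨Y2, s2, d1, d2, d3, d4⟩ := p.mirror.lower NT' tip' b1 b2 b3 b4 1
    have hα1 : p.mirror.sL < -α := by rw [mirror_sL]; linarith
    have hα2 : -α < p.mirror.sR := by rw [mirror_sR]; linarith
    have hne : p.pt Y1 s1 ≠ starRingEnd ℂ (p.mirror.pt Y2 s2) := by
      intro h5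
      rw [mirror_pt, Complex.conj_conj] at h5
      have h6 := congrArg Complex.im h5
      simp only [pt] at h6
      have h7 : s1 = -s2 := mul_left_cancel₀ p.ha.ne' h6
      have h8 : s1 = α := by linarith
      have h9 : s2 = α' := by linarith
      have := c3 h8
      have := d3 h9
      linarith
    refine good_of_two (c1 := c1) (c2 := d1) hne (fun Yb => p.pt Yb α) ?_ ?_
    · obtain ⟨c', e1, Y0, e2⟩ := c4 α a1 a2
      refine ⟨c', e1, Y0, fun Yb hYb => ?_⟩
      obtain ⟨R0, e3⟩ := e2 Yb hYb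
      refine ⟨R0, fun R hR => ?_⟩
      have := e3 R hR
      rw [Complex.ofReal_neg, Complex.ofReal_one] at this
      exact this
    · obtain ⟨c', e1, Y0, e2⟩ := d4 (-α) hα1 hα2
      refine ⟨c', e1, Y0, fun Yb hYb => ?_⟩
      obtain ⟨R0, e3⟩ := e2 Yb hYb
      refine ⟨R0, fun R hR => ?_⟩
      have h5 := e3 R hR
      rw [mirror_u, mirror_zeta] at h5
      have h6 := h5.conj_reverse
      have h7 : starRingEnd ℂ (p.mirror.pt Yb (-α)) = p.pt Yb α := by
        rw [mirror_pt, Complex.conj_conj, neg_neg]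
      have h8 : starRingEnd ℂ (((1 : ℝ) : ℂ) - R * I) = 1 + R * I := by
        rw [map_sub, map_mul, Complex.conj_I, Complex.conj_ofReal, Complex.conj_ofReal]
        push_cast; ring
      rw [h7, h8] at h6
      exact h6
  · push Not at h
    have h' : ∀ s ∈ Icc p.sLL p.sRR, -Real.exp (-1) < p.rho s := by
      intro s hs
      rcases le_or_gt s p.sL with h1 | h1
      · have := p.rho_nonneg_finger hs.1 h1
        linarith
      · rcases le_or_gt s p.sR with h2 | h2
        · exact h s ⟨h1.le, h2⟩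
        · have h3 := p.mirror.rho_nonneg_finger (s := -s) (by rw [mirror_sLL]; linarith [hs.2])
            (by rw [mirror_sL]; linarith)
          rw [mirror_rho, neg_neg] at h3
          linarith
    obtain ⟨Y1, s1, c, hg⟩ := p.open_window NT h'
    exact ⟨c, _, hg, Or.inl ⟨_, rfl⟩⟩

end Par

theorem static_re_pos {u ζ : ℂ} (hu : ‖u‖ = 1) (ha : 0 < u.re) (hζ : ζ ≠ 0)
    (htip : ζ ≠ -Real.exp (-1)) (hT : ¬ TopPos u ζ) :
    ∃ (c : ℝ) (L : List ℂ), Good u ζ c L ∧
      ((∃ S, L = [S]) ∨ ∃ S1 S2, S1 ≠ S2 ∧ L = [S1, S2]) := by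
  obtain ⟨p, rfl, rfl⟩ := Par.exists_par hu ha hζ hT
  exact p.static_pos (Par.NT_of hT) (Par.tip_of htip)

end SokalN
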