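import Pool.Agent.Lib_MP_af4de1_v.N1A

/-!
# The case `N = 1`, `u = i`

`i ζ = r e^{iφ}`, `π/2 ≤ φ < 3π/2`, height `g0(X, T) = -X T + r e^X cos(T + φ)`, `H = X + i T`.
Window 0 is `TL < T < TR`, `TL = π/2 - φ ≤ 0 < TR = 3π/2 - φ`; the finger is `TR < T < TRR`.
-/

namespace SokalN

open SokalV Complex Filter Topology Set

structure Par0 where
  r : ℝ
  φ : ℝ
  hr : 0 < r
  h1 : Real.pi / 2 ≤ φ
  h2 : φ < 3 * Real.pi / 2

namespace Par0

variable (p : Par0)

noncomputable def ζ : ℂ := -I * (p.r * cexp (p.φ * I))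

noncomputable def g (X T : ℝ) : ℝ := -(X * T) + p.r * Real.exp X * Real.cos (T + p.φ)

def pt (X T : ℝ) : ℂ := ⟨X, T⟩

noncomputable abbrev G : ℂ → ℝ := fun H => (I * Ph p.ζ H).re

noncomputable def TL : ℝ := Real.pi / 2 - p.φ

noncomputable def TR : ℝ := 3 * Real.pi / 2 - p.φ

noncomputable def TRR : ℝ := 5 * Real.pi / 2 - p.φ

private theorem N1G0_pt_eq (X T : ℝ) : pt X T = X + T * I := by
  apply Complex.ext <;> simp [pt]

private theorem N1G0_I_zeta : I * p.ζ = p.r * cexp (p.φ * I) := by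
  rw [ζ, ← mul_assoc, mul_neg, I_mul_I, neg_neg, one_mul]

private theorem N1G0_zeta_exp (X T : ℝ) : I * (p.ζ * cexp (pt X T)) =
    ((p.r * Real.exp X : ℝ) : ℂ) * (Real.cos (T + p.φ) + Real.sin (T + p.φ) * I) := by
  rw [← mul_assoc, N1G0_I_zeta, N1G0_pt_eq, Complex.exp_add]
  have h2 : cexp (p.φ * I) * cexp (T * I) = Real.cos (T + p.φ) + Real.sin (T + p.φ) * I := by
    rw [← Complex.exp_add]
    have : (p.φ * I + T * I : ℂ) = ((T + p.φ : ℝ) : ℂ) * I := by push_cast; ring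
    rw [this, Complex.exp_mul_I, Complex.ofReal_cos, Complex.ofReal_sin]
  rw [← h2]
  push_cast
  ring

theorem G_pt (X T : ℝ) : p.G (pt X T) = p.g X T := by
  have h1 : p.G (pt X T) = (I * (pt X T) ^ 2 / 2 + I * (p.ζ * cexp (pt X T))).re := by
    show (I * Ph p.ζ (pt X T)).re = _
    rw [Ph]; congr 1; ring
  have h3 : (I * (pt X T) ^ 2 / 2).re = -(X * T) := by
    have e1 : I * (pt X T) ^ 2 / 2 = ((-(X * T) : ℝ) : ℂ) + (((X ^ 2 - T ^ 2) / 2 : ℝ) : ℂ) * I := by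
      rw [N1G0_pt_eq]
      push_cast
      linear_combination ((X : ℂ) * T + T ^ 2 * I / 2) * Complex.I_sq
    rw [e1, Complex.add_re, Complex.ofReal_re, Complex.re_ofReal_mul, Complex.I_re]
    ring
  rw [h1, N1G0_zeta_exp, Complex.add_re, Complex.re_ofReal_mul, h3, Complex.add_re,
    Complex.ofReal_re, Complex.re_ofReal_mul, Complex.I_re, g]
  ring

theorem continuous_G : Continuous p.G := by
  unfold G Ph
  fun_prop

/-- A path given as a graph over `T`. -/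
theorem SC_graph {f : ℝ → ℝ} {s1 s2 c : ℝ} (h12 : s1 ≤ s2) (hf : ContinuousOn f (Icc s1 s2))
    (h : ∀ s ∈ Icc s1 s2, p.g (f s) s < c) :
    SC p.G c (pt (f s1) s1) (pt (f s2) s2) := by
  refine SC.path (f := fun s => pt (f s) s) h12 ?_ p.continuous_G ?_
  · simp only [N1G0_pt_eq]
    fun_prop
  · intro s hs
    rw [G_pt]
    exact h s hs

/-- A horizontal path. -/
theorem SC_horiz {Y1 Y2 s c : ℝ} (h12 : Y1 ≤ Y2) (h : ∀ Y ∈ Icc Y1 Y2, p.g Y s < c) :
    SC p.G c (pt Y1 s) (pt Y2 s) := by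
  refine SC.path (f := fun Y => pt Y s) h12 ?_ p.continuous_G ?_
  · simp only [N1G0_pt_eq]
    fun_prop
  · intro Y hY
    rw [G_pt]
    exact h Y hY

/-- Saddle points. -/
theorem sad {X T V W : ℝ} (h1 : -T + p.r * Real.exp X * Real.cos (T + p.φ) = 0)
    (h2 : -X - p.r * Real.exp X * Real.sin (T + p.φ) = 0)
    (h3 : T * V ^ 2 + 2 * (X - 1) * V * W - T * W ^ 2 < 0) :
    ∃ δ0 > 0, ∀ δ : ℝ, 0 < δ → δ ≤ δ0 →
      Sad I (Ph p.ζ) (p.g X T) (pt X T) (δ * pt V W) := by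
  have hcrit : pt X T + p.ζ * cexp (pt X T) = 0 := by
    have h4 : I * (pt X T + p.ζ * cexp (pt X T)) = 0 := by
      rw [mul_add, N1G0_zeta_exp, N1G0_pt_eq]
      have k1 : (-T : ℂ) + p.r * Real.exp X * Real.cos (T + p.φ) = 0 := by exact_mod_cast h1
      have k2 : (-X : ℂ) - p.r * Real.exp X * Real.sin (T + p.φ) = 0 := by exact_mod_cast h2
      push_cast at k1 k2 ⊢
      linear_combination k1 - I * k2 + (T : ℂ) * Complex.I_sq
    exact (mul_eq_zero.1 h4).resolve_left I_ne_zero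
  have hQ : (I * (1 - pt X T) * (pt V W) ^ 2).re < 0 := by
    have : (I * (1 - pt X T) * (pt V W) ^ 2).re =
        T * V ^ 2 + 2 * (X - 1) * V * W - T * W ^ 2 := by
      simp only [pt, pow_two, Complex.mul_re, Complex.mul_im, Complex.sub_re, Complex.sub_im,
        Complex.one_re, Complex.one_im, Complex.I_re, Complex.I_im]
      ring
    rw [this]
    exact h3
  obtain ⟨δ0, h5, h6⟩ := sad_of_desc hcrit hQ
  refine ⟨δ0, h5, fun δ k1 k2 => ?_⟩
  have h7 := h6 δ k1 k2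
  have h8 : (I * Ph p.ζ (pt X T)).re = p.g X T := p.G_pt X T
  rw [h8] at h7
  exact h7

/-- Window 0: the sea is connected. -/
theorem SC_sea {s1 s2 : ℝ} (h1 : p.TL < s1) (h1' : s1 < p.TR) (h2 : p.TL < s2) (h2' : s2 < p.TR)
    (c : ℝ) : ∃ Y0 : ℝ, ∀ Y : ℝ, Y0 ≤ Y → SC p.G c (pt Y s1) (pt Y s2) := by
  wlog h12 : s1 ≤ s2 generalizing s1 s2
  · obtain ⟨Y0, h⟩ := this h2 h2' h1 h1' (le_of_not_ge h12)
    exact ⟨Y0, fun Y hY => (h Y hY).symm⟩
  have hr := p.hr
  have hneg : ∀ s ∈ Icc s1 s2, Real.cos (s + p.φ) < 0 := by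
    intro s hs
    have k1 : p.TL < s := h1.trans_le hs.1
    have k2 : s < p.TR := hs.2.trans_lt h2'
    rw [TL] at k1
    rw [TR] at k2
    exact Real.cos_neg_of_pi_div_two_lt_of_lt (by linarith) (by linarith)
  have hcont : Continuous (fun s : ℝ => Real.cos (s + p.φ)) := by fun_prop
  obtain ⟨s0, hs0, hmax⟩ := isCompact_Icc.exists_isMaxOn (nonempty_Icc.2 h12) hcont.continuousOn
  have hκ := hneg s0 hs0
  set κ := p.r * -Real.cos (s0 + p.φ) with hκ'
  have hκ0 : 0 < κ := mul_pos hr (by linarith)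
  set M := max |s1| |s2| with hM
  have hM0 : 0 ≤ M := (abs_nonneg s1).trans (le_max_left _ _)
  refine ⟨max 1 (2 / κ * (M + |c| + 1)), fun Y hY => ?_⟩
  have hY1 : 1 ≤ Y := (le_max_left _ _).trans hY
  have hY2 : 2 / κ * (M + |c| + 1) ≤ Y := (le_max_right _ _).trans hY
  refine p.SC_graph (f := fun _ => Y) h12 continuousOn_const fun s hs => ?_
  have h3 : Real.cos (s + p.φ) ≤ Real.cos (s0 + p.φ) := hmax hs
  have h4 := Real.quadratic_le_exp_of_nonneg (x := Y) (by linarith)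
  have h5 : 2 * (M + |c| + 1) ≤ κ * Y := by
    rw [div_mul_eq_mul_div, div_le_iff₀ hκ0] at hY2
    linarith
  have h6 : p.r * Real.exp Y * Real.cos (s + p.φ) ≤ -(κ * (Y ^ 2 / 2)) := by
    have e1 : p.r * Real.exp Y * Real.cos (s + p.φ) ≤ p.r * Real.exp Y * Real.cos (s0 + p.φ) :=
      mul_le_mul_of_nonneg_left h3 (by positivity)
    have e2 : p.r * Real.exp Y * Real.cos (s0 + p.φ) = -(κ * Real.exp Y) := by
      rw [hκ']
      ring
    have e3 : κ * (Y ^ 2 / 2) ≤ κ * Real.exp Y := mul_le_mul_of_nonneg_left (by linarith) hκ0.le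
    linarith
  have h7 : -(Y * s) ≤ Y * M := by
    have e1 : -s ≤ M := by
      rw [hM]
      rcases le_total 0 s with h | h
      · exact (neg_nonpos.2 h).trans ((abs_nonneg s1).trans (le_max_left _ _))
      · refine le_trans ?_ (le_max_left _ _)
        rw [abs_of_nonpos (hs.1.trans h)]
        linarith [hs.1]
    calc -(Y * s) = Y * -s := by ring
      _ ≤ Y * M := mul_le_mul_of_nonneg_left e1 (by linarith)
  have h8 : (M + |c| + 1) * Y ≤ κ * (Y ^ 2 / 2) := by nlinarith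
  have h9 := neg_abs_le c
  have h10 := abs_nonneg c
  rw [g]
  nlinarith

end Par0

end SokalN
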