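import Pool.Agent.Lib_MP_af4de1_v.N1G0

/-!
# The case `N = 1`, `u = i`: the lower half of the contour
-/

namespace SokalN

open SokalV Complex Filter Topology Set

namespace Par0

variable (p : Par0)

private theorem N1G1_build {X1 T1 Xa Ta Xc Tc c3 : ℝ} {v : ℂ}
    (hS : Sad I (Ph p.ζ) (p.g X1 T1) (pt X1 T1) v) (hA : pt X1 T1 - v = pt Xa Ta)
    (hC : pt X1 T1 + v = pt Xc Tc) (hTa : Ta < 0) (hgA : ∀ X ≤ Xa, p.g X Ta < p.g X1 T1)
    (hTc : p.TL < Tc) (hTc' : Tc < p.TR) (hc3 : c3 < p.g X1 T1)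
    (hgC : ∀ X, Xc ≤ X → p.g X Tc < c3) {Tb : ℝ} (hTb : p.TL < Tb) (hTb' : Tb < p.TR) :
    ∃ c' < p.g X1 T1, ∃ Y0 : ℝ, ∀ Yb : ℝ, Y0 ≤ Yb → ∃ R0 : ℝ, ∀ R : ℝ, R0 ≤ R →
      Chain I (Ph p.ζ) (p.g X1 T1) c' (-1 - R * I) [pt X1 T1] (pt Yb Tb) := by
  set c := p.g X1 T1 with hc
  -- the number `K`
  obtain ⟨K, hK1, hK2, hK3⟩ : ∃ K : ℝ, 1 ≤ K ∧ -K ≤ Xa ∧ K * Ta + p.r < c - 1 := by
    refine ⟨max (max 1 (-Xa)) ((c - 2 - p.r) / Ta), ?_, ?_, ?_⟩
    · exact (le_max_left _ _).trans (le_max_left _ _)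
    · have : -Xa ≤ max (max 1 (-Xa)) ((c - 2 - p.r) / Ta) :=
        (le_max_right _ _).trans (le_max_left _ _)
      linarith
    · have h1 : (c - 2 - p.r) / Ta ≤ max (max 1 (-Xa)) ((c - 2 - p.r) / Ta) := le_max_right _ _
      have h2 := mul_le_mul_of_nonpos_right h1 hTa.le
      rw [div_mul_cancel₀ _ hTa.ne] at h2
      linarith
  have hr := p.hr
  -- left horizontal part
  obtain ⟨c1, hc1, hL⟩ := p.SC_horiz (Y1 := -K) (Y2 := Xa) (s := Ta) (c := c) hK2
    (fun X hX => hgA X hX.2)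
  -- the sea
  obtain ⟨Y0, hY0⟩ := p.SC_sea hTc hTc' hTb hTb' c3
  refine ⟨max c1 (max (c - 1) c3), max_lt hc1 (max_lt (by linarith) hc3), max Y0 Xc, ?_⟩
  intro Yb hYb
  have hYb1 : Y0 ≤ Yb := (le_max_left _ _).trans hYb
  have hYb2 : Xc ≤ Yb := (le_max_right _ _).trans hYb
  refine ⟨max (-Ta) (p.r + 2 - c), fun R hR => ?_⟩
  have hR1 : -Ta ≤ R := (le_max_left _ _).trans hR
  have hR2 : p.r + 2 - c ≤ R := (le_max_right _ _).trans hR
  have hR0 : 0 < R := by linarith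
  -- (-1, -R) to (-K, -R)
  obtain ⟨c4, hc4, h4⟩ := p.SC_horiz (Y1 := -K) (Y2 := -1) (s := -R) (c := c - 1) (by linarith)
    (fun X hX => by
      have h1 : p.r * Real.exp X * Real.cos (-R + p.φ) ≤ p.r := by
        have h2 : Real.exp X ≤ 1 := Real.exp_le_one_iff.2 (by linarith [hX.2])
        have h3 := Real.cos_le_one (-R + p.φ)
        have h4 := Real.exp_pos X
        have h5 : p.r * Real.exp X * Real.cos (-R + p.φ) ≤ p.r * Real.exp X :=
          mul_le_of_le_one_right (by positivity) h3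
        have h6 : p.r * Real.exp X ≤ p.r := mul_le_of_le_one_right hr.le h2
        linarith
      have h7 : X * R ≤ -1 * R := mul_le_mul_of_nonneg_right hX.2 hR0.le
      unfold g
      linarith)
  -- (-K, -R) to (-K, Ta)
  obtain ⟨c5, hc5, h5⟩ := p.SC_graph (f := fun _ => -K) (s1 := -R) (s2 := Ta) (c := c - 1)
    (by linarith) continuousOn_const (fun T hT => by
      have h1 : p.r * Real.exp (-K) * Real.cos (T + p.φ) ≤ p.r := by
        have h2 : Real.exp (-K) ≤ 1 := Real.exp_le_one_iff.2 (by linarith)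
        have h3 := Real.cos_le_one (T + p.φ)
        have h4 := Real.exp_pos (-K)
        have h5 : p.r * Real.exp (-K) * Real.cos (T + p.φ) ≤ p.r * Real.exp (-K) :=
          mul_le_of_le_one_right (by positivity) h3
        have h6 : p.r * Real.exp (-K) ≤ p.r := mul_le_of_le_one_right hr.le h2
        linarith
      have h7 : K * T ≤ K * Ta := mul_le_mul_of_nonneg_left hT.2 (by linarith)
      unfold g
      linarith)
  -- right horizontal part
  obtain ⟨c6, hc6, h6⟩ := p.SC_horiz (Y1 := Xc) (Y2 := Yb) (s := Tc) (c := c3) hYb2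
    (fun X hX => hgC X hX.1)
  obtain ⟨c7, hc7, h7⟩ := hY0 Yb hYb1
  have hstart : (-1 - R * I : ℂ) = pt (-1) (-R) := by
    unfold pt
    apply Complex.ext <;> simp
  have e1 : c1 ≤ max c1 (max (c - 1) c3) := le_max_left _ _
  have e2 : c - 1 ≤ max c1 (max (c - 1) c3) := (le_max_left _ _).trans (le_max_right _ _)
  have e3 : c3 ≤ max c1 (max (c - 1) c3) := (le_max_right _ _).trans (le_max_right _ _)
  refine Chain.cons (v := v) ?_ hS (Chain.nil ?_)
  · rw [hA, hstart]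
    exact ((h4.symm.mono (hc4.le.trans e2)).trans (h5.mono (hc5.le.trans e2))).trans (hL.mono e1)
  · rw [hC]
    exact (h6.mono (hc6.le.trans e3)).trans (h7.mono (hc7.le.trans e3))

/-- The lower half of the contour, `TL < 0`: over the ridge `e^X = T/(r cos(T + φ))`, `T < 0`. -/
theorem lower_neg (h : p.TL < 0) :
    ∃ (X1 T1 : ℝ), T1 < 0 ∧ ∀ Tb, 0 < Tb → Tb < p.TR →
      ∃ c' < p.g X1 T1, ∃ Y0 : ℝ, ∀ Yb : ℝ, Y0 ≤ Yb → ∃ R0 : ℝ, ∀ R : ℝ, R0 ≤ R →
        Chain I (Ph p.ζ) (p.g X1 T1) c' (-1 - R * I) [pt X1 T1] (pt Yb Tb) := by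
  have hr := p.hr
  have hpi := Real.pi_pos
  have hTL : p.TL = Real.pi / 2 - p.φ := rfl
  have hφ1 : Real.pi / 2 < p.φ := by linarith
  have hφ2 := p.h2
  have hTR : p.TR = 3 * Real.pi / 2 - p.φ := rfl
  -- the cosine is negative
  have hcos : ∀ T, p.TL < T → T ≤ 0 → Real.cos (T + p.φ) < 0 := by
    intro T h1 h2
    apply Real.cos_neg_of_pi_div_two_lt_of_lt
    · linarith
    · linarith
  set R1 : ℝ → ℝ := fun T => -(Real.log (-T) - Real.log (-(p.r * Real.cos (T + p.φ)))) -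
    T * (Real.sin (T + p.φ) / Real.cos (T + p.φ)) with hR1
  have hcont : ContinuousOn R1 (Ioo p.TL 0) := by
    intro T hT
    have hc := hcos T hT.1 hT.2.le
    have h1 : -T ≠ 0 := by linarith [hT.2]
    have h2 : -(p.r * Real.cos (T + p.φ)) ≠ 0 := by
      have := mul_pos_of_neg_of_neg (neg_neg_of_pos hr) hc
      linarith
    apply ContinuousAt.continuousWithinAt
    refine ContinuousAt.sub (ContinuousAt.neg (ContinuousAt.sub ?_ ?_)) ?_
    · exact continuousAt_id.neg.log h1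
    · exact (ContinuousAt.neg (by fun_prop)).log h2
    · exact continuousAt_id.mul (ContinuousAt.div (by fun_prop) (by fun_prop) hc.ne)
  -- near `TL`
  obtain ⟨Ta, hTa1, hTa2, hTa3⟩ : ∃ T, p.TL < T ∧ T < 0 ∧ R1 T < 0 := by
    have h1 : ∀ᶠ T in 𝓝 p.TL, 0 < -T + p.r * Real.cos (T + p.φ) := by
      have hct : ContinuousAt (fun T => -T + p.r * Real.cos (T + p.φ)) p.TL := by fun_prop
      apply hct.eventually_const_lt
      have h0 : p.TL + p.φ = Real.pi / 2 := by rw [hTL]; ring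
      change 0 < -p.TL + p.r * Real.cos (p.TL + p.φ)
      rw [h0, Real.cos_pi_div_two]
      linarith
    have h2 : ∀ᶠ T in 𝓝 p.TL, T < 0 ∧ T + p.φ < Real.pi := by
      have h3 : ∀ᶠ T in 𝓝 p.TL, T < 0 := eventually_lt_nhds h
      have h4 : ∀ᶠ T in 𝓝 p.TL, T < Real.pi - p.φ := eventually_lt_nhds (by rw [hTL]; linarith)
      filter_upwards [h3, h4] with T h5 h6
      exact ⟨h5, by linarith⟩
    have h3 : ∃ᶠ T in 𝓝 p.TL, p.TL < T :=
      (eventually_mem_nhdsWithin (a := p.TL) (s := Ioi p.TL)).frequently.filter_mono nhdsWithin_le_nhds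
    obtain ⟨T, h4, ⟨h5, h6, h7⟩⟩ := (h3.and_eventually (h1.and h2)).exists
    refine ⟨T, h4, h6, ?_⟩
    have hc := hcos T h4 h6.le
    have hs : 0 < Real.sin (T + p.φ) := Real.sin_pos_of_pos_of_lt_pi (by linarith) h7
    have h8 : Real.log (-(p.r * Real.cos (T + p.φ))) < Real.log (-T) := by
      apply Real.log_lt_log
      · have := mul_pos_of_neg_of_neg (neg_neg_of_pos hr) hc
        linarith
      · linarith
    have h9 : 0 < T * (Real.sin (T + p.φ) / Real.cos (T + p.φ)) :=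
      mul_pos_of_neg_of_neg h6 (div_neg_of_pos_of_neg hs hc)
    simp only [hR1]
    linarith
  -- near `0`
  obtain ⟨Tc, hTc1, hTc2, hTc3⟩ : ∃ T, Ta < T ∧ T < 0 ∧ 0 < R1 T := by
    have hc := hcos 0 h le_rfl
    have h0 : -(p.r * Real.cos (0 + p.φ)) ≠ 0 := by
      have := mul_pos_of_neg_of_neg (neg_neg_of_pos hr) hc
      linarith
    have hct : ContinuousAt (fun T => Real.log (-(p.r * Real.cos (T + p.φ))) -
        T * (Real.sin (T + p.φ) / Real.cos (T + p.φ))) 0 := by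
      refine ContinuousAt.sub ?_ ?_
      · exact (ContinuousAt.neg (by fun_prop)).log h0
      · exact continuousAt_id.mul (ContinuousAt.div (by fun_prop) (by fun_prop) hc.ne)
    set L0 := Real.log (-(p.r * Real.cos (0 + p.φ))) with hL0
    have h1 : ∀ᶠ T in 𝓝 (0 : ℝ), L0 - 1 < Real.log (-(p.r * Real.cos (T + p.φ))) -
        T * (Real.sin (T + p.φ) / Real.cos (T + p.φ)) := by
      apply hct.eventually_const_lt
      change L0 - 1 < L0 - 0 * (Real.sin (0 + p.φ) / Real.cos (0 + p.φ))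
      linarith
    have h2 : ∀ᶠ T in 𝓝 (0 : ℝ), -Real.exp (L0 - 1) < T :=
      eventually_gt_nhds (by have := Real.exp_pos (L0 - 1); linarith)
    have h3 : ∀ᶠ T in 𝓝 (0 : ℝ), Ta < T := eventually_gt_nhds hTa2
    have h4 : ∃ᶠ T in 𝓝 (0 : ℝ), T < 0 :=
      (eventually_mem_nhdsWithin (a := (0 : ℝ)) (s := Iio 0)).frequently.filter_mono nhdsWithin_le_nhds
    obtain ⟨T, h5, h6, h7, h8⟩ := (h4.and_eventually (h1.and (h2.and h3))).exists
    refine ⟨T, h8, h5, ?_⟩
    have h9 : Real.log (-T) < L0 - 1 := by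
      rw [Real.log_lt_iff_lt_exp (by linarith)]
      linarith
    simp only [hR1]
    linarith
  obtain ⟨T1, hT1, hT1'⟩ : ∃ T ∈ Icc Ta Tc, R1 T = 0 := by
    have h1 : (0 : ℝ) ∈ Icc (R1 Ta) (R1 Tc) := ⟨hTa3.le, hTc3.le⟩
    have h2 : ContinuousOn R1 (Icc Ta Tc) := hcont.mono fun T hT =>
      ⟨hTa1.trans_le hT.1, hT.2.trans_lt hTc2⟩
    exact intermediate_value_Icc hTc1.le h2 h1
  have hT1a : p.TL < T1 := hTa1.trans_le hT1.1
  have hT1b : T1 < 0 := hT1.2.trans_lt hTc2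
  have hc1 := hcos T1 hT1a hT1b.le
  set κ := -(p.r * Real.cos (T1 + p.φ)) with hκ
  have hκ0 : 0 < κ := by
    have := mul_pos_of_neg_of_neg (neg_neg_of_pos hr) hc1
    linarith
  set X1 := Real.log (-T1) - Real.log κ with hX1
  have hexp : κ * Real.exp X1 = -T1 := by
    rw [hX1, Real.exp_sub, Real.exp_log (by linarith), Real.exp_log hκ0]
    field_simp
  refine ⟨X1, T1, hT1b, fun Tb hTb hTb' => ?_⟩
  -- the saddle
  have hcrit1 : -T1 + p.r * Real.exp X1 * Real.cos (T1 + p.φ) = 0 := by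
    rw [hκ] at hexp
    linarith
  have hcrit2 : -X1 - p.r * Real.exp X1 * Real.sin (T1 + p.φ) = 0 := by
    have h1 : R1 T1 = -X1 - T1 * (Real.sin (T1 + p.φ) / Real.cos (T1 + p.φ)) := by
      simp only [hR1, hX1, hκ]
    rw [h1] at hT1'
    have h2 : T1 * (Real.sin (T1 + p.φ) / Real.cos (T1 + p.φ)) =
        p.r * Real.exp X1 * Real.sin (T1 + p.φ) := by
      have h3 : T1 = p.r * Real.exp X1 * Real.cos (T1 + p.φ) := by linarith
      have h4 : ∀ c s t : ℝ, c ≠ 0 → t * c * (s / c) = t * s := by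
        intro c s t hc
        field_simp
      nth_rewrite 1 [h3]
      exact h4 _ _ _ hc1.ne
    linarith
  obtain ⟨δ0, hδ0, hsad⟩ := p.sad (V := 1) (W := 0) hcrit1 hcrit2 (by linarith)
  have hS := hsad δ0 hδ0 le_rfl
  -- heights on the line `T = T1`
  have hg : ∀ x, p.g (X1 + x) T1 = p.g X1 T1 - (-T1) * (Real.exp x - 1 - x) := by
    intro x
    unfold g
    rw [Real.exp_add]
    linear_combination (Real.exp x - 1) * hcrit1
  refine N1G1_build p (c3 := p.g X1 T1 - (-T1) * (Real.exp δ0 - 1 - δ0) / 2) (Xa := X1 - δ0)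
    (Ta := T1) (Xc := X1 + δ0) (Tc := T1) hS ?_ ?_ hT1b ?_ hT1a ?_ ?_ ?_ (by linarith) hTb'
  · unfold pt
    apply Complex.ext <;> simp
  · unfold pt
    apply Complex.ext <;> simp
  · intro X hX
    have h1 := hg (X - X1)
    rw [add_sub_cancel] at h1
    rw [h1]
    have h2 := Real.add_one_lt_exp (x := X - X1) (by linarith)
    have h3 : 0 < (-T1) * (Real.exp (X - X1) - 1 - (X - X1)) :=
      mul_pos (by linarith) (by linarith)
    linarith
  · linarith
  · have h2 := Real.add_one_lt_exp hδ0.ne'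
    have h3 : 0 < (-T1) * (Real.exp δ0 - 1 - δ0) := mul_pos (by linarith) (by linarith)
    linarith
  · intro X hX
    have h1 := hg (X - X1)
    rw [add_sub_cancel] at h1
    rw [h1]
    have h2 := Real.add_one_lt_exp hδ0.ne'
    have h3 : 0 < (-T1) * (Real.exp δ0 - 1 - δ0) := mul_pos (by linarith) (by linarith)
    have h4 : Real.exp δ0 - 1 - δ0 ≤ Real.exp (X - X1) - 1 - (X - X1) := by
      have h5 : Real.exp (X - X1) = Real.exp δ0 * Real.exp (X - X1 - δ0) := by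
        rw [← Real.exp_add]
        congr 1
        ring
      have h6 := Real.add_one_le_exp (X - X1 - δ0)
      have h7 : 1 ≤ Real.exp δ0 := Real.one_le_exp hδ0.le
      have h8 : 0 ≤ X - X1 - δ0 := by linarith
      nlinarith only [h5, h6, h7, h8]
    have h9 := mul_le_mul_of_nonneg_left h4 (by linarith : (0 : ℝ) ≤ -T1)
    linarith

/-- The lower half of the contour, `TL = 0`: over the saddle point `(X1, 0)`, `X1 + r e^X1 = 0`. -/
theorem lower_zero (h : p.TL = 0) :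
    ∃ (X1 : ℝ), ∀ Tb, 0 < Tb → Tb < p.TR →
      ∃ c' < p.g X1 0, ∃ Y0 : ℝ, ∀ Yb : ℝ, Y0 ≤ Yb → ∃ R0 : ℝ, ∀ R : ℝ, R0 ≤ R →
        Chain I (Ph p.ζ) (p.g X1 0) c' (-1 - R * I) [pt X1 0] (pt Yb Tb) := by
  have hr := p.hr
  have hpi := Real.pi_pos
  have hφ : p.φ = Real.pi / 2 := by
    have : p.TL = Real.pi / 2 - p.φ := rfl
    linarith
  have hTR : p.TR = Real.pi := by
    have : p.TR = 3 * Real.pi / 2 - p.φ := rfl
    rw [this, hφ]
    ring
  obtain ⟨X1, hX1, hX1'⟩ : ∃ X ∈ Icc (-p.r) 0, X + p.r * Real.exp X = 0 := by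
    have h1 : ContinuousOn (fun X => X + p.r * Real.exp X) (Icc (-p.r) 0) := by fun_prop
    have h2 : (0 : ℝ) ∈ Icc ((fun X => X + p.r * Real.exp X) (-p.r))
        ((fun X => X + p.r * Real.exp X) 0) := by
      constructor
      · have : Real.exp (-p.r) ≤ 1 := Real.exp_le_one_iff.2 (by linarith)
        simp only
        nlinarith only [hr, this]
      · simp only [Real.exp_zero]
        linarith
    exact intermediate_value_Icc (by linarith) h1 h2
  refine ⟨X1, fun Tb hTb hTb' => ?_⟩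
  obtain ⟨δ0, hδ0, hsad⟩ := p.sad (X := X1) (T := 0) (V := 1) (W := 1)
    (by rw [zero_add, hφ, Real.cos_pi_div_two]; ring)
    (by rw [zero_add, hφ, Real.sin_pi_div_two]; linarith) (by linarith [hX1.2])
  set δ := min δ0 1 with hδ
  have hδpos : 0 < δ := lt_min hδ0 one_pos
  have hδ1 : δ ≤ 1 := min_le_right _ _
  have hS := hsad δ hδpos (min_le_left _ _)
  have hsin : 0 < Real.sin δ := Real.sin_pos_of_pos_of_lt_pi hδpos (by
    have := Real.pi_gt_three
    linarith)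
  have hgn : ∀ X, p.g X (-δ) = δ * X + p.r * Real.exp X * Real.sin δ := by
    intro X
    unfold g
    rw [hφ, Real.cos_add_pi_div_two, Real.sin_neg]
    ring
  have hgp : ∀ X, p.g X δ = -(δ * X) - p.r * Real.exp X * Real.sin δ := by
    intro X
    unfold g
    rw [hφ, Real.cos_add_pi_div_two]
    ring
  have hA : pt X1 0 - (δ * pt 1 1 : ℂ) = pt (X1 - δ) (-δ) := by
    unfold pt
    apply Complex.ext <;> simp
  have hC : pt X1 0 + (δ * pt 1 1 : ℂ) = pt (X1 + δ) δ := by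
    unfold pt
    apply Complex.ext <;> simp
  have hAlt : p.g (X1 - δ) (-δ) < p.g X1 0 := by
    have h1 := hS.seg (-1) (by simp) (by norm_num)
    have h2 : pt X1 0 + ((-1 : ℝ) : ℂ) * (δ * pt 1 1 : ℂ) = pt (X1 - δ) (-δ) := by
      rw [← hA]
      push_cast
      ring
    rw [h2] at h1
    rw [← p.G_pt]
    exact h1
  have hClt : p.g (X1 + δ) δ < p.g X1 0 := by
    have h1 := hS.seg 1 (by simp) (by norm_num)
    have h2 : pt X1 0 + ((1 : ℝ) : ℂ) * (δ * pt 1 1 : ℂ) = pt (X1 + δ) δ := by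
      rw [← hC]
      push_cast
      ring
    rw [h2] at h1
    rw [← p.G_pt]
    exact h1
  obtain ⟨c3, hc3, hc3'⟩ := exists_between hClt
  refine N1G1_build p (c3 := c3) hS hA hC (by linarith) ?_ (by linarith) ?_ hc3' ?_ (by linarith) hTb'
  · intro X hX
    refine lt_of_le_of_lt ?_ hAlt
    rw [hgn, hgn]
    have h1 : Real.exp X ≤ Real.exp (X1 - δ) := Real.exp_le_exp.2 hX
    have h2 : p.r * Real.exp X * Real.sin δ ≤ p.r * Real.exp (X1 - δ) * Real.sin δ := by
      gcongr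
    have h3 : δ * X ≤ δ * (X1 - δ) := mul_le_mul_of_nonneg_left hX hδpos.le
    linarith
  · rw [hTR]
    have := Real.pi_gt_three
    linarith
  · intro X hX
    refine lt_of_le_of_lt ?_ hc3
    rw [hgp, hgp]
    have h1 : Real.exp (X1 + δ) ≤ Real.exp X := Real.exp_le_exp.2 hX
    have h2 : p.r * Real.exp (X1 + δ) * Real.sin δ ≤ p.r * Real.exp X * Real.sin δ := by
      gcongr
    have h3 : δ * (X1 + δ) ≤ δ * X := mul_le_mul_of_nonneg_left hX hδpos.le
    linarith

end Par0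

end SokalN
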