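import Pool.Agent.Lib_MP_af4de1_v.N1G0

/-!
# The case `N = 1`, `u = i`: the fingers
-/

namespace SokalN

open SokalV Complex Filter Topology Set

namespace Par0

variable (p : Par0)

/-- The bottom of the finger. -/
noncomputable def X (T : ℝ) : ℝ := Real.log T - Real.log (p.r * Real.cos (T + p.φ))

noncomputable def f (T : ℝ) : ℝ := T - T * p.X T

noncomputable def f1 (T : ℝ) : ℝ := -p.X T - T * Real.tan (T + p.φ)

private theorem N1G2_TR_pos : 0 < p.TR := by
  have := p.h2
  unfold TR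
  linarith

private theorem N1G2_TR_lt : p.TR < p.TRR := by
  have := Real.pi_pos
  unfold TR TRR
  linarith

private theorem N1G2_cos {T : ℝ} (h1 : p.TR < T) (h2 : T < p.TRR) : 0 < Real.cos (T + p.φ) := by
  unfold TR at h1
  unfold TRR at h2
  have h3 : Real.cos (T + p.φ) = Real.cos (T + p.φ - 2 * Real.pi) := (Real.cos_sub_two_pi _).symm
  rw [h3]
  exact Real.cos_pos_of_mem_Ioo ⟨by linarith, by linarith⟩

private theorem N1G2_X {T : ℝ} (h0 : 0 < T) (hc : 0 < Real.cos (T + p.φ)) :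
    HasDerivAt p.X (1 / T + Real.tan (T + p.φ)) T := by
  have hr := p.hr
  have h1 : HasDerivAt (fun T : ℝ => p.r * Real.cos (T + p.φ)) (p.r * (-Real.sin (T + p.φ))) T := by
    have h2 : HasDerivAt (fun T : ℝ => T + p.φ) 1 T := (hasDerivAt_id T).add_const p.φ
    have h3 := h2.cos.const_mul p.r
    rw [mul_one] at h3
    exact h3
  have h2 := (Real.hasDerivAt_log h0.ne').sub (h1.log (mul_pos hr hc).ne')
  refine h2.congr_deriv ?_
  rw [Real.tan_eq_sin_div_cos]
  field_simp
  ring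

theorem hasDerivAt_f {T : ℝ} (h1 : p.TR < T) (h2 : T < p.TRR) : HasDerivAt p.f (p.f1 T) T := by
  have hT : 0 < T := p.N1G2_TR_pos.trans h1
  have h3 := p.N1G2_X hT (p.N1G2_cos h1 h2)
  have h4 := (hasDerivAt_id T).sub ((hasDerivAt_id T).mul h3)
  refine h4.congr_deriv ?_
  unfold f1
  simp only [id]
  field_simp
  ring

private theorem N1G2_f1 {T : ℝ} (h1 : p.TR < T) (h2 : T < p.TRR) :
    HasDerivAt p.f1 (-((1 + T * Real.tan (T + p.φ)) ^ 2 + T ^ 2) / T) T := by
  have hT : 0 < T := p.N1G2_TR_pos.trans h1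
  have hc := p.N1G2_cos h1 h2
  have h3 := p.N1G2_X hT hc
  have h5 : HasDerivAt (fun T : ℝ => Real.tan (T + p.φ)) (1 / Real.cos (T + p.φ) ^ 2) T := by
    have h2 : HasDerivAt (fun T : ℝ => T + p.φ) 1 T := (hasDerivAt_id T).add_const p.φ
    have h3 := (Real.hasDerivAt_tan hc.ne').comp T h2
    rw [mul_one] at h3
    exact h3
  have h4 := h3.neg.sub ((hasDerivAt_id T).mul h5)
  refine h4.congr_deriv ?_
  simp only [id]
  have h6 : 1 / Real.cos (T + p.φ) ^ 2 = 1 + Real.tan (T + p.φ) ^ 2 := by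
    rw [Real.tan_eq_sin_div_cos]
    have := Real.sin_sq_add_cos_sq (T + p.φ)
    field_simp
    linarith
  rw [h6]
  field_simp
  ring

theorem f1_strictAnti : StrictAntiOn p.f1 (Ioo p.TR p.TRR) := by
  refine strictAntiOn_of_deriv_neg (convex_Ioo _ _) (fun T hT => ?_) fun T hT => ?_
  · exact (p.N1G2_f1 hT.1 hT.2).continuousAt.continuousWithinAt
  · rw [interior_Ioo] at hT
    rw [(p.N1G2_f1 hT.1 hT.2).deriv]
    have h0 : 0 < T := p.N1G2_TR_pos.trans hT.1
    refine div_neg_of_neg_of_pos ?_ h0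
    have := sq_nonneg (1 + T * Real.tan (T + p.φ))
    have : 0 < T ^ 2 := by positivity
    linarith

/-- The saddle point of the finger. -/
theorem exists_zero : ∃ T2 ∈ Ioo p.TR p.TRR, p.f1 T2 = 0 := by
  have h0 := p.N1G2_TR_pos
  have h01 := p.N1G2_TR_lt
  have hr := p.hr
  set h : ℝ → ℝ := fun T => (-Real.log T + Real.log p.r) * Real.cos (T + p.φ) +
    Real.cos (T + p.φ) * Real.log (Real.cos (T + p.φ)) - T * Real.sin (T + p.φ) with hh
  have hcont : ContinuousOn h (Icc p.TR p.TRR) := by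
    have h1 : ContinuousOn Real.log (Icc p.TR p.TRR) :=
      Real.continuousOn_log.mono fun T hT => (h0.trans_le hT.1).ne'
    have h2 : Continuous fun T : ℝ => Real.cos (T + p.φ) * Real.log (Real.cos (T + p.φ)) :=
      Real.continuous_mul_log.comp (by fun_prop)
    refine ((h1.neg.add continuousOn_const).mul (by fun_prop)).add h2.continuousOn |>.sub (by fun_prop)
  have hs1 : p.TR + p.φ = 3 * Real.pi / 2 := by unfold TR; ring
  have hs2 : p.TRR + p.φ = 5 * Real.pi / 2 := by unfold TRR; ring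
  have hc1 : Real.cos (3 * Real.pi / 2) = 0 := by
    have : 3 * Real.pi / 2 = Real.pi / 2 + Real.pi := by ring
    rw [this, Real.cos_add_pi, Real.cos_pi_div_two, neg_zero]
  have hc2 : Real.sin (3 * Real.pi / 2) = -1 := by
    have : 3 * Real.pi / 2 = Real.pi / 2 + Real.pi := by ring
    rw [this, Real.sin_add_pi, Real.sin_pi_div_two]
  have hc3 : Real.cos (5 * Real.pi / 2) = 0 := by
    have : 5 * Real.pi / 2 = Real.pi / 2 + 2 * Real.pi := by ring
    rw [this, Real.cos_add_two_pi, Real.cos_pi_div_two]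
  have hc4 : Real.sin (5 * Real.pi / 2) = 1 := by
    have : 5 * Real.pi / 2 = Real.pi / 2 + 2 * Real.pi := by ring
    rw [this, Real.sin_add_two_pi, Real.sin_pi_div_two]
  have e1 : h p.TR = p.TR := by
    simp only [hh, hs1, hc1, hc2]
    ring
  have e2 : h p.TRR = -p.TRR := by
    simp only [hh, hs2, hc3, hc4]
    ring
  have hmem : (0 : ℝ) ∈ Ioo (h p.TRR) (h p.TR) := by
    rw [e1, e2]
    exact ⟨by linarith, h0⟩
  obtain ⟨T2, hT2, h5⟩ := intermediate_value_Ioo' h01.le hcont hmem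
  refine ⟨T2, hT2, ?_⟩
  have hc := p.N1G2_cos hT2.1 hT2.2
  have h6 : p.f1 T2 * Real.cos (T2 + p.φ) = h T2 := by
    simp only [hh, f1, X]
    rw [Real.log_mul hr.ne' hc.ne', Real.tan_eq_sin_div_cos]
    field_simp
    ring
  rw [h5] at h6
  exact (mul_eq_zero.1 h6).resolve_right hc.ne'

private theorem N1G2_min {x y C : ℝ} (hx : 0 < x) (hC : 0 < C) :
    x - x * (Real.log x - Real.log C) ≤ -y * x + Real.exp y * C := by
  have h1 := Real.add_one_le_exp (y - (Real.log x - Real.log C))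
  have h2 : Real.exp (y - (Real.log x - Real.log C)) = Real.exp y * (C / x) := by
    rw [Real.exp_sub, Real.exp_sub, Real.exp_log hx, Real.exp_log hC]
    field_simp
  rw [h2] at h1
  have h3 := mul_le_mul_of_nonneg_left h1 hx.le
  have h4 : x * (Real.exp y * (C / x)) = Real.exp y * C := by field_simp
  rw [h4] at h3
  linarith

/-- The far fingers (concavity). -/
theorem far_lt (NT : ∀ T : ℝ, 0 < T → Real.exp 1 * p.r * Real.cos (T + p.φ) ≤ T) {c : ℝ}
    (hc : ∀ T ∈ Ioo p.TR p.TRR, p.f T ≤ c) {T : ℝ} (hT : p.TRR ≤ T)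
    (h : 0 < Real.cos (T + p.φ)) : p.f T < c := by
  have h0 := p.N1G2_TR_pos
  have h01 := p.N1G2_TR_lt
  have hr := p.hr
  have hπ := Real.pi_pos
  have hφ1 := p.h1
  have hφ2 := p.h2
  have hT0 : 0 < T := by linarith
  -- the index of the finger
  set k : ℤ := round ((T + p.φ) / (2 * Real.pi)) with hk
  set θ : ℝ := T + p.φ - 2 * Real.pi * k with hθ
  have hk1 : |(T + p.φ) / (2 * Real.pi) - k| ≤ 1 / 2 := abs_sub_round _
  have hθ1 : |θ| ≤ Real.pi := by
    have h1 : θ = 2 * Real.pi * ((T + p.φ) / (2 * Real.pi) - k) := by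
      rw [hθ]
      field_simp
    rw [h1, abs_mul, abs_of_pos (by positivity)]
    have h2 := mul_le_mul_of_nonneg_left hk1 (by positivity : (0 : ℝ) ≤ 2 * Real.pi)
    linarith
  have hcθ : Real.cos θ = Real.cos (T + p.φ) := by
    have h1 : T + p.φ = θ + k * (2 * Real.pi) := by rw [hθ]; ring
    rw [h1, Real.cos_add_int_mul_two_pi]
  have hθ2 : |θ| < Real.pi / 2 := by
    by_contra hcon
    push Not at hcon
    have h1 : Real.cos |θ| ≤ 0 := Real.cos_nonpos_of_pi_div_two_le_of_le hcon (by linarith)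
    rw [Real.cos_abs, hcθ] at h1
    linarith
  have hθ3 := abs_lt.1 hθ2
  have hTRR : p.TRR = 5 * Real.pi / 2 - p.φ := rfl
  have hTR : p.TR = 3 * Real.pi / 2 - p.φ := rfl
  have hk2 : (2 : ℝ) ≤ k := by
    have h1 : 2 * Real.pi < 2 * Real.pi * k := by
      have : 2 * Real.pi * k = T + p.φ - θ := by rw [hθ]; ring
      rw [this]
      linarith
    have h2 : (1 : ℝ) < k := by
      by_contra hcon
      push Not at hcon
      have h3 := mul_le_mul_of_nonneg_left hcon (by positivity : (0 : ℝ) ≤ 2 * Real.pi)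
      linarith
    have h3 : (1 : ℤ) < k := by exact_mod_cast h2
    have h4 : (2 : ℤ) ≤ k := by omega
    exact_mod_cast h4
  have hd : 0 < 2 * Real.pi - p.φ := by linarith
  have hd2 : 2 * Real.pi - p.φ < 2 * Real.pi * k - p.φ := by
    have h3 := mul_le_mul_of_nonneg_left hk2 (by positivity : (0 : ℝ) ≤ 2 * Real.pi)
    linarith
  have hd3 : 0 < 2 * Real.pi * k - p.φ := hd.trans hd2
  set l : ℝ := (2 * Real.pi - p.φ) / (2 * Real.pi * k - p.φ) with hl
  have hl0 : 0 < l := div_pos hd hd3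
  have hl1 : l < 1 := (div_lt_one hd3).2 hd2
  have hl2 : l * (2 * Real.pi * k - p.φ) = 2 * Real.pi - p.φ := div_mul_cancel₀ _ hd3.ne'
  have e1 : l * T + p.φ = l * θ + 2 * Real.pi := by
    rw [hθ]
    linear_combination hl2
  have hlθ : |l * θ| < Real.pi / 2 := by
    rw [abs_mul, abs_of_pos hl0]
    have h3 := mul_le_mul_of_nonneg_right hl1.le (abs_nonneg θ)
    linarith
  have hlθ2 := abs_lt.1 hlθ
  have hmem : l * T ∈ Ioo p.TR p.TRR := by
    rw [hTR, hTRR]
    constructor <;> linarith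
  have hc' := hc _ hmem
  have hcl := p.N1G2_cos hmem.1 hmem.2
  have e2 : Real.cos (l * T + p.φ) = Real.cos (l * θ) := by rw [e1, Real.cos_add_two_pi]
  -- concavity
  have hconc : l * Real.cos θ + (1 - l) ≤ Real.cos (l * θ) := by
    have h1 := strictConcaveOn_cos_Icc.concaveOn.2 (x := θ) (y := 0)
      ⟨hθ3.1.le, hθ3.2.le⟩ ⟨by linarith, by linarith⟩ hl0.le (by linarith : (0 : ℝ) ≤ 1 - l)
      (by ring)
    simp only [smul_eq_mul, mul_zero, add_zero, Real.cos_zero, mul_one] at h1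
    exact h1
  have hlT : 0 < l * T := mul_pos hl0 hT0
  -- value at `l T`
  set X' : ℝ := p.X (l * T) with hX'
  have e3 : Real.exp X' * (p.r * Real.cos (l * T + p.φ)) = l * T := by
    rw [hX', X, Real.exp_sub, Real.exp_log hlT, Real.exp_log (mul_pos hr hcl)]
    field_simp
  have h7 : p.f T ≤ -X' * T + Real.exp X' * (p.r * Real.cos (T + p.φ)) := by
    exact N1G2_min hT0 (mul_pos hr h)
  have h8 : p.f T ≤ 0 := by
    have h1 := NT T hT0
    have h2 : Real.log (Real.exp 1 * p.r * Real.cos (T + p.φ)) ≤ Real.log T :=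
      Real.log_le_log (by positivity) h1
    rw [mul_assoc, Real.log_mul (Real.exp_pos 1).ne' (mul_pos hr h).ne', Real.log_exp] at h2
    have h3 : 1 ≤ p.X T := by unfold X; linarith
    have h4 := mul_le_mul_of_nonneg_left h3 hT0.le
    unfold f
    linarith
  have h9 : p.f (l * T) = -X' * (l * T) + Real.exp X' * (p.r * Real.cos (l * T + p.φ)) := by
    rw [e3]
    unfold f
    ring
  have h10 : l * p.f T ≤ l * (-X' * T + Real.exp X' * (p.r * Real.cos (T + p.φ))) :=
    mul_le_mul_of_nonneg_left h7 hl0.le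
  have h11 : 0 < Real.exp X' * p.r := mul_pos (Real.exp_pos _) hr
  have h12 : Real.exp X' * p.r * (l * Real.cos (T + p.φ) + (1 - l)) ≤
      Real.exp X' * p.r * Real.cos (l * T + p.φ) := by
    rw [e2, ← hcθ]
    exact mul_le_mul_of_nonneg_left hconc h11.le
  have h13 : 0 < Real.exp X' * p.r * (1 - l) := mul_pos h11 (by linarith)
  have h14 : 1 * p.f T ≤ l * p.f T := mul_le_mul_of_nonpos_right hl1.le h8
  have h15 : l * (-X' * T + Real.exp X' * (p.r * Real.cos (T + p.φ))) = -X' * (l * T) +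
      (Real.exp X' * p.r * (l * Real.cos (T + p.φ) + (1 - l)) - Real.exp X' * p.r * (1 - l)) := by
    ring
  have h16 : Real.exp X' * (p.r * Real.cos (l * T + p.φ)) =
      Real.exp X' * p.r * Real.cos (l * T + p.φ) := by ring
  linarith

/-- The clipped curve. -/
noncomputable def Z (K T : ℝ) : ℝ :=
  Real.log T - Real.log (max (p.r * Real.cos (T + p.φ)) (T * Real.exp (-K)))

end Par0

end SokalN
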