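import Pool.Agent.Lib_MP_af4de1_v.Conn

/-!
# The tails [SV-TAIL]

`1/t = (a+ib)/‖t‖`, `a = Re t/‖t‖ ≥ 0`, `b = -Im t/‖t‖ ≥ 0`, `a²+b² = 1`, so `a + b ≥ 1`.
`‖t‖ Re(Ph ζ (1+sI)/t) = a(1-s²)/2 - bs + Re(u ζ e^{1+sI}) ≤ 1/2 + e‖ζ‖ - s/2` for `s ≥ 1` (`as²/2 + bs ≥ (a+b)s/2`), and
`‖t‖ Re(Ph ζ (-1+sI)/t) ≤ 1/2 + ‖ζ‖ - |s|/2` for `s ≤ -1`.  So for `R ≥ 1` the tails are `≤ 2‖t‖ exp((1/2+e‖ζ‖-R/2)/‖t‖)`, times
`e‖ζ‖` with the factor `ζe^H`.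
-/

namespace SokalV

open Complex MeasureTheory

/-- The integral of an exponentially small function. -/
private lemma int_bound {f : ℝ → ℂ} {A T R K : ℝ} (hT : 0 < T)
    (h : ∀ s : ℝ, R < s → ‖f s‖ ≤ K * Real.exp ((A - s / 2) / T)) :
    ‖∫ s in Set.Ioi R, f s‖ ≤ K * (2 * T * Real.exp ((A - R / 2) / T)) := by
  have ha : -(1 / (2 * T)) < 0 := by
    have : 0 < 1 / (2 * T) := by positivity
    linarith
  have hsplit : ∀ s : ℝ, K * Real.exp ((A - s / 2) / T) =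
      (K * Real.exp (A / T)) * Real.exp (-(1 / (2 * T)) * s) := by
    intro s
    rw [mul_assoc, ← Real.exp_add]
    congr 2
    field_simp
    ring
  have hint : IntegrableOn (fun s : ℝ => (K * Real.exp (A / T)) * Real.exp (-(1 / (2 * T)) * s))
      (Set.Ioi R) := (integrableOn_exp_mul_Ioi ha R).const_mul _
  have h1 : ‖∫ s in Set.Ioi R, f s‖ ≤
      ∫ s in Set.Ioi R, (K * Real.exp (A / T)) * Real.exp (-(1 / (2 * T)) * s) := by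
    refine norm_integral_le_of_norm_le hint ?_
    refine (ae_restrict_iff' measurableSet_Ioi).mpr (Filter.Eventually.of_forall fun s hs => ?_)
    rw [← hsplit]
    exact h s hs
  refine h1.trans (le_of_eq ?_)
  rw [integral_const_mul, integral_exp_mul_Ioi ha]
  have h2 : -Real.exp (-(1 / (2 * T)) * R) / -(1 / (2 * T)) =
      2 * T * Real.exp (-(1 / (2 * T)) * R) := by
    rw [neg_div_neg_eq, div_div_eq_mul_div]
    ring
  have h3 := hsplit R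
  rw [h2]
  calc K * Real.exp (A / T) * (2 * T * Real.exp (-(1 / (2 * T)) * R))
      = 2 * T * ((K * Real.exp (A / T)) * Real.exp (-(1 / (2 * T)) * R)) := by ring
    _ = K * (2 * T * Real.exp ((A - R / 2) / T)) := by
      rw [← h3]
      ring

/-- The height on the two verticals. -/
private lemma re_bound {t ζ H : ℂ} (ht : t ≠ 0) (hre : 0 ≤ t.re) (him : t.im ≤ 0) {s : ℝ}
    (hs : 1 ≤ s) (hH : H ^ 2 = (1 + s * I) ^ 2) (hH1 : H.re ≤ 1) :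
    (Ph ζ H / t).re ≤ (1 / 2 + 3 * ‖ζ‖ - s / 2) / ‖t‖ := by
  have hn : 0 < ‖t‖ := norm_pos_iff.mpr ht
  have he : Real.exp H.re ≤ 3 := by
    have h1 : Real.exp H.re ≤ Real.exp 1 := Real.exp_le_exp.mpr hH1
    have h2 := Real.exp_one_lt_d9
    linarith
  have h1 : (ζ * cexp H / t).re ≤ 3 * ‖ζ‖ / ‖t‖ := by
    refine (re_le_norm _).trans ?_
    rw [norm_div, norm_mul, norm_exp]
    have h2 : ‖ζ‖ * Real.exp H.re ≤ 3 * ‖ζ‖ := by nlinarith [norm_nonneg ζ]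
    exact div_le_div_of_nonneg_right h2 hn.le
  have hsq : ‖t‖ ^ 2 = t.re ^ 2 + t.im ^ 2 := by
    rw [← normSq_eq_norm_sq, normSq_apply]
    ring
  have h2 : (H ^ 2 / 2 / t).re = ((1 - s ^ 2) / 2 * t.re + s * t.im) / ‖t‖ ^ 2 := by
    rw [hH]
    have h3 : ((1 + (s : ℂ) * I) ^ 2 / 2 : ℂ) = (((1 - s ^ 2) / 2 : ℝ) : ℂ) + (s : ℝ) * I := by
      have hI : I ^ 2 = -1 := I_sq
      push_cast
      linear_combination (s : ℂ) ^ 2 / 2 * hI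
    rw [h3, div_re]
    simp only [add_re, ofReal_re, mul_re, I_re, mul_zero, ofReal_im, I_im, mul_one, sub_self,
      add_zero, add_im, mul_im, zero_add]
    rw [normSq_eq_norm_sq]
    ring
  have h4 : t.re ≤ ‖t‖ := re_le_norm t
  have h5 : ‖t‖ ≤ t.re - t.im := by
    refine abs_le_of_sq_le_sq' ?_ (by linarith) |>.2
    rw [hsq]
    nlinarith [mul_nonneg hre (neg_nonneg.mpr him)]
  have h6 : (1 - s ^ 2) / 2 * t.re + s * t.im ≤ (1 / 2 - s / 2) * ‖t‖ := by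
    have h7 : 0 ≤ (s - 1) * s * t.re := by
      have : 0 ≤ s - 1 := by linarith
      positivity
    have h8 : 0 ≤ s * (-t.im) := mul_nonneg (by linarith) (by linarith)
    have h9 : s * ‖t‖ ≤ s * (t.re - t.im) := mul_le_mul_of_nonneg_left h5 (by linarith)
    nlinarith
  have h7 : (H ^ 2 / 2 / t).re ≤ (1 / 2 - s / 2) / ‖t‖ := by
    rw [h2, div_le_div_iff₀ (by positivity) hn]
    have h8 := mul_le_mul_of_nonneg_right h6 hn.le
    nlinarith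
  have h8 : Ph ζ H / t = H ^ 2 / 2 / t + ζ * cexp H / t := by
    unfold Ph
    rw [add_div]
  rw [h8, add_re]
  have h9 : (1 / 2 + 3 * ‖ζ‖ - s / 2) / ‖t‖ = (1 / 2 - s / 2) / ‖t‖ + 3 * ‖ζ‖ / ‖t‖ := by
    rw [← add_div]
    ring
  rw [h9]
  exact add_le_add h7 h1

private lemma two_bounds {t ζ H : ℂ} (ht : t ≠ 0) (hre : 0 ≤ t.re) (him : t.im ≤ 0) {s : ℝ}
    (hs : 1 ≤ s) (hH : H ^ 2 = (1 + s * I) ^ 2) (hH1 : H.re ≤ 1) :
    ‖cexp (Ph ζ H / t)‖ ≤ 1 * Real.exp ((1 / 2 + 3 * ‖ζ‖ - s / 2) / ‖t‖) ∧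
    ‖ζ * cexp H * cexp (Ph ζ H / t)‖ ≤
      3 * ‖ζ‖ * Real.exp ((1 / 2 + 3 * ‖ζ‖ - s / 2) / ‖t‖) := by
  have h1 : ‖cexp (Ph ζ H / t)‖ ≤ Real.exp ((1 / 2 + 3 * ‖ζ‖ - s / 2) / ‖t‖) := by
    rw [norm_exp]
    exact Real.exp_le_exp.mpr (re_bound ht hre him hs hH hH1)
  have he : Real.exp H.re ≤ 3 := by
    have h1 : Real.exp H.re ≤ Real.exp 1 := Real.exp_le_exp.mpr hH1
    have h2 := Real.exp_one_lt_d9
    linarith
  refine ⟨by rw [one_mul]; exact h1, ?_⟩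
  rw [norm_mul]
  refine mul_le_mul ?_ h1 (norm_nonneg _) (by positivity)
  rw [norm_mul, norm_exp]
  nlinarith [norm_nonneg ζ]

theorem tail_pos {t ζ : ℂ} (ht : t ≠ 0) (hre : 0 ≤ t.re) (him : t.im ≤ 0) {R : ℝ} (hR : 1 ≤ R) :
    ‖∫ s in Set.Ioi R, cexp (Ph ζ (1 + s * I) / t)‖ ≤
      2 * ‖t‖ * Real.exp ((1 / 2 + 3 * ‖ζ‖ - R / 2) / ‖t‖) ∧
    ‖∫ s in Set.Ioi R, ζ * cexp (1 + s * I) * cexp (Ph ζ (1 + s * I) / t)‖ ≤
      6 * ‖ζ‖ * ‖t‖ * Real.exp ((1 / 2 + 3 * ‖ζ‖ - R / 2) / ‖t‖) := by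
  have hn : 0 < ‖t‖ := norm_pos_iff.mpr ht
  have hb : ∀ s : ℝ, R < s → _ := fun s hs =>
    two_bounds (ζ := ζ) (H := 1 + s * I) ht hre him (s := s) (by linarith) rfl (by simp)
  constructor
  · have h1 := int_bound (f := fun s : ℝ => cexp (Ph ζ (1 + s * I) / t)) hn
      fun s hs => (hb s hs).1
    rw [one_mul] at h1
    exact h1
  · have h1 := int_bound (f := fun s : ℝ => ζ * cexp (1 + s * I) * cexp (Ph ζ (1 + s * I) / t)) hn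
      fun s hs => (hb s hs).2
    refine h1.trans (le_of_eq ?_)
    ring

theorem tail_neg {t ζ : ℂ} (ht : t ≠ 0) (hre : 0 ≤ t.re) (him : t.im ≤ 0) {R : ℝ} (hR : 1 ≤ R) :
    ‖∫ s in Set.Iio (-R), cexp (Ph ζ (-1 + s * I) / t)‖ ≤
      2 * ‖t‖ * Real.exp ((1 / 2 + 3 * ‖ζ‖ - R / 2) / ‖t‖) ∧
    ‖∫ s in Set.Iio (-R), ζ * cexp (-1 + s * I) * cexp (Ph ζ (-1 + s * I) / t)‖ ≤
      6 * ‖ζ‖ * ‖t‖ * Real.exp ((1 / 2 + 3 * ‖ζ‖ - R / 2) / ‖t‖) := by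
  have hn : 0 < ‖t‖ := norm_pos_iff.mpr ht
  have hb : ∀ s : ℝ, R < s → _ := fun s hs =>
    two_bounds (ζ := ζ) (H := -1 + ((-s : ℝ) : ℂ) * I) ht hre him (s := s) (by linarith)
      (by push_cast; ring) (by simp)
  constructor
  · rw [← integral_Iic_eq_integral_Iio, ← integral_comp_neg_Ioi]
    have h1 := int_bound (f := fun s : ℝ => cexp (Ph ζ (-1 + ((-s : ℝ) : ℂ) * I) / t)) hn
      fun s hs => (hb s hs).1
    rw [one_mul] at h1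
    exact h1
  · rw [← integral_Iic_eq_integral_Iio, ← integral_comp_neg_Ioi]
    have h1 := int_bound (f := fun s : ℝ => ζ * cexp (-1 + ((-s : ℝ) : ℂ) * I) *
        cexp (Ph ζ (-1 + ((-s : ℝ) : ℂ) * I) / t)) hn
      fun s hs => (hb s hs).2
    refine h1.trans (le_of_eq ?_)
    ring

end SokalV
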