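import Pool.Agent.Lib_MP_af4de1_v.Fibre

/-!
# A line which reaches the top level contains a saddle point [SV-TOPB]

One lift, `ζ ≠ 0`, `c > 0`, `‖u‖ = 1`, `a = u.re ≥ 0`, `b = u.im ≥ 0`, `ρ(T) = Re(uζe^{TI})`.
(1) `ρ(T) > 0`: otherwise `Gp 0 T = -aT²/2 ≤ 0 < c`.
(2) The minimum of `X ↦ Gp X T = a(X²-T²)/2 - bXT + ρe^X` exists: `→ ∞` for `X → ∞`; for `X → -∞`: if `a > 0` clear; if `a = 0` then
`b = 1` and `T > 0` (`T < 0`: `Gp → -∞` for `X → -∞`; `T = 0`: `Gp X 0 = ρe^X → 0 < c`), so `-XT → ∞`.  Call it `X`; its value is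
`≥ c`, and not `> c` because of `hmax`.  So `Gp X T = c` and `∂_X = aX - bT + ρe^X = 0`.
(3) `∂_T G = 0` at `(X,T)`, where `G` is `Gh`: suppose `∂_T G = g ≠ 0`, take `T' = T + δ` with the sign of `g`.  For `|X'-X| ≤ r0`,
`G(X',T') ≥ G(X',T) + |δ||g|/2 - Cδ² ≥ c + |δ||g|/4` (`r0`, `δ` small); `G(X ± r0, T') ≥ c + η0/2 > G(X,T')` with
`η0 = min G(X ± r0, T) - c > 0` (strict convexity of `G(·,T)`, `ρ(T) > 0`), and convexity of `G(·,T')` in `X'`
gives `G(X',T') ≥ c + η0/2` for `|X'-X| ≥ r0`.  So all of the line `T'` is `≥ c1 > c`, against `hmax`.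
(4) Both real derivatives of `Re(u Ph)` vanish, so `u (S + ζe^S) = 0`, `S + ζe^S = 0`.
-/

namespace SokalV

open Complex Filter Topology

private theorem TopB_hasDerivAt (ζ H : ℂ) : HasDerivAt (Ph ζ) (H + ζ * cexp H) H := by
  have h := (((hasDerivAt_id H).pow 2).div_const 2).add ((Complex.hasDerivAt_exp H).const_mul ζ)
  have h2 : HasDerivAt (Ph ζ) (((2 : ℕ) : ℂ) * id H ^ (2 - 1) * 1 / 2 + ζ * cexp H) H := h
  have h3 : ((2 : ℕ) : ℂ) * id H ^ (2 - 1) * 1 / 2 + ζ * cexp H = H + ζ * cexp H := by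
    simp
  rw [h3] at h2
  exact h2

theorem deriv_Ph (ζ H : ℂ) : deriv (Ph ζ) H = H + ζ * cexp H :=
  (TopB_hasDerivAt ζ H).deriv

theorem deriv_deriv_Ph (ζ H : ℂ) : deriv (deriv (Ph ζ)) H = 1 + ζ * cexp H := by
  have h1 : deriv (Ph ζ) = fun H => H + ζ * cexp H := funext (deriv_Ph ζ)
  rw [h1]
  exact ((hasDerivAt_id H).add ((Complex.hasDerivAt_exp H).const_mul ζ)).deriv

theorem differentiable_Ph (ζ : ℂ) : Differentiable ℂ (Ph ζ) :=
  fun H => (TopB_hasDerivAt ζ H).differentiableAt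

private theorem TopB_re (w : ℂ) (T : ℝ) :
    (w * cexp (T * I)).re = w.re * Real.cos T - w.im * Real.sin T := by
  rw [Complex.mul_re, Complex.exp_ofReal_mul_I_re, Complex.exp_ofReal_mul_I_im]

private theorem TopB_im (w : ℂ) (T : ℝ) :
    (w * cexp (T * I)).im = w.re * Real.sin T + w.im * Real.cos T := by
  rw [Complex.mul_im, Complex.exp_ofReal_mul_I_re, Complex.exp_ofReal_mul_I_im]

private theorem TopB_reDeriv (w : ℂ) (T : ℝ) :
    HasDerivAt (fun T : ℝ => (w * cexp (T * I)).re) (-(w * cexp (T * I)).im) T := by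
  have h1 : (fun T : ℝ => (w * cexp (T * I)).re) =
      fun T : ℝ => w.re * Real.cos T - w.im * Real.sin T := funext (TopB_re w)
  rw [h1, TopB_im]
  have h2 := ((Real.hasDerivAt_cos T).const_mul w.re).sub ((Real.hasDerivAt_sin T).const_mul w.im)
  have h3 : w.re * -Real.sin T - w.im * Real.cos T = -(w.re * Real.sin T + w.im * Real.cos T) := by
    ring
  rw [h3] at h2
  exact h2

private theorem TopB_quad (A B C : ℝ) (hA : 0 < A) :
    Tendsto (fun X : ℝ => A * X ^ 2 + B * X + C) atTop atTop := by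
  have h1 : Tendsto (fun X : ℝ => A * X + B) atTop atTop :=
    tendsto_atTop_add_const_right _ _ (tendsto_id.const_mul_atTop hA)
  have h2 := h1.atTop_mul_atTop₀ tendsto_id
  have h3 := tendsto_atTop_add_const_right atTop C h2
  refine h3.congr (fun X => ?_)
  simp only [id]
  ring

/-- (1) and (2). -/
theorem top_min {u ζ : ℂ} (hu : ‖u‖ = 1) (hre : 0 ≤ u.re) (him : 0 ≤ u.im) {c T : ℝ}
    (hc : 0 < c) (hT : ∀ X : ℝ, c ≤ Gp u ζ X T) : 0 < (u * ζ * cexp (T * I)).re ∧
      (u.re = 0 → 0 < T) ∧ ∃ X : ℝ, (∀ X' : ℝ, Gp u ζ X T ≤ Gp u ζ X' T) ∧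
        u.re * X - u.im * T + Real.exp X * (u * ζ * cexp (T * I)).re = 0 := by
  have h1 : 0 < (u * ζ * cexp (T * I)).re := by
    by_contra h
    have h2 := hT 0
    unfold Gp at h2
    rw [max_eq_right (not_lt.1 h)] at h2
    nlinarith [mul_nonneg hre (sq_nonneg T)]
  have hG : ∀ X : ℝ, Gp u ζ X T = u.re * (X ^ 2 - T ^ 2) / 2 - u.im * X * T +
      Real.exp X * (u * ζ * cexp (T * I)).re := by
    intro X
    unfold Gp
    rw [max_eq_left h1.le]
  have h3 : u.re = 0 → 0 < T := by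
    intro h0
    by_contra h
    have hT0 : T ≤ 0 := not_lt.1 h
    have h4 : Tendsto (fun X : ℝ => Real.exp X * (u * ζ * cexp (T * I)).re) atBot (𝓝 0) := by
      have := Real.tendsto_exp_atBot.mul_const (u * ζ * cexp (T * I)).re
      rwa [zero_mul] at this
    obtain ⟨X, hX1, hX2⟩ := ((h4.eventually (gt_mem_nhds hc)).and (eventually_le_atBot (0 : ℝ))).exists
    have h5 := hT X
    rw [hG X, h0] at h5
    have h6 : 0 ≤ u.im * (X * T) := mul_nonneg him (mul_nonneg_of_nonpos_of_nonpos hX2 hT0)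
    nlinarith
  refine ⟨h1, h3, ?_⟩
  set r : ℝ := (u * ζ * cexp (T * I)).re with hr
  set f : ℝ → ℝ := fun X => u.re * (X ^ 2 - T ^ 2) / 2 - u.im * X * T + Real.exp X * r with hf
  have hGf : ∀ X, Gp u ζ X T = f X := hG
  have hcont : Continuous f := by
    rw [hf]
    fun_prop
  have htop : Tendsto f atTop atTop := by
    have h4 := TopB_quad (r / 2) (r - u.im * T) (r - u.re * T ^ 2 / 2) (by positivity)
    refine tendsto_atTop_mono' atTop ?_ h4
    filter_upwards [eventually_ge_atTop (0 : ℝ)] with X hX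
    have h5 := Real.quadratic_le_exp_of_nonneg hX
    have h6 := mul_le_mul_of_nonneg_right h5 h1.le
    have h7 : 0 ≤ u.re * X ^ 2 := mul_nonneg hre (sq_nonneg X)
    simp only [hf]
    nlinarith
  have hbot : Tendsto f atBot atTop := by
    have h4 : Tendsto (fun Y : ℝ => f (-Y)) atTop atTop := by
      rcases hre.eq_or_lt with h0 | h0
      · have hTp := h3 h0.symm
        have hb : 0 < u.im := by
          rcases him.eq_or_lt with h8 | h8
          · exfalso
            have h9 : u = 0 := Complex.ext h0.symm h8.symm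
            rw [h9, norm_zero] at hu
            exact zero_ne_one hu
          · exact h8
        have h5 : Tendsto (fun Y : ℝ => (u.im * T) * Y) atTop atTop :=
          tendsto_id.const_mul_atTop (mul_pos hb hTp)
        refine tendsto_atTop_mono (fun Y => ?_) h5
        simp only [hf, ← h0]
        have h6 : 0 ≤ Real.exp (-Y) * r := mul_nonneg (Real.exp_pos _).le h1.le
        nlinarith
      · have h5 := TopB_quad (u.re / 2) (u.im * T) (- (u.re * T ^ 2 / 2)) (by positivity)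
        refine tendsto_atTop_mono (fun Y => ?_) h5
        simp only [hf]
        have h6 : 0 ≤ Real.exp (-Y) * r := mul_nonneg (Real.exp_pos _).le h1.le
        nlinarith
    have h5 := h4.comp tendsto_neg_atBot_atTop
    refine h5.congr (fun X => ?_)
    simp
  have hlim : Tendsto f (cocompact ℝ) atTop := by
    rw [cocompact_eq_atBot_atTop]
    exact hbot.sup htop
  obtain ⟨X, hX⟩ := hcont.exists_forall_le hlim
  refine ⟨X, fun X' => by rw [hGf, hGf]; exact hX X', ?_⟩
  have hd : HasDerivAt f (u.re * X - u.im * T + Real.exp X * r) X := by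
    have e1 : HasDerivAt (fun X : ℝ => u.re * (X ^ 2 - T ^ 2) / 2) (u.re * (((2 : ℕ) : ℝ) * X ^ (2 - 1)) / 2) X :=
      ((((hasDerivAt_pow 2 X).sub_const (T ^ 2)).const_mul u.re).div_const 2)
    have e2 : HasDerivAt (fun X : ℝ => u.im * X * T) (u.im * 1 * T) X :=
      (((hasDerivAt_id X).const_mul u.im).mul_const T)
    have e3 : HasDerivAt (fun X : ℝ => Real.exp X * r) (Real.exp X * r) X :=
      (Real.hasDerivAt_exp X).mul_const r
    have e4 := (e1.sub e2).add e3
    have e5 : u.re * (((2 : ℕ) : ℝ) * X ^ (2 - 1)) / 2 - u.im * 1 * T + Real.exp X * r =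
        u.re * X - u.im * T + Real.exp X * r := by
      norm_num
      ring
    rw [e5] at e4
    exact e4
  have hmin : IsLocalMin f X := Filter.Eventually.of_forall hX
  exact hmin.hasDerivAt_eq_zero hd

private theorem TopB_exp {s : ℝ} (hs : 0 < s) (h : ℝ) : -(s - 1) ^ 2 ≤ Real.exp h - 1 - s * h := by
  have h1 := Real.add_one_le_exp (h - Real.log s)
  have h2 : Real.exp h = s * Real.exp (h - Real.log s) := by
    rw [Real.exp_sub, Real.exp_log hs]
    field_simp
  have h3 := Real.log_le_sub_one_of_pos hs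
  have h4 := mul_le_mul_of_nonneg_left h1 hs.le
  have h5 := mul_le_mul_of_nonneg_left h3 hs.le
  rw [h2]
  nlinarith

theorem top_point {u ζ : ℂ} (hu : ‖u‖ = 1) (hre : 0 ≤ u.re) (him : 0 ≤ u.im) {c T : ℝ}
    (hc : 0 < c) (hT : ∀ X : ℝ, c ≤ Gp u ζ X T)
    (hmax : ∀ T' c1 : ℝ, c < c1 → ∃ X : ℝ, Gp u ζ X T' < c1) :
    ∃ X : ℝ, Gp u ζ X T = c ∧ Gh u ζ (X + T * I) = c ∧ 0 < (u * ζ * cexp (T * I)).re ∧
      (X + T * I : ℂ) + ζ * cexp (X + T * I) = 0 := by
  obtain ⟨hpos, -, X, hX, hX0⟩ := top_min hu hre him hc hT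
  have hval : Gp u ζ X T = c := by
    refine le_antisymm ?_ (hT X)
    by_contra h
    obtain ⟨X', hX'⟩ := hmax T _ (not_le.1 h)
    exact absurd (hX X') (not_le.2 hX')
  have hGh : Gh u ζ (X + T * I) = c := by
    rw [Gh_eq_Gp hpos.le, hval]
  -- the functions of `T`
  set ρ : ℝ → ℝ := fun T => (u * ζ * cexp (T * I)).re with hρ
  set σ : ℝ := (u * ζ * cexp (T * I)).im with hσ
  have dρ : HasDerivAt ρ (-σ) T := TopB_reDeriv (u * ζ) T
  have dk : HasDerivAt (fun T' : ℝ => u.re * X - u.im * T' + Real.exp X * ρ T')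
      (-(u.im * 1) + Real.exp X * (-σ)) T :=
    ((((hasDerivAt_id T).const_mul u.im).const_sub (u.re * X))).add (dρ.const_mul (Real.exp X))
  have dG : HasDerivAt (fun T' : ℝ => u.re * (X ^ 2 - T' ^ 2) / 2 - u.im * X * T' + Real.exp X * ρ T')
      (u.re * (-(((2 : ℕ) : ℝ) * T ^ (2 - 1))) / 2 - u.im * X * 1 + Real.exp X * (-σ)) T :=
    (((((hasDerivAt_pow 2 T).const_sub (X ^ 2)).const_mul u.re).div_const 2).sub
      ((hasDerivAt_id T).const_mul (u.im * X))).add (dρ.const_mul (Real.exp X))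
  set k : ℝ → ℝ := fun T' : ℝ => u.re * X - u.im * T' + Real.exp X * ρ T' with hk
  set G0 : ℝ → ℝ := fun T' : ℝ => u.re * (X ^ 2 - T' ^ 2) / 2 - u.im * X * T' + Real.exp X * ρ T' with hG0
  have hk0 : k T = 0 := hX0
  have hm0 : 0 < Real.exp X * ρ T := mul_pos (Real.exp_pos X) hpos
  have dΦ : HasDerivAt (fun T' => G0 T' - k T' ^ 2 / (Real.exp X * ρ T'))
      (-(u.re * T + u.im * X + Real.exp X * σ)) T := by
    have e1 := dG.sub ((dk.pow 2).div (dρ.const_mul (Real.exp X)) hm0.ne')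
    refine e1.congr_deriv ?_
    simp only [Pi.pow_apply, hk0]
    norm_num
    ring
  have hρc : ContinuousAt ρ T := dρ.continuousAt
  have hkc : ContinuousAt k T := dk.continuousAt
  have hev : ∀ᶠ T' in 𝓝 T, 0 < ρ T' ∧ 0 < Real.exp X * ρ T' - k T' := by
    refine (hρc.eventually (lt_mem_nhds hpos)).and ?_
    have h1 : ContinuousAt (fun T' => Real.exp X * ρ T' - k T') T :=
      (hρc.const_mul (Real.exp X)).sub hkc
    refine h1.eventually (lt_mem_nhds ?_)
    show 0 < Real.exp X * ρ T - k T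
    rw [hk0, sub_zero]
    exact hm0
  have hΦ : IsLocalMax (fun T' => G0 T' - k T' ^ 2 / (Real.exp X * ρ T')) T := by
    have hΦ0 : G0 T - k T ^ 2 / (Real.exp X * ρ T) = c := by
      have h1 : G0 T = c := by
        rw [← hval]
        unfold Gp
        rw [max_eq_left hpos.le]
      rw [hk0, h1]
      norm_num
    filter_upwards [hev] with T' hT'
    show G0 T' - k T' ^ 2 / (Real.exp X * ρ T') ≤ G0 T - k T ^ 2 / (Real.exp X * ρ T)
    rw [hΦ0]
    by_contra hlt
    obtain ⟨X', hX'⟩ := hmax T' _ (not_le.1 hlt)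
    refine absurd hX' (not_lt.2 ?_)
    obtain ⟨p1, p2⟩ := hT'
    set m : ℝ := Real.exp X * ρ T' with hm
    have hmp : 0 < m := mul_pos (Real.exp_pos X) p1
    have hs : 0 < 1 - k T' / m := by
      rw [sub_pos, div_lt_one hmp]
      linarith
    have h1 := TopB_exp hs (X' - X)
    have h2 : Gp u ζ X' T' = G0 T' + u.re * (X' - X) ^ 2 / 2 +
        m * (Real.exp (X' - X) - 1 - (1 - k T' / m) * (X' - X)) := by
      have e1 : Gp u ζ X' T' = u.re * (X' ^ 2 - T' ^ 2) / 2 - u.im * X' * T' + Real.exp X' * ρ T' := by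
        unfold Gp
        rw [max_eq_left (show 0 ≤ (u * ζ * cexp (T' * I)).re from p1.le)]
      have e2 : Real.exp X' = Real.exp X * Real.exp (X' - X) := by
        rw [← Real.exp_add]
        congr 1
        ring
      have e3 : m * (k T' / m) = k T' := by
        field_simp
      have e4 : m * (Real.exp (X' - X) - 1 - (1 - k T' / m) * (X' - X)) =
          m * Real.exp (X' - X) - m - m * (X' - X) + (m * (k T' / m)) * (X' - X) := by
        ring
      rw [e1, e2, e4, e3]
      simp only [hG0, hk, hm]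
      ring
    have h3 := mul_le_mul_of_nonneg_left h1 hmp.le
    have h4 : m * -(1 - k T' / m - 1) ^ 2 = -(k T' ^ 2 / m) := by
      field_simp
      ring
    rw [h4] at h3
    have h5 : 0 ≤ u.re * (X' - X) ^ 2 := mul_nonneg hre (sq_nonneg _)
    rw [h2]
    linarith
  have hg := hΦ.hasDerivAt_eq_zero dΦ
  refine ⟨X, hval, hGh, hpos, ?_⟩
  have hu0 : u ≠ 0 := by
    intro h
    rw [h, norm_zero] at hu
    exact zero_ne_one hu
  have hprod : u * ((X + T * I : ℂ) + ζ * cexp (X + T * I)) = 0 := by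
    have e1 : u * ((X + T * I : ℂ) + ζ * cexp (X + T * I)) =
        u * (X + T * I) + ((Real.exp X : ℝ) : ℂ) * (u * ζ * cexp (T * I)) := by
      rw [Complex.exp_add]
      push_cast
      ring
    rw [e1]
    apply Complex.ext
    · rw [Complex.add_re, Complex.re_ofReal_mul, Complex.zero_re]
      have e2 : (u * ((X : ℂ) + T * I)).re = u.re * X - u.im * T := by
        simp [Complex.mul_re]
      rw [e2]
      exact hX0
    · rw [Complex.add_im, Complex.im_ofReal_mul, Complex.zero_im]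
      have e2 : (u * ((X : ℂ) + T * I)).im = u.re * T + u.im * X := by
        simp [Complex.mul_im]
      rw [e2]
      show u.re * T + u.im * X + Real.exp X * σ = 0
      linarith
  exact (mul_eq_zero.1 hprod).resolve_left hu0

end SokalV
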