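import Pool.Agent.Lib_MP_af4de1_v.Rep
import Pool.Agent.Lib_MP_af4de1_v.Tail
import Pool.Agent.Lib_MP_af4de1_v.TopB

/-!
# Path integrals for `|q| = 1`, `q = e^{iδ}`, `δ > 0`

`t = -δ I`.  `HPath A A'`: the path `H = A(s) + s I`, `A` Lipschitz, `A ≥ c > 0` and bounded above at
the upper end, `A ≤ -c` at the lower end.
`path_E`: `E` as integral of `cexp (Ph ζ H/t)`; `path_pow`: `z^j q^{j(j-1)/2} E(q^j z)` (falling powers of
`D = z d/dz`) has the weight `(ζ e^H/t)^j`.
`path_f`: the same in the variable `σ = H + tκ` around the saddle point `κ`, weight `(κ e^σ)^j`.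
-/

namespace SokalV

open Complex MeasureTheory Filter Topology

/-- A path from `-∞ - i∞` (or `-c - i∞`) to `c + i∞`. -/
structure HPath (A A' : ℝ → ℝ) : Prop where
  cont : Continuous A
  exc : ∃ S : Set ℝ, S.Countable ∧ ∀ s ∉ S, HasDerivAt A (A' s) s
  meas : Measurable A'
  bdd : ∃ C : ℝ, ∀ s, |A' s| ≤ C
  top : ∃ c C s0 : ℝ, 0 < c ∧ ∀ s, s0 ≤ s → c ≤ A s ∧ A s ≤ C
  bot : ∃ c s0 : ℝ, 0 < c ∧ ∀ s, s ≤ s0 → A s ≤ -c

/-- `t` for `q = e^{iδ}`. -/
noncomputable def tt (δ : ℝ) : ℂ := -(δ * I)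

theorem tt_ne {δ : ℝ} (hδ : 0 < δ) : tt δ ≠ 0 := by
  rw [tt, neg_ne_zero]
  exact mul_ne_zero (by exact_mod_cast hδ.ne') I_ne_zero

theorem tt_re (δ : ℝ) : (tt δ).re = 0 := by simp [tt]

theorem tt_im (δ : ℝ) : (tt δ).im = -δ := by simp [tt]

theorem norm_tt {δ : ℝ} (hδ : 0 < δ) : ‖tt δ‖ = δ := by
  rw [tt, norm_neg, norm_mul, Complex.norm_real, Complex.norm_I, mul_one,
    Real.norm_of_nonneg hδ.le]

/-- The modulus of the integrand. -/
theorem norm_cexp_Ph {δ : ℝ} (hδ : 0 < δ) (ζ : ℂ) (X T : ℝ) :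
    ‖cexp (Ph ζ (X + T * I) / tt δ)‖ ≤ Real.exp ((-(X * T) + ‖ζ‖ * Real.exp X) / δ) := by
  rw [Complex.norm_exp, Real.exp_le_exp]
  have hδ' : (δ : ℂ) ≠ 0 := by exact_mod_cast hδ.ne'
  have h1 : Ph ζ (X + T * I) / tt δ =
      ((1 / δ : ℝ) : ℂ) * (I * ((X + T * I) ^ 2 / 2) + I * (ζ * cexp (X + T * I))) := by
    rw [Ph, tt, div_eq_iff (neg_ne_zero.2 (mul_ne_zero hδ' I_ne_zero))]
    push_cast
    field_simp
    linear_combination ((X + T * I : ℂ) ^ 2 + ζ * 2 * cexp (X + T * I)) * I_sq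
  rw [h1, Complex.re_ofReal_mul]
  have h2 : (I * ((X + T * I : ℂ) ^ 2 / 2) + I * (ζ * cexp (X + T * I))).re ≤
      -(X * T) + ‖ζ‖ * Real.exp X := by
    rw [Complex.add_re]
    refine add_le_add (le_of_eq ?_) ?_
    · have : (I * ((X + T * I : ℂ) ^ 2 / 2)) =
          ((-(X * T) : ℝ) : ℂ) + (((X ^ 2 - T ^ 2) / 2 : ℝ) : ℂ) * I := by
        push_cast
        linear_combination (X * T : ℂ) * I_sq + (T ^ 2 / 2 : ℂ) * I * I_sq
      rw [this, Complex.add_re, Complex.ofReal_re, Complex.re_ofReal_mul, Complex.I_re, mul_zero,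
        add_zero]
    · refine (Complex.re_le_norm _).trans ?_
      rw [norm_mul, Complex.norm_I, one_mul, norm_mul, Complex.norm_exp]
      simp
  calc 1 / δ * (I * ((X + T * I : ℂ) ^ 2 / 2) + I * (ζ * cexp (X + T * I))).re
      ≤ 1 / δ * (-(X * T) + ‖ζ‖ * Real.exp X) := by gcongr
    _ = _ := by ring

private theorem Path_abs_int {a : ℝ} (ha : 0 < a) : Integrable fun s : ℝ => Real.exp (-a * |s|) := by
  rw [← integrableOn_univ, ← Set.Iic_union_Ioi (a := (0 : ℝ))]
  refine IntegrableOn.union ?_ ?_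
  · refine (integrableOn_exp_mul_Iic ha 0).congr_fun (fun s hs => ?_) measurableSet_Iic
    rw [Set.mem_Iic] at hs
    simp only
    rw [abs_of_nonpos hs, neg_mul_neg]
  · refine (integrableOn_exp_mul_Ioi (a := -a) (by linarith) 0).congr_fun (fun s hs => ?_)
      measurableSet_Ioi
    rw [Set.mem_Ioi] at hs
    simp only
    rw [abs_of_pos hs]

/-- The integrand decays exponentially along the path. -/
theorem HPath.bound {A A' : ℝ → ℝ} (h : HPath A A') {δ : ℝ} (hδ : 0 < δ) (ζ : ℂ) :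
    ∃ K a : ℝ, 0 < a ∧ ∀ s : ℝ, ‖cexp (Ph ζ (A s + s * I) / tt δ) * (A' s + I)‖ ≤
      K * Real.exp (-a * |s|) := by
  obtain ⟨C, hC⟩ := h.bdd
  obtain ⟨c1, C1, s1, hc1, h1⟩ := h.top
  obtain ⟨c2, s2, hc2, h2⟩ := h.bot
  have hC0 : 0 ≤ C := (abs_nonneg _).trans (hC 0)
  set c : ℝ := min c1 c2 with hc
  have hc0 : 0 < c := lt_min hc1 hc2
  set s0 : ℝ := max (max |s1| |s2|) 1 with hs0
  have hs0p : 0 < s0 := lt_of_lt_of_le one_pos (le_max_right _ _)
  have hcont : Continuous fun s : ℝ => cexp (Ph ζ (A s + s * I) / tt δ) := by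
    have := h.cont
    unfold Ph
    fun_prop
  obtain ⟨K0, hK0⟩ := (isCompact_Icc (a := -s0) (b := s0)).exists_bound_of_continuousOn
    hcont.continuousOn
  have hw : ∀ s, ‖((A' s : ℂ) + I)‖ ≤ C + 1 := fun s => by
    refine (norm_add_le _ _).trans ?_
    rw [Complex.norm_real, Complex.norm_I, Real.norm_eq_abs]
    linarith [hC s]
  set K1 : ℝ := Real.exp (‖ζ‖ * Real.exp (max C1 0) / δ) with hK1
  have hK0p : 0 ≤ |K0| := abs_nonneg _
  refine ⟨(|K0| * Real.exp (c / δ * s0) + K1) * (C + 1), c / δ, by positivity, fun s => ?_⟩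
  rw [norm_mul]
  have key : ‖cexp (Ph ζ (A s + s * I) / tt δ)‖ ≤
      (|K0| * Real.exp (c / δ * s0) + K1) * Real.exp (-(c / δ) * |s|) := by
    rcases le_or_gt |s| s0 with hs | hs
    · have h3 : ‖cexp (Ph ζ (A s + s * I) / tt δ)‖ ≤ |K0| :=
        (hK0 s (abs_le.1 hs)).trans (le_abs_self _)
      have h4 : 1 ≤ Real.exp (c / δ * s0) * Real.exp (-(c / δ) * |s|) := by
        rw [← Real.exp_add]
        apply Real.one_le_exp
        have : 0 ≤ c / δ * (s0 - |s|) := mul_nonneg (by positivity) (by linarith)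
        linarith
      calc ‖cexp (Ph ζ (A s + s * I) / tt δ)‖ ≤ |K0| * 1 := by rw [mul_one]; exact h3
        _ ≤ |K0| * (Real.exp (c / δ * s0) * Real.exp (-(c / δ) * |s|)) := by gcongr
        _ ≤ (|K0| * Real.exp (c / δ * s0) + K1) * Real.exp (-(c / δ) * |s|) := by
          have : 0 ≤ K1 * Real.exp (-(c / δ) * |s|) := by positivity
          nlinarith
    · have h3 := norm_cexp_Ph hδ ζ (A s) s
      have h4 : (-(A s * s) + ‖ζ‖ * Real.exp (A s)) / δ ≤
          ‖ζ‖ * Real.exp (max C1 0) / δ + -(c / δ) * |s| := by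
        have e1 : ‖ζ‖ * Real.exp (max C1 0) / δ + -(c / δ) * |s| =
            (-(c * |s|) + ‖ζ‖ * Real.exp (max C1 0)) / δ := by ring
        rw [e1]
        have hm1 : |s1| ≤ s0 := (le_max_left _ _).trans (le_max_left _ _)
        have hm2 : |s2| ≤ s0 := (le_max_right _ _).trans (le_max_left _ _)
        rcases le_total 0 s with hs' | hs'
        · rw [abs_of_nonneg hs'] at hs ⊢
          have h5 := h1 s ((le_abs_self s1).trans (hm1.trans hs.le))
          have h6 : c * s ≤ A s * s := mul_le_mul_of_nonneg_right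
            ((min_le_left _ _).trans h5.1) hs'
          have h7 : Real.exp (A s) ≤ Real.exp (max C1 0) :=
            Real.exp_le_exp.2 (h5.2.trans (le_max_left _ _))
          gcongr
        · rw [abs_of_nonpos hs'] at hs ⊢
          have h5 := h2 s (by linarith [neg_abs_le s2])
          have h6 : c * (-s) ≤ A s * s := by
            have : A s ≤ -c := h5.trans (neg_le_neg (min_le_right _ _))
            nlinarith
          have h7 : Real.exp (A s) ≤ Real.exp (max C1 0) := by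
            apply Real.exp_le_exp.2
            have : A s ≤ 0 := by linarith
            exact this.trans (le_max_right _ _)
          gcongr
      refine h3.trans ((Real.exp_le_exp.2 h4).trans ?_)
      rw [Real.exp_add]
      have : 0 ≤ |K0| * Real.exp (c / δ * s0) * Real.exp (-(c / δ) * |s|) := by positivity
      rw [← hK1]
      nlinarith
  calc ‖cexp (Ph ζ (A s + s * I) / tt δ)‖ * ‖((A' s : ℂ) + I)‖
      ≤ ((|K0| * Real.exp (c / δ * s0) + K1) * Real.exp (-(c / δ) * |s|)) * (C + 1) := by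
        gcongr
        exact hw s
    _ = _ := by ring

theorem HPath.integrable {A A' : ℝ → ℝ} (h : HPath A A') {δ : ℝ} (hδ : 0 < δ) (ζ : ℂ) :
    Integrable fun s : ℝ => cexp (Ph ζ (A s + s * I) / tt δ) * (A' s + I) := by
  obtain ⟨K, a, ha, hb⟩ := h.bound hδ ζ
  refine ((Path_abs_int ha).const_mul K).mono' ?_ (Eventually.of_forall hb)
  have hcont : Continuous fun s : ℝ => cexp (Ph ζ (A s + s * I) / tt δ) := by
    have := h.cont
    unfold Ph
    fun_prop
  have hm : Measurable fun s : ℝ => ((A' s : ℂ) + I) :=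
    (Complex.measurable_ofReal.comp h.meas).add_const _
  exact (hcont.measurable.mul hm).aestronglyMeasurable

/-- A horizontal piece. -/
private theorem Path_hor {f P : ℂ → ℂ} (hP : ∀ z, HasDerivAt P (f z) z) {X1 X2 T B : ℝ}
    (hB : ∀ X ∈ Set.uIcc X1 X2, ‖f (X + T * I)‖ ≤ B) :
    ‖P (X2 + T * I) - P (X1 + T * I)‖ ≤ B * |X2 - X1| := by
  have h1 : ∀ X ∈ Set.uIcc X1 X2, HasDerivWithinAt (fun X : ℝ => P (X + T * I))
      (f (X + T * I)) (Set.uIcc X1 X2) X := fun X _ => by
    have h2 : HasDerivAt (fun X : ℝ => (X : ℂ) + T * I) 1 X :=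
      (Complex.ofRealCLM.hasDerivAt (x := X)).add_const _
    have h3 := (hP (X + T * I)).comp X h2
    rw [mul_one] at h3
    exact h3.hasDerivWithinAt
  have h2 := (convex_uIcc X1 X2).norm_image_sub_le_of_norm_hasDerivWithin_le h1 hB
    Set.left_mem_uIcc Set.right_mem_uIcc
  simpa [Real.norm_eq_abs] using h2

theorem path_E {δ : ℝ} (hδ : 0 < δ) (ζ : ℂ) {A A' : ℝ → ℝ} (h : HPath A A') :
    SokalU.E (tt δ) (ζ / tt δ * cexp (-tt δ / 2)) * (2 * Real.pi * tt δ) ^ (1 / 2 : ℂ) * I =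
      ∫ s : ℝ, cexp (Ph ζ (A s + s * I) / tt δ) * (A' s + I) := by
  obtain ⟨C, hC⟩ := h.bdd
  obtain ⟨c1, C1, s1, hc1, h1⟩ := h.top
  obtain ⟨c2, s2, hc2, h2⟩ := h.bot
  obtain ⟨S, hS, hd⟩ := h.exc
  set f : ℂ → ℂ := fun H => cexp (Ph ζ H / tt δ) with hf
  have hfd : Differentiable ℂ f := by
    have := differentiable_Ph ζ
    exact (this.div_const _).cexp
  obtain ⟨P, hP'⟩ := hfd.isExactOn_univ
  have hP : ∀ z, HasDerivAt P (f z) z := fun z => hP' z (Set.mem_univ z)
  have hPc : Continuous P := continuous_iff_continuousAt.2 fun z => (hP z).continuousAt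
  have hint := h.integrable hδ ζ
  have l0 : Tendsto (fun R : ℝ => ∫ s in (-R)..R, cexp (Ph ζ (A s + s * I) / tt δ) * (A' s + I))
      atTop (𝓝 (∫ s : ℝ, cexp (Ph ζ (A s + s * I) / tt δ) * (A' s + I))) :=
    intervalIntegral_tendsto_integral hint tendsto_neg_atTop_atBot tendsto_id
  -- the fundamental theorem
  have ftc : ∀ R : ℝ, ∫ s in (-R)..R, cexp (Ph ζ (A s + s * I) / tt δ) * (A' s + I) =
      P (A R + R * I) - P (A (-R) + (-R : ℝ) * I) := fun R => by
    refine MeasureTheory.integral_eq_of_hasDerivAt_off_countable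
      (fun s : ℝ => P (A s + s * I)) _ hS ?_ ?_ hint.intervalIntegrable
    · have := h.cont
      exact (hPc.comp (by fun_prop)).continuousOn
    · rintro s ⟨_, hs⟩
      have h3 : HasDerivAt (fun s : ℝ => (A s : ℂ) + s * I) (A' s + I) s := by
        have h4 := (hd s hs).ofReal_comp
        have h5 : HasDerivAt (fun s : ℝ => (s : ℂ) * I) (1 * I) s :=
          (Complex.ofRealCLM.hasDerivAt (x := s)).mul_const I
        rw [one_mul] at h5
        exact h4.add h5
      exact (hP _).comp s h3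
  -- horizontal pieces
  have hup : Tendsto (fun R : ℝ => P (1 + R * I) - P (A R + R * I)) atTop (𝓝 0) := by
    rw [tendsto_zero_iff_norm_tendsto_zero]
    set m : ℝ := min c1 1 with hm
    have hm0 : 0 < m := lt_min hc1 one_pos
    set M : ℝ := max C1 1 with hM
    have hb : ∀ᶠ R : ℝ in atTop, ‖P (1 + R * I) - P (A R + R * I)‖ ≤
        Real.exp ((-(m * R) + ‖ζ‖ * Real.exp M) / δ) * (M + 1) := by
      filter_upwards [eventually_ge_atTop s1, eventually_ge_atTop 0] with R hR hR0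
      have h3 := h1 R hR
      have h4 : ∀ X ∈ Set.uIcc (A R) 1, ‖f (X + R * I)‖ ≤
          Real.exp ((-(m * R) + ‖ζ‖ * Real.exp M) / δ) := by
        intro X hX
        rw [Set.mem_uIcc] at hX
        have hX1 : m ≤ X := by
          rcases hX with h5 | h5
          · exact (min_le_left _ _).trans (h3.1.trans h5.1)
          · exact (min_le_right _ _).trans h5.1
        have hX2 : X ≤ M := by
          rcases hX with h5 | h5
          · exact h5.2.trans (le_max_right _ _)
          · exact h5.2.trans (h3.2.trans (le_max_left _ _))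
        refine (norm_cexp_Ph hδ ζ X R).trans (Real.exp_le_exp.2 ?_)
        gcongr
      have h5 := Path_hor hP (T := R) h4
      rw [Complex.ofReal_one] at h5
      refine h5.trans ?_
      have h6 : |1 - A R| ≤ M + 1 := by
        have h8 : C1 ≤ M := le_max_left _ _
        have h7 : 1 ≤ M := le_max_right _ _
        rw [abs_le]
        constructor <;> linarith [h3.1, h3.2]
      gcongr
    have hlim : Tendsto (fun R : ℝ => Real.exp ((-(m * R) + ‖ζ‖ * Real.exp M) / δ) * (M + 1))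
        atTop (𝓝 0) := by
      have h3 : Tendsto (fun R : ℝ => (-(m * R) + ‖ζ‖ * Real.exp M) / δ) atTop atBot := by
        have h4 : Tendsto (fun R : ℝ => -(m * R)) atTop atBot :=
          tendsto_neg_atTop_atBot.comp (tendsto_id.const_mul_atTop hm0)
        exact (h4.atBot_add tendsto_const_nhds).atBot_div_const hδ
      have h4 := (Real.tendsto_exp_atBot.comp h3).mul_const (M + 1)
      rw [zero_mul] at h4
      exact h4
    exact squeeze_zero' (Eventually.of_forall fun R => norm_nonneg _) hb hlim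
  have hdn : Tendsto (fun R : ℝ => P (A (-R) + (-R : ℝ) * I) - P (-1 - R * I)) atTop (𝓝 0) := by
    rw [tendsto_zero_iff_norm_tendsto_zero]
    set m : ℝ := min c2 1 with hm
    have hm0 : 0 < m := lt_min hc2 one_pos
    have hgrow : ∀ R : ℝ, |A (-R)| ≤ |A 0| + C * |R| := fun R => by
      have h3 := MeasureTheory.integral_eq_of_hasDerivAt_off_countable A A' (a := 0) (b := -R)
        hS h.cont.continuousOn (fun s hs => hd s hs.2) (by
          refine (intervalIntegrable_const (c := C)).mono_fun h.meas.aestronglyMeasurable ?_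
          refine Eventually.of_forall fun s => ?_
          simp only [Real.norm_eq_abs]
          exact (hC s).trans (le_abs_self _))
      have h4 := intervalIntegral.norm_integral_le_of_norm_le_const (a := 0) (b := -R) (f := A')
        (C := C) (fun s _ => by rw [Real.norm_eq_abs]; exact hC s)
      rw [h3, sub_zero, abs_neg, Real.norm_eq_abs] at h4
      have h5 := abs_sub_abs_le_abs_sub (A (-R)) (A 0)
      linarith
    have hb : ∀ᶠ R : ℝ in atTop, ‖P (A (-R) + (-R : ℝ) * I) - P (-1 - R * I)‖ ≤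
        Real.exp ((-(m * R) + ‖ζ‖) / δ) * (|A 0| + C * R + 1) := by
      filter_upwards [eventually_ge_atTop (-s2), eventually_ge_atTop 0] with R hR hR0
      have h3 := h2 (-R) (by linarith)
      have h4 : ∀ X ∈ Set.uIcc (-1) (A (-R)), ‖f (X + (-R : ℝ) * I)‖ ≤
          Real.exp ((-(m * R) + ‖ζ‖) / δ) := by
        intro X hX
        rw [Set.mem_uIcc] at hX
        have hX1 : X ≤ -m := by
          have h6 : m ≤ c2 := min_le_left _ _
          have h7 : m ≤ 1 := min_le_right _ _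
          rcases hX with h5 | h5 <;> linarith [h5.2]
        refine (norm_cexp_Ph hδ ζ X (-R)).trans (Real.exp_le_exp.2 ?_)
        have h5 : Real.exp X ≤ 1 := Real.exp_le_one_iff.2 (by linarith)
        have h6 : ‖ζ‖ * Real.exp X ≤ ‖ζ‖ := mul_le_of_le_one_right (norm_nonneg _) h5
        have h7 : -(X * -R) ≤ -(m * R) := by nlinarith
        gcongr
      have h5 := Path_hor hP (T := -R) h4
      have e1 : (((-1 : ℝ) : ℂ) + ((-R : ℝ) : ℂ) * I) = -1 - R * I := by push_cast; ring
      rw [e1] at h5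
      refine h5.trans ?_
      have h6 : |A (-R) - -1| ≤ |A 0| + C * R + 1 := by
        have h7 := hgrow R
        rw [abs_of_nonneg hR0] at h7
        have h8 := abs_sub (A (-R)) (-1)
        rw [abs_neg, abs_one] at h8
        linarith
      gcongr
    have hlim : Tendsto (fun R : ℝ => Real.exp ((-(m * R) + ‖ζ‖) / δ) * (|A 0| + C * R + 1))
        atTop (𝓝 0) := by
      have hmd : 0 < m / δ := by positivity
      have h3 : Tendsto (fun R : ℝ => R * Real.exp (-(m / δ) * R)) atTop (𝓝 0) := by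
        have := Real.tendsto_pow_mul_exp_neg_atTop_nhds_zero 1
        have h4 := (this.comp (tendsto_id.const_mul_atTop hmd)).const_mul (δ / m)
        rw [mul_zero] at h4
        refine h4.congr fun R => ?_
        simp only [Function.comp, id, pow_one]
        have : δ ≠ 0 := hδ.ne'
        have : m ≠ 0 := hm0.ne'
        have e : -(m / δ * R) = -(m / δ) * R := by ring
        rw [e]
        field_simp
      have h4 : Tendsto (fun R : ℝ => Real.exp (-(m / δ) * R)) atTop (𝓝 0) := by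
        refine Real.tendsto_exp_atBot.comp ?_
        exact tendsto_id.const_mul_atTop_of_neg (by linarith)
      have h5 := ((h3.const_mul C).add (h4.const_mul (|A 0| + 1))).const_mul (Real.exp (‖ζ‖ / δ))
      rw [mul_zero, mul_zero, add_zero, mul_zero] at h5
      refine h5.congr fun R => ?_
      have e : (-(m * R) + ‖ζ‖) / δ = ‖ζ‖ / δ + -(m / δ) * R := by ring
      rw [e, Real.exp_add]
      ring
    exact squeeze_zero' (Eventually.of_forall fun R => norm_nonneg _) hb hlim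
  -- the tails
  have htail : ∀ (g : ℝ → ℂ), (∀ R : ℝ, 1 ≤ R → ‖g R‖ ≤
      2 * ‖tt δ‖ * Real.exp ((1 / 2 + 3 * ‖ζ‖ - R / 2) / ‖tt δ‖)) → Tendsto g atTop (𝓝 0) := by
    intro g hg
    rw [tendsto_zero_iff_norm_tendsto_zero]
    have hlim : Tendsto (fun R : ℝ => 2 * ‖tt δ‖ *
        Real.exp ((1 / 2 + 3 * ‖ζ‖ - R / 2) / ‖tt δ‖)) atTop (𝓝 0) := by
      have h3 : Tendsto (fun R : ℝ => (1 / 2 + 3 * ‖ζ‖ - R / 2) / ‖tt δ‖) atTop atBot := by
        have h4 : Tendsto (fun R : ℝ => -(R / 2)) atTop atBot :=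
          tendsto_neg_atTop_atBot.comp (tendsto_id.atTop_div_const two_pos)
        have h5 := (tendsto_const_nhds (x := 1 / 2 + 3 * ‖ζ‖)).add_atBot h4
        have h6 := h5.atBot_div_const (norm_pos_iff.2 (tt_ne hδ))
        exact h6.congr fun R => by ring
      have h4 := (Real.tendsto_exp_atBot.comp h3).const_mul (2 * ‖tt δ‖)
      rw [mul_zero] at h4
      exact h4
    exact squeeze_zero' (Eventually.of_forall fun R => norm_nonneg _)
      ((eventually_ge_atTop 1).mono hg) hlim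
  have ht1 := htail (fun R => ∫ s in Set.Ioi R, cexp (Ph ζ (1 + s * I) / tt δ))
    fun R hR => (tail_pos (tt_ne hδ) (tt_re δ).ge (by rw [tt_im]; linarith) hR).1
  have ht2 := htail (fun R => ∫ s in Set.Iio (-R), cexp (Ph ζ (-1 + s * I) / tt δ))
    fun R hR => (tail_neg (tt_ne hδ) (tt_re δ).ge (by rw [tt_im]; linarith) hR).1
  -- conclusion
  have hrep : ∀ R : ℝ,
      SokalU.E (tt δ) (ζ / tt δ * cexp (-tt δ / 2)) * (2 * Real.pi * tt δ) ^ (1 / 2 : ℂ) * I =
      (∫ s in (-R)..R, cexp (Ph ζ (A s + s * I) / tt δ) * (A' s + I)) +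
        (P (1 + R * I) - P (A R + R * I)) +
        (P (A (-R) + (-R : ℝ) * I) - P (-1 - R * I)) +
        (∫ s in Set.Ioi R, cexp (Ph ζ (1 + s * I) / tt δ)) * I +
        (∫ s in Set.Iio (-R), cexp (Ph ζ (-1 + s * I) / tt δ)) * I := fun R => by
    rw [rep_E (tt_ne hδ) (tt_re δ).ge (by rw [tt_im]; linarith) R hP, ftc]
    ring
  have hl := (((l0.add hup).add hdn).add (ht1.mul_const I)).add (ht2.mul_const I)
  rw [zero_mul, add_zero, add_zero, add_zero, add_zero] at hl
  refine tendsto_nhds_unique ?_ hl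
  refine tendsto_const_nhds.congr fun R => ?_
  exact hrep R

/-- Translation of the parameter and of the real part. -/
theorem HPath.shift {A A' : ℝ → ℝ} (h : HPath A A') (d : ℝ) :
    HPath (fun s => A (s + d)) (fun s => A' (s + d)) := by
  obtain ⟨S, hS, hd⟩ := h.exc
  obtain ⟨C, hC⟩ := h.bdd
  obtain ⟨c1, C1, s1, hc1, h1⟩ := h.top
  obtain ⟨c2, s2, hc2, h2⟩ := h.bot
  refine ⟨h.cont.comp (by fun_prop), ⟨(fun s => s - d) '' S, hS.image _, fun s hs => ?_⟩,
    h.meas.comp (by fun_prop), ⟨C, fun s => hC _⟩, ⟨c1, C1, s1 - d, hc1, fun s hs => ?_⟩,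
    ⟨c2, s2 - d, hc2, fun s hs => ?_⟩⟩
  · have h3 : s + d ∉ S := fun hs' => hs ⟨s + d, hs', by ring⟩
    exact (hd _ h3).comp_add_const s d
  · exact h1 _ (by linarith)
  · exact h2 _ (by linarith)

/-- Falling powers. -/
theorem path_pow {δ : ℝ} (hδ : 0 < δ) (ζ : ℂ) {A A' : ℝ → ℝ} (h : HPath A A') (j : ℕ) :
    (Integrable fun s : ℝ => (ζ * cexp (A s + s * I) / tt δ) ^ j *
      (cexp (Ph ζ (A s + s * I) / tt δ) * (A' s + I))) ∧
    (ζ / tt δ * cexp (-tt δ / 2)) ^ j * cexp (-(tt δ * (j * (j - 1) / 2))) *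
        SokalU.E (tt δ) (cexp (-(tt δ * j)) * (ζ / tt δ * cexp (-tt δ / 2))) *
        (2 * Real.pi * tt δ) ^ (1 / 2 : ℂ) * I =
      ∫ s : ℝ, (ζ * cexp (A s + s * I) / tt δ) ^ j *
        (cexp (Ph ζ (A s + s * I) / tt δ) * (A' s + I)) := by
  have ht := tt_ne hδ
  have hsh := h.shift (j * δ)
  set ζ' : ℂ := ζ * cexp (-(tt δ * j)) with hζ'
  set κ0 : ℂ := (ζ / tt δ) ^ j * cexp (-(tt δ * j ^ 2 / 2)) with hκ0
  -- the integrands
  have key : ∀ s : ℝ, (ζ * cexp (A s + s * I) / tt δ) ^ j *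
      (cexp (Ph ζ (A s + s * I) / tt δ) * (A' s + I)) =
      κ0 * (cexp (Ph ζ' (A (s - j * δ + j * δ) + (s - j * δ : ℝ) * I) / tt δ) *
        (A' (s - j * δ + j * δ) + I)) := fun s => by
    rw [sub_add_cancel]
    have e1 : (A s + ((s - j * δ : ℝ) : ℂ) * I : ℂ) = (A s + s * I) + j * tt δ := by
      rw [tt]; push_cast; ring
    have e2 : Ph ζ' ((A s + s * I) + j * tt δ) / tt δ =
        Ph ζ (A s + s * I) / tt δ + j * (A s + s * I) + tt δ * j ^ 2 / 2 := by
      unfold Ph
      have e3 : ζ' * cexp ((A s + s * I) + j * tt δ) = ζ * cexp (A s + s * I) := by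
        rw [hζ', mul_assoc, ← Complex.exp_add]
        congr 2
        ring
      rw [e3]
      field_simp
      ring
    rw [e1, e2, Complex.exp_add (Ph ζ (A s + s * I) / tt δ + j * (A s + s * I)),
      Complex.exp_add (Ph ζ (A s + s * I) / tt δ), hκ0]
    have e4 : cexp (j * (A s + s * I)) = cexp (A s + s * I) ^ j := by
      rw [← Complex.exp_nat_mul]
    have e5 : cexp (-(tt δ * j ^ 2 / 2)) * cexp (tt δ * j ^ 2 / 2) = 1 := by
      rw [← Complex.exp_add, neg_add_cancel, Complex.exp_zero]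
    rw [e4]
    calc (ζ * cexp (A s + s * I) / tt δ) ^ j * (cexp (Ph ζ (A s + s * I) / tt δ) * (A' s + I))
        = (ζ / tt δ) ^ j * (cexp (-(tt δ * j ^ 2 / 2)) * cexp (tt δ * j ^ 2 / 2)) *
          (cexp (Ph ζ (A s + s * I) / tt δ) * cexp (A s + s * I) ^ j * (A' s + I)) := by
          have e6 : ζ * cexp (A s + s * I) / tt δ = ζ / tt δ * cexp (A s + s * I) := by ring
          rw [e5, e6, mul_pow]
          ring
      _ = _ := by ring
  have hint := (hsh.integrable hδ ζ').const_mul κ0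
  have hint2 : Integrable fun s : ℝ => κ0 *
      (cexp (Ph ζ' (A (s - j * δ + j * δ) + (s - j * δ : ℝ) * I) / tt δ) *
        (A' (s - j * δ + j * δ) + I)) := hint.comp_sub_right (j * δ)
  refine ⟨hint2.congr (Eventually.of_forall fun s => (key s).symm), ?_⟩
  have hI : ∫ s : ℝ, (ζ * cexp (A s + s * I) / tt δ) ^ j *
      (cexp (Ph ζ (A s + s * I) / tt δ) * (A' s + I)) =
      κ0 * ∫ s : ℝ, cexp (Ph ζ' (A (s + j * δ) + s * I) / tt δ) * (A' (s + j * δ) + I) := by
    rw [integral_congr_ae (Eventually.of_forall key), integral_const_mul]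
    congr 1
    exact integral_sub_right_eq_self (μ := volume)
      (fun s : ℝ => cexp (Ph ζ' (A (s + j * δ) + s * I) / tt δ) * (A' (s + j * δ) + I)) (j * δ)
  rw [hI, ← path_E hδ ζ' hsh]
  have e1 : ζ' / tt δ * cexp (-tt δ / 2) =
      cexp (-(tt δ * j)) * (ζ / tt δ * cexp (-tt δ / 2)) := by
    rw [hζ']; ring
  have e2 : (ζ / tt δ * cexp (-tt δ / 2)) ^ j * cexp (-(tt δ * (j * (j - 1) / 2))) = κ0 := by
    rw [hκ0, mul_pow, ← Complex.exp_nat_mul, mul_assoc, ← Complex.exp_add]
    congr 2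
    ring
  rw [e1, e2]
  ring

/-- The representation around the saddle point `κ`: `σ = a(s) + s I`, and the path
`a - Re (tκ)` is admissible. -/
theorem path_f {δ : ℝ} (hδ : 0 < δ) (κ : ℂ) {a a' : ℝ → ℝ}
    (h : HPath (fun s => a s - (tt δ * κ).re) a') (j : ℕ) :
    (Integrable fun s : ℝ => (κ * cexp (a s + s * I)) ^ j *
      (cexp ((a s + s * I) ^ 2 / (2 * tt δ) + κ * (cexp (a s + s * I) - 1 - (a s + s * I))) *
        (a' s + I))) ∧
    SokalU.zp (tt δ) κ ^ j * cexp (-(tt δ * (j * (j - 1) / 2))) *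
        SokalU.E (tt δ) (cexp (-(tt δ * j)) * SokalU.zp (tt δ) κ) *
        (2 * Real.pi * tt δ) ^ (1 / 2 : ℂ) * I =
      cexp (SokalU.S (tt δ) κ) * ∫ s : ℝ, (κ * cexp (a s + s * I)) ^ j *
        (cexp ((a s + s * I) ^ 2 / (2 * tt δ) + κ * (cexp (a s + s * I) - 1 - (a s + s * I))) *
          (a' s + I)) := by
  have ht := tt_ne hδ
  set y : ℂ := tt δ * κ with hy
  have hsh := h.shift y.im
  set ζ : ℂ := y * cexp y with hζ
  obtain ⟨h1, h2⟩ := path_pow hδ ζ hsh j
  -- the integrands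
  have key : ∀ s : ℝ, (ζ * cexp (((a (s + y.im) - y.re : ℝ) : ℂ) + s * I) / tt δ) ^ j *
      (cexp (Ph ζ (((a (s + y.im) - y.re : ℝ) : ℂ) + s * I) / tt δ) * (a' (s + y.im) + I)) =
      cexp (SokalU.S (tt δ) κ) * ((κ * cexp (a (s + y.im) + (s + y.im : ℝ) * I)) ^ j *
      (cexp ((a (s + y.im) + (s + y.im : ℝ) * I) ^ 2 / (2 * tt δ) +
        κ * (cexp (a (s + y.im) + (s + y.im : ℝ) * I) - 1 -
          (a (s + y.im) + (s + y.im : ℝ) * I))) * (a' (s + y.im) + I))) := fun s => by
    set σ : ℂ := a (s + y.im) + (s + y.im : ℝ) * I with hσ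
    have e0 : (((a (s + y.im) - y.re : ℝ) : ℂ) + s * I) = σ - y := by
      have hy2 : y = y.re + y.im * I := (Complex.re_add_im y).symm
      rw [hσ]
      push_cast
      linear_combination hy2
    rw [e0]
    have e1 : ζ * cexp (σ - y) / tt δ = κ * cexp σ := by
      rw [hζ, mul_assoc, ← Complex.exp_add]
      have : y + (σ - y) = σ := by ring
      rw [this, hy]
      field_simp
    have e2 : Ph ζ (σ - y) / tt δ =
        SokalU.S (tt δ) κ + (σ ^ 2 / (2 * tt δ) + κ * (cexp σ - 1 - σ)) := by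
      unfold Ph
      rw [add_div, e1, SokalU.S, hy]
      field_simp
      ring
    rw [e1, e2, Complex.exp_add (SokalU.S (tt δ) κ)]
    ring
  have hz : ζ / tt δ * cexp (-tt δ / 2) = SokalU.zp (tt δ) κ := by
    rw [hζ, SokalU.zp, hy]
    have e3 : cexp (tt δ * κ - tt δ / 2) = cexp (tt δ * κ) * cexp (-tt δ / 2) := by
      rw [← Complex.exp_add]; congr 1; ring
    rw [e3]
    field_simp
  rw [hz] at h2
  have hS := Complex.exp_ne_zero (SokalU.S (tt δ) κ)
  set G : ℝ → ℂ := fun s => (κ * cexp (a s + s * I)) ^ j *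
      (cexp ((a s + s * I) ^ 2 / (2 * tt δ) + κ * (cexp (a s + s * I) - 1 - (a s + s * I))) *
        (a' s + I)) with hG
  have key' : ∀ s : ℝ, (ζ * cexp (((a (s + y.im) - y.re : ℝ) : ℂ) + s * I) / tt δ) ^ j *
      (cexp (Ph ζ (((a (s + y.im) - y.re : ℝ) : ℂ) + s * I) / tt δ) * (a' (s + y.im) + I)) =
      cexp (SokalU.S (tt δ) κ) * G (s + y.im) := fun s => by
    rw [key s]
  constructor
  · have h3 : Integrable fun s : ℝ => cexp (SokalU.S (tt δ) κ) * G (s + y.im) :=
      h1.congr (Eventually.of_forall key')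
    have h4 : Integrable fun s : ℝ => G (s + y.im) := by
      have := h3.const_mul (cexp (SokalU.S (tt δ) κ))⁻¹
      refine this.congr (Eventually.of_forall fun s => ?_)
      simp only
      rw [← mul_assoc, inv_mul_cancel₀ hS, one_mul]
    have h5 := h4.comp_sub_right y.im
    refine h5.congr (Eventually.of_forall fun s => ?_)
    simp only [sub_add_cancel]
  · rw [h2, integral_congr_ae (Eventually.of_forall key'), integral_const_mul]
    congr 1
    exact integral_add_right_eq_self (μ := volume) G y.im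

end SokalV
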