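import Pool.Agent.Lib_MP_af4de1_v.FamRel
import Pool.Agent.Lib_MP_af4de1_v.Crit
import Pool.Agent.Lib_MP_af4de1_v.Laplace

/-!
# The contribution of a saddle point [SV-SADAS]

`S_n` from `Fam.exists_crit` (`desc` gives `Ψ0''(S) ≠ 0`), `c0` from `Fam.laplace`.  The endpoints `S ± v` instead of `S_n ± v`:
`Re u0Ψ0(S ± v) < c`, so on a small ball around `S ± v` the height is `< c1 < c` and (as in `Fam.rel`, local step, or
directly) `‖P_n(S±v) - P_n(S_n±v)‖, ‖Q_n(S±v) - Q_n(S_n±v)‖ ≤ C exp(c1/τ_n)` for large `n`.  As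
`Re(u_n Ψ_n(S_n)) → c`, `‖√τ_n cexp(u_nΨ_n(S_n)/τ_n)‖ ≥ √τ_n exp((c-ε)/τ_n)`, and `exp((c1-c+ε)/τ_n)/√τ_n → 0`.
-/

namespace SokalV

open Complex Filter Topology

private lemma Fam.tendsto_prod {Ψ : ℕ → ℂ → ℂ} {Ψ0 : ℂ → ℂ} (hd : ∀ n, Differentiable ℂ (Ψ n))
    (hl : TendstoLocallyUniformly Ψ Ψ0 atTop) (A : ℂ) :
    Tendsto (fun y : ℕ × ℂ => Ψ y.1 y.2) (atTop ×ˢ 𝓝 A) (𝓝 (Ψ0 A)) := by
  have hc : Continuous Ψ0 := hl.continuous (Frequently.of_forall fun n => (hd n).continuous)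
  have h1 := tendstoLocallyUniformly_iff_forall_tendsto.1 hl A
  have h2 : Tendsto (fun y : ℕ × ℂ => Ψ0 y.2) (atTop ×ˢ 𝓝 A) (𝓝 (Ψ0 A)) :=
    (hc.tendsto A).comp tendsto_snd
  exact h2.congr_uniformity h1

private lemma Fam.norm_exp (F : Fam) (n : ℕ) (H : ℂ) :
    ‖cexp (F.u n * F.Ψ n H / F.τ n)‖ = Real.exp ((F.u n * F.Ψ n H).re / F.τ n) := by
  rw [Complex.norm_exp, Complex.div_ofReal_re]

private lemma Fam.near (F : Fam) {c1 : ℝ} {A : ℂ} (hA : (F.u0 * F.Ψ0 A).re < c1) {An : ℕ → ℂ}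
    (hAn : Tendsto An atTop (𝓝 A)) :
    ∃ C : ℝ, ∀ᶠ n in atTop, ‖F.P n (An n) - F.P n A‖ ≤ C * Real.exp (c1 / F.τ n) ∧
      ‖F.Q n (An n) - F.Q n A‖ ≤ C * Real.exp (c1 / F.τ n) := by
  have h1 : Tendsto (fun y : ℕ × ℂ => (F.u y.1 * F.Ψ y.1 y.2).re) (atTop ×ˢ 𝓝 A)
      (𝓝 ((F.u0 * F.Ψ0 A).re)) :=
    (continuous_re.tendsto _).comp
      ((F.hulim.comp tendsto_fst).mul (Fam.tendsto_prod F.hΨ F.hΨlim A))
  have h2 : Tendsto (fun y : ℕ × ℂ => ‖F.w y.1 y.2‖) (atTop ×ˢ 𝓝 A) (𝓝 ‖F.w0 A‖) :=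
    (Fam.tendsto_prod F.hw F.hwlim A).norm
  have h3 := (h1.eventually (gt_mem_nhds hA)).and
    (h2.eventually (gt_mem_nhds (lt_add_one ‖F.w0 A‖)))
  obtain ⟨pa, hpa, pb, hpb, hp⟩ := eventually_prod_iff.1 h3
  obtain ⟨ε, hε, hball⟩ := Metric.eventually_nhds_iff_ball.1 hpb
  have hM : 0 ≤ ‖F.w0 A‖ + 1 := by positivity
  refine ⟨(‖F.w0 A‖ + 1) * ε, ?_⟩
  filter_upwards [hpa, hAn.eventually (Metric.ball_mem_nhds A hε)] with n hn hAn'
  have hE : 0 < Real.exp (c1 / F.τ n) := Real.exp_pos _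
  have hb : ∀ H ∈ Metric.ball A ε, ‖cexp (F.u n * F.Ψ n H / F.τ n)‖ ≤ Real.exp (c1 / F.τ n) := by
    intro H hH
    rw [F.norm_exp]
    exact Real.exp_le_exp.2 (div_le_div_of_nonneg_right (hp hn (hball H hH)).1.le (F.hτ n).le)
  have hb' : ∀ H ∈ Metric.ball A ε, ‖F.w n H * cexp (F.u n * F.Ψ n H / F.τ n)‖ ≤
      (‖F.w0 A‖ + 1) * Real.exp (c1 / F.τ n) := by
    intro H hH
    rw [norm_mul]
    exact mul_le_mul (hp hn (hball H hH)).2.le (hb H hH) (norm_nonneg _) hM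
  have hAA : A ∈ Metric.ball A ε := Metric.mem_ball_self hε
  have hd : ‖An n - A‖ ≤ ε := by
    rw [← dist_eq_norm]
    exact (Metric.mem_ball.1 hAn').le
  have k1 := (convex_ball A ε).norm_image_sub_le_of_norm_hasDerivWithin_le
    (f := F.P n) (fun H _ => (F.hP n H).hasDerivWithinAt) hb hAA hAn'
  have k2 := (convex_ball A ε).norm_image_sub_le_of_norm_hasDerivWithin_le
    (f := F.Q n) (fun H _ => (F.hQ n H).hasDerivWithinAt) hb' hAA hAn'
  constructor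
  · refine k1.trans ?_
    calc Real.exp (c1 / F.τ n) * ‖An n - A‖ ≤ Real.exp (c1 / F.τ n) * ε := by gcongr
      _ ≤ (‖F.w0 A‖ + 1) * ε * Real.exp (c1 / F.τ n) := by
          have := norm_nonneg (F.w0 A)
          nlinarith [mul_nonneg this (mul_pos hε hE).le]
  · refine k2.trans ?_
    calc (‖F.w0 A‖ + 1) * Real.exp (c1 / F.τ n) * ‖An n - A‖ ≤
        (‖F.w0 A‖ + 1) * Real.exp (c1 / F.τ n) * ε := by gcongr
      _ = (‖F.w0 A‖ + 1) * ε * Real.exp (c1 / F.τ n) := by ring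

private lemma Fam.small_quot (F : Fam) {d : ℝ} (hd : 0 < d) :
    Tendsto (fun n => Real.exp (-d / F.τ n) / √(F.τ n)) atTop (𝓝 0) := by
  have h1 : Tendsto (fun n => (F.τ n)⁻¹) atTop atTop := by
    refine Tendsto.inv_tendsto_nhdsGT_zero ?_
    exact tendsto_nhdsWithin_iff.2 ⟨F.hτlim, Eventually.of_forall fun n => F.hτ n⟩
  have h2 := (tendsto_rpow_mul_exp_neg_mul_atTop_nhds_zero (1 / 2) d hd).comp h1
  refine h2.congr fun n => ?_
  simp only [Function.comp]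
  rw [← Real.sqrt_eq_rpow, Real.sqrt_inv]
  rw [div_eq_mul_inv (-d), div_eq_mul_inv (Real.exp _), mul_comm]

theorem Fam.saddle (F : Fam) {c : ℝ} {S v : ℂ} (h : Sad F.u0 F.Ψ0 c S v) :
    ∃ (Sn : ℕ → ℂ) (c0 : ℂ), c0 ≠ 0 ∧ Tendsto Sn atTop (𝓝 S) ∧
      (∀ᶠ n in atTop, deriv (F.Ψ n) (Sn n) = 0) ∧
      Tendsto (fun n => (F.P n (S + v) - F.P n (S - v)) /
        (√(F.τ n) * cexp (F.u n * F.Ψ n (Sn n) / F.τ n))) atTop (𝓝 c0) ∧
      Tendsto (fun n => (F.Q n (S + v) - F.Q n (S - v) -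
        F.w0 S * (F.P n (S + v) - F.P n (S - v))) /
        (√(F.τ n) * cexp (F.u n * F.Ψ n (Sn n) / F.τ n))) atTop (𝓝 0) := by
  have hdd : deriv (deriv F.Ψ0) S ≠ 0 := by
    intro h0
    have := h.desc
    rw [h0] at this
    simp at this
  obtain ⟨Sn, hSn, hcrit⟩ := F.exists_crit h.crit hdd
  obtain ⟨c0, hc0, hP, hQ⟩ := F.laplace h hSn hcrit
  refine ⟨Sn, c0, hc0, hSn, hcrit, ?_⟩
  -- heights of the endpoints
  have hp1 : (F.u0 * F.Ψ0 (S + v)).re < c := by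
    have := h.seg 1 (by simp) one_ne_zero
    simpa using this
  have hm1 : (F.u0 * F.Ψ0 (S - v)).re < c := by
    have := h.seg (-1) (by simp) (by norm_num)
    simpa [sub_eq_add_neg] using this
  obtain ⟨c1, hc1, hc1c⟩ := exists_between (max_lt hp1 hm1)
  obtain ⟨c2, hc12, hc2c⟩ := exists_between hc1c
  have hp : (F.u0 * F.Ψ0 (S + v)).re < c1 := (le_max_left _ _).trans_lt hc1
  have hm : (F.u0 * F.Ψ0 (S - v)).re < c1 := (le_max_right _ _).trans_lt hc1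
  obtain ⟨C1, hC1⟩ := F.near hp (An := fun n => Sn n + v) (hSn.add_const v)
  obtain ⟨C2, hC2⟩ := F.near hm (An := fun n => Sn n - v) (hSn.sub_const v)
  -- the height of the saddle
  have hh : Tendsto (fun n => (F.u n * F.Ψ n (Sn n)).re) atTop (𝓝 c) := by
    have h1 : Tendsto (fun n : ℕ => (n, Sn n)) atTop (atTop ×ˢ 𝓝 S) := tendsto_id.prodMk hSn
    have h2 := (Fam.tendsto_prod F.hΨ F.hΨlim S).comp h1
    have h3 := (continuous_re.tendsto _).comp (F.hulim.mul h2)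
    rw [h.height] at h3
    exact h3
  set D : ℕ → ℂ := fun n => √(F.τ n) * cexp (F.u n * F.Ψ n (Sn n) / F.τ n) with hD
  have hDn : ∀ᶠ n in atTop, √(F.τ n) * Real.exp (c2 / F.τ n) ≤ ‖D n‖ := by
    filter_upwards [hh.eventually (lt_mem_nhds hc2c)] with n hn
    rw [hD]
    simp only
    rw [norm_mul, F.norm_exp, Complex.norm_real, Real.norm_of_nonneg (Real.sqrt_nonneg _)]
    gcongr
    exact (F.hτ n).le
  have key : ∀ (C : ℝ) (X : ℕ → ℂ), (∀ᶠ n in atTop, ‖X n‖ ≤ C * Real.exp (c1 / F.τ n)) →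
      Tendsto (fun n => X n / D n) atTop (𝓝 0) := by
    intro C X hX
    have h1 := (F.small_quot (sub_pos.2 hc12)).const_mul C
    rw [mul_zero] at h1
    refine squeeze_zero_norm' ?_ h1
    filter_upwards [hX, hDn] with n hn hn'
    have hs : 0 < √(F.τ n) := Real.sqrt_pos.2 (F.hτ n)
    have hpos : 0 < √(F.τ n) * Real.exp (c2 / F.τ n) := by positivity
    rw [norm_div]
    have hC : 0 ≤ C * Real.exp (c1 / F.τ n) := (norm_nonneg _).trans hn
    calc ‖X n‖ / ‖D n‖ ≤ (C * Real.exp (c1 / F.τ n)) / (√(F.τ n) * Real.exp (c2 / F.τ n)) :=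
          div_le_div₀ hC hn hpos hn'
      _ = C * (Real.exp (-(c2 - c1) / F.τ n) / √(F.τ n)) := by
          have : -(c2 - c1) / F.τ n = c1 / F.τ n - c2 / F.τ n := by ring
          rw [this, Real.exp_sub]
          field_simp
  have e1 := key C1 (fun n => F.P n (Sn n + v) - F.P n (S + v)) (hC1.mono fun n hn => hn.1)
  have e2 := key C2 (fun n => F.P n (Sn n - v) - F.P n (S - v)) (hC2.mono fun n hn => hn.1)
  have e3 := key C1 (fun n => F.Q n (Sn n + v) - F.Q n (S + v)) (hC1.mono fun n hn => hn.2)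
  have e4 := key C2 (fun n => F.Q n (Sn n - v) - F.Q n (S - v)) (hC2.mono fun n hn => hn.2)
  constructor
  · have := (hP.sub e1).add e2
    simp only [sub_zero, add_zero] at this
    refine this.congr fun n => ?_
    simp only [hD]
    ring
  · have := ((hQ.sub e3).add e4).add ((e1.sub e2).const_mul (F.w0 S))
    simp only [sub_zero, add_zero, mul_zero] at this
    refine this.congr fun n => ?_
    simp only [hD]
    ring

end SokalV
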