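import Pool.Agent.Lib_MP_af4de1_v.TipDefs

/-!
# The phase near the tip [SV-TIPB]

`Ph ζ (1+h) = (1+h)²/2 - (1-v)e^h`, `v = off ζ` (`eζ = v - 1`).  With `e^h = 1+h+h²/2+h³/6+R4`, `‖R4‖ ≤ ‖h‖⁴/12`, `‖e^h-1-h‖ ≤ ‖h‖²` for `‖h‖ ≤ 1/2`:
`Ph ζ (1+h) - (-1/2+v) = vh - h³/6 - R4 + v(e^h-1-h)`.
`tip_exp` is this.  `tip_bound`: `h = y·ep u0` (or `em u0`), `u0 (ep u0)³ = 1` as `‖u0‖ = 1`, so `Re(-u h³/6) ≤ -y³/6 + ‖u-u0‖y³/6`, the other terms are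
`≤ ‖v‖y + ‖v‖y² + y⁴/12`.
`tip_mult`: `ζe^{1+h}+1 = 1-(1-v)e^h = -h + O(‖h‖² + ‖v‖)`.
-/

namespace SokalV

open Complex

private lemma Ph_tip (ζ h : ℂ) :
    Ph ζ (1 + h) = (1 + h) ^ 2 / 2 + (off ζ - 1) * cexp h := by
  unfold Ph off
  rw [exp_add]
  ring

private lemma ep_cube {u0 : ℂ} (hu0 : ‖u0‖ = 1) : u0 * ep u0 ^ 3 = 1 := by
  have h1 : u0 = cexp (u0.arg * I) := by
    have := norm_mul_exp_arg_mul_I u0
    rw [hu0] at this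
    simpa using this.symm
  unfold ep
  nth_rewrite 1 [h1]
  rw [← exp_nat_mul, ← exp_add]
  have h2 : (u0.arg : ℂ) * I + ((3 : ℕ) : ℂ) * ((2 * Real.pi / 3 - u0.arg / 3) * I) =
      2 * Real.pi * I := by push_cast; ring
  rw [h2, exp_two_pi_mul_I]

private lemma em_cube {u0 : ℂ} (hu0 : ‖u0‖ = 1) : u0 * em u0 ^ 3 = 1 := by
  have h1 : u0 = cexp (u0.arg * I) := by
    have := norm_mul_exp_arg_mul_I u0
    rw [hu0] at this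
    simpa using this.symm
  unfold em
  nth_rewrite 1 [h1]
  rw [← exp_nat_mul, ← exp_add]
  have h2 : (u0.arg : ℂ) * I + ((3 : ℕ) : ℂ) * ((-(2 * Real.pi / 3) - u0.arg / 3) * I) =
      -(2 * Real.pi * I) := by push_cast; ring
  rw [h2, exp_neg, exp_two_pi_mul_I, inv_one]

private lemma norm_ep (u : ℂ) : ‖ep u‖ = 1 := by
  unfold ep
  have : (2 * Real.pi / 3 - u.arg / 3 : ℂ) = ((2 * Real.pi / 3 - u.arg / 3 : ℝ) : ℂ) := by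
    push_cast; ring
  rw [this, norm_exp_ofReal_mul_I]

private lemma norm_em (u : ℂ) : ‖em u‖ = 1 := by
  unfold em
  have : (-(2 * Real.pi / 3) - u.arg / 3 : ℂ) = ((-(2 * Real.pi / 3) - u.arg / 3 : ℝ) : ℂ) := by
    push_cast; ring
  rw [this, norm_exp_ofReal_mul_I]

theorem tip_exp (ζ : ℂ) {h : ℂ} (hh : ‖h‖ ≤ 1 / 2) :
    ‖Ph ζ (1 + h) - (-1 / 2 + off ζ) - (off ζ * h - h ^ 3 / 6)‖ ≤
      ‖h‖ ^ 4 / 12 + ‖off ζ‖ * ‖h‖ ^ 2 := by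
  have h1 : ‖h‖ ≤ 1 := hh.trans (by norm_num)
  have hE4 := Complex.exp_bound h1 (n := 4) (by norm_num)
  have hE2 := Complex.norm_exp_sub_one_sub_id_le h1
  have hid : Ph ζ (1 + h) - (-1 / 2 + off ζ) - (off ζ * h - h ^ 3 / 6) =
      -(cexp h - ∑ m ∈ Finset.range 4, h ^ m / (m.factorial : ℂ)) +
        off ζ * (cexp h - 1 - h) := by
    rw [Ph_tip]
    simp only [Finset.sum_range_succ, Finset.sum_range_zero, Nat.factorial]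
    push_cast
    ring
  rw [hid]
  refine (norm_add_le _ _).trans ?_
  rw [norm_neg, norm_mul]
  have h2 : ‖cexp h - ∑ m ∈ Finset.range 4, h ^ m / (m.factorial : ℂ)‖ ≤ ‖h‖ ^ 4 / 12 := by
    refine hE4.trans ?_
    have h3 : (0 : ℝ) ≤ ‖h‖ ^ 4 := by positivity
    norm_num [Nat.factorial]
    nlinarith
  have h3 : ‖off ζ‖ * ‖cexp h - 1 - h‖ ≤ ‖off ζ‖ * ‖h‖ ^ 2 := by gcongr
  linarith

theorem tip_mult (ζ : ℂ) {h : ℂ} (hh : ‖h‖ ≤ 1 / 2) :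
    ‖ζ * cexp (1 + h) + 1 + h‖ ≤ ‖h‖ ^ 2 + 2 * ‖off ζ‖ := by
  have h1 : ‖h‖ ≤ 1 := hh.trans (by norm_num)
  have hE2 := Complex.norm_exp_sub_one_sub_id_le h1
  have hid : ζ * cexp (1 + h) + 1 + h = -(cexp h - 1 - h) + off ζ * cexp h := by
    unfold off
    rw [exp_add]
    ring
  rw [hid]
  refine (norm_add_le _ _).trans ?_
  rw [norm_neg, norm_mul]
  have h2 : ‖cexp h‖ ≤ 2 := by
    rw [norm_exp]
    have h3 : h.re ≤ 1 / 2 := (re_le_norm h).trans hh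
    have h4 : Real.exp h.re ≤ Real.exp (1 / 2) := Real.exp_le_exp.2 h3
    have h5 : Real.exp (1 / 2) ≤ 2 := by
      have h6 : Real.exp (1 / 2) ^ 2 = Real.exp 1 := by
        rw [← Real.exp_nat_mul]; norm_num
      have h7 := Real.exp_one_lt_d9
      have h8 := Real.exp_pos (1 / 2)
      nlinarith
    exact h4.trans h5
  have h3 : ‖off ζ‖ * ‖cexp h‖ ≤ ‖off ζ‖ * 2 := by gcongr
  linarith

private lemma tip_bound_aux {u0 E : ℂ} (hE : ‖E‖ = 1) (hc : u0 * E ^ 3 = 1) (hu0 : ‖u0‖ = 1)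
    {u ζ : ℂ} {y : ℝ} (hu : ‖u - u0‖ ≤ 1 / 8) (hy : 0 ≤ y) (hy1 : y ≤ 1 / 8) :
    (u * (Ph ζ (1 + y * E) - (-1 / 2 + off ζ))).re ≤ -(y ^ 3 / 8) + 2 * ‖off ζ‖ * y := by
  have hn : ‖(y : ℂ) * E‖ = y := by
    rw [norm_mul, hE, mul_one, norm_real, Real.norm_of_nonneg hy]
  have h1 := tip_exp ζ (h := y * E) (by rw [hn]; linarith)
  rw [hn] at h1
  set W : ℂ := Ph ζ (1 + y * E) - (-1 / 2 + off ζ) - (off ζ * (y * E) - (y * E) ^ 3 / 6) with hW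
  have h2 : u * (Ph ζ (1 + y * E) - (-1 / 2 + off ζ)) =
      u * W + u * off ζ * (y * E) - ((y ^ 3 / 6 : ℝ) : ℂ) -
        ((y ^ 3 / 6 : ℝ) : ℂ) * ((u - u0) * E ^ 3) := by
    have h3 : ((y ^ 3 / 6 : ℝ) : ℂ) = ((y ^ 3 / 6 : ℝ) : ℂ) * (u0 * E ^ 3) := by rw [hc, mul_one]
    nth_rewrite 1 [h3]
    rw [hW]
    push_cast
    ring
  rw [h2]
  have hun : ‖u‖ ≤ 9 / 8 := by
    have : u = u0 + (u - u0) := by ring
    rw [this]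
    refine (norm_add_le _ _).trans ?_
    rw [hu0]; linarith
  have h4 : (u * W).re ≤ 9 / 8 * (y ^ 4 / 12 + ‖off ζ‖ * y ^ 2) := by
    refine (re_le_norm _).trans ?_
    rw [norm_mul]
    gcongr
  have h5 : (u * off ζ * (y * E)).re ≤ 9 / 8 * ‖off ζ‖ * y := by
    refine (re_le_norm _).trans ?_
    rw [norm_mul, norm_mul, hn]
    gcongr
  have h6 : -(((y ^ 3 / 6 : ℝ) : ℂ) * ((u - u0) * E ^ 3)).re ≤ y ^ 3 / 6 * (1 / 8) := by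
    refine (neg_le_abs _).trans ((abs_re_le_norm _).trans ?_)
    rw [norm_mul, norm_mul, norm_pow, hE, one_pow, mul_one, norm_real,
      Real.norm_of_nonneg (by positivity)]
    gcongr
  simp only [sub_re, add_re, ofReal_re]
  have h7 : y ^ 4 ≤ y ^ 3 * (1 / 8) := by
    have : y ^ 4 = y ^ 3 * y := by ring
    rw [this]; gcongr
  have h8 : ‖off ζ‖ * y ^ 2 ≤ ‖off ζ‖ * y * (1 / 8) := by
    have : ‖off ζ‖ * y ^ 2 = ‖off ζ‖ * y * y := by ring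
    rw [this]; gcongr
  have h9 : 0 ≤ ‖off ζ‖ * y := by positivity
  have h10 : 0 ≤ y ^ 3 := by positivity
  linarith

theorem tip_bound {u0 : ℂ} (hu0 : ‖u0‖ = 1) : ∃ ρ1 : ℝ, 0 < ρ1 ∧ ρ1 ≤ 1 / 2 ∧ ∀ (u ζ : ℂ) (y : ℝ),
    ‖u - u0‖ ≤ ρ1 → ‖off ζ‖ ≤ ρ1 → 0 ≤ y → y ≤ ρ1 →
    (u * (Ph ζ (1 + y * ep u0) - (-1 / 2 + off ζ))).re ≤ -(y ^ 3 / 8) + 2 * ‖off ζ‖ * y ∧
    (u * (Ph ζ (1 + y * em u0) - (-1 / 2 + off ζ))).re ≤ -(y ^ 3 / 8) + 2 * ‖off ζ‖ * y := by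
  refine ⟨1 / 8, by norm_num, by norm_num, fun u ζ y hu _ hy hy1 => ⟨?_, ?_⟩⟩
  · exact tip_bound_aux (norm_ep u0) (ep_cube hu0) hu0 hu hy hy1
  · exact tip_bound_aux (norm_em u0) (em_cube hu0) hu0 hu hy hy1

end SokalV
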