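import Pool.Agent.Lib_MP_af4de1_v.TopA
import Pool.Agent.Lib_MP_af4de1_v.TopB

/-!
# At most two lines reach the top level [SV-TOPC]

`concave_comb`: let `g_X(θ,T) = a(X²-T²)/2 - bXT + r e^X cos θ` (`a, b ≥ 0`, `a²+b²=1`, `r > 0`, `|θ| < π/2`).  Let `(θi,Ti)`, `i = 1,3`, be different
points with `g_X(θi,Ti) ≥ c` for all `X`, `c > 0`, `0 < λ < 1`, `(θ*,T*)` the convex combination.  Then `∃ c1 > c, ∀ X, c1 ≤ g_X(θ*,T*)`.
PROOF: the minimum over `X` of `g_X(θ*,T*)` is attained at some `X*` (as in `top_min`: if `a = 0` then `T1, T3 > 0`, so `T* > 0`; the function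
is continuous and `→ ∞` at `±∞`).  `g_{X*}` is concave in `(θ,T)`: `g_{X*}(θ*,T*) ≥ (1-λ)g_{X*}(θ1,T1) + λg_{X*}(θ3,T3) ≥ c`.  Suppose equality:
strict concavity of `cos` on `[-π/2,π/2]` gives `θ1 = θ3`; `g_{X*}(θi,Ti) = c` is the minimum over `X`, so
`aX* - bTi + r e^{X*}cos θi = 0`; if `a > 0` the strict concavity of `-aT²/2` gives `T1 = T3`, if `a = 0` (`b = 1`) the last equation gives
`T1 = T3`: contradiction.  So `c1 := g_{X*}(θ*,T*) > c`.

`top_two`: suppose three different pairs `(m_i,T_i)` reach the top level.  By `top_min` `uζ_{m_i}e^{T_iI} = r e^{θ_iI}`, `r = ‖ζ‖`, `|θ_i| < π/2`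
(`θ_i = arg`).  `η_i = θ_i - T_i`, and `e^{iη_i} = u ζ_{m_i}/r`, so `η_i ∈ arg(uζ) + (2π/N)ℤ`.  If `η_i = η_j`, `i ≠ j`, then
`m_i = m_j` (both `< N`), so `T_i ≠ T_j`, `(θ_i,T_i) ≠ (θ_j,T_j)`: midpoint (`λ = 1/2`): `θ*-T* = η_i`, so `u ζ_{m_i}e^{T*I} = r e^{θ*I}` and
`Gp u ζ_{m_i} X T* = g_X(θ*,T*) ≥ c1 > c` for all `X`: against `IsMax`.  If the `η_i` are different, order them, let `η_2` be the middle one,
`λ` with `η_2 = (1-λ)η_1+λη_3`: `θ*-T* = η_2`, `u ζ_{m_2}e^{T*I} = r e^{θ*I}`: the same contradiction.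
-/

namespace SokalV

open Complex Filter Topology

private theorem cos_comb {θ1 θ3 lam : ℝ} (h1 : |θ1| < Real.pi / 2)
    (h3 : |θ3| < Real.pi / 2) (hl : 0 < lam) (hl' : lam < 1) :
    (1 - lam) * Real.cos θ1 + lam * Real.cos θ3 ≤ Real.cos ((1 - lam) * θ1 + lam * θ3) ∧
    (Real.cos ((1 - lam) * θ1 + lam * θ3) = (1 - lam) * Real.cos θ1 + lam * Real.cos θ3 →
      θ1 = θ3) := by
  have m1 : θ1 ∈ Set.Icc (-(Real.pi / 2)) (Real.pi / 2) := by
    rw [abs_lt] at h1; exact ⟨h1.1.le, h1.2.le⟩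
  have m3 : θ3 ∈ Set.Icc (-(Real.pi / 2)) (Real.pi / 2) := by
    rw [abs_lt] at h3; exact ⟨h3.1.le, h3.2.le⟩
  have hs := strictConcaveOn_cos_Icc
  by_cases h : θ1 = θ3
  · subst h
    refine ⟨?_, fun _ => rfl⟩
    have : (1 - lam) * θ1 + lam * θ1 = θ1 := by ring
    rw [this]
    apply le_of_eq
    ring
  · have := hs.2 m1 m3 h (sub_pos.2 hl') hl (by ring)
    simp only [smul_eq_mul] at this
    exact ⟨this.le, fun he => absurd he (ne_of_gt this)⟩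

private theorem abs_comb {θ1 θ3 lam : ℝ} (h1 : |θ1| < Real.pi / 2)
    (h3 : |θ3| < Real.pi / 2) (hl : 0 < lam) (hl' : lam < 1) :
    |(1 - lam) * θ1 + lam * θ3| < Real.pi / 2 := by
  rw [abs_lt] at *
  constructor
  · nlinarith [h1.1, h3.1]
  · nlinarith [h1.2, h3.2]

private theorem Gp_line {u z : ℂ} {r η X T : ℝ} (h : u * z = r * cexp (η * I)) (hr : 0 ≤ r)
    (hc : 0 ≤ Real.cos (η + T)) :
    Gp u z X T = u.re * (X ^ 2 - T ^ 2) / 2 - u.im * X * T +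
      Real.exp X * (r * Real.cos (η + T)) := by
  have h2 : (u * z * cexp (T * I)).re = r * Real.cos (η + T) := by
    rw [h, mul_assoc, ← Complex.exp_add]
    have : (η : ℂ) * I + T * I = ((η + T : ℝ) : ℂ) * I := by push_cast; ring
    rw [this, Complex.re_ofReal_mul, Complex.exp_ofReal_mul_I_re]
  unfold Gp
  rw [h2, max_eq_left (mul_nonneg hr hc)]

private theorem four_zero {a b c d : ℝ} (ha : 0 ≤ a) (hb : 0 ≤ b) (hc : 0 ≤ c) (hd : 0 ≤ d)
    (h : a + b + c + d = 0) : a = 0 ∧ b = 0 ∧ c = 0 ∧ d = 0 := by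
  refine ⟨?_, ?_, ?_, ?_⟩ <;> linarith

private theorem add_le_add_of_le_of_nonneg' {x y a b : ℝ} (h : x ≤ y) (ha : 0 ≤ a) (hb : 0 ≤ b) :
    x ≤ y + a + b := by linarith

theorem concave_comb {a b r c : ℝ} (ha : 0 ≤ a) (hb : 0 ≤ b) (hab : a ^ 2 + b ^ 2 = 1)
    (hr : 0 < r) (hc : 0 < c) {θ1 θ3 T1 T3 lam : ℝ} (h1 : |θ1| < Real.pi / 2)
    (h3 : |θ3| < Real.pi / 2) (hne : (θ1, T1) ≠ (θ3, T3)) (hl : 0 < lam) (hl' : lam < 1)
    (g1 : ∀ X : ℝ, c ≤ a * (X ^ 2 - T1 ^ 2) / 2 - b * X * T1 + Real.exp X * (r * Real.cos θ1))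
    (g3 : ∀ X : ℝ, c ≤ a * (X ^ 2 - T3 ^ 2) / 2 - b * X * T3 + Real.exp X * (r * Real.cos θ3)) :
    ∃ c1 : ℝ, c < c1 ∧ ∀ X : ℝ,
      c1 ≤ a * (X ^ 2 - ((1 - lam) * T1 + lam * T3) ^ 2) / 2 -
        b * X * ((1 - lam) * T1 + lam * T3) +
        Real.exp X * (r * Real.cos ((1 - lam) * θ1 + lam * θ3)) := by
  obtain ⟨hcos, hcos'⟩ := cos_comb h1 h3 hl hl'
  have hθs := abs_comb h1 h3 hl hl'
  set θs : ℝ := (1 - lam) * θ1 + lam * θ3 with hθs_def
  set Ts : ℝ := (1 - lam) * T1 + lam * T3 with hTs_def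
  have hl1 : 0 < 1 - lam := sub_pos.2 hl'
  -- the exact identity
  have hid : ∀ X : ℝ, a * (X ^ 2 - Ts ^ 2) / 2 - b * X * Ts + Real.exp X * (r * Real.cos θs) =
      (1 - lam) * (a * (X ^ 2 - T1 ^ 2) / 2 - b * X * T1 + Real.exp X * (r * Real.cos θ1)) +
      lam * (a * (X ^ 2 - T3 ^ 2) / 2 - b * X * T3 + Real.exp X * (r * Real.cos θ3)) +
      a * (lam * (1 - lam) * (T1 - T3) ^ 2) / 2 +
      Real.exp X * r * (Real.cos θs - ((1 - lam) * Real.cos θ1 + lam * Real.cos θ3)) := by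
    intro X
    rw [hTs_def]
    ring
  have hge : ∀ X : ℝ, c ≤ a * (X ^ 2 - Ts ^ 2) / 2 - b * X * Ts +
      Real.exp X * (r * Real.cos θs) := by
    intro X
    rw [hid X]
    have e1 : 0 ≤ a * (lam * (1 - lam) * (T1 - T3) ^ 2) / 2 := by positivity
    have e2 : 0 ≤ Real.exp X * r *
        (Real.cos θs - ((1 - lam) * Real.cos θ1 + lam * Real.cos θ3)) :=
      mul_nonneg (by positivity) (by linarith)
    have e3 := mul_le_mul_of_nonneg_left (g1 X) hl1.le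
    have e4 := mul_le_mul_of_nonneg_left (g3 X) hl.le
    have e5 : c = (1 - lam) * c + lam * c := by ring
    rw [e5]
    exact add_le_add_of_le_of_nonneg' (add_le_add e3 e4) e1 e2
  -- the point u
  set u : ℂ := ⟨a, b⟩ with hu_def
  have hure : u.re = a := rfl
  have huim : u.im = b := rfl
  have hu : ‖u‖ = 1 := by
    have : ‖u‖ ^ 2 = 1 := by
      rw [Complex.sq_norm, Complex.normSq_apply, hure, huim, ← hab]
      ring
    have h0 := norm_nonneg u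
    exact (sq_eq_sq₀ h0 zero_le_one).1 (by rw [this, one_pow])
  have hu0 : u ≠ 0 := by
    intro h
    rw [h] at hu
    simp at hu
  set ζ : ℂ := u⁻¹ * (r * cexp (((θs - Ts : ℝ) : ℂ) * I)) with hζ_def
  have huζ : u * ζ = r * cexp (((θs - Ts : ℝ) : ℂ) * I) := by
    rw [hζ_def, mul_inv_cancel_left₀ hu0]
  have hcosp : 0 < Real.cos θs := by
    rw [abs_lt] at hθs
    exact Real.cos_pos_of_mem_Ioo hθs
  have hGp : ∀ X : ℝ, Gp u ζ X Ts = a * (X ^ 2 - Ts ^ 2) / 2 - b * X * Ts +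
      Real.exp X * (r * Real.cos θs) := by
    intro X
    have e : θs - Ts + Ts = θs := by ring
    have := Gp_line (X := X) (T := Ts) huζ hr.le (by rw [e]; exact hcosp.le)
    rw [this, e, hure, huim]
  obtain ⟨-, -, Xs, hXs, -⟩ := top_min (u := u) (ζ := ζ) hu (by rw [hure]; exact ha)
    (by rw [huim]; exact hb) (T := Ts) hc (fun X => by rw [hGp X]; exact hge X)
  refine ⟨_, ?_, fun X => by rw [← hGp X]; exact hXs X⟩
  rw [hGp Xs]
  refine lt_of_le_of_ne (hge Xs) ?_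
  intro heq
  have e1 : 0 ≤ a * (lam * (1 - lam) * (T1 - T3) ^ 2) / 2 := by positivity
  have e2 : 0 ≤ Real.exp Xs * r *
      (Real.cos θs - ((1 - lam) * Real.cos θ1 + lam * Real.cos θ3)) :=
    mul_nonneg (by positivity) (by linarith)
  have e3 : 0 ≤ (1 - lam) * ((a * (Xs ^ 2 - T1 ^ 2) / 2 - b * Xs * T1 +
      Real.exp Xs * (r * Real.cos θ1)) - c) := mul_nonneg hl1.le (by linarith [g1 Xs])
  have e4 : 0 ≤ lam * ((a * (Xs ^ 2 - T3 ^ 2) / 2 - b * Xs * T3 +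
      Real.exp Xs * (r * Real.cos θ3)) - c) := mul_nonneg hl.le (by linarith [g3 Xs])
  have hsum := hid Xs
  rw [← heq] at hsum
  obtain ⟨z1, z2, z3, z4⟩ := four_zero e1 e2 e3 e4 (by linear_combination (-1) * hsum)
  have hθ : θ1 = θ3 := by
    apply hcos'
    have : Real.exp Xs * r ≠ 0 := by positivity
    have := (mul_eq_zero.1 z2).resolve_left this
    linarith
  have k1 : a * (Xs ^ 2 - T1 ^ 2) / 2 - b * Xs * T1 + Real.exp Xs * (r * Real.cos θ1) = c := by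
    have := (mul_eq_zero.1 z3).resolve_left hl1.ne'
    linarith
  have k3 : a * (Xs ^ 2 - T3 ^ 2) / 2 - b * Xs * T3 + Real.exp Xs * (r * Real.cos θ3) = c := by
    have := (mul_eq_zero.1 z4).resolve_left hl.ne'
    linarith
  -- derivative conditions
  have hder : ∀ θ T : ℝ, (∀ X : ℝ, c ≤ a * (X ^ 2 - T ^ 2) / 2 - b * X * T +
      Real.exp X * (r * Real.cos θ)) →
      a * (Xs ^ 2 - T ^ 2) / 2 - b * Xs * T + Real.exp Xs * (r * Real.cos θ) = c →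
      a * Xs - b * T + Real.exp Xs * (r * Real.cos θ) = 0 := by
    intro θ T hg hk
    have hmin : IsLocalMin (fun X : ℝ => a * (X ^ 2 - T ^ 2) / 2 - b * X * T +
        Real.exp X * (r * Real.cos θ)) Xs := by
      apply Filter.Eventually.of_forall
      intro X
      show _ ≤ _
      simp only
      rw [hk]
      exact hg X
    have hd : HasDerivAt (fun X : ℝ => a * (X ^ 2 - T ^ 2) / 2 - b * X * T +
        Real.exp X * (r * Real.cos θ)) (a * Xs - b * T + Real.exp Xs * (r * Real.cos θ)) Xs := by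
      have d1 : HasDerivAt (fun X : ℝ => a * (X ^ 2 - T ^ 2) / 2) (a * Xs) Xs := by
        have := (((hasDerivAt_pow 2 Xs).sub_const (T ^ 2)).const_mul a).div_const 2
        refine this.congr_deriv ?_
        simp only [Nat.cast_ofNat, Nat.add_one_sub_one, pow_one]
        ring
      have d2 : HasDerivAt (fun X : ℝ => b * X * T) (b * T) Xs := by
        have := ((hasDerivAt_id Xs).const_mul b).mul_const T
        refine this.congr_deriv ?_
        ring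
      exact (d1.sub d2).add ((Real.hasDerivAt_exp Xs).mul_const _)
    exact hmin.hasDerivAt_eq_zero hd
  have l1 := hder θ1 T1 g1 k1
  have l3 := hder θ3 T3 g3 k3
  apply hne
  rw [hθ] at l1 ⊢
  have hbT : b * T1 = b * T3 := by linarith
  have hT : T1 = T3 := by
    rcases eq_or_lt_of_le ha with h0 | h0
    · have hb1 : b ≠ 0 := by
        intro hb0
        rw [← h0, hb0] at hab
        norm_num at hab
      exact mul_left_cancel₀ hb1 hbT
    · have : (T1 - T3) ^ 2 = 0 := by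
        have hp : 0 < a * (lam * (1 - lam)) / 2 := by positivity
        have : a * (lam * (1 - lam)) / 2 * (T1 - T3) ^ 2 = 0 := by
          rw [← z1]; ring
        exact (mul_eq_zero.1 this).resolve_left hp.ne'
      have := pow_eq_zero_iff (two_ne_zero) |>.1 this
      linarith
  rw [hT]

private theorem line_arg {N : ℕ} {u ζ : ℂ} (hu : ‖u‖ = 1) (hre : 0 ≤ u.re) (him : 0 ≤ u.im)
    {c : ℝ} (hc : 0 < c) {m : ℕ} {T : ℝ} (h : Reach N u ζ c m T) :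
    ∃ θ : ℝ, |θ| < Real.pi / 2 ∧
      u * lift N ζ m = (‖ζ‖ : ℝ) * cexp (((θ - T : ℝ) : ℂ) * I) := by
  obtain ⟨hpos, -, -⟩ := top_min hu hre him hc h
  set z : ℂ := u * lift N ζ m * cexp (T * I) with hz
  refine ⟨z.arg, Complex.abs_arg_lt_pi_div_two_iff.2 (Or.inl hpos), ?_⟩
  have hn : ‖z‖ = ‖ζ‖ := by
    rw [hz, norm_mul, norm_mul, hu, norm_lift, Complex.norm_exp_ofReal_mul_I]
    ring
  have hz2 : z = (‖ζ‖ : ℝ) * cexp (z.arg * I) := by
    rw [← hn]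
    exact (Complex.norm_mul_exp_arg_mul_I z).symm
  have h3 : u * lift N ζ m = z * cexp (-(T * I)) := by
    rw [hz, mul_assoc, mul_assoc, ← Complex.exp_add]
    simp
  rw [h3]
  conv_lhs => rw [hz2]
  rw [mul_assoc, ← Complex.exp_add]
  congr 2
  push_cast
  ring

private theorem reach_line {N : ℕ} {u ζ : ℂ} {c : ℝ} {m : ℕ} {T θ : ℝ}
    (h : Reach N u ζ c m T) (hθ : |θ| < Real.pi / 2)
    (he : u * lift N ζ m = (‖ζ‖ : ℝ) * cexp (((θ - T : ℝ) : ℂ) * I)) :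
    ∀ X : ℝ, c ≤ u.re * (X ^ 2 - T ^ 2) / 2 - u.im * X * T +
      Real.exp X * (‖ζ‖ * Real.cos θ) := by
  intro X
  have e : θ - T + T = θ := by ring
  have hcosp : 0 < Real.cos θ := by
    rw [abs_lt] at hθ
    exact Real.cos_pos_of_mem_Ioo hθ
  have := Gp_line (X := X) (T := T) he (norm_nonneg ζ) (by rw [e]; exact hcosp.le)
  rw [e] at this
  rw [← this]
  exact h X

private theorem comb_false {N : ℕ} {u ζ : ℂ} (hu : ‖u‖ = 1) (hre : 0 ≤ u.re) (him : 0 ≤ u.im)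
    (hζ : ζ ≠ 0) {c : ℝ} (hc : 0 < c) (hmax : IsMax N u ζ c) {m : ℕ} (hm : m < N)
    {θ1 θ3 T1 T3 lam : ℝ} (h1 : |θ1| < Real.pi / 2)
    (h3 : |θ3| < Real.pi / 2) (hne : (θ1, T1) ≠ (θ3, T3)) (hl : 0 < lam) (hl' : lam < 1)
    (g1 : ∀ X : ℝ, c ≤ u.re * (X ^ 2 - T1 ^ 2) / 2 - u.im * X * T1 +
      Real.exp X * (‖ζ‖ * Real.cos θ1))
    (g3 : ∀ X : ℝ, c ≤ u.re * (X ^ 2 - T3 ^ 2) / 2 - u.im * X * T3 +
      Real.exp X * (‖ζ‖ * Real.cos θ3))
    (he : u * lift N ζ m = (‖ζ‖ : ℝ) *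
      cexp ((((1 - lam) * (θ1 - T1) + lam * (θ3 - T3) : ℝ) : ℂ) * I)) : False := by
  have hab : u.re ^ 2 + u.im ^ 2 = 1 := by
    have := Complex.sq_norm u
    rw [hu, Complex.normSq_apply] at this
    rw [sq, sq, ← this, one_pow]
  obtain ⟨c1, hc1, hX⟩ := concave_comb hre him hab (norm_pos_iff.2 hζ) hc h1 h3 hne hl hl' g1 g3
  obtain ⟨X, hlt⟩ := hmax m hm ((1 - lam) * T1 + lam * T3) c1 hc1
  have hθs := abs_comb h1 h3 hl hl'
  have hcosp : 0 < Real.cos ((1 - lam) * θ1 + lam * θ3) := by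
    rw [abs_lt] at hθs
    exact Real.cos_pos_of_mem_Ioo hθs
  have e : (1 - lam) * (θ1 - T1) + lam * (θ3 - T3) + ((1 - lam) * T1 + lam * T3) =
      (1 - lam) * θ1 + lam * θ3 := by ring
  have := Gp_line (X := X) (T := (1 - lam) * T1 + lam * T3) he (norm_nonneg ζ)
    (by rw [e]; exact hcosp.le)
  rw [e] at this
  rw [this] at hlt
  exact absurd (hX X) (not_le.2 hlt)

private theorem lift_inj {N : ℕ} {ζ : ℂ} (hζ : ζ ≠ 0) {m1 m2 : ℕ} (h1 : m1 < N) (h2 : m2 < N)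
    (h : lift N ζ m1 = lift N ζ m2) : m1 = m2 := by
  have hN : (N : ℂ) ≠ 0 := by
    have : N ≠ 0 := by omega
    exact_mod_cast this
  unfold lift at h
  have h' := mul_left_cancel₀ hζ h
  rw [Complex.exp_eq_exp_iff_exists_int] at h'
  obtain ⟨n, hn⟩ := h'
  have hpi : (2 * Real.pi * I : ℂ) ≠ 0 := Complex.two_pi_I_ne_zero
  have h3 : (m1 : ℂ) = m2 + n * N := by
    field_simp at hn
    have h4 : (2 * Real.pi * I : ℂ) * (m1 : ℂ) = (2 * Real.pi * I : ℂ) * (m2 + n * N) := by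
      linear_combination (2 * Real.pi * I : ℂ) * hn
    exact mul_left_cancel₀ hpi h4
  have h4 : (m1 : ℤ) = m2 + n * N := by exact_mod_cast h3
  have hn0 : n = 0 := by
    by_contra hne
    rcases lt_or_gt_of_ne hne with hlt | hgt
    · have : n ≤ -1 := by omega
      have : n * (N : ℤ) ≤ -1 * (N : ℤ) := mul_le_mul_of_nonneg_right this (by positivity)
      omega
    · have : 1 ≤ n := by omega
      have : 1 * (N : ℤ) ≤ n * (N : ℤ) := mul_le_mul_of_nonneg_right this (by positivity)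
      omega
  rw [hn0] at h4
  omega

theorem top_two {N : ℕ} (hN : 0 < N) {u ζ : ℂ} (hu : ‖u‖ = 1) (hre : 0 ≤ u.re) (him : 0 ≤ u.im)
    (hζ : ζ ≠ 0) {c : ℝ} (hc : 0 < c) (hmax : IsMax N u ζ c) {m1 m2 m3 : ℕ} {T1 T2 T3 : ℝ}
    (hm1 : m1 < N) (hm2 : m2 < N) (hm3 : m3 < N) (h1 : Reach N u ζ c m1 T1)
    (h2 : Reach N u ζ c m2 T2) (h3 : Reach N u ζ c m3 T3) (h12 : (m1, T1) ≠ (m2, T2))
    (h13 : (m1, T1) ≠ (m3, T3)) (h23 : (m2, T2) ≠ (m3, T3)) : False := by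
  obtain ⟨θ1, t1, e1⟩ := line_arg hu hre him hc h1
  obtain ⟨θ2, t2, e2⟩ := line_arg hu hre him hc h2
  obtain ⟨θ3, t3, e3⟩ := line_arg hu hre him hc h3
  have g1 := reach_line h1 t1 e1
  have g2 := reach_line h2 t2 e2
  have g3 := reach_line h3 t3 e3
  have hu0 : u ≠ 0 := by
    intro h
    rw [h] at hu
    simp at hu
  -- equal angles
  have heq : ∀ (m m' : ℕ) (T T' θ θ' : ℝ), m < N → m' < N → (m, T) ≠ (m', T') →
      |θ| < Real.pi / 2 → |θ'| < Real.pi / 2 →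
      u * lift N ζ m = (‖ζ‖ : ℝ) * cexp (((θ - T : ℝ) : ℂ) * I) →
      u * lift N ζ m' = (‖ζ‖ : ℝ) * cexp (((θ' - T' : ℝ) : ℂ) * I) →
      (∀ X : ℝ, c ≤ u.re * (X ^ 2 - T ^ 2) / 2 - u.im * X * T +
        Real.exp X * (‖ζ‖ * Real.cos θ)) →
      (∀ X : ℝ, c ≤ u.re * (X ^ 2 - T' ^ 2) / 2 - u.im * X * T' +
        Real.exp X * (‖ζ‖ * Real.cos θ')) →
      θ - T ≠ θ' - T' := by
    intro m m' T T' θ θ' hm hm' hne ht ht' e e' g g' hη
    have hmm : m = m' := by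
      apply lift_inj hζ hm hm'
      apply mul_left_cancel₀ hu0
      rw [e, e', hη]
    have hTT : T ≠ T' := by
      intro h
      exact hne (by rw [hmm, h])
    refine comb_false hu hre him hζ hc hmax hm ht ht' (lam := 1 / 2) ?_ (by norm_num)
      (by norm_num) g g' ?_
    · intro h
      exact hTT (Prod.ext_iff.1 h).2
    · rw [e]
      congr 4
      rw [← hη]
      ring
  -- ordered angles
  have hord : ∀ (m m' m'' : ℕ) (T T' T'' θ θ' θ'' : ℝ), m' < N →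
      |θ| < Real.pi / 2 → |θ''| < Real.pi / 2 →
      u * lift N ζ m' = (‖ζ‖ : ℝ) * cexp (((θ' - T' : ℝ) : ℂ) * I) →
      (∀ X : ℝ, c ≤ u.re * (X ^ 2 - T ^ 2) / 2 - u.im * X * T +
        Real.exp X * (‖ζ‖ * Real.cos θ)) →
      (∀ X : ℝ, c ≤ u.re * (X ^ 2 - T'' ^ 2) / 2 - u.im * X * T'' +
        Real.exp X * (‖ζ‖ * Real.cos θ'')) →
      θ - T < θ' - T' → θ' - T' < θ'' - T'' → False := by
    intro m m' m'' T T' T'' θ θ' θ'' hm' ht ht'' e' g g'' hlt hlt'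
    have hd : 0 < (θ'' - T'') - (θ - T) := by linarith
    refine comb_false hu hre him hζ hc hmax hm' ht ht''
      (lam := ((θ' - T') - (θ - T)) / ((θ'' - T'') - (θ - T))) ?_ ?_ ?_ g g'' ?_
    · intro h
      have h5 := (Prod.ext_iff.1 h).1
      have h6 := (Prod.ext_iff.1 h).2
      simp only at h5 h6
      rw [h5, h6] at hd
      simp at hd
    · apply div_pos _ hd
      linarith
    · rw [div_lt_one hd]
      linarith
    · rw [e']
      congr 4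
      field_simp
      ring
  have n12 := heq m1 m2 T1 T2 θ1 θ2 hm1 hm2 h12 t1 t2 e1 e2 g1 g2
  have n13 := heq m1 m3 T1 T3 θ1 θ3 hm1 hm3 h13 t1 t3 e1 e3 g1 g3
  have n23 := heq m2 m3 T2 T3 θ2 θ3 hm2 hm3 h23 t2 t3 e2 e3 g2 g3
  rcases lt_or_gt_of_ne n12 with a | a
  · rcases lt_or_gt_of_ne n23 with b | b
    · exact hord m1 m2 m3 T1 T2 T3 θ1 θ2 θ3 hm2 t1 t3 e2 g1 g3 a b
    · rcases lt_or_gt_of_ne n13 with d | d
      · exact hord m1 m3 m2 T1 T3 T2 θ1 θ3 θ2 hm3 t1 t2 e3 g1 g2 d b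
      · exact hord m3 m1 m2 T3 T1 T2 θ3 θ1 θ2 hm1 t3 t2 e1 g3 g2 d a
  · rcases lt_or_gt_of_ne n13 with b | b
    · exact hord m2 m1 m3 T2 T1 T3 θ2 θ1 θ3 hm1 t2 t3 e1 g2 g3 a b
    · rcases lt_or_gt_of_ne n23 with d | d
      · exact hord m2 m3 m1 T2 T3 T1 θ2 θ3 θ1 hm3 t2 t1 e3 g2 g1 d b
      · exact hord m3 m2 m1 T3 T2 T1 θ3 θ2 θ1 hm2 t3 t1 e2 g3 g1 d a

end SokalV
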