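import Pool.Agent.Lib_MP_af4de1_v.ChainAs
import Pool.Agent.Lib_MP_af4de1_v.Rep
import Pool.Agent.Lib_MP_af4de1_v.Tail
import Pool.Agent.Lib_MP_af4de1_v.TopB

/-!
# Asymptotics of `E` and `DE` along a sequence, from a `Good` contour [SV-VAL]

`exists_fam`: `Ψ n = Ph (ζ n)`, `Ψ0 = Ph ζ0`, `w n H = ζ n e^H`, `u n = ‖t n‖/t n`, `τ n = ‖t n‖`; `u n Ψ n H/τ n = Ph (ζ n) H/t n`; primitives of entire
functions exist (see `Contour.lean` in `Lib_MP_af4de1_u`, or `P H = ∫_0^1 f(sH) H ds`); locally uniform convergence: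
`‖Ph (ζ n) H - Ph ζ0 H‖ = ‖ζ n - ζ0‖ e^{Re H}`.
`val_*`: `Good` gives `c' < c` and `R0`; choose `R ≥ max(R0, 1)` with `1/2 + 3(‖ζ0‖+1) - R/2 ≤ c'`.  `rep_E`, `rep_DE` (with `P n`, `Q n`)
and `tail_pos`, `tail_neg`: the tails are `≤ C exp(c'/‖t n‖)` for large `n`; the middle part is `chain_nil/one/two`.  Factor `I` of modulus
`1`: `J` is the one of `chain_*`.  At a saddle point `w0 S = ζ0 e^S = -S` (`Sad.crit`, `deriv_Ph`).
-/

namespace SokalV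

open Complex Filter Topology

/-- Conditions on a sequence of parameters. -/
structure Par (t ζ : ℕ → ℂ) (ζ0 u0 : ℂ) : Prop where
  ne : ∀ n, t n ≠ 0
  re : ∀ n, 0 ≤ (t n).re
  im : ∀ n, (t n).im ≤ 0
  lim : Tendsto t atTop (𝓝 0)
  dir : Tendsto (fun n => (‖t n‖ : ℂ) / t n) atTop (𝓝 u0)
  zet : Tendsto ζ atTop (𝓝 ζ0)

/-- `E √(2πt) i` at the point `ζ`. -/
noncomputable def Ev (t ζ : ℂ) : ℂ :=
  SokalU.E t (ζ / t * cexp (-t / 2)) * (2 * Real.pi * t) ^ (1 / 2 : ℂ) * I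

/-- `t DE √(2πt) i` at the point `ζ`. -/
noncomputable def Dv (t ζ : ℂ) : ℂ :=
  t * SokalU.DE t (ζ / t * cexp (-t / 2)) * (2 * Real.pi * t) ^ (1 / 2 : ℂ) * I

private theorem va_prim {g : ℂ → ℂ} (hg : Differentiable ℂ g) :
    ∃ P : ℂ → ℂ, ∀ z, HasDerivAt P (g z) z := by
  obtain ⟨P, hP⟩ := hg.isExactOn_univ
  exact ⟨P, fun z => hP z (Set.mem_univ z)⟩

private theorem va_lim {ζ : ℕ → ℂ} {ζ0 : ℂ} (h : Tendsto ζ atTop (𝓝 ζ0)) {f : ℕ → ℂ → ℂ}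
    {f0 : ℂ → ℂ} (hf : ∀ n H, f0 H - f n H = (ζ0 - ζ n) * cexp H) :
    TendstoLocallyUniformly f f0 atTop := by
  rw [Metric.tendstoLocallyUniformly_iff]
  intro ε hε x
  refine ⟨{y | ‖cexp y‖ < ‖cexp x‖ + 1}, ?_, ?_⟩
  · have h1 : Continuous fun y : ℂ => ‖cexp y‖ := by fun_prop
    exact (isOpen_lt h1 continuous_const).mem_nhds (by simp)
  · have h2 : Tendsto (fun n => ‖ζ0 - ζ n‖) atTop (𝓝 0) := by
      have := ((tendsto_const_nhds (x := ζ0)).sub h).norm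
      simpa using this
    have hp : 0 < ‖cexp x‖ + 1 := by positivity
    filter_upwards [h2.eventually_lt_const (u := ε / (‖cexp x‖ + 1)) (by positivity)] with n hn y hy
    rw [dist_eq_norm, hf, norm_mul]
    rw [lt_div_iff₀ hp] at hn
    refine lt_of_le_of_lt ?_ hn
    exact mul_le_mul_of_nonneg_left (le_of_lt hy) (norm_nonneg _)

theorem exists_fam {t ζ : ℕ → ℂ} {ζ0 u0 : ℂ} (h : Par t ζ ζ0 u0) : ∃ F : Fam,
    F.Ψ0 = Ph ζ0 ∧ F.w0 = (fun H => ζ0 * cexp H) ∧ F.u0 = u0 ∧ (∀ n, F.τ n = ‖t n‖) ∧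
    (∀ n, F.u n = ‖t n‖ / t n) ∧ (∀ n, F.Ψ n = Ph (ζ n)) ∧ ∀ n, F.w n = fun H => ζ n * cexp H := by
  have hPh : ∀ n, Differentiable ℂ (Ph (ζ n)) := fun n => differentiable_Ph (ζ n)
  have hw : ∀ n, Differentiable ℂ fun H => ζ n * cexp H := fun n => by fun_prop
  have hP : ∀ n, ∃ P : ℂ → ℂ, ∀ H, HasDerivAt P
      (cexp ((‖t n‖ : ℂ) / t n * Ph (ζ n) H / ((‖t n‖ : ℝ) : ℂ))) H := fun n => by
    refine va_prim ?_
    exact (((hPh n).const_mul _).div_const _).cexp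
  have hQ : ∀ n, ∃ Q : ℂ → ℂ, ∀ H, HasDerivAt Q
      (ζ n * cexp H * cexp ((‖t n‖ : ℂ) / t n * Ph (ζ n) H / ((‖t n‖ : ℝ) : ℂ))) H := fun n => by
    refine va_prim ?_
    exact (hw n).mul (((hPh n).const_mul _).div_const _).cexp
  choose P hP using hP
  choose Q hQ using hQ
  refine ⟨{ Ψ := fun n => Ph (ζ n), Ψ0 := Ph ζ0, w := fun n H => ζ n * cexp H,
            w0 := fun H => ζ0 * cexp H, u := fun n => ‖t n‖ / t n, u0 := u0,
            τ := fun n => ‖t n‖, P := P, Q := Q, hΨ := hPh, hw := hw,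
            hΨlim := va_lim h.zet fun n H => ?_, hwlim := va_lim h.zet fun n H => ?_,
            hulim := h.dir, hτ := fun n => norm_pos_iff.2 (h.ne n), hτlim := ?_,
            hP := hP, hQ := hQ }, rfl, rfl, rfl, fun _ => rfl, fun _ => rfl, fun _ => rfl,
            fun _ => rfl⟩
  · unfold Ph
    ring
  · ring
  · have := h.lim.norm
    rwa [norm_zero] at this

private theorem va_exp {τ : ℕ → ℝ} (hτ : ∀ n, 0 < τ n) (hτ0 : Tendsto τ atTop (𝓝 0))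
    {C η δ : ℝ} (hη : 0 < η) (hδ : 0 < δ) : ∀ᶠ n in atTop, C ≤ η * Real.exp (δ / τ n) := by
  have h2 : ∀ᶠ n in atTop, τ n < η * δ / (|C| + 1) := hτ0.eventually_lt_const (by positivity)
  filter_upwards [h2] with n hn
  have h3 : δ / τ n ≤ Real.exp (δ / τ n) := by
    have := Real.add_one_le_exp (δ / τ n)
    linarith
  have h4 : τ n * (|C| + 1) < η * δ := by
    rwa [lt_div_iff₀ (by positivity)] at hn
  calc C ≤ |C| + 1 := by linarith [le_abs_self C]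
    _ ≤ η * (δ / τ n) := by
        rw [← mul_div_assoc, le_div_iff₀ (hτ n)]
        linarith
    _ ≤ η * Real.exp (δ / τ n) := mul_le_mul_of_nonneg_left h3 hη.le

private theorem va_small {τ : ℕ → ℝ} (hτ : ∀ n, 0 < τ n) (hτ0 : Tendsto τ atTop (𝓝 0))
    {c c' : ℝ} (hc : c' < c) {J R : ℕ → ℂ} (hJ : Big τ c J) (hR : Small τ c' R) {η : ℝ}
    (hη : 0 < η) : ∀ᶠ n in atTop, ‖R n‖ ≤ η * ‖J n‖ := by
  obtain ⟨C, hC⟩ := hR
  have hδ : 0 < (c - c') / 2 := by linarith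
  filter_upwards [hC, hJ _ hδ, va_exp (C := C) hτ hτ0 hη hδ] with n h1 h2 h3
  have h4 : Real.exp ((c - (c - c') / 2) / τ n) =
      Real.exp (((c - c') / 2) / τ n) * Real.exp (c' / τ n) := by
    rw [← Real.exp_add]
    congr 1
    ring
  calc ‖R n‖ ≤ C * Real.exp (c' / τ n) := h1
    _ ≤ (η * Real.exp (((c - c') / 2) / τ n)) * Real.exp (c' / τ n) :=
        mul_le_mul_of_nonneg_right h3 (Real.exp_pos _).le
    _ = η * Real.exp ((c - (c - c') / 2) / τ n) := by rw [h4]; ring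
    _ ≤ η * ‖J n‖ := mul_le_mul_of_nonneg_left h2 hη.le

private theorem va_add {τ : ℕ → ℝ} {c : ℝ} {R R' R'' : ℕ → ℂ} (h : Small τ c R)
    (h' : Small τ c R') (e : ∀ n, R'' n = R n + R' n) : Small τ c R'' := by
  obtain ⟨C, hC⟩ := h
  obtain ⟨C', hC'⟩ := h'
  refine ⟨C + C', ?_⟩
  filter_upwards [hC, hC'] with n h1 h2
  calc ‖R'' n‖ = ‖R n + R' n‖ := by rw [e n]
    _ ≤ ‖R n‖ + ‖R' n‖ := norm_add_le _ _
    _ ≤ (C + C') * Real.exp (c / τ n) := by rw [add_mul]; exact add_le_add h1 h2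

/-- The contour integral up to the tails. -/
private theorem va_main {t ζ : ℕ → ℂ} {ζ0 u0 : ℂ} (h : Par t ζ ζ0 u0) {c : ℝ} {L : List ℂ}
    (hg : Good u0 ζ0 c L) : ∃ (F : Fam) (c' R : ℝ), F.w0 = (fun H => ζ0 * cexp H) ∧
      (∀ n, F.τ n = ‖t n‖) ∧ c' < c ∧
      Chain F.u0 F.Ψ0 c c' (-1 - R * I) L (1 + R * I) ∧
      Small (fun n => ‖t n‖) c' (fun n => Ev (t n) (ζ n) -
        (F.P n (1 + R * I) - F.P n (-1 - R * I))) ∧
      Small (fun n => ‖t n‖) c' (fun n => Dv (t n) (ζ n) -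
        (F.Q n (1 + R * I) - F.Q n (-1 - R * I))) := by
  obtain ⟨F, hΨ0, hw0, hu0, hτ, hu, hΨ, hw⟩ := exists_fam h
  obtain ⟨c', hc', R0, hR0⟩ := hg
  obtain ⟨R, hR1, hR2, hR3⟩ : ∃ R : ℝ, R0 ≤ R ∧ 1 ≤ R ∧ 2 * (1 / 2 + 3 * (‖ζ0‖ + 1) - c') ≤ R :=
    ⟨max (max R0 1) (2 * (1 / 2 + 3 * (‖ζ0‖ + 1) - c')), (le_max_left _ _).trans (le_max_left _ _),
      (le_max_right _ _).trans (le_max_left _ _), le_max_right _ _⟩
  have hch := hR0 R hR1
  rw [← hu0, ← hΨ0] at hch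
  have hphase : ∀ n H, F.u n * F.Ψ n H / F.τ n = Ph (ζ n) H / t n := by
    intro n H
    rw [hu, hΨ, hτ]
    have e1 : (‖t n‖ : ℂ) ≠ 0 := by exact_mod_cast norm_ne_zero_iff.2 (h.ne n)
    have e2 := h.ne n
    field_simp
  have hζ : ∀ᶠ n in atTop, ‖ζ n‖ ≤ ‖ζ0‖ + 1 := by
    have := h.zet.norm.eventually_lt_const (u := ‖ζ0‖ + 1) (by linarith)
    exact this.mono fun n hn => hn.le
  have ht1 : ∀ᶠ n in atTop, ‖t n‖ ≤ 1 := by
    have h5 := h.lim.norm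
    rw [norm_zero] at h5
    exact (h5.eventually_lt_const (u := 1) one_pos).mono fun n hn => hn.le
  have hexp : ∀ n, ‖ζ n‖ ≤ ‖ζ0‖ + 1 → Real.exp ((1 / 2 + 3 * ‖ζ n‖ - R / 2) / ‖t n‖) ≤
      Real.exp (c' / ‖t n‖) := by
    intro n k1
    apply Real.exp_le_exp.2
    apply div_le_div_of_nonneg_right _ (norm_nonneg _)
    linarith
  refine ⟨F, c', R, hw0, hτ, hc', hch, ?_, ?_⟩
  · refine ⟨4, ?_⟩
    filter_upwards [hζ, ht1] with n k1 k2
    have hP : ∀ H, HasDerivAt (F.P n) (cexp (Ph (ζ n) H / t n)) H := by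
      intro H
      have := F.hP n H
      rwa [hphase] at this
    have hrep := rep_E (h.ne n) (h.re n) (h.im n) R hP
    have tp := (tail_pos (ζ := ζ n) (h.ne n) (h.re n) (h.im n) hR2).1
    have tn := (tail_neg (ζ := ζ n) (h.ne n) (h.re n) (h.im n) hR2).1
    have hb : 2 * ‖t n‖ * Real.exp ((1 / 2 + 3 * ‖ζ n‖ - R / 2) / ‖t n‖) ≤
        2 * Real.exp (c' / ‖t n‖) := by
      calc _ ≤ 2 * 1 * Real.exp (c' / ‖t n‖) := by
            have := hexp n k1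
            gcongr
        _ = _ := by ring
    have e : Ev (t n) (ζ n) - (F.P n (1 + R * I) - F.P n (-1 - R * I)) =
        (∫ s in Set.Ioi R, cexp (Ph (ζ n) (1 + s * I) / t n)) * I +
        (∫ s in Set.Iio (-R), cexp (Ph (ζ n) (-1 + s * I) / t n)) * I := by
      unfold Ev
      rw [hrep]; ring
    change ‖Ev (t n) (ζ n) - (F.P n (1 + R * I) - F.P n (-1 - R * I))‖ ≤ _
    rw [e]
    refine (norm_add_le _ _).trans ?_
    rw [norm_mul, norm_mul, norm_I, mul_one, mul_one]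
    linarith
  · refine ⟨12 * (‖ζ0‖ + 1), ?_⟩
    filter_upwards [hζ, ht1] with n k1 k2
    have hQ : ∀ H, HasDerivAt (F.Q n) (ζ n * cexp H * cexp (Ph (ζ n) H / t n)) H := by
      intro H
      have := F.hQ n H
      rw [hphase, hw] at this
      exact this
    have hrep := rep_DE (h.ne n) (h.re n) (h.im n) R hQ
    have tp := (tail_pos (ζ := ζ n) (h.ne n) (h.re n) (h.im n) hR2).2
    have tn := (tail_neg (ζ := ζ n) (h.ne n) (h.re n) (h.im n) hR2).2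
    have hb : 6 * ‖ζ n‖ * ‖t n‖ * Real.exp ((1 / 2 + 3 * ‖ζ n‖ - R / 2) / ‖t n‖) ≤
        6 * (‖ζ0‖ + 1) * Real.exp (c' / ‖t n‖) := by
      calc _ ≤ 6 * (‖ζ0‖ + 1) * 1 * Real.exp (c' / ‖t n‖) := by
            have := hexp n k1
            gcongr
        _ = _ := by ring
    have e : Dv (t n) (ζ n) - (F.Q n (1 + R * I) - F.Q n (-1 - R * I)) =
        (∫ s in Set.Ioi R, ζ n * cexp (1 + s * I) * cexp (Ph (ζ n) (1 + s * I) / t n)) * I +
        (∫ s in Set.Iio (-R), ζ n * cexp (-1 + s * I) * cexp (Ph (ζ n) (-1 + s * I) / t n)) * I := by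
      unfold Dv
      rw [hrep]; ring
    change ‖Dv (t n) (ζ n) - (F.Q n (1 + R * I) - F.Q n (-1 - R * I))‖ ≤ _
    rw [e]
    refine (norm_add_le _ _).trans ?_
    rw [norm_mul, norm_mul, norm_I, mul_one, mul_one]
    linarith

private theorem va_crit {u ζ : ℂ} {c c' : ℝ} {A B : ℂ} {L : List ℂ}
    (h : Chain u (Ph ζ) c c' A L B) {S : ℂ} (hS : S ∈ L) : S + ζ * cexp S = 0 := by
  induction h with
  | nil _ => exact absurd hS List.not_mem_nil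
  | cons _ h2 _ ih =>
    rcases List.mem_cons.1 hS with h3 | h3
    · rw [h3, ← deriv_Ph]
      exact h2.crit
    · exact ih h3

/-- The saddle point of a good list. -/
theorem good_crit {u ζ : ℂ} {c : ℝ} {L : List ℂ} (hg : Good u ζ c L) {S : ℂ} (hS : S ∈ L) :
    S + ζ * cexp S = 0 := by
  obtain ⟨c', _, R0, hR0⟩ := hg
  exact va_crit (hR0 R0 le_rfl) hS

theorem val_nil {t ζ : ℕ → ℂ} {ζ0 u0 : ℂ} (h : Par t ζ ζ0 u0) {c : ℝ} (hg : Good u0 ζ0 c []) :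
    ∃ c' : ℝ, c' < c ∧ Small (fun n => ‖t n‖) c' (fun n => Ev (t n) (ζ n)) ∧
      Small (fun n => ‖t n‖) c' (fun n => Dv (t n) (ζ n)) := by
  obtain ⟨F, c', R, _, hτ, hc', hch, hE, hD⟩ := va_main h hg
  have hτ' : F.τ = fun n => ‖t n‖ := funext hτ
  obtain ⟨h1, h2⟩ := chain_nil F hch
  rw [hτ'] at h1 h2
  exact ⟨c', hc', va_add hE h1 fun n => by ring, va_add hD h2 fun n => by ring⟩

theorem val_one {t ζ : ℕ → ℂ} {ζ0 u0 : ℂ} (h : Par t ζ ζ0 u0) {c : ℝ} {S : ℂ}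
    (hg : Good u0 ζ0 c [S]) : ∃ c' : ℝ, c' < c ∧ ∃ J : ℕ → ℂ, Big (fun n => ‖t n‖) c J ∧
      Small (fun n => ‖t n‖) c' (fun n => Ev (t n) (ζ n) - J n) ∧
      ∀ ε : ℝ, 0 < ε → ∀ᶠ n in atTop, ‖Dv (t n) (ζ n) + S * J n‖ ≤ ε * ‖J n‖ := by
  have hS := good_crit hg (List.mem_singleton_self S)
  obtain ⟨F, c', R, hw0, hτ, hc', hch, hE, hD⟩ := va_main h hg
  have hτ' : F.τ = fun n => ‖t n‖ := funext hτ
  have hτp : ∀ n, 0 < ‖t n‖ := fun n => norm_pos_iff.2 (h.ne n)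
  have hτl : Tendsto (fun n => ‖t n‖) atTop (𝓝 0) := by
    have := h.lim.norm
    rwa [norm_zero] at this
  obtain ⟨J, hJ, h1, h2⟩ := chain_one F hc' hch
  have hw : F.w0 S = -S := by
    rw [hw0]
    linear_combination hS
  rw [hτ'] at hJ h1
  refine ⟨c', hc', J, hJ, va_add hE h1 fun n => by ring, fun ε hε => ?_⟩
  filter_upwards [h2 (ε / 2) (by positivity),
    va_small hτp hτl hc' hJ hD (η := ε / 2) (by positivity)] with n k1 k2
  rw [hw] at k1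
  calc ‖Dv (t n) (ζ n) + S * J n‖
      = ‖(F.Q n (1 + R * I) - F.Q n (-1 - R * I) - -S * J n) +
          (Dv (t n) (ζ n) - (F.Q n (1 + R * I) - F.Q n (-1 - R * I)))‖ := by
        congr 1
        ring
    _ ≤ _ := norm_add_le _ _
    _ ≤ ε / 2 * ‖J n‖ + ε / 2 * ‖J n‖ := add_le_add k1 k2
    _ = ε * ‖J n‖ := by ring

theorem val_two {t ζ : ℕ → ℂ} {ζ0 u0 : ℂ} (h : Par t ζ ζ0 u0) {c : ℝ} {S S' : ℂ}
    (hg : Good u0 ζ0 c [S, S']) : ∃ c' : ℝ, c' < c ∧ ∃ J J' : ℕ → ℂ,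
      Big (fun n => ‖t n‖) c J ∧ Big (fun n => ‖t n‖) c J' ∧
      Small (fun n => ‖t n‖) c' (fun n => Ev (t n) (ζ n) - J n - J' n) ∧
      ∀ ε : ℝ, 0 < ε → ∀ᶠ n in atTop,
        ‖Dv (t n) (ζ n) + S * J n + S' * J' n‖ ≤ ε * (‖J n‖ + ‖J' n‖) := by
  have hS := good_crit hg (S := S) (by simp)
  have hS' := good_crit hg (S := S') (by simp)
  obtain ⟨F, c', R, hw0, hτ, hc', hch, hE, hD⟩ := va_main h hg
  have hτ' : F.τ = fun n => ‖t n‖ := funext hτ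
  have hτp : ∀ n, 0 < ‖t n‖ := fun n => norm_pos_iff.2 (h.ne n)
  have hτl : Tendsto (fun n => ‖t n‖) atTop (𝓝 0) := by
    have := h.lim.norm
    rwa [norm_zero] at this
  obtain ⟨J, J', hJ, hJ', h1, h2⟩ := chain_two F hc' hch
  have hw : F.w0 S = -S := by
    rw [hw0]
    linear_combination hS
  have hw' : F.w0 S' = -S' := by
    rw [hw0]
    linear_combination hS'
  rw [hτ'] at hJ hJ' h1
  refine ⟨c', hc', J, J', hJ, hJ', va_add hE h1 fun n => by ring, fun ε hε => ?_⟩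
  filter_upwards [h2 (ε / 2) (by positivity),
    va_small hτp hτl hc' hJ hD (η := ε / 2) (by positivity)] with n k1 k2
  rw [hw, hw'] at k1
  calc ‖Dv (t n) (ζ n) + S * J n + S' * J' n‖
      = ‖(F.Q n (1 + R * I) - F.Q n (-1 - R * I) - -S * J n - -S' * J' n) +
          (Dv (t n) (ζ n) - (F.Q n (1 + R * I) - F.Q n (-1 - R * I)))‖ := by
        congr 1
        ring
    _ ≤ _ := norm_add_le _ _
    _ ≤ ε / 2 * (‖J n‖ + ‖J' n‖) + ε / 2 * ‖J n‖ := add_le_add k1 k2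
    _ ≤ ε * (‖J n‖ + ‖J' n‖) := by nlinarith [norm_nonneg (J' n)]

end SokalV
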