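import Pool.Agent.Lib_MP_af4de1_v.Val

/-!
# Asymptotics of `E` along a sequence, precise form for one saddle point [SV-VAL1]

As `val_one`, but with the asymptotic value of `J`: `exists_fam`, `rep_E`, `tail_pos`, `tail_neg`, the chain `[S]` unfolded (`cases` twice) and `Fam.rel` for the
two connections, so `Ev = P(S+v) - P(S-v) + O(exp(c'/‖t‖))`, `c' < c`; `Fam.saddle`: `(P(S+v) - P(S-v))/(√τ cexp(u_nΨ_n(S_n)/τ_n)) → c0 ≠ 0`, `u_nΨ_n/τ_n = Ph (ζ n)/t n`, and
`Re(u_nΨ_n(S_n)) → c`, so `exp(c'/τ)/(√τ exp(Re …/τ)) → 0`.  `deriv (Ph ζ) H = H + ζe^H` (`deriv_Ph`, `TopB.lean`).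
-/

namespace SokalV

open Complex Filter Topology

private theorem v1_exp {τ : ℕ → ℝ} (hτ : ∀ n, 0 < τ n) (hτ0 : Tendsto τ atTop (𝓝 0))
    {C η δ : ℝ} (hη : 0 < η) (hδ : 0 < δ) : ∀ᶠ n in atTop, C ≤ η * Real.exp (δ / τ n) := by
  have h2 : ∀ᶠ n in atTop, τ n < η * δ / (|C| + 1) := hτ0.eventually_lt_const (by positivity)
  filter_upwards [h2] with n hn
  have h3 : δ / τ n ≤ Real.exp (δ / τ n) := by
    have := Real.add_one_le_exp (δ / τ n)
    linarith
  have h4 : τ n * (|C| + 1) < η * δ := by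
    rwa [lt_div_iff₀ (by positivity)] at hn
  calc C ≤ |C| + 1 := by linarith [le_abs_self C]
    _ ≤ η * (δ / τ n) := by
        rw [← mul_div_assoc, le_div_iff₀ (hτ n)]
        linarith
    _ ≤ η * Real.exp (δ / τ n) := mul_le_mul_of_nonneg_left h3 hη.le

private theorem v1_small {τ : ℕ → ℝ} (hτ : ∀ n, 0 < τ n) (hτ0 : Tendsto τ atTop (𝓝 0))
    {c c' : ℝ} (hc : c' < c) {J R : ℕ → ℂ} (hJ : Big τ c J) (hR : Small τ c' R) {η : ℝ}
    (hη : 0 < η) : ∀ᶠ n in atTop, ‖R n‖ ≤ η * ‖J n‖ := by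
  obtain ⟨C, hC⟩ := hR
  have hδ : 0 < (c - c') / 2 := by linarith
  filter_upwards [hC, hJ _ hδ, v1_exp (C := C) hτ hτ0 hη hδ] with n h1 h2 h3
  have h4 : Real.exp ((c - (c - c') / 2) / τ n) =
      Real.exp (((c - c') / 2) / τ n) * Real.exp (c' / τ n) := by
    rw [← Real.exp_add]
    congr 1
    ring
  calc ‖R n‖ ≤ C * Real.exp (c' / τ n) := h1
    _ ≤ (η * Real.exp (((c - c') / 2) / τ n)) * Real.exp (c' / τ n) :=
        mul_le_mul_of_nonneg_right h3 (Real.exp_pos _).le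
    _ = η * Real.exp ((c - (c - c') / 2) / τ n) := by rw [h4]; ring
    _ ≤ η * ‖J n‖ := mul_le_mul_of_nonneg_left h2 hη.le

theorem val_one_lim {t ζ : ℕ → ℂ} {ζ0 u0 : ℂ} (h : Par t ζ ζ0 u0) {c : ℝ} {S : ℂ}
    (hg : Good u0 ζ0 c [S]) : ∃ (Sn : ℕ → ℂ) (c0 : ℂ), c0 ≠ 0 ∧ Tendsto Sn atTop (𝓝 S) ∧
      (∀ᶠ n in atTop, Sn n + ζ n * cexp (Sn n) = 0) ∧
      Tendsto (fun n => Ev (t n) (ζ n) / (√‖t n‖ * cexp (Ph (ζ n) (Sn n) / t n)))
        atTop (𝓝 c0) := by
  obtain ⟨F, hΨ0, _, hu0, hτ, hu, hΨ, _⟩ := exists_fam h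
  obtain ⟨c', hc', R0, hR0⟩ := hg
  set R : ℝ := max (max R0 1) (2 * (1 / 2 + 3 * (‖ζ0‖ + 1) - c')) with hR
  have hR1 : R0 ≤ R := (le_max_left _ _).trans (le_max_left _ _)
  have hR2 : 1 ≤ R := (le_max_right _ _).trans (le_max_left _ _)
  have hR3 : 2 * (1 / 2 + 3 * (‖ζ0‖ + 1) - c') ≤ R := le_max_right _ _
  have hch := hR0 R hR1
  rw [← hu0, ← hΨ0] at hch
  cases hch with
  | @cons _ _ _ v _ h1 h2 h3 =>
    cases h3 with
    | nil h4 =>
      obtain ⟨Sn, c0, hc0, hSn, hcrit, hl, -⟩ := F.saddle h2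
      have hphase : ∀ n H, F.u n * F.Ψ n H / F.τ n = Ph (ζ n) H / t n := by
        intro n H
        rw [hu, hΨ, hτ]
        have e1 : (‖t n‖ : ℂ) ≠ 0 := by exact_mod_cast norm_ne_zero_iff.2 (h.ne n)
        have e2 := h.ne n
        field_simp
      refine ⟨Sn, c0, hc0, hSn, hcrit.mono fun n hn => ?_, ?_⟩
      · rw [hΨ, deriv_Ph] at hn; exact hn
      -- the tails
      have hζ : ∀ᶠ n in atTop, ‖ζ n‖ ≤ ‖ζ0‖ + 1 := by
        have := h.zet.norm.eventually_lt_const (u := ‖ζ0‖ + 1) (by linarith)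
        exact this.mono fun n hn => hn.le
      have ht1 : ∀ᶠ n in atTop, ‖t n‖ ≤ 1 := by
        have h5 := h.lim.norm
        rw [norm_zero] at h5
        exact (h5.eventually_lt_const (u := 1) one_pos).mono fun n hn => hn.le
      obtain ⟨C1, hC1⟩ := F.rel h1
      obtain ⟨C4, hC4⟩ := F.rel h4
      have hEr : Small F.τ c' (fun n => Ev (t n) (ζ n) - (F.P n (S + v) - F.P n (S - v))) := by
        refine ⟨C1 + C4 + 4, ?_⟩
        filter_upwards [hζ, ht1, hC1, hC4] with n k1 k2 k3 k4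
        have hP : ∀ H, HasDerivAt (F.P n) (cexp (Ph (ζ n) H / t n)) H := by
          intro H
          have := F.hP n H
          rwa [hphase] at this
        have hrep := rep_E (h.ne n) (h.re n) (h.im n) R hP
        have tp := (tail_pos (ζ := ζ n) (h.ne n) (h.re n) (h.im n) hR2).1
        have tn := (tail_neg (ζ := ζ n) (h.ne n) (h.re n) (h.im n) hR2).1
        have hn0 : 0 < ‖t n‖ := norm_pos_iff.2 (h.ne n)
        have hexp : Real.exp ((1 / 2 + 3 * ‖ζ n‖ - R / 2) / ‖t n‖) ≤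
            Real.exp (c' / F.τ n) := by
          rw [hτ]
          apply Real.exp_le_exp.2
          apply div_le_div_of_nonneg_right _ hn0.le
          linarith
        have hb : 2 * ‖t n‖ * Real.exp ((1 / 2 + 3 * ‖ζ n‖ - R / 2) / ‖t n‖) ≤
            2 * Real.exp (c' / F.τ n) := by
          calc _ ≤ 2 * 1 * Real.exp (c' / F.τ n) := by gcongr
            _ = _ := by ring
        have e : Ev (t n) (ζ n) - (F.P n (S + v) - F.P n (S - v)) =
            (F.P n (S - v) - F.P n (-1 - R * I)) + (F.P n (1 + R * I) - F.P n (S + v)) +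
            ((∫ s in Set.Ioi R, cexp (Ph (ζ n) (1 + s * I) / t n)) * I +
            (∫ s in Set.Iio (-R), cexp (Ph (ζ n) (-1 + s * I) / t n)) * I) := by
          unfold Ev
          rw [hrep]; ring
        rw [e]
        refine norm_add₃_le.trans ?_
        have e5 : ‖(∫ s in Set.Ioi R, cexp (Ph (ζ n) (1 + s * I) / t n)) * I +
            (∫ s in Set.Iio (-R), cexp (Ph (ζ n) (-1 + s * I) / t n)) * I‖ ≤
            4 * Real.exp (c' / F.τ n) := by
          refine (norm_add_le _ _).trans ?_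
          rw [norm_mul, norm_mul, norm_I, mul_one, mul_one]
          linarith
        linarith [k3.1, k4.1]
      -- the saddle contribution is big
      have hloc : Chain F.u0 F.Ψ0 c c' (S - v) [S] (S + v) :=
        Chain.cons (Conn.refl h1.right) h2 (Chain.nil (Conn.refl h4.left))
      obtain ⟨J, hJ, hPJ, -⟩ := chain_one F hc' hloc
      have hbig := v1_small F.hτ F.hτlim hc' hJ hPJ (η := 1 / 2) (by norm_num)
      have hJD : ∀ᶠ n in atTop, ‖(F.P n (S + v) - F.P n (S - v)) /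
          (√(F.τ n) * cexp (F.u n * F.Ψ n (Sn n) / F.τ n))‖ < ‖c0‖ + 1 :=
        hl.norm.eventually_lt_const (by linarith)
      have hsmall : Tendsto (fun n => (Ev (t n) (ζ n) - (F.P n (S + v) - F.P n (S - v))) /
          (√(F.τ n) * cexp (F.u n * F.Ψ n (Sn n) / F.τ n))) atTop (𝓝 0) := by
        rw [Metric.tendsto_nhds]
        intro ε hε
        filter_upwards [v1_small F.hτ F.hτlim hc' hJ hEr (η := ε / (2 * (‖c0‖ + 1)))
          (by positivity), hbig, hJD] with n k1 k2 k3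
        rw [dist_zero_right, norm_div]
        rw [norm_div] at k3
        have hD : 0 < ‖(√(F.τ n) : ℂ) * cexp (F.u n * F.Ψ n (Sn n) / F.τ n)‖ := by
          rw [norm_pos_iff]
          refine mul_ne_zero ?_ (exp_ne_zero _)
          have : √(F.τ n) ≠ 0 := (Real.sqrt_pos.2 (F.hτ n)).ne'
          exact_mod_cast this
        rw [div_lt_iff₀ hD] at k3 ⊢
        have k4 : ‖J n‖ ≤ 2 * ‖F.P n (S + v) - F.P n (S - v)‖ := by
          have e : J n = (F.P n (S + v) - F.P n (S - v)) -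
              (F.P n (S + v) - F.P n (S - v) - J n) := by ring
          have := norm_sub_le (F.P n (S + v) - F.P n (S - v))
            (F.P n (S + v) - F.P n (S - v) - J n)
          rw [← e] at this
          linarith
        have hη : 0 < ε / (2 * (‖c0‖ + 1)) := by positivity
        calc ‖Ev (t n) (ζ n) - (F.P n (S + v) - F.P n (S - v))‖
            ≤ ε / (2 * (‖c0‖ + 1)) * ‖J n‖ := k1
          _ ≤ ε / (2 * (‖c0‖ + 1)) * (2 * ‖F.P n (S + v) - F.P n (S - v)‖) :=
              mul_le_mul_of_nonneg_left k4 hη.le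
          _ < ε / (2 * (‖c0‖ + 1)) * (2 * ((‖c0‖ + 1) *
                ‖(√(F.τ n) : ℂ) * cexp (F.u n * F.Ψ n (Sn n) / F.τ n)‖)) := by
              apply mul_lt_mul_of_pos_left _ hη
              linarith
          _ = ε * ‖(√(F.τ n) : ℂ) * cexp (F.u n * F.Ψ n (Sn n) / F.τ n)‖ := by
              field_simp
      have hsum := hl.add hsmall
      rw [add_zero] at hsum
      refine hsum.congr fun n => ?_
      rw [← add_div, hphase, hτ]
      congr 1
      ring

end SokalV
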